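import Mathlib

/-!
The Milnor K-groups of a field (helper96).
-/

set_option autoImplicit false

open Function

namespace Pool.Agent.KM

/-- The relations of Milnor K-theory, in the free abelian group on the `n`-tuples of units. -/
inductive MilnorRel (F : Type) [Field F] (n : ℕ) : FreeAbelianGroup (Fin n → Fˣ) → Prop
  | mul (x : Fin n → Fˣ) (i : Fin n) (a b : Fˣ) :
      MilnorRel F n (FreeAbelianGroup.of (update x i (a * b)) -
        FreeAbelianGroup.of (update x i a) - FreeAbelianGroup.of (update x i b))
  | steinberg (x : Fin n → Fˣ) (i j : Fin n) (hij : (i : ℕ) + 1 = j) (h : (x i : F) + x j = 1) :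
      MilnorRel F n (FreeAbelianGroup.of x)

/-- The Milnor K-group `K^M_n(F)`: generators `{x_1,...,x_n}`, multi-additive, and `0` if two
neighbouring entries have sum `1`. -/
abbrev MilnorK (F : Type) [Field F] (n : ℕ) : Type :=
  FreeAbelianGroup (Fin n → Fˣ) ⧸ AddSubgroup.closure {ξ | MilnorRel F n ξ}

end Pool.Agent.KM
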