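import Pool.Agent.KM.Defs

set_option autoImplicit false
set_option linter.all false

open Function

namespace Pool.Agent.KM

theorem line_bad {K E W : Type} [Field K] [AddCommGroup E] [Module K E] [AddCommGroup W]
    [Module K W] [FiniteDimensional K W] (A B : E →ₗ[K] W) (h : Surjective A) :
    {t : K | ¬ Surjective (A + t • B)}.Finite ∧
      {t : K | ¬ Surjective (A + t • B)}.ncard ≤ Module.finrank K W := by
  classical
  obtain ⟨σ, hσ⟩ := A.exists_rightInverse_of_surjective (LinearMap.range_eq_top.2 h)
  set M : W →ₗ[K] W := B ∘ₗ σ with hM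
  have hsub : {t : K | ¬ Surjective (A + t • B)} ⊆
      ((M.charpoly.roots.toFinset.image (fun μ => -μ⁻¹) : Finset K) : Set K) := by
    intro t ht
    have ht' : ¬ Surjective (A + t • B) := ht
    have h1 : ¬ Surjective (LinearMap.id + t • M : W →ₗ[K] W) := by
      intro hs
      apply ht'
      intro w
      obtain ⟨v, hv⟩ := hs w
      refine ⟨σ v, ?_⟩
      rw [← hv]
      have h2 : A (σ v) = v := by
        have := LinearMap.congr_fun hσ v
        simpa using this
      simp [hM, h2]
    have h3 : ¬ Injective (LinearMap.id + t • M : W →ₗ[K] W) := by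
      intro hi
      exact h1 (LinearMap.injective_iff_surjective.1 hi)
    obtain ⟨v, hv0, hv⟩ : ∃ v : W, v ≠ 0 ∧ v + t • M v = 0 := by
      by_contra hcon
      apply h3
      rw [injective_iff_map_eq_zero]
      intro v hv
      by_contra hv0
      exact hcon ⟨v, hv0, by simpa using hv⟩
    have ht0 : t ≠ 0 := by
      rintro rfl
      simp at hv
      exact hv0 hv
    have hev : Module.End.HasEigenvalue M (-t⁻¹) := by
      apply Module.End.hasEigenvalue_of_hasEigenvector (x := v)
      refine ⟨?_, hv0⟩
      rw [Module.End.mem_eigenspace_iff]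
      have h4 : t • M v = -v := eq_neg_of_add_eq_zero_right hv
      calc M v = t⁻¹ • (t • M v) := by rw [smul_smul, inv_mul_cancel₀ ht0, one_smul]
        _ = -t⁻¹ • v := by rw [h4]; simp
    have hroot : M.charpoly.IsRoot (-t⁻¹) := (Module.End.hasEigenvalue_iff_isRoot_charpoly M _).1 hev
    rw [Finset.coe_image]
    refine ⟨-t⁻¹, ?_, ?_⟩
    · rw [Finset.mem_coe, Multiset.mem_toFinset, Polynomial.mem_roots']
      exact ⟨M.charpoly_monic.ne_zero, hroot⟩
    · simp
  refine ⟨(Finset.finite_toSet _).subset hsub, ?_⟩
  calc {t : K | ¬ Surjective (A + t • B)}.ncard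
      ≤ ((M.charpoly.roots.toFinset.image (fun μ => -μ⁻¹) : Finset K) : Set K).ncard :=
        Set.ncard_le_ncard hsub (Finset.finite_toSet _)
    _ = (M.charpoly.roots.toFinset.image (fun μ => -μ⁻¹)).card := Set.ncard_coe_finset _
    _ ≤ M.charpoly.roots.toFinset.card := Finset.card_image_le
    _ ≤ Multiset.card M.charpoly.roots := Multiset.toFinset_card_le _
    _ ≤ M.charpoly.natDegree := Polynomial.card_roots' _
    _ = Module.finrank K W := M.charpoly_natDegree

theorem count_bad {K L : Type} [Field K] [Fintype K] [AddCommGroup L] [Module K L] [Finite L]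
    (bad : L → Prop) (y0 : L) (w : ℕ)
    (h : ∀ y, {t : K | bad (y0 + t • (y - y0))}.ncard ≤ w) :
    {y | bad y}.ncard * (Fintype.card K - 1) ≤ w * Nat.card L := by
  classical
  haveI : Fintype L := Fintype.ofFinite L
  set P : Finset (Sigma fun _ : L => K) := (Finset.univ : Finset L).sigma
    (fun y => (Finset.univ : Finset K).filter (fun t => bad (y0 + t • (y - y0)))) with hP
  have h1 : P.card ≤ w * Nat.card L := by
    rw [hP, Finset.card_sigma]
    calc ∑ y : L, ((Finset.univ : Finset K).filter (fun t => bad (y0 + t • (y - y0)))).card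
        ≤ ∑ y : L, w := by
          apply Finset.sum_le_sum
          intro y _
          have := h y
          rw [Set.ncard_eq_toFinset_card'] at this
          simpa [Set.toFinset_setOf] using this
      _ = w * Nat.card L := by
          rw [Finset.sum_const, Finset.card_univ, Nat.card_eq_fintype_card, smul_eq_mul, mul_comm]
  have h2 : {y | bad y}.ncard * (Fintype.card K - 1) ≤ P.card := by
    have h3 : {y | bad y}.ncard * (Fintype.card K - 1) =
        (((Finset.univ : Finset L).filter bad) ×ˢ
          ((Finset.univ : Finset K).erase 0)).card := by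
      rw [Finset.card_product, Finset.card_erase_of_mem (Finset.mem_univ _), Finset.card_univ,
        Set.ncard_eq_toFinset_card']
      simp [Set.toFinset_setOf]
    rw [h3]
    apply Finset.card_le_card_of_injOn
      (fun q : L × K => (⟨y0 + q.2⁻¹ • (q.1 - y0), q.2⟩ : Sigma fun _ : L => K))
    · intro q hq
      rw [Finset.mem_coe, Finset.mem_product, Finset.mem_filter, Finset.mem_erase] at hq
      rw [Finset.mem_coe, hP, Finset.mem_sigma]
      refine ⟨Finset.mem_univ _, ?_⟩
      rw [Finset.mem_filter]
      refine ⟨Finset.mem_univ _, ?_⟩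
      have : y0 + q.2 • (y0 + q.2⁻¹ • (q.1 - y0) - y0) = q.1 := by
        rw [add_sub_cancel_left, smul_smul, mul_inv_cancel₀ hq.2.1, one_smul]
        abel
      show bad (y0 + q.2 • (y0 + q.2⁻¹ • (q.1 - y0) - y0))
      rw [this]
      exact hq.1.2
    · intro q hq q' hq' he
      rw [Finset.mem_coe, Finset.mem_product, Finset.mem_filter, Finset.mem_erase] at hq hq'
      have e1 : y0 + q.2⁻¹ • (q.1 - y0) = y0 + q'.2⁻¹ • (q'.1 - y0) := congrArg Sigma.fst he
      have e2 : q.2 = q'.2 := by
        have := congrArg (fun z : (Sigma fun _ : L => K) => z.2) he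
        simpa using this
      rw [e2] at e1
      have e3 : q'.2⁻¹ • (q.1 - y0) = q'.2⁻¹ • (q'.1 - y0) := add_left_cancel e1
      have e4 : q.1 - y0 = q'.1 - y0 := by
        have := congrArg (fun z => q'.2 • z) e3
        simpa [smul_smul, mul_inv_cancel₀ hq'.2.1] using this
      exact Prod.ext (sub_left_injective e4) e2
  exact h2.trans h1

theorem family_bad {K L E W : Type} [Field K] [Fintype K] [AddCommGroup L] [Module K L]
    [Finite L] [AddCommGroup E] [Module K E] [AddCommGroup W] [Module K W]
    [FiniteDimensional K W] (A : E →ₗ[K] W) (B : L →ₗ[K] (E →ₗ[K] W)) (y0 : L)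
    (h : Surjective (A + B y0)) :
    {y : L | ¬ Surjective (A + B y)}.ncard * (Fintype.card K - 1) ≤
      Module.finrank K W * Nat.card L := by
  apply count_bad (fun y => ¬ Surjective (A + B y)) y0
  intro y
  have := (line_bad (A + B y0) (B (y - y0)) h).2
  have e : ∀ t : K, A + B (y0 + t • (y - y0)) = A + B y0 + t • B (y - y0) := by
    intro t
    rw [map_add, map_smul, add_assoc]
  simpa only [e] using this

end Pool.Agent.KM
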