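import Pool.Agent.KM.Defs

/-!
Project KM: signed matchings of a set of even cardinality, and the syzygies they give.
-/

set_option autoImplicit false

open Function

namespace Pool.Agent.KM

theorem exists_matching {I : Type} [DecidableEq I] (E : Finset I) (hE : Even E.card) :
    ∃ (σ : I → I) (s : I → ℤ), ∀ i ∈ E, σ i ∈ E ∧ σ i ≠ i ∧ σ (σ i) = i ∧
      (s i = 1 ∨ s i = -1) ∧ s (σ i) = - s i := by
  have key : ∀ (n : ℕ) (E : Finset I), E.card = 2 * n →
      ∃ (σ : I → I) (s : I → ℤ), ∀ i ∈ E, σ i ∈ E ∧ σ i ≠ i ∧ σ (σ i) = i ∧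
        (s i = 1 ∨ s i = -1) ∧ s (σ i) = - s i := by
    intro n
    induction n with
    | zero =>
      intro E hE
      have hE0 : E = ∅ := Finset.card_eq_zero.1 (by omega)
      refine ⟨id, fun _ => 1, fun i hi => ?_⟩
      rw [hE0] at hi
      exact absurd hi (Finset.notMem_empty i)
    | succ n ih =>
      intro E hE
      obtain ⟨a, ha⟩ : E.Nonempty := Finset.card_pos.1 (by omega)
      have h1 : (E.erase a).card = 2 * n + 1 := by
        rw [Finset.card_erase_of_mem ha]; omega
      obtain ⟨b, hb⟩ : (E.erase a).Nonempty := Finset.card_pos.1 (by omega)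
      have hba : b ≠ a := (Finset.mem_erase.1 hb).1
      have hbE : b ∈ E := (Finset.mem_erase.1 hb).2
      have h2 : ((E.erase a).erase b).card = 2 * n := by
        rw [Finset.card_erase_of_mem hb]; omega
      obtain ⟨σ, s, h⟩ := ih _ h2
      refine ⟨fun i => if i = a then b else if i = b then a else σ i,
        fun i => if i = a then 1 else if i = b then -1 else s i, fun i hi => ?_⟩
      dsimp only
      by_cases hia : i = a
      · subst hia
        rw [if_pos rfl, if_pos rfl, if_neg hba, if_pos rfl]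
        refine ⟨hbE, hba, rfl, Or.inl rfl, ?_⟩
        rw [if_neg hba, if_pos rfl]
      · by_cases hib : i = b
        · subst hib
          rw [if_neg hia, if_pos rfl, if_pos rfl, if_neg hia, if_pos rfl, if_pos rfl]
          exact ⟨ha, fun h => hia h.symm, rfl, Or.inr rfl, by norm_num⟩
        · have hi' : i ∈ (E.erase a).erase b :=
            Finset.mem_erase.2 ⟨hib, Finset.mem_erase.2 ⟨hia, hi⟩⟩
          obtain ⟨g1, g2, g3, g4, g5⟩ := h i hi'
          have g1b : σ i ≠ b := (Finset.mem_erase.1 g1).1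
          have g1a : σ i ≠ a := (Finset.mem_erase.1 (Finset.mem_erase.1 g1).2).1
          have g1E : σ i ∈ E := (Finset.mem_erase.1 (Finset.mem_erase.1 g1).2).2
          rw [if_neg hia, if_neg hib, if_neg g1a, if_neg g1b, if_neg hia, if_neg hib,
            if_neg g1a, if_neg g1b]
          exact ⟨g1E, g2, g3, g4, g5⟩
  obtain ⟨n, hn⟩ := hE
  exact key n E (by omega)

variable {K V W I : Type} [Field K] [AddCommGroup V] [Module K V] [AddCommGroup W] [Module K W]
  [Fintype I] [DecidableEq I] (β : V →ₗ[K] V →ₗ[K] W)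

/-- the matching gives a syzygy -/
theorem matching_syz (hβ : ∀ a b, β a b = β b a) (E : Finset I) (σ : I → I) (s : I → ℤ)
    (h : ∀ i ∈ E, σ i ∈ E ∧ σ i ≠ i ∧ σ (σ i) = i ∧ (s i = 1 ∨ s i = -1) ∧ s (σ i) = - s i)
    (x : I → V) : gen β Finset.univ x (fun i => if i ∈ E then s i • x (σ i) else 0) = 0 := by
  have h0 : gen β Finset.univ x (fun i => if i ∈ E then s i • x (σ i) else 0) =
      ∑ i ∈ E, s i • β (x i) (x (σ i)) := by
    rw [gen, LinearMap.sum_apply, ← Finset.sum_filter_add_sum_filter_not Finset.univ (· ∈ E)]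
    have e2 : ∑ i ∈ Finset.univ.filter (fun i => ¬ i ∈ E), ((β (x i)).comp
        (LinearMap.proj i : (I → V) →ₗ[K] V)) (fun i => if i ∈ E then s i • x (σ i) else 0) = 0 := by
      apply Finset.sum_eq_zero
      intro i hi
      have hi' : i ∉ E := (Finset.mem_filter.1 hi).2
      show β (x i) (if i ∈ E then s i • x (σ i) else 0) = 0
      rw [if_neg hi', map_zero]
    rw [e2, add_zero]
    have e3 : Finset.univ.filter (fun i => i ∈ E) = E := by
      ext i; simp
    rw [e3]
    refine Finset.sum_congr rfl fun i hi => ?_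
    show β (x i) (if i ∈ E then s i • x (σ i) else 0) = s i • β (x i) (x (σ i))
    rw [if_pos hi, map_zsmul]
  rw [h0]
  refine Finset.sum_involution (fun i _ => σ i) ?_ ?_ ?_ ?_
  · intro i hi
    obtain ⟨-, -, g3, -, g5⟩ := h i hi
    rw [g3, g5, hβ (x (σ i)) (x i), neg_smul, add_neg_cancel]
  · intro i hi _
    exact (h i hi).2.1
  · intro i hi
    exact (h i hi).1
  · intro i hi
    exact (h i hi).2.2.1

end Pool.Agent.KM
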