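import Pool.Agent.KM.ADefs
import Pool.Agent.KM.BMatch
import Pool.Agent.KM.BLine

/-!
Project KM2, row A4a: bad choices (first part).
-/

set_option autoImplicit false
set_option linter.unusedSectionVars false

open Function

namespace Pool.Agent.KM

section A4
variable {K V W I : Type} [Field K] [AddCommGroup V] [Module K V] [AddCommGroup W]
  [Module K W] [Fintype I] [DecidableEq I] (β : V →ₗ[K] V →ₗ[K] W)

theorem a4_gen_apply (D : Finset I) (x u : I → V) : gen β D x u = ∑ i ∈ D, β (x i) (u i) := by
  simp [gen, LinearMap.sum_apply]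

/-- a family which is, up to order and signs, another one -/
theorem a4_perm (x y : I → V) (i : I) (τ : I → I) (hτ : ∀ l, τ (τ l) = l) (s : I → ℤ)
    (hs : ∀ l, s l = 1 ∨ s l = -1) (hy : ∀ l, l ≠ i → y l = s l • x (τ l))
    (h : Surjective (gen β {τ i}ᶜ x)) : Surjective (gen β {i}ᶜ y) := by
  intro w
  obtain ⟨u, hu⟩ := h w
  refine ⟨fun l => s l • u (τ l), ?_⟩
  rw [← hu, a4_gen_apply, a4_gen_apply]
  refine Finset.sum_nbij' τ τ ?_ ?_ ?_ ?_ ?_
  · intro l hl
    rw [Finset.mem_compl, Finset.mem_singleton] at hl ⊢
    intro h1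
    apply hl
    rw [← hτ l, h1, hτ]
  · intro l hl
    rw [Finset.mem_compl, Finset.mem_singleton] at hl ⊢
    intro h1
    apply hl
    rw [← hτ l, h1]
  · intro l _
    exact hτ l
  · intro l _
    exact hτ l
  · intro l hl
    rw [Finset.mem_compl, Finset.mem_singleton] at hl
    rw [hy l hl]
    rcases hs l with h1 | h1 <;> rw [h1] <;> simp

/-- instances: for each face and each omitted place one syzygy is generating -/
theorem inst2_gen (hβ : ∀ a b, β a b = β b a) (x : I → V) (hx : GG β x) (P : Finset I) (i : I) :
    ∃ x' : I → V, gen β Finset.univ x x' = 0 ∧ Surjective (gen β {i}ᶜ (P.piecewise x' x)) := by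
  obtain ⟨E, hE1, hE2, hE3⟩ : ∃ E : Finset I, P.erase i ⊆ E ∧ E ⊆ insert i P ∧ Even E.card := by
    rcases Nat.even_or_odd (P.erase i).card with h | h
    · exact ⟨P.erase i, Finset.Subset.refl _,
        (Finset.erase_subset _ _).trans (Finset.subset_insert _ _), h⟩
    · refine ⟨insert i (P.erase i), Finset.subset_insert _ _,
        Finset.insert_subset_insert _ (Finset.erase_subset _ _), ?_⟩
      rw [Finset.card_insert_of_notMem (Finset.notMem_erase i P)]
      exact h.add_one
  obtain ⟨σ, s, hσ⟩ := exists_matching E hE3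
  refine ⟨fun l => if l ∈ E then s l • x (σ l) else 0, matching_syz β hβ E σ s hσ x, ?_⟩
  refine a4_perm β x _ i (fun l => if l ∈ E then σ l else l) ?_
    (fun l => if l ∈ E then s l else 1) ?_ ?_ (hx.2 _)
  · intro l
    by_cases h : l ∈ E
    · simp only [if_pos h, if_pos (hσ l h).1, (hσ l h).2.2.1]
    · simp only [if_neg h]
  · intro l
    by_cases h : l ∈ E
    · simp only [if_pos h]
      exact (hσ l h).2.2.2.1
    · simp only [if_neg h]
      exact Or.inl trivial
  · intro l hl
    by_cases h : l ∈ E
    · have hP : l ∈ P := by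
        rcases Finset.mem_insert.1 (hE2 h) with h1 | h1
        · exact absurd h1 hl
        · exact h1
      rw [Finset.piecewise_eq_of_mem _ _ _ hP]
      simp only [if_pos h]
    · have hP : l ∉ P := fun h1 => h (hE1 (Finset.mem_erase.2 ⟨hl, h1⟩))
      rw [Finset.piecewise_eq_of_notMem _ _ _ hP]
      simp only [if_neg h, one_smul]

theorem inst2_ne (hβ : ∀ a b, β a b = β b a) (hI : 2 ≤ Fintype.card I) (x : I → V)
    (hx : GG β x) (i : I) : ∃ x' : I → V, gen β Finset.univ x x' = 0 ∧ x' i ≠ 0 := by
  obtain ⟨l, hl⟩ : ∃ l : I, l ≠ i := by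
    have : Nontrivial I := Fintype.one_lt_card_iff_nontrivial.1 (by omega)
    exact exists_ne i
  have hE : Even ({i, l} : Finset I).card := by
    rw [Finset.card_pair (Ne.symm hl)]
    decide
  obtain ⟨σ, s, hσ⟩ := exists_matching _ hE
  refine ⟨_, matching_syz β hβ _ σ s hσ x, ?_⟩
  have hi : i ∈ ({i, l} : Finset I) := by simp
  rw [if_pos hi]
  have h1 := hx.1 (σ i)
  rcases (hσ i hi).2.2.2.1 with h | h <;> rw [h] <;> simpa using h1

variable [Fintype K] [Fintype V] [Finite W]

theorem a4_gen_update (i o : I) (x : I → V) (z : V) :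
    gen β {o}ᶜ (update x i z) = gen β {o}ᶜ (update x i 0) +
      (if i = o then 0 else (β z).comp (LinearMap.proj i)) := by
  apply LinearMap.ext
  intro u
  rw [LinearMap.add_apply, a4_gen_apply, a4_gen_apply]
  by_cases h : i = o
  · subst h
    rw [if_pos rfl, LinearMap.zero_apply, add_zero]
    refine Finset.sum_congr rfl fun l hl => ?_
    rw [Finset.mem_compl, Finset.mem_singleton] at hl
    rw [update_of_ne hl, update_of_ne hl]
  · rw [if_neg h]
    have hi : i ∈ ({o}ᶜ : Finset I) := by
      rw [Finset.mem_compl, Finset.mem_singleton]; exact h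
    rw [← Finset.add_sum_erase _ _ hi, ← Finset.add_sum_erase _ _ hi, update_self, update_self]
    have : ∑ l ∈ ({o}ᶜ : Finset I).erase i, β (update x i z l) (u l) =
        ∑ l ∈ ({o}ᶜ : Finset I).erase i, β (update x i 0 l) (u l) := by
      refine Finset.sum_congr rfl fun l hl => ?_
      have hl' := (Finset.mem_erase.1 hl).1
      rw [update_of_ne hl', update_of_ne hl']
    rw [this]
    simp only [map_zero, LinearMap.zero_apply, zero_add, LinearMap.comp_apply, LinearMap.proj_apply]
    abel

theorem a4_one (i o : I) (x : I → V) (z₀ : V) (h : Surjective (gen β {o}ᶜ (update x i z₀))) :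
    {z : V | ¬ Surjective (gen β {o}ᶜ (update x i z))}.ncard * (Fintype.card K - 1) ≤
      Module.finrank K W * Fintype.card V := by
  have hfd : Module.Finite K W := Module.Finite.of_finite
  by_cases hio : i = o
  · have : {z : V | ¬ Surjective (gen β {o}ᶜ (update x i z))} = ∅ := by
      ext z
      simp only [Set.mem_ofPred_eq, Set.mem_empty_iff_false, iff_false, not_not]
      rw [a4_gen_update, if_pos hio, add_zero]
      rw [a4_gen_update, if_pos hio, add_zero] at h
      exact h
    rw [this, Set.ncard_empty, zero_mul]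
    exact Nat.zero_le _
  · set B : V →ₗ[K] ((I → V) →ₗ[K] W) :=
      { toFun := fun z => (β z).comp (LinearMap.proj i)
        map_add' := fun a b => by
          apply LinearMap.ext
          intro u
          simp
        map_smul' := fun c a => by
          apply LinearMap.ext
          intro u
          simp } with hB
    have hg : ∀ z, gen β {o}ᶜ (update x i z) = gen β {o}ᶜ (update x i 0) + B z := by
      intro z
      rw [a4_gen_update, if_neg hio]
      rfl
    have h1 := family_bad (gen β {o}ᶜ (update x i 0)) B z₀ (by rw [← hg]; exact h)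
    simp only [← hg] at h1
    rw [Nat.card_eq_fintype_card] at h1
    exact h1

theorem bad_entry (i : I) (x : I → V) (hx : ∃ z, GG β (update x i z)) :
    {z : V | ¬ GG β (update x i z)}.ncard * (Fintype.card K - 1) ≤
      (Fintype.card I * Module.finrank K W + 1) * Fintype.card V := by
  classical
  obtain ⟨z₀, hz⟩ := hx
  have hz0 : z₀ ≠ 0 := by
    have := hz.1 i
    rwa [update_self] at this
  have hKV : Fintype.card K ≤ Fintype.card V := by
    refine Fintype.card_le_of_injective (fun c : K => c • z₀) ?_
    intro a b hab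
    have : (a - b) • z₀ = 0 := by
      rw [sub_smul, sub_eq_zero]
      exact hab
    rcases smul_eq_zero.1 this with h | h
    · exact sub_eq_zero.1 h
    · exact absurd h hz0
  have hsub : {z : V | ¬ GG β (update x i z)} ⊆
      {(0 : V)} ∪ ⋃ o : I, {z : V | ¬ Surjective (gen β {o}ᶜ (update x i z))} := by
    intro z hz'
    by_contra hcon
    apply hz'
    rw [Set.mem_union, Set.mem_iUnion, not_or, not_exists] at hcon
    refine ⟨fun l => ?_, fun o => ?_⟩
    · by_cases hl : l = i
      · subst hl
        rw [update_self]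
        exact hcon.1
      · have := hz.1 l
        rw [update_of_ne hl] at this ⊢
        exact this
    · by_contra h
      exact hcon.2 o h
  have h1 : {z : V | ¬ GG β (update x i z)}.ncard ≤
      1 + ∑ o : I, {z : V | ¬ Surjective (gen β {o}ᶜ (update x i z))}.ncard := by
    refine (Set.ncard_le_ncard hsub (Set.toFinite _)).trans ?_
    refine (Set.ncard_union_le _ _).trans ?_
    rw [Set.ncard_singleton]
    exact Nat.add_le_add_left (Set.ncard_iUnion_le_of_fintype _) 1
  refine (Nat.mul_le_mul_right _ h1).trans ?_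
  rw [add_mul, add_mul, one_mul, one_mul, Finset.sum_mul, add_comm]
  refine Nat.add_le_add ?_ (by omega)
  refine (Finset.sum_le_sum fun o _ => a4_one β i o x z₀ (hz.2 o)).trans ?_
  rw [Finset.sum_const, Finset.card_univ, smul_eq_mul]
  exact le_of_eq (by ring)

theorem bad_cocycle (x : I → V) (hx : GG β x) :
    {z : V | ∃ i, ¬ GG β (update x i z)}.ncard * (Fintype.card K - 1) ≤
      (Fintype.card I * (Fintype.card I * Module.finrank K W + 1)) * Fintype.card V := by
  classical
  have h0 : {z : V | ∃ i, ¬ GG β (update x i z)} = ⋃ i : I, {z : V | ¬ GG β (update x i z)} := by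
    ext z
    simp
  rw [h0]
  refine (Nat.mul_le_mul_right _ (Set.ncard_iUnion_le_of_fintype _)).trans ?_
  rw [Finset.sum_mul]
  refine (Finset.sum_le_sum fun i _ => bad_entry β i x
    ⟨x i, by rw [update_eq_self]; exact hx⟩).trans ?_
  rw [Finset.sum_const, Finset.card_univ, smul_eq_mul]
  exact le_of_eq (by ring)

end A4

end Pool.Agent.KM
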