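import Pool.Agent.KM.ADefs

/-!
Project KM2 (MP_27fd67_ag), row KM-A2: sums over all syzygy pairs (helper47).
-/

set_option autoImplicit false
set_option linter.unusedSectionVars false
set_option linter.unusedVariables false

open Function

namespace Pool.Agent.KM

section A2
variable {K V W I : Type} [Field K] [AddCommGroup V] [Module K V] [AddCommGroup W] [Module K W]
  [Fintype I] [DecidableEq I] [Fintype V] [Finite W] (β : V →ₗ[K] V →ₗ[K] W)

private theorem a2_gen_apply (D : Finset I) (x u : I → V) :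
    gen β D x u = ∑ i ∈ D, β (x i) (u i) := by
  simp [gen, LinearMap.sum_apply]

private theorem a2_gen_single (x : I → V) (i : I) (v : V) :
    gen β Finset.univ x (Pi.single i v) = β (x i) v := by
  rw [a2_gen_apply, Finset.sum_eq_single i]
  · rw [Pi.single_eq_same]
  · intro l _ hl
    rw [Pi.single_eq_of_ne hl, map_zero]
  · intro h
    exact absurd (Finset.mem_univ i) h

theorem mem_Om (ω : (I → V) × (I → V)) :
    ω ∈ Om β ↔ gen β Finset.univ ω.1 ω.2 = 0 := by
  classical
  simp [Om]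

/-- more entries generate more -/
theorem gen_mono {D D' : Finset I} (h : D ⊆ D') (x : I → V) (hx : Surjective (gen β D x)) :
    Surjective (gen β D' x) := by
  intro w
  obtain ⟨u, hu⟩ := hx w
  refine ⟨fun i => if i ∈ D then u i else 0, ?_⟩
  rw [a2_gen_apply] at hu ⊢
  rw [← hu, ← Finset.sum_subset h]
  · exact Finset.sum_congr rfl fun i hi => by simp [hi]
  · intro i _ hi
    simp [hi]

/-- the number of syzygies of a generating tuple -/
theorem card_ker_gen (x : I → V) (hx : Surjective (gen β Finset.univ x)) :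
    Nat.card (LinearMap.ker (gen β Finset.univ x)) * Nat.card W =
      Fintype.card V ^ Fintype.card I := by
  have h1 := Submodule.card_eq_card_quotient_mul_card (LinearMap.ker (gen β Finset.univ x))
  have h2 : Nat.card ((I → V) ⧸ LinearMap.ker (gen β Finset.univ x)) = Nat.card W :=
    Nat.card_congr ((gen β Finset.univ x).quotKerEquivOfSurjective hx).toEquiv
  have h3 : Nat.card (I → V) = Fintype.card V ^ Fintype.card I := by
    rw [Nat.card_eq_fintype_card, Fintype.card_fun]
  rw [h2, h3] at h1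
  rw [h1, mul_comm]

private theorem a2_swap_mem (hβ : ∀ a b, β a b = β b a) (P : Finset I)
    (ω : (I → V) × (I → V)) (h : ω ∈ Om β) :
    (P.piecewise ω.2 ω.1, P.piecewise ω.1 ω.2) ∈ Om β := by
  rw [mem_Om, a2_gen_apply] at h ⊢
  rw [← h]
  refine Finset.sum_congr rfl fun i _ => ?_
  by_cases hi : i ∈ P
  · simp only [Finset.piecewise_eq_of_mem _ _ _ hi]
    exact hβ _ _
  · simp only [Finset.piecewise_eq_of_notMem _ _ _ hi]

private theorem a2_swap_swap (P : Finset I) (ω : (I → V) × (I → V)) :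
    (P.piecewise (P.piecewise ω.1 ω.2) (P.piecewise ω.2 ω.1),
      P.piecewise (P.piecewise ω.2 ω.1) (P.piecewise ω.1 ω.2)) = ω := by
  refine Prod.ext ?_ ?_ <;> funext i <;> by_cases hi : i ∈ P <;> simp [hi]

private theorem a2_sum_fst (f : (I → V) → ℝ)
    (hf : ∀ t, f t ≠ 0 → Surjective (gen β Finset.univ t)) :
    (∑ ω ∈ Om β, f ω.1) * Nat.card W =
      (Fintype.card V : ℝ) ^ Fintype.card I * ∑ t : I → V, f t := by
  classical
  have h1 : ∑ ω ∈ Om β, f ω.1 =
      ∑ x : I → V, ∑ x' : I → V, if gen β Finset.univ x x' = 0 then f x else 0 := by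
    have : Om β = Finset.univ.filter fun ω : (I → V) × (I → V) =>
        gen β Finset.univ ω.1 ω.2 = 0 := by
      ext ω
      rw [mem_Om]
      simp
    rw [this, Finset.sum_filter, Fintype.sum_prod_type]
  rw [h1, Finset.sum_mul, Finset.mul_sum]
  refine Finset.sum_congr rfl fun x _ => ?_
  by_cases hx : f x = 0
  · simp [hx]
  · have h2 := card_ker_gen β x (hf x hx)
    have h3 : (∑ x' : I → V, if gen β Finset.univ x x' = 0 then f x else 0) =
        (Nat.card (LinearMap.ker (gen β Finset.univ x)) : ℝ) * f x := by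
      rw [← Finset.sum_filter, Finset.sum_const, nsmul_eq_mul]
      have h4 : Nat.card {x' : I → V // x' ∈ LinearMap.ker (gen β Finset.univ x)} =
          (Finset.univ.filter fun x' : I → V => gen β Finset.univ x x' = 0).card :=
        Nat.subtype_card _ fun x' => by simp
      rw [← h4]
    rw [h3, ← Nat.cast_pow, ← h2, Nat.cast_mul]
    ring

/-- sum of a function of one face -/
theorem sum_fc (hβ : ∀ a b, β a b = β b a) (P : Finset I) (f : (I → V) → ℝ)
    (hf : ∀ t, f t ≠ 0 → Surjective (gen β Finset.univ t)) :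
    (∑ ω ∈ Om β, f (fc P ω)) * Nat.card W =
      (Fintype.card V : ℝ) ^ Fintype.card I * ∑ t : I → V, f t := by
  rw [← a2_sum_fst β f hf]
  congr 1
  refine Finset.sum_nbij' (fun ω => (P.piecewise ω.2 ω.1, P.piecewise ω.1 ω.2))
    (fun ω => (P.piecewise ω.2 ω.1, P.piecewise ω.1 ω.2)) ?_ ?_ ?_ ?_ ?_
  · intro ω hω
    exact a2_swap_mem β hβ P ω hω
  · intro ω hω
    exact a2_swap_mem β hβ P ω hω
  · intro ω _
    exact a2_swap_swap P ω
  · intro ω _
    exact a2_swap_swap P ω
  · intro ω _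
    rfl

private theorem a2_root_mem (hβ : ∀ a b, β a b = β b a) {i j : I} (hij : i ≠ j) (a : K)
    (ω : (I → V) × (I → V)) (h : ω ∈ Om β) :
    (ω.1, update (update ω.2 j (ω.2 j + a • ω.1 i)) i (ω.2 i - a • ω.1 j)) ∈ Om β := by
  rw [mem_Om] at h ⊢
  have h1 : update (update ω.2 j (ω.2 j + a • ω.1 i)) i (ω.2 i - a • ω.1 j) =
      ω.2 + Pi.single j (a • ω.1 i) - Pi.single i (a • ω.1 j) := by
    funext l
    by_cases hli : l = i
    · subst hli
      simp [hij]
    · by_cases hlj : l = j
      · subst hlj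
        simp [hli]
      · simp [hli, hlj]
  show gen β Finset.univ ω.1
    (update (update ω.2 j (ω.2 j + a • ω.1 i)) i (ω.2 i - a • ω.1 j)) = 0
  rw [h1, map_sub, map_add, h, a2_gen_single, a2_gen_single, map_smul, map_smul,
    hβ (ω.1 j) (ω.1 i), zero_add, sub_self]

/-- the root map, type 1: `j ∈ P`; type 2: `j ∉ P`; it preserves `Om β` -/
theorem sum_root (hβ : ∀ a b, β a b = β b a) {i j : I} (hij : i ≠ j) (a : K)
    (f : (I → V) × (I → V) → ℝ) :
    ∑ ω ∈ Om β, f (ω.1, update (update ω.2 j (ω.2 j + a • ω.1 i)) i (ω.2 i - a • ω.1 j)) =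
      ∑ ω ∈ Om β, f ω := by
  have hinv : ∀ (a : K) (ω : (I → V) × (I → V)),
      (ω.1, update (update (update (update ω.2 j (ω.2 j + a • ω.1 i)) i (ω.2 i - a • ω.1 j)) j
        (update (update ω.2 j (ω.2 j + a • ω.1 i)) i (ω.2 i - a • ω.1 j) j + (-a) • ω.1 i)) i
        (update (update ω.2 j (ω.2 j + a • ω.1 i)) i (ω.2 i - a • ω.1 j) i - (-a) • ω.1 j)) = ω := by
    intro a ω
    refine Prod.ext rfl ?_
    funext l
    by_cases hli : l = i
    · subst hli
      simp
    · by_cases hlj : l = j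
      · subst hlj
        simp [hli]
      · simp [hli, hlj]
  refine Finset.sum_nbij'
    (fun ω => (ω.1, update (update ω.2 j (ω.2 j + a • ω.1 i)) i (ω.2 i - a • ω.1 j)))
    (fun ω => (ω.1, update (update ω.2 j (ω.2 j + (-a) • ω.1 i)) i (ω.2 i - (-a) • ω.1 j)))
    ?_ ?_ ?_ ?_ ?_
  · intro ω hω
    exact a2_root_mem β hβ hij a ω hω
  · intro ω hω
    exact a2_root_mem β hβ hij (-a) ω hω
  · intro ω _
    exact hinv a ω
  · intro ω _
    have := hinv (-a) ω
    rw [neg_neg] at this
    exact this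
  · intro ω _
    rfl

private theorem a2_root_mem' {i j : I} (hij : i ≠ j) (a : K)
    (ω : (I → V) × (I → V)) (h : ω ∈ Om β) :
    (update ω.1 j (ω.1 j + a • ω.1 i), update ω.2 i (ω.2 i - a • ω.2 j)) ∈ Om β := by
  rw [mem_Om, a2_gen_apply] at h ⊢
  have h1 : ∀ l, β (update ω.1 j (ω.1 j + a • ω.1 i) l) (update ω.2 i (ω.2 i - a • ω.2 j) l) =
      β (ω.1 l) (ω.2 l) + (Pi.single j (a • β (ω.1 i) (ω.2 j)) : I → W) l
        - (Pi.single i (a • β (ω.1 i) (ω.2 j)) : I → W) l := by
    intro l
    by_cases hli : l = i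
    · subst hli
      simp [hij]
    · by_cases hlj : l = j
      · subst hlj
        simp [hli]
      · simp [hli, hlj]
  simp only [h1]
  rw [Finset.sum_sub_distrib, Finset.sum_add_distrib, h]
  simp

theorem sum_root' (hβ : ∀ a b, β a b = β b a) {i j : I} (hij : i ≠ j) (a : K)
    (f : (I → V) × (I → V) → ℝ) :
    ∑ ω ∈ Om β, f (update ω.1 j (ω.1 j + a • ω.1 i), update ω.2 i (ω.2 i - a • ω.2 j)) =
      ∑ ω ∈ Om β, f ω := by
  have hinv : ∀ (a : K) (ω : (I → V) × (I → V)),
      (update (update ω.1 j (ω.1 j + a • ω.1 i)) j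
        (update ω.1 j (ω.1 j + a • ω.1 i) j + (-a) • update ω.1 j (ω.1 j + a • ω.1 i) i),
       update (update ω.2 i (ω.2 i - a • ω.2 j)) i
        (update ω.2 i (ω.2 i - a • ω.2 j) i - (-a) • update ω.2 i (ω.2 i - a • ω.2 j) j)) = ω := by
    intro a ω
    refine Prod.ext ?_ ?_
    · funext l
      by_cases hlj : l = j
      · subst hlj
        simp [hij]
      · simp [hlj]
    · funext l
      by_cases hli : l = i
      · subst hli
        simp [hij.symm]
      · simp [hli]
  refine Finset.sum_nbij'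
    (fun ω => (update ω.1 j (ω.1 j + a • ω.1 i), update ω.2 i (ω.2 i - a • ω.2 j)))
    (fun ω => (update ω.1 j (ω.1 j + (-a) • ω.1 i), update ω.2 i (ω.2 i - (-a) • ω.2 j)))
    ?_ ?_ ?_ ?_ ?_
  · intro ω hω
    exact a2_root_mem' β hij a ω hω
  · intro ω hω
    exact a2_root_mem' β hij (-a) ω hω
  · intro ω _
    exact hinv a ω
  · intro ω _
    have := hinv (-a) ω
    rw [neg_neg] at this
    exact this
  · intro ω _
    rfl
end A2

end Pool.Agent.KM
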