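import Pool.Agent.KM.ABad
import Pool.Agent.KM.AOmega

/-!
Project KM2 (MP_27fd67_ag), row A4b: bad choices of syzygies (helper78).
-/

set_option autoImplicit false
set_option linter.all false

open Function

namespace Pool.Agent.KM

section A4
variable {K V W I : Type} [Field K] [AddCommGroup V] [Module K V] [AddCommGroup W]
  [Module K W] [Fintype I] [DecidableEq I] (β : V →ₗ[K] V →ₗ[K] W)

private theorem a4b_gen (D : Finset I) (x u : I → V) :
    gen β D x u = ∑ i ∈ D, β (x i) (u i) := by
  simp [gen]

/-- `gen` of the tuple with entries of `y` on `P` and zero off `P`, linear in `y` -/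
private noncomputable def a4b_B (D P : Finset I) : (I → V) →ₗ[K] ((I → V) →ₗ[K] W) where
  toFun y := gen β D (P.piecewise y 0)
  map_add' y y' := by
    refine LinearMap.ext fun u => ?_
    rw [LinearMap.add_apply, a4b_gen, a4b_gen, a4b_gen, ← Finset.sum_add_distrib]
    refine Finset.sum_congr rfl fun i _ => ?_
    by_cases h : i ∈ P
    · simp [h]
    · simp [h]
  map_smul' c y := by
    refine LinearMap.ext fun u => ?_
    rw [RingHom.id_apply, LinearMap.smul_apply, a4b_gen, a4b_gen, Finset.smul_sum]
    refine Finset.sum_congr rfl fun i _ => ?_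
    by_cases h : i ∈ P
    · simp [h]
    · simp [h]

private theorem a4b_AB (D P : Finset I) (x y : I → V) :
    gen β D (P.piecewise 0 x) + a4b_B β D P y = gen β D (P.piecewise y x) := by
  refine LinearMap.ext fun u => ?_
  change gen β D (P.piecewise 0 x) u + gen β D (P.piecewise y 0) u = _
  rw [a4b_gen, a4b_gen, a4b_gen, ← Finset.sum_add_distrib]
  refine Finset.sum_congr rfl fun i _ => ?_
  by_cases h : i ∈ P
  · simp [h]
  · simp [h]

variable [Fintype K] [Fintype V] [Finite W]

theorem bad_syz (hβ : ∀ a b, β a b = β b a) (hI : 2 ≤ Fintype.card I) (x : I → V)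
    (hx : GG β x) :
    {x' : I → V | gen β Finset.univ x x' = 0 ∧ ∃ P : Finset I, ¬ GG β (P.piecewise x' x)}.ncard
        * (Fintype.card K - 1) ≤
      (2 ^ Fintype.card I * (Fintype.card I * Module.finrank K W + Fintype.card I)) *
        Nat.card (LinearMap.ker (gen β Finset.univ x)) := by
  classical
  set L : Submodule K (I → V) := LinearMap.ker (gen β Finset.univ x) with hL
  have hLm : ∀ y : I → V, y ∈ L ↔ gen β Finset.univ x y = 0 := fun y => LinearMap.mem_ker
  haveI : Finite L := inferInstance
  -- the two kinds of bad sets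
  have hA : ∀ i : I, {y : L | (y : I → V) i = 0}.ncard * (Fintype.card K - 1) ≤
      1 * Nat.card L := by
    intro i
    obtain ⟨y0, hy0, hne⟩ := inst2_ne β hβ hI x hx i
    refine count_bad (fun y : L => (y : I → V) i = 0) ⟨y0, (hLm _).2 hy0⟩ 1 fun y => ?_
    rw [Set.ncard_le_one]
    intro s hs t ht
    have hs' : y0 i + s • ((y : I → V) i - y0 i) = 0 := hs
    have ht' : y0 i + t • ((y : I → V) i - y0 i) = 0 := ht
    by_contra hst
    have h1 : (s - t) • ((y : I → V) i - y0 i) = 0 := by
      rw [sub_smul, sub_eq_zero]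
      exact add_left_cancel (hs'.trans ht'.symm)
    rcases smul_eq_zero.1 h1 with h | h
    · exact hst (sub_eq_zero.1 h)
    · rw [h, smul_zero, add_zero] at hs'
      exact hne hs'
  have hB : ∀ (P : Finset I) (i : I),
      {y : L | ¬ Surjective (gen β {i}ᶜ (P.piecewise (y : I → V) x))}.ncard *
        (Fintype.card K - 1) ≤ Module.finrank K W * Nat.card L := by
    intro P i
    obtain ⟨y0, hy0, hs⟩ := inst2_gen β hβ x hx P i
    have h1 := family_bad (gen β {i}ᶜ (P.piecewise 0 x)) ((a4b_B β {i}ᶜ P).comp L.subtype)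
      ⟨y0, (hLm _).2 hy0⟩ (by
        change Surjective (gen β {i}ᶜ (P.piecewise 0 x) + a4b_B β {i}ᶜ P y0)
        rw [a4b_AB]
        exact hs)
    have h2 : {y : L | ¬ Surjective (gen β {i}ᶜ (P.piecewise (y : I → V) x))} =
        {y : L | ¬ Surjective (gen β {i}ᶜ (P.piecewise 0 x) +
          ((a4b_B β {i}ᶜ P).comp L.subtype) y)} := by
      ext y
      change ¬ _ ↔ ¬ Surjective (gen β {i}ᶜ (P.piecewise 0 x) + a4b_B β {i}ᶜ P (y : I → V))
      rw [a4b_AB]
    rw [h2]
    exact h1
  -- the bad set is the union of these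
  have hS : {x' : I → V | gen β Finset.univ x x' = 0 ∧
      ∃ P : Finset I, ¬ GG β (P.piecewise x' x)}.ncard ≤
      (∑ i : I, {y : L | (y : I → V) i = 0}.ncard) +
        ∑ p : Finset I × I,
          {y : L | ¬ Surjective (gen β {p.2}ᶜ (p.1.piecewise (y : I → V) x))}.ncard := by
    have h1 : {x' : I → V | gen β Finset.univ x x' = 0 ∧
        ∃ P : Finset I, ¬ GG β (P.piecewise x' x)} =
        (Subtype.val : L → (I → V)) '' {y : L | ∃ P : Finset I, ¬ GG β (P.piecewise (y : I → V) x)} := by
      ext x'
      constructor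
      · rintro ⟨h, hP⟩
        exact ⟨⟨x', (hLm _).2 h⟩, hP, rfl⟩
      · rintro ⟨y, hP, rfl⟩
        exact ⟨(hLm _).1 y.2, hP⟩
    rw [h1, Set.ncard_image_of_injective _ Subtype.val_injective]
    have h2 : {y : L | ∃ P : Finset I, ¬ GG β (P.piecewise (y : I → V) x)} ⊆
        (⋃ i ∈ (Finset.univ : Finset I), {y : L | (y : I → V) i = 0}) ∪
        ⋃ p ∈ (Finset.univ : Finset (Finset I × I)),
          {y : L | ¬ Surjective (gen β {p.2}ᶜ (p.1.piecewise (y : I → V) x))} := by
      rintro y ⟨P, hP⟩
      by_cases h3 : ∀ i, P.piecewise (y : I → V) x i ≠ 0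
      · right
        have h4 : ∃ i, ¬ Surjective (gen β {i}ᶜ (P.piecewise (y : I → V) x)) := by
          by_contra h5
          push Not at h5
          exact hP ⟨h3, h5⟩
        obtain ⟨i, hi⟩ := h4
        exact Set.mem_iUnion₂.2 ⟨(P, i), Finset.mem_univ _, hi⟩
      · left
        push Not at h3
        obtain ⟨i, hi⟩ := h3
        refine Set.mem_iUnion₂.2 ⟨i, Finset.mem_univ _, ?_⟩
        by_cases hiP : i ∈ P
        · rw [Finset.piecewise_eq_of_mem _ _ _ hiP] at hi
          exact hi
        · rw [Finset.piecewise_eq_of_notMem _ _ _ hiP] at hi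
          exact absurd hi (hx.1 i)
    refine (Set.ncard_le_ncard h2 (Set.toFinite _)).trans ((Set.ncard_union_le _ _).trans ?_)
    exact add_le_add (Finset.set_ncard_biUnion_le _ _) (Finset.set_ncard_biUnion_le _ _)
  have hn : 1 ≤ 2 ^ Fintype.card I := Nat.one_le_two_pow
  calc _ ≤ ((∑ i : I, {y : L | (y : I → V) i = 0}.ncard) +
        ∑ p : Finset I × I,
          {y : L | ¬ Surjective (gen β {p.2}ᶜ (p.1.piecewise (y : I → V) x))}.ncard) *
        (Fintype.card K - 1) := Nat.mul_le_mul_right _ hS
    _ = (∑ i : I, {y : L | (y : I → V) i = 0}.ncard * (Fintype.card K - 1)) +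
        ∑ p : Finset I × I,
          {y : L | ¬ Surjective (gen β {p.2}ᶜ (p.1.piecewise (y : I → V) x))}.ncard *
            (Fintype.card K - 1) := by
        rw [add_mul, Finset.sum_mul, Finset.sum_mul]
    _ ≤ (∑ i : I, 1 * Nat.card L) +
        ∑ p : Finset I × I, Module.finrank K W * Nat.card L :=
        add_le_add (Finset.sum_le_sum fun i _ => hA i) (Finset.sum_le_sum fun p _ => hB p.1 p.2)
    _ = (Fintype.card I + 2 ^ Fintype.card I * Fintype.card I * Module.finrank K W) *
        Nat.card L := by
        rw [Finset.sum_const, Finset.sum_const, Finset.card_univ, Finset.card_univ,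
          Fintype.card_prod, Fintype.card_finset, smul_eq_mul, smul_eq_mul]
        ring
    _ ≤ _ := by
        refine Nat.mul_le_mul_right _ ?_
        nlinarith [Nat.zero_le (Fintype.card I)]

/-- the part of `Om β` over a given tuple off `i` where some face is bad -/
theorem bad_over (hβ : ∀ a b, β a b = β b a) (hI : 2 ≤ Fintype.card I) (i : I) (x : I → V)
    (hx : ∃ z, GG β (update x i z)) :
    {q : V × (I → V) | gen β Finset.univ (update x i q.1) q.2 = 0 ∧
        ∃ P : Finset I, ¬ GG β (P.piecewise q.2 (update x i q.1))}.ncard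
        * (Fintype.card K - 1) * Nat.card W ≤
      ((2 ^ Fintype.card I + 1) * (Fintype.card I * Module.finrank K W + Fintype.card I)) *
        Fintype.card V ^ (Fintype.card I + 1) := by
  classical
  have hsurj : ∀ z, Surjective (gen β Finset.univ (update x i z)) := by
    intro z
    obtain ⟨z0, hz0⟩ := hx
    have h1 := hz0.2 i
    have h2 : gen β {i}ᶜ (update x i z0) = gen β {i}ᶜ (update x i z) := by
      refine LinearMap.ext fun u => ?_
      rw [a4b_gen, a4b_gen]
      refine Finset.sum_congr rfl fun j hj => ?_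
      have hj' : j ≠ i := by simpa using hj
      rw [update_of_ne hj', update_of_ne hj']
    rw [h2] at h1
    exact gen_mono β (Finset.subset_univ _) _ h1
  set S : V → Set (I → V) := fun z => {x' : I → V | gen β Finset.univ (update x i z) x' = 0 ∧
    ∃ P : Finset I, ¬ GG β (P.piecewise x' (update x i z))} with hS
  have hcount : {q : V × (I → V) | gen β Finset.univ (update x i q.1) q.2 = 0 ∧
      ∃ P : Finset I, ¬ GG β (P.piecewise q.2 (update x i q.1))}.ncard ≤ ∑ z : V, (S z).ncard := by
    have h1 : {q : V × (I → V) | gen β Finset.univ (update x i q.1) q.2 = 0 ∧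
        ∃ P : Finset I, ¬ GG β (P.piecewise q.2 (update x i q.1))} ⊆
        ⋃ z ∈ (Finset.univ : Finset V), (fun x' => (z, x')) '' S z := by
      rintro ⟨z, x'⟩ h
      exact Set.mem_iUnion₂.2 ⟨z, Finset.mem_univ _, x', h, rfl⟩
    refine (Set.ncard_le_ncard h1 (Set.toFinite _)).trans
      ((Finset.set_ncard_biUnion_le _ _).trans (Finset.sum_le_sum fun z _ => ?_))
    exact Set.ncard_image_le (Set.toFinite _)
  have hker : ∀ z, (S z).ncard * Nat.card W ≤ Fintype.card V ^ Fintype.card I := by
    intro z
    rw [← card_ker_gen β (update x i z) (hsurj z)]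
    refine Nat.mul_le_mul_right _ ?_
    have h1 : S z ⊆ ((LinearMap.ker (gen β Finset.univ (update x i z)) : Submodule K (I → V)) :
        Set (I → V)) := fun x' h => LinearMap.mem_ker.2 h.1
    refine (Set.ncard_le_ncard h1 (Set.toFinite _)).trans ?_
    rw [← Nat.card_coe_set_eq]
    exact le_rfl
  set C := 2 ^ Fintype.card I * (Fintype.card I * Module.finrank K W + Fintype.card I) with hC
  have hgood : ∀ z, GG β (update x i z) → (S z).ncard * (Fintype.card K - 1) * Nat.card W ≤
      C * Fintype.card V ^ Fintype.card I := by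
    intro z hz
    have h1 := bad_syz β hβ hI (update x i z) hz
    rw [← card_ker_gen β (update x i z) (hsurj z), ← mul_assoc]
    exact Nat.mul_le_mul_right _ h1
  have hbad := bad_entry β i x hx
  have hpt : ∀ z, (S z).ncard * (Fintype.card K - 1) * Nat.card W ≤
      C * Fintype.card V ^ Fintype.card I +
        (if ¬ GG β (update x i z) then (Fintype.card K - 1) * Fintype.card V ^ Fintype.card I
          else 0) := by
    intro z
    by_cases hz : GG β (update x i z)
    · exact (hgood z hz).trans (Nat.le_add_right _ _)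
    · rw [if_pos hz]
      refine le_trans ?_ (Nat.le_add_left _ _)
      calc (S z).ncard * (Fintype.card K - 1) * Nat.card W
          = (Fintype.card K - 1) * ((S z).ncard * Nat.card W) := by ring
        _ ≤ _ := Nat.mul_le_mul_left _ (hker z)
  calc _ ≤ (∑ z : V, (S z).ncard) * (Fintype.card K - 1) * Nat.card W :=
        Nat.mul_le_mul_right _ (Nat.mul_le_mul_right _ hcount)
    _ = ∑ z : V, (S z).ncard * (Fintype.card K - 1) * Nat.card W := by
        rw [Finset.sum_mul, Finset.sum_mul]
    _ ≤ ∑ z : V, (C * Fintype.card V ^ Fintype.card I +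
        (if ¬ GG β (update x i z) then (Fintype.card K - 1) * Fintype.card V ^ Fintype.card I
          else 0)) := Finset.sum_le_sum fun z _ => hpt z
    _ = Fintype.card V * (C * Fintype.card V ^ Fintype.card I) +
        ({z : V | ¬ GG β (update x i z)}.ncard * (Fintype.card K - 1)) *
          Fintype.card V ^ Fintype.card I := by
        rw [Finset.sum_add_distrib, Finset.sum_const, Finset.card_univ, smul_eq_mul,
          ← Finset.sum_filter, Finset.sum_const, smul_eq_mul]
        have h1 : {z : V | ¬ GG β (update x i z)}.ncard =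
            (Finset.univ.filter fun z : V => ¬ GG β (update x i z)).card := by
          rw [Set.ncard_eq_toFinset_card', Set.toFinset_setOf]
        rw [h1]
        ring
    _ ≤ Fintype.card V * (C * Fintype.card V ^ Fintype.card I) +
        ((Fintype.card I * Module.finrank K W + 1) * Fintype.card V) *
          Fintype.card V ^ Fintype.card I :=
        Nat.add_le_add_left (Nat.mul_le_mul_right _ hbad) _
    _ = (C + (Fintype.card I * Module.finrank K W + 1)) *
          Fintype.card V ^ (Fintype.card I + 1) := by ring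
    _ ≤ _ := by
        refine Nat.mul_le_mul_right _ ?_
        rw [hC, add_mul, one_mul]
        exact Nat.add_le_add_left (Nat.add_le_add_left (by omega) _) _

end A4

end Pool.Agent.KM
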