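import Pool.Agent.KM.ADefs

/-!
Project KM2 (MP_27fd67_ag), part (A), row A1: means (helper20).
-/

set_option autoImplicit false

open Function

namespace Pool.Agent.KM

variable {V I : Type} [Fintype V] [DecidableEq I] {U : (I → V) → ℝ}

theorem Tm_update (U : (I → V) → ℝ) (i : I) (x : I → V) (z : V) :
    Tm U i (update x i z) = Tm U i x := by
  unfold Tm
  simp only [update_idem]

private theorem mean_swap_update {i j : I} (hij : i ≠ j) (x : I → V) (a z : V) :
    (update (update x j a) i z) ∘ Equiv.swap i j = update (update x j z) i a := by
  funext k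
  by_cases hki : k = i
  · subst hki
    simp [update_of_ne (Ne.symm hij)]
  · by_cases hkj : k = j
    · subst hkj
      simp [update_of_ne (Ne.symm hij)]
    · simp [Equiv.swap_apply_of_ne_of_ne hki hkj, update_of_ne hki, update_of_ne hkj]

theorem Tm_sum_zero (hU : Alt U) {i j : I} (hij : i ≠ j) (x : I → V) :
    ∑ a : V, Tm U i (update x j a) = 0 := by
  unfold Tm
  rw [← Finset.sum_div]
  have key : (∑ a : V, ∑ z : V, U (update (update x j a) i z)) =
      - ∑ a : V, ∑ z : V, U (update (update x j a) i z) := by
    conv_lhs => rw [Finset.sum_comm]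
    rw [← Finset.sum_neg_distrib]
    refine Finset.sum_congr rfl fun a _ => ?_
    rw [← Finset.sum_neg_distrib]
    refine Finset.sum_congr rfl fun z _ => ?_
    rw [← mean_swap_update hij x a z, hU _ i j hij]
  have h0 : (∑ a : V, ∑ z : V, U (update (update x j a) i z)) = 0 := by linarith
  rw [h0, zero_div]

private theorem mean_swap_update' {i j : I} (hij : i ≠ j) (x : I → V) (z : V) :
    (update x i z) ∘ Equiv.swap i j = update (x ∘ Equiv.swap i j) j z := by
  funext k
  by_cases hki : k = i
  · subst hki
    simp [update_of_ne hij, update_of_ne (Ne.symm hij)]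
  · by_cases hkj : k = j
    · subst hkj
      simp
    · simp [Equiv.swap_apply_of_ne_of_ne hki hkj, update_of_ne hki, update_of_ne hkj]

theorem Tm_norm [Fintype I] (hU : Alt U) (i j : I) :
    ∑ x : I → V, Tm U i x ^ 2 = ∑ x : I → V, Tm U j x ^ 2 := by
  by_cases hij : i = j
  · rw [hij]
  · have h : ∀ x : I → V, Tm U i x = - Tm U j (x ∘ Equiv.swap i j) := by
      intro x
      unfold Tm
      rw [← neg_div, ← Finset.sum_neg_distrib]
      congr 1
      refine Finset.sum_congr rfl fun z _ => ?_
      rw [← mean_swap_update' hij x z, hU _ i j hij, neg_neg]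
    have hinv : Involutive (fun x : I → V => x ∘ Equiv.swap i j) := by
      intro x
      funext k
      simp
    calc ∑ x : I → V, Tm U i x ^ 2
        = ∑ x : I → V, Tm U j (x ∘ Equiv.swap i j) ^ 2 := by
          refine Finset.sum_congr rfl fun x _ => ?_
          rw [h x, neg_sq]
      _ = ∑ x : I → V, Tm U j x ^ 2 :=
          Equiv.sum_comp hinv.toPerm (fun x => Tm U j x ^ 2)

/-- summing over `V` in one place and over all tuples -/
theorem sum_update_all [Fintype I] (f : (I → V) → ℝ) (i : I) :
    ∑ x : I → V, ∑ z : V, f (update x i z) = Fintype.card V * ∑ x : I → V, f x := by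
  have hinv : Involutive (fun p : (I → V) × V => (update p.1 i p.2, p.1 i)) := by
    intro p
    simp
  have h1 : ∑ x : I → V, ∑ z : V, f (update x i z) =
      ∑ p : (I → V) × V, f (update p.1 i p.2) := by
    rw [← Finset.univ_product_univ, Finset.sum_product]
  have h2 : ∑ p : (I → V) × V, f (update p.1 i p.2) = ∑ p : (I → V) × V, f p.1 :=
    Equiv.sum_comp hinv.toPerm (fun p => f p.1)
  rw [h1, h2, ← Finset.univ_product_univ, Finset.sum_product]
  simp [Finset.mul_sum]

/-- the root group mean -/
theorem Tm_root [Fintype I] {K : Type} [Field K] [Fintype K] [AddCommGroup V] [Module K V]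
    (hU : Alt U) {i j : I} (hij : i ≠ j) :
    ∑ t : I → V, ((∑ a : K, Tm U i (update t j (t j + a • t i))) / Fintype.card K) ^ 2 =
      (∑ t : I → V, Tm U i t ^ 2) / Fintype.card K := by
  have hK : (Fintype.card K : ℝ) ≠ 0 := by
    exact_mod_cast Fintype.card_ne_zero
  have hV : (Fintype.card V : ℝ) ≠ 0 := by
    exact_mod_cast Fintype.card_ne_zero
  set g : (I → V) → ℝ := Tm U i with hg
  have hgi : ∀ t z, g (update t i z) = g t := fun t z => Tm_update U i t z
  have hg0 : ∀ t, ∑ v : V, g (update t j v) = 0 := fun t => Tm_sum_zero hU hij t
  -- diagonal terms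
  have hdiag : ∀ a : K, ∑ t : I → V,
      g (update t j (t j + a • t i)) * g (update t j (t j + a • t i)) =
      ∑ t : I → V, g t ^ 2 := by
    intro a
    have hl : ∀ (b : K) (t : I → V), update (update t j (t j + b • t i)) j
        ((update t j (t j + b • t i)) j + (-b) • (update t j (t j + b • t i)) i) = t := by
      intro b t
      rw [update_self, update_of_ne hij, update_idem]
      have : t j + b • t i + -b • t i = t j := by rw [neg_smul, add_assoc, add_neg_cancel, add_zero]
      rw [this, update_eq_self]
    let e : (I → V) ≃ (I → V) :=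
      { toFun := fun t => update t j (t j + a • t i)
        invFun := fun t => update t j (t j + (-a) • t i)
        left_inv := fun t => hl a t
        right_inv := fun t => by
          have := hl (-a) t
          rwa [neg_neg] at this }
    have h := Equiv.sum_comp e (fun t => g t ^ 2)
    rw [← h]
    refine Finset.sum_congr rfl fun t _ => ?_
    show _ = g (update t j (t j + a • t i)) ^ 2
    ring
  -- off-diagonal terms
  have hoff : ∀ a a' : K, a ≠ a' → ∑ t : I → V,
      g (update t j (t j + a • t i)) * g (update t j (t j + a' • t i)) = 0 := by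
    intro a a' haa
    have hd : a - a' ≠ 0 := sub_ne_zero.2 haa
    set F : (I → V) → ℝ := fun t =>
      g (update t j (t j + a • t i)) * g (update t j (t j + a' • t i)) with hF
    have h1 : ∑ t : I → V, ∑ b : V, ∑ c : V, F (update (update t j b) i c) =
        Fintype.card V * (Fintype.card V * ∑ t : I → V, F t) := by
      rw [sum_update_all (fun t => ∑ c : V, F (update t i c)) j, sum_update_all F i]
    have h2 : ∀ (t : I → V), ∑ b : V, ∑ c : V, F (update (update t j b) i c) = 0 := by
      intro t
      have h3 : ∀ b c : V, F (update (update t j b) i c) =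
          g (update t j (b + a • c)) * g (update t j (b + a' • c)) := by
        intro b c
        have h4 : ∀ s : K, g (update (update (update t j b) i c) j
            ((update (update t j b) i c) j + s • (update (update t j b) i c) i)) =
            g (update t j (b + s • c)) := by
          intro s
          rw [update_self, update_of_ne (Ne.symm hij), update_self,
            update_comm (Ne.symm hij), update_idem, update_comm hij, hgi]
        simp only [hF]
        rw [h4, h4]
      simp only [h3]
      let e : V × V ≃ V × V :=
        { toFun := fun p => (p.1 + a • p.2, p.1 + a' • p.2)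
          invFun := fun p => (p.1 - a • ((a - a')⁻¹ • (p.1 - p.2)), (a - a')⁻¹ • (p.1 - p.2))
          left_inv := fun p => by
            have : (a - a')⁻¹ • (p.1 + a • p.2 - (p.1 + a' • p.2)) = p.2 := by
              rw [add_sub_add_left_eq_sub, ← sub_smul, smul_smul, inv_mul_cancel₀ hd, one_smul]
            ext
            · simp only [this, add_sub_cancel_right]
            · simp only [this]
          right_inv := fun p => by
            have : (a - a')⁻¹ • (p.1 - p.2) = (a - a')⁻¹ • (p.1 - p.2) := rfl
            ext
            · simp
            · simp only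
              have h5 : p.1 - a • ((a - a')⁻¹ • (p.1 - p.2)) + a' • ((a - a')⁻¹ • (p.1 - p.2)) =
                  p.1 - (a - a') • ((a - a')⁻¹ • (p.1 - p.2)) := by
                rw [sub_smul]; abel
              rw [h5, smul_smul, mul_inv_cancel₀ hd, one_smul]
              abel }
      have h6 : ∑ b : V, ∑ c : V, g (update t j (b + a • c)) * g (update t j (b + a' • c)) =
          ∑ p : V × V, g (update t j (e p).1) * g (update t j (e p).2) := by
        rw [← Finset.univ_product_univ, Finset.sum_product]
        rfl
      rw [h6, Equiv.sum_comp e (fun p => g (update t j p.1) * g (update t j p.2)),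
        ← Finset.univ_product_univ, Finset.sum_product]
      simp only [← Finset.mul_sum, hg0, mul_zero, Finset.sum_const_zero]
    rw [Finset.sum_congr rfl fun t _ => h2 t, Finset.sum_const_zero] at h1
    have h7 := h1.symm
    rcases mul_eq_zero.1 h7 with h | h
    · exact absurd h hV
    · rcases mul_eq_zero.1 h with h | h
      · exact absurd h hV
      · exact h
  have hsq : ∀ t : I → V, ((∑ a : K, g (update t j (t j + a • t i))) / Fintype.card K) ^ 2 =
      (∑ a : K, ∑ a' : K, g (update t j (t j + a • t i)) * g (update t j (t j + a' • t i))) /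
        (Fintype.card K : ℝ) ^ 2 := by
    intro t
    rw [div_pow, sq (∑ a : K, g (update t j (t j + a • t i))), Finset.sum_mul_sum]
  rw [Finset.sum_congr rfl fun t _ => hsq t, ← Finset.sum_div, Finset.sum_comm]
  have h8 : ∀ a : K, ∑ t : I → V, ∑ a' : K,
      g (update t j (t j + a • t i)) * g (update t j (t j + a' • t i)) =
      ∑ t : I → V, g t ^ 2 := by
    classical
    intro a
    rw [Finset.sum_comm, Finset.sum_eq_single a]
    · exact hdiag a
    · intro a' _ haa
      exact hoff a a' (Ne.symm haa)
    · intro h
      exact absurd (Finset.mem_univ a) h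
  rw [Finset.sum_congr rfl fun a _ => h8 a, Finset.sum_const, Finset.card_univ, nsmul_eq_mul]
  field_simp

end Pool.Agent.KM
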