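import Pool.Agent.KM.ADefs
import Pool.Agent.KM.AMean
import Pool.Agent.KM.AOmega

/-!
Project KM2 (MP_27fd67_ag), part (A), row A3: cross terms (helper60).
-/

set_option autoImplicit false

open Function

namespace Pool.Agent.KM

variable {K V W I : Type} [Field K] [Fintype K] [AddCommGroup V] [Module K V] [AddCommGroup W]
  [Module K W] [Fintype I] [DecidableEq I] [Fintype V] [Finite W] (β : V →ₗ[K] V →ₗ[K] W)

theorem A3_gen_update (i : I) (x : I → V) (z : V) :
    gen β {i}ᶜ (update x i z) = gen β {i}ᶜ x := by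
  unfold gen
  refine Finset.sum_congr rfl fun l hl => ?_
  have hli : l ≠ i := by
    intro h
    simp [h] at hl
  rw [update_of_ne hli]

theorem Tm_ne (U : (I → V) → ℝ) (hU : ∀ x, ¬ GG β x → U x = 0) (i : I) (x : I → V)
    (h : Tm U i x ≠ 0) : (∃ z, GG β (update x i z)) ∧ Surjective (gen β {i}ᶜ x) := by
  have hz : ∃ z, GG β (update x i z) := by
    by_contra hno
    push Not at hno
    apply h
    unfold Tm
    rw [Finset.sum_eq_zero (fun z _ => hU _ (hno z)), zero_div]
  refine ⟨hz, ?_⟩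
  obtain ⟨z, hz⟩ := hz
  have := hz.2 i
  rwa [A3_gen_update] at this

private theorem A3_surj (U : (I → V) → ℝ) (hU : ∀ x, ¬ GG β x → U x = 0) (i : I) (x : I → V)
    (h : Tm U i x ≠ 0) : Surjective (gen β Finset.univ x) :=
  gen_mono β (Finset.subset_univ _) x (Tm_ne β U hU i x h).2

private theorem A3_Tm_congr {V I : Type} [Fintype V] [DecidableEq I] (U : (I → V) → ℝ) (i : I)
    (x y : I → V) (h : ∀ l, l ≠ i → x l = y l) : Tm U i x = Tm U i y := by
  have : x = update y i (x i) := by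
    funext l
    by_cases hl : l = i
    · subst hl; simp
    · rw [update_of_ne hl, h l hl]
  rw [this, Tm_update]

theorem main_term (hβ : ∀ a b, β a b = β b a) (U : (I → V) → ℝ)
    (hU : ∀ x, ¬ GG β x → U x = 0) (i : I) (P : Finset I) (hP : P ⊆ {i}) :
    (∑ ω ∈ Om β, Tm U i ω.1 * Tm U i (fc P ω)) * Nat.card W =
      (Fintype.card V : ℝ) ^ Fintype.card I * ∑ x : I → V, Tm U i x ^ 2 := by
  have h1 := sum_fc β hβ ∅ (fun t => Tm U i t ^ 2) (fun t ht => A3_surj β U hU i t (by
    intro h0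
    apply ht
    simp [h0]))
  rw [← h1]
  congr 1
  refine Finset.sum_congr rfl fun ω _ => ?_
  have h2 : Tm U i (fc P ω) = Tm U i ω.1 := by
    apply A3_Tm_congr
    intro l hl
    have hlP : l ∉ P := fun h => hl (Finset.mem_singleton.1 (hP h))
    simp [fc, hlP]
  rw [h2]
  simp [fc, sq]

/-- the mean over the root group -/
private noncomputable def A3_A (K : Type) {V I : Type} [Field K] [Fintype K] [AddCommGroup V]
    [Module K V] [DecidableEq I] [Fintype V] (U : (I → V) → ℝ) (i j : I) (t : I → V) : ℝ :=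
  (∑ a : K, Tm U i (update t j (t j + a • t i))) / Fintype.card K

private theorem A3_A_surj (U : (I → V) → ℝ) (hU : ∀ x, ¬ GG β x → U x = 0) (i j : I)
    (t : I → V) (h : A3_A K U i j t ≠ 0) (hij : i ≠ j) :
    Surjective (gen β Finset.univ t) := by
  have h1 : ∃ a : K, Tm U i (update t j (t j + a • t i)) ≠ 0 := by
    by_contra hno
    push Not at hno
    apply h
    unfold A3_A
    rw [Finset.sum_eq_zero (fun a _ => hno a), zero_div]
  obtain ⟨a, ha⟩ := h1
  have h2 := (Tm_ne β U hU i _ ha).2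
  intro w
  obtain ⟨u, hu⟩ := h2 w
  refine ⟨update u i (a • u j), ?_⟩
  rw [← hu]
  unfold gen
  simp only [LinearMap.coe_sum, Finset.sum_apply, LinearMap.comp_apply, LinearMap.proj_apply]
  have hjc : j ∈ ({i}ᶜ : Finset I) := by simp [hij.symm]
  have e1 : ∑ l : I, β (t l) (update u i (a • u j) l) =
      β (t i) (a • u j) + ∑ l ∈ ({i}ᶜ : Finset I), β (t l) (u l) := by
    rw [← Finset.add_sum_erase Finset.univ _ (Finset.mem_univ i), update_self]
    congr 1
    have : Finset.univ.erase i = ({i}ᶜ : Finset I) := by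
      ext l; simp
    rw [this]
    refine Finset.sum_congr rfl fun l hl => ?_
    have hli : l ≠ i := by
      intro h
      simp [h] at hl
    rw [update_of_ne hli]
  have e2 : ∑ l ∈ ({i}ᶜ : Finset I), β (update t j (t j + a • t i) l) (u l) =
      β (t j + a • t i) (u j) + ∑ l ∈ ({i}ᶜ : Finset I).erase j, β (t l) (u l) := by
    rw [← Finset.add_sum_erase _ _ hjc, update_self]
    congr 1
    refine Finset.sum_congr rfl fun l hl => ?_
    rw [update_of_ne (Finset.ne_of_mem_erase hl)]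
  rw [e1, e2, ← Finset.add_sum_erase _ _ hjc]
  simp only [map_add, map_smul, LinearMap.add_apply, LinearMap.smul_apply]
  abel

/-- the root map changes only one entry of the face -/
private theorem A3_key (hβ : ∀ a b, β a b = β b a) (U : (I → V) → ℝ) (i₀ i j : I)
    (P : Finset I) (hij : i ≠ j) (h : j ∈ P ∨ j = i₀) (a : K) :
    ∑ ω ∈ Om β, Tm U i₀ ω.1 * Tm U i (fc P ω) =
      ∑ ω ∈ Om β, Tm U i₀ ω.1 * Tm U i (update (fc (P.erase i) ω) j
        (fc (P.erase i) ω j + a • fc (P.erase i) ω i)) := by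
  by_cases hjP : j ∈ P
  · rw [← sum_root β hβ hij a (fun ω => Tm U i₀ ω.1 * Tm U i (fc P ω))]
    refine Finset.sum_congr rfl fun ω _ => ?_
    congr 1
    apply A3_Tm_congr
    intro l hl
    have hi : fc (P.erase i) ω i = ω.1 i := by simp [fc]
    have hj : fc (P.erase i) ω j = ω.2 j := by
      simp [fc, Finset.piecewise, hjP, hij.symm]
    by_cases hlj : l = j
    · subst hlj
      rw [update_self, hi, hj]
      simp [fc, hjP, update_of_ne hl]
    · rw [update_of_ne hlj]
      by_cases hlP : l ∈ P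
      · simp [fc, Finset.piecewise, hlP, hl, update_of_ne hl, update_of_ne hlj]
      · simp [fc, Finset.piecewise, hlP]
  · have hj0 : j = i₀ := h.resolve_left hjP
    rw [← sum_root' β hβ hij a (fun ω => Tm U i₀ ω.1 * Tm U i (fc P ω))]
    refine Finset.sum_congr rfl fun ω _ => ?_
    have e1 : Tm U i₀ (update ω.1 j (ω.1 j + a • ω.1 i)) = Tm U i₀ ω.1 := by
      rw [hj0, Tm_update]
    simp only []
    rw [e1]
    congr 1
    apply A3_Tm_congr
    intro l hl
    have hi : fc (P.erase i) ω i = ω.1 i := by simp [fc]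
    have hj : fc (P.erase i) ω j = ω.1 j := by
      simp [fc, Finset.piecewise, hjP]
    by_cases hlj : l = j
    · subst hlj
      rw [update_self, hi, hj]
      simp [fc, hjP]
    · rw [update_of_ne hlj]
      by_cases hlP : l ∈ P
      · simp [fc, Finset.piecewise, hlP, hl, update_of_ne hl]
      · simp [fc, Finset.piecewise, hlP, update_of_ne hlj]

theorem cross_term (hβ : ∀ a b, β a b = β b a) (U : (I → V) → ℝ)
    (hU : ∀ x, ¬ GG β x → U x = 0) (hA : Alt U) (i₀ i : I) (P : Finset I)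
    (h : i ≠ i₀ ∨ ∃ j ∈ P, j ≠ i₀) :
    |∑ ω ∈ Om β, Tm U i₀ ω.1 * Tm U i (fc P ω)| * Nat.card W * Real.sqrt (Fintype.card K) ≤
      (Fintype.card V : ℝ) ^ Fintype.card I * ∑ x : I → V, Tm U i₀ x ^ 2 := by
  -- the place `j`
  obtain ⟨j, hij, hj⟩ : ∃ j, i ≠ j ∧ (j ∈ P ∨ j = i₀) := by
    by_cases hi : i = i₀
    · rcases h with h | ⟨j, hjP, hj⟩
      · exact absurd hi h
      · exact ⟨j, by rw [hi]; exact hj.symm, Or.inl hjP⟩
    · exact ⟨i₀, hi, Or.inr rfl⟩
  have hq : (0 : ℝ) < Fintype.card K := by exact_mod_cast Fintype.card_pos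
  set N := ∑ x : I → V, Tm U i₀ x ^ 2 with hN
  have hN0 : 0 ≤ N := Finset.sum_nonneg fun x _ => sq_nonneg _
  set C := (Fintype.card V : ℝ) ^ Fintype.card I with hC
  have hC0 : 0 ≤ C := by positivity
  have hW : (0 : ℝ) < Nat.card W := by exact_mod_cast Nat.card_pos
  -- averaging
  have h1 : ∑ ω ∈ Om β, Tm U i₀ ω.1 * Tm U i (fc P ω) =
      ∑ ω ∈ Om β, Tm U i₀ ω.1 * A3_A K U i j (fc (P.erase i) ω) := by
    have h2 : (Fintype.card K : ℝ) * ∑ ω ∈ Om β, Tm U i₀ ω.1 * Tm U i (fc P ω) =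
        ∑ a : K, ∑ ω ∈ Om β, Tm U i₀ ω.1 * Tm U i (update (fc (P.erase i) ω) j
        (fc (P.erase i) ω j + a • fc (P.erase i) ω i)) := by
      rw [Finset.sum_congr rfl fun a _ => (A3_key β hβ U i₀ i j P hij hj a).symm]
      simp
    rw [Finset.sum_comm] at h2
    rw [← mul_right_inj' hq.ne', h2, Finset.mul_sum]
    refine Finset.sum_congr rfl fun ω _ => ?_
    rw [← Finset.mul_sum]
    unfold A3_A
    field_simp
  have e1 : (∑ ω ∈ Om β, Tm U i₀ ω.1 ^ 2) * Nat.card W = C * N := by
    have := sum_fc β hβ ∅ (fun t => Tm U i₀ t ^ 2) (fun t ht => A3_surj β U hU i₀ t (by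
      intro h0
      apply ht
      simp [h0]))
    simpa [fc] using this
  have e2 : (∑ ω ∈ Om β, A3_A K U i j (fc (P.erase i) ω) ^ 2) * Nat.card W =
      C * (N / Fintype.card K) := by
    rw [sum_fc β hβ (P.erase i) (fun t => A3_A K U i j t ^ 2) (fun t ht =>
      A3_A_surj β U hU i j t (by
        intro h0
        apply ht
        simp [h0]) hij)]
    congr 1
    have := Tm_root (K := K) hA hij
    unfold A3_A
    rw [this, hN, Tm_norm hA i i₀]
  have h3 := Finset.sum_mul_sq_le_sq_mul_sq (Om β) (fun ω => Tm U i₀ ω.1)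
    (fun ω => A3_A K U i j (fc (P.erase i) ω))
  rw [h1]
  set S := ∑ ω ∈ Om β, Tm U i₀ ω.1 * A3_A K U i j (fc (P.erase i) ω) with hS
  have h4 : (|S| * Nat.card W * Real.sqrt (Fintype.card K)) ^ 2 ≤ (C * N) ^ 2 := by
    rw [mul_pow, mul_pow, sq_abs, Real.sq_sqrt hq.le]
    calc S ^ 2 * (Nat.card W : ℝ) ^ 2 * Fintype.card K
        ≤ ((∑ ω ∈ Om β, Tm U i₀ ω.1 ^ 2) * ∑ ω ∈ Om β, A3_A K U i j (fc (P.erase i) ω) ^ 2) *
          (Nat.card W : ℝ) ^ 2 * Fintype.card K := by
          gcongr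
      _ = ((∑ ω ∈ Om β, Tm U i₀ ω.1 ^ 2) * Nat.card W) *
          ((∑ ω ∈ Om β, A3_A K U i j (fc (P.erase i) ω) ^ 2) * Nat.card W) *
            Fintype.card K := by ring
      _ = (C * N) ^ 2 := by
          rw [e1, e2]
          field_simp
  exact (pow_le_pow_iff_left₀ (by positivity) (by positivity) two_ne_zero).1 h4

/-- the lower bound -/
theorem lower_bound (hβ : ∀ a b, β a b = β b a) (U : (I → V) → ℝ)
    (hU : ∀ x, ¬ GG β x → U x = 0) (hA : Alt U) (i₀ : I) :
    (2 - Fintype.card I * 2 ^ Fintype.card I / Real.sqrt (Fintype.card K)) *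
      ((Fintype.card V : ℝ) ^ Fintype.card I * ∑ x : I → V, Tm U i₀ x ^ 2) ≤
    (∑ ω ∈ Om β, Tm U i₀ ω.1 * ∑ P : Finset I, ∑ i : I, Tm U i (fc P ω)) * Nat.card W := by
  have hq : (0 : ℝ) < Fintype.card K := by exact_mod_cast Fintype.card_pos
  have hsq : 0 < Real.sqrt (Fintype.card K) := Real.sqrt_pos.2 hq
  set B := (Fintype.card V : ℝ) ^ Fintype.card I * ∑ x : I → V, Tm U i₀ x ^ 2 with hB
  have hB0 : 0 ≤ B := by
    apply mul_nonneg (by positivity)
    exact Finset.sum_nonneg fun x _ => sq_nonneg _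
  -- the sum over pairs
  set f : Finset I × I → ℝ := fun p =>
    (∑ ω ∈ Om β, Tm U i₀ ω.1 * Tm U p.2 (fc p.1 ω)) * Nat.card W with hf
  have h1 : (∑ ω ∈ Om β, Tm U i₀ ω.1 * ∑ P : Finset I, ∑ i : I, Tm U i (fc P ω)) *
      Nat.card W = ∑ p : Finset I × I, f p := by
    rw [← Finset.univ_product_univ, Finset.sum_product]
    simp only [hf]
    simp only [← Finset.sum_mul]
    congr 1
    simp only [Finset.mul_sum]
    rw [Finset.sum_comm]
    refine Finset.sum_congr rfl fun P _ => ?_
    rw [Finset.sum_comm]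
  rw [h1]
  set M : Finset (Finset I × I) := {(∅, i₀), ({i₀}, i₀)} with hM
  have hMc : M.card = 2 := by
    rw [hM, Finset.card_pair]
    simp
  have hmain : ∀ p ∈ M, f p = B := by
    intro p hp
    simp only [hM, Finset.mem_insert, Finset.mem_singleton] at hp
    rcases hp with rfl | rfl
    · exact main_term β hβ U hU i₀ ∅ (Finset.empty_subset _)
    · exact main_term β hβ U hU i₀ {i₀} (Finset.Subset.refl _)
  have hcross : ∀ p ∈ Mᶜ, - (B / Real.sqrt (Fintype.card K)) ≤ f p := by
    intro p hp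
    have hp' : p.2 ≠ i₀ ∨ ∃ j ∈ p.1, j ≠ i₀ := by
      by_contra hno
      push Not at hno
      rw [Finset.mem_compl] at hp
      apply hp
      obtain ⟨h2, h3⟩ := hno
      have : p.1 ⊆ {i₀} := fun l hl => Finset.mem_singleton.2 (h3 l hl)
      rcases Finset.subset_singleton_iff.1 this with h4 | h4
      · simp only [hM, Finset.mem_insert, Finset.mem_singleton]
        left
        exact Prod.ext h4 h2
      · simp only [hM, Finset.mem_insert, Finset.mem_singleton]
        right
        exact Prod.ext h4 h2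
    have h4 := cross_term β hβ U hU hA i₀ p.2 p.1 hp'
    rw [neg_le_iff_add_nonneg]
    have h5 : |f p| ≤ B / Real.sqrt (Fintype.card K) := by
      rw [le_div_iff₀ hsq]
      simp only [hf]
      rw [abs_mul, Nat.abs_cast]
      exact h4
    linarith [neg_abs_le (f p)]
  have hcard : (Mᶜ.card : ℝ) ≤ Fintype.card I * 2 ^ Fintype.card I := by
    have : Mᶜ.card ≤ Fintype.card (Finset I × I) := Finset.card_le_univ _
    rw [Fintype.card_prod, Fintype.card_finset] at this
    have h6 : ((Mᶜ.card : ℕ) : ℝ) ≤ ((2 ^ Fintype.card I * Fintype.card I : ℕ) : ℝ) := by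
      exact_mod_cast this
    push_cast at h6
    linarith
  calc (2 - Fintype.card I * 2 ^ Fintype.card I / Real.sqrt (Fintype.card K)) * B
      = 2 * B - (Fintype.card I * 2 ^ Fintype.card I) * (B / Real.sqrt (Fintype.card K)) := by
        ring
    _ ≤ 2 * B - Mᶜ.card * (B / Real.sqrt (Fintype.card K)) := by
        have : 0 ≤ B / Real.sqrt (Fintype.card K) := by positivity
        have := mul_le_mul_of_nonneg_right hcard this
        linarith
    _ = ∑ p ∈ M, B + ∑ p ∈ Mᶜ, (- (B / Real.sqrt (Fintype.card K))) := by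
        rw [Finset.sum_const, Finset.sum_const, hMc]
        simp only [nsmul_eq_mul]
        push_cast
        ring
    _ ≤ ∑ p ∈ M, f p + ∑ p ∈ Mᶜ, f p := by
        refine add_le_add (le_of_eq ?_) (Finset.sum_le_sum hcross)
        exact (Finset.sum_congr rfl hmain).symm
    _ = ∑ p : Finset I × I, f p := Finset.sum_add_sum_compl M f

end Pool.Agent.KM
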