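import Pool.Agent.KM.AMean
import Pool.Agent.KM.AOmega
import Pool.Agent.KM.ACross

/-!
Project KM2 (MP_27fd67_ag), part (A), row KM-A5b: upper bounds of the good and of the bad part.
-/

set_option autoImplicit false
set_option linter.all false

open Function

namespace Pool.Agent.KM

/-- Cauchy-Schwarz with weights -/
private theorem ka5b_cs {α : Type*} (s : Finset α) (a b : α → ℝ) {w A B C : ℝ} (hw : 0 ≤ w)
    (ha : (∑ i ∈ s, a i ^ 2) * w ≤ A) (hb : (∑ i ∈ s, b i ^ 2) * w ≤ B) (hC : 0 ≤ C)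
    (hAB : A * B ≤ C ^ 2) : |∑ i ∈ s, a i * b i| * w ≤ C := by
  have h1 := Finset.sum_mul_sq_le_sq_mul_sq s a b
  have ha0 : 0 ≤ (∑ i ∈ s, a i ^ 2) * w :=
    mul_nonneg (Finset.sum_nonneg fun i _ => sq_nonneg _) hw
  have hb0 : 0 ≤ (∑ i ∈ s, b i ^ 2) * w :=
    mul_nonneg (Finset.sum_nonneg fun i _ => sq_nonneg _) hw
  have h2 : (|∑ i ∈ s, a i * b i| * w) ^ 2 ≤ C ^ 2 := by
    calc (|∑ i ∈ s, a i * b i| * w) ^ 2 = (∑ i ∈ s, a i * b i) ^ 2 * w ^ 2 := by
          rw [mul_pow, sq_abs]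
      _ ≤ ((∑ i ∈ s, a i ^ 2) * ∑ i ∈ s, b i ^ 2) * w ^ 2 :=
          mul_le_mul_of_nonneg_right h1 (sq_nonneg w)
      _ = ((∑ i ∈ s, a i ^ 2) * w) * ((∑ i ∈ s, b i ^ 2) * w) := by ring
      _ ≤ A * B := mul_le_mul ha hb hb0 (ha0.trans ha)
      _ ≤ C ^ 2 := hAB
  exact (pow_le_pow_iff_left₀ (mul_nonneg (abs_nonneg _) hw) hC (by norm_num)).1 h2

section
variable {K V W I : Type} [Field K] [Fintype K] [AddCommGroup V] [Module K V] [AddCommGroup W]
  [Module K W] [Fintype I] [DecidableEq I] [Fintype V] [Finite W] (β : V →ₗ[K] V →ₗ[K] W)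

private theorem ka5b_subset_g : (Omg β : Finset ((I → V) × (I → V))) ⊆ Om β := by
  classical
  exact Finset.filter_subset _ _

private theorem ka5b_subset_b : (Omb β : Finset ((I → V) × (I → V))) ⊆ Om β := by
  classical
  exact Finset.filter_subset _ _

private theorem ka5b_mem_g {ω : (I → V) × (I → V)} (h : ω ∈ Omg β) :
    gen β Finset.univ ω.1 ω.2 = 0 ∧ ∀ P : Finset I, GG β (fc P ω) := by
  classical
  have h1 := (Finset.mem_filter.1 h)
  exact ⟨(Finset.mem_filter.1 h1.1).2, h1.2⟩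

private theorem ka5b_mem_b {ω : (I → V) × (I → V)} :
    ω ∈ Omb β ↔ gen β Finset.univ ω.1 ω.2 = 0 ∧ ∃ P : Finset I, ¬ GG β (fc P ω) := by
  classical
  rw [Omb, Finset.mem_filter, Om, Finset.mem_filter, not_forall]
  simp only [Finset.mem_univ, true_and]

/-- the sum of the square of a mean over all syzygy pairs -/
private theorem ka5b_sumTm (hβ : ∀ a b, β a b = β b a) (U : (I → V) → ℝ)
    (hU : ∀ x, ¬ GG β x → U x = 0) (i : I) (P : Finset I) :
    (∑ ω ∈ Om β, Tm U i (fc P ω) ^ 2) * Nat.card W =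
      (Fintype.card V : ℝ) ^ Fintype.card I * ∑ t : I → V, Tm U i t ^ 2 := by
  refine sum_fc β hβ P (fun t => Tm U i t ^ 2) ?_
  intro t ht
  have h1 : Tm U i t ≠ 0 := by
    intro h0
    apply ht
    show Tm U i t ^ 2 = 0
    rw [h0]
    norm_num
  exact gen_mono β (Finset.subset_univ _) t (Tm_ne β U hU i t h1).2

/-- the part where all faces are good -/
theorem good_part (hβ : ∀ a b, β a b = β b a) (U : (I → V) → ℝ)
    (hU : ∀ x, ¬ GG β x → U x = 0)
    (hP : ∀ x x' : I → V, gen β Finset.univ x x' = 0 →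
      (∀ P : Finset I, GG β (P.piecewise x' x)) → ∑ P : Finset I, U (P.piecewise x' x) = 0)
    (i₀ : I) (M : ℝ) (hM : 0 ≤ M)
    (h : ∑ x ∈ Gf β,
      ((∑ i, Tm U i x) - U x) ^ 2 ≤ M ^ 2 * ∑ x : I → V, Tm U i₀ x ^ 2) :
    |∑ ω ∈ Omg β,
      Tm U i₀ ω.1 * ∑ P : Finset I, ∑ i : I, Tm U i (fc P ω)| * Nat.card W ≤
    2 ^ Fintype.card I * M * ((Fintype.card V : ℝ) ^ Fintype.card I *
      ∑ x : I → V, Tm U i₀ x ^ 2) := by
  classical
  have hw : (0 : ℝ) ≤ Nat.card W := Nat.cast_nonneg _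
  have hv : (0 : ℝ) ≤ (Fintype.card V : ℝ) ^ Fintype.card I := pow_nonneg (Nat.cast_nonneg _) _
  have hN : 0 ≤ ∑ x : I → V, Tm U i₀ x ^ 2 := Finset.sum_nonneg fun x _ => sq_nonneg _
  have e1 : ∑ ω ∈ Omg β, Tm U i₀ ω.1 * ∑ P : Finset I, ∑ i : I, Tm U i (fc P ω) =
      ∑ P : Finset I, ∑ ω ∈ Omg β,
        Tm U i₀ ω.1 * ((∑ i : I, Tm U i (fc P ω)) - U (fc P ω)) := by
    rw [Finset.sum_comm]
    refine Finset.sum_congr rfl fun ω hω => ?_
    obtain ⟨h1, h2⟩ := ka5b_mem_g β hω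
    have h3 : ∑ P : Finset I, U (fc P ω) = 0 := hP ω.1 ω.2 h1 h2
    rw [← Finset.mul_sum, Finset.sum_sub_distrib, h3, sub_zero]
  have key : ∀ P : Finset I, |∑ ω ∈ Omg β,
      Tm U i₀ ω.1 * ((∑ i : I, Tm U i (fc P ω)) - U (fc P ω))| * Nat.card W ≤
      M * ((Fintype.card V : ℝ) ^ Fintype.card I * ∑ x : I → V, Tm U i₀ x ^ 2) := by
    intro P
    refine ka5b_cs (Omg β) (fun ω => Tm U i₀ ω.1)
      (fun ω => (∑ i : I, Tm U i (fc P ω)) - U (fc P ω)) hw
      (A := (Fintype.card V : ℝ) ^ Fintype.card I * ∑ x : I → V, Tm U i₀ x ^ 2)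
      (B := (Fintype.card V : ℝ) ^ Fintype.card I * (M ^ 2 * ∑ x : I → V, Tm U i₀ x ^ 2))
      ?_ ?_ (mul_nonneg hM (mul_nonneg hv hN)) ?_
    · have h1 := ka5b_sumTm β hβ U hU i₀ ∅
      rw [← h1]
      refine mul_le_mul_of_nonneg_right ?_ hw
      have h2 : ∀ ω : (I → V) × (I → V), fc (∅ : Finset I) ω = ω.1 := fun ω => by
        simp [fc]
      simp only [h2]
      exact Finset.sum_le_sum_of_subset_of_nonneg (ka5b_subset_g β) fun _ _ _ => sq_nonneg _
    · have h1 := sum_fc β hβ P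
        (fun t => if GG β t then ((∑ i : I, Tm U i t) - U t) ^ 2 else 0) (by
          intro t ht
          have h2 : GG β t := by
            by_contra hcon
            exact ht (if_neg hcon)
          exact gen_mono β (Finset.subset_univ _) t (h2.2 i₀))
      have h2 : ∑ t : I → V, (if GG β t then ((∑ i : I, Tm U i t) - U t) ^ 2 else 0) =
          ∑ x ∈ Gf β, ((∑ i, Tm U i x) - U x) ^ 2 := by
        rw [Gf, Finset.sum_filter]
      rw [h2] at h1
      have h3 : (∑ ω ∈ Omg β, ((∑ i : I, Tm U i (fc P ω)) - U (fc P ω)) ^ 2) ≤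
          ∑ ω ∈ Om β, (if GG β (fc P ω) then
            ((∑ i : I, Tm U i (fc P ω)) - U (fc P ω)) ^ 2 else 0) := by
        calc (∑ ω ∈ Omg β, ((∑ i : I, Tm U i (fc P ω)) - U (fc P ω)) ^ 2)
            = ∑ ω ∈ Omg β, (if GG β (fc P ω) then
              ((∑ i : I, Tm U i (fc P ω)) - U (fc P ω)) ^ 2 else 0) := by
              refine Finset.sum_congr rfl fun ω hω => ?_
              rw [if_pos ((ka5b_mem_g β hω).2 P)]
          _ ≤ _ := by
              refine Finset.sum_le_sum_of_subset_of_nonneg (ka5b_subset_g β) fun ω _ _ => ?_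
              split_ifs
              · exact sq_nonneg _
              · exact le_rfl
      calc (∑ ω ∈ Omg β, ((∑ i : I, Tm U i (fc P ω)) - U (fc P ω)) ^ 2) * Nat.card W
          ≤ (∑ ω ∈ Om β, (if GG β (fc P ω) then
            ((∑ i : I, Tm U i (fc P ω)) - U (fc P ω)) ^ 2 else 0)) * Nat.card W :=
            mul_le_mul_of_nonneg_right h3 hw
        _ = (Fintype.card V : ℝ) ^ Fintype.card I *
            ∑ x ∈ Gf β, ((∑ i, Tm U i x) - U x) ^ 2 := h1
        _ ≤ _ := mul_le_mul_of_nonneg_left h hv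
    · apply le_of_eq
      ring
  rw [e1]
  calc |∑ P : Finset I, ∑ ω ∈ Omg β,
        Tm U i₀ ω.1 * ((∑ i : I, Tm U i (fc P ω)) - U (fc P ω))| * Nat.card W
      ≤ (∑ P : Finset I, |∑ ω ∈ Omg β,
        Tm U i₀ ω.1 * ((∑ i : I, Tm U i (fc P ω)) - U (fc P ω))|) * Nat.card W :=
        mul_le_mul_of_nonneg_right (Finset.abs_sum_le_sum_abs _ _) hw
    _ = ∑ P : Finset I, |∑ ω ∈ Omg β,
        Tm U i₀ ω.1 * ((∑ i : I, Tm U i (fc P ω)) - U (fc P ω))| * Nat.card W :=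
        Finset.sum_mul _ _ _
    _ ≤ ∑ _P : Finset I,
        M * ((Fintype.card V : ℝ) ^ Fintype.card I * ∑ x : I → V, Tm U i₀ x ^ 2) :=
        Finset.sum_le_sum fun P _ => key P
    _ = 2 ^ Fintype.card I * M * ((Fintype.card V : ℝ) ^ Fintype.card I *
          ∑ x : I → V, Tm U i₀ x ^ 2) := by
        rw [Finset.sum_const, Finset.card_univ, Fintype.card_finset, nsmul_eq_mul]
        push_cast
        ring

/-- first factor of the bad part -/
private theorem ka5b_bad (U : (I → V) → ℝ) (hU : ∀ x, ¬ GG β x → U x = 0) (i₀ : I) (κ : ℝ)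
    (hκ0 : 0 ≤ κ)
    (h : ∀ x : I → V, (∃ z, GG β (update x i₀ z)) →
      ({q : V × (I → V) | gen β Finset.univ (update x i₀ q.1) q.2 = 0 ∧
        ∃ P : Finset I, ¬ GG β (P.piecewise q.2 (update x i₀ q.1))}.ncard : ℝ) * Nat.card W ≤
      κ * (Fintype.card V : ℝ) ^ (Fintype.card I + 1)) :
    (∑ ω ∈ Omb β, Tm U i₀ ω.1 ^ 2) * Nat.card W ≤
      κ * ((Fintype.card V : ℝ) ^ Fintype.card I * ∑ x : I → V, Tm U i₀ x ^ 2) := by
  classical
  have hv : (0 : ℝ) < Fintype.card V := by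
    have : 0 < Fintype.card V := Fintype.card_pos_iff.2 ⟨0⟩
    exact_mod_cast this
  let c : (I → V) → ℝ := fun x =>
    ∑ x' : I → V, if gen β Finset.univ x x' = 0 ∧ ∃ P : Finset I, ¬ GG β (P.piecewise x' x)
      then (1 : ℝ) else 0
  have h1 : ∑ ω ∈ Omb β, Tm U i₀ ω.1 ^ 2 = ∑ x : I → V, Tm U i₀ x ^ 2 * c x := by
    have e0 : Omb β = Finset.univ.filter (fun ω : (I → V) × (I → V) =>
        gen β Finset.univ ω.1 ω.2 = 0 ∧ ∃ P : Finset I, ¬ GG β (fc P ω)) := by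
      ext ω
      rw [ka5b_mem_b, Finset.mem_filter]
      simp only [Finset.mem_univ, true_and]
    rw [e0, Finset.sum_filter, Fintype.sum_prod_type]
    refine Finset.sum_congr rfl fun x _ => ?_
    show ∑ x' : I → V, (if gen β Finset.univ x x' = 0 ∧ ∃ P : Finset I,
      ¬ GG β (P.piecewise x' x) then Tm U i₀ x ^ 2 else 0) = Tm U i₀ x ^ 2 * c x
    rw [Finset.mul_sum]
    refine Finset.sum_congr rfl fun x' _ => ?_
    split_ifs
    · rw [mul_one]
    · rw [mul_zero]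
  have h2 : ∀ x : I → V, ∑ z : V, c (update x i₀ z) =
      ({q : V × (I → V) | gen β Finset.univ (update x i₀ q.1) q.2 = 0 ∧
        ∃ P : Finset I, ¬ GG β (P.piecewise q.2 (update x i₀ q.1))}.ncard : ℝ) := by
    intro x
    have e1 : {q : V × (I → V) | gen β Finset.univ (update x i₀ q.1) q.2 = 0 ∧
        ∃ P : Finset I, ¬ GG β (P.piecewise q.2 (update x i₀ q.1))} =
        ((Finset.univ.filter fun q : V × (I → V) =>
          gen β Finset.univ (update x i₀ q.1) q.2 = 0 ∧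
          ∃ P : Finset I, ¬ GG β (P.piecewise q.2 (update x i₀ q.1)) :
            Finset (V × (I → V))) : Set (V × (I → V))) := by
      ext q
      simp
    rw [e1, Set.ncard_coe_finset, Finset.card_filter, Nat.cast_sum, Fintype.sum_prod_type]
    refine Finset.sum_congr rfl fun z _ => ?_
    refine Finset.sum_congr rfl fun x' _ => ?_
    push_cast
    rfl
  have h3 := sum_update_all (fun x => Tm U i₀ x ^ 2 * c x) i₀
  have h4 : ∑ x : I → V, ∑ z : V, Tm U i₀ (update x i₀ z) ^ 2 * c (update x i₀ z) =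
      ∑ x : I → V, Tm U i₀ x ^ 2 *
        ({q : V × (I → V) | gen β Finset.univ (update x i₀ q.1) q.2 = 0 ∧
          ∃ P : Finset I, ¬ GG β (P.piecewise q.2 (update x i₀ q.1))}.ncard : ℝ) := by
    refine Finset.sum_congr rfl fun x _ => ?_
    rw [← h2 x, Finset.mul_sum]
    refine Finset.sum_congr rfl fun z _ => ?_
    rw [Tm_update]
  have h5 : (∑ x : I → V, Tm U i₀ x ^ 2 *
        ({q : V × (I → V) | gen β Finset.univ (update x i₀ q.1) q.2 = 0 ∧
          ∃ P : Finset I, ¬ GG β (P.piecewise q.2 (update x i₀ q.1))}.ncard : ℝ)) * Nat.card W ≤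
      ∑ x : I → V, Tm U i₀ x ^ 2 * (κ * (Fintype.card V : ℝ) ^ (Fintype.card I + 1)) := by
    rw [Finset.sum_mul]
    refine Finset.sum_le_sum fun x _ => ?_
    rw [mul_assoc]
    by_cases hx : Tm U i₀ x = 0
    · rw [hx]
      norm_num
    · exact mul_le_mul_of_nonneg_left (h x (Tm_ne β U hU i₀ x hx).1) (sq_nonneg _)
  rw [← h4, h3, ← h1, ← Finset.sum_mul] at h5
  have h6 : (Fintype.card V : ℝ) * ((∑ ω ∈ Omb β, Tm U i₀ ω.1 ^ 2) * Nat.card W) ≤
      (Fintype.card V : ℝ) * (κ * ((Fintype.card V : ℝ) ^ Fintype.card I *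
        ∑ x : I → V, Tm U i₀ x ^ 2)) := by
    calc (Fintype.card V : ℝ) * ((∑ ω ∈ Omb β, Tm U i₀ ω.1 ^ 2) * Nat.card W)
        = (Fintype.card V : ℝ) * (∑ ω ∈ Omb β, Tm U i₀ ω.1 ^ 2) * Nat.card W := by ring
      _ ≤ _ := h5
      _ = _ := by rw [pow_succ]; ring
  exact le_of_mul_le_mul_left h6 hv

/-- the part where some face is bad -/
theorem bad_part (hβ : ∀ a b, β a b = β b a) (U : (I → V) → ℝ)
    (hU : ∀ x, ¬ GG β x → U x = 0) (hA : Alt U) (i₀ : I) (κ : ℝ) (hκ0 : 0 ≤ κ)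
    (h : ∀ x : I → V, (∃ z, GG β (update x i₀ z)) →
      ({q : V × (I → V) | gen β Finset.univ (update x i₀ q.1) q.2 = 0 ∧
        ∃ P : Finset I, ¬ GG β (P.piecewise q.2 (update x i₀ q.1))}.ncard : ℝ) * Nat.card W ≤
      κ * (Fintype.card V : ℝ) ^ (Fintype.card I + 1)) :
    |∑ ω ∈ Omb β,
      Tm U i₀ ω.1 * ∑ P : Finset I, ∑ i : I, Tm U i (fc P ω)| * Nat.card W ≤
    Fintype.card I * 2 ^ Fintype.card I * Real.sqrt κ * ((Fintype.card V : ℝ) ^ Fintype.card I *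
      ∑ x : I → V, Tm U i₀ x ^ 2) := by
  classical
  have hw : (0 : ℝ) ≤ Nat.card W := Nat.cast_nonneg _
  have hv : (0 : ℝ) ≤ (Fintype.card V : ℝ) ^ Fintype.card I := pow_nonneg (Nat.cast_nonneg _) _
  have hN : 0 ≤ ∑ x : I → V, Tm U i₀ x ^ 2 := Finset.sum_nonneg fun x _ => sq_nonneg _
  have hb := ka5b_bad β U hU i₀ κ hκ0 h
  have e1 : ∑ ω ∈ Omb β, Tm U i₀ ω.1 * ∑ P : Finset I, ∑ i : I, Tm U i (fc P ω) =
      ∑ P : Finset I, ∑ i : I, ∑ ω ∈ Omb β, Tm U i₀ ω.1 * Tm U i (fc P ω) := by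
    simp only [Finset.mul_sum]
    rw [Finset.sum_comm]
    refine Finset.sum_congr rfl fun P _ => ?_
    rw [Finset.sum_comm]
  have key : ∀ (P : Finset I) (i : I), |∑ ω ∈ Omb β, Tm U i₀ ω.1 * Tm U i (fc P ω)| *
      Nat.card W ≤ Real.sqrt κ * ((Fintype.card V : ℝ) ^ Fintype.card I *
        ∑ x : I → V, Tm U i₀ x ^ 2) := by
    intro P i
    refine ka5b_cs (Omb β) (fun ω => Tm U i₀ ω.1) (fun ω => Tm U i (fc P ω)) hw hb
      (B := (Fintype.card V : ℝ) ^ Fintype.card I * ∑ x : I → V, Tm U i₀ x ^ 2)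
      ?_ (mul_nonneg (Real.sqrt_nonneg _) (mul_nonneg hv hN)) ?_
    · have h1 := ka5b_sumTm β hβ U hU i P
      rw [← Tm_norm hA i i₀, ← h1]
      refine mul_le_mul_of_nonneg_right ?_ hw
      exact Finset.sum_le_sum_of_subset_of_nonneg (ka5b_subset_b β) fun _ _ _ => sq_nonneg _
    · rw [mul_pow, Real.sq_sqrt hκ0]
      apply le_of_eq
      ring
  rw [e1]
  calc |∑ P : Finset I, ∑ i : I, ∑ ω ∈ Omb β, Tm U i₀ ω.1 * Tm U i (fc P ω)| * Nat.card W
      ≤ (∑ P : Finset I, ∑ i : I, |∑ ω ∈ Omb β, Tm U i₀ ω.1 * Tm U i (fc P ω)|) *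
        Nat.card W := by
        refine mul_le_mul_of_nonneg_right ?_ hw
        refine (Finset.abs_sum_le_sum_abs _ _).trans (Finset.sum_le_sum fun P _ => ?_)
        exact Finset.abs_sum_le_sum_abs _ _
    _ = ∑ P : Finset I, ∑ i : I, |∑ ω ∈ Omb β, Tm U i₀ ω.1 * Tm U i (fc P ω)| *
        Nat.card W := by
        rw [Finset.sum_mul]
        refine Finset.sum_congr rfl fun P _ => ?_
        rw [Finset.sum_mul]
    _ ≤ ∑ _P : Finset I, ∑ _i : I, Real.sqrt κ * ((Fintype.card V : ℝ) ^ Fintype.card I *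
        ∑ x : I → V, Tm U i₀ x ^ 2) :=
        Finset.sum_le_sum fun P _ => Finset.sum_le_sum fun i _ => key P i
    _ = Fintype.card I * 2 ^ Fintype.card I * Real.sqrt κ *
        ((Fintype.card V : ℝ) ^ Fintype.card I * ∑ x : I → V, Tm U i₀ x ^ 2) := by
        rw [Finset.sum_const, Finset.sum_const, Finset.card_univ, Finset.card_univ,
          Fintype.card_finset, nsmul_eq_mul, nsmul_eq_mul]
        push_cast
        ring

end

end Pool.Agent.KM
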