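import Pool.Agent.KM.Defs

/-!
Project KM2 (MP_27fd67_ag), part (A): the base theorem in root group form. Definitions (helper60).
-/

set_option autoImplicit false

open Function

namespace Pool.Agent.KM

/-- All entries are nonzero, and any family of all entries but one generates `W`. -/
def GG {K V W I : Type} [Field K] [AddCommGroup V] [Module K V] [AddCommGroup W] [Module K W]
    [Fintype I] [DecidableEq I] (β : V →ₗ[K] V →ₗ[K] W) (x : I → V) : Prop :=
  (∀ i, x i ≠ 0) ∧ ∀ i, Surjective (gen β {i}ᶜ x)

/-- Alternating functions of tuples. -/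
def Alt {V I : Type} [DecidableEq I] (U : (I → V) → ℝ) : Prop :=
  ∀ (x : I → V) (i j : I), i ≠ j → U (x ∘ Equiv.swap i j) = - U x

/-- The mean of `U` over the entry at the place `i`. -/
noncomputable def Tm {V I : Type} [Fintype V] [DecidableEq I] (U : (I → V) → ℝ) (i : I)
    (x : I → V) : ℝ :=
  (∑ z : V, U (update x i z)) / Fintype.card V

/-- All pairs `(x, x')` with `∑ β (x i) (x' i) = 0`. -/
noncomputable def Om {K V W I : Type} [Field K] [AddCommGroup V] [Module K V] [AddCommGroup W]
    [Module K W] [Fintype I] [DecidableEq I] [Fintype V] (β : V →ₗ[K] V →ₗ[K] W) :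
    Finset ((I → V) × (I → V)) :=
  open scoped Classical in Finset.univ.filter fun ω => gen β Finset.univ ω.1 ω.2 = 0

/-- The face of the pair `ω` at `P`: entries of `ω.2` on `P`, of `ω.1` off `P`. -/
abbrev fc {V I : Type} [DecidableEq I] (P : Finset I) (ω : (I → V) × (I → V)) : I → V :=
  P.piecewise ω.2 ω.1

/-- The good tuples. -/
noncomputable def Gf {K V W I : Type} [Field K] [AddCommGroup V] [Module K V] [AddCommGroup W]
    [Module K W] [Fintype I] [DecidableEq I] [Fintype V] (β : V →ₗ[K] V →ₗ[K] W) :
    Finset (I → V) :=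
  open scoped Classical in Finset.univ.filter fun x => GG β x

/-- The pairs all of whose faces are good. -/
noncomputable def Omg {K V W I : Type} [Field K] [AddCommGroup V] [Module K V] [AddCommGroup W]
    [Module K W] [Fintype I] [DecidableEq I] [Fintype V] (β : V →ₗ[K] V →ₗ[K] W) :
    Finset ((I → V) × (I → V)) :=
  open scoped Classical in (Om β).filter fun ω => ∀ P : Finset I, GG β (fc P ω)

/-- The pairs with a face which is not good. -/
noncomputable def Omb {K V W I : Type} [Field K] [AddCommGroup V] [Module K V] [AddCommGroup W]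
    [Module K W] [Fintype I] [DecidableEq I] [Fintype V] (β : V →ₗ[K] V →ₗ[K] W) :
    Finset ((I → V) × (I → V)) :=
  open scoped Classical in (Om β).filter fun ω => ¬ ∀ P : Finset I, GG β (fc P ω)

end Pool.Agent.KM
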