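import Pool.Agent.KM.MSum

/-!
Project KM, row M3 (helper84): the sum over all faces.
-/

set_option autoImplicit false

open Function

namespace Pool.Agent.KM

section M
variable {F ι : Type} [Field F] [DecidableEq ι] {T : (ι → F) → ℝ}

/-- expansion of a quotient by a common denominator on a set of places -/
theorem mf_quot (hT : IsM T) (w : F) (hw : w ≠ 0) (S : Finset ι) :
    ∀ z : ι → F, (∀ i, z i ≠ 0) →
      T (fun i => if i ∈ S then z i / w else z i) = T z - ∑ j ∈ S, T (update z j w) := by
  induction S using Finset.induction_on with
  | empty =>
    intro z _
    simp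
  | insert a S ha ih =>
    intro z hz
    have e1 : (fun i => if i ∈ insert a S then z i / w else z i)
        = update (fun i => if i ∈ S then z i / w else z i) a (z a / w) := by
      funext i
      by_cases hi : i = a
      · subst hi
        simp
      · simp [Finset.mem_insert, hi]
    have e2 : update (fun i => if i ∈ S then z i / w else z i) a (z a)
        = fun i => if i ∈ S then z i / w else z i := by
      funext i
      by_cases hi : i = a
      · subst hi
        simp [ha]
      · simp [update_of_ne hi]
    have e3 : update (fun i => if i ∈ S then z i / w else z i) a w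
        = fun i => if i ∈ S then (update z a w) i / w else (update z a w) i := by
      funext i
      by_cases hi : i = a
      · subst hi
        simp [ha]
      · simp [update_of_ne hi]
    have hz' : ∀ i, update z a w i ≠ 0 := by
      intro i
      by_cases hi : i = a
      · subst hi
        simpa using hw
      · rw [update_of_ne hi]
        exact hz i
    have h0 : ∑ j ∈ S, T (update (update z a w) j w) = 0 := by
      refine Finset.sum_eq_zero fun j hj => ?_
      have hja : j ≠ a := fun e => ha (e ▸ hj)
      exact hT.of_eq _ hja (by rw [update_self, update_of_ne hja.symm, update_self])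
    rw [e1, hT.div _ a (hz a) hw, e2, e3, ih z hz, ih _ hz', h0, Finset.sum_insert ha]
    ring

theorem mf_quot_univ [Fintype ι] (hT : IsM T) (w : F) (hw : w ≠ 0) (z : ι → F)
    (hz : ∀ i, z i ≠ 0) :
    T (fun i => z i / w) = T z - ∑ j, T (update z j w) := by
  have h := mf_quot hT w hw Finset.univ z hz
  simpa using h

/-- expansion of products -/
theorem mf_mul (hT : IsM T) (x' : Option ι → F) (h' : ∀ o, x' o ≠ 0) (S : Finset (Option ι)) :
    ∀ x : Option ι → F, (∀ o, x o ≠ 0) → none ∉ S →
      ∑ P ∈ S.powerset, T (fun i => P.piecewise x' x (some i)) =
        T (fun i => if some i ∈ S then x (some i) * x' (some i) else x (some i)) := by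
  induction S using Finset.induction_on with
  | empty =>
    intro x _ _
    simp
  | insert a S ha ih =>
    intro x hx hn
    rw [Finset.mem_insert, not_or] at hn
    obtain ⟨hna, hnS⟩ := hn
    obtain ⟨i0, rfl⟩ := Option.ne_none_iff_exists'.mp (Ne.symm hna)
    have hx2 : ∀ o, update x (some i0) (x' (some i0)) o ≠ 0 := by
      intro o
      by_cases ho : o = some i0
      · subst ho
        simpa using h' _
      · rw [update_of_ne ho]
        exact hx o
    rw [Finset.sum_powerset_insert ha, ih x hx hnS]
    have e1 : ∀ P ∈ S.powerset, T (fun i => (insert (some i0) P).piecewise x' x (some i))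
        = T (fun i => P.piecewise x' (update x (some i0) (x' (some i0))) (some i)) := by
      intro P hP
      have hP0 : some i0 ∉ P := fun h => ha (Finset.mem_powerset.mp hP h)
      congr 1
      funext i
      by_cases hi : i = i0
      · subst hi
        simp [Finset.piecewise, hP0]
      · simp [Finset.piecewise, hi]
    rw [Finset.sum_congr rfl e1, ih _ hx2 hnS]
    have e2 : (fun i => if some i ∈ insert (some i0) S then x (some i) * x' (some i)
          else x (some i))
        = update (fun i => if some i ∈ S then x (some i) * x' (some i) else x (some i)) i0
            (x (some i0) * x' (some i0)) := by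
      funext i
      by_cases hi : i = i0
      · subst hi
        simp
      · simp [hi]
    have e3 : update (fun i => if some i ∈ S then x (some i) * x' (some i) else x (some i)) i0
          (x (some i0)) = fun i => if some i ∈ S then x (some i) * x' (some i) else x (some i) := by
      funext i
      by_cases hi : i = i0
      · subst hi
        simp [ha]
      · simp [update_of_ne hi]
    have e4 : update (fun i => if some i ∈ S then x (some i) * x' (some i) else x (some i)) i0
          (x' (some i0)) = fun i => if some i ∈ S then
            update x (some i0) (x' (some i0)) (some i) * x' (some i)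
            else update x (some i0) (x' (some i0)) (some i) := by
      funext i
      by_cases hi : i = i0
      · subst hi
        simp [ha]
      · have hi' : (some i : Option ι) ≠ some i0 := fun e => hi (Option.some_injective _ e)
        simp [update_of_ne hi, update_of_ne hi']
    rw [e2, hT.mul _ i0 _ _ (hx _) (h' _), e3, e4]

theorem mf_two [Fintype ι] (hT : IsM T) (x x' : Option ι → F) (h : ∀ o, x o ≠ 0)
    (h' : ∀ o, x' o ≠ 0) :
    ∑ P : Finset (Option ι), T (fun i => P.piecewise x' x (some i)) =
      2 * T (fun i => x (some i) * x' (some i)) := by
  have hn : (none : Option ι) ∉ (Finset.univ.erase none : Finset (Option ι)) := by simp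
  have hu : (Finset.univ : Finset (Option ι)) = insert none (Finset.univ.erase none) :=
    (Finset.insert_erase (Finset.mem_univ _)).symm
  have key := mf_mul hT x' h' (Finset.univ.erase none) x h hn
  have e0 : (fun i : ι => if (some i : Option ι) ∈ (Finset.univ.erase none : Finset (Option ι))
      then x (some i) * x' (some i) else x (some i)) = fun i => x (some i) * x' (some i) := by
    funext i
    simp
  rw [e0] at key
  rw [← Finset.powerset_univ, hu, Finset.sum_powerset_insert hn, key]
  have e1 : ∀ P ∈ (Finset.univ.erase none : Finset (Option ι)).powerset,
      T (fun i => (insert none P).piecewise x' x (some i))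
        = T (fun i => P.piecewise x' x (some i)) := by
    intro P _
    congr 1
    funext i
    simp [Finset.piecewise]
  rw [Finset.sum_congr rfl e1, key]
  ring

/-! ### KM-M3 (file MFace.lean) -/
/-- the sum over all faces -/
theorem IsM.face_sum [Fintype ι] (hT : IsM T) (x x' : Option ι → F) (h : ∀ o, x o ≠ 0)
    (h' : ∀ o, x' o ≠ 0) (hs : ∑ o, x o * x' o = 0) :
    ∑ P : Finset (Option ι), T (fun i => P.piecewise x' x (some i) / P.piecewise x' x none) = 0 := by
  have hP : ∀ (P : Finset (Option ι)) o, P.piecewise x' x o ≠ 0 := by
    intro P o
    by_cases ho : o ∈ P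
    · rw [Finset.piecewise_eq_of_mem _ _ _ ho]
      exact h' o
    · rw [Finset.piecewise_eq_of_notMem _ _ _ ho]
      exact h o
  have e1 : ∀ P : Finset (Option ι),
      T (fun i => P.piecewise x' x (some i) / P.piecewise x' x none) =
        T (fun i => P.piecewise x' x (some i)) -
          ∑ j, T (update (fun i => P.piecewise x' x (some i)) j (P.piecewise x' x none)) :=
    fun P => mf_quot_univ hT _ (hP P none) (fun i => P.piecewise x' x (some i))
      (fun i => hP P (some i))
  have e2 : ∀ j : ι, ∑ P : Finset (Option ι),
      T (update (fun i => P.piecewise x' x (some i)) j (P.piecewise x' x none)) =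
        2 * T (update (fun i => x (some i) * x' (some i)) j (x none * x' none)) := by
    intro j
    have hsw : ∀ i : ι, Equiv.swap none (some j) (some i) = if i = j then none else some i := by
      intro i
      by_cases hi : i = j
      · subst hi
        simp
      · rw [if_neg hi]
        exact Equiv.swap_apply_of_ne_of_ne (by simp) (fun e => hi (Option.some_injective _ e))
    have k := mf_two hT (fun o => x (Equiv.swap none (some j) o))
      (fun o => x' (Equiv.swap none (some j) o)) (fun o => h _) (fun o => h' _)
    have e3 : (fun i : ι => x (Equiv.swap none (some j) (some i)) *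
        x' (Equiv.swap none (some j) (some i)))
          = update (fun i => x (some i) * x' (some i)) j (x none * x' none) := by
      funext i
      rw [hsw i]
      by_cases hi : i = j
      · subst hi
        simp
      · simp [hi]
    rw [e3] at k
    rw [← k]
    refine Fintype.sum_equiv (Equiv.finsetCongr (Equiv.swap none (some j))) _ _ fun P => ?_
    congr 1
    funext i
    rw [Equiv.finsetCongr_apply]
    have e4 : ∀ o, (P.map (Equiv.swap none (some j)).toEmbedding).piecewise
        (fun o => x' (Equiv.swap none (some j) o)) (fun o => x (Equiv.swap none (some j) o)) o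
          = P.piecewise x' x (Equiv.swap none (some j) o) := by
      intro o
      have hmem : o ∈ P.map (Equiv.swap none (some j)).toEmbedding ↔
          Equiv.swap none (some j) o ∈ P := by
        rw [Finset.mem_map_equiv, Equiv.symm_swap]
      by_cases ho : Equiv.swap none (some j) o ∈ P
      · rw [Finset.piecewise_eq_of_mem _ _ _ ho, Finset.piecewise_eq_of_mem _ _ _ (hmem.mpr ho)]
      · rw [Finset.piecewise_eq_of_notMem _ _ _ ho,
          Finset.piecewise_eq_of_notMem _ _ _ (fun hh => ho (hmem.mp hh))]
    rw [e4, hsw i]
    by_cases hi : i = j
    · rw [if_pos hi, hi, update_self]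
    · rw [if_neg hi, update_of_ne hi]
  have e5 := mf_quot_univ hT (x none * x' none) (mul_ne_zero (h none) (h' none))
    (fun i => x (some i) * x' (some i)) (fun i => mul_ne_zero (h _) (h' _))
  have e6 := hT.sum_zero (fun o => x o * x' o) (fun o => mul_ne_zero (h o) (h' o)) hs
  rw [Finset.sum_congr rfl (fun P _ => e1 P), Finset.sum_sub_distrib, mf_two hT x x' h h',
    Finset.sum_comm, Finset.sum_congr rfl (fun j _ => e2 j), ← Finset.mul_sum, ← mul_sub, ← e5]
  rw [e6, mul_zero]

end M

end Pool.Agent.KM
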