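import Pool.Agent.KM.ADefs
import Pool.Agent.KM.MFace

/-!
Project KM2 (MP_27fd67_ag), row KM-A7 (helper36): functionals of Milnor type on quotients.
-/

set_option autoImplicit false

open Function

namespace Pool.Agent.KM

section A7
variable {F ι : Type} [Field F] [DecidableEq ι] {T : (ι → F) → ℝ}

/-- a functional of Milnor type is alternating -/
theorem A7_swap (hT : IsM T) (x : ι → F) {i j : ι} (hij : i ≠ j) :
    T (x ∘ Equiv.swap i j) = - T x := by
  by_cases hi : x i = 0
  · rw [hT.zero x i hi, hT.zero (x ∘ Equiv.swap i j) j (by simp [hi]), neg_zero]
  by_cases hj : x j = 0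
  · rw [hT.zero x j hj, hT.zero (x ∘ Equiv.swap i j) i (by simp [hj]), neg_zero]
  have e1 : update (update x j (x i)) i (x j) = x ∘ Equiv.swap i j := by
    funext l
    by_cases hl : l = i
    · subst hl; simp
    · rw [update_of_ne hl]
      by_cases hl' : l = j
      · subst hl'; simp
      · rw [update_of_ne hl', comp_apply, Equiv.swap_apply_of_ne_of_ne hl hl']
  have e2 : update (update x j (x j)) i (x i) = x := by
    rw [update_eq_self, update_eq_self]
  have h0 : T (update (update x i (x i * x j)) j (x i * x j)) = 0 :=
    hT.of_eq _ hij (by rw [update_of_ne hij, update_self, update_self])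
  rw [hT.mul _ j _ _ hi hj, update_comm hij, update_comm hij, hT.mul _ i _ _ hi hj,
    hT.mul _ i _ _ hi hj, e1, e2] at h0
  have h1 : T (update (update x j (x i)) i (x i)) = 0 :=
    hT.of_eq _ hij (by rw [update_self, update_of_ne hij.symm, update_self])
  have h2 : T (update (update x j (x j)) i (x j)) = 0 :=
    hT.of_eq _ hij (by rw [update_self, update_of_ne hij.symm, update_self])
  linarith

theorem A7_quot [Fintype ι] (hT : IsM T) (x : Option ι → F) (hx : ∀ o, x o ≠ 0) :
    T (fun i => x (some i) / x none) =
      T (fun i => x (some i)) - ∑ j, T (update (fun i => x (some i)) j (x none)) :=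
  mf_quot_univ hT (x none) (hx none) (fun i => x (some i)) (fun _ => hx _)

theorem A7_alt_none [Fintype ι] (hT : IsM T) (x : Option ι → F) (hx : ∀ o, x o ≠ 0) (j : ι) :
    T (fun i => (x ∘ Equiv.swap none (some j)) (some i) /
      (x ∘ Equiv.swap none (some j)) none) = - T (fun i => x (some i) / x none) := by
  have hy : ∀ o, (x ∘ Equiv.swap none (some j)) o ≠ 0 := fun o => hx _
  rw [A7_quot hT _ hy, A7_quot hT x hx]
  have e1 : (fun i => (x ∘ Equiv.swap none (some j)) (some i)) =
      update (fun i => x (some i)) j (x none) := by
    funext i
    by_cases hi : i = j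
    · subst hi; simp
    · rw [update_of_ne hi, comp_apply, Equiv.swap_apply_of_ne_of_ne (by simp) (by simpa using hi)]
  have e2 : (x ∘ Equiv.swap none (some j)) none = x (some j) := by simp
  rw [e1, e2]
  have h1 : ∀ l, l ≠ j → T (update (update (fun i => x (some i)) j (x none)) l (x (some j))) =
      - T (update (fun i => x (some i)) l (x none)) := by
    intro l hl
    rw [← A7_swap hT (update (fun i => x (some i)) l (x none)) hl]
    congr 1
    funext i
    by_cases hil : i = l
    · subst hil
      rw [update_self, comp_apply, Equiv.swap_apply_left, update_of_ne hl.symm]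
    · rw [update_of_ne hil]
      by_cases hij : i = j
      · subst hij
        rw [update_self, comp_apply, Equiv.swap_apply_right, update_self]
      · rw [update_of_ne hij, comp_apply, Equiv.swap_apply_of_ne_of_ne hil hij,
          update_of_ne hil]
  have h2 : T (update (update (fun i => x (some i)) j (x none)) j (x (some j))) =
      T (fun i => x (some i)) := by
    rw [update_idem]
    congr 1
    exact update_eq_self_iff.2 rfl
  rw [← Finset.add_sum_erase Finset.univ (fun l => T (update (update (fun i => x (some i)) j
      (x none)) l (x (some j)))) (Finset.mem_univ j),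
    ← Finset.add_sum_erase Finset.univ (fun l => T (update (fun i => x (some i)) l (x none)))
      (Finset.mem_univ j)]
  rw [h2, Finset.sum_congr rfl fun l hl => h1 l (Finset.ne_of_mem_erase hl),
    Finset.sum_neg_distrib]
  ring

theorem IsM.quot_alt [Fintype ι] (hT : IsM T) (x : Option ι → F) (hx : ∀ o, x o ≠ 0)
    (o o' : Option ι) (h : o ≠ o') :
    T (fun i => (x ∘ Equiv.swap o o') (some i) / (x ∘ Equiv.swap o o') none) =
      - T (fun i => x (some i) / x none) := by
  rcases o with _ | i
  · rcases o' with _ | j
    · exact absurd rfl h
    · exact A7_alt_none hT x hx j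
  · rcases o' with _ | j
    · rw [Equiv.swap_comm]
      exact A7_alt_none hT x hx i
    · have hij : i ≠ j := fun e => h (by rw [e])
      rw [← A7_swap hT (fun i => x (some i) / x none) hij]
      congr 1
      funext l
      have e0 : (x ∘ Equiv.swap (some i) (some j)) none = x none := by
        rw [comp_apply, Equiv.swap_apply_of_ne_of_ne (by simp) (by simp)]
      rw [e0]
      by_cases hl : l = i
      · subst hl; simp
      · by_cases hl' : l = j
        · subst hl'; simp
        · rw [comp_apply, comp_apply, Equiv.swap_apply_of_ne_of_ne (by simpa using hl)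
            (by simpa using hl'), Equiv.swap_apply_of_ne_of_ne hl hl']

theorem IsM.quot_cocycle [Fintype ι] (hT : IsM T) (x : Option ι → F) (hx : ∀ o, x o ≠ 0) (z : F)
    (hz : z ≠ 0) :
    T (fun i => x (some i) / x none) =
      ∑ o : Option ι, T (fun i => update x o z (some i) / update x o z none) := by
  have hu : ∀ o o', update x o z o' ≠ 0 := by
    intro o o'
    by_cases h : o' = o
    · subst h; simpa using hz
    · rw [update_of_ne h]; exact hx _
  rw [Fintype.sum_option, A7_quot hT x hx, A7_quot hT _ (hu none),
    Finset.sum_congr rfl fun i _ => A7_quot hT _ (hu (some i))]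
  have e1 : (fun i => update x none z (some i)) = fun i => x (some i) := by
    funext i
    rw [update_of_ne (by simp)]
  have e2 : ∀ j, (fun i => update x (some j) z (some i)) = update (fun i => x (some i)) j z := by
    intro j
    funext i
    by_cases hi : i = j
    · subst hi; simp
    · rw [update_of_ne hi, update_of_ne (by simpa using hi)]
  have e3 : ∀ j, update x (some j) z none = x none := fun j => by
    rw [update_of_ne (by simp)]
  simp only [e1, e2, e3, update_self]
  set X : ι → F := fun i => x (some i) with hX
  set w : F := x none with hw
  have h1 : ∀ i, ∑ j, T (update (update X i z) j w) = T (update X i w) +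
      ∑ j, if j = i then 0 else T (update (update X i z) j w) := by
    intro i
    rw [← Finset.add_sum_erase Finset.univ (fun j => T (update (update X i z) j w))
      (Finset.mem_univ i),
      ← Finset.add_sum_erase Finset.univ (fun j => if j = i then 0 else
        T (update (update X i z) j w)) (Finset.mem_univ i)]
    simp only [update_idem, if_true, zero_add]
    congr 1
    refine Finset.sum_congr rfl fun j hj => ?_
    rw [if_neg (Finset.ne_of_mem_erase hj)]
  have h2 : ∑ i, ∑ j, (if j = i then 0 else T (update (update X i z) j w)) = 0 := by
    have h3 : ∑ i, ∑ j, (if j = i then 0 else T (update (update X i z) j w)) =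
        - ∑ i, ∑ j, (if j = i then 0 else T (update (update X i z) j w)) := by
      conv_lhs => rw [Finset.sum_comm]
      rw [← Finset.sum_neg_distrib]
      refine Finset.sum_congr rfl fun i _ => ?_
      rw [← Finset.sum_neg_distrib]
      refine Finset.sum_congr rfl fun j _ => ?_
      by_cases hij : i = j
      · subst hij; simp
      · rw [if_neg hij, if_neg (Ne.symm hij), ← A7_swap hT (update (update X i z) j w) hij]
        congr 1
        funext l
        by_cases hl : l = i
        · subst hl
          rw [update_self, comp_apply, Equiv.swap_apply_left, update_self]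
        · rw [update_of_ne hl]
          by_cases hl' : l = j
          · subst hl'
            rw [update_self, comp_apply, Equiv.swap_apply_right, update_of_ne hij, update_self]
          · rw [update_of_ne hl', comp_apply, Equiv.swap_apply_of_ne_of_ne hl hl',
              update_of_ne hl', update_of_ne hl]
    linarith
  simp only [Finset.sum_sub_distrib, h1, Finset.sum_add_distrib, h2]
  ring

end A7

end Pool.Agent.KM
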