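import Pool.Agent.KM.ADefs
import Pool.Agent.KM.BLine

/-!
Project KM3 (MP_27fd67_ag), base theorem with frames (A*): the algebraic part (helper20).
Frames, syzygies of a face of a frame, persistence of faces of frames along lines, persistence
of frames under root maps.
-/

set_option autoImplicit false
set_option linter.unusedSectionVars false

open Function

namespace Pool.Agent.KM

section AS
variable {K V W I : Type} [Field K] [AddCommGroup V] [Module K V] [AddCommGroup W]
  [Module K W] [Fintype I] [DecidableEq I] (β : V →ₗ[K] V →ₗ[K] W)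

/-- A frame: a syzygy `∑ β (x i) (x' i) = 0` with nonzero entries all of whose `2^n` faces
generate `W`. -/
def Fr (x x' : I → V) : Prop :=
  gen β Finset.univ x x' = 0 ∧ (∀ i, x i ≠ 0 ∧ x' i ≠ 0) ∧
    ∀ P : Finset I, Surjective (gen β Finset.univ (P.piecewise x' x))

/-- faces of frames -/
def GFr (x : I → V) : Prop := ∃ x', Fr β x x'

theorem as_gen_apply (D : Finset I) (x u : I → V) : gen β D x u = ∑ i ∈ D, β (x i) (u i) := by
  simp [gen, LinearMap.sum_apply]

theorem as_gen_add (D : Finset I) (x y : I → V) : gen β D (x + y) = gen β D x + gen β D y := by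
  apply LinearMap.ext
  intro u
  simp [as_gen_apply, Finset.sum_add_distrib]

theorem as_gen_smul (D : Finset I) (c : K) (x : I → V) : gen β D (c • x) = c • gen β D x := by
  apply LinearMap.ext
  intro u
  simp [as_gen_apply, Finset.smul_sum]

/-- `gen` as a linear map in the first argument -/
def genL (D : Finset I) : (I → V) →ₗ[K] ((I → V) →ₗ[K] W) where
  toFun x := gen β D x
  map_add' x y := as_gen_add β D x y
  map_smul' c x := as_gen_smul β D c x

theorem genL_apply (D : Finset I) (x : I → V) : genL β D x = gen β D x := rfl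

theorem as_gen_piecewise (P : Finset I) (x x' : I → V) :
    gen β Finset.univ (P.piecewise x' x) = gen β P x' + gen β Pᶜ x := by
  apply LinearMap.ext
  intro u
  rw [LinearMap.add_apply, as_gen_apply, as_gen_apply, as_gen_apply,
    ← Finset.sum_add_sum_compl P]
  congr 1
  · exact Finset.sum_congr rfl fun i hi => by rw [Finset.piecewise_eq_of_mem _ _ _ hi]
  · exact Finset.sum_congr rfl fun i hi => by
      rw [Finset.piecewise_eq_of_notMem _ _ _ (Finset.mem_compl.1 hi)]

theorem Fr.onto {x x' : I → V} (h : Fr β x x') : Surjective (gen β Finset.univ x) := by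
  have := h.2.2 ∅
  rwa [Finset.piecewise_empty] at this

theorem GFr.onto {x : I → V} (h : GFr β x) : Surjective (gen β Finset.univ x) := by
  obtain ⟨x', h⟩ := h
  exact h.onto

theorem GFr.ne {x : I → V} (h : GFr β x) (i : I) : x i ≠ 0 := by
  obtain ⟨x', h⟩ := h
  exact (h.2.1 i).1

/-- exchanging entries of a frame gives a frame -/
theorem Fr.swap (hβ : ∀ a b, β a b = β b a) {x x' : I → V} (h : Fr β x x') (P : Finset I) :
    Fr β (P.piecewise x' x) (P.piecewise x x') := by
  refine ⟨?_, fun i => ?_, fun Q => ?_⟩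
  · rw [← h.1, as_gen_apply, as_gen_apply]
    refine Finset.sum_congr rfl fun i _ => ?_
    by_cases hi : i ∈ P
    · simp only [Finset.piecewise_eq_of_mem _ _ _ hi]
      exact hβ _ _
    · simp only [Finset.piecewise_eq_of_notMem _ _ _ hi]
  · by_cases hi : i ∈ P
    · simp only [Finset.piecewise_eq_of_mem _ _ _ hi]
      exact ⟨(h.2.1 i).2, (h.2.1 i).1⟩
    · simp only [Finset.piecewise_eq_of_notMem _ _ _ hi]
      exact h.2.1 i
  · have h1 : Q.piecewise (P.piecewise x x') (P.piecewise x' x) =
        (symmDiff P Q).piecewise x' x := by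
      funext i
      by_cases hP : i ∈ P <;> by_cases hQ : i ∈ Q <;>
        simp [Finset.mem_symmDiff, hP, hQ]
    rw [h1]
    exact h.2.2 _

theorem Fr.symm (hβ : ∀ a b, β a b = β b a) {x x' : I → V} (h : Fr β x x') : Fr β x' x := by
  have := h.swap β hβ Finset.univ
  rwa [Finset.piecewise_univ, Finset.piecewise_univ] at this

/-- all faces of a frame are faces of frames -/
theorem Fr.face (hβ : ∀ a b, β a b = β b a) {x x' : I → V} (h : Fr β x x') (P : Finset I) :
    GFr β (P.piecewise x' x) := ⟨_, h.swap β hβ P⟩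

/-! ### lines -/

/-- at most `C` values of `t` are bad -/
theorem as_ncard_union {X : Type} [Finite X] {J : Type} [Fintype J] (s : J → Set X) (C : ℕ)
    (h : ∀ j, (s j).ncard ≤ C) : (⋃ j, s j).ncard ≤ Fintype.card J * C := by
  classical
  calc (⋃ j, s j).ncard ≤ ∑ j, (s j).ncard := by
        have h1 : (⋃ j, s j) = ⋃ j ∈ (Finset.univ : Finset J), s j := by simp
        rw [h1]
        exact Finset.set_ncard_biUnion_le _ _
    _ ≤ ∑ _j : J, C := Finset.sum_le_sum fun j _ => h j
    _ = Fintype.card J * C := by rw [Finset.sum_const, Finset.card_univ, smul_eq_mul]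

/-- one linear condition on a line: at most one bad value -/
theorem as_entry_line [Fintype K] (v m : V) (hv : v ≠ 0) :
    {t : K | v + t • m = 0}.ncard ≤ 1 := by
  refine (Set.ncard_le_one_iff (Set.toFinite _)).2 ?_
  intro s t hs ht
  by_contra hst
  have hs' : v + s • m = 0 := hs
  have ht' : v + t • m = 0 := ht
  have h1 : (s - t) • m = 0 := by
    rw [sub_smul]
    have h2 : s • m = -v := eq_neg_of_add_eq_zero_right hs'
    have h3 : t • m = -v := eq_neg_of_add_eq_zero_right ht'
    rw [h2, h3, sub_self]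
  have h4 : m = 0 := (smul_eq_zero.1 h1).resolve_left (sub_ne_zero.2 hst)
  apply hv
  rw [h4, smul_zero, add_zero] at hs'
  exact hs'

variable [Fintype K] [Fintype V] [Finite W]

theorem as_line_ext (x δ : I → V) (t : K) :
    gen β Finset.univ (x + t • δ) = gen β Finset.univ x + t • gen β Finset.univ δ := by
  rw [as_gen_add, as_gen_smul]

/-- frames persist along lines of syzygies -/
theorem fr_line {x x' : I → V} (h : Fr β x x') (δ δ' : I → V) :
    {t : K | gen β Finset.univ (x + t • δ) (x' + t • δ') = 0 ∧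
      ¬ Fr β (x + t • δ) (x' + t • δ')}.ncard ≤
      2 ^ Fintype.card I * Module.finrank K W + 2 * Fintype.card I := by
  classical
  have : Module.Finite K W := Module.Finite.of_finite
  have hsub : {t : K | gen β Finset.univ (x + t • δ) (x' + t • δ') = 0 ∧
      ¬ Fr β (x + t • δ) (x' + t • δ')} ⊆
      (⋃ P : Finset I, {t : K | ¬ Surjective (gen β Finset.univ (P.piecewise x' x) +
        t • gen β Finset.univ (P.piecewise δ' δ))}) ∪
      ((⋃ i : I, {t : K | x i + t • δ i = 0}) ∪ ⋃ i : I, {t : K | x' i + t • δ' i = 0}) := by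
    rintro t ⟨ht1, ht2⟩
    by_contra hcon
    simp only [Set.mem_union, Set.mem_iUnion, not_or, not_exists, Set.mem_ofPred_eq,
      not_not] at hcon
    apply ht2
    refine ⟨ht1, fun i => ⟨hcon.2.1 i, hcon.2.2 i⟩, fun P => ?_⟩
    have h1 : P.piecewise (x' + t • δ') (x + t • δ) =
        P.piecewise x' x + t • P.piecewise δ' δ := by
      funext i
      by_cases hi : i ∈ P <;> simp [hi]
    rw [h1, as_line_ext]
    exact hcon.1 P
  refine (Set.ncard_le_ncard hsub (Set.toFinite _)).trans ?_
  refine (Set.ncard_union_le _ _).trans (Nat.add_le_add ?_ ?_)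
  · refine (as_ncard_union _ _ fun P => (line_bad _ _ (h.2.2 P)).2).trans ?_
    rw [Fintype.card_finset]
  · refine (Set.ncard_union_le _ _).trans ?_
    have h1 := as_ncard_union (fun i : I => {t : K | x i + t • δ i = 0}) 1
      fun i => as_entry_line _ _ (h.2.1 i).1
    have h2 := as_ncard_union (fun i : I => {t : K | x' i + t • δ' i = 0}) 1
      fun i => as_entry_line _ _ (h.2.1 i).2
    omega

/-- the root maps -/
def rt1 (i j : I) (a : K) (ω : (I → V) × (I → V)) : (I → V) × (I → V) :=
  (ω.1, update (update ω.2 j (ω.2 j + a • ω.1 i)) i (ω.2 i - a • ω.1 j))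

/-- the root maps -/
def rt2 (i j : I) (a : K) (ω : (I → V) × (I → V)) : (I → V) × (I → V) :=
  (update ω.1 j (ω.1 j + a • ω.1 i), update ω.2 i (ω.2 i - a • ω.2 j))

theorem as_rt_line (ω δ : (I → V) × (I → V)) (φ : K → (I → V) × (I → V))
    (hφ : ∀ a, φ a = (ω.1 + a • δ.1, ω.2 + a • δ.2))
    (h0 : ∀ a, gen β Finset.univ (φ a).1 (φ a).2 = 0)
    (h : ∃ a, Fr β (φ a).1 (φ a).2) :
    {a : K | ¬ Fr β (φ a).1 (φ a).2}.ncard ≤
      2 ^ Fintype.card I * Module.finrank K W + 2 * Fintype.card I := by
  classical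
  obtain ⟨a₀, ha⟩ := h
  have h1 := fr_line β ha δ.1 δ.2
  have h2 : ∀ t : K, φ (a₀ + t) = ((φ a₀).1 + t • δ.1, (φ a₀).2 + t • δ.2) := by
    intro t
    rw [hφ, hφ]
    refine Prod.ext ?_ ?_ <;> simp only [add_smul, add_assoc]
  have hsub : {a : K | ¬ Fr β (φ a).1 (φ a).2} ⊆
      (fun t => a₀ + t) '' {t : K | gen β Finset.univ ((φ a₀).1 + t • δ.1)
        ((φ a₀).2 + t • δ.2) = 0 ∧ ¬ Fr β ((φ a₀).1 + t • δ.1) ((φ a₀).2 + t • δ.2)} := by
    intro a haa
    refine ⟨a - a₀, ⟨?_, ?_⟩, by simp⟩
    · have h3 := h0 (a₀ + (a - a₀))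
      rwa [h2] at h3
    · intro h3
      apply haa
      have h4 := h2 (a - a₀)
      rw [add_sub_cancel] at h4
      rw [h4]
      exact h3
  refine (Set.ncard_le_ncard hsub (Set.toFinite _)).trans ?_
  exact (Set.ncard_image_le (Set.toFinite _)).trans h1

theorem rt1_eq {i j : I} (hij : i ≠ j) (a : K) (ω : (I → V) × (I → V)) :
    rt1 i j a ω = (ω.1 + a • (0 : I → V),
      ω.2 + a • (Pi.single j (ω.1 i) - Pi.single i (ω.1 j) : I → V)) := by
  refine Prod.ext ?_ ?_
  · simp [rt1]
  · funext l
    by_cases hli : l = i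
    · subst hli
      simp [rt1, hij, sub_eq_add_neg]
    · by_cases hlj : l = j
      · subst hlj
        simp [rt1, hli]
      · simp [rt1, hli, hlj]

theorem rt2_eq {i j : I} (hij : i ≠ j) (a : K) (ω : (I → V) × (I → V)) :
    rt2 i j a ω = (ω.1 + a • (Pi.single j (ω.1 i) : I → V),
      ω.2 + a • (- Pi.single i (ω.2 j) : I → V)) := by
  refine Prod.ext ?_ ?_
  · funext l
    by_cases hlj : l = j
    · subst hlj
      simp [rt2]
    · simp [rt2, hlj]
  · funext l
    by_cases hli : l = i
    · subst hli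
      simp [rt2, sub_eq_add_neg]
    · simp [rt2, hli]

theorem as_gen_single (x : I → V) (i : I) (v : V) :
    gen β Finset.univ x (Pi.single i v) = β (x i) v := by
  rw [as_gen_apply, Finset.sum_eq_single i]
  · rw [Pi.single_eq_same]
  · intro l _ hl
    rw [Pi.single_eq_of_ne hl, map_zero]
  · intro h
    exact absurd (Finset.mem_univ i) h

theorem rt1_gen (hβ : ∀ a b, β a b = β b a) {i j : I} (hij : i ≠ j) (a : K)
    (ω : (I → V) × (I → V)) :
    gen β Finset.univ (rt1 i j a ω).1 (rt1 i j a ω).2 = gen β Finset.univ ω.1 ω.2 := by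
  rw [rt1_eq hij]
  simp only [smul_zero, add_zero, map_add, map_smul, map_sub, as_gen_single]
  rw [hβ (ω.1 j) (ω.1 i), sub_self, smul_zero, add_zero]

theorem rt2_gen {i j : I} (hij : i ≠ j) (a : K) (ω : (I → V) × (I → V)) :
    gen β Finset.univ (rt2 i j a ω).1 (rt2 i j a ω).2 = gen β Finset.univ ω.1 ω.2 := by
  rw [as_gen_apply, as_gen_apply]
  have h1 : ∀ l, β ((rt2 i j a ω).1 l) ((rt2 i j a ω).2 l) =
      β (ω.1 l) (ω.2 l) + (Pi.single j (a • β (ω.1 i) (ω.2 j)) : I → W) l
        - (Pi.single i (a • β (ω.1 i) (ω.2 j)) : I → W) l := by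
    intro l
    by_cases hli : l = i
    · subst hli
      simp [rt2, hij]
    · by_cases hlj : l = j
      · subst hlj
        simp [rt2, hli]
      · simp [rt2, hli, hlj]
  simp only [h1]
  rw [Finset.sum_sub_distrib, Finset.sum_add_distrib]
  simp

/-- frames persist under root maps, type 1 -/
theorem fr_rt1 (hβ : ∀ a b, β a b = β b a) {i j : I} (hij : i ≠ j) (ω : (I → V) × (I → V))
    (h : ∃ a : K, Fr β (rt1 i j a ω).1 (rt1 i j a ω).2) :
    {a : K | ¬ Fr β (rt1 i j a ω).1 (rt1 i j a ω).2}.ncard ≤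
      2 ^ Fintype.card I * Module.finrank K W + 2 * Fintype.card I := by
  refine as_rt_line β ω (0, Pi.single j (ω.1 i) - Pi.single i (ω.1 j)) (fun a => rt1 i j a ω)
    (fun a => rt1_eq hij a ω) ?_ h
  obtain ⟨a₀, ha⟩ := h
  intro a
  rw [rt1_gen β hβ hij, ← rt1_gen β hβ hij a₀ ω]
  exact ha.1

/-- frames persist under root maps, type 2 -/
theorem fr_rt2 {i j : I} (hij : i ≠ j) (ω : (I → V) × (I → V))
    (h : ∃ a : K, Fr β (rt2 i j a ω).1 (rt2 i j a ω).2) :
    {a : K | ¬ Fr β (rt2 i j a ω).1 (rt2 i j a ω).2}.ncard ≤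
      2 ^ Fintype.card I * Module.finrank K W + 2 * Fintype.card I := by
  refine as_rt_line β ω (Pi.single j (ω.1 i), - Pi.single i (ω.2 j)) (fun a => rt2 i j a ω)
    (fun a => rt2_eq hij a ω) ?_ h
  obtain ⟨a₀, ha⟩ := h
  intro a
  rw [rt2_gen β hij, ← rt2_gen β hij a₀ ω]
  exact ha.1

/-! ### syzygies of a face of a frame -/

theorem fr_bad_syz (x : I → V) (hx : GFr β x) :
    {x' : I → V | gen β Finset.univ x x' = 0 ∧ ¬ Fr β x x'}.ncard * (Fintype.card K - 1) ≤
      (2 ^ Fintype.card I * Module.finrank K W + Fintype.card I) *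
        Nat.card (LinearMap.ker (gen β Finset.univ x)) := by
  classical
  have : Module.Finite K W := Module.Finite.of_finite
  obtain ⟨x₀, hx₀⟩ := hx
  set L := LinearMap.ker (gen β Finset.univ x) with hL
  have hx₀L : x₀ ∈ L := hx₀.1
  set y0 : L := ⟨x₀, hx₀L⟩ with hy0
  -- the bad sets
  let bP : Finset I → Set L := fun P => {y : L | ¬ Surjective (gen β Pᶜ x +
    ((genL β P).comp L.subtype) y)}
  let bi : I → Set L := fun i => {y : L | (y : I → V) i = 0}
  have hP : ∀ P, (bP P).ncard * (Fintype.card K - 1) ≤ Module.finrank K W * Nat.card L := by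
    intro P
    refine family_bad (gen β Pᶜ x) ((genL β P).comp L.subtype) y0 ?_
    have h1 := hx₀.2.2 P
    rw [as_gen_piecewise, add_comm] at h1
    exact h1
  have hi : ∀ i, (bi i).ncard * (Fintype.card K - 1) ≤ 1 * Nat.card L := by
    intro i
    refine count_bad (fun y : L => (y : I → V) i = 0) y0 1 fun y => ?_
    have h1 := as_entry_line (K := K) (x₀ i) ((y : I → V) i - x₀ i) (hx₀.2.1 i).2
    refine le_trans (le_of_eq ?_) h1
    congr 1
  have hsub : {x' : I → V | gen β Finset.univ x x' = 0 ∧ ¬ Fr β x x'} ⊆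
      (fun y : L => (y : I → V)) '' ((⋃ P, bP P) ∪ ⋃ i, bi i) := by
    rintro x' ⟨h1, h2⟩
    refine ⟨⟨x', h1⟩, ?_, rfl⟩
    by_contra hcon
    simp only [Set.mem_union, Set.mem_iUnion, not_or, not_exists, Set.mem_ofPred_eq,
      bP, bi, not_not] at hcon
    apply h2
    refine ⟨h1, fun i => ⟨(hx₀.2.1 i).1, hcon.2 i⟩, fun P => ?_⟩
    rw [as_gen_piecewise, add_comm]
    exact hcon.1 P
  have h3 : {x' : I → V | gen β Finset.univ x x' = 0 ∧ ¬ Fr β x x'}.ncard ≤
      (∑ P : Finset I, (bP P).ncard) + ∑ i : I, (bi i).ncard := by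
    refine (Set.ncard_le_ncard hsub (Set.toFinite _)).trans ?_
    refine (Set.ncard_image_le (Set.toFinite _)).trans ?_
    refine (Set.ncard_union_le _ _).trans (Nat.add_le_add ?_ ?_)
    · have h1 : (⋃ P, bP P) = ⋃ P ∈ (Finset.univ : Finset (Finset I)), bP P := by simp
      rw [h1]
      exact Finset.set_ncard_biUnion_le _ _
    · have h1 : (⋃ i, bi i) = ⋃ i ∈ (Finset.univ : Finset I), bi i := by simp
      rw [h1]
      exact Finset.set_ncard_biUnion_le _ _
  calc {x' : I → V | gen β Finset.univ x x' = 0 ∧ ¬ Fr β x x'}.ncard * (Fintype.card K - 1)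
      ≤ ((∑ P : Finset I, (bP P).ncard) + ∑ i : I, (bi i).ncard) * (Fintype.card K - 1) :=
        Nat.mul_le_mul_right _ h3
    _ = (∑ P : Finset I, (bP P).ncard * (Fintype.card K - 1)) +
          ∑ i : I, (bi i).ncard * (Fintype.card K - 1) := by
        rw [add_mul, Finset.sum_mul, Finset.sum_mul]
    _ ≤ (∑ _P : Finset I, Module.finrank K W * Nat.card L) + ∑ _i : I, 1 * Nat.card L :=
        Nat.add_le_add (Finset.sum_le_sum fun P _ => hP P) (Finset.sum_le_sum fun i _ => hi i)
    _ = _ := by
        rw [Finset.sum_const, Finset.sum_const, Finset.card_univ, Finset.card_univ,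
          Fintype.card_finset, smul_eq_mul, smul_eq_mul]
        ring

/-! ### persistence of faces of frames -/

/-- Schur complement of an affine pencil: `A + a A1 - a C(r)`, `r = (1 + a M)⁻¹ ρ`, is onto for
all but few values of `a` if `A` is onto. -/
theorem as_schur {E Y : Type} [AddCommGroup E] [Module K E] [FiniteDimensional K E]
    [AddCommGroup Y] [Module K Y] [FiniteDimensional K Y] (A A1 : E →ₗ[K] Y)
    (C : W →ₗ[K] (E →ₗ[K] Y)) (M : W →ₗ[K] W) (ρ : W) (hA : Surjective A) :
    {a : K | Injective (LinearMap.id + a • M : W →ₗ[K] W) ∧ ∃ r, r + a • M r = ρ ∧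
      ¬ Surjective (A + a • A1 - a • C r)}.ncard ≤
      Module.finrank K Y + Module.finrank K E * Module.finrank K W := by
  classical
  have : Module.Finite K W := Module.Finite.of_finite
  let b := Module.finBasis K E
  let e := Module.finrank K E
  -- the pencil
  let X0 : (E × (Fin e → W)) →ₗ[K] (Y × (Fin e → W)) :=
    LinearMap.prod (A.comp (LinearMap.fst K _ _))
      (LinearMap.snd K _ _ - LinearMap.pi fun j =>
        (LinearMap.toSpanSingleton K W ρ).comp ((b.coord j).comp (LinearMap.fst K _ _)))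
  let X1 : (E × (Fin e → W)) →ₗ[K] (Y × (Fin e → W)) :=
    LinearMap.prod (A1.comp (LinearMap.fst K _ _) - ∑ j : Fin e,
        ((C.flip (b j)).comp (LinearMap.proj j)).comp (LinearMap.snd K _ _))
      (LinearMap.pi fun j => (M.comp (LinearMap.proj j)).comp (LinearMap.snd K _ _))
  have h0 : Surjective X0 := by
    rintro ⟨y, s⟩
    obtain ⟨u, hu⟩ := hA y
    refine ⟨(u, fun j => s j + b.coord j u • ρ), ?_⟩
    refine Prod.ext ?_ ?_
    · exact hu
    · funext j
      simp [X0]
  have h1 := (line_bad X0 X1 h0).2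
  have h2 : Module.finrank K (Y × (Fin e → W)) =
      Module.finrank K Y + Module.finrank K E * Module.finrank K W := by
    rw [Module.finrank_prod, Module.finrank_pi_fintype]
    simp [e]
  rw [h2] at h1
  refine le_trans (Set.ncard_le_ncard ?_ (Set.toFinite _)) h1
  rintro a ⟨hinj, r, hr, hns⟩ hs
  apply hns
  intro y
  obtain ⟨⟨u, t⟩, hut⟩ := hs (y, 0)
  have e1 : A u + a • (A1 u - ∑ j : Fin e, C (t j) (b j)) = y := by
    have := congrArg Prod.fst hut
    simpa [X0, X1, LinearMap.sum_apply] using this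
  have e2 : ∀ j, t j - b.coord j u • ρ + a • M (t j) = 0 := by
    intro j
    have := congrFun (congrArg Prod.snd hut) j
    simpa [X0, X1] using this
  have e3 : ∀ j, t j = b.coord j u • r := by
    intro j
    apply hinj
    show t j + a • M (t j) = b.coord j u • r + a • M (b.coord j u • r)
    have h4 : t j + a • M (t j) = b.coord j u • ρ := by
      have := e2 j
      rw [sub_add_eq_add_sub, sub_eq_zero] at this
      exact this
    rw [h4, ← hr, map_smul, smul_add, smul_comm a (b.coord j u) (M r)]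
  have e4 : ∑ j : Fin e, C (t j) (b j) = C r u := by
    have h5 : ∀ j, C (t j) (b j) = C r (b.coord j u • b j) := by
      intro j
      rw [e3 j, map_smul, LinearMap.smul_apply, map_smul]
    rw [Finset.sum_congr rfl fun j _ => h5 j, ← map_sum]
    congr 1
    exact b.sum_repr u
  refine ⟨u, ?_⟩
  rw [e4] at e1
  rw [← e1]
  simp only [LinearMap.sub_apply, LinearMap.add_apply, LinearMap.smul_apply, smul_sub]
  abel

/-- the constant of `gf_persist` -/
def asC (n w h : ℕ) : ℕ := w + (2 ^ n * (w + n * h * w) + (1 + n * (1 + w)))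

theorem gf_line {x : I → V} (hx : GFr β x) (i : I) (m : V) :
    {a : K | ¬ GFr β (update x i (x i + a • m))}.ncard ≤
      asC (Fintype.card I) (Module.finrank K W) (Module.finrank K V) := by
  classical
  have : Module.Finite K W := Module.Finite.of_finite
  have : Module.Finite K V := Module.Finite.of_finite
  obtain ⟨x', hx'⟩ := hx
  obtain ⟨σ, hσ⟩ := (gen β Finset.univ x).exists_rightInverse_of_surjective
    (LinearMap.range_eq_top.2 (hx'.onto β))
  have hσ' : ∀ r, gen β Finset.univ x (σ r) = r := fun r => by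
    have := LinearMap.congr_fun hσ r
    simpa using this
  set Φ1 : (I → V) →ₗ[K] W := (β m).comp (LinearMap.proj i) with hΦ1
  set M : W →ₗ[K] W := Φ1.comp σ with hM
  set ρ : W := Φ1 x' with hρ
  have hxa : ∀ a : K, update x i (x i + a • m) = x + a • (Pi.single i m : I → V) := by
    intro a
    funext l
    by_cases hl : l = i
    · subst hl
      simp
    · simp [hl]
  have hgena : ∀ a : K, gen β Finset.univ (update x i (x i + a • m)) =
      gen β Finset.univ x + a • Φ1 := by
    intro a
    rw [hxa, as_line_ext]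
    congr 2
    apply LinearMap.ext
    intro u
    rw [as_gen_apply, Finset.sum_eq_single i]
    · rw [Pi.single_eq_same]
      rfl
    · intro l _ hl
      rw [Pi.single_eq_of_ne hl, map_zero, LinearMap.zero_apply]
    · intro h
      exact absurd (Finset.mem_univ i) h
  -- the face maps
  let A1 : Finset I → ((I → V) →ₗ[K] W) := fun P => gen β Pᶜ (Pi.single i m)
  let C : Finset I → (W →ₗ[K] ((I → V) →ₗ[K] W)) := fun P => (genL β P).comp σ
  -- the entry maps
  have hdual : ∀ j, ∃ ℓ : V →ₗ[K] K, ℓ (x' j) = 1 := by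
    intro j
    exact Module.Projective.exists_dual_eq_one K (hx'.2.1 j).2
  choose ℓ hℓ using hdual
  let Ce : I → (W →ₗ[K] (K →ₗ[K] K)) := fun j =>
    (LinearMap.lsmul K K).comp ((ℓ j).comp ((LinearMap.proj j).comp σ))
  let S0 : Set K := {a : K | ¬ Surjective (LinearMap.id + a • M : W →ₗ[K] W)}
  let SP : Finset I → Set K := fun P =>
    {a : K | Injective (LinearMap.id + a • M : W →ₗ[K] W) ∧ ∃ r, r + a • M r = ρ ∧
      ¬ Surjective (gen β Finset.univ (P.piecewise x' x) + a • A1 P - a • C P r)}
  let Se : I → Set K := fun j =>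
    {a : K | Injective (LinearMap.id + a • M : W →ₗ[K] W) ∧ ∃ r, r + a • M r = ρ ∧
      ¬ Surjective ((LinearMap.id : K →ₗ[K] K) + a • (0 : K →ₗ[K] K) - a • Ce j r)}
  have b0 : S0.ncard ≤ Module.finrank K W :=
    (line_bad (LinearMap.id : W →ₗ[K] W) M surjective_id).2
  have bP : ∀ P, (SP P).ncard ≤
      Module.finrank K W + (Fintype.card I * Module.finrank K V) * Module.finrank K W := by
    intro P
    have h1 := as_schur (gen β Finset.univ (P.piecewise x' x)) (A1 P) (C P) M ρ (hx'.2.2 P)
    have h2 : Module.finrank K (I → V) = Fintype.card I * Module.finrank K V := by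
      rw [Module.finrank_pi_fintype]
      simp
    rw [h2] at h1
    exact h1
  have be : ∀ j, (Se j).ncard ≤ 1 + Module.finrank K W := by
    intro j
    have h1 := as_schur (LinearMap.id : K →ₗ[K] K) 0 (Ce j) M ρ surjective_id
    rw [Module.finrank_self, one_mul] at h1
    exact h1
  have bx := as_entry_line (K := K) (x i) m (hx'.2.1 i).1
  have hsub : {a : K | ¬ GFr β (update x i (x i + a • m))} ⊆
      S0 ∪ ((⋃ P, SP P) ∪ ({a : K | x i + a • m = 0} ∪ ⋃ j, Se j)) := by
    intro a ha
    by_contra hcon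
    simp only [Set.mem_union, not_or, Set.mem_iUnion, not_exists] at hcon
    obtain ⟨c0, cP, cx, ce⟩ := hcon
    have hs : Surjective (LinearMap.id + a • M : W →ₗ[K] W) := not_not.1 c0
    have hinj : Injective (LinearMap.id + a • M : W →ₗ[K] W) :=
      LinearMap.injective_iff_surjective.2 hs
    obtain ⟨r, hr⟩ := hs ρ
    have hr' : r + a • M r = ρ := hr
    apply ha
    refine ⟨x' - a • σ r, ?_, fun j => ⟨?_, ?_⟩, fun P => ?_⟩
    · rw [hgena, LinearMap.add_apply, map_sub, map_smul, hx'.1, hσ', LinearMap.smul_apply,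
        map_sub, map_smul]
      have h3 : Φ1 (σ r) = M r := rfl
      rw [h3, ← hρ, ← hr']
      simp only [smul_sub, smul_add, zero_sub]
      abel
    · by_cases hj : j = i
      · subst hj
        rw [update_self]
        exact cx
      · rw [update_of_ne hj]
        exact (hx'.2.1 j).1
    · intro h0
      have h3 : ¬ ¬ Surjective ((LinearMap.id : K →ₗ[K] K) + a • (0 : K →ₗ[K] K) - a • Ce j r) :=
        fun h4 => ce j ⟨hinj, r, hr', h4⟩
      obtain ⟨c, hc⟩ := not_not.1 h3 1
      have h5 : ℓ j ((x' - a • σ r) j) = 0 := by rw [h0, map_zero]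
      rw [Pi.sub_apply, map_sub, hℓ, Pi.smul_apply, map_smul, smul_eq_mul] at h5
      have h6 : c * (1 - a * ℓ j (σ r j)) = 1 := by
        have : c - a * (ℓ j (σ r j) * c) = 1 := by simpa [Ce] using hc
        linear_combination this
      rw [h5, mul_zero] at h6
      exact zero_ne_one h6
    · have h3 : ¬ ¬ Surjective (gen β Finset.univ (P.piecewise x' x) + a • A1 P - a • C P r) :=
        fun h4 => cP P ⟨hinj, r, hr', h4⟩
      have h4 : gen β Finset.univ (P.piecewise (x' - a • σ r) (update x i (x i + a • m))) =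
          gen β Finset.univ (P.piecewise x' x) + a • A1 P - a • C P r := by
        rw [as_gen_piecewise, as_gen_piecewise, hxa, as_gen_add, as_gen_smul, sub_eq_add_neg,
          as_gen_add, ← smul_neg, as_gen_smul]
        have h5 : gen β P (-σ r) = - C P r := by
          rw [← genL_apply, map_neg]
          rfl
        rw [h5]
        show _ = _ + _ + a • gen β Pᶜ (Pi.single i m) - a • C P r
        rw [smul_neg]
        abel
      rw [h4]
      exact not_not.1 h3
  refine (Set.ncard_le_ncard hsub (Set.toFinite _)).trans ?_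
  unfold asC
  refine (Set.ncard_union_le _ _).trans (Nat.add_le_add b0 ?_)
  refine (Set.ncard_union_le _ _).trans (Nat.add_le_add ?_ ?_)
  · refine (as_ncard_union SP _ bP).trans ?_
    rw [Fintype.card_finset]
  · refine (Set.ncard_union_le _ _).trans (Nat.add_le_add bx ?_)
    exact as_ncard_union Se _ be

theorem gf_persist {x : I → V} (hx : GFr β x) (i : I) :
    {z : V | ¬ GFr β (update x i z)}.ncard * (Fintype.card K - 1) ≤
      asC (Fintype.card I) (Module.finrank K W) (Module.finrank K V) * Fintype.card V := by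
  have h := count_bad (fun z : V => ¬ GFr β (update x i z)) (x i)
    (asC (Fintype.card I) (Module.finrank K W) (Module.finrank K V))
    fun y => gf_line β hx i (y - x i)
  rwa [Nat.card_eq_fintype_card] at h

end AS

end Pool.Agent.KM
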