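import Pool.Agent.KM.ASCross

/-!
Project KM3 (MP_27fd67_ag), base theorem with frames (A*): the theorem (helper20).
-/

set_option autoImplicit false

open Function

namespace Pool.Agent.KM

/-- from a count to a fraction -/
private theorem as_frac (N q M C : ℕ) (V : ℝ) (hq : 1 < q) (hV : (M : ℝ) = V)
    (h : N * (q - 1) ≤ C * M) : (N : ℝ) ≤ (C : ℝ) / ((q : ℝ) - 1) * V := by
  have h1 : ((N * (q - 1) : ℕ) : ℝ) ≤ ((C * M : ℕ) : ℝ) := by exact_mod_cast h
  rw [Nat.cast_mul, Nat.cast_mul, Nat.cast_sub hq.le, Nat.cast_one, hV] at h1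
  have h2 : (0 : ℝ) < (q : ℝ) - 1 := by
    have : (1 : ℝ) < q := by exact_mod_cast hq
    linarith
  rw [div_mul_eq_mul_div, le_div_iff₀ h2]
  exact h1

/-- The base theorem with frames. -/
theorem base_thmS (n w h : ℕ) (hn : 2 ≤ n) : ∃ q₀ : ℕ,
    ∀ (K V W I : Type) [Field K] [Fintype K] [AddCommGroup V] [Module K V] [Finite V]
      [AddCommGroup W] [Module K W] [Finite W] [Fintype I] [DecidableEq I]
      (β : V →ₗ[K] V →ₗ[K] W), (∀ a b, β a b = β b a) → Module.finrank K W = w →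
      Module.finrank K V = h → Fintype.card I = n → q₀ ≤ Fintype.card K →
      ∀ U : (I → V) → ℝ, (∀ x, ¬ GFr β x → U x = 0) → Alt U →
        (∀ x z, GFr β x → (∀ i, GFr β (update x i z)) → U x = ∑ i, U (update x i z)) →
        (∀ x x' : I → V, Fr β x x' → ∑ P : Finset I, U (P.piecewise x' x) = 0) →
        ∀ x, U x = 0 := by
  set C1 : ℕ := n * asC n w h with hC1
  set C2 : ℕ := 2 ^ n * w + n with hC2
  set C3 : ℕ := asC n w h with hC3
  set C4 : ℕ := 2 ^ n * w + 2 * n with hC4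
  set R : ℕ := 4 * 2 ^ n * n * (n + 1) with hR
  refine ⟨2 + (R * (1 + C4)) ^ 2 * (C1 + C2 + C3 + 1), ?_⟩
  intro K V W I _ _ _ _ _ _ _ _ _ _ β hβ hw hh hI hK U hU hA hC hP x
  have : Fintype V := Fintype.ofFinite V
  set q := Fintype.card K with hq
  have hR0 : 0 < R := by
    rw [hR]; positivity
  have hq1 : 1 < q := by
    have : 2 ≤ q := le_trans (Nat.le_add_right _ _) hK
    omega
  -- real numbers
  set r : ℝ := (R : ℝ) with hr
  have hr0 : 0 < r := by rw [hr]; exact_mod_cast hR0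
  have hrn : r = 4 * 2 ^ n * n * (n + 1) := by
    rw [hr, hR]; push_cast; ring
  set c : ℝ := 1 + (C4 : ℝ) with hc
  have hc1 : 1 ≤ c := by rw [hc]; linarith [Nat.cast_nonneg (α := ℝ) C4]
  have hqr : (r * c) ^ 2 * ((C1 : ℝ) + C2 + C3 + 1) ≤ (q : ℝ) - 1 := by
    have h1 : ((2 + (R * (1 + C4)) ^ 2 * (C1 + C2 + C3 + 1) : ℕ) : ℝ) ≤ (q : ℝ) := by
      exact_mod_cast hK
    push_cast at h1
    rw [hr, hc]
    linarith
  have hq0 : (0 : ℝ) < (q : ℝ) - 1 := by
    have : (1 : ℝ) < q := by exact_mod_cast hq1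
    linarith
  have hn2 : (2 : ℝ) ≤ n := by exact_mod_cast hn
  have hC10 : (0 : ℝ) ≤ C1 := Nat.cast_nonneg _
  have hC20 : (0 : ℝ) ≤ C2 := Nat.cast_nonneg _
  have hC30 : (0 : ℝ) ≤ C3 := Nat.cast_nonneg _
  have hC40 : (0 : ℝ) ≤ C4 := Nat.cast_nonneg _
  have h2n : (1 : ℝ) ≤ 2 ^ n := one_le_pow₀ (by norm_num)
  have hnn : (0 : ℝ) ≤ (n : ℝ) * (n + 1) := by positivity
  have hrge : (24 : ℝ) ≤ r := by
    rw [hrn]
    nlinarith [mul_nonneg (sub_nonneg.2 h2n) hnn]
  have hrc : r ^ 2 ≤ (r * c) ^ 2 := by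
    apply pow_le_pow_left₀ hr0.le
    exact le_mul_of_one_le_right hr0.le hc1
  -- all fractions are small
  have hfrac : ∀ C : ℝ, 0 ≤ C → C ≤ (C1 : ℝ) + C2 + C3 → C / ((q : ℝ) - 1) ≤ 1 / r ^ 2 := by
    intro C h0 h1
    rw [div_le_div_iff₀ hq0 (by positivity), one_mul]
    calc C * r ^ 2 ≤ ((C1 : ℝ) + C2 + C3 + 1) * (r * c) ^ 2 :=
          mul_le_mul (by linarith) hrc (sq_nonneg _) (by linarith)
      _ ≤ (q : ℝ) - 1 := by linarith
  set κ : ℝ := (C1 : ℝ) / ((q : ℝ) - 1) with hκ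
  set κ₂ : ℝ := (C2 : ℝ) / ((q : ℝ) - 1) with hκ₂
  set κ₃ : ℝ := (C3 : ℝ) / ((q : ℝ) - 1) with hκ₃
  have hκ0 : 0 ≤ κ := by positivity
  have hκ₂0 : 0 ≤ κ₂ := by positivity
  have hκ₃0 : 0 ≤ κ₃ := by positivity
  have hκr : κ ≤ 1 / r ^ 2 := hfrac _ hC10 (by linarith)
  have hκ₂r : κ₂ ≤ 1 / r ^ 2 := hfrac _ hC20 (by linarith)
  have hκ₃r : κ₃ ≤ 1 / r ^ 2 := hfrac _ hC30 (by linarith)
  have hr2 : 1 / r ^ 2 ≤ 1 / 8 := by
    apply one_div_le_one_div_of_le (by norm_num)
    nlinarith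
  have hs1 : Real.sqrt κ ≤ 1 / r := by
    rw [Real.sqrt_le_left (by positivity), div_pow, one_pow]
    exact hκr
  -- the bounds
  obtain ⟨i₀⟩ : Nonempty I := by
    rw [← Fintype.card_pos_iff, hI]
    omega
  set N := ∑ x : I → V, Tm U i₀ x ^ 2 with hN
  have hN0 : 0 ≤ N := Finset.sum_nonneg fun x _ => sq_nonneg _
  set B := (Fintype.card V : ℝ) ^ Fintype.card I * N with hB
  have hV0 : (0 : ℝ) < Fintype.card V := by
    have : 0 < Fintype.card V := Fintype.card_pos_iff.2 ⟨0⟩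
    exact_mod_cast this
  have hB0 : 0 ≤ B := by positivity
  have hper : ∀ (i : I) (x : I → V), GFr β x →
      ({z : V | ¬ GFr β (update x i z)}.ncard : ℝ) ≤ κ₃ * Fintype.card V := by
    intro i x hx
    have h1 := gf_persist β hx i
    rw [hI, hw, hh] at h1
    exact as_frac _ _ _ _ _ hq1 rfl h1
  have hbc : ∀ x : I → V, GFr β x → ({z : V | ∃ i, ¬ GFr β (update x i z)}.ncard : ℝ) ≤
      κ * Fintype.card V := by
    intro x hx
    have h1 : {z : V | ∃ i, ¬ GFr β (update x i z)} = ⋃ i, {z : V | ¬ GFr β (update x i z)} := by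
      ext z
      simp
    have h2 : (⋃ i, {z : V | ¬ GFr β (update x i z)}).ncard ≤
        ∑ i : I, {z : V | ¬ GFr β (update x i z)}.ncard := by
      have h3 : (⋃ i, {z : V | ¬ GFr β (update x i z)}) =
          ⋃ i ∈ (Finset.univ : Finset I), {z : V | ¬ GFr β (update x i z)} := by simp
      rw [h3]
      exact Finset.set_ncard_biUnion_le _ _
    rw [h1]
    calc ((⋃ i, {z : V | ¬ GFr β (update x i z)}).ncard : ℝ)
        ≤ ((∑ i : I, {z : V | ¬ GFr β (update x i z)}.ncard : ℕ) : ℝ) := by exact_mod_cast h2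
      _ = ∑ i : I, ({z : V | ¬ GFr β (update x i z)}.ncard : ℝ) := by push_cast; rfl
      _ ≤ ∑ _i : I, κ₃ * Fintype.card V := Finset.sum_le_sum fun i _ => hper i x hx
      _ = κ * Fintype.card V := by
          rw [Finset.sum_const, Finset.card_univ, hI, nsmul_eq_mul, hκ, hκ₃, hC1, hC3]
          push_cast
          ring
  have hdef := as_defect_bound (GFr β) U hC κ hκ0 (hκr.trans (hr2.trans (by norm_num))) hbc
  have hκ4 : κ * (Fintype.card I + 1) ^ 2 ≤ 1 / 4 := by
    rw [hI]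
    calc κ * ((n : ℝ) + 1) ^ 2 ≤ 1 / r ^ 2 * ((n : ℝ) + 1) ^ 2 := by
          apply mul_le_mul_of_nonneg_right hκr (by positivity)
      _ = (((n : ℝ) + 1) / r) ^ 2 := by rw [div_pow]; ring
      _ ≤ (1 / 2) ^ 2 := by
          apply pow_le_pow_left₀ (by positivity)
          rw [div_le_div_iff₀ hr0 (by norm_num), hrn]
          nlinarith [mul_nonneg (sub_nonneg.2 h2n) hnn]
      _ = 1 / 4 := by norm_num
  have hnorm := as_norm_U_le (GFr β) U hU hA i₀ κ hκ4 hdef
  -- M
  set M : ℝ := 2 * n * (n + 1) * Real.sqrt κ with hM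
  have hM0 : 0 ≤ M := by positivity
  have hdef2 : ∑ x ∈ GS (GFr β), ((∑ i, Tm U i x) - U x) ^ 2 ≤
      M ^ 2 * ∑ x : I → V, Tm U i₀ x ^ 2 := by
    refine hdef.trans ?_
    calc κ * ((Fintype.card I : ℝ) + 1) ^ 2 * ∑ x : I → V, U x ^ 2
        ≤ κ * ((Fintype.card I : ℝ) + 1) ^ 2 * (4 * (Fintype.card I : ℝ) ^ 2 *
          ∑ x : I → V, Tm U i₀ x ^ 2) := by
          apply mul_le_mul_of_nonneg_left hnorm (by positivity)
      _ = M ^ 2 * ∑ x : I → V, Tm U i₀ x ^ 2 := by
          rw [hM, hI, mul_pow, Real.sq_sqrt hκ0]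
          ring
  have hup := as_upper β hβ U hP i₀ M hM0 hdef2
  have hmain := as_main β U hU i₀ κ₂ κ₃ hκ₂0 (hκ₂r.trans (hr2.trans (by norm_num))) hκ₃0
    (by
      intro x hx
      have h1 := fr_bad_syz β x hx
      rw [hI, hw] at h1
      exact as_frac _ _ _ _ _ hq1 rfl h1) (hper i₀)
  -- the cross terms
  set s : ℝ := Real.sqrt q with hs
  have hs0 : 0 < s := Real.sqrt_pos.2 (by linarith)
  have hrcs : r * c ≤ s := by
    apply Real.le_sqrt_of_sq_le
    have h3 : (r * c) ^ 2 ≤ (r * c) ^ 2 * ((C1 : ℝ) + C2 + C3 + 1) :=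
      le_mul_of_one_le_right (sq_nonneg _) (by linarith)
    linarith
  have hW0 : (0 : ℝ) ≤ Nat.card W := Nat.cast_nonneg _
  rw [← hN] at hup hmain
  rw [← hB] at hup hmain
  have hcr : ∀ (i : I) (P : Finset I), (i ≠ i₀ ∨ ∃ j ∈ P, j ≠ i₀) →
      -(B / r) ≤ (∑ ω ∈ OF β, Tm U i₀ ω.1 * Tm U i (fc P ω)) * Nat.card W := by
    intro i P hiP
    have h1 := as_cross β hβ U hA i₀ i P hiP
    rw [← hN, ← hB, hI, hw] at h1
    have h2 : 1 + Real.sqrt ((2 ^ n * w + 2 * n : ℕ) : ℝ) ≤ c := by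
      rw [hc]
      have h3 : Real.sqrt ((2 ^ n * w + 2 * n : ℕ) : ℝ) ≤ (C4 : ℝ) := by
        rw [← hC4]
        rcases Nat.eq_zero_or_pos C4 with h0 | h0
        · rw [h0]; simp
        · have h4 : (1 : ℝ) ≤ C4 := by exact_mod_cast h0
          rw [Real.sqrt_le_left (by linarith)]
          nlinarith
      linarith
    set X := (∑ ω ∈ OF β, Tm U i₀ ω.1 * Tm U i (fc P ω)) with hX
    have h5 : |X| * Nat.card W * s ≤ c * B := h1.trans (mul_le_mul_of_nonneg_right h2 hB0)
    have h6 : |X| * Nat.card W ≤ B / r := by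
      rw [le_div_iff₀ hr0]
      have h7 : 0 ≤ |X| * Nat.card W := mul_nonneg (abs_nonneg _) hW0
      have h8 : (|X| * Nat.card W * r) * c ≤ B * c := by
        calc (|X| * Nat.card W * r) * c = |X| * Nat.card W * (r * c) := by ring
          _ ≤ |X| * Nat.card W * s := mul_le_mul_of_nonneg_left hrcs h7
          _ ≤ c * B := h5
          _ = B * c := mul_comm _ _
      exact le_of_mul_le_mul_right h8 (by linarith)
    have h9 : -|X| * Nat.card W ≤ X * Nat.card W :=
      mul_le_mul_of_nonneg_right (neg_abs_le X) hW0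
    linarith
  -- the lower bound
  have hlow : 2 * ((1 - κ₂ - κ₃) * B) - (2 ^ n * n) * (B / r) ≤
      (∑ ω ∈ OF β, Tm U i₀ ω.1 * ∑ P : Finset I, ∑ i : I, Tm U i (fc P ω)) * Nat.card W := by
    classical
    have e1 : (∑ ω ∈ OF β, Tm U i₀ ω.1 * ∑ P : Finset I, ∑ i : I, Tm U i (fc P ω)) *
        Nat.card W = ∑ P : Finset I, ∑ i : I,
          (∑ ω ∈ OF β, Tm U i₀ ω.1 * Tm U i (fc P ω)) * Nat.card W := by
      rw [Finset.sum_congr rfl fun ω _ => by rw [Finset.mul_sum], Finset.sum_comm, Finset.sum_mul]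
      refine Finset.sum_congr rfl fun P _ => ?_
      rw [Finset.sum_congr rfl fun ω _ => by rw [Finset.mul_sum], Finset.sum_comm, Finset.sum_mul]
    rw [e1]
    have e2 : ∀ (P : Finset I) (i : I),
        -(B / r) + (if P ⊆ {i₀} then (if i = i₀ then (1 - κ₂ - κ₃) * B else 0) else 0) ≤
          (∑ ω ∈ OF β, Tm U i₀ ω.1 * Tm U i (fc P ω)) * Nat.card W := by
      intro P i
      by_cases hPi : P ⊆ {i₀}
      · by_cases hi : i = i₀
        · rw [if_pos hPi, if_pos hi]
          subst hi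
          have h1 : ∀ ω : (I → V) × (I → V), Tm U i (fc P ω) = Tm U i ω.1 := by
            intro ω
            have h2 : fc P ω = update ω.1 i (fc P ω i) := by
              funext l
              by_cases hl : l = i
              · subst hl
                rw [update_self]
              · rw [update_of_ne hl]
                exact Finset.piecewise_eq_of_notMem _ _ _
                  (fun h => hl (Finset.mem_singleton.1 (hPi h)))
            rw [h2, Tm_update]
          simp only [h1]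
          have h3 : 0 ≤ B / r := div_nonneg hB0 hr0.le
          linarith
        · rw [if_pos hPi, if_neg hi, add_zero]
          exact hcr i P (Or.inl hi)
      · rw [if_neg hPi, add_zero]
        apply hcr i P
        right
        rw [Finset.not_subset] at hPi
        obtain ⟨j, hj, hj'⟩ := hPi
        exact ⟨j, hj, fun h => hj' (Finset.mem_singleton.2 h)⟩
    refine le_trans ?_ (Finset.sum_le_sum fun P _ => Finset.sum_le_sum fun i _ => e2 P i)
    have e3 : ∑ P : Finset I, ∑ i : I,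
        (-(B / r) + (if P ⊆ {i₀} then (if i = i₀ then (1 - κ₂ - κ₃) * B else 0) else 0)) =
        2 * ((1 - κ₂ - κ₃) * B) - (2 ^ n * n) * (B / r) := by
      have h1 : ∀ P : Finset I, ∑ i : I,
          (-(B / r) + (if P ⊆ {i₀} then (if i = i₀ then (1 - κ₂ - κ₃) * B else 0) else 0)) =
          -(n * (B / r)) + (if P ⊆ {i₀} then (1 - κ₂ - κ₃) * B else 0) := by
        intro P
        rw [Finset.sum_add_distrib, Finset.sum_const, Finset.card_univ, hI, nsmul_eq_mul]
        congr 1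
        · ring
        · by_cases hPi : P ⊆ {i₀}
          · simp only [if_pos hPi]
            rw [Finset.sum_ite_eq' Finset.univ i₀, if_pos (Finset.mem_univ _)]
          · simp only [if_neg hPi]
            rw [Finset.sum_const_zero]
      rw [Finset.sum_congr rfl fun P _ => h1 P, Finset.sum_add_distrib, Finset.sum_const,
        Finset.card_univ, Fintype.card_finset, hI, nsmul_eq_mul, ← Finset.sum_filter,
        Finset.sum_const]
      have h2 : (Finset.univ.filter fun P : Finset I => P ⊆ {i₀}) =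
          ({i₀} : Finset I).powerset := by
        ext P
        simp
      rw [h2, Finset.card_powerset, Finset.card_singleton, nsmul_eq_mul]
      push_cast
      ring
    rw [e3]
  -- numerical estimates
  have hup' : (∑ ω ∈ OF β, Tm U i₀ ω.1 * ∑ P : Finset I, ∑ i : I, Tm U i (fc P ω)) *
      Nat.card W ≤ 2 ^ n * M * B := by
    rw [hI] at hup
    refine le_trans (mul_le_mul_of_nonneg_right (le_abs_self _) hW0) hup
  have e1 : 2 ^ n * M ≤ 1 / 2 := by
    rw [hM]
    have h1 : 2 * (n : ℝ) * (n + 1) * Real.sqrt κ ≤ 2 * (n : ℝ) * (n + 1) * (1 / r) :=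
      mul_le_mul_of_nonneg_left hs1 (by positivity)
    calc (2 : ℝ) ^ n * (2 * n * (n + 1) * Real.sqrt κ)
        ≤ 2 ^ n * (2 * n * (n + 1) * (1 / r)) := mul_le_mul_of_nonneg_left h1 (by positivity)
      _ = 1 / 2 := by
          rw [hrn]
          have h2 : (n : ℝ) ≠ 0 := by positivity
          have h3 : ((n : ℝ) + 1) ≠ 0 := by positivity
          have h4 : (2 : ℝ) ^ n ≠ 0 := by positivity
          field_simp
          norm_num
  have e2 : ((2 : ℝ) ^ n * n) * (B / r) ≤ 1 / 4 * B := by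
    rw [mul_div_assoc', div_le_iff₀ hr0]
    have h1 : (2 : ℝ) ^ n * n ≤ 1 / 4 * r := by
      rw [hrn]
      nlinarith [mul_nonneg (le_trans zero_le_one h2n) (by positivity : (0 : ℝ) ≤ (n : ℝ) * n)]
    calc (2 : ℝ) ^ n * n * B ≤ (1 / 4 * r) * B := mul_le_mul_of_nonneg_right h1 hB0
      _ = 1 / 4 * B * r := by ring
  have e3 : (1 - κ₂ - κ₃) * B ≥ 3 / 4 * B := by
    apply mul_le_mul_of_nonneg_right _ hB0
    linarith
  have e4 : B ≤ 0 := by
    have h1 := hlow.trans hup'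
    have h2 := mul_le_mul_of_nonneg_right e1 hB0
    linarith
  have hNz : N = 0 := by
    have h9 : B = 0 := le_antisymm e4 hB0
    rcases mul_eq_zero.1 h9 with h | h
    · exact absurd h (by positivity)
    · exact h
  have hS : ∑ x : I → V, U x ^ 2 ≤ 0 := by
    refine hnorm.trans ?_
    rw [← hN, hNz]
    simp
  have hS0 : ∀ y ∈ (Finset.univ : Finset (I → V)), 0 ≤ U y ^ 2 := fun y _ => sq_nonneg _
  have := (Finset.sum_eq_zero_iff_of_nonneg hS0).1 (le_antisymm hS (Finset.sum_nonneg hS0)) x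
    (Finset.mem_univ x)
  exact pow_eq_zero_iff two_ne_zero |>.1 this

end Pool.Agent.KM
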