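import Pool.Agent.KM.ASAlg
import Pool.Agent.KM.ASUpper
import Pool.Agent.KM.AOmega
import Pool.Agent.KM.AMean

/-!
Project KM3 (MP_27fd67_ag), base theorem with frames (A*): cross terms, main term, upper bound
(helper20; the treatment of the cross terms follows helper31).
-/

set_option autoImplicit false
set_option linter.unusedSectionVars false

open Function

namespace Pool.Agent.KM

section
variable {K V W I : Type} [Field K] [Fintype K] [AddCommGroup V] [Module K V] [AddCommGroup W]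
  [Module K W] [Fintype I] [DecidableEq I] [Fintype V] [Finite W] (β : V →ₗ[K] V →ₗ[K] W)

/-- the finite set of all frames -/
noncomputable def OF : Finset ((I → V) × (I → V)) :=
  open scoped Classical in Finset.univ.filter fun ω => Fr β ω.1 ω.2

theorem mem_OF (ω : (I → V) × (I → V)) : ω ∈ OF (I := I) β ↔ Fr β ω.1 ω.2 := by
  classical
  simp [OF]

theorem OF_sub : OF (I := I) β ⊆ Om β := by
  intro ω h
  rw [mem_OF] at h
  exact (mem_Om β ω).2 h.1

/-- adding a multiple of one entry to another one does not change the span -/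
theorem as_span (t : I → V) {i j : I} (hij : i ≠ j) (a : K)
    (h : Surjective (gen β Finset.univ (update t j (t j + a • t i)))) :
    Surjective (gen β Finset.univ t) := by
  intro w
  obtain ⟨y, hy⟩ := h w
  refine ⟨y + Pi.single i (a • y j), ?_⟩
  rw [map_add, as_gen_single, ← hy, as_gen_apply, as_gen_apply]
  have h1 : ∀ l, β (update t j (t j + a • t i) l) (y l) =
      β (t l) (y l) + (Pi.single j (a • β (t i) (y j)) : I → W) l := by
    intro l
    by_cases hl : l = j
    · subst hl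
      simp
    · simp [hl]
  simp only [h1]
  rw [Finset.sum_add_distrib, Finset.sum_pi_single']
  simp

theorem as_span' (t : I → V) {i j : I} (hij : i ≠ j) (a : K)
    (h : Surjective (gen β Finset.univ t)) :
    Surjective (gen β Finset.univ (update t j (t j + a • t i))) := by
  apply as_span β _ hij (-a)
  have h1 : update (update t j (t j + a • t i)) j (update t j (t j + a • t i) j +
      (-a) • update t j (t j + a • t i) i) = t := by
    rw [update_self, update_of_ne hij, update_idem]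
    have : t j + a • t i + -a • t i = t j := by
      rw [neg_smul, add_assoc, add_neg_cancel, add_zero]
    rw [this, update_eq_self]
  rw [h1]
  exact h

/-- Cauchy-Schwarz -/
theorem as_cs {X : Type} (s : Finset X) (f g : X → ℝ) (A B c : ℝ) (hc : 0 ≤ c)
    (hA : (∑ x ∈ s, f x ^ 2) * c ≤ A) (hB : (∑ x ∈ s, g x ^ 2) * c ≤ B) :
    |∑ x ∈ s, f x * g x| * c ≤ Real.sqrt A * Real.sqrt B := by
  have h1 : 0 ≤ ∑ x ∈ s, f x ^ 2 := Finset.sum_nonneg fun x _ => sq_nonneg _
  have h2 : 0 ≤ ∑ x ∈ s, g x ^ 2 := Finset.sum_nonneg fun x _ => sq_nonneg _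
  have hA0 : 0 ≤ A := (mul_nonneg h1 hc).trans hA
  have h3 := Finset.sum_mul_sq_le_sq_mul_sq s f g
  rw [← Real.sqrt_mul hA0]
  apply Real.le_sqrt_of_sq_le
  rw [mul_pow, sq_abs]
  calc (∑ x ∈ s, f x * g x) ^ 2 * c ^ 2
      ≤ ((∑ x ∈ s, f x ^ 2) * ∑ x ∈ s, g x ^ 2) * c ^ 2 :=
        mul_le_mul_of_nonneg_right h3 (sq_nonneg _)
    _ = ((∑ x ∈ s, f x ^ 2) * c) * ((∑ x ∈ s, g x ^ 2) * c) := by ring
    _ ≤ A * B := mul_le_mul hA hB (mul_nonneg h2 hc) hA0

/-- sums over onto faces -/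
theorem as_sum_onto (hβ : ∀ a b, β a b = β b a) (P : Finset I) (f : (I → V) → ℝ)
    (hf : ∀ t, 0 ≤ f t) (s : Finset ((I → V) × (I → V))) (hs : s ⊆ Om β)
    (hs' : ∀ ω ∈ s, Surjective (gen β Finset.univ (fc P ω))) :
    (∑ ω ∈ s, f (fc P ω)) * Nat.card W ≤
      (Fintype.card V : ℝ) ^ Fintype.card I * ∑ t : I → V, f t := by
  classical
  set f' : (I → V) → ℝ := fun t => if Surjective (gen β Finset.univ t) then f t else 0 with hf'
  have h1 := sum_fc β hβ P f' (fun t ht => by
    by_contra hcon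
    apply ht
    simp [hf', hcon])
  have hf'0 : ∀ t, 0 ≤ f' t := by
    intro t
    simp only [hf']
    split_ifs
    · exact hf t
    · exact le_rfl
  have hf'1 : ∀ t, f' t ≤ f t := by
    intro t
    simp only [hf']
    split_ifs
    · exact le_rfl
    · exact hf t
  have h2 : ∑ ω ∈ s, f (fc P ω) ≤ ∑ ω ∈ Om β, f' (fc P ω) := by
    calc ∑ ω ∈ s, f (fc P ω) = ∑ ω ∈ s, f' (fc P ω) := by
          refine Finset.sum_congr rfl fun ω hω => ?_
          simp only [hf']
          rw [if_pos (hs' ω hω)]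
      _ ≤ ∑ ω ∈ Om β, f' (fc P ω) :=
          Finset.sum_le_sum_of_subset_of_nonneg hs fun ω _ _ => hf'0 _
  have hW : (0 : ℝ) ≤ Nat.card W := Nat.cast_nonneg _
  calc (∑ ω ∈ s, f (fc P ω)) * Nat.card W ≤ (∑ ω ∈ Om β, f' (fc P ω)) * Nat.card W :=
        mul_le_mul_of_nonneg_right h2 hW
    _ = (Fintype.card V : ℝ) ^ Fintype.card I * ∑ t : I → V, f' t := h1
    _ ≤ _ := mul_le_mul_of_nonneg_left (Finset.sum_le_sum fun t _ => hf'1 t) (by positivity)

/-- The cross term for one root map. -/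
theorem as_cross_gen (hβ : ∀ a b, β a b = β b a) (U : (I → V) → ℝ) (hA : Alt U) (i₀ i j : I)
    (hij : i ≠ j) (Q : Finset I) (φ : K → (I → V) × (I → V) → (I → V) × (I → V))
    (H1 : ∀ (a : K) (f : (I → V) × (I → V) → ℝ), ∑ ω ∈ Om β, f (φ a ω) = ∑ ω ∈ Om β, f ω)
    (H2 : ∀ a ω, Tm U i₀ (φ a ω).1 = Tm U i₀ ω.1)
    (H3 : ∀ a ω, fc Q (φ a ω) = update (fc Q ω) j (fc Q ω j + a • fc Q ω i))
    (C : ℕ) (H4 : ∀ ω, (∃ a, Fr β (φ a ω).1 (φ a ω).2) →
      {a : K | ¬ Fr β (φ a ω).1 (φ a ω).2}.ncard ≤ C)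
    (H5 : ∀ ω, (∃ a, Fr β (φ a ω).1 (φ a ω).2) → Surjective (gen β Finset.univ ω.1)) :
    |∑ ω ∈ OF β, Tm U i₀ ω.1 * Tm U i (fc Q ω)| * Nat.card W * Real.sqrt (Fintype.card K) ≤
      (1 + Real.sqrt C) * ((Fintype.card V : ℝ) ^ Fintype.card I *
        ∑ x : I → V, Tm U i₀ x ^ 2) := by
  classical
  set q : ℝ := (Fintype.card K : ℝ) with hq
  have hq0 : 0 < q := by
    rw [hq]
    exact_mod_cast Fintype.card_pos
  set R : ℝ := (Fintype.card V : ℝ) ^ Fintype.card I * ∑ x : I → V, Tm U i₀ x ^ 2 with hR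
  have hR0 : 0 ≤ R := mul_nonneg (by positivity) (Finset.sum_nonneg fun x _ => sq_nonneg _)
  have hRi : (Fintype.card V : ℝ) ^ Fintype.card I * ∑ x : I → V, Tm U i x ^ 2 = R := by
    rw [hR, Tm_norm hA i i₀]
  have hW : (0 : ℝ) ≤ Nat.card W := Nat.cast_nonneg _
  set f : (I → V) × (I → V) → ℝ := fun ω => Tm U i₀ ω.1 with hf
  set g : (I → V) × (I → V) → ℝ := fun ω => Tm U i (fc Q ω) with hg
  set F : (I → V) × (I → V) → Prop := fun ω => Fr β ω.1 ω.2 with hF
  set Act : Finset ((I → V) × (I → V)) := (Om β).filter fun ω => ∃ a, F (φ a ω) with hAct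
  set A : (I → V) × (I → V) → ℝ := fun ω => ∑ a : K, g (φ a ω) with hAdef
  set E : (I → V) × (I → V) → ℝ := fun ω => ∑ a : K, if F (φ a ω) then 0 else g (φ a ω)
    with hE
  -- the averaging identity
  have hsum : q * ∑ ω ∈ OF β, f ω * g ω = ∑ ω ∈ Act, f ω * (A ω - E ω) := by
    have h1 : ∑ ω ∈ OF β, f ω * g ω = ∑ ω ∈ Om β, if F ω then f ω * g ω else 0 := by
      rw [← Finset.sum_filter]
      refine Finset.sum_congr ?_ fun _ _ => rfl
      ext ω
      rw [mem_OF, Finset.mem_filter]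
      exact ⟨fun h => ⟨(mem_Om β ω).2 h.1, h⟩, fun h => h.2⟩
    have h2 : q * ∑ ω ∈ Om β, (if F ω then f ω * g ω else 0) =
        ∑ a : K, ∑ ω ∈ Om β, (if F (φ a ω) then f (φ a ω) * g (φ a ω) else 0) := by
      rw [Finset.sum_congr rfl fun a _ => H1 a fun ω => if F ω then f ω * g ω else 0,
        Finset.sum_const, Finset.card_univ, nsmul_eq_mul]
    rw [h1, h2, Finset.sum_comm]
    have h3 : ∀ ω, (∑ a : K, (if F (φ a ω) then f (φ a ω) * g (φ a ω) else 0)) =
        f ω * (A ω - E ω) := by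
      intro ω
      simp only [hAdef, hE]
      rw [← Finset.sum_sub_distrib, Finset.mul_sum]
      refine Finset.sum_congr rfl fun a _ => ?_
      have h4 : f (φ a ω) = f ω := H2 a ω
      rw [h4]
      split_ifs <;> ring
    rw [Finset.sum_congr rfl fun ω _ => h3 ω]
    symm
    refine Finset.sum_subset (Finset.filter_subset _ _) fun ω hω hωn => ?_
    rw [← h3 ω]
    refine Finset.sum_eq_zero fun a _ => ?_
    rw [if_neg]
    intro h5
    exact hωn (Finset.mem_filter.2 ⟨hω, a, h5⟩)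
  -- faces are onto on `Act`
  have hActOm : Act ⊆ Om β := Finset.filter_subset _ _
  have honto1 : ∀ ω ∈ Act, Surjective (gen β Finset.univ ω.1) := fun ω hω =>
    H5 ω (Finset.mem_filter.1 hω).2
  have hontoQ : ∀ ω ∈ Act, Surjective (gen β Finset.univ (fc Q ω)) := by
    intro ω hω
    obtain ⟨a, ha⟩ := (Finset.mem_filter.1 hω).2
    have h1 := ha.2.2 Q
    have h2 : Q.piecewise (φ a ω).2 (φ a ω).1 = fc Q (φ a ω) := rfl
    rw [h2, H3] at h1
    exact as_span β _ hij a h1
  have hfsq : (∑ ω ∈ Act, f ω ^ 2) * Nat.card W ≤ R := by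
    have h1 := as_sum_onto β hβ ∅ (fun t => Tm U i₀ t ^ 2) (fun t => sq_nonneg _) Act hActOm
      (fun ω hω => by
        show Surjective (gen β Finset.univ ((∅ : Finset I).piecewise ω.2 ω.1))
        rw [Finset.piecewise_empty]
        exact honto1 ω hω)
    have h2 : ∀ ω : (I → V) × (I → V), fc ∅ ω = ω.1 := fun ω => Finset.piecewise_empty _ _
    simp only [h2] at h1
    exact h1
  -- the bound for `A`
  have hAsq : (∑ ω ∈ Act, A ω ^ 2) * Nat.card W ≤ q * R := by
    have h1 := as_sum_onto β hβ Q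
      (fun t => (∑ a : K, Tm U i (update t j (t j + a • t i))) ^ 2) (fun t => sq_nonneg _) Act
      hActOm hontoQ
    have h2 : ∀ ω, A ω = ∑ a : K, Tm U i (update (fc Q ω) j (fc Q ω j + a • fc Q ω i)) := by
      intro ω
      simp only [hAdef, hg]
      exact Finset.sum_congr rfl fun a _ => by rw [H3]
    simp only [h2]
    refine h1.trans (le_of_eq ?_)
    have h3 := Tm_root (K := K) hA hij (I := I) (V := V) (U := U)
    simp only [div_pow] at h3
    rw [← Finset.sum_div, ← hq] at h3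
    have h4 : ∑ t : I → V, (∑ a : K, Tm U i (update t j (t j + a • t i))) ^ 2 =
        q * ∑ t : I → V, Tm U i t ^ 2 := by
      field_simp at h3
      linarith
    rw [h4, ← hRi]
    ring
  -- the bound for `E`
  have hEsq : (∑ ω ∈ Act, E ω ^ 2) * Nat.card W ≤ C * (q * R) := by
    have h1 : ∀ ω ∈ Act, E ω ^ 2 ≤ C * ∑ a : K, g (φ a ω) ^ 2 := by
      intro ω hω
      have h2 : E ω = ∑ a ∈ Finset.univ.filter (fun a => ¬ F (φ a ω)), g (φ a ω) := by
        simp only [hE]
        rw [Finset.sum_filter]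
        refine Finset.sum_congr rfl fun a _ => ?_
        split_ifs <;> rfl
      rw [h2]
      have h3 := H4 ω (Finset.mem_filter.1 hω).2
      have h4 : {a : K | ¬ Fr β (φ a ω).1 (φ a ω).2}.ncard =
          (Finset.univ.filter (fun a => ¬ F (φ a ω))).card := by
        rw [← Set.ncard_coe_finset]
        congr 1
        ext a
        simp [hF]
      rw [h4] at h3
      have h3' : ((Finset.univ.filter (fun a => ¬ F (φ a ω))).card : ℝ) ≤ C := by
        exact_mod_cast h3
      calc (∑ a ∈ Finset.univ.filter (fun a => ¬ F (φ a ω)), g (φ a ω)) ^ 2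
          ≤ ((Finset.univ.filter (fun a => ¬ F (φ a ω))).card : ℝ) *
              ∑ a ∈ Finset.univ.filter (fun a => ¬ F (φ a ω)), g (φ a ω) ^ 2 :=
            sq_sum_le_card_mul_sum_sq
        _ ≤ C * ∑ a : K, g (φ a ω) ^ 2 := by
            refine mul_le_mul h3' ?_ (Finset.sum_nonneg fun a _ => sq_nonneg _)
              (Nat.cast_nonneg _)
            exact Finset.sum_le_sum_of_subset_of_nonneg (Finset.filter_subset _ _)
              fun a _ _ => sq_nonneg _
    have h5 : (∑ ω ∈ Act, ∑ a : K, g (φ a ω) ^ 2) * Nat.card W ≤ q * R := by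
      set hh : (I → V) × (I → V) → ℝ := fun ω =>
        if Surjective (gen β Finset.univ (fc Q ω)) then g ω ^ 2 else 0 with hhh
      have hh0 : ∀ ω, 0 ≤ hh ω := by
        intro ω
        simp only [hhh]
        split_ifs
        · exact sq_nonneg _
        · exact le_rfl
      have h6 : ∑ ω ∈ Act, ∑ a : K, g (φ a ω) ^ 2 ≤ q * ∑ ω ∈ Om β, hh ω := by
        have h7 : q * ∑ ω ∈ Om β, hh ω = ∑ a : K, ∑ ω ∈ Om β, hh (φ a ω) := by
          rw [Finset.sum_congr rfl fun a _ => H1 a hh, Finset.sum_const, Finset.card_univ,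
            nsmul_eq_mul]
        rw [h7, Finset.sum_comm (s := (Finset.univ : Finset K))]
        calc ∑ ω ∈ Act, ∑ a : K, g (φ a ω) ^ 2 = ∑ ω ∈ Act, ∑ a : K, hh (φ a ω) := by
              refine Finset.sum_congr rfl fun ω hω => Finset.sum_congr rfl fun a _ => ?_
              simp only [hhh]
              rw [if_pos]
              rw [H3]
              exact as_span' β _ hij a (hontoQ ω hω)
          _ ≤ ∑ ω ∈ Om β, ∑ a : K, hh (φ a ω) :=
              Finset.sum_le_sum_of_subset_of_nonneg hActOm fun ω _ _ =>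
                Finset.sum_nonneg fun a _ => hh0 _
      have h8 : (∑ ω ∈ Om β, hh ω) * Nat.card W ≤ R := by
        have h9 := as_sum_onto β hβ Q (fun t => Tm U i t ^ 2) (fun t => sq_nonneg _)
          ((Om β).filter fun ω => Surjective (gen β Finset.univ (fc Q ω)))
          (Finset.filter_subset _ _) (fun ω hω => (Finset.mem_filter.1 hω).2)
        rw [hRi] at h9
        refine le_trans (le_of_eq ?_) h9
        rw [Finset.sum_filter]
      calc (∑ ω ∈ Act, ∑ a : K, g (φ a ω) ^ 2) * Nat.card W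
          ≤ (q * ∑ ω ∈ Om β, hh ω) * Nat.card W := mul_le_mul_of_nonneg_right h6 hW
        _ = q * ((∑ ω ∈ Om β, hh ω) * Nat.card W) := by ring
        _ ≤ q * R := mul_le_mul_of_nonneg_left h8 hq0.le
    calc (∑ ω ∈ Act, E ω ^ 2) * Nat.card W
        ≤ (∑ ω ∈ Act, C * ∑ a : K, g (φ a ω) ^ 2) * Nat.card W :=
          mul_le_mul_of_nonneg_right (Finset.sum_le_sum h1) hW
      _ = C * ((∑ ω ∈ Act, ∑ a : K, g (φ a ω) ^ 2) * Nat.card W) := by
          rw [← Finset.mul_sum]; ring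
      _ ≤ C * (q * R) := mul_le_mul_of_nonneg_left h5 (Nat.cast_nonneg _)
  -- conclusion
  have hc1 := as_cs Act f A R (q * R) _ hW hfsq hAsq
  have hc2 := as_cs Act f E R (C * (q * R)) _ hW hfsq hEsq
  have hs1 : Real.sqrt R * Real.sqrt (q * R) = Real.sqrt q * R := by
    rw [Real.sqrt_mul hq0.le, ← mul_assoc, mul_comm (Real.sqrt R), mul_assoc,
      Real.mul_self_sqrt hR0]
  have hs2 : Real.sqrt R * Real.sqrt (C * (q * R)) = Real.sqrt q * (Real.sqrt C * R) := by
    rw [Real.sqrt_mul (Nat.cast_nonneg _), ← mul_assoc, mul_comm (Real.sqrt R), mul_assoc, hs1]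
    ring
  rw [hs1] at hc1
  rw [hs2] at hc2
  have h1 : q * |∑ ω ∈ OF β, f ω * g ω| ≤ |∑ ω ∈ Act, f ω * A ω| + |∑ ω ∈ Act, f ω * E ω| := by
    have h2 : q * |∑ ω ∈ OF β, f ω * g ω| = |q * ∑ ω ∈ OF β, f ω * g ω| := by
      rw [abs_mul, abs_of_pos hq0]
    rw [h2, hsum]
    have h3 : ∑ ω ∈ Act, f ω * (A ω - E ω) = ∑ ω ∈ Act, f ω * A ω - ∑ ω ∈ Act, f ω * E ω := by
      rw [← Finset.sum_sub_distrib]
      exact Finset.sum_congr rfl fun ω _ => by ring
    rw [h3]
    exact abs_sub _ _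
  have h4 : q * (|∑ ω ∈ OF β, f ω * g ω| * Nat.card W) ≤
      Real.sqrt q * ((1 + Real.sqrt C) * R) := by
    calc q * (|∑ ω ∈ OF β, f ω * g ω| * Nat.card W)
        = (q * |∑ ω ∈ OF β, f ω * g ω|) * Nat.card W := by ring
      _ ≤ (|∑ ω ∈ Act, f ω * A ω| + |∑ ω ∈ Act, f ω * E ω|) * Nat.card W :=
          mul_le_mul_of_nonneg_right h1 hW
      _ = |∑ ω ∈ Act, f ω * A ω| * Nat.card W + |∑ ω ∈ Act, f ω * E ω| * Nat.card W := by ring
      _ ≤ Real.sqrt q * R + Real.sqrt q * (Real.sqrt C * R) := add_le_add hc1 hc2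
      _ = Real.sqrt q * ((1 + Real.sqrt C) * R) := by ring
  have hsq : 0 < Real.sqrt q := Real.sqrt_pos.2 hq0
  have h5 : Real.sqrt q * Real.sqrt q = q := Real.mul_self_sqrt hq0.le
  refine le_of_mul_le_mul_left ?_ hsq
  calc Real.sqrt q * (|∑ ω ∈ OF β, f ω * g ω| * Nat.card W * Real.sqrt q)
      = (Real.sqrt q * Real.sqrt q) * (|∑ ω ∈ OF β, f ω * g ω| * Nat.card W) := by ring
    _ ≤ _ := by rw [h5]; exact h4

/-- The cross terms. -/
theorem as_cross (hβ : ∀ a b, β a b = β b a) (U : (I → V) → ℝ) (hA : Alt U) (i₀ i : I)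
    (P : Finset I) (h : i ≠ i₀ ∨ ∃ j ∈ P, j ≠ i₀) :
    |∑ ω ∈ OF β, Tm U i₀ ω.1 * Tm U i (fc P ω)| * Nat.card W * Real.sqrt (Fintype.card K) ≤
      (1 + Real.sqrt ((2 ^ Fintype.card I * Module.finrank K W + 2 * Fintype.card I : ℕ) : ℝ)) *
        ((Fintype.card V : ℝ) ^ Fintype.card I * ∑ x : I → V, Tm U i₀ x ^ 2) := by
  classical
  -- the entry at `i` does not matter
  have hfc : ∀ ω : (I → V) × (I → V), Tm U i (fc P ω) = Tm U i (fc (P.erase i) ω) := by
    intro ω
    have h1 : fc P ω = update (fc (P.erase i) ω) i (fc P ω i) := by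
      funext l
      by_cases hl : l = i
      · subst hl
        rw [update_self]
      · rw [update_of_ne hl]
        show P.piecewise ω.2 ω.1 l = (P.erase i).piecewise ω.2 ω.1 l
        by_cases hP : l ∈ P
        · rw [Finset.piecewise_eq_of_mem _ _ _ hP,
            Finset.piecewise_eq_of_mem _ _ _ (Finset.mem_erase.2 ⟨hl, hP⟩)]
        · rw [Finset.piecewise_eq_of_notMem _ _ _ hP,
            Finset.piecewise_eq_of_notMem _ _ _ (fun h => hP (Finset.mem_of_mem_erase h))]
    rw [h1, Tm_update]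
  simp only [hfc]
  have hiQ : i ∉ P.erase i := Finset.notMem_erase i P
  have hfci : ∀ ω : (I → V) × (I → V), fc (P.erase i) ω i = ω.1 i := fun ω =>
    Finset.piecewise_eq_of_notMem _ _ _ hiQ
  -- root maps of type 1
  have type1 : ∀ j, i ≠ j → j ∈ P →
      |∑ ω ∈ OF β, Tm U i₀ ω.1 * Tm U i (fc (P.erase i) ω)| * Nat.card W *
        Real.sqrt (Fintype.card K) ≤
      (1 + Real.sqrt ((2 ^ Fintype.card I * Module.finrank K W + 2 * Fintype.card I : ℕ) : ℝ)) *
        ((Fintype.card V : ℝ) ^ Fintype.card I * ∑ x : I → V, Tm U i₀ x ^ 2) := by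
    intro j hij hj
    have hjQ : j ∈ P.erase i := Finset.mem_erase.2 ⟨Ne.symm hij, hj⟩
    refine as_cross_gen β hβ U hA i₀ i j hij (P.erase i) (fun a ω => rt1 i j a ω)
      (fun a f => sum_root β hβ hij a f) (fun a ω => rfl) (fun a ω => ?_) _
      (fun ω hω => fr_rt1 β hβ hij ω hω) (fun ω hω => ?_)
    · have h2 : fc (P.erase i) ω j = ω.2 j := Finset.piecewise_eq_of_mem _ _ _ hjQ
      rw [hfci, h2]
      funext l
      show (P.erase i).piecewise (rt1 i j a ω).2 (rt1 i j a ω).1 l = _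
      by_cases hlj : l = j
      · subst hlj
        rw [Finset.piecewise_eq_of_mem _ _ _ hjQ, update_self]
        simp [rt1, Ne.symm hij]
      · rw [update_of_ne hlj]
        by_cases hlQ : l ∈ P.erase i
        · have hli : l ≠ i := fun h => hiQ (h ▸ hlQ)
          rw [Finset.piecewise_eq_of_mem _ _ _ hlQ]
          show _ = (P.erase i).piecewise ω.2 ω.1 l
          rw [Finset.piecewise_eq_of_mem _ _ _ hlQ]
          simp [rt1, hli, hlj]
        · rw [Finset.piecewise_eq_of_notMem _ _ _ hlQ]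
          show _ = (P.erase i).piecewise ω.2 ω.1 l
          rw [Finset.piecewise_eq_of_notMem _ _ _ hlQ]
          rfl
    · obtain ⟨a, ha⟩ := hω
      exact ha.onto β
  by_cases hi : i = i₀
  · obtain ⟨j, hj, hji⟩ := h.resolve_left (not_not.2 hi)
    exact type1 j (fun h' => hji (by rw [← h', hi])) hj
  · by_cases hP : i₀ ∈ P
    · exact type1 i₀ hi hP
    · have hjQ : i₀ ∉ P.erase i := fun h => hP (Finset.mem_of_mem_erase h)
      refine as_cross_gen β hβ U hA i₀ i i₀ hi (P.erase i) (fun a ω => rt2 i i₀ a ω)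
        (fun a f => sum_root' β hβ hi a f) (fun a ω => ?_) (fun a ω => ?_) _
        (fun ω hω => fr_rt2 β hi ω hω) (fun ω hω => ?_)
      · exact Tm_update U i₀ ω.1 _
      · have h2 : fc (P.erase i) ω i₀ = ω.1 i₀ := Finset.piecewise_eq_of_notMem _ _ _ hjQ
        rw [hfci, h2]
        funext l
        show (P.erase i).piecewise (rt2 i i₀ a ω).2 (rt2 i i₀ a ω).1 l = _
        by_cases hlj : l = i₀
        · subst hlj
          rw [Finset.piecewise_eq_of_notMem _ _ _ hjQ, update_self]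
          simp [rt2]
        · rw [update_of_ne hlj]
          by_cases hlQ : l ∈ P.erase i
          · have hli : l ≠ i := fun h => hiQ (h ▸ hlQ)
            rw [Finset.piecewise_eq_of_mem _ _ _ hlQ]
            show _ = (P.erase i).piecewise ω.2 ω.1 l
            rw [Finset.piecewise_eq_of_mem _ _ _ hlQ]
            simp [rt2, hli]
          · rw [Finset.piecewise_eq_of_notMem _ _ _ hlQ]
            show _ = (P.erase i).piecewise ω.2 ω.1 l
            rw [Finset.piecewise_eq_of_notMem _ _ _ hlQ]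
            simp [rt2, hlj]
      · obtain ⟨a, ha⟩ := hω
        exact as_span β ω.1 hi a (ha.onto β)

/-- The upper bound. -/
theorem as_upper (hβ : ∀ a b, β a b = β b a) (U : (I → V) → ℝ)
    (hP : ∀ x x' : I → V, Fr β x x' → ∑ P : Finset I, U (P.piecewise x' x) = 0)
    (i₀ : I) (M : ℝ) (hM : 0 ≤ M)
    (h : ∑ x ∈ GS (GFr β), ((∑ i, Tm U i x) - U x) ^ 2 ≤ M ^ 2 * ∑ x : I → V, Tm U i₀ x ^ 2) :
    |∑ ω ∈ OF β, Tm U i₀ ω.1 * ∑ P : Finset I, ∑ i : I, Tm U i (fc P ω)| * Nat.card W ≤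
      2 ^ Fintype.card I * M * ((Fintype.card V : ℝ) ^ Fintype.card I *
        ∑ x : I → V, Tm U i₀ x ^ 2) := by
  classical
  set R : ℝ := (Fintype.card V : ℝ) ^ Fintype.card I * ∑ x : I → V, Tm U i₀ x ^ 2 with hR
  have hR0 : 0 ≤ R := mul_nonneg (by positivity) (Finset.sum_nonneg fun x _ => sq_nonneg _)
  have hW : (0 : ℝ) ≤ Nat.card W := Nat.cast_nonneg _
  set D : (I → V) → ℝ := fun t => (∑ i, Tm U i t) - U t with hD
  have h1 : ∑ ω ∈ OF β, Tm U i₀ ω.1 * ∑ P : Finset I, ∑ i : I, Tm U i (fc P ω) =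
      ∑ P : Finset I, ∑ ω ∈ OF β, Tm U i₀ ω.1 * D (fc P ω) := by
    rw [Finset.sum_comm]
    refine Finset.sum_congr rfl fun ω hω => ?_
    rw [← Finset.mul_sum]
    congr 1
    have h2 := hP ω.1 ω.2 ((mem_OF β ω).1 hω)
    simp only [hD]
    rw [Finset.sum_sub_distrib]
    have h3 : ∑ P : Finset I, U (fc P ω) = 0 := h2
    rw [h3, sub_zero]
  have hf : (∑ ω ∈ OF β, Tm U i₀ ω.1 ^ 2) * Nat.card W ≤ R := by
    have h2 := as_sum_onto β hβ ∅ (fun t => Tm U i₀ t ^ 2) (fun t => sq_nonneg _) (OF β)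
      (OF_sub β) (fun ω hω => ((mem_OF β ω).1 hω).2.2 ∅)
    have h3 : ∀ ω : (I → V) × (I → V), fc ∅ ω = ω.1 := fun ω => Finset.piecewise_empty _ _
    simp only [h3] at h2
    exact h2
  have hterm : ∀ P : Finset I, |∑ ω ∈ OF β, Tm U i₀ ω.1 * D (fc P ω)| * Nat.card W ≤ M * R := by
    intro P
    have hg : (∑ ω ∈ OF β, D (fc P ω) ^ 2) * Nat.card W ≤ M ^ 2 * R := by
      set d : (I → V) → ℝ := fun t => if GFr β t then D t ^ 2 else 0 with hd
      have hd0 : ∀ t, 0 ≤ d t := by
        intro t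
        simp only [hd]
        split_ifs
        · exact sq_nonneg _
        · exact le_rfl
      have h2 := as_sum_onto β hβ P d hd0 (OF β) (OF_sub β)
        (fun ω hω => ((mem_OF β ω).1 hω).2.2 P)
      have h3 : ∑ ω ∈ OF β, D (fc P ω) ^ 2 = ∑ ω ∈ OF β, d (fc P ω) := by
        refine Finset.sum_congr rfl fun ω hω => ?_
        simp only [hd]
        rw [if_pos (((mem_OF β ω).1 hω).face β hβ P)]
      have h4 : ∑ t : I → V, d t = ∑ x ∈ GS (GFr β), D x ^ 2 := by
        simp only [hd]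
        unfold GS
        rw [Finset.sum_filter]
      rw [h3]
      refine h2.trans ?_
      rw [h4]
      calc (Fintype.card V : ℝ) ^ Fintype.card I * ∑ x ∈ GS (GFr β), D x ^ 2
          ≤ (Fintype.card V : ℝ) ^ Fintype.card I * (M ^ 2 * ∑ x : I → V, Tm U i₀ x ^ 2) :=
            mul_le_mul_of_nonneg_left h (by positivity)
        _ = M ^ 2 * R := by rw [hR]; ring
    have h5 := as_cs (OF β) (fun ω => Tm U i₀ ω.1) (fun ω => D (fc P ω)) R (M ^ 2 * R) _ hW hf hg
    have h6 : Real.sqrt R * Real.sqrt (M ^ 2 * R) = M * R := by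
      rw [Real.sqrt_mul (sq_nonneg M), Real.sqrt_sq hM, mul_left_comm, Real.mul_self_sqrt hR0]
    rw [h6] at h5
    exact h5
  rw [h1]
  calc |∑ P : Finset I, ∑ ω ∈ OF β, Tm U i₀ ω.1 * D (fc P ω)| * Nat.card W
      ≤ (∑ P : Finset I, |∑ ω ∈ OF β, Tm U i₀ ω.1 * D (fc P ω)|) * Nat.card W :=
        mul_le_mul_of_nonneg_right (Finset.abs_sum_le_sum_abs _ _) hW
    _ = ∑ P : Finset I, |∑ ω ∈ OF β, Tm U i₀ ω.1 * D (fc P ω)| * Nat.card W := by
        rw [Finset.sum_mul]
    _ ≤ ∑ _P : Finset I, M * R := Finset.sum_le_sum fun P _ => hterm P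
    _ = 2 ^ Fintype.card I * M * R := by
        rw [Finset.sum_const, Finset.card_univ, Fintype.card_finset, nsmul_eq_mul]
        push_cast
        ring

/-- The main term. -/
theorem as_main (U : (I → V) → ℝ) (hU : ∀ x, ¬ GFr β x → U x = 0)
    (i₀ : I) (κ₂ κ₃ : ℝ) (h20 : 0 ≤ κ₂) (h21 : κ₂ ≤ 1) (h30 : 0 ≤ κ₃)
    (h2 : ∀ x : I → V, GFr β x →
      ({x' : I → V | gen β Finset.univ x x' = 0 ∧ ¬ Fr β x x'}.ncard : ℝ) ≤
        κ₂ * Nat.card (LinearMap.ker (gen β Finset.univ x)))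
    (h3 : ∀ x : I → V, GFr β x → ({z : V | ¬ GFr β (update x i₀ z)}.ncard : ℝ) ≤
        κ₃ * Fintype.card V) :
    (1 - κ₂ - κ₃) * ((Fintype.card V : ℝ) ^ Fintype.card I * ∑ x : I → V, Tm U i₀ x ^ 2) ≤
      (∑ ω ∈ OF β, Tm U i₀ ω.1 * Tm U i₀ ω.1) * Nat.card W := by
  classical
  set v : ℝ := (Fintype.card V : ℝ) with hv
  have hv0 : 0 < v := by
    have : 0 < Fintype.card V := Fintype.card_pos_iff.2 ⟨0⟩
    rw [hv]
    exact_mod_cast this
  have hW0 : (0 : ℝ) < Nat.card W := by exact_mod_cast Nat.card_pos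
  set N : ℝ := v ^ Fintype.card I with hN
  have hN0 : 0 < N := pow_pos hv0 _
  let cnt : (I → V) → ℝ := fun x => ((Finset.univ.filter fun x' => Fr β x x').card : ℝ)
  have hcnt0 : ∀ x, 0 ≤ cnt x := fun x => Nat.cast_nonneg _
  -- the sum over frames
  have e1 : ∑ ω ∈ OF β, Tm U i₀ ω.1 * Tm U i₀ ω.1 = ∑ x : I → V, Tm U i₀ x ^ 2 * cnt x := by
    have h4 : ∑ ω ∈ OF β, Tm U i₀ ω.1 * Tm U i₀ ω.1 =
        ∑ x : I → V, ∑ x' : I → V, if Fr β x x' then Tm U i₀ x ^ 2 else 0 := by
      have : OF (I := I) β = Finset.univ.filter fun ω : (I → V) × (I → V) => Fr β ω.1 ω.2 := by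
        ext ω
        rw [mem_OF]
        simp
      rw [this, Finset.sum_filter, Fintype.sum_prod_type]
      refine Finset.sum_congr rfl fun x _ => Finset.sum_congr rfl fun x' _ => ?_
      simp only [sq]
    rw [h4]
    refine Finset.sum_congr rfl fun x _ => ?_
    rw [← Finset.sum_filter, Finset.sum_const, nsmul_eq_mul, mul_comm]
  -- the count over a face of a frame
  have hcnt : ∀ x, GFr β x → (1 - κ₂) * N ≤ cnt x * Nat.card W := by
    intro x hx
    have h4 := h2 x hx
    have h5 := card_ker_gen β x (hx.onto β)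
    have h6 : (Nat.card (LinearMap.ker (gen β Finset.univ x)) : ℝ) ≤
        cnt x + ({x' : I → V | gen β Finset.univ x x' = 0 ∧ ¬ Fr β x x'}.ncard : ℝ) := by
      have h7 : Nat.card {x' : I → V // x' ∈ LinearMap.ker (gen β Finset.univ x)} =
          (Finset.univ.filter fun x' : I → V => gen β Finset.univ x x' = 0).card :=
        Nat.subtype_card _ fun x' => by simp
      have h8 : {x' : I → V | gen β Finset.univ x x' = 0 ∧ ¬ Fr β x x'}.ncard =
          (Finset.univ.filter fun x' : I → V => gen β Finset.univ x x' = 0 ∧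
            ¬ Fr β x x').card := by
        rw [← Set.ncard_coe_finset]
        congr 1
        ext x'
        simp
      have h9 : (Finset.univ.filter fun x' : I → V => gen β Finset.univ x x' = 0) ⊆
          (Finset.univ.filter fun x' => Fr β x x') ∪
          (Finset.univ.filter fun x' : I → V => gen β Finset.univ x x' = 0 ∧ ¬ Fr β x x') := by
        intro x' hx'
        rw [Finset.mem_filter] at hx'
        rw [Finset.mem_union, Finset.mem_filter, Finset.mem_filter]
        by_cases h : Fr β x x'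
        · exact Or.inl ⟨Finset.mem_univ _, h⟩
        · exact Or.inr ⟨Finset.mem_univ _, hx'.2, h⟩
      have h10 := (Finset.card_le_card h9).trans (Finset.card_union_le _ _)
      rw [← h7, ← h8] at h10
      have h11 : (Nat.card (LinearMap.ker (gen β Finset.univ x)) : ℝ) ≤
          (((Finset.univ.filter fun x' => Fr β x x').card +
            {x' : I → V | gen β Finset.univ x x' = 0 ∧ ¬ Fr β x x'}.ncard : ℕ) : ℝ) := by
        exact_mod_cast h10
      rw [Nat.cast_add] at h11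
      exact h11
    have h12 : (Nat.card (LinearMap.ker (gen β Finset.univ x)) : ℝ) * Nat.card W = N := by
      rw [hN, hv]
      exact_mod_cast h5
    have h13 : (1 - κ₂) * (Nat.card (LinearMap.ker (gen β Finset.univ x)) : ℝ) ≤ cnt x := by
      linarith
    calc (1 - κ₂) * N
        = ((1 - κ₂) * (Nat.card (LinearMap.ker (gen β Finset.univ x)) : ℝ)) * Nat.card W := by
          rw [← h12]; ring
      _ ≤ cnt x * Nat.card W := mul_le_mul_of_nonneg_right h13 hW0.le
  -- the sum over the entry at `i₀`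
  have hz : ∀ x, Tm U i₀ x ≠ 0 →
      (1 - κ₂ - κ₃) * (v * N) ≤ (∑ z : V, cnt (update x i₀ z)) * Nat.card W := by
    intro x hx
    obtain ⟨z₀, hz₀⟩ : ∃ z, U (update x i₀ z) ≠ 0 := by
      by_contra hcon
      push Not at hcon
      apply hx
      unfold Tm
      rw [Finset.sum_eq_zero fun z _ => hcon z, zero_div]
    have hgf : GFr β (update x i₀ z₀) := by
      by_contra hcon
      exact hz₀ (hU _ hcon)
    have h4 := h3 _ hgf
    simp only [update_idem] at h4
    set B : Finset V := Finset.univ.filter fun z => GFr β (update x i₀ z) with hB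
    have h5 : v ≤ (B.card : ℝ) + ({z : V | ¬ GFr β (update x i₀ z)}.ncard : ℝ) := by
      have h6 : {z : V | ¬ GFr β (update x i₀ z)}.ncard =
          (Finset.univ.filter fun z => ¬ GFr β (update x i₀ z)).card := by
        rw [← Set.ncard_coe_finset]
        congr 1
        ext z
        simp
      have h7 := Finset.card_filter_add_card_filter_not (s := (Finset.univ : Finset V))
        (fun z => GFr β (update x i₀ z))
      rw [Finset.card_univ] at h7
      rw [h6, hv, ← h7]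
      push_cast
      exact le_rfl
    have h6 : (1 - κ₃) * v ≤ B.card := by linarith
    have h7 : (B.card : ℝ) * ((1 - κ₂) * N) ≤ (∑ z : V, cnt (update x i₀ z)) * Nat.card W := by
      calc (B.card : ℝ) * ((1 - κ₂) * N) = ∑ _z ∈ B, (1 - κ₂) * N := by
            rw [Finset.sum_const, nsmul_eq_mul]
        _ ≤ ∑ z ∈ B, cnt (update x i₀ z) * Nat.card W :=
            Finset.sum_le_sum fun z hz => hcnt _ (Finset.mem_filter.1 hz).2
        _ ≤ ∑ z : V, cnt (update x i₀ z) * Nat.card W :=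
            Finset.sum_le_sum_of_subset_of_nonneg (Finset.subset_univ _)
              fun z _ _ => mul_nonneg (hcnt0 _) hW0.le
        _ = (∑ z : V, cnt (update x i₀ z)) * Nat.card W := by rw [Finset.sum_mul]
    have h8 : 0 ≤ (1 - κ₂) * N := mul_nonneg (by linarith) hN0.le
    calc (1 - κ₂ - κ₃) * (v * N) ≤ ((1 - κ₃) * v) * ((1 - κ₂) * N) := by
          have h9 : 0 ≤ κ₂ * κ₃ * (v * N) :=
            mul_nonneg (mul_nonneg h20 h30) (mul_nonneg hv0.le hN0.le)
          nlinarith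
      _ ≤ (B.card : ℝ) * ((1 - κ₂) * N) := mul_le_mul_of_nonneg_right h6 h8
      _ ≤ _ := h7
  -- averaging
  have e2 : v * ∑ x : I → V, Tm U i₀ x ^ 2 * cnt x =
      ∑ x : I → V, Tm U i₀ x ^ 2 * ∑ z : V, cnt (update x i₀ z) := by
    rw [hv, ← sum_update_all (fun x => Tm U i₀ x ^ 2 * cnt x) i₀]
    refine Finset.sum_congr rfl fun x _ => ?_
    rw [Finset.mul_sum]
    refine Finset.sum_congr rfl fun z _ => ?_
    rw [Tm_update]
  refine le_of_mul_le_mul_left ?_ hv0
  calc v * ((1 - κ₂ - κ₃) * (N * ∑ x : I → V, Tm U i₀ x ^ 2))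
      = ∑ x : I → V, Tm U i₀ x ^ 2 * ((1 - κ₂ - κ₃) * (v * N)) := by
        rw [← Finset.sum_mul]; ring
    _ ≤ ∑ x : I → V, Tm U i₀ x ^ 2 * ((∑ z : V, cnt (update x i₀ z)) * Nat.card W) := by
        refine Finset.sum_le_sum fun x _ => ?_
        by_cases hx : Tm U i₀ x = 0
        · rw [hx]; simp
        · exact mul_le_mul_of_nonneg_left (hz x hx) (sq_nonneg _)
    _ = (∑ x : I → V, Tm U i₀ x ^ 2 * ∑ z : V, cnt (update x i₀ z)) * Nat.card W := by
        rw [Finset.sum_mul]
        exact Finset.sum_congr rfl fun x _ => by ring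
    _ = (v * ∑ x : I → V, Tm U i₀ x ^ 2 * cnt x) * Nat.card W := by rw [e2]
    _ = v * ((∑ ω ∈ OF β, Tm U i₀ ω.1 * Tm U i₀ ω.1) * Nat.card W) := by rw [e1]; ring

end

end Pool.Agent.KM
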