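import Pool.Agent.KM.Defs
import Pool.Agent.KM.BMatch

/-!
Project KM, row B4: the jointly generating instance.
-/

set_option autoImplicit false

open Function

namespace Pool.Agent.KM

variable {K V W I : Type} [Field K] [AddCommGroup V] [Module K V] [AddCommGroup W] [Module K W]
  [Fintype I] [DecidableEq I] (β : V →ₗ[K] V →ₗ[K] W)

omit [Fintype I] [DecidableEq I] in
theorem b4_gen_apply (D : Finset I) (x u : I → V) : gen β D x u = ∑ i ∈ D, β (x i) (u i) := by
  unfold gen
  rw [LinearMap.sum_apply]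
  rfl

/-- an even subset of `P` of the right size -/
theorem b4_exists_even {s : ℕ} (hs : 2 * s + 1 ≤ Fintype.card I) (P : Finset I) :
    ∃ E : Finset I, E ⊆ P ∧ Even E.card ∧ s ≤ (E ∪ Pᶜ).card ∧ s ≤ (Eᶜ).card := by
  have hP : P.card + (Pᶜ).card = Fintype.card I := Finset.card_add_card_compl P
  obtain ⟨e, he, h1, h2, h3⟩ : ∃ e : ℕ, Even e ∧ e ≤ P.card ∧ s ≤ e + (Pᶜ).card ∧
      e + s ≤ Fintype.card I := by
    by_cases h : s ≤ (Pᶜ).card
    · exact ⟨0, by decide, Nat.zero_le _, by omega, by omega⟩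
    · rcases Nat.even_or_odd (s - (Pᶜ).card) with h4 | h4
      · exact ⟨s - (Pᶜ).card, h4, by omega, by omega, by omega⟩
      · exact ⟨s - (Pᶜ).card + 1, h4.add_one, by omega, by omega, by omega⟩
  obtain ⟨E, hE, hc⟩ := Finset.exists_subset_card_eq h1
  refine ⟨E, hE, by rw [hc]; exact he, ?_, ?_⟩
  · rw [Finset.card_union_of_disjoint]
    · rw [hc]; exact h2
    · exact Finset.disjoint_of_subset_left hE disjoint_compl_right
  · have := Finset.card_add_card_compl E
    omega

/-- a subset `E` of `P` and signs, such that with `J y = (s i • y (σ i))` on `E`, `0` off `E`: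
`J x` and `J (P.piecewise (J x) x)` are syzygies, and the pair is jointly generating -/
theorem inst_joint (hβ : ∀ a b, β a b = β b a) {s : ℕ} (hs : 2 * s + 1 ≤ Fintype.card I)
    (P : Finset I) : ∃ (E : Finset I) (σ : I → I) (t : I → ℤ), E ⊆ P ∧
      (∀ i ∈ E, σ i ∈ E ∧ σ i ≠ i ∧ σ (σ i) = i ∧ (t i = 1 ∨ t i = -1) ∧ t (σ i) = - t i) ∧
      ∀ x : I → V, Good β s x → ∀ x' : I → V, x' = (fun i => if i ∈ E then t i • x (σ i) else 0) →
        Surjective (Psi β P x
          (P.piecewise (fun i => if i ∈ E then t i • x' (σ i) else 0) x)) := by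
  obtain ⟨E, hEP, heven, hc1, hc2⟩ := b4_exists_even hs P
  obtain ⟨σ, t, hσ⟩ := exists_matching E heven
  refine ⟨E, σ, t, hEP, hσ, ?_⟩
  intro x hx x' hx'
  set z : I → V := P.piecewise (fun i => if i ∈ E then t i • x' (σ i) else 0) x with hz
  have hzE : ∀ i ∈ E, z i = - x i := by
    intro i hi
    obtain ⟨h1, h2, h3, h4, h5⟩ := hσ i hi
    rw [hz, Finset.piecewise_eq_of_mem _ _ _ (hEP hi)]
    show (if i ∈ E then t i • x' (σ i) else 0) = - x i
    rw [if_pos hi, hx']
    show t i • (if σ i ∈ E then t (σ i) • x (σ (σ i)) else 0) = - x i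
    rw [if_pos h1, h3, h5]
    rcases h4 with h4 | h4 <;> rw [h4] <;> simp
  have hzP : ∀ i ∈ P, i ∉ E → z i = 0 := by
    intro i hi hiE
    rw [hz, Finset.piecewise_eq_of_mem _ _ _ hi]
    show (if i ∈ E then t i • x' (σ i) else 0) = 0
    rw [if_neg hiE]
  have hzc : ∀ i, i ∉ P → z i = x i := by
    intro i hi
    rw [hz, Finset.piecewise_eq_of_notMem _ _ _ hi]
  obtain ⟨D1, hD1, hD1c⟩ := Finset.exists_subset_card_eq hc1
  obtain ⟨D2, hD2, hD2c⟩ := Finset.exists_subset_card_eq hc2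
  intro ab
  obtain ⟨a, b⟩ := ab
  obtain ⟨w1, hw1⟩ := hx.2 D1 hD1c b
  -- the part of `u` on `E`
  set uE : I → V := fun i => if i ∈ E ∧ i ∈ D1 then - w1 i else 0 with huE
  obtain ⟨w2, hw2⟩ := hx.2 D2 hD2c (a - gen β Finset.univ x uE)
  set u2 : I → V := fun i => if i ∈ D2 then w2 i else 0 with hu2
  set v : I → V := fun i => if i ∈ D1 then w1 i else 0 with hv
  refine ⟨(uE + u2, v), ?_⟩
  have hg2 : gen β Finset.univ x u2 = gen β D2 x w2 := by
    rw [b4_gen_apply, b4_gen_apply]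
    rw [← Finset.sum_subset (Finset.subset_univ D2)]
    · refine Finset.sum_congr rfl fun i hi => ?_
      rw [hu2]
      show β (x i) (if i ∈ D2 then w2 i else 0) = _
      rw [if_pos hi]
    · intro i _ hi
      rw [hu2]
      show β (x i) (if i ∈ D2 then w2 i else 0) = _
      rw [if_neg hi, map_zero]
  have h1 : gen β Finset.univ x (uE + u2) = a := by
    rw [map_add, hg2, hw2]
    abel
  have h2 : gen β P z (uE + u2) = ∑ i ∈ E, (if i ∈ D1 then β (x i) (w1 i) else 0) := by
    rw [b4_gen_apply, ← Finset.sum_subset hEP]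
    · refine Finset.sum_congr rfl fun i hi => ?_
      have hi2 : i ∉ D2 := fun h => (Finset.mem_compl.1 (hD2 h)) hi
      rw [hzE i hi, Pi.add_apply, huE, hu2]
      show β (- x i) ((if i ∈ E ∧ i ∈ D1 then - w1 i else 0) + (if i ∈ D2 then w2 i else 0)) = _
      rw [if_neg hi2, add_zero]
      by_cases h : i ∈ D1
      · rw [if_pos ⟨hi, h⟩, if_pos h]
        simp
      · rw [if_neg (fun h3 => h h3.2), if_neg h, map_zero]
    · intro i hi hiE
      rw [hzP i hi hiE, map_zero]
      rfl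
  have h3 : gen β Pᶜ z v = ∑ i ∈ Pᶜ, (if i ∈ D1 then β (x i) (w1 i) else 0) := by
    rw [b4_gen_apply]
    refine Finset.sum_congr rfl fun i hi => ?_
    rw [hzc i (Finset.mem_compl.1 hi), hv]
    show β (x i) (if i ∈ D1 then w1 i else 0) = _
    by_cases h : i ∈ D1
    · rw [if_pos h, if_pos h]
    · rw [if_neg h, if_neg h, map_zero]
  have h4 : gen β P z (uE + u2) + gen β Pᶜ z v = b := by
    rw [h2, h3, ← Finset.sum_union (Finset.disjoint_of_subset_left hEP disjoint_compl_right),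
      ← hw1, b4_gen_apply, ← Finset.sum_filter]
    refine Finset.sum_congr ?_ fun _ _ => rfl
    ext i
    rw [Finset.mem_filter]
    exact ⟨fun h => h.2, fun h => ⟨hD1 h, h⟩⟩
  show (gen β Finset.univ x (uE + u2), gen β P z (uE + u2) + gen β Pᶜ z v) = (a, b)
  rw [h1, h4]

end Pool.Agent.KM
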