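import Pool.Agent.KM.Defs
import Pool.Agent.KM.BLine
import Pool.Agent.KM.BMatch
import Pool.Agent.KM.BInst2

set_option autoImplicit false
set_option linter.unusedSectionVars false

/-!
KM-B6: the number of two step paths which end in a pair which is not jointly generating.
-/

open Function

namespace Pool.Agent.KM

section
variable {K V W I : Type} [Field K] [AddCommGroup V] [Module K V] [AddCommGroup W] [Module K W]
  [Fintype I] [DecidableEq I] (β : V →ₗ[K] V →ₗ[K] W)

theorem nj_gen_apply (D : Finset I) (x u : I → V) : gen β D x u = ∑ i ∈ D, β (x i) (u i) := by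
  simp [gen, LinearMap.sum_apply]

/-- The variable part of `Psi`. -/
def njB (P : Finset I) (M : (I → V) →ₗ[K] (I → V)) (L : Submodule K (I → V)) :
    L →ₗ[K] (((I → V) × (I → V)) →ₗ[K] (W × W)) where
  toFun y := LinearMap.prod 0 ((gen β P (M y)).comp (LinearMap.fst K _ _))
  map_add' y z := by
    apply LinearMap.ext
    intro u
    simp [nj_gen_apply, Finset.sum_add_distrib]
  map_smul' c y := by
    apply LinearMap.ext
    intro u
    simp [nj_gen_apply, Finset.smul_sum]

theorem nj_psi (P : Finset I) (M : (I → V) →ₗ[K] (I → V)) (L : Submodule K (I → V)) (x : I → V)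
    (y : L) : Psi β P x (P.piecewise (M y) x) =
      Psi β P x (P.piecewise 0 x) + njB β P M L y := by
  apply LinearMap.ext
  rintro ⟨u, v⟩
  have h1 : ∑ i ∈ P, β (P.piecewise (M y) x i) (u i) = ∑ i ∈ P, β ((M y : I → V) i) (u i) :=
    Finset.sum_congr rfl fun i hi => by rw [Finset.piecewise_eq_of_mem _ _ _ hi]
  have h2 : ∑ i ∈ P, β (P.piecewise (0 : I → V) x i) (u i) = 0 :=
    Finset.sum_eq_zero fun i hi => by rw [Finset.piecewise_eq_of_mem _ _ _ hi]; simp
  have h3 : ∀ z : I → V, ∑ i ∈ Pᶜ, β (P.piecewise z x i) (v i) = ∑ i ∈ Pᶜ, β (x i) (v i) :=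
    fun z => Finset.sum_congr rfl fun i hi => by
      rw [Finset.piecewise_eq_of_notMem _ _ _ (Finset.mem_compl.mp hi)]
  refine Prod.ext ?_ ?_
  · show gen β Finset.univ x u = gen β Finset.univ x u + 0
    rw [add_zero]
  · show gen β P (P.piecewise (M y) x) u + gen β Pᶜ (P.piecewise (M y) x) v =
      gen β P (P.piecewise (0 : I → V) x) u + gen β Pᶜ (P.piecewise (0 : I → V) x) v +
        gen β P (M y) u
    rw [nj_gen_apply, nj_gen_apply, nj_gen_apply, nj_gen_apply, nj_gen_apply, h1, h2, h3, h3]
    abel

variable [Fintype K] [Finite V] [Finite W]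

/-- Counting in one family. -/
theorem nj_family (P : Finset I) (M : (I → V) →ₗ[K] (I → V)) (L : Submodule K (I → V))
    (x y0 : I → V) (hy0 : y0 ∈ L) (h : Surjective (Psi β P x (P.piecewise (M y0) x))) :
    {y : I → V | y ∈ L ∧ ¬ Surjective (Psi β P x (P.piecewise (M y) x))}.ncard *
      (Fintype.card K - 1) ≤ 2 * Module.finrank K W * Nat.card L := by
  classical
  have hfd : Module.Finite K W := Module.Finite.of_finite
  have h1 := family_bad (Psi β P x (P.piecewise 0 x)) (njB β P M L) ⟨y0, hy0⟩
    (by rw [← nj_psi]; exact h)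
  have h2 : {y : I → V | y ∈ L ∧ ¬ Surjective (Psi β P x (P.piecewise (M y) x))}.ncard =
      {y : L | ¬ Surjective (Psi β P x (P.piecewise 0 x) + njB β P M L y)}.ncard := by
    have h3 : {y : I → V | y ∈ L ∧ ¬ Surjective (Psi β P x (P.piecewise (M y) x))} =
        (fun y : L => (y : I → V)) ''
          {y : L | ¬ Surjective (Psi β P x (P.piecewise 0 x) + njB β P M L y)} := by
      ext y
      constructor
      · rintro ⟨hy, hy'⟩
        refine ⟨⟨y, hy⟩, ?_, rfl⟩
        show ¬ _
        rw [← nj_psi]
        exact hy'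
      · rintro ⟨z, hz, rfl⟩
        refine ⟨z.2, ?_⟩
        rw [nj_psi]
        exact hz
    rw [h3, Set.ncard_image_of_injective _ Subtype.val_injective]
  rw [h2]
  refine h1.trans (le_of_eq ?_)
  rw [Module.finrank_prod]
  ring

theorem nj_card (L : Submodule K (I → V)) : Nat.card L = (L : Set (I → V)).ncard :=
  Nat.card_coe_set_eq _

theorem nj_card_syz {s : ℕ} (hs : s ≤ Fintype.card I) (x : I → V) (hx : Good β s x) :
    Nat.card (LinearMap.ker (gen β Finset.univ x)) * Nat.card W = Nat.card V ^ Fintype.card I := by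
  obtain ⟨D, -, hD⟩ := Finset.exists_subset_card_eq (s := (Finset.univ : Finset I)) hs
  have hsur : Surjective (gen β Finset.univ x) := by
    intro w
    obtain ⟨u, hu⟩ := hx.2 D hD w
    refine ⟨D.piecewise u 0, ?_⟩
    rw [nj_gen_apply, ← hu, nj_gen_apply, ← Finset.sum_subset (Finset.subset_univ D)]
    · exact Finset.sum_congr rfl fun i hi => by rw [Finset.piecewise_eq_of_mem _ _ _ hi]
    · intro i _ hi
      rw [Finset.piecewise_eq_of_notMem _ _ _ hi]
      simp
  have h1 := Submodule.card_eq_card_quotient_mul_card (LinearMap.ker (gen β Finset.univ x))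
  have h2 : Nat.card ((I → V) ⧸ LinearMap.ker (gen β Finset.univ x)) = Nat.card W :=
    Nat.card_congr (LinearMap.quotKerEquivOfSurjective _ hsur).toEquiv
  rw [h2, Nat.card_fun, Nat.card_eq_fintype_card (α := I)] at h1
  exact h1.symm

theorem nj_fiber {A B : Type} [Fintype A] [Finite B] (S : Set (A × B)) :
    S.ncard = ∑ a, {b | (a, b) ∈ S}.ncard := by
  classical
  have e : S ≃ (Σ a, {b // (a, b) ∈ S}) :=
    { toFun := fun q => ⟨q.1.1, q.1.2, q.2⟩
      invFun := fun q => ⟨(q.1, q.2.1), q.2.2⟩
      left_inv := fun q => rfl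
      right_inv := fun q => rfl }
  rw [← Nat.card_coe_set_eq, Nat.card_congr e, Nat.card_sigma]
  rfl

/-- the number of two step paths ending in a pair which is not jointly generating -/
theorem nonjoint (hβ : ∀ a b, β a b = β b a) {s : ℕ} (hs1 : 1 ≤ s)
    (hs : 2 * s + 1 ≤ Fintype.card I) (P : Finset I) (x : I → V) (hx : Good β s x) :
    {q : (I → V) × (I → V) | gen β Finset.univ x q.1 = 0 ∧ Good β s (P.piecewise q.1 x) ∧
        gen β Finset.univ (P.piecewise q.1 x) q.2 = 0 ∧
        ¬ Surjective (Psi β P x (P.piecewise q.2 (P.piecewise q.1 x)))}.ncard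
        * (Fintype.card K - 1) ≤
      4 * Module.finrank K W * Nat.card (LinearMap.ker (gen β Finset.univ x)) ^ 2 := by
  classical
  have : Fintype V := Fintype.ofFinite V
  obtain ⟨E, σ, t, hE, h1, h2⟩ := inst_joint β hβ hs P
  set J : (I → V) →ₗ[K] (I → V) :=
    LinearMap.pi (fun i => if i ∈ E then (t i : ℤ) • (LinearMap.proj (σ i) : (I → V) →ₗ[K] V)
      else 0) with hJ
  have hJa : ∀ z : I → V, J z = fun i => if i ∈ E then t i • z (σ i) else 0 := by
    intro z
    funext i
    rw [hJ, LinearMap.pi_apply]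
    by_cases hi : i ∈ E
    · simp [hi]
    · simp [hi]
  set L := LinearMap.ker (gen β Finset.univ x) with hL
  set N := Nat.card L with hN
  have hW : 0 < Nat.card W := Nat.card_pos
  have hsc : s ≤ Fintype.card I := by omega
  have hNy : ∀ y : I → V, Good β s y → Nat.card (LinearMap.ker (gen β Finset.univ y)) = N := by
    intro y hy
    have e1 := nj_card_syz β hsc y hy
    have e2 := nj_card_syz β hsc x hx
    exact Nat.eq_of_mul_eq_mul_right hW (e1.trans e2.symm)
  have hpp : ∀ y' x' : I → V, P.piecewise y' (P.piecewise x' x) = P.piecewise y' x := by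
    intro y' x'
    funext i
    by_cases hi : i ∈ P
    · rw [Finset.piecewise_eq_of_mem _ _ _ hi, Finset.piecewise_eq_of_mem _ _ _ hi]
    · rw [Finset.piecewise_eq_of_notMem _ _ _ hi, Finset.piecewise_eq_of_notMem _ _ _ hi,
        Finset.piecewise_eq_of_notMem _ _ _ hi]
  have hJy : ∀ x' : I → V, J (P.piecewise x' x) = J x' := by
    intro x'
    rw [hJa, hJa]
    funext i
    by_cases hi : i ∈ E
    · rw [if_pos hi, if_pos hi, Finset.piecewise_eq_of_mem _ _ _ (hE (h1 i hi).1)]
    · rw [if_neg hi, if_neg hi]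
  have hJsyz : ∀ z : I → V, gen β Finset.univ z (J z) = 0 := by
    intro z
    rw [hJa]
    exact matching_syz β hβ E σ t h1 z
  -- the bad first steps
  set Bad : Set (I → V) := {x' | x' ∈ L ∧ ¬ Surjective (Psi β P x (P.piecewise (J x') x))}
    with hBad
  have hBadc : Bad.ncard * (Fintype.card K - 1) ≤ 2 * Module.finrank K W * N := by
    refine nj_family β P J L x (J x) (LinearMap.mem_ker.mpr (hJsyz x)) ?_
    have h3 := h2 x hx (J x) (hJa x)
    rw [← hJa (J x)] at h3
    exact h3
  set S : Set ((I → V) × (I → V)) :=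
    {q : (I → V) × (I → V) | gen β Finset.univ x q.1 = 0 ∧ Good β s (P.piecewise q.1 x) ∧
        gen β Finset.univ (P.piecewise q.1 x) q.2 = 0 ∧
        ¬ Surjective (Psi β P x (P.piecewise q.2 (P.piecewise q.1 x)))} with hS
  have hfib : ∀ x' : I → V, {y' | (x', y') ∈ S}.ncard * (Fintype.card K - 1) ≤
      (if x' ∈ Bad then N * (Fintype.card K - 1) else 0) +
        (if x' ∈ L then 2 * Module.finrank K W * N else 0) := by
    intro x'
    by_cases hxL : x' ∈ L
    · by_cases hg : Good β s (P.piecewise x' x)
      · by_cases hb : x' ∈ Bad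
        · rw [if_pos hb]
          refine le_trans (Nat.mul_le_mul_right _ ?_) (Nat.le_add_right _ _)
          rw [← hNy _ hg, nj_card]
          refine Set.ncard_le_ncard ?_ (Set.toFinite _)
          intro y' hy'
          exact LinearMap.mem_ker.mpr hy'.2.2.1
        · rw [if_neg hb, if_pos hxL, zero_add]
          have hsur : Surjective (Psi β P x (P.piecewise (J x') x)) := by
            by_contra h
            exact hb ⟨hxL, h⟩
          have h3 := nj_family β P (LinearMap.id) (LinearMap.ker (gen β Finset.univ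
            (P.piecewise x' x))) x (J x') (by
              rw [LinearMap.mem_ker, ← hJy x']
              exact hJsyz _) hsur
          rw [hNy _ hg] at h3
          refine le_trans (Nat.mul_le_mul_right _ ?_) h3
          refine Set.ncard_le_ncard ?_ (Set.toFinite _)
          intro y' hy'
          refine ⟨LinearMap.mem_ker.mpr hy'.2.2.1, ?_⟩
          have h4 := hy'.2.2.2
          simp only [hpp] at h4
          exact h4
      · have : {y' | (x', y') ∈ S} = ∅ := by
          ext y'
          simp only [Set.mem_ofPred_eq, Set.mem_empty_iff_false, iff_false]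
          intro h
          exact hg h.2.1
        rw [this, Set.ncard_empty, zero_mul]
        exact Nat.zero_le _
    · have : {y' | (x', y') ∈ S} = ∅ := by
        ext y'
        simp only [Set.mem_ofPred_eq, Set.mem_empty_iff_false, iff_false]
        intro h
        exact hxL (LinearMap.mem_ker.mpr h.1)
      rw [this, Set.ncard_empty, zero_mul]
      exact Nat.zero_le _
  rw [nj_fiber S, Finset.sum_mul]
  refine (Finset.sum_le_sum fun x' _ => hfib x').trans ?_
  rw [Finset.sum_add_distrib, ← Finset.sum_filter, ← Finset.sum_filter, Finset.sum_const,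
    Finset.sum_const, smul_eq_mul, smul_eq_mul]
  have c1 : (Finset.univ.filter (fun x' : I → V => x' ∈ Bad)).card = Bad.ncard := by
    rw [Set.ncard_eq_toFinset_card' Bad]
    congr 1
    ext y
    simp
  have c2 : (Finset.univ.filter (fun x' : I → V => x' ∈ L)).card = N := by
    rw [hN, nj_card, Set.ncard_eq_toFinset_card' (L : Set (I → V))]
    congr 1
    ext y
    simp
  rw [c1, c2]
  nlinarith [hBadc, Nat.mul_le_mul_left N hBadc]

end

end Pool.Agent.KM
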