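import Pool.Agent.KM.Defs
import Pool.Agent.KM.BMatch

/-!
Project KM, row B3: instances of syzygies with generating faces.
-/

set_option autoImplicit false

open Function

namespace Pool.Agent.KM

variable {K V W I : Type} [Field K] [AddCommGroup V] [Module K V] [AddCommGroup W] [Module K W]
  [Fintype I] [DecidableEq I] (β : V →ₗ[K] V →ₗ[K] W)

omit [Fintype I] [DecidableEq I] in
theorem b3_gen_apply (D : Finset I) (x u : I → V) : gen β D x u = ∑ i ∈ D, β (x i) (u i) := by
  unfold gen
  rw [LinearMap.sum_apply]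
  rfl

/-- the even set used for `P`, `D` -/
theorem b3_exists_even {s : ℕ} (hs : s + 1 ≤ Fintype.card I) (P D : Finset I)
    (hD : D.card = s) : ∃ E : Finset I, Even E.card ∧ D ∩ P ⊆ E ∧ Disjoint E (D \ P) := by
  rcases Nat.even_or_odd (D ∩ P).card with h | h
  · refine ⟨D ∩ P, h, subset_rfl, ?_⟩
    rw [Finset.disjoint_left]
    intro i hi hi'
    exact (Finset.mem_sdiff.1 hi').2 (Finset.mem_inter.1 hi).2
  · obtain ⟨o, ho⟩ : ∃ o, o ∉ D := by
      by_contra hne
      have h1 : D = Finset.univ := Finset.eq_univ_iff_forall.2 fun o => by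
        by_contra h2
        exact hne ⟨o, h2⟩
      rw [h1, Finset.card_univ] at hD
      omega
    have ho' : o ∉ D ∩ P := fun h1 => ho (Finset.mem_inter.1 h1).1
    refine ⟨insert o (D ∩ P), ?_, Finset.subset_insert _ _, ?_⟩
    · rw [Finset.card_insert_of_notMem ho']
      exact h.add_one
    · rw [Finset.disjoint_left]
      intro i hi hi'
      rcases Finset.mem_insert.1 hi with h1 | h1
      · rw [h1] at hi'
        exact ho (Finset.mem_sdiff.1 hi').1
      · exact (Finset.mem_sdiff.1 hi').2 (Finset.mem_inter.1 h1).2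

theorem inst_gen (hβ : ∀ a b, β a b = β b a) {s : ℕ} (hs : s + 1 ≤ Fintype.card I) (x : I → V)
    (hx : Good β s x) (P D : Finset I) (hD : D.card = s) :
    ∃ x' : I → V, gen β Finset.univ x x' = 0 ∧ Surjective (gen β D (P.piecewise x' x)) := by
  obtain ⟨E, hE, hsub, hdis⟩ := b3_exists_even hs P D hD
  obtain ⟨σ, t, hσ⟩ := exists_matching E hE
  refine ⟨fun i => if i ∈ E then t i • x (σ i) else 0, matching_syz β hβ E σ t hσ x, ?_⟩
  have hinj : Set.InjOn σ (D ∩ P : Finset I) := by
    intro i hi j hj hij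
    have h1 := (hσ i (hsub hi)).2.2.1
    have h2 := (hσ j (hsub hj)).2.2.1
    rw [← h1, ← h2, hij]
  have hdis' : Disjoint (D \ P) ((D ∩ P).image σ) := by
    rw [Finset.disjoint_left]
    intro i hi hi'
    obtain ⟨j, hj, hji⟩ := Finset.mem_image.1 hi'
    have h1 := (hσ j (hsub hj)).1
    rw [hji] at h1
    exact (Finset.disjoint_left.1 hdis) h1 hi
  have hcard : (D \ P ∪ (D ∩ P).image σ).card = s := by
    rw [Finset.card_union_of_disjoint hdis', Finset.card_image_of_injOn hinj,
      Finset.card_sdiff_add_card_inter, hD]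
  intro w
  obtain ⟨u, hu⟩ := hx.2 _ hcard w
  refine ⟨fun i => if i ∈ P then t i • u (σ i) else u i, ?_⟩
  rw [← hu, b3_gen_apply, b3_gen_apply, Finset.sum_union hdis', Finset.sum_image hinj,
    ← Finset.sum_sdiff (Finset.inter_subset_left : D ∩ P ⊆ D)]
  have hset : D \ (D ∩ P) = D \ P := by
    ext i
    simp
  rw [hset]
  congr 1
  · refine Finset.sum_congr rfl fun i hi => ?_
    have hi' : i ∉ P := (Finset.mem_sdiff.1 hi).2
    rw [Finset.piecewise_eq_of_notMem _ _ _ hi', if_neg hi']
  · refine Finset.sum_congr rfl fun i hi => ?_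
    have hi' : i ∈ P := (Finset.mem_inter.1 hi).2
    rw [Finset.piecewise_eq_of_mem _ _ _ hi', if_pos hi']
    show β (if i ∈ E then t i • x (σ i) else 0) (t i • u (σ i)) = _
    rw [if_pos (hsub hi)]
    rcases (hσ i (hsub hi)).2.2.2.1 with h | h <;> rw [h] <;> simp

theorem inst_ne (hβ : ∀ a b, β a b = β b a) {s : ℕ} (hI : 2 ≤ Fintype.card I) (x : I → V)
    (hx : Good β s x) (i : I) :
    ∃ x' : I → V, gen β Finset.univ x x' = 0 ∧ x' i ≠ 0 := by
  obtain ⟨j, hj⟩ : ∃ j, j ≠ i := by
    have : Nontrivial I := Fintype.one_lt_card_iff_nontrivial.1 (by omega)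
    exact exists_ne i
  have hE : Even ({i, j} : Finset I).card := by
    rw [Finset.card_pair hj.symm]
    exact even_two
  obtain ⟨σ, t, hσ⟩ := exists_matching {i, j} hE
  refine ⟨_, matching_syz β hβ {i, j} σ t hσ x, ?_⟩
  have hi : i ∈ ({i, j} : Finset I) := Finset.mem_insert_self _ _
  show (if i ∈ ({i, j} : Finset I) then t i • x (σ i) else 0) ≠ 0
  rw [if_pos hi]
  rcases (hσ i hi).2.2.2.1 with h | h <;> rw [h]
  · rw [one_smul]; exact hx.1 _
  · rw [neg_one_smul]; exact neg_ne_zero.2 (hx.1 _)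

end Pool.Agent.KM
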