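import Pool.Agent.KM.Defs
import Pool.Agent.KM.BLine
import Pool.Agent.KM.BInst

/-!
Project KM, row B5: the syzygies of a good tuple with a bad face are few.
-/

set_option autoImplicit false

open Function

namespace Pool.Agent.KM

variable {K V W I : Type} [Field K] [AddCommGroup V] [Module K V] [AddCommGroup W] [Module K W]
  [Fintype I] [DecidableEq I] (β : V →ₗ[K] V →ₗ[K] W)

omit [DecidableEq I] in
theorem b5_surj {s : ℕ} (hs : s ≤ Fintype.card I) (x : I → V) (hx : Good β s x) :
    Surjective (gen β Finset.univ x) := by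
  classical
  obtain ⟨D, hD, hDs⟩ := Finset.exists_subset_card_eq (s := (Finset.univ : Finset I)) (n := s)
    (by rw [Finset.card_univ]; exact hs)
  intro w
  obtain ⟨u, hu⟩ := hx.2 D hDs w
  refine ⟨fun i => if i ∈ D then u i else 0, ?_⟩
  rw [← hu, b3_gen_apply, b3_gen_apply, ← Finset.sum_subset (Finset.subset_univ D)]
  · refine Finset.sum_congr rfl fun i hi => ?_
    rw [if_pos hi]
  · intro i _ hi
    rw [if_neg hi, map_zero]

variable [Fintype K] [Finite V] [Finite W]

omit [Fintype K] [DecidableEq I] in
/-- the set of syzygies of `x` -/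
theorem card_syz {s : ℕ} (hs : s ≤ Fintype.card I) (x : I → V) (hx : Good β s x) :
    Nat.card (LinearMap.ker (gen β Finset.univ x)) * Nat.card W = Nat.card V ^ Fintype.card I := by
  have h1 := (LinearMap.ker (gen β Finset.univ x)).card_eq_card_quotient_mul_card
  have h2 : Nat.card ((I → V) ⧸ LinearMap.ker (gen β Finset.univ x)) = Nat.card W :=
    Nat.card_congr (LinearMap.quotKerEquivOfSurjective _ (b5_surj β hs x hx)).toEquiv
  rw [h2] at h1
  rw [← h1, Nat.card_fun, Nat.card_eq_fintype_card (α := I)]

theorem kappa (hβ : ∀ a b, β a b = β b a) {s : ℕ} (hs1 : 1 ≤ s) (hs : 2 * s + 1 ≤ Fintype.card I)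
    (x : I → V) (hx : Good β s x) :
    {x' : I → V | gen β Finset.univ x x' = 0 ∧ ∃ P : Finset I, ¬ Good β s (P.piecewise x' x)}.ncard
        * (Fintype.card K - 1) ≤
      (2 ^ Fintype.card I * (2 ^ Fintype.card I * Module.finrank K W + Fintype.card I)) *
        Nat.card (LinearMap.ker (gen β Finset.univ x)) := by
  classical
  have : FiniteDimensional K W := Module.Finite.of_finite
  set L := LinearMap.ker (gen β Finset.univ x) with hL
  -- the linear parts
  let A : Finset I → Finset I → ((I → V) →ₗ[K] W) := fun P D => gen β (D \ P) x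
  let B : Finset I → Finset I → (L →ₗ[K] ((I → V) →ₗ[K] W)) := fun P D =>
    LinearMap.mk₂ K (fun y u => gen β (D ∩ P) (y : I → V) u)
      (by intro y y' u; simp only [b3_gen_apply, Submodule.coe_add, Pi.add_apply, map_add,
            LinearMap.add_apply, Finset.sum_add_distrib])
      (by intro c y u; simp only [b3_gen_apply, Submodule.coe_smul, Pi.smul_apply, map_smul,
            LinearMap.smul_apply, Finset.smul_sum])
      (by intro y u u'; simp only [map_add])
      (by intro c y u; simp only [map_smul])
  have hAB : ∀ (P D : Finset I) (y : L), A P D + B P D y = gen β D (P.piecewise (y : I → V) x) := by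
    intro P D y
    refine LinearMap.ext fun u => ?_
    show gen β (D \ P) x u + gen β (D ∩ P) (y : I → V) u = _
    rw [b3_gen_apply, b3_gen_apply, b3_gen_apply,
      ← Finset.sum_sdiff (Finset.inter_subset_left : D ∩ P ⊆ D)]
    have hset : D \ (D ∩ P) = D \ P := by ext i; simp
    rw [hset]
    congr 1
    · refine Finset.sum_congr rfl fun i hi => ?_
      rw [Finset.piecewise_eq_of_notMem _ _ _ (Finset.mem_sdiff.1 hi).2]
    · refine Finset.sum_congr rfl fun i hi => ?_
      rw [Finset.piecewise_eq_of_mem _ _ _ (Finset.mem_inter.1 hi).2]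
  -- the bad sets
  let S1 : Finset I → Finset I → Set (I → V) := fun P D =>
    {x' | x' ∈ L ∧ ¬ Surjective (gen β D (P.piecewise x' x))}
  let S2 : I → Set (I → V) := fun i => {x' | x' ∈ L ∧ x' i = 0}
  have himg : ∀ (p : (I → V) → Prop), {x' : I → V | x' ∈ L ∧ p x'}.ncard =
      {y : L | p y}.ncard := by
    intro p
    have h1 : {x' : I → V | x' ∈ L ∧ p x'} = (Subtype.val : L → (I → V)) '' {y : L | p y} := by
      ext x'
      constructor
      · rintro ⟨h1, h2⟩
        exact ⟨⟨x', h1⟩, h2, rfl⟩
      · rintro ⟨y, hy, rfl⟩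
        exact ⟨y.2, hy⟩
    rw [h1, Set.ncard_image_of_injective _ Subtype.val_injective]
  have hb1 : ∀ P D : Finset I, D.card = s →
      (S1 P D).ncard * (Fintype.card K - 1) ≤ Module.finrank K W * Nat.card L := by
    intro P D hD
    obtain ⟨y0, hy0, hy1⟩ := inst_gen β hβ (by omega) x hx P D hD
    have h1 := family_bad (A P D) (B P D) (⟨y0, hy0⟩ : L) (by rw [hAB]; exact hy1)
    have h2 : (S1 P D).ncard = {y : L | ¬ Surjective (A P D + B P D y)}.ncard := by
      rw [show S1 P D = {x' | x' ∈ L ∧ ¬ Surjective (gen β D (P.piecewise x' x))} from rfl,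
        himg (fun x' => ¬ Surjective (gen β D (P.piecewise x' x)))]
      congr 1
      ext y
      show _ ↔ ¬ Surjective (A P D + B P D y)
      rw [hAB]
      exact Iff.rfl
    rw [h2]
    exact h1
  have hb2 : ∀ i : I, (S2 i).ncard * (Fintype.card K - 1) ≤ Nat.card L := by
    intro i
    obtain ⟨y0, hy0, hy1⟩ := inst_ne β hβ (by omega) x hx i
    have h1 := count_bad (K := K) (L := L) (fun y => (y : I → V) i = 0) ⟨y0, hy0⟩ 1 (by
      intro y
      rw [Set.ncard_le_one_iff]
      intro t t' ht ht'
      have e1 : y0 i + t • ((y : I → V) i - y0 i) = 0 := ht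
      have e2 : y0 i + t' • ((y : I → V) i - y0 i) = 0 := ht'
      by_contra hne
      have e3 : (t - t') • ((y : I → V) i - y0 i) = 0 := by
        rw [sub_smul]
        have := congrArg₂ (· - ·) e1 e2
        simpa using this
      rcases smul_eq_zero.1 e3 with e4 | e4
      · exact hne (sub_eq_zero.1 e4)
      · rw [e4, smul_zero, add_zero] at e1
        exact hy1 e1)
    rw [one_mul] at h1
    have h2 : (S2 i).ncard = {y : L | (y : I → V) i = 0}.ncard :=
      himg (fun x' => x' i = 0)
    rw [h2]
    exact h1
  -- the union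
  have hsub : {x' : I → V | gen β Finset.univ x x' = 0 ∧
      ∃ P : Finset I, ¬ Good β s (P.piecewise x' x)} ⊆
      (⋃ P : Finset I, ((⋃ D ∈ (Finset.univ.filter fun D : Finset I => D.card = s), S1 P D) ∪
        ⋃ i : I, S2 i)) := by
    rintro x' ⟨hx', P, hP⟩
    rw [Set.mem_iUnion]
    refine ⟨P, ?_⟩
    rw [Good, not_and_or] at hP
    rcases hP with hP | hP
    · right
      push Not at hP
      obtain ⟨i, hi⟩ := hP
      rw [Set.mem_iUnion]
      refine ⟨i, hx', ?_⟩
      by_cases hiP : i ∈ P
      · rwa [Finset.piecewise_eq_of_mem _ _ _ hiP] at hi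
      · rw [Finset.piecewise_eq_of_notMem _ _ _ hiP] at hi
        exact absurd hi (hx.1 i)
    · left
      push Not at hP
      obtain ⟨D, hD, hD2⟩ := hP
      rw [Set.mem_iUnion₂]
      exact ⟨D, Finset.mem_filter.2 ⟨Finset.mem_univ _, hD⟩, hx', hD2⟩
  have hcount : {x' : I → V | gen β Finset.univ x x' = 0 ∧
      ∃ P : Finset I, ¬ Good β s (P.piecewise x' x)}.ncard ≤
      ∑ P : Finset I, ((∑ D ∈ (Finset.univ.filter fun D : Finset I => D.card = s), (S1 P D).ncard) +
        ∑ i : I, (S2 i).ncard) := by
    refine (Set.ncard_le_ncard hsub (Set.toFinite _)).trans ?_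
    refine (Set.ncard_iUnion_le_of_fintype _).trans ?_
    refine Finset.sum_le_sum fun P _ => ?_
    refine (Set.ncard_union_le _ _).trans ?_
    refine add_le_add ?_ (Set.ncard_iUnion_le_of_fintype _)
    exact Finset.set_ncard_biUnion_le _ _
  have hfin : (∑ P : Finset I, ((∑ D ∈ (Finset.univ.filter fun D : Finset I => D.card = s),
      (S1 P D).ncard) + ∑ i : I, (S2 i).ncard)) * (Fintype.card K - 1) ≤
      ∑ P : Finset I, (2 ^ Fintype.card I * Module.finrank K W + Fintype.card I) * Nat.card L := by
    rw [Finset.sum_mul]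
    refine Finset.sum_le_sum fun P _ => ?_
    rw [add_mul, Finset.sum_mul, Finset.sum_mul, add_mul]
    refine add_le_add ?_ ?_
    · calc ∑ D ∈ (Finset.univ.filter fun D : Finset I => D.card = s),
            (S1 P D).ncard * (Fintype.card K - 1)
          ≤ ∑ D ∈ (Finset.univ.filter fun D : Finset I => D.card = s),
            Module.finrank K W * Nat.card L :=
              Finset.sum_le_sum fun D hD => hb1 P D (Finset.mem_filter.1 hD).2
        _ = (Finset.univ.filter fun D : Finset I => D.card = s).card *
              (Module.finrank K W * Nat.card L) := by rw [Finset.sum_const, smul_eq_mul]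
        _ ≤ 2 ^ Fintype.card I * (Module.finrank K W * Nat.card L) := by
              refine Nat.mul_le_mul_right _ ?_
              refine (Finset.card_le_univ _).trans ?_
              rw [Fintype.card_finset]
        _ = 2 ^ Fintype.card I * Module.finrank K W * Nat.card L := by ring
    · calc ∑ i : I, (S2 i).ncard * (Fintype.card K - 1)
          ≤ ∑ i : I, Nat.card L := Finset.sum_le_sum fun i _ => hb2 i
        _ = Fintype.card I * Nat.card L := by
              rw [Finset.sum_const, Finset.card_univ, smul_eq_mul]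
  refine (Nat.mul_le_mul_right _ hcount).trans (hfin.trans ?_)
  rw [Finset.sum_const, Finset.card_univ, Fintype.card_finset, smul_eq_mul]
  exact le_of_eq (by ring)

end Pool.Agent.KM
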