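import Pool.Agent.KM.Defs

set_option autoImplicit false
set_option linter.all false

open Function

namespace Pool.Agent.KM

section B

variable {K V W I : Type} [Field K] [AddCommGroup V] [Module K V] [AddCommGroup W] [Module K W]
  [Fintype I] [DecidableEq I] (β : V →ₗ[K] V →ₗ[K] W)

lemma b7_gen (D : Finset I) (x u : I → V) : gen β D x u = ∑ i ∈ D, β (x i) (u i) := by
  simp [gen, LinearMap.sum_apply]

variable [Fintype K] [Finite V] [Finite W]

/-! ### KM-B7 (file BPaths.lean) -/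

theorem NN_off (P : Finset I) (x y : I → V) (h : NN β P x y ≠ 0) : ∀ i ∉ P, x i = y i := by
  intro i hi
  obtain ⟨x', hx', hy⟩ := Set.nonempty_of_ncard_ne_zero h
  rw [← hy, Finset.piecewise_eq_of_notMem _ _ _ hi]

lemma b7_mem (hβ : ∀ a b, β a b = β b a) (P : Finset I) (x y x' : I → V)
    (h0 : gen β Finset.univ x x' = 0) (hy : P.piecewise x' x = y) :
    gen β Finset.univ y (P.piecewise x x') = 0 ∧ P.piecewise (P.piecewise x x') y = x := by
  subst hy
  refine ⟨?_, ?_⟩
  · rw [b7_gen] at h0 ⊢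
    rw [← h0]
    apply Finset.sum_congr rfl
    intro i _
    by_cases hi : i ∈ P
    · rw [Finset.piecewise_eq_of_mem _ _ _ hi, Finset.piecewise_eq_of_mem _ _ _ hi, hβ]
    · rw [Finset.piecewise_eq_of_notMem _ _ _ hi, Finset.piecewise_eq_of_notMem _ _ _ hi]
  · funext i
    by_cases hi : i ∈ P
    · rw [Finset.piecewise_eq_of_mem _ _ _ hi, Finset.piecewise_eq_of_mem _ _ _ hi]
    · rw [Finset.piecewise_eq_of_notMem _ _ _ hi, Finset.piecewise_eq_of_notMem _ _ _ hi]

lemma b7_le (hβ : ∀ a b, β a b = β b a) (P : Finset I) (x y : I → V) :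
    NN β P x y ≤ NN β P y x := by
  unfold NN
  apply Set.ncard_le_ncard_of_injOn (fun x' => P.piecewise x x')
  · rintro x' ⟨h0, hy⟩
    exact b7_mem β hβ P x y x' h0 hy
  · rintro x' ⟨h0, hy⟩ x'' ⟨h0', hy'⟩ h
    funext i
    by_cases hi : i ∈ P
    · have h1 := congrFun hy i
      have h2 := congrFun hy' i
      rw [Finset.piecewise_eq_of_mem _ _ _ hi] at h1 h2
      rw [h1, h2]
    · have h1 := congrFun h i
      simp only at h1
      rwa [Finset.piecewise_eq_of_notMem _ _ _ hi, Finset.piecewise_eq_of_notMem _ _ _ hi] at h1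

theorem NN_symm (hβ : ∀ a b, β a b = β b a) (P : Finset I) (x y : I → V) :
    NN β P x y = NN β P y x :=
  le_antisymm (b7_le β hβ P x y) (b7_le β hβ P y x)

/-- pairs of steps -/
abbrev B7A (P : Finset I) (x z : I → V) : Type :=
  {q : (I → V) × (I → V) // gen β Finset.univ x q.1 = 0 ∧
    gen β Finset.univ (P.piecewise q.1 x) q.2 = 0 ∧ P.piecewise q.2 (P.piecewise q.1 x) = z}

/-- the equivalence with the pairs of steps through `y` -/
def b7_sigma (P : Finset I) (x z : I → V) : B7A β P x z ≃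
    Σ y : I → V, ({x' : I → V | gen β Finset.univ x x' = 0 ∧ P.piecewise x' x = y} ×
      {y' : I → V | gen β Finset.univ y y' = 0 ∧ P.piecewise y' y = z}) where
  toFun q := ⟨P.piecewise q.1.1 x, ⟨q.1.1, q.2.1, rfl⟩, ⟨q.1.2, q.2.2.1, q.2.2.2⟩⟩
  invFun s := ⟨(s.2.1.1, s.2.2.1), s.2.1.2.1, by
    rw [s.2.1.2.2]; exact s.2.2.2.1, by rw [s.2.1.2.2]; exact s.2.2.2.2⟩
  left_inv q := rfl
  right_inv s := by
    obtain ⟨y, ⟨x', h1, h2⟩, ⟨y', h3, h4⟩⟩ := s
    subst h2
    rfl

lemma b7_Psi (P : Finset I) (x z u v : I → V) : Psi β P x z (u, v) =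
    (∑ i, β (x i) (u i), ∑ i ∈ P, β (z i) (u i) + ∑ i ∈ Pᶜ, β (z i) (v i)) := by
  simp [Psi, b7_gen]

lemma b7_second (hβ : ∀ a b, β a b = β b a) (P : Finset I) (x z u v : I → V)
    (hxz : ∀ i ∉ P, x i = z i) :
    gen β Finset.univ (P.piecewise u x) (P.piecewise z v) =
      ∑ i ∈ P, β (z i) (u i) + ∑ i ∈ Pᶜ, β (z i) (v i) := by
  rw [b7_gen, ← Finset.sum_add_sum_compl P]
  congr 1
  · apply Finset.sum_congr rfl
    intro i hi
    rw [Finset.piecewise_eq_of_mem _ _ _ hi, Finset.piecewise_eq_of_mem _ _ _ hi, hβ]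
  · apply Finset.sum_congr rfl
    intro i hi
    rw [Finset.mem_compl] at hi
    rw [Finset.piecewise_eq_of_notMem _ _ _ hi, Finset.piecewise_eq_of_notMem _ _ _ hi, hxz i hi]

/-- the equivalence with the kernel of `Psi` -/
def b7_ker (hβ : ∀ a b, β a b = β b a) (P : Finset I) (x z : I → V)
    (hxz : ∀ i ∉ P, x i = z i) :
    B7A β P x z × ({i // i ∈ P} → V) ≃ LinearMap.ker (Psi β P x z) where
  toFun q := ⟨(q.1.1.1, fun i => if h : i ∈ P then q.2 ⟨i, h⟩ else q.1.1.2 i), by
    obtain ⟨⟨⟨x', y'⟩, h1, h2, h3⟩, w⟩ := q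
    simp only at h1 h2 h3 ⊢
    rw [LinearMap.mem_ker, b7_Psi]
    have hy' : P.piecewise z (fun i => if h : i ∈ P then w ⟨i, h⟩ else y' i) = y' := by
      funext i
      by_cases hi : i ∈ P
      · have h4 := congrFun h3 i
        rw [Finset.piecewise_eq_of_mem _ _ _ hi] at h4
        rw [Finset.piecewise_eq_of_mem _ _ _ hi, ← h4]
      · rw [Finset.piecewise_eq_of_notMem _ _ _ hi, dif_neg hi]
    have h5 := b7_second β hβ P x z x' (fun i => if h : i ∈ P then w ⟨i, h⟩ else y' i) hxz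
    rw [hy', h2] at h5
    rw [← h5, ← b7_gen, h1]
    rfl⟩
  invFun s := (⟨(s.1.1, P.piecewise z s.1.2), by
    obtain ⟨⟨u, v⟩, hs⟩ := s
    rw [LinearMap.mem_ker, b7_Psi] at hs
    obtain ⟨h1, h2⟩ := Prod.mk.inj hs
    refine ⟨?_, ?_, ?_⟩
    · rw [b7_gen]; exact h1
    · rw [b7_second β hβ P x z u v hxz]; exact h2
    · funext i
      show P.piecewise (P.piecewise z v) (P.piecewise u x) i = z i
      by_cases hi : i ∈ P
      · rw [Finset.piecewise_eq_of_mem _ _ _ hi, Finset.piecewise_eq_of_mem _ _ _ hi]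
      · rw [Finset.piecewise_eq_of_notMem _ _ _ hi, Finset.piecewise_eq_of_notMem _ _ _ hi,
          hxz i hi]⟩, fun i => s.1.2 i.1)
  left_inv q := by
    obtain ⟨⟨⟨x', y'⟩, h1, h2, h3⟩, w⟩ := q
    simp only at h3
    apply Prod.ext
    · apply Subtype.ext
      apply Prod.ext
      · rfl
      · funext i
        by_cases hi : i ∈ P
        · have h4 := congrFun h3 i
          rw [Finset.piecewise_eq_of_mem _ _ _ hi] at h4
          simp only
          rw [Finset.piecewise_eq_of_mem _ _ _ hi, ← h4]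
        · simp only
          rw [Finset.piecewise_eq_of_notMem _ _ _ hi, dif_neg hi]
    · funext i
      simp only
      rw [dif_pos i.2]
  right_inv s := by
    apply Subtype.ext
    apply Prod.ext
    · rfl
    · funext i
      simp only
      by_cases hi : i ∈ P
      · rw [dif_pos hi]
      · rw [dif_neg hi, Finset.piecewise_eq_of_notMem _ _ _ hi]

/-- the number of two step paths between jointly generating `x`, `z` -/
theorem NN_joint [Fintype V] (hβ : ∀ a b, β a b = β b a) (P : Finset I) (x z : I → V)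
    (hxz : ∀ i ∉ P, x i = z i) (h : Surjective (Psi β P x z)) :
    (∑ y : I → V, NN β P x y * NN β P y z) * Nat.card V ^ P.card * Nat.card W ^ 2 =
      Nat.card V ^ (2 * Fintype.card I) := by
  have e1 : (∑ y : I → V, NN β P x y * NN β P y z) = Nat.card (B7A β P x z) := by
    rw [Nat.card_congr (b7_sigma β P x z), Nat.card_sigma]
    apply Finset.sum_congr rfl
    intro y _
    rw [Nat.card_prod]
    rfl
  have e2 : Nat.card (B7A β P x z) * Nat.card V ^ P.card
      = Nat.card (LinearMap.ker (Psi β P x z)) := by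
    rw [← Nat.card_congr (b7_ker β hβ P x z hxz), Nat.card_prod, Nat.card_fun,
      Nat.card_eq_fintype_card (α := {i // i ∈ P}), Fintype.card_coe]
  have e3 : Nat.card (LinearMap.ker (Psi β P x z)) * Nat.card (W × W)
      = Nat.card ((I → V) × (I → V)) := by
    have e4 := Nat.card_congr ((Psi β P x z).quotKerEquivOfSurjective h).toEquiv
    rw [← e4]
    exact (Submodule.card_eq_card_quotient_mul_card (LinearMap.ker (Psi β P x z))).symm ▸
      (by ring)
  rw [e1, e2]
  rw [Nat.card_prod, Nat.card_prod, Nat.card_fun, Nat.card_eq_fintype_card (α := I)] at e3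
  rw [pow_two, e3, two_mul, pow_add]

end B

end Pool.Agent.KM
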