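import Pool.Agent.KM.Defs

/-!
KM-B8: a spectral lemma for symmetric nonnegative kernels on a finite set.
-/

set_option autoImplicit false

namespace Pool.Agent.KM

/-- Schur test for a symmetric kernel. -/
theorem b8_schur {α : Type} (X : Finset α) (K : α → α → ℝ) (hK : ∀ a b, K a b = K b a) (ρ : ℝ)
    (hrow : ∀ a ∈ X, ∑ c ∈ X, |K a c| ≤ ρ) (V : α → ℝ) :
    ∑ a ∈ X, ∑ c ∈ X, K a c * V a * V c ≤ ρ * ∑ a ∈ X, V a ^ 2 := by
  have h1 : ∑ a ∈ X, ∑ c ∈ X, K a c * V a * V c ≤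
      ∑ a ∈ X, ∑ c ∈ X, (|K a c| * V a ^ 2 / 2 + |K a c| * V c ^ 2 / 2) := by
    refine Finset.sum_le_sum fun a _ => Finset.sum_le_sum fun c _ => ?_
    have h2 : K a c * V a * V c ≤ |K a c| * (|V a| * |V c|) := by
      calc K a c * V a * V c ≤ |K a c * V a * V c| := le_abs_self _
        _ = |K a c| * (|V a| * |V c|) := by rw [abs_mul, abs_mul, mul_assoc]
    have h3 : |V a| * |V c| ≤ (V a ^ 2 + V c ^ 2) / 2 := by
      nlinarith [sq_nonneg (|V a| - |V c|), sq_abs (V a), sq_abs (V c)]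
    nlinarith [abs_nonneg (K a c)]
  have h4 : ∑ a ∈ X, ∑ c ∈ X, |K a c| * V c ^ 2 / 2 = ∑ a ∈ X, ∑ c ∈ X, |K a c| * V a ^ 2 / 2 := by
    rw [Finset.sum_comm]
    refine Finset.sum_congr rfl fun a _ => Finset.sum_congr rfl fun c _ => ?_
    rw [hK c a]
  have h5 : ∑ a ∈ X, ∑ c ∈ X, (|K a c| * V a ^ 2 / 2 + |K a c| * V c ^ 2 / 2) =
      ∑ a ∈ X, V a ^ 2 * ∑ c ∈ X, |K a c| := by
    simp only [Finset.sum_add_distrib]
    rw [h4, ← Finset.sum_add_distrib]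
    refine Finset.sum_congr rfl fun a _ => ?_
    rw [← Finset.sum_add_distrib, Finset.mul_sum]
    refine Finset.sum_congr rfl fun c _ => ?_
    ring
  rw [h5] at h1
  refine h1.trans ?_
  rw [Finset.mul_sum]
  refine Finset.sum_le_sum fun a ha => ?_
  nlinarith [hrow a ha, sq_nonneg (V a)]

/-- spectral lemma on one fibre -/
theorem spectral {α : Type} (X : Finset α) (L : α → α → ℝ) (hL : ∀ a b, 0 ≤ L a b)
    (hs : ∀ a b, L a b = L b a) (κ θ ρ M₀ : ℝ) (hκ : 0 ≤ κ) (hθ : 0 < θ) (hρ : ρ ≤ θ ^ 2)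
    (hrow1 : ∀ a ∈ X, ∑ b ∈ X, L a b ≤ 1) (hrow : ∀ a ∈ X, 1 - κ ≤ ∑ b ∈ X, L a b)
    (hM : ∀ a ∈ X, ∑ c ∈ X, |(∑ b ∈ X, L a b * L b c) - M₀| ≤ ρ) (U : α → ℝ) :
    -(κ + θ) * ∑ a ∈ X, U a ^ 2 ≤ ∑ a ∈ X, ∑ b ∈ X, L a b * U a * U b := by
  rcases X.eq_empty_or_nonempty with rfl | hX
  · simp
  have hn : (0 : ℝ) < X.card := by exact_mod_cast hX.card_pos
  obtain ⟨m, hm⟩ : ∃ m : ℝ, m * X.card = ∑ a ∈ X, U a :=
    ⟨(∑ a ∈ X, U a) / X.card, by field_simp⟩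
  obtain ⟨V, hV⟩ : ∃ V : α → ℝ, ∀ a, U a = V a + m := ⟨fun a => U a - m, fun a => by ring⟩
  have hV0 : ∑ a ∈ X, V a = 0 := by
    have h1 : ∑ a ∈ X, U a = ∑ a ∈ X, V a + m * X.card := by
      simp only [hV, Finset.sum_add_distrib, Finset.sum_const, nsmul_eq_mul]
      ring
    linarith
  -- the norms
  have hnorm : ∑ a ∈ X, U a ^ 2 = ∑ a ∈ X, V a ^ 2 + ∑ a ∈ X, m ^ 2 := by
    have h1 : ∑ a ∈ X, U a ^ 2 = ∑ a ∈ X, V a ^ 2 + ∑ a ∈ X, m ^ 2 + 2 * m * ∑ a ∈ X, V a := by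
      rw [Finset.mul_sum, ← Finset.sum_add_distrib, ← Finset.sum_add_distrib]
      refine Finset.sum_congr rfl fun a _ => ?_
      rw [hV]
      ring
    rw [h1, hV0]
    ring
  -- the quadratic form
  have hquad : ∑ a ∈ X, ∑ b ∈ X, L a b * U a * U b =
      ∑ a ∈ X, ∑ b ∈ X, L a b * V a * V b + 2 * ∑ a ∈ X, (m * V a) * (∑ b ∈ X, L a b) +
        m ^ 2 * ∑ a ∈ X, ∑ b ∈ X, L a b := by
    have h1 : ∑ a ∈ X, ∑ b ∈ X, L a b * U a * U b =
        ∑ a ∈ X, ∑ b ∈ X, L a b * V a * V b + ∑ a ∈ X, ∑ b ∈ X, (m * V a) * L a b +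
          ∑ a ∈ X, ∑ b ∈ X, (m * V b) * L a b + ∑ a ∈ X, ∑ b ∈ X, m ^ 2 * L a b := by
      simp only [← Finset.sum_add_distrib]
      refine Finset.sum_congr rfl fun a _ => Finset.sum_congr rfl fun b _ => ?_
      rw [hV a, hV b]
      ring
    have h2 : ∑ a ∈ X, ∑ b ∈ X, (m * V b) * L a b = ∑ a ∈ X, ∑ b ∈ X, (m * V a) * L a b := by
      rw [Finset.sum_comm]
      refine Finset.sum_congr rfl fun a _ => Finset.sum_congr rfl fun b _ => ?_
      rw [hs b a]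
    have h3 : ∑ a ∈ X, (m * V a) * (∑ b ∈ X, L a b) = ∑ a ∈ X, ∑ b ∈ X, (m * V a) * L a b := by
      simp only [Finset.mul_sum]
    have h4 : m ^ 2 * ∑ a ∈ X, ∑ b ∈ X, L a b = ∑ a ∈ X, ∑ b ∈ X, m ^ 2 * L a b := by
      simp only [Finset.mul_sum]
    rw [h1, h2, h3, h4]
    ring
  -- the cross term
  have hcross : -κ * (∑ a ∈ X, V a ^ 2 + ∑ a ∈ X, m ^ 2) ≤
      2 * ∑ a ∈ X, (m * V a) * (∑ b ∈ X, L a b) := by
    have h1 : ∑ a ∈ X, (m * V a) * (∑ b ∈ X, L a b) =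
        ∑ a ∈ X, (m * V a) * ((∑ b ∈ X, L a b) - 1) + m * ∑ a ∈ X, V a := by
      rw [Finset.mul_sum, ← Finset.sum_add_distrib]
      refine Finset.sum_congr rfl fun a _ => ?_
      ring
    rw [h1, hV0, mul_zero, add_zero, ← Finset.sum_add_distrib, Finset.mul_sum, Finset.mul_sum]
    refine Finset.sum_le_sum fun a ha => ?_
    have h2 := hrow1 a ha
    have h3 := hrow a ha
    set t := 1 - ∑ b ∈ X, L a b with ht
    have h4 : ∑ b ∈ X, L a b - 1 = -t := by rw [ht]; ring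
    rw [h4]
    have h5 : 0 ≤ t := by linarith
    have h6 : t ≤ κ := by linarith
    nlinarith [mul_nonneg h5 (sq_nonneg (m - V a)),
      mul_nonneg (sub_nonneg.mpr h6) (add_nonneg (sq_nonneg (V a)) (sq_nonneg m))]
  -- the constant term
  have hconst : 0 ≤ m ^ 2 * ∑ a ∈ X, ∑ b ∈ X, L a b :=
    mul_nonneg (sq_nonneg m) (Finset.sum_nonneg fun a _ => Finset.sum_nonneg fun b _ => hL a b)
  -- the main term
  have hW : ∑ a ∈ X, (∑ b ∈ X, L a b * V b) ^ 2 ≤ θ ^ 2 * ∑ a ∈ X, V a ^ 2 := by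
    have h1 : ∑ a ∈ X, (∑ b ∈ X, L a b * V b) ^ 2 =
        ∑ b ∈ X, ∑ c ∈ X, (∑ a ∈ X, L b a * L a c) * V b * V c := by
      have h2 : ∀ a ∈ X, (∑ b ∈ X, L a b * V b) ^ 2 =
          ∑ b ∈ X, ∑ c ∈ X, L b a * L a c * V b * V c := by
        intro a _
        rw [sq, Finset.sum_mul_sum]
        refine Finset.sum_congr rfl fun b _ => Finset.sum_congr rfl fun c _ => ?_
        rw [hs b a]
        ring
      rw [Finset.sum_congr rfl h2, Finset.sum_comm]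
      refine Finset.sum_congr rfl fun b _ => ?_
      rw [Finset.sum_comm]
      refine Finset.sum_congr rfl fun c _ => ?_
      rw [Finset.sum_mul, Finset.sum_mul]
    have h3 : ∑ b ∈ X, ∑ c ∈ X, M₀ * V b * V c = 0 := by
      have : ∑ b ∈ X, ∑ c ∈ X, M₀ * V b * V c = M₀ * (∑ b ∈ X, V b) * ∑ c ∈ X, V c := by
        rw [mul_assoc, Finset.sum_mul_sum, Finset.mul_sum]
        refine Finset.sum_congr rfl fun b _ => ?_
        rw [Finset.mul_sum]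
        refine Finset.sum_congr rfl fun c _ => ?_
        ring
      rw [this, hV0]
      ring
    have h4 : ∑ b ∈ X, ∑ c ∈ X, (∑ a ∈ X, L b a * L a c) * V b * V c =
        ∑ b ∈ X, ∑ c ∈ X, ((∑ a ∈ X, L b a * L a c) - M₀) * V b * V c := by
      have : ∑ b ∈ X, ∑ c ∈ X, ((∑ a ∈ X, L b a * L a c) - M₀) * V b * V c =
          ∑ b ∈ X, ∑ c ∈ X, (∑ a ∈ X, L b a * L a c) * V b * V c -
            ∑ b ∈ X, ∑ c ∈ X, M₀ * V b * V c := by
        simp only [← Finset.sum_sub_distrib]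
        refine Finset.sum_congr rfl fun b _ => Finset.sum_congr rfl fun c _ => ?_
        ring
      rw [this, h3, sub_zero]
    rw [h1, h4]
    refine (b8_schur X (fun b c => (∑ a ∈ X, L b a * L a c) - M₀) ?_ ρ hM V).trans ?_
    · intro b c
      congr 1
      refine Finset.sum_congr rfl fun a _ => ?_
      rw [hs b a, hs a c]
      ring
    · exact mul_le_mul_of_nonneg_right hρ (Finset.sum_nonneg fun a _ => sq_nonneg _)
  have hmain : -θ * ∑ a ∈ X, V a ^ 2 ≤ ∑ a ∈ X, ∑ b ∈ X, L a b * V a * V b := by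
    have h1 : ∑ a ∈ X, ∑ b ∈ X, L a b * V a * V b = ∑ a ∈ X, V a * ∑ b ∈ X, L a b * V b := by
      refine Finset.sum_congr rfl fun a _ => ?_
      rw [Finset.mul_sum]
      refine Finset.sum_congr rfl fun b _ => ?_
      ring
    have h2 : ∑ a ∈ X, (-(θ ^ 2) * V a ^ 2 - (∑ b ∈ X, L a b * V b) ^ 2) ≤
        ∑ a ∈ X, 2 * θ * (V a * ∑ b ∈ X, L a b * V b) := by
      refine Finset.sum_le_sum fun a _ => ?_
      nlinarith [sq_nonneg (θ * V a + ∑ b ∈ X, L a b * V b)]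
    rw [Finset.sum_sub_distrib, ← Finset.mul_sum, ← Finset.mul_sum] at h2
    rw [h1]
    have h3 : 2 * θ * (-θ * ∑ a ∈ X, V a ^ 2) ≤
        2 * θ * ∑ a ∈ X, V a * ∑ b ∈ X, L a b * V b := by
      nlinarith
    exact le_of_mul_le_mul_left h3 (by positivity)
  have hm2 : 0 ≤ ∑ a ∈ X, m ^ 2 := Finset.sum_nonneg fun a _ => sq_nonneg _
  rw [hquad, hnorm]
  nlinarith [mul_nonneg hθ.le hm2]

end Pool.Agent.KM
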