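import Pool.Agent.KM.Defs
import Pool.Agent.KM.BKappa
import Pool.Agent.KM.BJoint
import Pool.Agent.KM.BPaths
import Pool.Agent.KM.BSpec

set_option autoImplicit false

/-!
KM-B9: the lower bound for one face `P` (project KM, MP_27fd67_ag).
-/

open Function

namespace Pool.Agent.KM

section B

variable {K V W I : Type} [Field K] [AddCommGroup V] [Module K V] [AddCommGroup W] [Module K W]
  [Fintype I] [DecidableEq I] (β : V →ₗ[K] V →ₗ[K] W)
variable [Fintype K] [Finite V] [Finite W]



omit [Fintype K] [Finite V] [Finite W] in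
open Classical in
theorem b9_NN_eq [Fintype V] (P : Finset I) (x y : I → V) : NN β P x y =
    ∑ x' : I → V, if gen β Finset.univ x x' = 0 ∧ P.piecewise x' x = y then 1 else 0 := by
  rw [NN, ← Finset.card_filter, ← Set.ncard_coe_finset]
  congr 1
  ext x'
  simp

omit [Fintype K] [Finite V] [Finite W] in
open Classical in
/-- The sum of a row over a set of targets. -/
theorem b9_row [Fintype V] (P : Finset I) (x : I → V) (T : Finset (I → V)) :
    ∑ y ∈ T, NN β P x y =
      {x' : I → V | gen β Finset.univ x x' = 0 ∧ P.piecewise x' x ∈ T}.ncard := by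
  have h1 : {x' : I → V | gen β Finset.univ x x' = 0 ∧ P.piecewise x' x ∈ T}.ncard =
      ∑ x' : I → V, if gen β Finset.univ x x' = 0 ∧ P.piecewise x' x ∈ T then 1 else 0 := by
    rw [← Finset.card_filter, ← Set.ncard_coe_finset]
    congr 1
    ext x'
    simp
  rw [h1]
  simp only [b9_NN_eq]
  rw [Finset.sum_comm]
  refine Finset.sum_congr rfl fun x' _ => ?_
  by_cases hx' : gen β Finset.univ x x' = 0
  · simp [hx']
  · simp [hx']

omit [Fintype K] [Finite V] [Finite W] in
open Classical in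
/-- The number of two step paths with given middle and end sets. -/
theorem b9_two [Fintype V] (P : Finset I) (x : I → V) (X Z : Finset (I → V)) :
    ∑ c ∈ Z, ∑ b ∈ X, NN β P x b * NN β P b c =
      {q : (I → V) × (I → V) | gen β Finset.univ x q.1 = 0 ∧ P.piecewise q.1 x ∈ X ∧
        gen β Finset.univ (P.piecewise q.1 x) q.2 = 0 ∧
        P.piecewise q.2 (P.piecewise q.1 x) ∈ Z}.ncard := by
  have h1 : {q : (I → V) × (I → V) | gen β Finset.univ x q.1 = 0 ∧ P.piecewise q.1 x ∈ X ∧
        gen β Finset.univ (P.piecewise q.1 x) q.2 = 0 ∧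
        P.piecewise q.2 (P.piecewise q.1 x) ∈ Z}.ncard =
      ∑ q : (I → V) × (I → V), if gen β Finset.univ x q.1 = 0 ∧ P.piecewise q.1 x ∈ X ∧
        gen β Finset.univ (P.piecewise q.1 x) q.2 = 0 ∧
        P.piecewise q.2 (P.piecewise q.1 x) ∈ Z then 1 else 0 := by
    rw [← Finset.card_filter, ← Set.ncard_coe_finset]
    congr 1
    ext x'
    simp
  rw [h1, Fintype.sum_prod_type, Finset.sum_comm]
  simp only [← Finset.mul_sum]
  simp only [b9_row]
  have h2 : ∀ b : I → V, {y' : I → V | gen β Finset.univ b y' = 0 ∧ P.piecewise y' b ∈ Z}.ncard =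
      ∑ y' : I → V, if gen β Finset.univ b y' = 0 ∧ P.piecewise y' b ∈ Z then 1 else 0 := by
    intro b
    rw [← Finset.card_filter, ← Set.ncard_coe_finset]
    congr 1
    ext x'
    simp
  simp only [h2, b9_NN_eq, Finset.sum_mul]
  rw [Finset.sum_comm]
  refine Finset.sum_congr rfl fun x' _ => ?_
  by_cases hx' : gen β Finset.univ x x' = 0
  · by_cases hX : P.piecewise x' x ∈ X
    · rw [Finset.sum_eq_single (P.piecewise x' x)]
      · simp [hx', hX]
      · intro b _ hb
        rw [if_neg (fun h => hb h.2.symm), zero_mul]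
      · intro h
        exact absurd hX h
    · rw [Finset.sum_eq_zero]
      · simp [hX]
      · intro b hb
        have hne : ¬ (gen β Finset.univ x x' = 0 ∧ P.piecewise x' x = b) := by
          rintro ⟨-, h⟩
          rw [h] at hX
          exact hX hb
        rw [if_neg hne, zero_mul]
  · simp [hx']

open Classical in
/-- lower bound on one fibre -/
theorem b9_fibre [Fintype V] (hβ : ∀ a b, β a b = β b a) {s : ℕ} (hs1 : 1 ≤ s)
    (hs : 2 * s + 1 ≤ Fintype.card I) (P : Finset I) (N₁ κ θ : ℝ)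
    (hκ : κ * (Fintype.card K - 1) =
      2 ^ Fintype.card I * (2 ^ Fintype.card I * Module.finrank K W + Fintype.card I))
    (hθ : 0 < θ) (hθκ : 2 * κ + 8 * Module.finrank K W / (Fintype.card K - 1) ≤ θ ^ 2)
    (hN₁ : N₁ * Nat.card W = Nat.card V ^ Fintype.card I) (c : I → V)
    (U : (I → V) → ℝ) :
    -(κ + θ) * ∑ x ∈ Finset.univ.filter (fun x : I → V => Good β s x ∧ ∀ i ∉ P, x i = c i),
        U x ^ 2 ≤
      ∑ x ∈ Finset.univ.filter (fun x : I → V => Good β s x ∧ ∀ i ∉ P, x i = c i),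
        ∑ y ∈ Finset.univ.filter (fun x : I → V => Good β s x ∧ ∀ i ∉ P, x i = c i),
          ((NN β P x y : ℝ) / N₁) * U x * U y := by
  have hq : (0 : ℝ) < (Fintype.card K : ℝ) - 1 := by
    have : 1 < Fintype.card K := Fintype.one_lt_card
    have h2 : (1 : ℝ) < (Fintype.card K : ℝ) := by exact_mod_cast this
    linarith
  have hκ0 : 0 ≤ κ := by
    have h1 : 0 ≤ κ * ((Fintype.card K : ℝ) - 1) := by rw [hκ]; positivity
    exact nonneg_of_mul_nonneg_left h1 hq
  have hV : (0 : ℝ) < Nat.card V := by exact_mod_cast Nat.card_pos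
  have hW : (0 : ℝ) < Nat.card W := by exact_mod_cast Nat.card_pos
  have hN0 : 0 < N₁ := by
    have h1 : 0 < N₁ * Nat.card W := by rw [hN₁]; positivity
    exact (mul_pos_iff_of_pos_right hW).1 h1
  have hqn : ((Fintype.card K - 1 : ℕ) : ℝ) = (Fintype.card K : ℝ) - 1 := by
    rw [Nat.cast_sub Fintype.card_pos]
    simp
  set X := Finset.univ.filter (fun x : I → V => Good β s x ∧ ∀ i ∉ P, x i = c i) with hX
  have hgood : ∀ a ∈ X, Good β s a := fun a ha => (Finset.mem_filter.1 ha).2.1
  have hoff : ∀ a ∈ X, ∀ i ∉ P, a i = c i := fun a ha => (Finset.mem_filter.1 ha).2.2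
  have hker : ∀ a ∈ X, ((Nat.card (LinearMap.ker (gen β Finset.univ a)) : ℕ) : ℝ) = N₁ := by
    intro a ha
    have h1 := card_syz β (s := s) (by omega) a (hgood a ha)
    have h2 : ((Nat.card (LinearMap.ker (gen β Finset.univ a)) : ℕ) : ℝ) * Nat.card W =
        N₁ * Nat.card W := by
      rw [hN₁]
      exact_mod_cast h1
    exact mul_right_cancel₀ hW.ne' h2
  have hkerset : ∀ a : I → V, {x' : I → V | gen β Finset.univ a x' = 0}.ncard =
      Nat.card (LinearMap.ker (gen β Finset.univ a)) := by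
    intro a
    rfl
  -- row sums are at most one
  have hrowle : ∀ a ∈ X, ∀ T : Finset (I → V), ∑ b ∈ T, ((NN β P a b : ℝ) / N₁) ≤ 1 := by
    intro a ha T
    rw [← Finset.sum_div, div_le_one hN0, ← hker a ha, ← hkerset]
    have h1 := b9_row β P a T
    have h2 : {x' : I → V | gen β Finset.univ a x' = 0 ∧ P.piecewise x' a ∈ T}.ncard ≤
        {x' : I → V | gen β Finset.univ a x' = 0}.ncard :=
      Set.ncard_le_ncard (fun x' hx' => hx'.1) (Set.toFinite _)
    rw [← h1] at h2
    exact_mod_cast h2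
  -- row sums are at least `1 - κ`
  have hrowge : ∀ a ∈ X, 1 - κ ≤ ∑ b ∈ X, ((NN β P a b : ℝ) / N₁) := by
    intro a ha
    rw [← Finset.sum_div, le_div_iff₀ hN0]
    have h1 := b9_row β P a X
    have h2 := kappa β hβ hs1 hs a (hgood a ha)
    have h3 : {x' : I → V | gen β Finset.univ a x' = 0}.ncard ≤
        {x' : I → V | gen β Finset.univ a x' = 0 ∧ P.piecewise x' a ∈ X}.ncard +
        {x' : I → V | gen β Finset.univ a x' = 0 ∧
          ∃ P : Finset I, ¬ Good β s (P.piecewise x' a)}.ncard := by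
      refine le_trans (Set.ncard_le_ncard ?_ (Set.toFinite _)) (Set.ncard_union_le _ _)
      intro x' hx'
      by_cases hb : ∃ P : Finset I, ¬ Good β s (P.piecewise x' a)
      · exact Or.inr ⟨hx', hb⟩
      · left
        push Not at hb
        refine ⟨hx', ?_⟩
        rw [hX, Finset.mem_filter]
        refine ⟨Finset.mem_univ _, hb P, fun i hi => ?_⟩
        rw [Finset.piecewise_eq_of_notMem _ _ _ hi]
        exact hoff a ha i hi
    rw [hkerset, ← h1] at h3
    have h3' : N₁ ≤ (∑ b ∈ X, (NN β P a b : ℝ)) +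
        ({x' : I → V | gen β Finset.univ a x' = 0 ∧
          ∃ P : Finset I, ¬ Good β s (P.piecewise x' a)}.ncard : ℝ) := by
      rw [← hker a ha]
      exact_mod_cast h3
    have h2' : ({x' : I → V | gen β Finset.univ a x' = 0 ∧
          ∃ P : Finset I, ¬ Good β s (P.piecewise x' a)}.ncard : ℝ) * (Fintype.card K - 1) ≤
        (κ * (Fintype.card K - 1)) * N₁ := by
      rw [hκ, ← hker a ha, ← hqn]
      exact_mod_cast h2
    have h4 : ({x' : I → V | gen β Finset.univ a x' = 0 ∧
          ∃ P : Finset I, ¬ Good β s (P.piecewise x' a)}.ncard : ℝ) ≤ κ * N₁ := by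
      have h5 : (κ * ((Fintype.card K : ℝ) - 1)) * N₁ = (κ * N₁) * ((Fintype.card K : ℝ) - 1) := by
        ring
      rw [h5] at h2'
      exact le_of_mul_le_mul_right h2' hq
    linarith
  have hXcard : (X.card : ℝ) ≤ (Nat.card V : ℝ) ^ P.card := by
    have h1 : X.card ≤ Fintype.card (P → V) := by
      rw [← Finset.card_univ]
      refine Finset.card_le_card_of_injOn (fun x i => x i) (fun _ _ => Finset.mem_univ _) ?_
      intro x hx y hy hxy
      funext i
      by_cases hi : i ∈ P
      · exact congrFun hxy ⟨i, hi⟩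
      · rw [hoff x hx i hi, hoff y hy i hi]
    rw [Fintype.card_fun, Fintype.card_coe, ← Nat.card_eq_fintype_card] at h1
    exact_mod_cast h1
  refine spectral X (fun x y => (NN β P x y : ℝ) / N₁) (fun a b => by positivity)
    (fun a b => by simp only [NN_symm β hβ P a b]) κ θ
    (2 * κ + 8 * Module.finrank K W / (Fintype.card K - 1)) (1 / (Nat.card V : ℝ) ^ P.card)
    hκ0 hθ hθκ (fun a ha => hrowle a ha X) hrowge ?_ U
  intro a ha
  set q2 : (I → V) → ℝ := fun d =>
    ∑ b ∈ X, ((NN β P a b : ℝ) / N₁) * ((NN β P b d : ℝ) / N₁) with hq2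
  have hq20 : ∀ d, 0 ≤ q2 d := fun d => Finset.sum_nonneg fun b _ => by positivity
  have hM0 : 0 ≤ 1 / (Nat.card V : ℝ) ^ P.card := by positivity
  -- two step paths between jointly generating tuples
  have hJG : ∀ d ∈ X, Surjective (Psi β P a d) → q2 d ≤ 1 / (Nat.card V : ℝ) ^ P.card := by
    intro d hd hsur
    have h1 := NN_joint β hβ P a d (fun i hi => by rw [hoff a ha i hi, hoff d hd i hi]) hsur
    have h2 : q2 d ≤ (∑ y : I → V, (NN β P a y : ℝ) * NN β P y d) / N₁ ^ 2 := by
      rw [hq2, Finset.sum_div]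
      have h3 : ∀ b, ((NN β P a b : ℝ) / N₁) * ((NN β P b d : ℝ) / N₁) =
          (NN β P a b : ℝ) * NN β P b d / N₁ ^ 2 := by
        intro b
        field_simp
      simp only [h3]
      exact Finset.sum_le_univ_sum_of_nonneg fun b => by positivity
    refine h2.trans (le_of_eq ?_)
    have h4 : (∑ y : I → V, (NN β P a y : ℝ) * NN β P y d) * (Nat.card V : ℝ) ^ P.card *
        (Nat.card W : ℝ) ^ 2 = (N₁ * Nat.card W) ^ 2 := by
      rw [hN₁, ← pow_mul, mul_comm (Fintype.card I) 2]
      exact_mod_cast h1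
    have h5 : (∑ y : I → V, (NN β P a y : ℝ) * NN β P y d) * (Nat.card V : ℝ) ^ P.card =
        N₁ ^ 2 := by
      have h6 : ((∑ y : I → V, (NN β P a y : ℝ) * NN β P y d) * (Nat.card V : ℝ) ^ P.card) *
        (Nat.card W : ℝ) ^ 2 = N₁ ^ 2 * (Nat.card W : ℝ) ^ 2 := by rw [h4]; ring
      exact mul_right_cancel₀ (pow_ne_zero 2 hW.ne') h6
    rw [div_eq_div_iff (by positivity) (by positivity), one_mul]
    exact h5
  have hpt : ∀ d ∈ X, |q2 d - 1 / (Nat.card V : ℝ) ^ P.card| ≤
      (1 / (Nat.card V : ℝ) ^ P.card - q2 d) +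
        2 * (if ¬ Surjective (Psi β P a d) then q2 d else 0) := by
    intro d hd
    by_cases hsur : Surjective (Psi β P a d)
    · rw [if_neg (not_not.2 hsur), abs_le]
      have := hJG d hd hsur
      constructor <;> linarith
    · rw [if_pos hsur, abs_le]
      have := hq20 d
      constructor <;> linarith
  refine (Finset.sum_le_sum hpt).trans ?_
  rw [Finset.sum_add_distrib, ← Finset.mul_sum]
  -- first part
  have hA : ∑ d ∈ X, (1 / (Nat.card V : ℝ) ^ P.card - q2 d) ≤ 2 * κ := by
    rw [Finset.sum_sub_distrib, Finset.sum_const, nsmul_eq_mul]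
    have h1 : (X.card : ℝ) * (1 / (Nat.card V : ℝ) ^ P.card) ≤ 1 := by
      rw [mul_one_div, div_le_one (by positivity)]
      exact hXcard
    have h2 : ∑ d ∈ X, q2 d = ∑ b ∈ X, ((NN β P a b : ℝ) / N₁) *
        ∑ d ∈ X, ((NN β P b d : ℝ) / N₁) := by
      rw [hq2, Finset.sum_comm]
      simp only [Finset.mul_sum]
    rcases le_total κ 1 with hk | hk
    · have h3 : (1 - κ) * (1 - κ) ≤ ∑ d ∈ X, q2 d := by
        rw [h2]
        have h4 : (∑ b ∈ X, ((NN β P a b : ℝ) / N₁)) * (1 - κ) ≤
            ∑ b ∈ X, ((NN β P a b : ℝ) / N₁) * ∑ d ∈ X, ((NN β P b d : ℝ) / N₁) := by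
          rw [Finset.sum_mul]
          exact Finset.sum_le_sum fun b hb =>
            mul_le_mul_of_nonneg_left (hrowge b hb) (by positivity)
        refine le_trans ?_ h4
        exact mul_le_mul_of_nonneg_right (hrowge a ha) (by linarith)
      nlinarith
    · have h3 : 0 ≤ ∑ d ∈ X, q2 d := Finset.sum_nonneg fun d _ => hq20 d
      linarith
  -- second part
  have hB : ∑ d ∈ X, (if ¬ Surjective (Psi β P a d) then q2 d else 0) ≤
      4 * Module.finrank K W / (Fintype.card K - 1) := by
    rw [← Finset.sum_filter]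
    have h1 := b9_two β P a X (X.filter fun d => ¬ Surjective (Psi β P a d))
    have h2 := nonjoint β hβ hs1 hs P a (hgood a ha)
    have h3 : {q : (I → V) × (I → V) | gen β Finset.univ a q.1 = 0 ∧ P.piecewise q.1 a ∈ X ∧
        gen β Finset.univ (P.piecewise q.1 a) q.2 = 0 ∧
        P.piecewise q.2 (P.piecewise q.1 a) ∈
          (X.filter fun d => ¬ Surjective (Psi β P a d))}.ncard ≤
        {q : (I → V) × (I → V) | gen β Finset.univ a q.1 = 0 ∧ Good β s (P.piecewise q.1 a) ∧
        gen β Finset.univ (P.piecewise q.1 a) q.2 = 0 ∧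
        ¬ Surjective (Psi β P a (P.piecewise q.2 (P.piecewise q.1 a)))}.ncard := by
      refine Set.ncard_le_ncard ?_ (Set.toFinite _)
      rintro q ⟨e1, e2, e3, e4⟩
      exact ⟨e1, hgood _ e2, e3, (Finset.mem_filter.1 e4).2⟩
    rw [← h1] at h3
    have h4 : (∑ d ∈ X.filter (fun d => ¬ Surjective (Psi β P a d)), ∑ b ∈ X,
        (NN β P a b : ℝ) * NN β P b d) * (Fintype.card K - 1) ≤
        4 * Module.finrank K W * N₁ ^ 2 := by
      rw [← hker a ha, ← hqn]
      have h5 := (Nat.mul_le_mul_right (Fintype.card K - 1) h3).trans h2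
      exact_mod_cast h5
    have h6 : ∑ d ∈ X.filter (fun d => ¬ Surjective (Psi β P a d)), q2 d =
        (∑ d ∈ X.filter (fun d => ¬ Surjective (Psi β P a d)), ∑ b ∈ X,
        (NN β P a b : ℝ) * NN β P b d) / N₁ ^ 2 := by
      rw [hq2, Finset.sum_div]
      refine Finset.sum_congr rfl fun d _ => ?_
      rw [Finset.sum_div]
      refine Finset.sum_congr rfl fun b _ => ?_
      field_simp
    rw [h6, div_le_div_iff₀ (by positivity) hq]
    exact h4
  have hC : (8 * Module.finrank K W / ((Fintype.card K : ℝ) - 1)) =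
      2 * (4 * Module.finrank K W / ((Fintype.card K : ℝ) - 1)) := by ring
  rw [hC]
  linarith

/-- lower bound for one face `P` (all constants explicit) -/
theorem face_bound [Fintype V] (hβ : ∀ a b, β a b = β b a) {s : ℕ} (hs1 : 1 ≤ s)
    (hs : 2 * s + 1 ≤ Fintype.card I) (P : Finset I) (hP : P.Nonempty) (N₁ κ θ : ℝ)
    (hκ : κ * (Fintype.card K - 1) =
      2 ^ Fintype.card I * (2 ^ Fintype.card I * Module.finrank K W + Fintype.card I))
    (hθ : 0 < θ) (hθκ : 2 * κ + 8 * Module.finrank K W / (Fintype.card K - 1) ≤ θ ^ 2)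
    (hN₁ : N₁ * Nat.card W = Nat.card V ^ Fintype.card I)
    (U : (I → V) → ℝ) (hU : ∀ x, ¬ Good β s x → U x = 0) :
    -(κ + θ) * N₁ * ∑ x, U x ^ 2 ≤ ∑ x, ∑ y, (NN β P x y : ℝ) * U x * U y := by
  classical
  have hV : (0 : ℝ) < Nat.card V := by exact_mod_cast Nat.card_pos
  have hW : (0 : ℝ) < Nat.card W := by exact_mod_cast Nat.card_pos
  have hN0 : 0 < N₁ := by
    have h1 : 0 < N₁ * Nat.card W := by rw [hN₁]; positivity
    exact (mul_pos_iff_of_pos_right hW).1 h1
  set π : (I → V) → (I → V) := fun x => P.piecewise 0 x with hπ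
  have hπiff : ∀ x c : I → V, π x = π c ↔ ∀ i ∉ P, x i = c i := by
    intro x c
    constructor
    · intro h i hi
      have h1 := congrFun h i
      simpa only [hπ, Finset.piecewise_eq_of_notMem _ _ _ hi] using h1
    · intro h
      funext i
      by_cases hi : i ∈ P
      · simp only [hπ, Finset.piecewise_eq_of_mem _ _ _ hi]
      · simp only [hπ, Finset.piecewise_eq_of_notMem _ _ _ hi]
        exact h i hi
  have hππ : ∀ x, π (π x) = π x := by
    intro x
    rw [hπiff]
    intro i hi
    simp only [hπ, Finset.piecewise_eq_of_notMem _ _ _ hi]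
  set X : (I → V) → Finset (I → V) := fun c =>
    Finset.univ.filter (fun x : I → V => Good β s x ∧ ∀ i ∉ P, x i = c i) with hX
  have key := fun c => b9_fibre β hβ hs1 hs P N₁ κ θ hκ hθ hθκ hN₁ c U
  set J := Finset.univ.image π with hJ
  have hsum : ∀ f : (I → V) → ℝ, (∀ x, ¬ Good β s x → f x = 0) →
      ∑ x, f x = ∑ c ∈ J, ∑ x ∈ X c, f x := by
    intro f hf
    rw [← Finset.sum_fiberwise_of_maps_to (s := Finset.univ) (t := J) (g := π)
      (fun x _ => Finset.mem_image_of_mem _ (Finset.mem_univ _))]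
    refine Finset.sum_congr rfl fun c hc => ?_
    obtain ⟨c', -, rfl⟩ := Finset.mem_image.1 hc
    symm
    refine Finset.sum_subset ?_ ?_
    · intro x hx
      rw [Finset.mem_filter] at hx ⊢
      refine ⟨Finset.mem_univ _, ?_⟩
      rw [← hππ c', hπiff]
      exact hx.2.2
    · intro x hx hx'
      apply hf
      intro hg
      apply hx'
      rw [Finset.mem_filter] at hx ⊢
      refine ⟨Finset.mem_univ _, hg, ?_⟩
      rw [← hπiff, hππ]
      exact hx.2
  have h1 : ∑ x, U x ^ 2 = ∑ c ∈ J, ∑ x ∈ X c, U x ^ 2 :=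
    hsum _ fun x hx => by rw [hU x hx]; ring
  have h2 : ∑ x, ∑ y, (NN β P x y : ℝ) * U x * U y =
      ∑ c ∈ J, ∑ x ∈ X c, ∑ y ∈ X c, (NN β P x y : ℝ) * U x * U y := by
    rw [hsum _ fun x hx => by simp [hU x hx]]
    refine Finset.sum_congr rfl fun c _ => Finset.sum_congr rfl fun x hx => ?_
    symm
    refine Finset.sum_subset (Finset.subset_univ _) ?_
    intro y _ hy
    by_cases hyg : Good β s y
    · have h3 : NN β P x y = 0 := by
        by_contra h4
        apply hy
        have h5 := NN_off β P x y h4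
        rw [Finset.mem_filter] at hx ⊢
        exact ⟨Finset.mem_univ _, hyg, fun i hi => by rw [← h5 i hi]; exact hx.2.2 i hi⟩
      rw [h3]
      simp
    · rw [hU y hyg, mul_zero]
  rw [h1, h2, Finset.mul_sum]
  refine Finset.sum_le_sum fun c _ => ?_
  have h3 := mul_le_mul_of_nonneg_left (key c) hN0.le
  have h4 : ∑ x ∈ X c, ∑ y ∈ X c, (NN β P x y : ℝ) * U x * U y =
      N₁ * ∑ x ∈ X c, ∑ y ∈ X c, ((NN β P x y : ℝ) / N₁) * U x * U y := by
    rw [Finset.mul_sum]
    refine Finset.sum_congr rfl fun x _ => ?_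
    rw [Finset.mul_sum]
    refine Finset.sum_congr rfl fun y _ => ?_
    field_simp
  rw [h4]
  refine le_trans (le_of_eq ?_) h3
  ring

end B

end Pool.Agent.KM
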