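import Pool.Agent.KM.BKappa
import Pool.Agent.KM.BLap

/-!
Project KM, row KM-B10: the base theorem over finite fields.
-/

set_option autoImplicit false

open Function

namespace Pool.Agent.KM

section base

variable {K V W I : Type} [Field K] [AddCommGroup V] [Module K V] [AddCommGroup W] [Module K W]
  [Fintype I] [DecidableEq I] (β : V →ₗ[K] V →ₗ[K] W)

/-- Exchange of the two families on `P`. -/
def bb_swap {V I : Type} [DecidableEq I] (P : Finset I) (q : (I → V) × (I → V)) :
    (I → V) × (I → V) :=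
  (P.piecewise q.2 q.1, P.piecewise q.1 q.2)

theorem bb_swap_swap {V I : Type} [DecidableEq I] (P : Finset I) (q : (I → V) × (I → V)) :
    bb_swap P (bb_swap P q) = q := by
  apply Prod.ext <;> funext i <;> by_cases h : i ∈ P <;> simp [bb_swap, h]

theorem bb_face {V I : Type} [DecidableEq I] (P Q : Finset I) (q : (I → V) × (I → V)) :
    Q.piecewise (bb_swap P q).2 (bb_swap P q).1 = (symmDiff Q P).piecewise q.2 q.1 := by
  funext i
  by_cases h : i ∈ P <;> by_cases h' : i ∈ Q <;>
    simp [bb_swap, h, h', Finset.mem_symmDiff, Finset.piecewise]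

theorem bb_gen (hβ : ∀ a b, β a b = β b a) (P : Finset I) (q : (I → V) × (I → V)) :
    gen β Finset.univ (bb_swap P q).1 (bb_swap P q).2 = gen β Finset.univ q.1 q.2 := by
  simp only [gen, LinearMap.sum_apply, LinearMap.comp_apply, LinearMap.proj_apply]
  apply Finset.sum_congr rfl
  intro i _
  by_cases h : i ∈ P
  · simp [bb_swap, h, hβ (q.2 i) (q.1 i)]
  · simp [bb_swap, h]

/-- The sum over all pairs `x, x'` with a property. -/
theorem bb_sum_pair [Fintype V] (p : (I → V) × (I → V) → Prop) [DecidablePred p]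
    (f : (I → V) × (I → V) → ℝ) :
    ∑ q ∈ Finset.univ.filter p, f q =
      ∑ x : I → V, ∑ x' ∈ Finset.univ.filter (fun x' => p (x, x')), f (x, x') := by
  rw [Finset.sum_filter, Fintype.sum_prod_type]
  apply Finset.sum_congr rfl
  intro x _
  rw [Finset.sum_filter]

theorem bb_NN [Fintype V] (P : Finset I) (x : I → V) (U : (I → V) → ℝ)
    [DecidablePred fun x' : I → V => gen β Finset.univ x x' = 0] :
    ∑ x' ∈ Finset.univ.filter (fun x' => gen β Finset.univ x x' = 0),
      U x * U (P.piecewise x' x) = ∑ y, (NN β P x y : ℝ) * U x * U y := by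
  classical
  rw [← Finset.sum_fiberwise (Finset.univ.filter (fun x' => gen β Finset.univ x x' = 0))
    (fun x' => P.piecewise x' x)]
  apply Finset.sum_congr rfl
  intro y _
  have h1 : ∀ x' ∈ (Finset.univ.filter (fun x' => gen β Finset.univ x x' = 0)).filter
      (fun x' => P.piecewise x' x = y), U x * U (P.piecewise x' x) = U x * U y := by
    intro x' hx'
    rw [(Finset.mem_filter.1 hx').2]
  rw [Finset.sum_congr rfl h1, Finset.sum_const, nsmul_eq_mul]
  have h2 : NN β P x y = ((Finset.univ.filter (fun x' => gen β Finset.univ x x' = 0)).filter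
      (fun x' => P.piecewise x' x = y)).card := by
    unfold NN
    rw [← Set.ncard_coe_finset]
    congr 1
    ext x'
    simp
  rw [h2]
  ring

/-- The main estimate. -/
theorem bb_main [Fintype K] [Fintype V] [Finite W] (hβ : ∀ a b, β a b = β b a) {s : ℕ}
    (hs1 : 1 ≤ s) (hs : 2 * s + 1 ≤ Fintype.card I) (N₁ κ θ : ℝ)
    (hκ : κ * (Fintype.card K - 1) =
      2 ^ Fintype.card I * (2 ^ Fintype.card I * Module.finrank K W + Fintype.card I))
    (hθ : 0 < θ) (hθκ : 2 * κ + 8 * Module.finrank K W / (Fintype.card K - 1) ≤ θ ^ 2)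
    (hN₁ : N₁ * Nat.card W = Nat.card V ^ Fintype.card I)
    (hlt : κ + 2 ^ Fintype.card I * (2 * κ + θ) < 1)
    (U : (I → V) → ℝ) (hU : ∀ x, ¬ Good β s x → U x = 0)
    (hrel : ∀ x x' : I → V, gen β Finset.univ x x' = 0 →
          (∀ P : Finset I, Good β s (P.piecewise x' x)) →
          ∑ P : Finset I, U (P.piecewise x' x) = 0) (x : I → V) : U x = 0 := by
  classical
  have hq1 : (0 : ℝ) < Fintype.card K - 1 := by
    have : 1 < Fintype.card K := Fintype.one_lt_card
    have : (1 : ℝ) < Fintype.card K := by exact_mod_cast this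
    linarith
  have hκ0 : 0 ≤ κ := by
    by_contra hneg
    push Not at hneg
    have h1 : κ * (Fintype.card K - 1) < 0 := mul_neg_of_neg_of_pos hneg hq1
    rw [hκ] at h1
    have : (0 : ℝ) ≤ 2 ^ Fintype.card I * (2 ^ Fintype.card I * Module.finrank K W +
      Fintype.card I) := by positivity
    linarith
  have hW : (0 : ℝ) < Nat.card W := by
    have : 0 < Nat.card W := Nat.card_pos
    exact_mod_cast this
  have hV : (0 : ℝ) < Nat.card V := by
    have : 0 < Nat.card V := Nat.card_pos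
    exact_mod_cast this
  have hN0 : 0 < N₁ := by
    have h1 : 0 < N₁ * Nat.card W := by rw [hN₁]; positivity
    exact pos_of_mul_pos_left h1 hW.le
  -- the number of syzygies of a good family
  have hker : ∀ x : I → V, Nat.card (LinearMap.ker (gen β Finset.univ x)) =
      (Finset.univ.filter (fun x' => gen β Finset.univ x x' = 0)).card := by
    intro x
    rw [Nat.card_eq_fintype_card, ← Fintype.card_subtype]
    exact Fintype.card_congr (Equiv.refl _)
  have hsyz : ∀ x : I → V, Good β s x →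
      ((Finset.univ.filter (fun x' => gen β Finset.univ x x' = 0)).card : ℝ) = N₁ := by
    intro x hx
    have h1 := card_syz β (show s ≤ Fintype.card I by omega) x hx
    rw [hker] at h1
    have h2 : ((Finset.univ.filter (fun x' => gen β Finset.univ x x' = 0)).card : ℝ) *
        Nat.card W = Nat.card V ^ Fintype.card I := by exact_mod_cast h1
    rw [← hN₁] at h2
    exact mul_right_cancel₀ hW.ne' h2
  -- the number of bad syzygies of a good family
  have hbad : ∀ x : I → V, Good β s x →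
      ((Finset.univ.filter (fun x' => gen β Finset.univ x x' = 0 ∧
        ∃ P : Finset I, ¬ Good β s (P.piecewise x' x))).card : ℝ) ≤ κ * N₁ := by
    intro x hx
    have h1 := kappa β hβ hs1 hs x hx
    have h2 : {x' : I → V | gen β Finset.univ x x' = 0 ∧
        ∃ P : Finset I, ¬ Good β s (P.piecewise x' x)}.ncard =
        (Finset.univ.filter (fun x' => gen β Finset.univ x x' = 0 ∧
        ∃ P : Finset I, ¬ Good β s (P.piecewise x' x))).card := by
      rw [← Set.ncard_coe_finset]
      congr 1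
      ext x'
      simp
    rw [h2, hker] at h1
    have h3 : ((Finset.univ.filter (fun x' => gen β Finset.univ x x' = 0 ∧
        ∃ P : Finset I, ¬ Good β s (P.piecewise x' x))).card : ℝ) * (Fintype.card K - 1) ≤
        (2 ^ Fintype.card I * (2 ^ Fintype.card I * Module.finrank K W + Fintype.card I)) *
        ((Finset.univ.filter (fun x' => gen β Finset.univ x x' = 0)).card : ℝ) := by
      have h4 : ((Fintype.card K - 1 : ℕ) : ℝ) = (Fintype.card K : ℝ) - 1 := by
        rw [Nat.cast_sub Fintype.card_pos]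
        simp
      rw [← h4]
      exact_mod_cast h1
    rw [hsyz x hx, ← hκ] at h3
    have h5 : κ * ((Fintype.card K : ℝ) - 1) * N₁ = κ * N₁ * (Fintype.card K - 1) := by ring
    rw [h5] at h3
    exact le_of_mul_le_mul_right h3 hq1
  -- the frames
  set Fr : Finset ((I → V) × (I → V)) :=
    Finset.univ.filter (fun q => gen β Finset.univ q.1 q.2 = 0) with hFr
  set Bd : Finset ((I → V) × (I → V)) :=
    Finset.univ.filter (fun q => gen β Finset.univ q.1 q.2 = 0 ∧
      ∃ P : Finset I, ¬ Good β s (P.piecewise q.2 q.1)) with hBd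
  set G : Finset ((I → V) × (I → V)) :=
    Finset.univ.filter (fun q => gen β Finset.univ q.1 q.2 = 0 ∧
      ∀ P : Finset I, Good β s (P.piecewise q.2 q.1)) with hG
  set X : ℝ := ∑ x, U x ^ 2 with hX
  have hX0 : 0 ≤ X := Finset.sum_nonneg fun x _ => sq_nonneg _
  have hsplit : ∀ f : (I → V) × (I → V) → ℝ, ∑ q ∈ Fr, f q = ∑ q ∈ G, f q + ∑ q ∈ Bd, f q := by
    intro f
    rw [← Finset.sum_filter_add_sum_filter_not Fr
      (fun q => ∀ P : Finset I, Good β s (P.piecewise q.2 q.1)) f]
    congr 1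
    · apply Finset.sum_congr _ (fun _ _ => rfl)
      ext q
      simp [hFr, hG]
    · apply Finset.sum_congr _ (fun _ _ => rfl)
      ext q
      simp [hFr, hBd]
  -- the sum of squares over all frames
  have hFrU : ∑ q ∈ Fr, U q.1 ^ 2 = N₁ * X := by
    rw [hFr, bb_sum_pair, hX, Finset.mul_sum]
    apply Finset.sum_congr rfl
    intro x _
    dsimp only
    rw [Finset.sum_const, nsmul_eq_mul]
    by_cases hx : Good β s x
    · rw [hsyz x hx]
    · rw [hU x hx]; simp
  set E : ℝ := ∑ q ∈ Bd, U q.1 ^ 2 with hE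
  have hE1 : E ≤ κ * N₁ * X := by
    rw [hE, hBd, bb_sum_pair, hX, Finset.mul_sum]
    apply Finset.sum_le_sum
    intro x _
    dsimp only
    rw [Finset.sum_const, nsmul_eq_mul]
    by_cases hx : Good β s x
    · exact mul_le_mul_of_nonneg_right (hbad x hx) (sq_nonneg _)
    · rw [hU x hx]; simp
  -- invariance of the bad frames
  have hswap : ∀ P : Finset I, ∑ q ∈ Bd, U (P.piecewise q.2 q.1) ^ 2 = E := by
    intro P
    rw [hE]
    refine Finset.sum_nbij' (bb_swap P) (bb_swap P) ?_ ?_ ?_ ?_ ?_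
    · intro q hq
      rw [hBd, Finset.mem_filter] at hq ⊢
      obtain ⟨-, h1, Q, hQ⟩ := hq
      refine ⟨Finset.mem_univ _, by rw [bb_gen β hβ]; exact h1, symmDiff Q P, ?_⟩
      rw [bb_face, symmDiff_symmDiff_cancel_right]
      exact hQ
    · intro q hq
      rw [hBd, Finset.mem_filter] at hq ⊢
      obtain ⟨-, h1, Q, hQ⟩ := hq
      refine ⟨Finset.mem_univ _, by rw [bb_gen β hβ]; exact h1, symmDiff Q P, ?_⟩
      rw [bb_face, symmDiff_symmDiff_cancel_right]
      exact hQ
    · intro q _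
      exact bb_swap_swap P q
    · intro q _
      exact bb_swap_swap P q
    · intro q _
      rfl
  have hcross : ∀ P : Finset I, ∑ q ∈ Bd, U q.1 * U (P.piecewise q.2 q.1) ≤ E := by
    intro P
    have h1 : ∑ q ∈ Bd, U q.1 * U (P.piecewise q.2 q.1) ≤
        ∑ q ∈ Bd, (U q.1 ^ 2 / 2 + U (P.piecewise q.2 q.1) ^ 2 / 2) := by
      apply Finset.sum_le_sum
      intro q _
      nlinarith [sq_nonneg (U q.1 - U (P.piecewise q.2 q.1))]
    rw [Finset.sum_add_distrib, ← Finset.sum_div, ← Finset.sum_div, hswap P, ← hE] at h1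
    linarith
  -- the relation
  have hzero : ∑ P : Finset I, ∑ q ∈ G, U q.1 * U (P.piecewise q.2 q.1) = 0 := by
    rw [Finset.sum_comm]
    apply Finset.sum_eq_zero
    intro q hq
    rw [hG, Finset.mem_filter] at hq
    rw [← Finset.mul_sum, hrel q.1 q.2 hq.2.1 hq.2.2, mul_zero]
  have hSP : ∀ P : Finset I, P ≠ ∅ → -((2 * κ + θ) * (N₁ * X)) ≤
      ∑ q ∈ G, U q.1 * U (P.piecewise q.2 q.1) := by
    intro P hP
    have h1 := hsplit (fun q => U q.1 * U (P.piecewise q.2 q.1))
    have h2 : ∑ q ∈ Fr, U q.1 * U (P.piecewise q.2 q.1) =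
        ∑ x, ∑ y, (NN β P x y : ℝ) * U x * U y := by
      rw [hFr, bb_sum_pair]
      apply Finset.sum_congr rfl
      intro x _
      exact bb_NN β P x U
    have h3 := face_bound β hβ hs1 hs P (Finset.nonempty_iff_ne_empty.2 hP) N₁ κ θ hκ hθ hθκ
      hN₁ U hU
    have h4 := hcross P
    rw [h2] at h1
    rw [← hX] at h3
    have h5 : ∑ q ∈ G, U q.1 * U (P.piecewise q.2 q.1) =
        ∑ x, ∑ y, (NN β P x y : ℝ) * U x * U y -
          ∑ q ∈ Bd, U q.1 * U (P.piecewise q.2 q.1) := by linarith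
    rw [h5]
    nlinarith
  have hS0 : (1 - κ) * (N₁ * X) ≤ ∑ q ∈ G, U q.1 * U ((∅ : Finset I).piecewise q.2 q.1) := by
    have h1 := hsplit (fun q => U q.1 * U ((∅ : Finset I).piecewise q.2 q.1))
    have h2 : ∑ q ∈ Fr, U q.1 * U ((∅ : Finset I).piecewise q.2 q.1) = N₁ * X := by
      rw [← hFrU]
      apply Finset.sum_congr rfl
      intro q _
      rw [Finset.piecewise_empty]
      ring
    have h4 := hcross ∅
    rw [h2] at h1
    nlinarith
  have htot := Finset.add_sum_erase Finset.univ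
    (fun P : Finset I => ∑ q ∈ G, U q.1 * U (P.piecewise q.2 q.1)) (Finset.mem_univ ∅)
  rw [hzero] at htot
  have hrest : -(2 ^ Fintype.card I * ((2 * κ + θ) * (N₁ * X))) ≤
      ∑ P ∈ Finset.univ.erase (∅ : Finset I), ∑ q ∈ G, U q.1 * U (P.piecewise q.2 q.1) := by
    have h1 : ∑ P ∈ Finset.univ.erase (∅ : Finset I), -((2 * κ + θ) * (N₁ * X)) ≤
        ∑ P ∈ Finset.univ.erase (∅ : Finset I), ∑ q ∈ G, U q.1 * U (P.piecewise q.2 q.1) := by
      apply Finset.sum_le_sum
      intro P hP
      exact hSP P (Finset.ne_of_mem_erase hP)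
    rw [Finset.sum_const, nsmul_eq_mul] at h1
    have h2 : ((Finset.univ.erase (∅ : Finset I)).card : ℝ) ≤ 2 ^ Fintype.card I := by
      have : (Finset.univ.erase (∅ : Finset I)).card ≤ 2 ^ Fintype.card I := by
        refine (Finset.card_erase_le).trans ?_
        rw [Finset.card_univ, Fintype.card_finset]
      exact_mod_cast this
    have h3 : 0 ≤ (2 * κ + θ) * (N₁ * X) := by positivity
    have h4 := mul_le_mul_of_nonneg_right h2 h3
    linarith
  have hfin : N₁ * X ≤ 0 := by
    by_contra hpos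
    push Not at hpos
    have h1 : 0 < (1 - (κ + 2 ^ Fintype.card I * (2 * κ + θ))) * (N₁ * X) :=
      mul_pos (by linarith) hpos
    have h2 : (1 - (κ + 2 ^ Fintype.card I * (2 * κ + θ))) * (N₁ * X) =
      (1 - κ) * (N₁ * X) - 2 ^ Fintype.card I * ((2 * κ + θ) * (N₁ * X)) := by ring
    linarith
  have hXz : X = 0 := by
    rcases hX0.lt_or_eq with h | h
    · exact absurd (mul_pos hN0 h) (not_lt.2 hfin)
    · exact h.symm
  rw [hX, Finset.sum_eq_zero_iff_of_nonneg (fun x _ => sq_nonneg _)] at hXz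
  exact pow_eq_zero_iff (two_ne_zero) |>.1 (hXz x (Finset.mem_univ _))

end base

theorem base_thm (n s w : ℕ) (hs1 : 1 ≤ s) (hs : 2 * s + 1 ≤ n) : ∃ q₀ : ℕ,
    ∀ (K V W I : Type) [Field K] [Fintype K] [AddCommGroup V] [Module K V] [Finite V]
      [AddCommGroup W] [Module K W] [Finite W] [Fintype I] [DecidableEq I]
      (β : V →ₗ[K] V →ₗ[K] W), (∀ a b, β a b = β b a) → Module.finrank K W = w →
      Fintype.card I = n → q₀ ≤ Fintype.card K →
      ∀ U : (I → V) → ℝ, (∀ x, ¬ Good β s x → U x = 0) →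
        (∀ x x' : I → V, gen β Finset.univ x x' = 0 →
          (∀ P : Finset I, Good β s (P.piecewise x' x)) →
          ∑ P : Finset I, U (P.piecewise x' x) = 0) →
        ∀ x, U x = 0 := by
  classical
  set C : ℕ := 2 ^ n * (2 ^ n * w + n) with hC
  refine ⟨(2 * C + 8 * w) * 4 ^ (n + 2) + 2, ?_⟩
  intro K V W I _ _ _ _ _ _ _ _ _ _ β hβ hw hn hq U hU hrel x
  have : Fintype V := Fintype.ofFinite V
  have hqR : ((2 * (C : ℝ) + 8 * w) * 4 ^ (n + 2) + 2) ≤ Fintype.card K := by exact_mod_cast hq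
  have hq1 : (0 : ℝ) < Fintype.card K - 1 := by
    have : (0 : ℝ) ≤ (2 * (C : ℝ) + 8 * w) * 4 ^ (n + 2) := by positivity
    linarith
  have hW : (0 : ℝ) < Nat.card W := by
    have : 0 < Nat.card W := Nat.card_pos
    exact_mod_cast this
  have h4 : (0 : ℝ) < 4 ^ (n + 2) := by positivity
  have hsmall : (2 * (C : ℝ) + 8 * w) / (Fintype.card K - 1) ≤ 1 / 4 ^ (n + 2) := by
    rw [div_le_div_iff₀ hq1 h4, one_mul]
    linarith
  have hκs : (C : ℝ) / (Fintype.card K - 1) ≤ 1 / 4 ^ (n + 2) / 2 := by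
    have h5 : (2 * (C : ℝ) + 8 * w) / (Fintype.card K - 1) =
        2 * (C / (Fintype.card K - 1)) + 8 * w / (Fintype.card K - 1) := by ring
    rw [h5] at hsmall
    have h6 : 0 ≤ 8 * (w : ℝ) / (Fintype.card K - 1) := by positivity
    linarith
  have h24 : (4 : ℝ) ^ (n + 2) = 2 ^ (n + 2) * 2 ^ (n + 2) := by
    rw [← mul_pow]; norm_num
  have h2n : (2 : ℝ) ^ (n + 2) = 4 * 2 ^ n := by rw [pow_add]; ring
  have hp : (1 : ℝ) ≤ 2 ^ n := one_le_pow₀ (by norm_num)
  refine bb_main β hβ hs1 (by omega) ((Nat.card V : ℝ) ^ Fintype.card I / Nat.card W)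
    ((C : ℝ) / (Fintype.card K - 1)) (1 / 2 ^ (n + 2)) ?_ (by positivity) ?_
    (div_mul_cancel₀ _ hW.ne') ?_ U hU hrel x
  · rw [div_mul_cancel₀ _ hq1.ne', hn, hw, hC]
    push_cast
    ring
  · rw [hw]
    have h5 : 2 * ((C : ℝ) / (Fintype.card K - 1)) + 8 * w / (Fintype.card K - 1) =
      (2 * (C : ℝ) + 8 * w) / (Fintype.card K - 1) := by ring
    rw [h5, div_pow, one_pow, ← pow_mul, mul_comm (n + 2) 2, pow_mul]
    norm_num at hsmall ⊢
    exact hsmall
  · rw [hn]
    set κ : ℝ := (C : ℝ) / (Fintype.card K - 1) with hκ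
    have h6 : (2 : ℝ) ^ n * (1 / 2 ^ (n + 2)) = 1 / 4 := by
      rw [h2n]; field_simp
    have h7 : 1 / (4 : ℝ) ^ (n + 2) / 2 = 1 / (32 * (2 ^ n * 2 ^ n)) := by
      rw [h24, h2n]; field_simp; norm_num
    rw [h7] at hκs
    have h8 : 2 ^ n * κ ≤ 1 / 32 := by
      calc 2 ^ n * κ ≤ 2 ^ n * (1 / (32 * (2 ^ n * 2 ^ n))) :=
            mul_le_mul_of_nonneg_left hκs (by positivity)
        _ = 1 / (32 * 2 ^ n) := by field_simp
        _ ≤ 1 / 32 := by
            apply one_div_le_one_div_of_le (by norm_num)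
            linarith
    have hκ0 : 0 ≤ κ := by positivity
    have h9 : κ ≤ 2 ^ n * κ := le_mul_of_one_le_left hκ0 hp
    have h10 : 2 ^ n * (2 * κ + 1 / 2 ^ (n + 2)) = 2 * (2 ^ n * κ) + 1 / 4 := by
      rw [mul_add, h6]; ring
    rw [h10]
    linarith

end Pool.Agent.KM
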