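import Pool.Agent.KM.FDefs

/-!
Project KM3, row F15: leaves of the stripping lemma (elements in general position).
-/

set_option autoImplicit false

open Function

namespace Pool.Agent.KM

section B
variable {k F : Type} [Field k] [Field F] [Algebra k F]

/-- elements in general position: generation modulo some of them -/
theorem leaf_span {Λ : Type} [DecidableEq Λ] (E : Submodule k F) (e : Λ → F) (d d' j₀ : ℕ)
    (hj : 1 ≤ j₀) (hG : GPos E e d j₀) (H : Finset Λ) (z : Fin (d' + 1) → Λ) (hz : Injective z)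
    (hzH : ∀ i, z i ∉ H) (hcard : H.card + d' = d) (N : ℕ) (hN : j₀ ≤ N) :
    E ^ N ≤ Submodule.span k (e '' H) * E ^ (N - 1) ⊔
      Submodule.span k (Set.range (e ∘ z)) ^ (N - j₀) * E ^ j₀ := by
  set Z : Submodule k F := Submodule.span k (Set.range (e ∘ z)) with hZ
  have hZE : Z ≤ E := by
    rw [hZ, Submodule.span_le]
    rintro _ ⟨i, rfl⟩
    exact hG.1 _
  induction N, hN using Nat.le_induction with
  | base =>
    rw [Nat.sub_self, pow_zero, one_mul]
    exact le_sup_right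
  | succ N hN ih =>
    have hR : (H ∪ Finset.univ.image z).card = d + 1 := by
      rw [Finset.card_union_of_disjoint, Finset.card_image_of_injective _ hz, Finset.card_univ,
        Fintype.card_fin]
      · omega
      · rw [Finset.disjoint_left]
        intro x hx hx'
        obtain ⟨i, _, rfl⟩ := Finset.mem_image.1 hx'
        exact hzH i hx
    have h1 := hG.2 _ hR N hN
    have h2 : Submodule.span k (e '' ((H ∪ Finset.univ.image z : Finset Λ) : Set Λ)) =
        Submodule.span k (e '' (H : Set Λ)) ⊔ Z := by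
      rw [hZ, ← Submodule.span_union, Finset.coe_union, Set.image_union, Finset.coe_image,
        Finset.coe_univ, Set.image_univ, Set.range_comp]
    rw [h2, Submodule.sup_mul] at h1
    refine h1.trans (sup_le ?_ ?_)
    · rw [Nat.add_sub_cancel]
      exact le_sup_left
    · have h3 : Z * E ^ N ≤ Z * (Submodule.span k (e '' (H : Set Λ)) * E ^ (N - 1) ⊔
          Z ^ (N - j₀) * E ^ j₀) := mul_le_mul' le_rfl ih
      refine h3.trans ?_
      rw [Submodule.mul_sup]
      refine sup_le_sup ?_ ?_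
      · rw [← mul_assoc, mul_comm Z, mul_assoc, Nat.add_sub_cancel]
        refine mul_le_mul' le_rfl ?_
        calc Z * E ^ (N - 1) ≤ E * E ^ (N - 1) := mul_le_mul' hZE le_rfl
          _ = E ^ N := by rw [← pow_succ', Nat.sub_add_cancel (hj.trans hN)]
      · rw [← mul_assoc, ← pow_succ', Nat.succ_sub hN]

/-- leaves with `|H| ≥ d + 1` -/
theorem leaf_big {Λ : Type} (E : Submodule k F) (e : Λ → F) (d j₀ : ℕ)
    (hG : GPos E e d j₀) (H : Finset Λ) (hH : d + 1 ≤ H.card) (N : ℕ) (hN : j₀ + 1 ≤ N) :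
    E ^ N ≤ Submodule.span k (e '' H) * E ^ (N - 1) := by
  obtain ⟨R, hRH, hR⟩ := Finset.exists_subset_card_eq hH
  obtain ⟨j, rfl⟩ : ∃ j, N = j + 1 := ⟨N - 1, by omega⟩
  refine (hG.2 R hR j (by omega)).trans ?_
  rw [Nat.add_sub_cancel]
  exact mul_le_mul' (Submodule.span_mono (Set.image_mono hRH)) le_rfl

private theorem blf_choose {Λ : Type} [Fintype Λ] [DecidableEq Λ] (H : Finset Λ) (d' : ℕ)
    (h : H.card + d' + 1 ≤ Fintype.card Λ) :
    ∃ z : Fin (d' + 1) → Λ, Injective z ∧ ∀ i, z i ∉ H := by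
  have h1 : d' + 1 ≤ (Hᶜ : Finset Λ).card := by
    rw [Finset.card_compl]; omega
  obtain ⟨R, hRH, hR⟩ := Finset.exists_subset_card_eq h1
  let f := R.equivFinOfCardEq hR
  refine ⟨fun i => (f.symm i : Λ), ?_, ?_⟩
  · intro i j hij
    exact f.symm.injective (Subtype.ext hij)
  · intro i
    exact Finset.mem_compl.1 (hRH (f.symm i).2)

/-- leaves with `1 ≤ |H| ≤ d` -/
theorem leaf_mid {Λ : Type} [Fintype Λ] [DecidableEq Λ] (E : Submodule k F) (e : Λ → F)
    (d j₀ m a b : ℕ) (hj : 1 ≤ j₀) (hG : GPos E e d j₀) (hΛ : d + 1 ≤ Fintype.card Λ)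
    (H : Finset Λ) (hH : H.card ≤ d) (hP : PGat k F (d - H.card) m a b) :
    ∃ (ζ : F) (t : Fin m → F), ζ ∈ E ∧ (∀ i, t i ∈ E ^ b) ∧ ∀ N, j₀ + 2 * b ≤ N + a → j₀ + b ≤ N →
      E ^ N ≤ Submodule.span k (e '' H) * E ^ (N - 1) ⊔
        (Submodule.span k {ζ ^ b} ⊔ Submodule.span k (Set.range t)) * E ^ (N - b) := by
  obtain ⟨z, hz, hzH⟩ := blf_choose H (d - H.card) (by omega)
  obtain ⟨j, t, ht, hgen⟩ := hP (e ∘ z)
  have hZE : Submodule.span k (Set.range (e ∘ z)) ≤ E := by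
    rw [Submodule.span_le]
    rintro _ ⟨i, rfl⟩
    exact hG.1 _
  refine ⟨e (z j), t, hG.1 _, fun i => pow_le_pow_left₀ bot_le hZE b (ht i), ?_⟩
  intro N h1 h2
  refine (leaf_span E e d (d - H.card) j₀ hj hG H z hz hzH (by omega) N (by omega)).trans ?_
  refine sup_le_sup le_rfl ?_
  have h3 := hgen (N - j₀) (by omega)
  calc Submodule.span k (Set.range (e ∘ z)) ^ (N - j₀) * E ^ j₀
      ≤ ((Submodule.span k {(e ∘ z) j ^ b} ⊔ Submodule.span k (Set.range t)) *
          Submodule.span k (Set.range (e ∘ z)) ^ (N - j₀ - b)) * E ^ j₀ :=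
        mul_le_mul' h3 le_rfl
    _ ≤ ((Submodule.span k {(e ∘ z) j ^ b} ⊔ Submodule.span k (Set.range t)) *
          E ^ (N - j₀ - b)) * E ^ j₀ :=
        mul_le_mul' (mul_le_mul' le_rfl (pow_le_pow_left₀ bot_le hZE _)) le_rfl
    _ = (Submodule.span k {(e ∘ z) j ^ b} ⊔ Submodule.span k (Set.range t)) * E ^ (N - b) := by
        rw [mul_assoc, ← pow_add]
        congr 2
        omega

/-- the leaf with `H = ∅` -/
theorem leaf_top {Λ : Type} [Fintype Λ] [DecidableEq Λ] (E : Submodule k F) (e : Λ → F)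
    (d j₀ m a θ : ℕ) (hj : 1 ≤ j₀) (hG : GPos E e d j₀) (hΛ : d + 1 ≤ Fintype.card Λ)
    (hP : PSat k F d m a θ) :
    ∃ (ζ : F) (t : Fin m → F) (α α' β' : F), ζ ∈ E ∧ (∀ i, t i ∈ E ^ (2 * θ)) ∧ α ∈ E ^ θ ∧
      α' ∈ E ^ θ ∧ β' ∈ E ^ θ ∧ ∀ N, j₀ + 4 * θ ≤ N + a → j₀ + 2 * θ ≤ N →
      E ^ N ≤ (Submodule.span k {α * α', α * β', ζ ^ (2 * θ)} ⊔
        Submodule.span k (Set.range t)) * E ^ (N - 2 * θ) := by
  obtain ⟨z, hz, hzH⟩ := blf_choose (∅ : Finset Λ) d (by simpa using hΛ)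
  obtain ⟨j, t, α, α', β', ht, hα, hα', hβ', hgen⟩ := hP (e ∘ z)
  have hZE : Submodule.span k (Set.range (e ∘ z)) ≤ E := by
    rw [Submodule.span_le]
    rintro _ ⟨i, rfl⟩
    exact hG.1 _
  refine ⟨e (z j), t, α, α', β', hG.1 _, fun i => pow_le_pow_left₀ bot_le hZE _ (ht i),
    pow_le_pow_left₀ bot_le hZE _ hα, pow_le_pow_left₀ bot_le hZE _ hα',
    pow_le_pow_left₀ bot_le hZE _ hβ', ?_⟩
  intro N h1 h2
  have h0 := leaf_span E e d d j₀ hj hG ∅ z hz hzH (by simp) N (by omega)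
  rw [Finset.coe_empty, Set.image_empty, Submodule.span_empty, Submodule.bot_mul, bot_sup_eq] at h0
  refine h0.trans ?_
  have h3 := hgen (N - j₀) (by omega)
  calc Submodule.span k (Set.range (e ∘ z)) ^ (N - j₀) * E ^ j₀
      ≤ ((Submodule.span k {α * α', α * β', (e ∘ z) j ^ (2 * θ)} ⊔
            Submodule.span k (Set.range t)) *
          Submodule.span k (Set.range (e ∘ z)) ^ (N - j₀ - 2 * θ)) * E ^ j₀ :=
        mul_le_mul' h3 le_rfl
    _ ≤ ((Submodule.span k {α * α', α * β', (e ∘ z) j ^ (2 * θ)} ⊔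
            Submodule.span k (Set.range t)) * E ^ (N - j₀ - 2 * θ)) * E ^ j₀ :=
        mul_le_mul' (mul_le_mul' le_rfl (pow_le_pow_left₀ bot_le hZE _)) le_rfl
    _ = (Submodule.span k {α * α', α * β', (e ∘ z) j ^ (2 * θ)} ⊔
            Submodule.span k (Set.range t)) * E ^ (N - 2 * θ) := by
        rw [mul_assoc, ← pow_add]
        congr 2
        omega

end B

end Pool.Agent.KM
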