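import Pool.Agent.KM.FDefs

/-!
Project KM3 (MP_27fd67_ag), row F14: the stripping lemma (helper40).
-/

set_option autoImplicit false
set_option linter.all false

open Function

namespace Pool.Agent.KM

section B
variable {k F : Type} [Field k] [Field F] [Algebra k F]

/-- the step -/
theorem f14_step (E XB XC XS p q : Submodule k F) (hp : p ≤ E) (M' b' : ℕ)
    (h1 : E ^ (M' + b' + 2) ≤ XB * E ^ (M' + 2) ⊔ XC * E ^ (M' + 1) ⊔
      (p ⊔ XS) * E ^ (M' + b' + 1))
    (h2 : E ^ (M' + b' + 1) ≤ (q ⊔ XB) * E ^ (M' + 1) ⊔ XC * E ^ M' ⊔ XS * E ^ (M' + b')) :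
    E ^ (M' + b' + 2) ≤ XB * E ^ (M' + 2) ⊔ (p * q ⊔ XC) * E ^ (M' + 1) ⊔
      XS * E ^ (M' + b' + 1) := by
  have e1 : p * (XB * E ^ (M' + 1)) ≤ XB * E ^ (M' + 2) := by
    calc p * (XB * E ^ (M' + 1)) = XB * (p * E ^ (M' + 1)) := by ring
      _ ≤ XB * (E * E ^ (M' + 1)) := mul_le_mul_right (mul_le_mul_left hp _) _
      _ = XB * E ^ (M' + 2) := by ring
  have e2 : p * (XC * E ^ M') ≤ XC * E ^ (M' + 1) := by
    calc p * (XC * E ^ M') = XC * (p * E ^ M') := by ring
      _ ≤ XC * (E * E ^ M') := mul_le_mul_right (mul_le_mul_left hp _) _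
      _ = XC * E ^ (M' + 1) := by ring
  have e3 : p * (XS * E ^ (M' + b')) ≤ XS * E ^ (M' + b' + 1) := by
    calc p * (XS * E ^ (M' + b')) = XS * (p * E ^ (M' + b')) := by ring
      _ ≤ XS * (E * E ^ (M' + b')) := mul_le_mul_right (mul_le_mul_left hp _) _
      _ = XS * E ^ (M' + b' + 1) := by ring
  have e4 : p * E ^ (M' + b' + 1) ≤ XB * E ^ (M' + 2) ⊔ (p * q ⊔ XC) * E ^ (M' + 1) ⊔
      XS * E ^ (M' + b' + 1) := by
    calc p * E ^ (M' + b' + 1) ≤ p * ((q ⊔ XB) * E ^ (M' + 1) ⊔ XC * E ^ M' ⊔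
          XS * E ^ (M' + b')) := mul_le_mul_right h2 _
      _ = p * q * E ^ (M' + 1) ⊔ p * (XB * E ^ (M' + 1)) ⊔ p * (XC * E ^ M') ⊔
          p * (XS * E ^ (M' + b')) := by
          simp only [← Submodule.add_eq_sup]
          ring
      _ ≤ _ := by
          refine sup_le (sup_le (sup_le ?_ ?_) ?_) ?_
          · exact le_sup_of_le_left (le_sup_of_le_right (mul_le_mul_left le_sup_left _))
          · exact le_sup_of_le_left (le_sup_of_le_left e1)
          · exact le_sup_of_le_left (le_sup_of_le_right (e2.trans (mul_le_mul_left le_sup_right _)))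
          · exact le_sup_of_le_right e3
  refine h1.trans (sup_le (sup_le ?_ ?_) ?_)
  · exact le_sup_of_le_left le_sup_left
  · exact le_sup_of_le_left (le_sup_of_le_right (mul_le_mul_left le_sup_right _))
  · rw [Submodule.sup_mul]
    exact sup_le e4 le_sup_right

/-- the stripping lemma -/
theorem strip {Δ Λ : Type} [Fintype Δ] [DecidableEq Δ] (E : Submodule k F) (e : Λ → F)
    (he : ∀ h, e h ∈ E) (f : Δ → Λ) (ξ : Δ → F) (b' N : ℕ) (hN : b' + 1 + Fintype.card Δ ≤ N)
    (hleaf : ∀ S : Finset Δ, E ^ (N - Sᶜ.card) ≤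
      Submodule.span k (ξ '' (Sᶜ : Finset Δ)) * E ^ (N - Sᶜ.card - b') ⊔
        Submodule.span k ((fun δ => e (f δ)) '' S) * E ^ (N - Sᶜ.card - 1)) :
    E ^ N ≤ Submodule.span k (Set.range fun δ => e (f δ) * ξ δ) * E ^ (N - b' - 1) := by
  have key : ∀ C S : Finset Δ, Disjoint S C → E ^ (N - (S ∪ C)ᶜ.card) ≤
      Submodule.span k (ξ '' ((S ∪ C)ᶜ : Finset Δ)) * E ^ (N - (S ∪ C)ᶜ.card - b') ⊔
        Submodule.span k ((fun δ => e (f δ) * ξ δ) '' C) * E ^ (N - (S ∪ C)ᶜ.card - b' - 1) ⊔
        Submodule.span k ((fun δ => e (f δ)) '' S) * E ^ (N - (S ∪ C)ᶜ.card - 1) := by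
    intro C
    induction C using Finset.induction_on with
    | empty =>
      intro S _
      rw [Finset.union_empty]
      refine (hleaf S).trans (sup_le ?_ le_sup_right)
      exact le_sup_of_le_left le_sup_left
    | @insert δ C hδ ih =>
      intro S hS
      have hδS : δ ∉ S := fun h => Finset.disjoint_left.1 hS h (Finset.mem_insert_self _ _)
      have hSC : Disjoint S C := hS.mono_right (Finset.subset_insert _ _)
      have hSC' : Disjoint (insert δ S) C := by
        rw [Finset.disjoint_insert_left]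
        exact ⟨hδ, hSC⟩
      have h1 := ih (insert δ S) hSC'
      have h2 := ih S hSC
      have s1 : insert δ S ∪ C = S ∪ insert δ C := by
        rw [Finset.insert_union, Finset.union_insert]
      have s2 : (S ∪ C)ᶜ = insert δ (S ∪ insert δ C)ᶜ := by
        ext a
        simp only [Finset.mem_compl, Finset.mem_union, Finset.mem_insert, not_or]
        by_cases ha : a = δ
        · subst ha; simp [hδ, hδS]
        · simp [ha]
      have hnot : δ ∉ (S ∪ insert δ C)ᶜ := by simp
      have hcard : (S ∪ C)ᶜ.card = (S ∪ insert δ C)ᶜ.card + 1 := by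
        rw [s2, Finset.card_insert_of_notMem hnot]
      have hle : (S ∪ C)ᶜ.card ≤ Fintype.card Δ := Finset.card_le_univ _
      rw [s1] at h1
      obtain ⟨M', hM'⟩ : ∃ M', N - (S ∪ insert δ C)ᶜ.card = M' + b' + 2 :=
        ⟨N - (S ∪ insert δ C)ᶜ.card - b' - 2, by omega⟩
      have g0 : N - (S ∪ C)ᶜ.card = M' + b' + 1 := by omega
      rw [hM'] at h1 ⊢
      rw [g0, s2] at h2
      have g1 : M' + b' + 2 - b' = M' + 2 := by omega
      have g2 : M' + b' + 2 - b' - 1 = M' + 1 := by omega
      have g3 : M' + b' + 2 - 1 = M' + b' + 1 := by omega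
      have g4 : M' + b' + 1 - b' = M' + 1 := by omega
      have g5 : M' + b' + 1 - b' - 1 = M' := by omega
      have g6 : M' + b' + 1 - 1 = M' + b' := by omega
      rw [g2, g1, g3, Finset.coe_insert, Set.image_insert_eq, Submodule.span_insert] at h1
      rw [g5, g4, g6, Finset.coe_insert, Set.image_insert_eq, Submodule.span_insert] at h2
      rw [g2, g1, g3, Finset.coe_insert, Set.image_insert_eq, Submodule.span_insert]
      have g7 : Submodule.span k {e (f δ) * ξ δ} =
          Submodule.span k {e (f δ)} * Submodule.span k {ξ δ} := by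
        rw [Submodule.span_mul_span, Set.singleton_mul_singleton]
      rw [g7]
      refine f14_step E _ _ _ _ _ ?_ M' b' h1 h2
      rw [Submodule.span_singleton_le_iff_mem]
      exact he _
  have h1 := key Finset.univ ∅ (Finset.disjoint_empty_left _)
  simpa using h1

end B

end Pool.Agent.KM
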