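import Pool.Agent.KM.BLine

/-!
Project KM, row G3: common surjective members of finitely many linear families.
-/

set_option autoImplicit false
set_option linter.all false

open Function

namespace Pool.Agent.KM

/-- finitely many conditions which hold on cofinite parts of lines have a common solution -/
theorem g3_common {k X ν : Type} [Field k] [Infinite k] [AddCommGroup X] [Module k X] [Finite ν]
    (P : ν → X → Prop)
    (hline : ∀ i x1 x2, P i x1 → {t : k | ¬ P i (x1 + t • (x2 - x1))}.Finite)
    (h : ∀ i, ∃ x, P i x) : ∃ x, ∀ i, P i x := by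
  classical
  haveI := Fintype.ofFinite ν
  have key : ∀ S : Finset ν, ∃ x, ∀ i ∈ S, P i x := by
    intro S
    induction S using Finset.induction_on with
    | empty => exact ⟨0, by simp⟩
    | insert j S hj ih =>
      obtain ⟨x1, h1⟩ := ih
      obtain ⟨x2, h2⟩ := h j
      have hfin1 : (⋃ i ∈ S, {t : k | ¬ P i (x1 + t • (x2 - x1))}).Finite :=
        Set.Finite.biUnion S.finite_toSet (fun i hi => hline i x1 x2 (h1 i hi))
      have hfin2 : {t : k | ¬ P j (x1 + t • (x2 - x1))}.Finite := by
        have h3 := (hline j x2 x1 h2).image (fun u : k => 1 - u)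
        refine h3.subset ?_
        intro t ht
        refine ⟨1 - t, ?_, by simp⟩
        simp only [Set.mem_setOf_eq] at ht ⊢
        intro h4
        apply ht
        have h5 : x1 + t • (x2 - x1) = x2 + (1 - t) • (x1 - x2) := by
          rw [sub_smul, one_smul, smul_sub, smul_sub]; abel
        rw [h5]; exact h4
      obtain ⟨t, ht⟩ := (hfin1.union hfin2).exists_notMem
      refine ⟨x1 + t • (x2 - x1), ?_⟩
      intro i hi
      simp only [Set.mem_union, Set.mem_iUnion, Set.mem_setOf_eq, not_or, not_exists,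
        not_not] at ht
      rcases Finset.mem_insert.mp hi with rfl | hi
      · exact ht.2
      · exact ht.1 i hi
  obtain ⟨x, hx⟩ := key Finset.univ
  exact ⟨x, fun i => hx i (Finset.mem_univ i)⟩

/-! ### KM-G3 (file GGeneric.lean) -/
section G
variable {k F : Type} [Field k] [Field F] [Algebra k F]

/-- finitely many linear families of maps, each with a surjective member, have a common
surjective member -/
theorem common_surj {X ν : Type} [Infinite k] [AddCommGroup X] [Module k X] [Finite ν]
    (E W : ν → Type) [∀ i, AddCommGroup (E i)] [∀ i, Module k (E i)] [∀ i, AddCommGroup (W i)]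
    [∀ i, Module k (W i)] [∀ i, FiniteDimensional k (W i)] (A : ∀ i, X →ₗ[k] (E i →ₗ[k] W i))
    (h : ∀ i, ∃ x, Surjective (A i x)) : ∃ x, ∀ i, Surjective (A i x) := by
  refine g3_common (k := k) (fun i x => Surjective (A i x)) ?_ h
  intro i x1 x2 h1
  have := (line_bad (A i x1) (A i (x2 - x1)) h1).1
  simpa only [map_add, map_smul] using this

/-- the linear family of maps `v ↦ ∑ g ∈ D, (e g * q g) * v g` -/
noncomputable def g3_map (m : ℕ) (Q V : Submodule k F) (e : Fin m → F)
    (hV : ∀ g, ∀ q ∈ Q, e g * q ∈ V) (D : Finset (Fin m)) :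
    (Fin m → Q) →ₗ[k] ((Fin m → V) →ₗ[k] (V * V : Submodule k F)) :=
  LinearMap.mk₂ k
    (fun q v => ⟨∑ g ∈ D, (e g * (q g : F)) * (v g : F),
      Submodule.sum_mem _ (fun g _ => Submodule.mul_mem_mul (hV g _ (q g).2) (v g).2)⟩)
    (by
      intro q q' v
      apply Subtype.ext
      simp only [Pi.add_apply, Submodule.coe_add, ← Finset.sum_add_distrib]
      exact Finset.sum_congr rfl (fun g _ => by ring))
    (by
      intro c q v
      apply Subtype.ext
      simp only [Pi.smul_apply, Submodule.coe_smul, Finset.smul_sum]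
      exact Finset.sum_congr rfl (fun g _ => by simp only [mul_smul_comm, smul_mul_assoc]))
    (by
      intro q v v'
      apply Subtype.ext
      simp only [Pi.add_apply, Submodule.coe_add, ← Finset.sum_add_distrib]
      exact Finset.sum_congr rfl (fun g _ => by ring))
    (by
      intro c q v
      apply Subtype.ext
      simp only [Pi.smul_apply, Submodule.coe_smul, Finset.smul_sum]
      exact Finset.sum_congr rfl (fun g _ => by simp only [mul_smul_comm]))

theorem g3_map_apply (m : ℕ) (Q V : Submodule k F) (e : Fin m → F)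
    (hV : ∀ g, ∀ q ∈ Q, e g * q ∈ V) (D : Finset (Fin m)) (q : Fin m → Q) (v : Fin m → V) :
    ((g3_map m Q V e hV D q v : (V * V : Submodule k F)) : F) =
      ∑ g ∈ D, (e g * (q g : F)) * (v g : F) := rfl

/-- members of `span (f '' D) * V` -/
theorem g3_mem_span_mul (m : ℕ) (V : Submodule k F) (f : Fin m → F) (D : Finset (Fin m)) (x : F) :
    x ∈ Submodule.span k (f '' D) * V ↔ ∃ v : Fin m → V, x = ∑ g ∈ D, f g * (v g : F) := by
  classical
  constructor
  · intro hx
    induction hx using Submodule.mul_induction_on' with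
    | mem_mul_mem a ha b hb =>
      induction ha using Submodule.span_induction with
      | mem a ha =>
        obtain ⟨g, hg, rfl⟩ := ha
        refine ⟨fun g' => if g' = g then ⟨b, hb⟩ else 0, ?_⟩
        rw [Finset.sum_eq_single g]
        · simp
        · intro g' _ hne
          simp [hne]
        · intro h; exact absurd (Finset.mem_coe.mp hg) h
      | zero => exact ⟨0, by simp⟩
      | add a a' _ _ h1 h2 =>
        obtain ⟨v, hv⟩ := h1
        obtain ⟨v', hv'⟩ := h2
        refine ⟨v + v', ?_⟩
        rw [add_mul, hv, hv', ← Finset.sum_add_distrib]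
        exact Finset.sum_congr rfl (fun g _ => by simp [mul_add])
      | smul c a _ h1 =>
        obtain ⟨v, hv⟩ := h1
        refine ⟨c • v, ?_⟩
        rw [smul_mul_assoc, hv, Finset.smul_sum]
        exact Finset.sum_congr rfl (fun g _ => by simp)
    | add a _ a' _ h1 h2 =>
      obtain ⟨v, hv⟩ := h1
      obtain ⟨v', hv'⟩ := h2
      refine ⟨v + v', ?_⟩
      rw [hv, hv', ← Finset.sum_add_distrib]
      exact Finset.sum_congr rfl (fun g _ => by simp [mul_add])
  · rintro ⟨v, rfl⟩
    exact Submodule.sum_mem _ (fun g hg => Submodule.mul_mem_mul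
      (Submodule.subset_span ⟨g, Finset.mem_coe.mpr hg, rfl⟩) (v g).2)

theorem g3_surj_iff (m : ℕ) (Q V : Submodule k F) (e : Fin m → F)
    (hV : ∀ g, ∀ q ∈ Q, e g * q ∈ V) (D : Finset (Fin m)) (q : Fin m → Q) :
    Surjective (g3_map m Q V e hV D q) ↔
      V * V ≤ Submodule.span k ((fun g => e g * (q g : F)) '' D) * V := by
  constructor
  · intro h x hx
    obtain ⟨v, hv⟩ := h ⟨x, hx⟩
    rw [g3_mem_span_mul]
    refine ⟨v, ?_⟩
    rw [← g3_map_apply m Q V e hV D q v, hv]
  · intro h x
    obtain ⟨v, hv⟩ := (g3_mem_span_mul m V _ D x).mp (h x.2)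
    refine ⟨v, Subtype.ext ?_⟩
    rw [g3_map_apply, hv]

theorem common_gen [Infinite k] (m s : ℕ) (τ : Type) [Finite τ] (Q V : Submodule k F)
    [FiniteDimensional k Q] [FiniteDimensional k V] (hQ : Q ≠ ⊥) (e : τ → Fin m → F)
    (h : ∀ t, ∀ D : Finset (Fin m), D.card = s → ∃ q : Fin m → F, (∀ g, q g ∈ Q) ∧
      V * V ≤ Submodule.span k ((fun g => e t g * q g) '' D) * V)
    (hV : ∀ t g, ∀ q ∈ Q, e t g * q ∈ V) :
    ∃ q : Fin m → F, (∀ g, q g ∈ Q ∧ q g ≠ 0) ∧ ∀ t, ∀ D : Finset (Fin m), D.card = s →
      V * V ≤ Submodule.span k ((fun g => e t g * q g) '' D) * V := by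
  classical
  haveI hfd : FiniteDimensional k (V * V : Submodule k F) := by
    have hV' : V.FG := (Submodule.fg_iff_finiteDimensional V).mpr inferInstance
    exact (Submodule.fg_iff_finiteDimensional _).mp (hV'.mul hV')
  obtain ⟨q, hq⟩ := g3_common (k := k) (X := Fin m → Q)
    (ν := (τ × {D : Finset (Fin m) // D.card = s}) ⊕ Fin m)
    (fun i q => match i with
      | Sum.inl p => Surjective (g3_map m Q V (e p.1) (hV p.1) p.2.1 q)
      | Sum.inr g => (q g : F) ≠ 0) (by
      rintro (p | g) x1 x2 h1
      · have := (line_bad (g3_map m Q V (e p.1) (hV p.1) p.2.1 x1)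
          (g3_map m Q V (e p.1) (hV p.1) p.2.1 (x2 - x1)) h1).1
        simpa only [map_add, map_smul] using this
      · apply Set.Subsingleton.finite
        intro t ht t' ht'
        simp only [Pi.add_apply, Pi.smul_apply, Submodule.coe_add, Submodule.coe_smul, ne_eq,
          not_not, Set.mem_setOf_eq, Pi.sub_apply] at ht ht' h1
        by_contra hne
        have h2 : (t - t') • (((x2 g - x1 g : Q)) : F) = 0 := by
          rw [sub_smul]
          have := congrArg₂ (· - ·) ht ht'
          simpa using this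
        rcases smul_eq_zero.mp h2 with h3 | h3
        · exact hne (sub_eq_zero.mp h3)
        · rw [h3, smul_zero, add_zero] at ht
          exact h1 ht) (by
      rintro (p | g)
      · obtain ⟨q, hq, hq'⟩ := h p.1 p.2.1 p.2.2
        refine ⟨fun g => ⟨q g, hq g⟩, ?_⟩
        exact (g3_surj_iff m Q V (e p.1) (hV p.1) p.2.1 _).mpr hq'
      · obtain ⟨y, hy, hy0⟩ := Submodule.exists_mem_ne_zero_of_ne_bot hQ
        exact ⟨fun _ => ⟨y, hy⟩, hy0⟩)
  refine ⟨fun g => (q g : F), fun g => ⟨(q g).2, hq (Sum.inr g)⟩, ?_⟩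
  intro t D hD
  exact (g3_surj_iff m Q V (e t) (hV t) D q).mp (hq (Sum.inl (t, ⟨D, hD⟩)))

end G
end Pool.Agent.KM
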