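import Pool.Agent.KM.SDefs
import Pool.Agent.KM.GGeneric

/-!
Project KM2, row S1: a common solution of finitely many generation conditions.
-/

set_option autoImplicit false
set_option linter.all false

open Function

namespace Pool.Agent.KM

section S
variable {k F J : Type} [Field k] [Field F] [Algebra k F]

/-- members of `⨆ g ∈ D, span {f g} * Y g` -/
theorem s1_mem_sup (D : Finset J) (f : J → F) (Y : J → Submodule k F) (z : F) :
    z ∈ (⨆ g ∈ D, Submodule.span k {f g} * Y g) ↔
      ∃ y : (g : J) → Y g, z = ∑ g ∈ D, f g * (y g : F) := by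
  rw [Submodule.mem_iSup_finset_iff_exists_sum]
  constructor
  · rintro ⟨μ, rfl⟩
    have h : ∀ g, ∃ z : Y g, f g * (z : F) = (μ g : F) := fun g => by
      obtain ⟨z, hz, h1⟩ := Submodule.mem_span_singleton_mul.1 (μ g).2
      exact ⟨⟨z, hz⟩, h1⟩
    choose y hy using h
    exact ⟨y, Finset.sum_congr rfl fun g _ => (hy g).symm⟩
  · rintro ⟨y, rfl⟩
    exact ⟨fun g => ⟨f g * (y g : F), Submodule.mem_span_singleton_mul.2 ⟨y g, (y g).2, rfl⟩⟩, rfl⟩

/-- the bilinear map `(x, y) ↦ ∑ g ∈ D, e g * x g * y g` with values in `W / M` -/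
noncomputable def s1_map (P : J → Submodule k F) (e : J → F) (D : Finset J)
    (Y : J → Submodule k F) (W M : Submodule k F)
    (hle : ∀ g ∈ D, ∀ x ∈ P g, ∀ y ∈ Y g, e g * x * y ∈ W) :
    ((g : J) → P g) →ₗ[k] (((g : J) → Y g) →ₗ[k] (W ⧸ M.comap W.subtype)) :=
  LinearMap.mk₂ k
    (fun x y => (M.comap W.subtype).mkQ ⟨∑ g ∈ D, e g * (x g : F) * (y g : F),
      Submodule.sum_mem _ (fun g hg => hle g hg _ (x g).2 _ (y g).2)⟩)
    (by
      intro x x' y
      rw [← map_add]
      congr 1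
      apply Subtype.ext
      simp only [Pi.add_apply, Submodule.coe_add, ← Finset.sum_add_distrib]
      exact Finset.sum_congr rfl (fun g _ => by ring))
    (by
      intro c x y
      rw [← map_smul]
      congr 1
      apply Subtype.ext
      simp only [Pi.smul_apply, Submodule.coe_smul, Finset.smul_sum]
      exact Finset.sum_congr rfl (fun g _ => by simp only [mul_smul_comm, smul_mul_assoc]))
    (by
      intro x y y'
      rw [← map_add]
      congr 1
      apply Subtype.ext
      simp only [Pi.add_apply, Submodule.coe_add, ← Finset.sum_add_distrib]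
      exact Finset.sum_congr rfl (fun g _ => by ring))
    (by
      intro c x y
      rw [← map_smul]
      congr 1
      apply Subtype.ext
      simp only [Pi.smul_apply, Submodule.coe_smul, Finset.smul_sum]
      exact Finset.sum_congr rfl (fun g _ => by simp only [mul_smul_comm]))

theorem s1_surj_iff (P : J → Submodule k F) (e : J → F) (D : Finset J)
    (Y : J → Submodule k F) (W M : Submodule k F)
    (hle : ∀ g ∈ D, ∀ x ∈ P g, ∀ y ∈ Y g, e g * x * y ∈ W) (x : (g : J) → P g) :
    Surjective (s1_map P e D Y W M hle x) ↔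
      W ≤ (⨆ g ∈ D, Submodule.span k {e g * (x g : F)} * Y g) ⊔ M := by
  constructor
  · intro h w hw
    obtain ⟨y, hy⟩ := h ((M.comap W.subtype).mkQ ⟨w, hw⟩)
    have h1 : (⟨∑ g ∈ D, e g * (x g : F) * (y g : F),
        Submodule.sum_mem _ (fun g hg => hle g hg _ (x g).2 _ (y g).2)⟩ : W) - ⟨w, hw⟩ ∈
        M.comap W.subtype := (Submodule.Quotient.eq _).1 hy
    rw [Submodule.mem_comap] at h1
    have h2 : (∑ g ∈ D, e g * (x g : F) * (y g : F)) - w ∈ M := h1
    have h3 : w = (∑ g ∈ D, e g * (x g : F) * (y g : F)) -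
        ((∑ g ∈ D, e g * (x g : F) * (y g : F)) - w) := by ring
    rw [h3]
    refine Submodule.sub_mem _ (Submodule.mem_sup_left ?_) (Submodule.mem_sup_right h2)
    exact (s1_mem_sup D (fun g => e g * (x g : F)) Y _).2 ⟨y, rfl⟩
  · intro h q
    obtain ⟨w, rfl⟩ := (M.comap W.subtype).mkQ_surjective q
    obtain ⟨s, hs, m, hm, h1⟩ := Submodule.mem_sup.1 (h w.2)
    obtain ⟨y, rfl⟩ := (s1_mem_sup D (fun g => e g * (x g : F)) Y _).1 hs
    refine ⟨y, ?_⟩
    refine (Submodule.Quotient.eq _).2 ?_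
    rw [Submodule.mem_comap]
    have h2 : (∑ g ∈ D, e g * (x g : F) * (y g : F)) - w = -m := by
      rw [← h1]; ring
    change (∑ g ∈ D, e g * (x g : F) * (y g : F)) - w ∈ M
    rw [h2]
    exact M.neg_mem hm

/-- finitely many generation conditions, each of which has a solution, have a common solution -/
theorem common_cond [Infinite k] {ν : Type} [Finite J] [Finite ν] (P : J → Submodule k F)
    (e : ν → J → F) (D : ν → Finset J) (Y : ν → J → Submodule k F) (W M : ν → Submodule k F)
    [∀ c, FiniteDimensional k (W c)]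
    (hle : ∀ c, ∀ g ∈ D c, ∀ x ∈ P g, ∀ y ∈ Y c g, e c g * x * y ∈ W c)
    (h : ∀ c, ∃ p : J → F, (∀ g, p g ∈ P g) ∧
      W c ≤ (⨆ g ∈ D c, Submodule.span k {e c g * p g} * Y c g) ⊔ M c) :
    ∃ p : J → F, (∀ g, p g ∈ P g) ∧
      ∀ c, W c ≤ (⨆ g ∈ D c, Submodule.span k {e c g * p g} * Y c g) ⊔ M c := by
  obtain ⟨x, hx⟩ := common_surj (k := k) (fun c => (g : J) → Y c g)
    (fun c => W c ⧸ (M c).comap (W c).subtype)
    (fun c => s1_map P (e c) (D c) (Y c) (W c) (M c) (hle c)) (fun c => by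
      obtain ⟨p, hp, hW⟩ := h c
      exact ⟨fun g => ⟨p g, hp g⟩, (s1_surj_iff P (e c) (D c) (Y c) (W c) (M c) (hle c) _).2 hW⟩)
  exact ⟨fun g => x g, fun g => (x g).2,
    fun c => (s1_surj_iff P (e c) (D c) (Y c) (W c) (M c) (hle c) x).1 (hx c)⟩

end S

end Pool.Agent.KM
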