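import Pool.Agent.KM.FDefs
import Pool.Agent.KM.SCommon

/-!
Project KM3, row F16: two stage choice in finitely many generation conditions.
-/

set_option autoImplicit false
set_option linter.all false

open Function

namespace Pool.Agent.KM

section B
variable {k F : Type} [Field k] [Field F] [Algebra k F]

theorem btwo_span_mul (x y : F) :
    Submodule.span k {x * y} = Submodule.span k {x} * Submodule.span k {y} := by
  rw [Submodule.span_mul_span, Set.singleton_mul_singleton]

theorem btwo_iSup_bool (f : Bool → Submodule k F) :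
    (⨆ g ∈ (Finset.univ : Finset Bool), f g) = f true ⊔ f false := by
  simp [iSup_bool_eq]

theorem btwo_iSup_sum {J : Type} [Fintype J] (f : Bool ⊕ J → Submodule k F) :
    (⨆ g ∈ (Finset.univ : Finset (Bool ⊕ J)), f g) =
      f (Sum.inl true) ⊔ f (Sum.inl false) ⊔ ⨆ l, f (Sum.inr l) := by
  simp [iSup_sum, iSup_bool_eq]

/-- first stage rewriting -/
theorem btwo_eq1 (α β α' β' : F) (A B C X M : Submodule k F) :
    Submodule.span k {α * α'} * A ⊔ Submodule.span k {α * β'} * B ⊔
        Submodule.span k {β * β'} * C ⊔ X ⊔ M =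
      Submodule.span k {1 * α} * (Submodule.span k {α'} * A ⊔ Submodule.span k {β'} * B) ⊔
        Submodule.span k {1 * β} * (Submodule.span k {β'} * C) ⊔ (X ⊔ M) := by
  rw [one_mul, one_mul, Submodule.mul_sup, btwo_span_mul, btwo_span_mul, btwo_span_mul,
    mul_assoc, mul_assoc, mul_assoc, sup_assoc]

/-- second stage rewriting -/
theorem btwo_eq2 (α β α' β' : F) (A B C X M : Submodule k F) :
    Submodule.span k {α * α'} * A ⊔ Submodule.span k {α * β'} * B ⊔
        Submodule.span k {β * β'} * C ⊔ X ⊔ M =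
      Submodule.span k {1 * α'} * (Submodule.span k {α} * A) ⊔
        Submodule.span k {1 * β'} * (Submodule.span k {α} * B ⊔ Submodule.span k {β} * C) ⊔
          X ⊔ M := by
  rw [one_mul, one_mul, Submodule.mul_sup, btwo_span_mul, btwo_span_mul, btwo_span_mul,
    mul_comm (Submodule.span k {α}) (Submodule.span k {α'}),
    mul_comm (Submodule.span k {α}) (Submodule.span k {β'}),
    mul_comm (Submodule.span k {β}) (Submodule.span k {β'}),
    mul_assoc, mul_assoc, mul_assoc, ← sup_assoc]

theorem btwo_mem {Θ A W : Submodule k F} (hA : Θ * Θ * A ≤ W) {x y a : F} (hx : x ∈ Θ)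
    (hy : y ∈ Θ) (ha : a ∈ A) : x * y * a ∈ W :=
  hA (Submodule.mul_mem_mul (Submodule.mul_mem_mul hx hy) ha)

theorem btwo_mul_mem {Θ A W : Submodule k F} (hA : Θ * Θ * A ≤ W) {x y z : F} (hx : x ∈ Θ)
    (hy : y ∈ Θ) (hz : z ∈ Submodule.span k {y} * A) : x * z ∈ W := by
  obtain ⟨a, ha, rfl⟩ := Submodule.mem_span_singleton_mul.1 hz
  rw [← mul_assoc]
  exact btwo_mem hA hx hy ha

/-- two stage choice of `α, β`, then of `α', β'` and `ξ`, in finitely many generation
conditions -/
theorem two_stage [Infinite k] {J ν : Type} [Finite J] [Finite ν] (Θ : Submodule k F)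
    (P : J → Submodule k F) (A B C : ν → Submodule k F) (D : ν → J → Submodule k F)
    (W M : ν → Submodule k F) [∀ c, FiniteDimensional k (W c)]
    (hA : ∀ c, Θ * Θ * A c ≤ W c) (hB : ∀ c, Θ * Θ * B c ≤ W c) (hC : ∀ c, Θ * Θ * C c ≤ W c)
    (hD : ∀ c l, P l * D c l ≤ W c)
    (h : ∀ c, ∃ (α β α' β' : F) (ξ : J → F), α ∈ Θ ∧ β ∈ Θ ∧ α' ∈ Θ ∧ β' ∈ Θ ∧
      (∀ l, ξ l ∈ P l) ∧ W c ≤ Submodule.span k {α * α'} * A c ⊔ Submodule.span k {α * β'} * B c ⊔
        Submodule.span k {β * β'} * C c ⊔ (⨆ l, Submodule.span k {ξ l} * D c l) ⊔ M c) :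
    ∃ (α β α' β' : F) (ξ : J → F), α ∈ Θ ∧ β ∈ Θ ∧ α' ∈ Θ ∧ β' ∈ Θ ∧
      (∀ l, ξ l ∈ P l) ∧ ∀ c, W c ≤ Submodule.span k {α * α'} * A c ⊔
        Submodule.span k {α * β'} * B c ⊔ Submodule.span k {β * β'} * C c ⊔
        (⨆ l, Submodule.span k {ξ l} * D c l) ⊔ M c := by
  cases nonempty_fintype J
  choose α₀ β₀ α' β' ξ hα₀ hβ₀ hα' hβ' hξ hW using h
  -- stage 1
  obtain ⟨p, hp, h1⟩ := common_cond (k := k) (J := Bool) (fun _ => Θ) (fun _ _ => 1)
    (fun _ : ν => Finset.univ)
    (fun c g => if g then Submodule.span k {α' c} * A c ⊔ Submodule.span k {β' c} * B c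
      else Submodule.span k {β' c} * C c) W
    (fun c => (⨆ l, Submodule.span k {ξ c l} * D c l) ⊔ M c) (by
      intro c g _ x hx y hy
      rw [one_mul]
      cases g
      · simp only [Bool.false_eq_true, if_false] at hy
        exact btwo_mul_mem (hC c) hx (hβ' c) hy
      · simp only [if_true] at hy
        obtain ⟨u, hu, v, hv, rfl⟩ := Submodule.mem_sup.1 hy
        rw [mul_add]
        exact Submodule.add_mem _ (btwo_mul_mem (hA c) hx (hα' c) hu)
          (btwo_mul_mem (hB c) hx (hβ' c) hv)) (by
      intro c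
      refine ⟨fun g => if g then α₀ c else β₀ c, ?_, ?_⟩
      · intro g
        cases g
        · simpa using hβ₀ c
        · simpa using hα₀ c
      · have := hW c
        rw [btwo_eq1] at this
        rw [btwo_iSup_bool]
        simpa using this)
  -- stage 2
  obtain ⟨q, hq, h2⟩ := common_cond (k := k) (J := Bool ⊕ J) (Sum.elim (fun _ => Θ) P)
    (fun _ _ => 1) (fun _ : ν => Finset.univ)
    (fun c => Sum.elim (fun g => if g then Submodule.span k {p true} * A c
      else Submodule.span k {p true} * B c ⊔ Submodule.span k {p false} * C c) (D c)) W M (by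
      intro c g _ x hx y hy
      rw [one_mul]
      rcases g with g | l
      · simp only [Sum.elim_inl] at hx hy
        cases g
        · simp only [Bool.false_eq_true, if_false] at hy
          obtain ⟨u, hu, v, hv, rfl⟩ := Submodule.mem_sup.1 hy
          rw [mul_add]
          exact Submodule.add_mem _ (btwo_mul_mem (hB c) hx (hp true) hu)
            (btwo_mul_mem (hC c) hx (hp false) hv)
        · simp only [if_true] at hy
          exact btwo_mul_mem (hA c) hx (hp true) hy
      · simp only [Sum.elim_inr] at hx hy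
        exact hD c l (Submodule.mul_mem_mul hx hy)) (by
      intro c
      refine ⟨Sum.elim (fun g => if g then α' c else β' c) (ξ c), ?_, ?_⟩
      · rintro (g | l)
        · cases g
          · simpa using hβ' c
          · simpa using hα' c
        · simpa using hξ c l
      · have := h1 c
        rw [btwo_iSup_bool] at this
        simp only [if_true, Bool.false_eq_true, if_false] at this
        rw [← btwo_eq1, btwo_eq2] at this
        rw [btwo_iSup_sum]
        simpa using this)
  refine ⟨p true, p false, q (Sum.inl true), q (Sum.inl false), fun l => q (Sum.inr l),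
    hp true, hp false, hq (Sum.inl true), hq (Sum.inl false), fun l => hq (Sum.inr l), ?_⟩
  intro c
  have := h2 c
  rw [btwo_iSup_sum] at this
  rw [btwo_eq2]
  simpa using this

end B

end Pool.Agent.KM
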