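import Pool.Agent.KM.ADefs

/-!
Project KM3 (MP_27fd67_ag): the base theorem with frames, and general position. Definitions
(helper81).
-/

set_option autoImplicit false

open Function

namespace Pool.Agent.KM

section
variable {K V W I : Type} [Field K] [AddCommGroup V] [Module K V] [AddCommGroup W] [Module K W]
  [Fintype I] [DecidableEq I]

/-- `x` generates `W`. -/
def Ont (β : V →ₗ[K] V →ₗ[K] W) (x : I → V) : Prop := Surjective (gen β Finset.univ x)

/-- Frames: pairs `ω = (x, x')` with `∑ β (x i) (x' i) = 0`, nonzero entries, all of whose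
faces generate. -/
def Frm (β : V →ₗ[K] V →ₗ[K] W) (ω : (I → V) × (I → V)) : Prop :=
  gen β Finset.univ ω.1 ω.2 = 0 ∧ (∀ i, ω.1 i ≠ 0 ∧ ω.2 i ≠ 0) ∧
    ∀ P : Finset I, Ont β (fc P ω)

/-- Faces of frames. -/
def GF (β : V →ₗ[K] V →ₗ[K] W) (x : I → V) : Prop := ∃ x' : I → V, Frm β (x, x')

/-- `x` generates, and it has a syzygy whose entry at `i`, put in the place of `x i`, gives again
a generating tuple. -/
def Kc (β : V →ₗ[K] V →ₗ[K] W) (i : I) (x : I → V) : Prop :=
  Ont β x ∧ ∃ y : I → V, gen β Finset.univ x y = 0 ∧ Ont β (update x i (y i))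

/-- A bound for numbers of bad parameters. -/
def Cb (n w : ℕ) : ℕ := 2 ^ n * ((w + 1) * w) + 2 * n * (w + 1)

/-- The pairs in `Om β` which are frames. -/
noncomputable def Ofr [Fintype V] (β : V →ₗ[K] V →ₗ[K] W) :
    Finset ((I → V) × (I → V)) :=
  open scoped Classical in (Om β).filter fun ω => Frm β ω

/-- The pairs in `Om β` which are not frames, but whose face at `P` generates. -/
noncomputable def Onf [Fintype V] (β : V →ₗ[K] V →ₗ[K] W) (P : Finset I) :
    Finset ((I → V) × (I → V)) :=
  open scoped Classical in (Om β).filter fun ω => ¬ Frm β ω ∧ Ont β (fc P ω)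

/-- The good tuples. -/
noncomputable def Gff [Fintype V] (β : V →ₗ[K] V →ₗ[K] W) : Finset (I → V) :=
  open scoped Classical in Finset.univ.filter fun x => GF β x

end

/-! ### generation inside a field -/

section
variable {k F : Type} [Field k] [Field F] [Algebra k F]

/-- `m + 1` forms of degree `b` in `d + 1` variables, one of them the power of a variable,
generate all forms of degree at least `2 * b - a`. -/
def PGat (k F : Type) [Field k] [Field F] [Algebra k F] (d m a b : ℕ) : Prop :=
  ∀ z : Fin (d + 1) → F, ∃ (j : Fin (d + 1)) (t : Fin m → F),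
    (∀ i, t i ∈ Submodule.span k (Set.range z) ^ b) ∧
      ∀ N, 2 * b ≤ N + a → Submodule.span k (Set.range z) ^ N ≤
        (Submodule.span k {z j ^ b} ⊔ Submodule.span k (Set.range t)) *
          Submodule.span k (Set.range z) ^ (N - b)

/-- `PGat` for every slack `a` and all large `b`. -/
def PG (k F : Type) [Field k] [Field F] [Algebra k F] (d m : ℕ) : Prop :=
  ∀ a : ℕ, ∃ b₀ : ℕ, ∀ b, b₀ ≤ b → PGat k F d m a b

/-- `m + 3` forms of degree `2 * θ` in `d + 1` variables generate all forms of degree at least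
`4 * θ - a`; one of them is the power of a variable, two of them are products `α * α'`,
`α * β'` of forms of degree `θ`. -/
def PSat (k F : Type) [Field k] [Field F] [Algebra k F] (d m a θ : ℕ) : Prop :=
  ∀ z : Fin (d + 1) → F, ∃ (j : Fin (d + 1)) (t : Fin m → F) (α α' β' : F),
    (∀ i, t i ∈ Submodule.span k (Set.range z) ^ (2 * θ)) ∧
    α ∈ Submodule.span k (Set.range z) ^ θ ∧ α' ∈ Submodule.span k (Set.range z) ^ θ ∧
    β' ∈ Submodule.span k (Set.range z) ^ θ ∧
      ∀ N, 4 * θ ≤ N + a → Submodule.span k (Set.range z) ^ N ≤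
        (Submodule.span k {α * α', α * β', z j ^ (2 * θ)} ⊔ Submodule.span k (Set.range t)) *
          Submodule.span k (Set.range z) ^ (N - 2 * θ)

/-- `PSat` for every slack `a` and arbitrarily large `θ`. -/
def PS (k F : Type) [Field k] [Field F] [Algebra k F] (d m : ℕ) : Prop :=
  ∀ a θ₀ : ℕ, ∃ θ, θ₀ ≤ θ ∧ PSat k F d m a θ

/-- General position with bound `j₀`: any `d + 1` of the elements `e i` generate. -/
def GPos {I : Type} (E : Submodule k F) (e : I → F) (d j₀ : ℕ) : Prop :=
  (∀ i, e i ∈ E) ∧ ∀ R : Finset I, R.card = d + 1 → ∀ j, j₀ ≤ j →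
    E ^ (j + 1) ≤ Submodule.span k (e '' R) * E ^ j

/-- The elements `c i ∈ E ^ b` generate `E ^ (2 * b)` with coefficients in `E ^ b`. -/
def OnE {I : Type} (E : Submodule k F) (b : ℕ) (c : I → F) : Prop :=
  E ^ (2 * b) ≤ Submodule.span k (Set.range c) * E ^ b

/-- Multiplication `E ^ b × E ^ b → E ^ (2 * b)`. -/
noncomputable def mulB (E : Submodule k F) (b : ℕ) :
    ↥(E ^ b) →ₗ[k] ↥(E ^ b) →ₗ[k] ↥(E ^ (2 * b)) :=
  LinearMap.mk₂ k
    (fun x y => ⟨(x : F) * (y : F), by
      rw [two_mul, pow_add]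
      exact Submodule.mul_mem_mul x.2 y.2⟩)
    (fun x x' y => Subtype.ext (add_mul _ _ _))
    (fun c x y => Subtype.ext (smul_mul_assoc _ _ _))
    (fun x y y' => Subtype.ext (mul_add _ _ _))
    (fun c x y => Subtype.ext (mul_smul_comm _ _ _))

end

end Pool.Agent.KM
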