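import Pool.Agent.KM.FDefs

/-!
Project KM3 (MP_27fd67_ag), row F2: syzygies along a line (helper26).
-/

set_option autoImplicit false

open Function

namespace Pool.Agent.KM

/-- the abstract form: linear maps `Φ + a • Ψ` with `Φ` onto -/
private lemma fsyz_abs {K E W : Type} [Field K] [AddCommGroup E] [Module K E] [AddCommGroup W]
    [Module K W] [FiniteDimensional K W] (Φ Ψ : E →ₗ[K] W) (hΦ : Surjective Φ) (x' : E)
    (hx' : Φ x' = 0) :
    ∃ Y : ℕ → E, Y 0 = x' ∧ ∀ a : K, (Φ + a • Ψ)
      (∑ j ∈ Finset.range (Module.finrank K W + 1), a ^ j • Y j) = 0 := by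
  obtain ⟨σ, hσ⟩ := LinearMap.exists_rightInverse_of_surjective Φ (LinearMap.range_eq_top.2 hΦ)
  have hσ' : ∀ v, Φ (σ v) = v := fun v => LinearMap.congr_fun hσ v
  set w := Module.finrank K W with hw
  set T : W →ₗ[K] W := -(Ψ.comp σ) with hT
  set c : ℕ → K := fun k => (LinearMap.charpoly T).coeff k with hc
  have hcw : c w = 1 := by
    have h1 := LinearMap.charpoly_monic T
    have h2 := LinearMap.charpoly_natDegree T
    rw [Polynomial.Monic, Polynomial.leadingCoeff, h2] at h1
    exact h1
  set y : ℕ → E := fun j => ((-(σ.comp Ψ)) ^ j) x' with hy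
  have hy0 : y 0 = x' := by simp [hy]
  have hys : ∀ j, y (j + 1) = -(σ (Ψ (y j))) := by
    intro j
    simp only [hy, pow_succ', Module.End.mul_apply]
    rfl
  have hv : ∀ j, Ψ (y j) = (T ^ j) (Ψ x') := by
    intro j
    induction j with
    | zero => simp [hy0]
    | succ j ih =>
      rw [hys, map_neg, pow_succ', Module.End.mul_apply, ← ih]
      rfl
  set Y : ℕ → E := fun n => ∑ l ∈ Finset.range (n + 1), c (w - (n - l)) • y l with hY
  have hΨY : ∀ n, Ψ (Y n) = ∑ l ∈ Finset.range (n + 1), c (w - (n - l)) • Ψ (y l) := by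
    intro n
    simp only [hY, map_sum, map_smul]
  have hΦY : ∀ n, Φ (Y (n + 1)) = -Ψ (Y n) := by
    intro n
    rw [hΨY]
    simp only [hY, map_sum, map_smul]
    rw [Finset.sum_range_succ', hy0, hx', smul_zero, add_zero, ← Finset.sum_neg_distrib]
    refine Finset.sum_congr rfl fun l _ => ?_
    rw [hys, map_neg, hσ', smul_neg, Nat.add_sub_add_right]
  have hΦY0 : Φ (Y 0) = 0 := by
    simp [hY, hy0, hx']
  have htel : ∀ (a : K) (n : ℕ), (Φ + a • Ψ) (∑ j ∈ Finset.range (n + 1), a ^ j • Y j) =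
      a ^ (n + 1) • Ψ (Y n) := by
    intro a n
    induction n with
    | zero => simp [hΦY0]
    | succ n ih =>
      rw [Finset.sum_range_succ, map_add, ih, map_smul, LinearMap.add_apply, hΦY,
        LinearMap.smul_apply, smul_add, smul_neg, smul_smul, ← pow_succ]
      abel
  refine ⟨Y, ?_, fun a => ?_⟩
  · simp [hY, hy0, hcw]
  · rw [htel, hΨY]
    have h3 : ∑ l ∈ Finset.range (w + 1), c (w - (w - l)) • Ψ (y l) =
        (Polynomial.aeval T (LinearMap.charpoly T)) (Ψ x') := by
      rw [Polynomial.aeval_eq_sum_range' (n := w + 1)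
        (by rw [LinearMap.charpoly_natDegree]; omega), LinearMap.sum_apply]
      refine Finset.sum_congr rfl fun l hl => ?_
      rw [Finset.mem_range] at hl
      have h4 : w - (w - l) = l := by omega
      rw [h4, hv]
      rfl
    rw [h3, LinearMap.aeval_self_charpoly]
    simp

section F2
variable {K V W I : Type} [Field K] [AddCommGroup V] [Module K V] [AddCommGroup W]
  [Module K W] [Fintype I] [DecidableEq I] [FiniteDimensional K W] (β : V →ₗ[K] V →ₗ[K] W)

theorem syz_line (x x' m : I → V) (hx : Ont β x) (hs : gen β Finset.univ x x' = 0) :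
    ∃ Y : ℕ → (I → V), Y 0 = x' ∧ ∀ a : K, gen β Finset.univ (x + a • m)
      (∑ j ∈ Finset.range (Module.finrank K W + 1), a ^ j • Y j) = 0 := by
  obtain ⟨Y, h0, h1⟩ := fsyz_abs (gen β Finset.univ x) (gen β Finset.univ m) hx x' hs
  refine ⟨Y, h0, fun a => ?_⟩
  have h2 : gen β Finset.univ (x + a • m) = gen β Finset.univ x + a • gen β Finset.univ m := by
    ext z
    simp [gen, Finset.smul_sum, Finset.sum_add_distrib]
  rw [h2]
  exact h1 a

end F2

end Pool.Agent.KM
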