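import Pool.Agent.KM.FPoly
import Pool.Agent.KM.FSyz
import Pool.Agent.KM.BLine
import Pool.Agent.KM.FDefs

/-!
Project KM3 (MP_27fd67_ag), row F3: the conditions `Ont`, `GF`, `Frm`, `Kc` fail only for few
parameters on a line (helper93).
-/

set_option autoImplicit false
set_option linter.unusedSectionVars false

open Function

namespace Pool.Agent.KM

section F3
variable {K V W I : Type} [Field K] [AddCommGroup V] [Module K V] [AddCommGroup W]
  [Module K W] [Fintype I] [DecidableEq I] [FiniteDimensional K W] (β : V →ₗ[K] V →ₗ[K] W)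

theorem fl_gen_apply (D : Finset I) (x u : I → V) : gen β D x u = ∑ i ∈ D, β (x i) (u i) := by
  simp [gen, LinearMap.sum_apply]

theorem fl_gen_add (D : Finset I) (x y : I → V) : gen β D (x + y) = gen β D x + gen β D y := by
  apply LinearMap.ext
  intro u
  simp [fl_gen_apply, Finset.sum_add_distrib]

theorem fl_gen_smul (D : Finset I) (c : K) (x : I → V) : gen β D (c • x) = c • gen β D x := by
  apply LinearMap.ext
  intro u
  simp [fl_gen_apply, Finset.smul_sum]

/-- `gen` as a linear map in the first argument -/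
def fl_genL (D : Finset I) : (I → V) →ₗ[K] ((I → V) →ₗ[K] W) where
  toFun x := gen β D x
  map_add' x y := fl_gen_add β D x y
  map_smul' c x := fl_gen_smul β D c x

theorem fl_gen_sum (D : Finset I) (s : Finset ℕ) (F : ℕ → (I → V)) (a : K) :
    gen β D (∑ j ∈ s, a ^ j • F j) = ∑ j ∈ s, a ^ j • gen β D (F j) := by
  have := map_sum (fl_genL β D) (fun j => a ^ j • F j) s
  simp only [map_smul] at this
  exact this

theorem fl_gen_coe (D : Finset I) (s : Finset ℕ) (F : ℕ → (I → V)) (a : K) :
    ∑ j ∈ s, ⇑(a ^ j • gen β D (F j)) = ⇑(gen β D (∑ j ∈ s, a ^ j • F j)) := by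
  rw [fl_gen_sum]
  funext u
  simp [LinearMap.sum_apply, Finset.sum_apply]

/-- the polynomial family of tuples with `x + a • m` off `P` and `∑ a ^ j • Y j` on `P` -/
def flF (P : Finset I) (w : ℕ) (x m : I → V) (Y : ℕ → (I → V)) (j : ℕ) : I → V := fun i =>
  if i ∈ P then (if j ≤ w then Y j i else 0) else (if j = 0 then x i else if j = 1 then m i else 0)

theorem flF_zero (P : Finset I) (w : ℕ) (x m : I → V) (Y : ℕ → (I → V)) :
    flF P w x m Y 0 = P.piecewise (Y 0) x := by
  funext i
  by_cases h : i ∈ P <;> simp [flF, h]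

theorem flF_sum (P : Finset I) (w : ℕ) (x m : I → V) (Y : ℕ → (I → V)) (a : K) :
    ∑ j ∈ Finset.range (w + 1 + 1), a ^ j • flF P w x m Y j
      = P.piecewise (∑ j ∈ Finset.range (w + 1), a ^ j • Y j) (x + a • m) := by
  funext i
  rw [Finset.sum_apply]
  by_cases h : i ∈ P
  · rw [Finset.piecewise_eq_of_mem _ _ _ h, Finset.sum_apply, Finset.sum_range_succ]
    have h1 : (a ^ (w + 1) • flF P w x m Y (w + 1)) i = 0 := by
      simp [flF, h]
    rw [h1, add_zero]
    refine Finset.sum_congr rfl fun j hj => ?_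
    have hj' : j ≤ w := by
      have := Finset.mem_range.1 hj
      omega
    simp [flF, h, hj']
  · rw [Finset.piecewise_eq_of_notMem _ _ _ h, Finset.sum_range_succ', Finset.sum_range_succ']
    have h1 : ∑ j ∈ Finset.range w, (a ^ (j + 1 + 1) • flF P w x m Y (j + 1 + 1)) i = 0 := by
      refine Finset.sum_eq_zero fun j _ => ?_
      simp [flF, h]
    rw [h1]
    simp [flF, h, add_comm]

theorem Ont_line (x m : I → V) (hx : Ont β x) :
    {a : K | ¬ Ont β (x + a • m)}.Finite ∧
      {a : K | ¬ Ont β (x + a • m)}.ncard ≤ Module.finrank K W := by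
  have h := line_bad (gen β Finset.univ x) (gen β Finset.univ m) hx
  have e : {a : K | ¬ Ont β (x + a • m)}
      = {t : K | ¬ Surjective (gen β Finset.univ x + t • gen β Finset.univ m)} := by
    ext a
    simp only [Set.mem_setOf_eq, Ont]
    rw [fl_gen_add, fl_gen_smul]
  rw [e]
  exact h

/-- union of three finite families of finite sets -/
theorem fl_union {J : Type} [Fintype J] {S : Finset J → Set K} {T U : J → Set K}
    {B : Set K} {s t : ℕ} (hS : ∀ P, (S P).Finite ∧ (S P).ncard ≤ s)
    (hT : ∀ i, (T i).Finite ∧ (T i).ncard ≤ t) (hU : ∀ i, (U i).Finite ∧ (U i).ncard ≤ t)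
    (hB : B ⊆ (⋃ P, S P) ∪ ((⋃ i, T i) ∪ ⋃ i, U i)) :
    B.Finite ∧ B.ncard ≤ 2 ^ Fintype.card J * s + 2 * Fintype.card J * t := by
  classical
  have f1 : (⋃ P, S P).Finite := Set.finite_iUnion fun P => (hS P).1
  have f2 : (⋃ i, T i).Finite := Set.finite_iUnion fun P => (hT P).1
  have f3 : (⋃ i, U i).Finite := Set.finite_iUnion fun P => (hU P).1
  have c1 : (⋃ P, S P).ncard ≤ 2 ^ Fintype.card J * s := by
    refine (Set.ncard_iUnion_le_of_fintype S).trans ?_
    refine (Finset.sum_le_sum fun P _ => (hS P).2).trans ?_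
    simp [Fintype.card_finset]
  have c2 : (⋃ i, T i).ncard ≤ Fintype.card J * t := by
    refine (Set.ncard_iUnion_le_of_fintype T).trans ?_
    refine (Finset.sum_le_sum fun P _ => (hT P).2).trans ?_
    simp
  have c3 : (⋃ i, U i).ncard ≤ Fintype.card J * t := by
    refine (Set.ncard_iUnion_le_of_fintype U).trans ?_
    refine (Finset.sum_le_sum fun P _ => (hU P).2).trans ?_
    simp
  have f : ((⋃ P, S P) ∪ ((⋃ i, T i) ∪ ⋃ i, U i)).Finite := f1.union (f2.union f3)
  refine ⟨f.subset hB, (Set.ncard_le_ncard hB f).trans ?_⟩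
  refine (Set.ncard_union_le _ _).trans ?_
  have := Set.ncard_union_le (⋃ i, T i) (⋃ i, U i)
  have e : 2 * Fintype.card J * t = Fintype.card J * t + Fintype.card J * t := by ring
  omega

theorem fl_entry (u v : V) (hu : u ≠ 0) (w : ℕ) :
    {a : K | u + a • v = 0}.Finite ∧ {a : K | u + a • v = 0}.ncard ≤ w + 1 := by
  have h := poly_ne (K := K) 1 (fun j => if j = 0 then u else v) (by simpa using hu)
  have e : {a : K | u + a • v = 0}
      = {t : K | ∑ j ∈ Finset.range (1 + 1), t ^ j • (if j = 0 then u else v) = 0} := by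
    ext a
    simp [Finset.sum_range_succ]
  rw [e]
  exact ⟨h.1, h.2.trans (by omega)⟩

theorem GF_line (x m : I → V) (hx : GF β x) :
    {a : K | ¬ GF β (x + a • m)}.Finite ∧ {a : K | ¬ GF β (x + a • m)}.ncard ≤
      Cb (Fintype.card I) (Module.finrank K W) := by
  obtain ⟨x', hs, hne, hf⟩ := hx
  have hO : Ont β x := by
    have := hf ∅
    simpa [fc] using this
  obtain ⟨Y, hY0, hY⟩ := syz_line β x x' m hO hs
  set w := Module.finrank K W with hw
  refine fl_union (J := I)
    (S := fun P => {a : K | ¬ Surjective (∑ j ∈ Finset.range (w + 1 + 1),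
      a ^ j • gen β Finset.univ (flF P w x m Y j))})
    (T := fun i => {a : K | x i + a • m i = 0})
    (U := fun i => {a : K | ∑ j ∈ Finset.range (w + 1), a ^ j • Y j i = 0})
    (fun P => ?_) (fun i => fl_entry _ _ (hne i).1 w) (fun i => ?_) ?_
  · refine poly_line (w + 1) (fun j => gen β Finset.univ (flF P w x m Y j)) ?_
    rw [flF_zero, hY0]
    exact hf P
  · have := poly_ne (K := K) w (fun j => Y j i) (by rw [hY0]; exact (hne i).2)
    exact ⟨this.1, this.2.trans (by omega)⟩
  · intro a ha
    by_contra hcon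
    apply ha
    refine ⟨∑ j ∈ Finset.range (w + 1), a ^ j • Y j, hY a, fun i => ⟨?_, ?_⟩, fun P => ?_⟩
    · intro h0
      exact hcon (Or.inr (Or.inl (Set.mem_iUnion.2 ⟨i, h0⟩)))
    · intro h0
      refine hcon (Or.inr (Or.inr (Set.mem_iUnion.2 ⟨i, ?_⟩)))
      change ∑ j ∈ Finset.range (w + 1), a ^ j • Y j i = 0
      simpa [Finset.sum_apply] using h0
    · have h1 : Surjective (∑ j ∈ Finset.range (w + 1 + 1),
          a ^ j • gen β Finset.univ (flF P w x m Y j)) := by
        by_contra h0
        exact hcon (Or.inl (Set.mem_iUnion.2 ⟨P, h0⟩))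
      rw [fl_gen_coe, flF_sum] at h1
      exact h1

theorem Frm_line (x x' m : I → V) (hx : Frm β (x, x')) (hm : gen β Finset.univ x m = 0) :
    {a : K | ¬ Frm β (x, x' + a • m)}.Finite ∧ {a : K | ¬ Frm β (x, x' + a • m)}.ncard ≤
      Cb (Fintype.card I) (Module.finrank K W) := by
  obtain ⟨hs, hne, hf⟩ := hx
  set w := Module.finrank K W with hw
  refine fl_union (J := I)
    (S := fun P => {a : K | ¬ Surjective (gen β Finset.univ (P.piecewise x' x)
      + a • gen β Finset.univ (P.piecewise m 0))})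
    (T := fun i => {a : K | x' i + a • m i = 0})
    (U := fun _ => ∅)
    (fun P => ?_) (fun i => fl_entry _ _ (hne i).2 w) (fun i => by simp) ?_
  · have := line_bad (gen β Finset.univ (P.piecewise x' x))
      (gen β Finset.univ (P.piecewise m 0)) (hf P)
    refine ⟨this.1, this.2.trans ?_⟩
    rw [← hw]
    exact Nat.le_mul_of_pos_left w (by omega)
  · intro a ha
    by_contra hcon
    apply ha
    simp only [Set.mem_union, Set.mem_iUnion, Set.mem_setOf_eq, not_or, not_exists,
      not_not] at hcon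
    refine ⟨?_, fun i => ⟨(hne i).1, hcon.2.1 i⟩, fun P => ?_⟩
    · change gen β Finset.univ x (x' + a • m) = 0
      rw [map_add, map_smul, hm, smul_zero, add_zero]
      exact hs
    · have := hcon.1 P
      rw [← fl_gen_smul, ← fl_gen_add] at this
      have e : P.piecewise x' x + a • P.piecewise m 0 = fc P (x, x' + a • m) := by
        funext i
        by_cases h : i ∈ P <;> simp [fc, h]
      rw [e] at this
      exact this

theorem Kc_line (i : I) (x m : I → V) (hx : Kc β i x) :
    {a : K | ¬ Kc β i (x + a • m)}.Finite := by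
  obtain ⟨hO, y, hs, hu⟩ := hx
  obtain ⟨Y, hY0, hY⟩ := syz_line β x y m hO hs
  set w := Module.finrank K W with hw
  have h1 := (Ont_line β x m hO).1
  have h2 := (poly_line (K := K) (w + 1) (fun j => gen β Finset.univ (flF {i} w x m Y j)) (by
    rw [flF_zero, hY0]
    have e : ({i} : Finset I).piecewise y x = update x i (y i) := by
      rw [Finset.piecewise_singleton]
    rw [e]
    exact hu)).1
  refine (h1.union h2).subset ?_
  intro a ha
  by_contra hcon
  apply ha
  have h3 : Ont β (x + a • m) := by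
    by_contra h0
    exact hcon (Or.inl h0)
  have h4 : Surjective (∑ j ∈ Finset.range (w + 1 + 1),
      a ^ j • gen β Finset.univ (flF {i} w x m Y j)) := by
    by_contra h0
    exact hcon (Or.inr h0)
  refine ⟨h3, ∑ j ∈ Finset.range (w + 1), a ^ j • Y j, hY a, ?_⟩
  rw [fl_gen_coe, flF_sum, Finset.piecewise_singleton] at h4
  exact h4

end F3

end Pool.Agent.KM
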