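import Pool.Agent.KM.FDefs
import Pool.Agent.KM.BMatch
import Pool.Agent.KM.BLine
import Pool.Agent.KM.GGeneric

/-!
Project KM3 (MP_27fd67_ag), row F9: frames from the conditions `Kc`.
-/

set_option autoImplicit false
set_option linter.unusedSectionVars false

open Function

namespace Pool.Agent.KM

section
variable {K V W I : Type} [Field K] [AddCommGroup V] [Module K V] [AddCommGroup W]
  [Module K W] [Fintype I] [DecidableEq I] (β : V →ₗ[K] V →ₗ[K] W)

private theorem f9_gen (x u : I → V) : gen β Finset.univ x u = ∑ i, β (x i) (u i) := by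
  simp [gen]

/-- reordering and scaling by nonzero factors -/
private theorem f9_scale (x y : I → V) (τ : I → I) (hτ : ∀ l, τ (τ l) = l) (c : I → K)
    (hc : ∀ l, c l ≠ 0) (hy : ∀ l, y l = c l • x (τ l)) (h : Ont β x) : Ont β y := by
  intro w
  obtain ⟨u, hu⟩ := h w
  refine ⟨fun l => (c l)⁻¹ • u (τ l), ?_⟩
  rw [← hu, f9_gen, f9_gen]
  refine Finset.sum_nbij' τ τ (fun _ _ => Finset.mem_univ _) (fun _ _ => Finset.mem_univ _)
    (fun l _ => hτ l) (fun l _ => hτ l) ?_
  intro l _
  rw [hy l, map_smul, map_smul, LinearMap.smul_apply, smul_smul, inv_mul_cancel₀ (hc l), one_smul]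

/-- the bad parameters of an affine line of tuples -/
private theorem f9_line [FiniteDimensional K W] (x m : I → V) (hx : Ont β x) :
    {t : K | ¬ Ont β (x + t • m)}.Finite := by
  have h := (line_bad (gen β Finset.univ x) (gen β Finset.univ m) hx).1
  refine h.subset fun t ht => ?_
  intro h1
  apply ht
  have e : gen β Finset.univ (x + t • m) = gen β Finset.univ x + t • gen β Finset.univ m := by
    apply LinearMap.ext
    intro u
    rw [LinearMap.add_apply, LinearMap.smul_apply, f9_gen, f9_gen, f9_gen, Finset.smul_sum,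
      ← Finset.sum_add_distrib]
    refine Finset.sum_congr rfl fun i _ => ?_
    simp
  unfold Ont
  rw [e]
  exact h1

/-- faces of even order -/
private theorem f9_even (hβ : ∀ a b, β a b = β b a) (x : I → V) (hx : Ont β x) (P : Finset I)
    (hP : Even P.card) :
    ∃ x' : I → V, gen β Finset.univ x x' = 0 ∧ Ont β (P.piecewise x' x) := by
  obtain ⟨σ, s, hσ⟩ := exists_matching P hP
  refine ⟨fun l => if l ∈ P then s l • x (σ l) else 0, matching_syz β hβ P σ s hσ x, ?_⟩
  refine f9_scale β x _ (fun l => if l ∈ P then σ l else l) ?_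
    (fun l => if l ∈ P then (s l : K) else 1) ?_ ?_ hx
  · intro l
    by_cases h : l ∈ P
    · simp only [if_pos h, if_pos (hσ l h).1, (hσ l h).2.2.1]
    · simp only [if_neg h]
  · intro l
    by_cases h : l ∈ P
    · simp only [if_pos h]
      rcases (hσ l h).2.2.2.1 with h1 | h1 <;> rw [h1] <;> simp
    · simp only [if_neg h]
      exact one_ne_zero
  · intro l
    by_cases h : l ∈ P
    · rw [Finset.piecewise_eq_of_mem _ _ _ h]
      simp only [if_pos h, Int.cast_smul_eq_zsmul]
    · rw [Finset.piecewise_eq_of_notMem _ _ _ h]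
      simp only [if_neg h, one_smul]

/-- faces of odd order -/
private theorem f9_odd [Infinite K] [FiniteDimensional K W] (hβ : ∀ a b, β a b = β b a)
    (x : I → V) (P : Finset I) (i : I) (hi : i ∈ P) (hK : Kc β i x)
    (hP : Even (P.erase i).card) :
    ∃ x' : I → V, gen β Finset.univ x x' = 0 ∧ Ont β (P.piecewise x' x) := by
  classical
  obtain ⟨hx, y, hy, hyo⟩ := hK
  obtain ⟨σ, s, hσ⟩ := exists_matching (P.erase i) hP
  have hiE : i ∉ P.erase i := Finset.notMem_erase i P
  -- the family at the parameter zero
  have hz0 : Ont β (fun l => if l ∈ P.erase i then s l • x (σ l) else if l = i then y i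
      else x l) := by
    refine f9_scale β (update x i (y i)) _ (fun l => if l ∈ P.erase i then σ l else l) ?_
      (fun l => if l ∈ P.erase i then (s l : K) else 1) ?_ ?_ hyo
    · intro l
      by_cases h : l ∈ P.erase i
      · simp only [if_pos h, if_pos (hσ l h).1, (hσ l h).2.2.1]
      · simp only [if_neg h]
    · intro l
      by_cases h : l ∈ P.erase i
      · simp only [if_pos h]
        rcases (hσ l h).2.2.2.1 with h1 | h1 <;> rw [h1] <;> simp
      · simp only [if_neg h]
        exact one_ne_zero
    · intro l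
      by_cases h : l ∈ P.erase i
      · have h1 : σ l ≠ i := fun h2 => hiE (h2 ▸ (hσ l h).1)
        simp only [if_pos h, Int.cast_smul_eq_zsmul, update_of_ne h1]
      · by_cases h1 : l = i
        · subst h1
          simp only [if_neg h, one_smul, update_self, if_true]
        · simp only [if_neg h, if_neg h1, one_smul, update_of_ne h1]
  have hfin := f9_line β _ (fun l => if l ∈ P.erase i then y l else 0) hz0
  obtain ⟨t, ht⟩ := (hfin.union (Set.finite_singleton (0 : K))).exists_notMem
  simp only [Set.mem_union, Set.mem_singleton_iff, not_or, Set.mem_ofPred_eq, not_not] at ht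
  obtain ⟨ht1, ht0⟩ := ht
  refine ⟨(fun l => if l ∈ P.erase i then s l • x (σ l) else 0) + t • y, ?_, ?_⟩
  · rw [map_add, map_smul, hy, smul_zero, add_zero]
    exact matching_syz β hβ _ σ s hσ x
  · refine f9_scale β _ _ id (fun _ => rfl) (fun l => if l = i then t else 1) ?_ ?_ ht1
    · intro l
      by_cases h : l = i
      · simp only [if_pos h]; exact ht0
      · simp only [if_neg h]; exact one_ne_zero
    · intro l
      by_cases h1 : l = i
      · subst h1
        rw [Finset.piecewise_eq_of_mem _ _ _ hi]
        simp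
      · by_cases h : l ∈ P
        · rw [Finset.piecewise_eq_of_mem _ _ _ h]
          simp [h1, h]
        · rw [Finset.piecewise_eq_of_notMem _ _ _ h]
          simp [h1, h]

private theorem f9_ne (hβ : ∀ a b, β a b = β b a) (hI : 2 ≤ Fintype.card I) (x : I → V)
    (h0 : ∀ i, x i ≠ 0) (i : I) : ∃ x' : I → V, gen β Finset.univ x x' = 0 ∧ x' i ≠ 0 := by
  obtain ⟨l, hl⟩ : ∃ l : I, l ≠ i := by
    have : Nontrivial I := Fintype.one_lt_card_iff_nontrivial.1 (by omega)
    exact exists_ne i
  have hE : Even ({i, l} : Finset I).card := by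
    rw [Finset.card_pair (Ne.symm hl)]
    decide
  obtain ⟨σ, s, hσ⟩ := exists_matching _ hE
  refine ⟨_, matching_syz β hβ _ σ s hσ x, ?_⟩
  have hi : i ∈ ({i, l} : Finset I) := by simp
  rw [if_pos hi]
  have h1 := h0 (σ i)
  rcases (hσ i hi).2.2.2.1 with h | h <;> rw [h] <;> simpa using h1

end

theorem frame_of_K {K V W I : Type} [Field K] [Infinite K] [AddCommGroup V] [Module K V]
    [AddCommGroup W] [Module K W] [FiniteDimensional K W] [Fintype I] [DecidableEq I]
    (β : V →ₗ[K] V →ₗ[K] W) (hβ : ∀ a b, β a b = β b a) (hI : 2 ≤ Fintype.card I) (x : I → V)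
    (h0 : ∀ i, x i ≠ 0) (hK : ∀ i, Kc β i x) : GF β x := by
  classical
  have hx : Ont β x := by
    have : Nonempty I := Fintype.card_pos_iff.1 (by omega)
    exact (hK (Classical.arbitrary I)).1
  obtain ⟨x', hx'⟩ := g3_common (k := K) (X := LinearMap.ker (gen β Finset.univ x))
    (ν := Finset I ⊕ I)
    (fun c x' => match c with
      | Sum.inl P => Ont β (P.piecewise (x' : I → V) x)
      | Sum.inr i => (x' : I → V) i ≠ 0) (by
      rintro (P | i) x1 x2 h1
      · have h2 := f9_line β (P.piecewise (x1 : I → V) x)
          (P.piecewise ((x2 - x1 : LinearMap.ker (gen β Finset.univ x)) : I → V) 0) h1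
        refine h2.subset fun t ht => ?_
        intro h3
        apply ht
        have e : P.piecewise ((x1 + t • (x2 - x1) : LinearMap.ker (gen β Finset.univ x)) : I → V) x
            = P.piecewise (x1 : I → V) x +
              t • P.piecewise ((x2 - x1 : LinearMap.ker (gen β Finset.univ x)) : I → V) 0 := by
          funext l
          by_cases h : l ∈ P
          · simp [Finset.piecewise, h]
          · simp [Finset.piecewise, h]
        show Ont β (P.piecewise ((x1 + t • (x2 - x1) :
          LinearMap.ker (gen β Finset.univ x)) : I → V) x)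
        rw [e]
        exact h3
      · apply Set.Subsingleton.finite
        intro t ht t' ht'
        simp only [Pi.add_apply, Pi.smul_apply, Submodule.coe_add, Submodule.coe_smul, ne_eq,
          not_not, Set.mem_ofPred_eq, Pi.sub_apply, Submodule.coe_sub] at ht ht' h1
        by_contra hne
        have h2 : (t - t') • ((x2 : I → V) i - (x1 : I → V) i) = 0 := by
          rw [sub_smul]
          have := congrArg₂ (· - ·) ht ht'
          simpa using this
        rcases smul_eq_zero.mp h2 with h3 | h3
        · exact hne (sub_eq_zero.mp h3)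
        · rw [h3, smul_zero, add_zero] at ht
          exact h1 ht) (by
      rintro (P | i)
      · obtain ⟨z, hz, hz'⟩ : ∃ x' : I → V, gen β Finset.univ x x' = 0 ∧
            Ont β (P.piecewise x' x) := by
          rcases Nat.even_or_odd P.card with h | h
          · exact f9_even β hβ x hx P h
          · obtain ⟨i, hi⟩ : P.Nonempty := Finset.card_pos.1 h.pos
            refine f9_odd β hβ x P i hi (hK i) ?_
            rw [Finset.card_erase_of_mem hi]
            exact Nat.Odd.sub_odd h odd_one
        exact ⟨⟨z, hz⟩, hz'⟩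
      · obtain ⟨z, hz, hz'⟩ := f9_ne β hβ hI x h0 i
        exact ⟨⟨z, hz⟩, hz'⟩)
  exact ⟨(x' : I → V), x'.2, fun i => ⟨h0 i, hx' (Sum.inr i)⟩, fun P => hx' (Sum.inl P)⟩

end Pool.Agent.KM
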