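import Pool.Agent.KM.FDefs
import Pool.Agent.KM.GGeneric
import Pool.Agent.KM.FLine
import Pool.Agent.KM.KFrame
import Pool.Agent.KM.BPair

/-!
Project KM3 (MP_27fd67_ag), row F18: one sign type.
-/

set_option autoImplicit false
set_option linter.all false

open Function

namespace Pool.Agent.KM

/-! ### row F18 -/

section B
variable {k F : Type} [Field k] [Field F] [Algebra k F]

/-- members of `span (range c) * V` -/
private theorem bt_mem {I : Type} [Fintype I] (V : Submodule k F) (c : I → F) (x : F) :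
    x ∈ Submodule.span k (Set.range c) * V ↔ ∃ v : I → V, x = ∑ i, c i * (v i : F) := by
  classical
  constructor
  · intro hx
    induction hx using Submodule.mul_induction_on' with
    | mem_mul_mem a ha b hb =>
      induction ha using Submodule.span_induction with
      | mem a ha =>
        obtain ⟨g, rfl⟩ := ha
        refine ⟨fun g' => if g' = g then ⟨b, hb⟩ else 0, ?_⟩
        rw [Finset.sum_eq_single g]
        · simp
        · intro g' _ hne
          simp [hne]
        · intro h; exact absurd (Finset.mem_univ g) h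
      | zero => exact ⟨0, by simp⟩
      | add a a' _ _ h1 h2 =>
        obtain ⟨v, hv⟩ := h1
        obtain ⟨v', hv'⟩ := h2
        refine ⟨v + v', ?_⟩
        rw [add_mul, hv, hv', ← Finset.sum_add_distrib]
        exact Finset.sum_congr rfl (fun g _ => by simp [mul_add])
      | smul c a _ h1 =>
        obtain ⟨v, hv⟩ := h1
        refine ⟨c • v, ?_⟩
        rw [smul_mul_assoc, hv, Finset.smul_sum]
        exact Finset.sum_congr rfl (fun g _ => by simp)
    | add a _ a' _ h1 h2 =>
      obtain ⟨v, hv⟩ := h1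
      obtain ⟨v', hv'⟩ := h2
      refine ⟨v + v', ?_⟩
      rw [hv, hv', ← Finset.sum_add_distrib]
      exact Finset.sum_congr rfl (fun g _ => by simp [mul_add])
  · rintro ⟨v, rfl⟩
    exact Submodule.sum_mem _ (fun g _ => Submodule.mul_mem_mul
      (Submodule.subset_span ⟨g, rfl⟩) (v g).2)

private theorem bt_gen {I : Type} [Fintype I] (E : Submodule k F) (b : ℕ)
    (x u : I → ↥(E ^ b)) :
    ((gen (mulB E b) Finset.univ x u : ↥(E ^ (2 * b))) : F) = ∑ i, (x i : F) * (u i : F) := by
  unfold gen
  rw [LinearMap.sum_apply, Submodule.coe_sum]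
  rfl

theorem Ont_mulB {I : Type} [Fintype I] [DecidableEq I] (E : Submodule k F) (b : ℕ)
    (x : I → ↥(E ^ b)) : Ont (mulB E b) x ↔ OnE E b (fun i => (x i : F)) := by
  constructor
  · intro h z hz
    obtain ⟨u, hu⟩ := h ⟨z, hz⟩
    rw [bt_mem]
    exact ⟨u, by rw [← bt_gen E b x u, hu]⟩
  · intro h z
    obtain ⟨v, hv⟩ := (bt_mem (E ^ b) _ _).1 (h z.2)
    exact ⟨v, Subtype.ext (by rw [bt_gen, hv])⟩

/-- the tuple `e l * p l` -/
private noncomputable def btL {I : Type} (E : Submodule k F) (e : I → F) (he : ∀ i, e i ∈ E)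
    (n : ℕ) : (I → ↥(E ^ n)) →ₗ[k] (I → ↥(E ^ (n + 1))) where
  toFun p := fun l => ⟨e l * (p l : F), by
    rw [pow_succ']
    exact Submodule.mul_mem_mul (he l) (p l).2⟩
  map_add' p q := by
    funext l
    exact Subtype.ext (mul_add _ _ _)
  map_smul' c p := by
    funext l
    exact Subtype.ext (mul_smul_comm _ _ _)

private theorem bt_fd_pow (E : Submodule k F) [FiniteDimensional k E] (n : ℕ) :
    FiniteDimensional k (E ^ n : Submodule k F) := by
  have h : E.FG := (Submodule.fg_iff_finiteDimensional E).2 inferInstance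
  exact (Submodule.fg_iff_finiteDimensional _).1 (h.pow n)

private theorem bt_line_ne {M : Type} [AddCommGroup M] [Module k M] (u v : M) (h : u ≠ 0) :
    {t : k | ¬ (u + t • v ≠ 0)}.Finite := by
  apply Set.Subsingleton.finite
  intro t ht t' ht'
  simp only [ne_eq, not_not, Set.mem_setOf_eq] at ht ht'
  by_contra hne
  have h2 : (t - t') • v = 0 := by
    rw [sub_smul]
    have := congrArg₂ (· - ·) ht ht'
    simpa using this
  rcases smul_eq_zero.mp h2 with h3 | h3
  · exact hne (sub_eq_zero.mp h3)
  · rw [h3, smul_zero, add_zero] at ht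
    exact h ht

/-- one sign type -/
theorem type_inst [Infinite k] {I : Type} [Fintype I] [DecidableEq I] (d j₀ m a θ : ℕ)
    (hj : 1 ≤ j₀) (hI : Fintype.card I = m + 3) (hId : d + 2 ≤ Fintype.card I)
    (E : Submodule k F) [FiniteDimensional k E] (e : I → F) (he : ∀ i, e i ≠ 0)
    (hG : GPos E e d j₀) (hS : PSat k F d m a θ)
    (hP : ∀ κ, 1 ≤ κ → κ ≤ d → PGat k F (d - κ) (m + 1 - κ) a (2 * θ))
    (ha : j₀ + m + 3 ≤ a) (hθ : j₀ + m + 3 ≤ θ) :
    ∃ (p : I → F) (x : I → ↥(E ^ (2 * θ + 1))), (∀ l, p l ∈ E ^ (2 * θ)) ∧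
      (∀ l, (x l : F) = e l * p l) ∧ GF (mulB E (2 * θ + 1)) x := by
  classical
  have := bt_fd_pow E (2 * (2 * θ + 1))
  have heE : ∀ i, e i ∈ E := hG.1
  obtain ⟨p, hp⟩ := g3_common (k := k) (X := I → ↥(E ^ (2 * θ))) (ν := I ⊕ I)
    (fun c p => match c with
      | Sum.inl i => Kc (mulB E (2 * θ + 1)) i (btL E e heE (2 * θ) p)
      | Sum.inr l => btL E e heE (2 * θ) p l ≠ 0) (by
      rintro (i | l) x1 x2 h1
      · have h2 := Kc_line (mulB E (2 * θ + 1)) i (btL E e heE (2 * θ) x1)
          (btL E e heE (2 * θ) (x2 - x1)) h1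
        simpa only [map_add, map_smul] using h2
      · have h2 := bt_line_ne (k := k) (btL E e heE (2 * θ) x1 l)
          (btL E e heE (2 * θ) (x2 - x1) l) h1
        refine h2.subset ?_
        intro t ht ht'
        apply ht
        rw [map_add, map_smul]
        exact ht') (by
      rintro (i | l)
      · obtain ⟨j, hij⟩ : ∃ j, i ≠ j := by
          have h3 : 1 < Fintype.card I := by omega
          obtain ⟨j, hj⟩ := Fintype.exists_ne_of_one_lt_card h3 i
          exact ⟨j, hj.symm⟩
        obtain ⟨p, y, hp, hy, h0, h1, h2⟩ := pair_inst d j₀ m a θ hj hI hId E e hG hS hP ha hθ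
          i j hij
        refine ⟨fun l => ⟨p l, hp l⟩, ?_, fun l => ⟨y l, hy l⟩, ?_, ?_⟩
        · rw [Ont_mulB]
          exact h1
        · refine Subtype.ext ?_
          rw [bt_gen]
          exact h0
        · rw [Ont_mulB]
          have h4 : (fun l => ((update (btL E e heE (2 * θ) fun l => ⟨p l, hp l⟩) i
              (⟨y i, hy i⟩ : ↥(E ^ (2 * θ + 1))) l : ↥(E ^ (2 * θ + 1))) : F)) =
              update (fun l => e l * p l) i (y i) := by
            funext l
            by_cases hl : l = i
            · subst hl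
              rw [update_self, update_self]
            · rw [update_of_ne hl, update_of_ne hl]
              rfl
          rw [h4]
          exact h2
      · refine ⟨fun l => ⟨e l ^ (2 * θ), Submodule.pow_mem_pow E (hG.1 l) _⟩, fun h => ?_⟩
        have h1 : e l * e l ^ (2 * θ) = 0 := congrArg Subtype.val h
        exact mul_ne_zero (he l) (pow_ne_zero _ (he l)) h1)
  refine ⟨fun l => (p l : F), btL E e heE (2 * θ) p, fun l => (p l).2, fun l => rfl, ?_⟩
  refine frame_of_K (mulB E (2 * θ + 1)) (fun a b => Subtype.ext (mul_comm _ _)) (by omega) _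
    (fun l => hp (Sum.inr l)) (fun i => hp (Sum.inl i))

end B

end Pool.Agent.KM
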