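import Pool.Agent.KM.FLine
import Pool.Agent.KM.SCommon
import Pool.Agent.KM.BType

/-!
Project KM3 (MP_27fd67_ag), row F19: a further element in general position, and a common choice
of multipliers for all sign types.
-/

set_option autoImplicit false
set_option linter.all false

open Function

namespace Pool.Agent.KM


section B
variable {k F : Type} [Field k] [Field F] [Algebra k F]

private theorem bg3_fd_pow (E : Submodule k F) [FiniteDimensional k E] (n : ℕ) :
    FiniteDimensional k (E ^ n : Submodule k F) := by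
  have h : E.FG := (Submodule.fg_iff_finiteDimensional E).2 inferInstance
  exact (Submodule.fg_iff_finiteDimensional _).1 (h.pow n)

/-- a further element in general position with all sign types -/
theorem exists_e0 [Infinite k] {ι : Type} [Fintype ι] [DecidableEq ι] (d j₀ : ℕ)
    (hι : d + 1 ≤ Fintype.card ι) (E : Submodule k F) [FiniteDimensional k E]
    (e : ι → Bool → F) (he : ∀ i s, e i s ≠ 0)
    (hG : ∀ ε : ι → Bool, GPos E (fun i => e i (ε i)) d j₀) :
    ∃ e₀ : F, e₀ ≠ 0 ∧ ∀ ε : ι → Bool,
      GPos E (fun o : Option ι => o.elim e₀ (fun i => e i (ε i))) d j₀ := by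
  classical
  obtain ⟨i₀⟩ : Nonempty ι := Fintype.card_pos_iff.1 (by omega)
  have hz0 : e i₀ true ≠ 0 := he i₀ true
  have hzE : e i₀ true ∈ E := (hG (fun _ => true)).1 i₀
  obtain ⟨M0, hM0⟩ := Submodule.exists_isCompl (Submodule.span k {e i₀ true})
  -- the index type of the conditions
  let ν : Type := ((ι → Bool) × {R : Finset ι // R.card = d}) ⊕ Unit
  let Y : ν → Submodule k F := Sum.elim (fun _ => E ^ j₀) (fun _ => Submodule.span k {1})
  let W : ν → Submodule k F := Sum.elim (fun _ => E ^ (j₀ + 1)) (fun _ => E)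
  let M : ν → Submodule k F := Sum.elim
    (fun c => Submodule.span k ((fun i => e i (c.1 i)) '' (c.2.1 : Set ι)) * E ^ j₀) (fun _ => M0)
  haveI hWfd : ∀ c : ν, FiniteDimensional k (W c) := by
    rintro (c | c)
    · exact bg3_fd_pow E _
    · exact inferInstanceAs (FiniteDimensional k E)
  obtain ⟨p, hp, hp2⟩ := common_cond (k := k) (F := F) (J := Unit) (ν := ν)
    (P := fun _ => E) (e := fun _ _ => 1) (D := fun _ => {()}) (Y := fun c _ => Y c) (W := W)
    (M := M)
    (by
      rintro (c | c) g - x hx y hy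
      · change 1 * x * y ∈ E ^ (j₀ + 1)
        rw [one_mul, pow_succ']
        exact Submodule.mul_mem_mul hx hy
      · change 1 * x * y ∈ E
        obtain ⟨s, rfl⟩ := Submodule.mem_span_singleton.1 hy
        rw [one_mul, mul_smul_comm, mul_one]
        exact Submodule.smul_mem _ _ hx)
    (by
      rintro (⟨ε, R, hR⟩ | c)
      · obtain ⟨g, hg⟩ : ∃ g, g ∉ R := by
          by_contra hcon
          push Not at hcon
          have : R = Finset.univ := Finset.eq_univ_iff_forall.2 hcon
          rw [this, Finset.card_univ] at hR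
          omega
        refine ⟨fun _ => e g (ε g), fun _ => (hG ε).1 g, ?_⟩
        have h1 := (hG ε).2 (insert g R) (by rw [Finset.card_insert_of_notMem hg, hR]) j₀ le_rfl
        change E ^ (j₀ + 1) ≤ _
        refine h1.trans ?_
        rw [Finset.coe_insert, Set.image_insert_eq, Submodule.span_insert, Submodule.sup_mul]
        refine sup_le_sup ?_ le_rfl
        simp only [one_mul]
        exact le_iSup₂_of_le () (Finset.mem_singleton_self _) le_rfl
      · refine ⟨fun _ => e i₀ true, fun _ => hzE, ?_⟩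
        have h1 : (⨆ g' ∈ ({()} : Finset Unit), Submodule.span k {1 * e i₀ true} *
            Submodule.span k {(1 : F)}) = Submodule.span k {e i₀ true} := by
          rw [← Submodule.one_eq_span, mul_one]
          simp
        change E ≤ (⨆ g' ∈ ({()} : Finset Unit), Submodule.span k {1 * e i₀ true} *
            Submodule.span k {(1 : F)}) ⊔ M0
        rw [h1, hM0.sup_eq_top]
        exact le_top)
  refine ⟨p (), ?_, ?_⟩
  · intro h0
    have h1 := hp2 (Sum.inr ())
    change E ≤ (⨆ g' ∈ ({()} : Finset Unit), Submodule.span k {1 * p g'} *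
            Submodule.span k {(1 : F)}) ⊔ M0 at h1
    have h2 : (⨆ g' ∈ ({()} : Finset Unit), Submodule.span k {1 * p g'} *
        Submodule.span k {(1 : F)}) = ⊥ := by
      rw [← Submodule.one_eq_span]
      simp [h0]
    rw [h2, bot_sup_eq] at h1
    have h3 : e i₀ true ∈ Submodule.span k {e i₀ true} ⊓ M0 :=
      ⟨Submodule.mem_span_singleton_self _, h1 hzE⟩
    rw [hM0.inf_eq_bot] at h3
    exact hz0 ((Submodule.mem_bot k).1 h3)
  · intro ε
    refine ⟨?_, ?_⟩
    · rintro (_ | i)
      · exact hp ()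
      · exact (hG ε).1 i
    · intro R hR j hj
      -- it is enough to treat `j = j₀`
      suffices h : E ^ (j₀ + 1) ≤ Submodule.span k
          ((fun o : Option ι => o.elim (p ()) (fun i => e i (ε i))) '' (R : Set (Option ι))) *
            E ^ j₀ by
        have h1 : E ^ (j + 1) = E ^ (j₀ + 1) * E ^ (j - j₀) := by
          rw [← pow_add]
          congr 1
          omega
        have h2 : E ^ j = E ^ j₀ * E ^ (j - j₀) := by
          rw [← pow_add]
          congr 1
          omega
        rw [h1, h2, ← mul_assoc]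
        exact mul_le_mul' h le_rfl
      by_cases hn : none ∈ R
      · -- `R = insert none R'`
        have hR' : (Finset.eraseNone R).card = d := by
          rw [Finset.card_eraseNone_of_mem hn, hR]
          omega
        have h1 := hp2 (Sum.inl (ε, ⟨Finset.eraseNone R, hR'⟩))
        change E ^ (j₀ + 1) ≤ (⨆ g' ∈ ({()} : Finset Unit), Submodule.span k {1 * p g'} *
            E ^ j₀) ⊔ Submodule.span k ((fun i => e i (ε i)) '' (Finset.eraseNone R : Set ι)) *
            E ^ j₀ at h1
        refine h1.trans (sup_le ?_ ?_)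
        · refine iSup₂_le fun g' _ => ?_
          rw [one_mul]
          refine mul_le_mul' (Submodule.span_mono ?_) le_rfl
          rintro _ rfl
          exact ⟨none, hn, rfl⟩
        · refine mul_le_mul' (Submodule.span_mono ?_) le_rfl
          rintro _ ⟨i, hi, rfl⟩
          exact ⟨some i, Finset.mem_coe.2 (Finset.mem_eraseNone.1 (Finset.mem_coe.1 hi)), rfl⟩
      · have hR' : (Finset.eraseNone R).card = d + 1 := by
          rw [Finset.card_eraseNone_of_not_mem hn, hR]
        refine ((hG ε).2 (Finset.eraseNone R) hR' j₀ le_rfl).trans ?_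
        refine mul_le_mul' (Submodule.span_mono ?_) le_rfl
        rintro _ ⟨i, hi, rfl⟩
        exact ⟨some i, Finset.mem_coe.2 (Finset.mem_eraseNone.1 (Finset.mem_coe.1 hi)), rfl⟩

/-- common choice for all sign types -/
theorem grid3 [Infinite k] {ι : Type} [Fintype ι] [DecidableEq ι] (d j₀ m a θ : ℕ)
    (hj : 1 ≤ j₀) (hι : Fintype.card ι = m + 2) (hιd : d + 1 ≤ Fintype.card ι)
    (E : Submodule k F) [FiniteDimensional k E] (e : ι → Bool → F) (he : ∀ i s, e i s ≠ 0)
    (hG : ∀ ε : ι → Bool, GPos E (fun i => e i (ε i)) d j₀) (hS : PSat k F d m a θ)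
    (hP : ∀ κ, 1 ≤ κ → κ ≤ d → PGat k F (d - κ) (m + 1 - κ) a (2 * θ))
    (ha : j₀ + m + 3 ≤ a) (hθ : j₀ + m + 3 ≤ θ) :
    ∃ (x₀ : F) (p : ι → F), ∀ ε : ι → Bool, ∃ x : Option ι → ↥(E ^ (2 * θ + 1)),
      (x none : F) = x₀ ∧ (∀ i, (x (some i) : F) = e i (ε i) * p i) ∧
        GF (mulB E (2 * θ + 1)) x := by
  classical
  obtain ⟨e₀, he₀, hG₀⟩ := exists_e0 d j₀ hιd E e he hG
  haveI hfd : FiniteDimensional k (E ^ (2 * (2 * θ + 1)) : Submodule k F) := bg3_fd_pow E _
  let f : (ι → Bool) → Option ι → F := fun ε o => o.elim e₀ (fun i => e i (ε i))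
  have hfE : ∀ ε o, f ε o ∈ E := fun ε o => (hG₀ ε).1 o
  have hf0 : ∀ ε o, f ε o ≠ 0 := by
    rintro ε (_ | i)
    · exact he₀
    · exact he i (ε i)
  have hmul : ∀ ε o, ∀ q ∈ (E ^ (2 * θ) : Submodule k F), f ε o * q ∈ E ^ (2 * θ + 1) := by
    intro ε o q hq
    rw [pow_succ']
    exact Submodule.mul_mem_mul (hfE ε o) hq
  let X : (ι → Bool) → (Option ι → ↥(E ^ (2 * θ) : Submodule k F)) →
      (Option ι → ↥(E ^ (2 * θ + 1) : Submodule k F)) :=
    fun ε q o => ⟨f ε o * (q o : F), hmul ε o _ (q o).2⟩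
  have hX : ∀ ε q q' (t : k), X ε (q + t • q') = X ε q + t • X ε q' := by
    intro ε q q' t
    funext o
    apply Subtype.ext
    simp only [X, Pi.add_apply, Pi.smul_apply, Submodule.coe_add, Submodule.coe_smul]
    rw [mul_add, mul_smul_comm]
  obtain ⟨q, hq⟩ := g3_common (k := k) (X := Option ι → ↥(E ^ (2 * θ) : Submodule k F))
    (ν := ι → Bool) (fun ε q => GF (mulB E (2 * θ + 1)) (X ε q)) (by
      intro ε q1 q2 h1
      have h2 := (GF_line (mulB E (2 * θ + 1)) (X ε q1) (X ε (q2 - q1)) h1).1
      refine h2.subset ?_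
      intro t ht
      simp only [Set.mem_setOf_eq] at ht ⊢
      rwa [hX] at ht) (by
      intro ε
      obtain ⟨p, x, hp, hx, hGF⟩ := type_inst (I := Option ι) d j₀ m a θ hj
        (by rw [Fintype.card_option, hι]) (by rw [Fintype.card_option]; omega) E (f ε) (hf0 ε)
        (hG₀ ε) hS hP ha hθ
      refine ⟨fun o => ⟨p o, hp o⟩, ?_⟩
      have hxX : X ε (fun o => ⟨p o, hp o⟩) = x := by
        funext o
        apply Subtype.ext
        exact (hx o).symm
      rw [hxX]
      exact hGF)
  refine ⟨e₀ * (q none : F), fun i => (q (some i) : F), ?_⟩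
  intro ε
  exact ⟨X ε q, rfl, fun i => rfl, hq ε⟩

end B

end Pool.Agent.KM
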