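import Pool.Agent.KM.DField

/-!
Project KM2: descent of a multiplication `V × V → W` of finite dimensional subspaces of a field to
a large finite field.
-/

set_option autoImplicit false

open Function

namespace Pool.Agent.KM

section
variable {k F : Type} [Field k] [Field F] [Algebra k F]

/-- the element of `F` with coordinates `u` in the subfield `K` -/
noncomputable def dEv {h : ℕ} (b : Fin h → F) (K : Subfield k) (u : Fin h → K) : F :=
  ∑ i, algebraMap k F (u i) * b i

theorem dEv_mem {h : ℕ} (V : Submodule k F) (b : Fin h → F) (hb : ∀ i, b i ∈ V) (K : Subfield k)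
    (u : Fin h → K) : dEv b K u ∈ V := by
  unfold dEv
  refine Submodule.sum_mem _ fun i _ => ?_
  rw [← Algebra.smul_def]
  exact Submodule.smul_mem _ _ (hb i)

theorem dEv_zero_iff {h : ℕ} (b : Fin h → F) (hb : LinearIndependent k b) (K : Subfield k)
    (u : Fin h → K) : dEv b K u = 0 ↔ u = 0 := by
  constructor
  · intro hu
    have h1 : ∑ i, ((u i : K) : k) • b i = 0 := by
      rw [← hu, dEv]
      exact Finset.sum_congr rfl fun i _ => Algebra.smul_def _ _
    have h2 := Fintype.linearIndependent_iff.mp hb _ h1
    funext i
    exact Subtype.ext (h2 i)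
  · rintro rfl
    simp [dEv]

theorem exists_descent (p : ℕ) [Fact p.Prime] [CharP k p] [Algebra (ZMod p) k]
    [Algebra.IsAlgebraic (ZMod p) k] [Infinite k] (V W : Submodule k F) [FiniteDimensional k V]
    [FiniteDimensional k W] (hVW : V * V ≤ W) (S : Finset F) (hS : ∀ s ∈ S, s ∈ V) (q₀ : ℕ) :
    ∃ K : Subfield k, Finite K ∧ q₀ ≤ Nat.card K ∧
      ∃ (β : (Fin (Module.finrank k V) → K) →ₗ[K] (Fin (Module.finrank k V) → K) →ₗ[K]
          (Fin (Module.finrank k W) → K)) (f : (Fin (Module.finrank k V) → K) → F),
        (∀ a b, β a b = β b a) ∧ (∀ v, f v ∈ V) ∧ (∀ v, f v = 0 ↔ v = 0) ∧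
        (∀ s ∈ S, ∃ v, f v = s) ∧
        (∀ (I : Type) [Fintype I] (x x' : I → (Fin (Module.finrank k V) → K)),
          gen β Finset.univ x x' = 0 ↔ ∑ i, f (x i) * f (x' i) = 0) ∧
        ∀ (I : Type) [Fintype I] (D : Finset I) (x : I → (Fin (Module.finrank k V) → K)),
          (W ≤ Submodule.span k ((fun i => f (x i)) '' D) * V) → Surjective (gen β D x) := by
  classical
  let bV := Module.finBasis k V
  let bW := Module.finBasis k W
  have hmul : ∀ i j, (bV i : F) * (bV j : F) ∈ W := fun i j =>
    hVW (Submodule.mul_mem_mul (bV i).2 (bV j).2)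
  let a : Fin (Module.finrank k V) → Fin (Module.finrank k V) → Fin (Module.finrank k W) → k :=
    fun i j l => bW.repr ⟨_, hmul i j⟩ l
  have ha : ∀ i j, (bV i : F) * (bV j : F) = ∑ l, algebraMap k F (a i j l) * (bW l : F) := by
    intro i j
    have h1 := bW.sum_repr ⟨_, hmul i j⟩
    have h2 : ((∑ l, bW.repr ⟨_, hmul i j⟩ l • bW l : W) : F) = (bV i : F) * (bV j : F) :=
      congrArg (Subtype.val : W → F) h1
    rw [← h2]
    simp only [Submodule.coe_sum, Submodule.coe_smul, Algebra.smul_def, a]
  have hasym : ∀ i j l, a i j l = a j i l := by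
    intro i j l
    have h1 : (⟨_, hmul i j⟩ : W) = ⟨_, hmul j i⟩ := Subtype.ext (mul_comm _ _)
    simp only [a, h1]
  -- the coordinates of the elements of `S`
  let γ : F → Fin (Module.finrank k V) → k := fun s i =>
    if hs : s ∈ V then bV.repr ⟨s, hs⟩ i else 0
  have hγ : ∀ s ∈ V, s = ∑ i, algebraMap k F (γ s i) * (bV i : F) := by
    intro s hs
    have h1 := bV.sum_repr ⟨s, hs⟩
    have h2 : ((∑ i, bV.repr ⟨s, hs⟩ i • bV i : V) : F) = s :=
      congrArg (Subtype.val : V → F) h1
    conv_lhs => rw [← h2]
    simp only [Submodule.coe_sum, Submodule.coe_smul, Algebra.smul_def, γ, hs, dif_pos]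
  let C : Finset k :=
    (Finset.univ.image fun q : Fin (Module.finrank k V) × Fin (Module.finrank k V) ×
      Fin (Module.finrank k W) => a q.1 q.2.1 q.2.2) ∪
    (S ×ˢ Finset.univ).image fun q : F × Fin (Module.finrank k V) => γ q.1 q.2
  obtain ⟨K, hK, hKC, hKq⟩ := exists_subfield p k C q₀
  have haK : ∀ i j l, a i j l ∈ K := fun i j l => hKC _ (Finset.mem_union_left _
    (Finset.mem_image.2 ⟨(i, j, l), Finset.mem_univ _, rfl⟩))
  have hγK : ∀ s ∈ S, ∀ i, γ s i ∈ K := fun s hs i => hKC _ (Finset.mem_union_right _
    (Finset.mem_image.2 ⟨(s, i), Finset.mem_product.2 ⟨hs, Finset.mem_univ _⟩, rfl⟩))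
  let β : (Fin (Module.finrank k V) → K) →ₗ[K] (Fin (Module.finrank k V) → K) →ₗ[K]
      (Fin (Module.finrank k W) → K) := LinearMap.mk₂ K
    (fun u v l => ∑ i, ∑ j, (⟨a i j l, haK i j l⟩ : K) * (u i * v j))
    (by intro u u' v; funext l
        simp only [Pi.add_apply, ← Finset.sum_add_distrib]
        refine Finset.sum_congr rfl fun i _ => Finset.sum_congr rfl fun j _ => by ring)
    (by intro c u v; funext l
        simp only [Pi.smul_apply, smul_eq_mul, Finset.mul_sum]
        refine Finset.sum_congr rfl fun i _ => Finset.sum_congr rfl fun j _ => by ring)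
    (by intro u v v'; funext l
        simp only [Pi.add_apply, ← Finset.sum_add_distrib]
        refine Finset.sum_congr rfl fun i _ => Finset.sum_congr rfl fun j _ => by ring)
    (by intro c u v; funext l
        simp only [Pi.smul_apply, smul_eq_mul, Finset.mul_sum]
        refine Finset.sum_congr rfl fun i _ => Finset.sum_congr rfl fun j _ => by ring)
  have hβapp : ∀ u v l, β u v l = ∑ i, ∑ j, (⟨a i j l, haK i j l⟩ : K) * (u i * v j) :=
    fun u v l => rfl
  have hβ : ∀ u v, β u v = β v u := by
    intro u v
    funext l
    rw [hβapp, hβapp, Finset.sum_comm]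
    refine Finset.sum_congr rfl fun i _ => Finset.sum_congr rfl fun j _ => ?_
    have h1 : (⟨a j i l, haK j i l⟩ : K) = ⟨a i j l, haK i j l⟩ := Subtype.ext (hasym j i l)
    rw [h1]
    ring
  let f : (Fin (Module.finrank k V) → K) → F := dEv (fun i => (bV i : F)) K
  let fW : (Fin (Module.finrank k W) → K) → F := dEv (fun i => (bW i : F)) K
  have hVind : LinearIndependent k (fun i => (bV i : F)) :=
    bV.linearIndependent.map' V.subtype (LinearMap.ker_eq_bot.2 Subtype.val_injective)
  have hWind : LinearIndependent k (fun i => (bW i : F)) :=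
    bW.linearIndependent.map' W.subtype (LinearMap.ker_eq_bot.2 Subtype.val_injective)
  have hff : ∀ u v, f u * f v = fW (β u v) := by
    intro u v
    have h1 : fW (β u v) = ∑ l, ∑ i, ∑ j, algebraMap k F (a i j l) *
        (algebraMap k F (u i) * algebraMap k F (v j)) * (bW l : F) := by
      simp only [fW, dEv]
      refine Finset.sum_congr rfl fun l _ => ?_
      rw [hβapp]
      simp only [AddSubmonoidClass.coe_finset_sum, Subfield.coe_mul, map_sum, map_mul,
        Finset.sum_mul]
    have h2 : f u * f v = ∑ i, ∑ j, (algebraMap k F (u i) * algebraMap k F (v j)) *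
        ((bV i : F) * (bV j : F)) := by
      simp only [f, dEv]
      rw [Finset.sum_mul_sum]
      refine Finset.sum_congr rfl fun i _ => Finset.sum_congr rfl fun j _ => ?_
      ring
    have h3 : (∑ l, ∑ i, ∑ j, algebraMap k F (a i j l) *
        (algebraMap k F (u i) * algebraMap k F (v j)) * (bW l : F)) =
        ∑ i, ∑ j, ∑ l, algebraMap k F (a i j l) *
        (algebraMap k F (u i) * algebraMap k F (v j)) * (bW l : F) := by
      rw [Finset.sum_comm]
      exact Finset.sum_congr rfl fun i _ => Finset.sum_comm
    rw [h1, h2, h3]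
    refine Finset.sum_congr rfl fun i _ => Finset.sum_congr rfl fun j _ => ?_
    rw [ha, Finset.mul_sum]
    refine Finset.sum_congr rfl fun l _ => ?_
    ring
  have hfWsum : ∀ (I : Type) (s : Finset I) (y : I → (Fin (Module.finrank k W) → K)),
      fW (∑ i ∈ s, y i) = ∑ i ∈ s, fW (y i) := by
    intro I s y
    simp only [fW, dEv]
    rw [Finset.sum_comm]
    refine Finset.sum_congr rfl fun l _ => ?_
    rw [Finset.sum_apply, AddSubmonoidClass.coe_finset_sum, map_sum, Finset.sum_mul]
  have hgen : ∀ (I : Type) (D : Finset I) (x u : I → (Fin (Module.finrank k V) → K)),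
      gen β D x u = ∑ i ∈ D, β (x i) (u i) := by
    intro I D x u
    unfold gen
    rw [LinearMap.sum_apply]
    rfl
  refine ⟨K, hK, hKq, β, f, hβ, fun v => dEv_mem V _ (fun i => (bV i).2) K v,
    fun v => dEv_zero_iff _ hVind K v, ?_, ?_, ?_⟩
  · intro s hs
    refine ⟨fun i => ⟨γ s i, hγK s hs i⟩, ?_⟩
    exact (hγ s (hS s hs)).symm
  · intro I _ x x'
    have h1 : ∑ i, f (x i) * f (x' i) = fW (gen β Finset.univ x x') := by
      rw [hgen, hfWsum]
      exact Finset.sum_congr rfl fun i _ => hff _ _
    rw [h1]
    exact (dEv_zero_iff _ hWind K _).symm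
  · intro I _ D x hx
    -- the matrix
    let A : Matrix (Fin (Module.finrank k W)) (I × Fin (Module.finrank k V)) K :=
      fun l q => if q.1 ∈ D then ∑ i, (⟨a i q.2 l, haK i q.2 l⟩ : K) * x q.1 i else 0
    have hA : Surjective (A.map (algebraMap K k)).mulVecLin := by
      intro y
      have hy : (∑ l, algebraMap k F (y l) * (bW l : F)) ∈ W := by
        refine Submodule.sum_mem _ fun l _ => ?_
        rw [← Algebra.smul_def]
        exact Submodule.smul_mem _ _ (bW l).2
      have hmem := hx hy
      -- members of `span (f '' D) * V`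
      have key : ∀ z ∈ Submodule.span k ((fun i => f (x i)) '' (D : Set I)) * V,
          ∃ v : I → V, z = ∑ i ∈ D, f (x i) * (v i : F) := by
        intro z hz
        induction hz using Submodule.mul_induction_on' with
        | mem_mul_mem s hs t ht =>
          induction hs using Submodule.span_induction with
          | mem s hs =>
            obtain ⟨g, hg, rfl⟩ := hs
            refine ⟨fun g' => if g' = g then ⟨t, ht⟩ else 0, ?_⟩
            rw [Finset.sum_eq_single g]
            · simp
            · intro g' _ hne
              simp [hne]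
            · intro h; exact absurd (Finset.mem_coe.mp hg) h
          | zero => exact ⟨0, by simp⟩
          | add s s' _ _ h1 h2 =>
            obtain ⟨v, hv⟩ := h1
            obtain ⟨v', hv'⟩ := h2
            refine ⟨v + v', ?_⟩
            rw [add_mul, hv, hv', ← Finset.sum_add_distrib]
            exact Finset.sum_congr rfl (fun g _ => by simp [mul_add])
          | smul c s _ h1 =>
            obtain ⟨v, hv⟩ := h1
            refine ⟨c • v, ?_⟩
            rw [smul_mul_assoc, hv, Finset.smul_sum]
            exact Finset.sum_congr rfl (fun g _ => by simp)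
        | add s _ s' _ h1 h2 =>
          obtain ⟨v, hv⟩ := h1
          obtain ⟨v', hv'⟩ := h2
          refine ⟨v + v', ?_⟩
          rw [hv, hv', ← Finset.sum_add_distrib]
          exact Finset.sum_congr rfl (fun g _ => by simp [mul_add])
      obtain ⟨v, hv⟩ := key _ hmem
      refine ⟨fun q => bV.repr (v q.1) q.2, ?_⟩
      have hvi : ∀ i, (v i : F) = ∑ j, algebraMap k F (bV.repr (v i) j) * (bV j : F) := by
        intro i
        have h1 := congrArg (Subtype.val : V → F) (bV.sum_repr (v i))
        conv_lhs => rw [← h1]
        simp only [Submodule.coe_sum, Submodule.coe_smul, Algebra.smul_def]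
      have h2 : ∑ l, algebraMap k F (y l) * (bW l : F) =
          ∑ l, algebraMap k F ((A.map (algebraMap K k)).mulVecLin
            (fun q => bV.repr (v q.1) q.2) l) * (bW l : F) := by
        rw [hv]
        have h3 : ∀ l, (A.map (algebraMap K k)).mulVecLin (fun q => bV.repr (v q.1) q.2) l =
            ∑ i ∈ D, ∑ j, ∑ i', a i' j l * ((x i i' : K) : k) * bV.repr (v i) j := by
          intro l
          rw [Matrix.mulVecLin_apply, Matrix.mulVec, dotProduct, Fintype.sum_prod_type]
          have h4 : ∀ i, ∑ j, (A.map (algebraMap K k)) l (i, j) * bV.repr (v (i, j).1) (i, j).2 =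
              if i ∈ D then ∑ j, ∑ i', a i' j l * ((x i i' : K) : k) * bV.repr (v i) j
              else 0 := by
            intro i
            split_ifs with hi
            · refine Finset.sum_congr rfl fun j _ => ?_
              rw [Matrix.map_apply]
              simp only [A, hi, if_true]
              rw [map_sum, Finset.sum_mul]
              refine Finset.sum_congr rfl fun i' _ => ?_
              rw [map_mul]
              rfl
            · refine Finset.sum_eq_zero fun j _ => ?_
              rw [Matrix.map_apply]
              simp only [A, hi, if_false, map_zero, zero_mul]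
          rw [Finset.sum_congr rfl fun i _ => h4 i, Finset.sum_ite_mem, Finset.univ_inter]
        have h5 : ∀ i, f (x i) * (v i : F) = ∑ l, ∑ j, ∑ i', algebraMap k F (a i' j l) *
            algebraMap k F ((x i i' : K) : k) * algebraMap k F (bV.repr (v i) j) * (bW l : F) := by
          intro i
          rw [hvi i]
          simp only [f, dEv]
          rw [Finset.sum_mul_sum, Finset.sum_comm]
          have h10 : (∑ l, ∑ j, ∑ i', algebraMap k F (a i' j l) *
              algebraMap k F ((x i i' : K) : k) * algebraMap k F (bV.repr (v i) j) *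
              (bW l : F)) = ∑ j, ∑ i', ∑ l, algebraMap k F (a i' j l) *
              algebraMap k F ((x i i' : K) : k) * algebraMap k F (bV.repr (v i) j) *
              (bW l : F) := by
            rw [Finset.sum_comm]
            exact Finset.sum_congr rfl fun i _ => Finset.sum_comm
          rw [h10]
          refine Finset.sum_congr rfl fun j _ => Finset.sum_congr rfl fun i' _ => ?_
          have h6 : algebraMap k F ((x i i' : K) : k) * (bV i' : F) *
              (algebraMap k F (bV.repr (v i) j) * (bV j : F)) =
              algebraMap k F ((x i i' : K) : k) * algebraMap k F (bV.repr (v i) j) *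
              ((bV i' : F) * (bV j : F)) := by ring
          rw [h6, ha, Finset.mul_sum]
          refine Finset.sum_congr rfl fun l _ => ?_
          ring
        rw [Finset.sum_congr rfl fun i _ => h5 i, Finset.sum_comm]
        refine Finset.sum_congr rfl fun l _ => ?_
        rw [h3]
        simp only [map_sum, map_mul, Finset.sum_mul]
      -- compare coordinates
      funext l
      have h7 : ∑ l, (y l - (A.map (algebraMap K k)).mulVecLin
          (fun q => bV.repr (v q.1) q.2) l) • (bW l : F) = 0 := by
        simp only [sub_smul, Finset.sum_sub_distrib]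
        simp only [Algebra.smul_def]
        rw [h2, sub_self]
      have h8 := Fintype.linearIndependent_iff.mp hWind _ h7 l
      exact (sub_eq_zero.1 h8).symm
    have hA' := surj_descend A hA
    intro y
    obtain ⟨u, hu⟩ := hA' y
    refine ⟨fun i j => u (i, j), ?_⟩
    rw [hgen, ← hu]
    funext l
    rw [Finset.sum_apply, Matrix.mulVecLin_apply, Matrix.mulVec, dotProduct,
      Fintype.sum_prod_type]
    have h9 : ∀ i, ∑ j, A l (i, j) * u (i, j) = if i ∈ D then β (x i) (fun j => u (i, j)) l
        else 0 := by
      intro i
      split_ifs with hi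
      · rw [hβapp, Finset.sum_comm]
        refine Finset.sum_congr rfl fun j _ => ?_
        simp only [A, hi, if_true]
        rw [Finset.sum_mul]
        refine Finset.sum_congr rfl fun i' _ => by ring
      · refine Finset.sum_eq_zero fun j _ => ?_
        simp only [A, hi, if_false, zero_mul]
    rw [Finset.sum_congr rfl fun i _ => h9 i, Finset.sum_ite_mem, Finset.univ_inter]

end

end Pool.Agent.KM
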