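import Pool.Agent.KM.FDefs
import Pool.Agent.KM.BLine
import Pool.Agent.KM.FLine

/-!
Project KM3 (MP_27fd67_ag), row F4a: numbers of bad entries and of bad syzygies.
-/

set_option autoImplicit false
set_option linter.unusedSectionVars false

open Function

namespace Pool.Agent.KM

section F4
variable {K V W I : Type} [Field K] [Fintype K] [AddCommGroup V] [Module K V] [AddCommGroup W]
  [Module K W] [Fintype I] [DecidableEq I] [Fintype V] [Finite W] (β : V →ₗ[K] V →ₗ[K] W)

private theorem f4_update (i : I) (x : I → V) (z y : V) (t : K) :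
    update x i (z + t • (y - z)) = update x i z + t • (Pi.single i (y - z) : I → V) := by
  funext l
  by_cases h : l = i
  · subst h
    simp
  · simp [update_of_ne h, Pi.single_eq_of_ne h]

theorem bad_entry3 (i : I) (x : I → V) (hx : ∃ z, GF β (update x i z)) :
    {z : V | ¬ GF β (update x i z)}.ncard * (Fintype.card K - 1) ≤
      Cb (Fintype.card I) (Module.finrank K W) * Fintype.card V := by
  classical
  have hfd : Module.Finite K W := Module.Finite.of_finite
  obtain ⟨z₀, hz⟩ := hx
  rw [← Nat.card_eq_fintype_card (α := V)]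
  refine count_bad (fun z => ¬ GF β (update x i z)) z₀
    (Cb (Fintype.card I) (Module.finrank K W)) fun y => ?_
  have h := (GF_line β (update x i z₀) (Pi.single i (y - z₀)) hz).2
  simpa only [f4_update] using h

theorem bad_cocycle3 (x : I → V) (hx : GF β x) :
    {z : V | ∃ i, ¬ GF β (update x i z)}.ncard * (Fintype.card K - 1) ≤
      (Fintype.card I * Cb (Fintype.card I) (Module.finrank K W)) * Fintype.card V := by
  classical
  have h0 : {z : V | ∃ i, ¬ GF β (update x i z)} = ⋃ i : I, {z : V | ¬ GF β (update x i z)} := by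
    ext z
    simp
  rw [h0]
  refine (Nat.mul_le_mul_right _ (Set.ncard_iUnion_le_of_fintype _)).trans ?_
  rw [Finset.sum_mul]
  refine (Finset.sum_le_sum fun i _ => bad_entry3 β i x
    ⟨x i, by rw [update_eq_self]; exact hx⟩).trans ?_
  rw [Finset.sum_const, Finset.card_univ, smul_eq_mul]
  exact le_of_eq (by ring)

theorem bad_syz3 (x : I → V) (hx : GF β x) :
    {x' : I → V | gen β Finset.univ x x' = 0 ∧ ¬ Frm β (x, x')}.ncard * (Fintype.card K - 1) ≤
      Cb (Fintype.card I) (Module.finrank K W) *
        Nat.card (LinearMap.ker (gen β Finset.univ x)) := by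
  classical
  have hfd : Module.Finite K W := Module.Finite.of_finite
  obtain ⟨y₀, hy₀⟩ := hx
  have h1 : {x' : I → V | gen β Finset.univ x x' = 0 ∧ ¬ Frm β (x, x')} =
      Subtype.val '' {y : LinearMap.ker (gen β Finset.univ x) | ¬ Frm β (x, (y : I → V))} := by
    ext x'
    constructor
    · rintro ⟨h, h'⟩
      exact ⟨⟨x', LinearMap.mem_ker.2 h⟩, h', rfl⟩
    · rintro ⟨y, h, rfl⟩
      exact ⟨LinearMap.mem_ker.1 y.2, h⟩
  rw [h1, Set.ncard_image_of_injective _ Subtype.val_injective]
  refine count_bad (fun y : LinearMap.ker (gen β Finset.univ x) => ¬ Frm β (x, (y : I → V)))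
    ⟨y₀, LinearMap.mem_ker.2 hy₀.1⟩ (Cb (Fintype.card I) (Module.finrank K W)) fun y => ?_
  have hm : gen β Finset.univ x ((y : I → V) - y₀) = 0 := by
    rw [map_sub, LinearMap.mem_ker.1 y.2]
    rw [show gen β Finset.univ x y₀ = 0 from hy₀.1, sub_zero]
  have h := (Frm_line β x y₀ ((y : I → V) - y₀) hy₀ hm).2
  simpa using h

end F4

end Pool.Agent.KM
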