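import Pool.Agent.KM.FDefs

/-!
Project KM3 (MP_27fd67_ag), row F0: frames, basic lemmas (helper81).
-/

set_option autoImplicit false
set_option linter.all false

open Function

namespace Pool.Agent.KM

section F0
variable {K V W I : Type} [Field K] [AddCommGroup V] [Module K V] [AddCommGroup W]
  [Module K W] [Fintype I] [DecidableEq I] (β : V →ₗ[K] V →ₗ[K] W)

private theorem f0_gen (x u : I → V) : gen β Finset.univ x u = ∑ i, β (x i) (u i) := by
  simp [gen]

private theorem f0_fcfc (P Q : Finset I) (ω : (I → V) × (I → V)) :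
    fc Q (fc P ω, fc Pᶜ ω) = fc (symmDiff P Q) ω := by
  funext i
  by_cases hP : i ∈ P <;> by_cases hQ : i ∈ Q <;>
    simp [fc, Finset.piecewise, hP, hQ, Finset.mem_symmDiff]

private theorem f0_gen_swap (hβ : ∀ a b, β a b = β b a) (P : Finset I)
    (ω : (I → V) × (I → V)) :
    gen β Finset.univ (fc P ω) (fc Pᶜ ω) = gen β Finset.univ ω.1 ω.2 := by
  rw [f0_gen, f0_gen]
  refine Finset.sum_congr rfl fun i _ => ?_
  by_cases hP : i ∈ P
  · simp [fc, Finset.piecewise, hP, hβ (ω.1 i)]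
  · simp [fc, Finset.piecewise, hP]

private theorem f0_half (hβ : ∀ a b, β a b = β b a) (P : Finset I) (ω : (I → V) × (I → V))
    (h : Frm β ω) : Frm β (fc P ω, fc Pᶜ ω) := by
  refine ⟨?_, ?_, ?_⟩
  · show gen β Finset.univ (fc P ω) (fc Pᶜ ω) = 0
    rw [f0_gen_swap β hβ]
    exact h.1
  · intro i
    show fc P ω i ≠ 0 ∧ fc Pᶜ ω i ≠ 0
    obtain ⟨h1, h2⟩ := h.2.1 i
    by_cases hP : i ∈ P
    · simp [fc, Finset.piecewise, hP, h1, h2]
    · simp [fc, Finset.piecewise, hP, h1, h2]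
  · intro Q
    rw [f0_fcfc]
    exact h.2.2 _

theorem Frm_swap (hβ : ∀ a b, β a b = β b a) (P : Finset I) (ω : (I → V) × (I → V)) :
    Frm β (fc P ω, fc Pᶜ ω) ↔ Frm β ω := by
  constructor
  · intro h
    have h1 := f0_half β hβ P _ h
    rw [f0_fcfc, f0_fcfc] at h1
    have e1 : fc (symmDiff P P) ω = ω.1 := by
      rw [symmDiff_self]
      funext i
      simp [fc]
    have e2 : fc (symmDiff P Pᶜ) ω = ω.2 := by
      rw [symmDiff_compl_self]
      funext i
      simp [fc]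
    rw [e1, e2] at h1
    exact h1
  · exact f0_half β hβ P ω

theorem GF_face (hβ : ∀ a b, β a b = β b a) (P : Finset I) (ω : (I → V) × (I → V))
    (h : Frm β ω) : GF β (fc P ω) :=
  ⟨fc Pᶜ ω, f0_half β hβ P ω h⟩

theorem GF_ont (x : I → V) (h : GF β x) : Ont β x := by
  obtain ⟨x', hx'⟩ := h
  have := hx'.2.2 ∅
  have e : fc (∅ : Finset I) (x, x') = x := by
    funext i
    simp [fc]
  rwa [e] at this

theorem GF_ne (x : I → V) (h : GF β x) (i : I) : x i ≠ 0 := by
  obtain ⟨x', hx'⟩ := h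
  exact (hx'.2.1 i).1

theorem Ont_perm (σ : Equiv.Perm I) (x : I → V) (h : Ont β x) : Ont β (x ∘ σ) := by
  intro w
  obtain ⟨u, hu⟩ := h w
  refine ⟨u ∘ σ, ?_⟩
  rw [← hu, f0_gen, f0_gen]
  exact Equiv.sum_comp σ fun i => β (x i) (u i)

theorem GF_perm (σ : Equiv.Perm I) (x : I → V) (h : GF β x) : GF β (x ∘ σ) := by
  obtain ⟨x', h1, h2, h3⟩ := h
  refine ⟨x' ∘ σ, ?_, fun i => h2 (σ i), fun P => ?_⟩
  · show gen β Finset.univ (x ∘ σ) (x' ∘ σ) = 0
    have h1' : gen β Finset.univ x x' = 0 := h1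
    rw [f0_gen] at h1' ⊢
    rw [← h1']
    exact Equiv.sum_comp σ fun i => β (x i) (x' i)
  · have h4 := Ont_perm β σ _ (h3 (P.image σ))
    have e : fc (P.image σ) (x, x') ∘ σ = fc P (x ∘ σ, x' ∘ σ) := by
      funext i
      by_cases hP : i ∈ P
      · have : σ i ∈ P.image σ := Finset.mem_image_of_mem _ hP
        simp [fc, Finset.piecewise, hP]
      · have : σ i ∉ P.image σ := by
          intro h5
          obtain ⟨l, hl, hl'⟩ := Finset.mem_image.1 h5
          exact hP (σ.injective hl' ▸ hl)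
        simp [fc, Finset.piecewise, hP]
    rw [e] at h4
    exact h4

private theorem f0_mem_Om [Fintype V] (ω : (I → V) × (I → V)) :
    ω ∈ Om β ↔ gen β Finset.univ ω.1 ω.2 = 0 := by
  classical
  simp [Om]

theorem mem_Ofr [Fintype V] (ω : (I → V) × (I → V)) : ω ∈ Ofr β ↔ Frm β ω := by
  classical
  unfold Ofr
  rw [Finset.mem_filter, f0_mem_Om]
  exact ⟨fun h => h.2, fun h => ⟨h.1, h⟩⟩

theorem mem_Onf [Fintype V] (P : Finset I) (ω : (I → V) × (I → V)) :
    ω ∈ Onf β P ↔ gen β Finset.univ ω.1 ω.2 = 0 ∧ ¬ Frm β ω ∧ Ont β (fc P ω) := by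
  classical
  unfold Onf
  rw [Finset.mem_filter, f0_mem_Om]

theorem mem_Gff [Fintype V] (x : I → V) : x ∈ Gff β ↔ GF β x := by
  classical
  unfold Gff
  rw [Finset.mem_filter]
  exact ⟨fun h => h.2, fun h => ⟨Finset.mem_univ _, h⟩⟩

end F0

end Pool.Agent.KM
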