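import Pool.Agent.KM.FDefs
import Pool.Agent.KM.AMean
import Pool.Agent.KM.AOmega
import Pool.Agent.KM.FFrm
import Pool.Agent.KM.FBad

/-!
Project KM3 (MP_27fd67_ag), row F4b: bad frames, the mass on generating tuples (helper54).
-/

set_option autoImplicit false
set_option linter.all false

open Function

namespace Pool.Agent.KM

section F4
variable {K V W I : Type} [Field K] [Fintype K] [AddCommGroup V] [Module K V] [AddCommGroup W]
  [Module K W] [Fintype I] [DecidableEq I] [Fintype V] [Finite W] (β : V →ₗ[K] V →ₗ[K] W)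

private theorem f4b_cast : ((Fintype.card K - 1 : ℕ) : ℝ) = (Fintype.card K : ℝ) - 1 := by
  rw [Nat.cast_sub Fintype.card_pos, Nat.cast_one]

/-- the mass of `Tm U i` off the good tuples -/
private theorem f4b_mass (U : (I → V) → ℝ) (hU : ∀ x, ¬ GF β x → U x = 0) (i : I) :
    open scoped Classical in
    (∑ x : I → V, if GF β x then 0 else Tm U i x ^ 2) * ((Fintype.card K : ℝ) - 1) ≤
      Cb (Fintype.card I) (Module.finrank K W) * ∑ x : I → V, Tm U i x ^ 2 := by
  classical
  have hV : (0 : ℝ) < Fintype.card V := by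
    exact_mod_cast (Fintype.card_pos : 0 < Fintype.card V)
  have h1 := sum_update_all (fun x : I → V => if GF β x then 0 else Tm U i x ^ 2) i
  have h2 : ∀ x : I → V, (∑ z : V, (if GF β (update x i z) then 0 else
      Tm U i (update x i z) ^ 2)) * ((Fintype.card K : ℝ) - 1) ≤
      (Cb (Fintype.card I) (Module.finrank K W) * Fintype.card V) * Tm U i x ^ 2 := by
    intro x
    have h3 : (∑ z : V, (if GF β (update x i z) then 0 else Tm U i (update x i z) ^ 2)) =
        {z : V | ¬ GF β (update x i z)}.ncard * Tm U i x ^ 2 := by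
      have h4 : {z : V | ¬ GF β (update x i z)}.ncard =
          (Finset.univ.filter fun z : V => ¬ GF β (update x i z)).card := by
        rw [Set.ncard_eq_toFinset_card', Set.toFinset_setOf]
      rw [h4, ← nsmul_eq_mul, ← Finset.sum_const, Finset.sum_filter]
      refine Finset.sum_congr rfl fun z _ => ?_
      by_cases hz : GF β (update x i z)
      · simp [hz]
      · simp [hz, Tm_update]
    rw [h3]
    by_cases hx : ∃ z, GF β (update x i z)
    · have h5 := bad_entry3 β i x hx
      have h6 : ({z : V | ¬ GF β (update x i z)}.ncard : ℝ) * ((Fintype.card K : ℝ) - 1) ≤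
          Cb (Fintype.card I) (Module.finrank K W) * Fintype.card V := by
        rw [← f4b_cast]
        exact_mod_cast h5
      calc _ = ({z : V | ¬ GF β (update x i z)}.ncard : ℝ) * ((Fintype.card K : ℝ) - 1) *
            Tm U i x ^ 2 := by ring
        _ ≤ _ := mul_le_mul_of_nonneg_right h6 (sq_nonneg _)
    · push Not at hx
      have h7 : Tm U i x = 0 := by
        unfold Tm
        rw [Finset.sum_eq_zero fun z _ => hU _ (hx z), zero_div]
      rw [h7]
      simp
  have h8 := Finset.sum_le_sum fun x (_ : x ∈ (Finset.univ : Finset (I → V))) => h2 x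
  rw [← Finset.sum_mul, h1, ← Finset.mul_sum] at h8
  refine le_of_mul_le_mul_left ?_ hV
  calc _ = (Fintype.card V : ℝ) * (∑ x : I → V, if GF β x then 0 else Tm U i x ^ 2) *
        ((Fintype.card K : ℝ) - 1) := by ring
    _ ≤ _ := h8
    _ = _ := by ring

private theorem f4b_swap (hβ : ∀ a b, β a b = β b a) (U : (I → V) → ℝ) (i : I) (P : Finset I) :
    ∑ ω ∈ Onf β P, Tm U i (fc P ω) ^ 2 = ∑ ω ∈ Onf β ∅, Tm U i ω.1 ^ 2 := by
  have hgen : ∀ ω : (I → V) × (I → V), gen β Finset.univ ω.1 ω.2 = 0 →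
      gen β Finset.univ (fc P ω) (fc Pᶜ ω) = 0 := by
    intro ω h
    rw [← h]
    simp only [gen, LinearMap.sum_apply, LinearMap.comp_apply, LinearMap.proj_apply]
    refine Finset.sum_congr rfl fun j _ => ?_
    by_cases hj : j ∈ P
    · simp only [fc, Finset.piecewise, hj, Finset.mem_compl, if_true, not_true_eq_false, if_false]
      exact hβ _ _
    · simp only [fc, Finset.piecewise, hj, Finset.mem_compl, if_true, not_false_eq_true, if_false]
  have hinv : ∀ ω : (I → V) × (I → V),
      (fc P (fc P ω, fc Pᶜ ω), fc Pᶜ (fc P ω, fc Pᶜ ω)) = ω := by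
    intro ω
    refine Prod.ext ?_ ?_ <;> funext j <;> by_cases hj : j ∈ P <;> simp [fc, Finset.piecewise, hj]
  refine Finset.sum_nbij' (fun ω => (fc P ω, fc Pᶜ ω)) (fun ω => (fc P ω, fc Pᶜ ω)) ?_ ?_ ?_ ?_ ?_
  · intro ω hω
    rw [mem_Onf] at hω ⊢
    refine ⟨hgen ω hω.1, fun h => hω.2.1 ((Frm_swap β hβ P ω).1 h), ?_⟩
    have : fc (∅ : Finset I) (fc P ω, fc Pᶜ ω) = fc P ω := by simp [fc]
    rw [this]
    exact hω.2.2
  · intro ω hω
    rw [mem_Onf] at hω ⊢
    refine ⟨hgen ω hω.1, fun h => hω.2.1 ((Frm_swap β hβ P ω).1 h), ?_⟩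
    have h1 : fc P (fc P ω, fc Pᶜ ω) = ω.1 := congrArg Prod.fst (hinv ω)
    have h2 : fc (∅ : Finset I) ω = ω.1 := by simp [fc]
    rw [h1, ← h2]
    exact hω.2.2
  · intro ω _
    exact hinv ω
  · intro ω _
    exact hinv ω
  · intro ω _
    rfl

theorem bad_frames (hβ : ∀ a b, β a b = β b a) (U : (I → V) → ℝ)
    (hU : ∀ x, ¬ GF β x → U x = 0) (i : I) (P : Finset I) :
    (∑ ω ∈ Onf β P, Tm U i (fc P ω) ^ 2) * Nat.card W * ((Fintype.card K : ℝ) - 1) ≤
      2 * Cb (Fintype.card I) (Module.finrank K W) * ((Fintype.card V : ℝ) ^ Fintype.card I *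
        ∑ x : I → V, Tm U i x ^ 2) := by
  classical
  have hK : (0 : ℝ) ≤ (Fintype.card K : ℝ) - 1 := by
    rw [← f4b_cast]
    exact Nat.cast_nonneg _
  set C : ℝ := (Cb (Fintype.card I) (Module.finrank K W) : ℝ) with hC
  set N : ℝ := (Fintype.card V : ℝ) ^ Fintype.card I with hN
  have hN0 : 0 ≤ N := by positivity
  rw [f4b_swap β hβ U i P]
  have h1 : ∑ ω ∈ Onf β ∅, Tm U i ω.1 ^ 2 = ∑ x : I → V, (if Ont β x then
      ({x' : I → V | gen β Finset.univ x x' = 0 ∧ ¬ Frm β (x, x')}.ncard : ℝ) *
        Tm U i x ^ 2 else 0) := by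
    have h2 : Onf β (∅ : Finset I) = Finset.univ.filter fun ω : (I → V) × (I → V) =>
        gen β Finset.univ ω.1 ω.2 = 0 ∧ ¬ Frm β ω ∧ Ont β ω.1 := by
      ext ω
      rw [mem_Onf]
      simp [fc]
    rw [h2, Finset.sum_filter, Fintype.sum_prod_type]
    refine Finset.sum_congr rfl fun x _ => ?_
    by_cases hx : Ont β x
    · rw [if_pos hx]
      have h4 : {x' : I → V | gen β Finset.univ x x' = 0 ∧ ¬ Frm β (x, x')}.ncard =
          (Finset.univ.filter fun x' : I → V =>
            gen β Finset.univ x x' = 0 ∧ ¬ Frm β (x, x')).card := by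
        rw [Set.ncard_eq_toFinset_card', Set.toFinset_setOf]
      rw [h4, ← nsmul_eq_mul, ← Finset.sum_const, Finset.sum_filter]
      refine Finset.sum_congr rfl fun x' _ => ?_
      simp [hx]
    · rw [if_neg hx]
      refine Finset.sum_eq_zero fun x' _ => ?_
      simp [hx]
  rw [h1, Finset.sum_mul, Finset.sum_mul]
  have h5 : ∀ x : I → V, (if Ont β x then
      ({x' : I → V | gen β Finset.univ x x' = 0 ∧ ¬ Frm β (x, x')}.ncard : ℝ) *
        Tm U i x ^ 2 else 0) * Nat.card W * ((Fintype.card K : ℝ) - 1) ≤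
      N * (C * Tm U i x ^ 2) +
        N * ((if GF β x then 0 else Tm U i x ^ 2) * ((Fintype.card K : ℝ) - 1)) := by
    intro x
    have hp1 : 0 ≤ N * (C * Tm U i x ^ 2) := by positivity
    have hp2 : 0 ≤ N * ((if GF β x then 0 else Tm U i x ^ 2) * ((Fintype.card K : ℝ) - 1)) := by
      refine mul_nonneg hN0 (mul_nonneg ?_ hK)
      split_ifs
      · exact le_rfl
      · exact sq_nonneg _
    by_cases hx : Ont β x
    · rw [if_pos hx]
      have hk := card_ker_gen β x hx
      have hk' : (Nat.card (LinearMap.ker (gen β Finset.univ x)) : ℝ) * Nat.card W = N := by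
        rw [hN]
        exact_mod_cast hk
      by_cases hg : GF β x
      · refine le_trans ?_ (le_add_of_nonneg_right hp2)
        have h6 : ({x' : I → V | gen β Finset.univ x x' = 0 ∧ ¬ Frm β (x, x')}.ncard : ℝ) *
            ((Fintype.card K : ℝ) - 1) ≤
            C * Nat.card (LinearMap.ker (gen β Finset.univ x)) := by
          rw [← f4b_cast, hC]
          exact_mod_cast bad_syz3 β x hg
        calc _ = ({x' : I → V | gen β Finset.univ x x' = 0 ∧ ¬ Frm β (x, x')}.ncard : ℝ) *
              ((Fintype.card K : ℝ) - 1) * (Nat.card W * Tm U i x ^ 2) := by ring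
          _ ≤ C * Nat.card (LinearMap.ker (gen β Finset.univ x)) *
              (Nat.card W * Tm U i x ^ 2) :=
              mul_le_mul_of_nonneg_right h6 (by positivity)
          _ = ((Nat.card (LinearMap.ker (gen β Finset.univ x)) : ℝ) * Nat.card W) *
              (C * Tm U i x ^ 2) := by ring
          _ = _ := by rw [hk']
      · refine le_trans ?_ (le_add_of_nonneg_left hp1)
        rw [if_neg hg]
        have h6 : ({x' : I → V | gen β Finset.univ x x' = 0 ∧ ¬ Frm β (x, x')}.ncard : ℝ) ≤
            Nat.card (LinearMap.ker (gen β Finset.univ x)) := by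
          have h7 : {x' : I → V | gen β Finset.univ x x' = 0 ∧ ¬ Frm β (x, x')} ⊆
              ((LinearMap.ker (gen β Finset.univ x) : Submodule K (I → V)) : Set (I → V)) :=
            fun x' h => LinearMap.mem_ker.2 h.1
          have h8 := Set.ncard_le_ncard h7 (Set.toFinite _)
          rw [← Nat.card_coe_set_eq] at h8
          refine le_trans (Nat.cast_le.2 ?_) le_rfl
          rw [← Nat.card_coe_set_eq]
          exact h8
        calc _ = ({x' : I → V | gen β Finset.univ x x' = 0 ∧ ¬ Frm β (x, x')}.ncard : ℝ) *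
              (Nat.card W * Tm U i x ^ 2 * ((Fintype.card K : ℝ) - 1)) := by ring
          _ ≤ (Nat.card (LinearMap.ker (gen β Finset.univ x)) : ℝ) *
              (Nat.card W * Tm U i x ^ 2 * ((Fintype.card K : ℝ) - 1)) :=
              mul_le_mul_of_nonneg_right h6 (by positivity)
          _ = ((Nat.card (LinearMap.ker (gen β Finset.univ x)) : ℝ) * Nat.card W) *
              (Tm U i x ^ 2 * ((Fintype.card K : ℝ) - 1)) := by ring
          _ = _ := by rw [hk']
    · rw [if_neg hx]
      simp only [zero_mul]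
      exact add_nonneg hp1 hp2
  refine (Finset.sum_le_sum fun x _ => h5 x).trans ?_
  rw [Finset.sum_add_distrib, ← Finset.mul_sum, ← Finset.mul_sum, ← Finset.mul_sum,
    ← Finset.sum_mul]
  have h9 := mul_le_mul_of_nonneg_left (f4b_mass β U hU i) hN0
  calc _ ≤ N * (C * ∑ x : I → V, Tm U i x ^ 2) + N * (C * ∑ x : I → V, Tm U i x ^ 2) :=
        add_le_add le_rfl h9
    _ = _ := by ring

/-- most of the mass of `Tm U i` is on generating tuples -/
theorem Ont_mass (U : (I → V) → ℝ) (hU : ∀ x, ¬ GF β x → U x = 0) (i : I) :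
    open scoped Classical in
    (∑ x : I → V, Tm U i x ^ 2) * ((Fintype.card K : ℝ) - 1) ≤
      (∑ x ∈ Finset.univ.filter (fun x : I → V => Ont β x), Tm U i x ^ 2) *
        ((Fintype.card K : ℝ) - 1) +
      Cb (Fintype.card I) (Module.finrank K W) * ∑ x : I → V, Tm U i x ^ 2 := by
  classical
  have hK : (0 : ℝ) ≤ (Fintype.card K : ℝ) - 1 := by
    rw [← f4b_cast]
    exact Nat.cast_nonneg _
  refine le_trans ?_ (add_le_add le_rfl (f4b_mass β U hU i))
  rw [← add_mul]
  refine mul_le_mul_of_nonneg_right ?_ hK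
  rw [Finset.sum_filter, ← Finset.sum_add_distrib]
  refine Finset.sum_le_sum fun x _ => ?_
  by_cases hx : Ont β x
  · rw [if_pos hx]
    refine le_add_of_nonneg_right ?_
    split_ifs
    · exact le_rfl
    · exact sq_nonneg _
  · have hg : ¬ GF β x := fun h => hx (GF_ont β x h)
    rw [if_neg hx, if_neg hg, zero_add]

end F4

end Pool.Agent.KM
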