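import Pool.Agent.KM.FDefs
import Pool.Agent.KM.AMean
import Pool.Agent.KM.AOmega

/-!
Project KM3 (MP_27fd67_ag), row F5: the lower bound over frames.
-/

set_option autoImplicit false
set_option linter.all false

open Function

namespace Pool.Agent.KM

section F5
variable {K V W I : Type} [Field K] [Fintype K] [AddCommGroup V] [Module K V] [AddCommGroup W]
  [Module K W] [Fintype I] [DecidableEq I] [Fintype V] [Finite W] (β : V →ₗ[K] V →ₗ[K] W)

private theorem f5_Tm_congr {V I : Type} [Fintype V] [DecidableEq I] (U : (I → V) → ℝ) (i : I)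
    (x y : I → V) (h : ∀ l, l ≠ i → x l = y l) : Tm U i x = Tm U i y := by
  have : x = update y i (x i) := by
    funext l
    by_cases hl : l = i
    · subst hl; simp
    · rw [update_of_ne hl, h l hl]
  rw [this, Tm_update]

private theorem f5_gen_apply (x u : I → V) :
    gen β Finset.univ x u = ∑ i, β (x i) (u i) := by
  simp [gen, LinearMap.sum_apply]

private theorem f5_gen_root {i j : I} (hij : i ≠ j) (a : K) (t u : I → V) :
    gen β Finset.univ (update t j (t j + a • t i)) u =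
      gen β Finset.univ t (update u i (u i + a • u j)) := by
  rw [f5_gen_apply, f5_gen_apply]
  have h1 : ∀ l, β (update t j (t j + a • t i) l) (u l) =
      β (t l) (u l) + (Pi.single j (a • β (t i) (u j)) : I → W) l := by
    intro l
    by_cases hl : l = j
    · subst hl
      rw [update_self, Pi.single_eq_same]
      simp
    · rw [update_of_ne hl, Pi.single_eq_of_ne hl, add_zero]
  have h2 : ∀ l, β (t l) (update u i (u i + a • u j) l) =
      β (t l) (u l) + (Pi.single i (a • β (t i) (u j)) : I → W) l := by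
    intro l
    by_cases hl : l = i
    · subst hl
      rw [update_self, Pi.single_eq_same]
      simp
    · rw [update_of_ne hl, Pi.single_eq_of_ne hl, add_zero]
  rw [Finset.sum_congr rfl fun l _ => h1 l, Finset.sum_congr rfl fun l _ => h2 l,
    Finset.sum_add_distrib, Finset.sum_add_distrib]
  simp

private theorem f5_ont_root1 {i j : I} (hij : i ≠ j) (a : K) (t : I → V)
    (h : Ont β (update t j (t j + a • t i))) : Ont β t := by
  intro w
  obtain ⟨u, hu⟩ := h w
  exact ⟨_, (f5_gen_root β hij a t u).symm.trans hu⟩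

private theorem f5_ont_root {i j : I} (hij : i ≠ j) (a : K) (t : I → V) :
    Ont β (update t j (t j + a • t i)) ↔ Ont β t := by
  refine ⟨f5_ont_root1 β hij a t, fun h => ?_⟩
  apply f5_ont_root1 β hij (-a)
  have : update (update t j (t j + a • t i)) j (update t j (t j + a • t i) j +
      (-a) • update t j (t j + a • t i) i) = t := by
    rw [update_self, update_of_ne hij, update_idem]
    funext l
    by_cases hl : l = j
    · subst hl
      rw [update_self]
      simp
    · rw [update_of_ne hl]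
  rw [this]
  exact h

/-- the indicator function of the generating tuples -/
private noncomputable def f5_chi (t : I → V) : ℝ :=
  open scoped Classical in if Ont β t then 1 else 0

private theorem f5_chi_root {i j : I} (hij : i ≠ j) (a : K) (t : I → V) :
    f5_chi β (update t j (t j + a • t i)) = f5_chi β t := by
  classical
  unfold f5_chi
  rw [if_congr (f5_ont_root β hij a t) rfl rfl]

private theorem f5_chi_sq (t : I → V) (r : ℝ) : (f5_chi β t * r) ^ 2 ≤ r ^ 2 := by
  classical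
  unfold f5_chi
  split_ifs
  · simp
  · simp; positivity

private theorem f5_chi_ne (t : I → V) (r : ℝ) (h : (f5_chi β t * r) ^ 2 ≠ 0) :
    Surjective (gen β Finset.univ t) := by
  classical
  by_contra hno
  apply h
  have : ¬ Ont β t := hno
  unfold f5_chi
  rw [if_neg this]
  simp

/-- the mean over the root group -/
private noncomputable def f5_A (K : Type) {V I : Type} [Field K] [Fintype K] [AddCommGroup V]
    [Module K V] [DecidableEq I] [Fintype V] (U : (I → V) → ℝ) (i j : I) (t : I → V) : ℝ :=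
  (∑ a : K, Tm U i (update t j (t j + a • t i))) / Fintype.card K

/-- the root map changes only one entry of the face -/
private theorem f5_key (hβ : ∀ a b, β a b = β b a) (U : (I → V) → ℝ) (i₀ i j : I)
    (P : Finset I) (hij : i ≠ j) (h : j ∈ P ∨ j = i₀) (a : K) :
    ∑ ω ∈ Om β, f5_chi β ω.1 * Tm U i₀ ω.1 * (f5_chi β (fc (P.erase i) ω) * Tm U i (fc P ω)) =
      ∑ ω ∈ Om β, f5_chi β ω.1 * Tm U i₀ ω.1 * (f5_chi β (fc (P.erase i) ω) *
        Tm U i (update (fc (P.erase i) ω) j
        (fc (P.erase i) ω j + a • fc (P.erase i) ω i))) := by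
  by_cases hjP : j ∈ P
  · rw [← sum_root β hβ hij a (fun ω => f5_chi β ω.1 * Tm U i₀ ω.1 *
      (f5_chi β (fc (P.erase i) ω) * Tm U i (fc P ω)))]
    refine Finset.sum_congr rfl fun ω _ => ?_
    have hi : fc (P.erase i) ω i = ω.1 i := by simp [fc]
    have hj : fc (P.erase i) ω j = ω.2 j := by
      simp [fc, Finset.piecewise, hjP, hij.symm]
    have e2 : fc (P.erase i) (ω.1, update (update ω.2 j (ω.2 j + a • ω.1 i)) i
        (ω.2 i - a • ω.1 j)) = update (fc (P.erase i) ω) j
        (fc (P.erase i) ω j + a • fc (P.erase i) ω i) := by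
      rw [hi, hj]
      funext l
      by_cases hlj : l = j
      · subst hlj
        rw [update_self]
        simp [fc, Finset.piecewise, hjP, hij.symm]
      · rw [update_of_ne hlj]
        by_cases hli : l = i
        · subst hli
          simp [fc, Finset.piecewise]
        · by_cases hlP : l ∈ P
          · simp [fc, Finset.piecewise, hlP, hli, update_of_ne hli, update_of_ne hlj]
          · simp [fc, Finset.piecewise, hlP]
    simp only []
    rw [e2, f5_chi_root β hij]
    congr 2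
    apply f5_Tm_congr
    intro l hl
    by_cases hlj : l = j
    · subst hlj
      rw [update_self, hi, hj]
      simp [fc, hjP, update_of_ne hl]
    · rw [update_of_ne hlj]
      by_cases hlP : l ∈ P
      · simp [fc, Finset.piecewise, hlP, hl, update_of_ne hl, update_of_ne hlj]
      · simp [fc, Finset.piecewise, hlP]
  · have hj0 : j = i₀ := h.resolve_left hjP
    rw [← sum_root' β hβ hij a (fun ω => f5_chi β ω.1 * Tm U i₀ ω.1 *
      (f5_chi β (fc (P.erase i) ω) * Tm U i (fc P ω)))]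
    refine Finset.sum_congr rfl fun ω _ => ?_
    have e1 : Tm U i₀ (update ω.1 j (ω.1 j + a • ω.1 i)) = Tm U i₀ ω.1 := by
      rw [hj0, Tm_update]
    have hi : fc (P.erase i) ω i = ω.1 i := by simp [fc]
    have hj : fc (P.erase i) ω j = ω.1 j := by
      simp [fc, Finset.piecewise, hjP]
    have e2 : fc (P.erase i) (update ω.1 j (ω.1 j + a • ω.1 i),
        update ω.2 i (ω.2 i - a • ω.2 j)) = update (fc (P.erase i) ω) j
        (fc (P.erase i) ω j + a • fc (P.erase i) ω i) := by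
      rw [hi, hj]
      funext l
      by_cases hlj : l = j
      · subst hlj
        rw [update_self]
        simp [fc, Finset.piecewise, hjP]
      · rw [update_of_ne hlj]
        by_cases hli : l = i
        · subst hli
          simp [fc, Finset.piecewise, update_of_ne hlj]
        · by_cases hlP : l ∈ P
          · simp [fc, Finset.piecewise, hlP, hli, update_of_ne hli]
          · simp [fc, Finset.piecewise, hlP, update_of_ne hlj]
    simp only []
    rw [e1, e2, f5_chi_root β hij, f5_chi_root β hij]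
    congr 2
    apply f5_Tm_congr
    intro l hl
    by_cases hlj : l = j
    · subst hlj
      rw [update_self, hi, hj]
      simp [fc, hjP]
    · rw [update_of_ne hlj]
      by_cases hlP : l ∈ P
      · simp [fc, Finset.piecewise, hlP, hl, update_of_ne hl]
      · simp [fc, Finset.piecewise, hlP, update_of_ne hlj]

private theorem f5_mass (hβ : ∀ a b, β a b = β b a) (P : Finset I) (f : (I → V) → ℝ) :
    (∑ ω ∈ Om β, (f5_chi β (fc P ω) * f (fc P ω)) ^ 2) * Nat.card W ≤
      (Fintype.card V : ℝ) ^ Fintype.card I * ∑ x : I → V, f x ^ 2 := by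
  rw [sum_fc β hβ P (fun t => (f5_chi β t * f t) ^ 2) (fun t ht => f5_chi_ne β t _ ht)]
  apply mul_le_mul_of_nonneg_left _ (by positivity)
  exact Finset.sum_le_sum fun t _ => f5_chi_sq β t _

private theorem f5_cs {S A B D c r : ℝ} (hc : 0 ≤ c) (hD : 0 < D) (hr : 0 ≤ r)
    (h : S ^ 2 ≤ A * B) (hA0 : 0 ≤ A) (hA : A * D ≤ c) (hB : B * D ≤ r ^ 2 * c) (hB0 : 0 ≤ B) :
    |S| * D ≤ r * c := by
  apply abs_le_of_sq_le_sq' _ (by positivity) |>.2
  rw [mul_pow, sq_abs]
  calc S ^ 2 * D ^ 2 ≤ A * B * D ^ 2 := by gcongr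
    _ = (A * D) * (B * D) := by ring
    _ ≤ c * (r ^ 2 * c) := by gcongr
    _ = (r * c) ^ 2 := by ring

private theorem f5_cross1 (hβ : ∀ a b, β a b = β b a) (U : (I → V) → ℝ) (hA : Alt U) (i₀ i j : I)
    (P : Finset I) (hij : i ≠ j) (h : j ∈ P ∨ j = i₀) :
    |∑ ω ∈ Om β, f5_chi β ω.1 * Tm U i₀ ω.1 *
      (f5_chi β (fc (P.erase i) ω) * Tm U i (fc P ω))| * Nat.card W ≤
      1 / Real.sqrt (Fintype.card K) *
        ((Fintype.card V : ℝ) ^ Fintype.card I * ∑ x : I → V, Tm U i₀ x ^ 2) := by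
  have hq : (0 : ℝ) < Fintype.card K := by exact_mod_cast Fintype.card_pos
  have hW : (0 : ℝ) < Nat.card W := by exact_mod_cast Nat.card_pos
  -- averaging
  have h1 : ∑ ω ∈ Om β, f5_chi β ω.1 * Tm U i₀ ω.1 *
      (f5_chi β (fc (P.erase i) ω) * Tm U i (fc P ω)) =
      ∑ ω ∈ Om β, (f5_chi β ω.1 * Tm U i₀ ω.1) *
        (f5_chi β (fc (P.erase i) ω) * f5_A K U i j (fc (P.erase i) ω)) := by
    have h2 : (Fintype.card K : ℝ) * ∑ ω ∈ Om β, f5_chi β ω.1 * Tm U i₀ ω.1 *
        (f5_chi β (fc (P.erase i) ω) * Tm U i (fc P ω)) =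
        ∑ a : K, ∑ ω ∈ Om β, f5_chi β ω.1 * Tm U i₀ ω.1 * (f5_chi β (fc (P.erase i) ω) *
          Tm U i (update (fc (P.erase i) ω) j
          (fc (P.erase i) ω j + a • fc (P.erase i) ω i))) := by
      rw [Finset.sum_congr rfl fun a _ => (f5_key β hβ U i₀ i j P hij h a).symm]
      simp
    rw [Finset.sum_comm] at h2
    rw [← mul_right_inj' hq.ne', h2, Finset.mul_sum]
    refine Finset.sum_congr rfl fun ω _ => ?_
    rw [← Finset.mul_sum, ← Finset.mul_sum]
    unfold f5_A
    field_simp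
  rw [h1]
  have h3 := Finset.sum_mul_sq_le_sq_mul_sq (Om β) (fun ω => f5_chi β ω.1 * Tm U i₀ ω.1)
    (fun ω => f5_chi β (fc (P.erase i) ω) * f5_A K U i j (fc (P.erase i) ω))
  have e1 := f5_mass β hβ ∅ (fun t => Tm U i₀ t)
  have e2 := f5_mass β hβ (P.erase i) (fun t => f5_A K U i j t)
  have e3 : ∑ x : I → V, f5_A K U i j x ^ 2 =
      (∑ x : I → V, Tm U i₀ x ^ 2) / Fintype.card K := by
    have := Tm_root (K := K) hA hij
    unfold f5_A
    rw [this, Tm_norm hA i i₀]
  rw [e3] at e2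
  refine f5_cs ?_ hW (by positivity) h3 (Finset.sum_nonneg fun _ _ => sq_nonneg _) ?_ ?_
    (Finset.sum_nonneg fun _ _ => sq_nonneg _)
  · exact mul_nonneg (by positivity) (Finset.sum_nonneg fun _ _ => sq_nonneg _)
  · simpa [fc] using e1
  · refine e2.trans (le_of_eq ?_)
    rw [div_pow, one_pow, Real.sq_sqrt hq.le]
    ring

private theorem f5_cross (hβ : ∀ a b, β a b = β b a) (U : (I → V) → ℝ) (hA : Alt U) (i₀ i : I)
    (P : Finset I) (h : i ≠ i₀ ∨ ∃ j ∈ P, j ≠ i₀) (κ : ℝ) (hκ0 : 0 ≤ κ)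
    (hκ : (∑ ω ∈ Onf β (P.erase i), Tm U i (fc (P.erase i) ω) ^ 2) * Nat.card W ≤
      κ * ((Fintype.card V : ℝ) ^ Fintype.card I * ∑ x : I → V, Tm U i x ^ 2)) :
    |∑ ω ∈ Ofr β, Tm U i₀ ω.1 * Tm U i (fc P ω)| * Nat.card W ≤
      (1 / Real.sqrt (Fintype.card K) + Real.sqrt κ) *
        ((Fintype.card V : ℝ) ^ Fintype.card I * ∑ x : I → V, Tm U i₀ x ^ 2) := by
  classical
  obtain ⟨j, hij, hj⟩ : ∃ j, i ≠ j ∧ (j ∈ P ∨ j = i₀) := by
    by_cases hi : i = i₀
    · rcases h with h | ⟨j, hjP, hj⟩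
      · exact absurd hi h
      · exact ⟨j, by rw [hi]; exact hj.symm, Or.inl hjP⟩
    · exact ⟨i₀, hi, Or.inr rfl⟩
  have hW : (0 : ℝ) < Nat.card W := by exact_mod_cast Nat.card_pos
  have hc1 := f5_cross1 β hβ U hA i₀ i j P hij hj
  set X := ∑ ω ∈ Om β, f5_chi β ω.1 * Tm U i₀ ω.1 *
      (f5_chi β (fc (P.erase i) ω) * Tm U i (fc P ω)) with hX
  have hTP : ∀ ω : (I → V) × (I → V), Tm U i (fc P ω) = Tm U i (fc (P.erase i) ω) := by
    intro ω
    apply f5_Tm_congr
    intro l hl
    by_cases hlP : l ∈ P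
    · simp [fc, Finset.piecewise, hlP, hl]
    · simp [fc, Finset.piecewise, hlP]
  set Y := ∑ ω ∈ Om β, (f5_chi β ω.1 * Tm U i₀ ω.1) *
      ((if Frm β ω then 0 else 1) * f5_chi β (fc (P.erase i) ω) *
        Tm U i (fc (P.erase i) ω)) with hY
  have hsplit : ∑ ω ∈ Ofr β, Tm U i₀ ω.1 * Tm U i (fc P ω) = X - Y := by
    unfold Ofr
    rw [Finset.sum_filter, hX, hY, ← Finset.sum_sub_distrib]
    refine Finset.sum_congr rfl fun ω _ => ?_
    rw [hTP ω]
    by_cases hF : Frm β ω
    · have e1 : f5_chi β ω.1 = 1 := by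
        unfold f5_chi
        rw [if_pos]
        have := hF.2.2 ∅
        simpa [fc] using this
      have e2 : f5_chi β (fc (P.erase i) ω) = 1 := by
        unfold f5_chi
        rw [if_pos]
        exact hF.2.2 _
      rw [if_pos hF, if_pos hF, e1, e2]
      ring
    · rw [if_neg hF, if_neg hF]
      ring
  have hc2 : |Y| * Nat.card W ≤ Real.sqrt κ *
      ((Fintype.card V : ℝ) ^ Fintype.card I * ∑ x : I → V, Tm U i₀ x ^ 2) := by
    have h3 := Finset.sum_mul_sq_le_sq_mul_sq (Om β) (fun ω => f5_chi β ω.1 * Tm U i₀ ω.1)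
      (fun ω => (if Frm β ω then 0 else 1) * f5_chi β (fc (P.erase i) ω) *
        Tm U i (fc (P.erase i) ω))
    have e1 := f5_mass β hβ ∅ (fun t => Tm U i₀ t)
    refine f5_cs ?_ hW (by positivity) h3 (Finset.sum_nonneg fun _ _ => sq_nonneg _) ?_ ?_
      (Finset.sum_nonneg fun _ _ => sq_nonneg _)
    · exact mul_nonneg (by positivity) (Finset.sum_nonneg fun _ _ => sq_nonneg _)
    · simpa [fc] using e1
    · rw [Real.sq_sqrt hκ0, ← Tm_norm hA i i₀]
      have e4 : ∑ ω ∈ Om β, ((if Frm β ω then 0 else 1) * f5_chi β (fc (P.erase i) ω) *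
          Tm U i (fc (P.erase i) ω)) ^ 2 =
          ∑ ω ∈ Onf β (P.erase i), Tm U i (fc (P.erase i) ω) ^ 2 := by
        unfold Onf
        rw [Finset.sum_filter]
        refine Finset.sum_congr rfl fun ω _ => ?_
        unfold f5_chi
        by_cases hF : Frm β ω
        · simp [hF]
        · by_cases hO : Ont β (fc (P.erase i) ω)
          · rw [if_neg hF, if_pos hO, if_pos ⟨hF, hO⟩]
            ring
          · rw [if_neg hF, if_neg hO, if_neg (fun hh => hO hh.2)]
            ring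
      rw [e4]
      exact hκ
  rw [hsplit]
  have h5 : |X - Y| ≤ |X| + |Y| := abs_sub _ _
  calc |X - Y| * Nat.card W ≤ (|X| + |Y|) * Nat.card W := by gcongr
    _ = |X| * Nat.card W + |Y| * Nat.card W := by ring
    _ ≤ _ := by
      rw [add_mul]
      exact add_le_add hc1 hc2

private theorem f5_main (hβ : ∀ a b, β a b = β b a) (U : (I → V) → ℝ) (i₀ : I)
    (P : Finset I) (hP : P ⊆ {i₀}) (κ : ℝ)
    (hκ : (∑ ω ∈ Onf β ∅, Tm U i₀ (fc ∅ ω) ^ 2) * Nat.card W ≤
      κ * ((Fintype.card V : ℝ) ^ Fintype.card I * ∑ x : I → V, Tm U i₀ x ^ 2))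
    (hm : open scoped Classical in (∑ x : I → V, Tm U i₀ x ^ 2) ≤
      (∑ x ∈ Finset.univ.filter (fun x : I → V => Ont β x), Tm U i₀ x ^ 2) +
        κ * ∑ x : I → V, Tm U i₀ x ^ 2) :
    (1 - 2 * κ) * ((Fintype.card V : ℝ) ^ Fintype.card I * ∑ x : I → V, Tm U i₀ x ^ 2) ≤
    (∑ ω ∈ Ofr β, Tm U i₀ ω.1 * Tm U i₀ (fc P ω)) * Nat.card W := by
  classical
  set N := ∑ x : I → V, Tm U i₀ x ^ 2 with hN
  set C := (Fintype.card V : ℝ) ^ Fintype.card I with hC
  have hC0 : 0 ≤ C := by positivity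
  have h0 : ∑ ω ∈ Ofr β, Tm U i₀ ω.1 * Tm U i₀ (fc P ω) = ∑ ω ∈ Ofr β, Tm U i₀ ω.1 ^ 2 := by
    refine Finset.sum_congr rfl fun ω _ => ?_
    have h2 : Tm U i₀ (fc P ω) = Tm U i₀ ω.1 := by
      apply f5_Tm_congr
      intro l hl
      have hlP : l ∉ P := fun h => hl (Finset.mem_singleton.1 (hP h))
      simp [fc, hlP]
    rw [h2]; ring
  rw [h0]
  have h1 : ∑ ω ∈ Ofr β, Tm U i₀ ω.1 ^ 2 + ∑ ω ∈ Onf β ∅, Tm U i₀ (fc ∅ ω) ^ 2 =
      ∑ ω ∈ Om β, (f5_chi β (fc ∅ ω) * Tm U i₀ (fc ∅ ω)) ^ 2 := by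
    unfold Ofr Onf
    rw [Finset.sum_filter, Finset.sum_filter, ← Finset.sum_add_distrib]
    refine Finset.sum_congr rfl fun ω _ => ?_
    have he : fc ∅ ω = ω.1 := by simp [fc]
    rw [he]
    unfold f5_chi
    by_cases hF : Frm β ω
    · have hO : Ont β ω.1 := by
        have := hF.2.2 ∅
        rwa [he] at this
      rw [if_pos hF, if_neg (fun hh => hh.1 hF), if_pos hO]
      ring
    · by_cases hO : Ont β ω.1
      · rw [if_neg hF, if_pos ⟨hF, hO⟩, if_pos hO]
        ring
      · rw [if_neg hF, if_neg (fun hh => hO hh.2), if_neg hO]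
        ring
  have h2 : (∑ ω ∈ Om β, (f5_chi β (fc ∅ ω) * Tm U i₀ (fc ∅ ω)) ^ 2) * Nat.card W =
      C * ∑ x ∈ Finset.univ.filter (fun x : I → V => Ont β x), Tm U i₀ x ^ 2 := by
    rw [sum_fc β hβ ∅ (fun t => (f5_chi β t * Tm U i₀ t) ^ 2)
      (fun t ht => f5_chi_ne β t _ ht), Finset.sum_filter]
    congr 1
    refine Finset.sum_congr rfl fun t _ => ?_
    unfold f5_chi
    split_ifs <;> ring
  rw [← h1, add_mul] at h2
  have h3 : C * N ≤ C * ∑ x ∈ Finset.univ.filter (fun x : I → V => Ont β x),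
      Tm U i₀ x ^ 2 + κ * (C * N) := by
    have := mul_le_mul_of_nonneg_left hm hC0
    linarith
  linarith

theorem lower_bound3 (hβ : ∀ a b, β a b = β b a) (U : (I → V) → ℝ)
    (hU : ∀ x, ¬ GF β x → U x = 0) (hA : Alt U) (i₀ : I) (κ : ℝ) (hκ0 : 0 ≤ κ)
    (hκ : ∀ (i : I) (P : Finset I), (∑ ω ∈ Onf β P, Tm U i (fc P ω) ^ 2) * Nat.card W ≤
      κ * ((Fintype.card V : ℝ) ^ Fintype.card I * ∑ x : I → V, Tm U i x ^ 2))
    (hm : open scoped Classical in (∑ x : I → V, Tm U i₀ x ^ 2) ≤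
      (∑ x ∈ Finset.univ.filter (fun x : I → V => Ont β x), Tm U i₀ x ^ 2) +
        κ * ∑ x : I → V, Tm U i₀ x ^ 2) :
    (2 - 4 * κ - Fintype.card I * 2 ^ Fintype.card I *
      (1 / Real.sqrt (Fintype.card K) + Real.sqrt κ)) *
      ((Fintype.card V : ℝ) ^ Fintype.card I * ∑ x : I → V, Tm U i₀ x ^ 2) ≤
    (∑ ω ∈ Ofr β, Tm U i₀ ω.1 * ∑ P : Finset I, ∑ i : I, Tm U i (fc P ω)) * Nat.card W := by
  set B := (Fintype.card V : ℝ) ^ Fintype.card I * ∑ x : I → V, Tm U i₀ x ^ 2 with hB
  have hB0 : 0 ≤ B := by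
    apply mul_nonneg (by positivity)
    exact Finset.sum_nonneg fun x _ => sq_nonneg _
  set r := 1 / Real.sqrt (Fintype.card K) + Real.sqrt κ with hr
  have hr0 : 0 ≤ r := by positivity
  -- the sum over pairs
  set f : Finset I × I → ℝ := fun p =>
    (∑ ω ∈ Ofr β, Tm U i₀ ω.1 * Tm U p.2 (fc p.1 ω)) * Nat.card W with hf
  have h1 : (∑ ω ∈ Ofr β, Tm U i₀ ω.1 * ∑ P : Finset I, ∑ i : I, Tm U i (fc P ω)) *
      Nat.card W = ∑ p : Finset I × I, f p := by
    rw [← Finset.univ_product_univ, Finset.sum_product]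
    simp only [hf]
    simp only [← Finset.sum_mul]
    congr 1
    simp only [Finset.mul_sum]
    rw [Finset.sum_comm]
    refine Finset.sum_congr rfl fun P _ => ?_
    rw [Finset.sum_comm]
  rw [h1]
  set M : Finset (Finset I × I) := {(∅, i₀), ({i₀}, i₀)} with hM
  have hMc : M.card = 2 := by
    rw [hM, Finset.card_pair]
    simp
  have hmain : ∀ p ∈ M, (1 - 2 * κ) * B ≤ f p := by
    intro p hp
    simp only [hM, Finset.mem_insert, Finset.mem_singleton] at hp
    rcases hp with rfl | rfl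
    · exact f5_main β hβ U i₀ ∅ (Finset.empty_subset _) κ (hκ i₀ ∅) hm
    · exact f5_main β hβ U i₀ {i₀} (Finset.Subset.refl _) κ (hκ i₀ ∅) hm
  have hcross : ∀ p ∈ Mᶜ, - (r * B) ≤ f p := by
    intro p hp
    have hp' : p.2 ≠ i₀ ∨ ∃ j ∈ p.1, j ≠ i₀ := by
      by_contra hno
      push Not at hno
      rw [Finset.mem_compl] at hp
      apply hp
      obtain ⟨h2, h3⟩ := hno
      have : p.1 ⊆ {i₀} := fun l hl => Finset.mem_singleton.2 (h3 l hl)
      rcases Finset.subset_singleton_iff.1 this with h4 | h4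
      · simp only [hM, Finset.mem_insert, Finset.mem_singleton]
        left
        exact Prod.ext h4 h2
      · simp only [hM, Finset.mem_insert, Finset.mem_singleton]
        right
        exact Prod.ext h4 h2
    have h4 := f5_cross β hβ U hA i₀ p.2 p.1 hp' κ hκ0 (hκ p.2 _)
    have h5 : |f p| ≤ r * B := by
      simp only [hf]
      rw [abs_mul, Nat.abs_cast]
      exact h4
    linarith [neg_abs_le (f p)]
  have hcard : (Mᶜ.card : ℝ) ≤ Fintype.card I * 2 ^ Fintype.card I := by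
    have : Mᶜ.card ≤ Fintype.card (Finset I × I) := Finset.card_le_univ _
    rw [Fintype.card_prod, Fintype.card_finset] at this
    have h6 : ((Mᶜ.card : ℕ) : ℝ) ≤ ((2 ^ Fintype.card I * Fintype.card I : ℕ) : ℝ) := by
      exact_mod_cast this
    push_cast at h6
    linarith
  calc (2 - 4 * κ - Fintype.card I * 2 ^ Fintype.card I * r) * B
      = 2 * ((1 - 2 * κ) * B) - (Fintype.card I * 2 ^ Fintype.card I) * (r * B) := by
        ring
    _ ≤ 2 * ((1 - 2 * κ) * B) - Mᶜ.card * (r * B) := by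
        have : 0 ≤ r * B := by positivity
        have := mul_le_mul_of_nonneg_right hcard this
        linarith
    _ = ∑ p ∈ M, ((1 - 2 * κ) * B) + ∑ p ∈ Mᶜ, (- (r * B)) := by
        rw [Finset.sum_const, Finset.sum_const, hMc]
        simp only [nsmul_eq_mul]
        push_cast
        ring
    _ ≤ ∑ p ∈ M, f p + ∑ p ∈ Mᶜ, f p :=
        add_le_add (Finset.sum_le_sum hmain) (Finset.sum_le_sum hcross)
    _ = ∑ p : Finset I × I, f p := Finset.sum_add_sum_compl M f

end F5

end Pool.Agent.KM
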