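import Pool.Agent.KM.FDefs
import Pool.Agent.KM.AMean
import Pool.Agent.KM.AOmega
import Pool.Agent.KM.FFrm

/-!
Project KM3 (MP_27fd67_ag), row F6: upper bounds (helper66, after KM2 A5a and A5b).
-/

set_option autoImplicit false
set_option linter.unusedSectionVars false

open Function

namespace Pool.Agent.KM

section F6priv

variable {V I : Type} [Fintype V] [DecidableEq I] [Fintype I]

private lemma f6u_sum_update (f : (I → V) → ℝ) (i : I) :
    ∑ x : I → V, ∑ z : V, f (update x i z) = Fintype.card V * ∑ x : I → V, f x := by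
  classical
  let e : (I → V) × V ≃ (I → V) × V :=
    { toFun := fun p => (update p.1 i p.2, p.1 i)
      invFun := fun p => (update p.1 i p.2, p.1 i)
      left_inv := fun p => by
        ext j
        · simp
        · simp
      right_inv := fun p => by
        ext j
        · simp
        · simp }
  rw [← Fintype.sum_prod_type (fun p : (I → V) × V => f (update p.1 i p.2))]
  have h1 : ∑ p : (I → V) × V, f (update p.1 i p.2) = ∑ p : (I → V) × V, f p.1 :=
    Equiv.sum_comp e (fun p => f p.1)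
  rw [h1, Fintype.sum_prod_type, Finset.mul_sum]
  refine Finset.sum_congr rfl fun x _ => ?_
  simp

private lemma f6u_Tm_norm {U : (I → V) → ℝ} (hU : Alt U) (i j : I) :
    ∑ x : I → V, Tm U i x ^ 2 = ∑ x : I → V, Tm U j x ^ 2 := by
  classical
  rcases eq_or_ne i j with rfl | hij
  · rfl
  let e : (I → V) ≃ (I → V) :=
    { toFun := fun x => x ∘ Equiv.swap i j
      invFun := fun x => x ∘ Equiv.swap i j
      left_inv := fun x => by
        funext k
        simp
      right_inv := fun x => by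
        funext k
        simp }
  have h1 : ∀ x : I → V, Tm U j (e x) = - Tm U i x := by
    intro x
    unfold Tm
    rw [← neg_div, ← Finset.sum_neg_distrib]
    congr 1
    refine Finset.sum_congr rfl fun z _ => ?_
    rw [← hU _ i j hij]
    congr 1
    funext k
    show update (x ∘ Equiv.swap i j) j z k = update x i z (Equiv.swap i j k)
    by_cases hk : k = j
    · subst hk
      simp
    · rw [update_of_ne hk]
      have h2 : Equiv.swap i j k ≠ i := by
        intro h3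
        rw [Equiv.swap_apply_eq_iff, Equiv.swap_apply_left] at h3
        exact hk h3
      rw [update_of_ne h2]
      rfl
  rw [← Equiv.sum_comp e (fun x => Tm U j x ^ 2)]
  refine Finset.sum_congr rfl fun x _ => ?_
  rw [h1]
  ring

end F6priv

section F6
variable {K V W I : Type} [Field K] [Fintype K] [AddCommGroup V] [Module K V] [AddCommGroup W]
  [Module K W] [Fintype I] [DecidableEq I] [Fintype V] [Finite W] (β : V →ₗ[K] V →ₗ[K] W)

/-- `U` differs little from the coboundary of its mean -/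
theorem defect_bound3 (U : (I → V) → ℝ) (hU : ∀ x, ¬ GF β x → U x = 0)
    (hC : ∀ (x : I → V) (z : V), GF β x → (∀ i, GF β (update x i z)) → U x = ∑ i, U (update x i z))
    (κ : ℝ) (hκ0 : 0 ≤ κ) (hκ1 : κ ≤ 1)
    (hκ : ∀ x : I → V, GF β x → ({z : V | ∃ i, ¬ GF β (update x i z)}.ncard : ℝ) ≤
      κ * Fintype.card V) :
    ∑ x ∈ Gff β,
      ((∑ i, Tm U i x) - U x) ^ 2 ≤ κ * (Fintype.card I + 1) ^ 2 * ∑ x : I → V, U x ^ 2 := by
  classical
  set v : ℝ := (Fintype.card V : ℝ) with hv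
  set n : ℝ := (Fintype.card I : ℝ) with hn
  have hv0 : 0 < v := by
    have : 0 < Fintype.card V := Fintype.card_pos_iff.2 ⟨0⟩
    rw [hv]
    exact_mod_cast this
  have hn0 : 0 ≤ n := Nat.cast_nonneg _
  -- the bound at one good tuple
  have hone : ∀ x ∈ Gff β, v ^ 2 * ((∑ i, Tm U i x) - U x) ^ 2 ≤
      κ * v * ((n + 1) * ((∑ i, ∑ z : V, U (update x i z) ^ 2) + v * U x ^ 2)) := by
    intro x hx
    have hgx : GF β x := by
      unfold Gff at hx
      rw [Finset.mem_filter] at hx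
      exact hx.2
    let B : Finset V := Finset.univ.filter fun z => ∃ i, ¬ GF β (update x i z)
    have hBcard : (B.card : ℝ) ≤ κ * v := by
      have h1 := hκ x hgx
      have h2 : {z : V | ∃ i, ¬ GF β (update x i z)}.ncard = B.card := by
        rw [← Set.ncard_coe_finset]
        congr 1
        ext z
        simp [B]
      rw [h2] at h1
      exact h1
    let g : V → ℝ := fun z => (∑ i, U (update x i z)) - U x
    have h1 : v * ((∑ i, Tm U i x) - U x) = ∑ z ∈ B, g z := by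
      have h2 : ∑ z ∈ B, g z = ∑ z : V, g z := by
        refine Finset.sum_subset (Finset.subset_univ _) fun z _ hz => ?_
        have h3 : ∀ i, GF β (update x i z) := by
          intro i
          by_contra hne
          exact hz (Finset.mem_filter.2 ⟨Finset.mem_univ _, i, hne⟩)
        show (∑ i, U (update x i z)) - U x = 0
        rw [← hC x z hgx h3, sub_self]
      rw [h2]
      have h4 : ∑ z : V, g z = (∑ i, ∑ z : V, U (update x i z)) - v * U x := by
        show ∑ z : V, ((∑ i, U (update x i z)) - U x) = _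
        rw [Finset.sum_sub_distrib, Finset.sum_comm]
        simp [hv]
      rw [h4, mul_sub, Finset.mul_sum]
      congr 1
      refine Finset.sum_congr rfl fun i _ => ?_
      unfold Tm
      rw [← hv, mul_div_cancel₀ _ hv0.ne']
    have h5 : (∑ z ∈ B, g z) ^ 2 ≤ (B.card : ℝ) * ∑ z ∈ B, g z ^ 2 :=
      sq_sum_le_card_mul_sum_sq
    have h6 : ∀ z, g z ^ 2 ≤ (n + 1) * ((∑ i, U (update x i z) ^ 2) + U x ^ 2) := by
      intro z
      have h7 : (∑ i, U (update x i z)) ^ 2 ≤ n * ∑ i, U (update x i z) ^ 2 := by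
        have := @sq_sum_le_card_mul_sum_sq I ℝ _ _ _ _ Finset.univ (fun i => U (update x i z))
        simpa [hn] using this
      have h8 : 0 ≤ ∑ i, U (update x i z) ^ 2 := Finset.sum_nonneg fun i _ => sq_nonneg _
      show ((∑ i, U (update x i z)) - U x) ^ 2 ≤ _
      set a := ∑ i, U (update x i z)
      set s := ∑ i, U (update x i z) ^ 2
      set b := U x
      -- `(a - b)^2 ≤ (n + 1) (s + b^2)` from `a^2 ≤ n s`
      rcases hn0.eq_or_lt with h9 | h9
      · rw [← h9] at h7 ⊢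
        have h10 : a = 0 := by nlinarith
        rw [h10]
        nlinarith
      · have h11 : 0 ≤ (a + n * b) ^ 2 := sq_nonneg _
        have h12 : n * (a - b) ^ 2 ≤ n * ((n + 1) * (s + b ^ 2)) := by nlinarith
        exact le_of_mul_le_mul_left h12 h9
    have h13 : ∑ z ∈ B, g z ^ 2 ≤
        (n + 1) * ((∑ i, ∑ z : V, U (update x i z) ^ 2) + v * U x ^ 2) := by
      calc ∑ z ∈ B, g z ^ 2
          ≤ ∑ z : V, g z ^ 2 :=
            Finset.sum_le_sum_of_subset_of_nonneg (Finset.subset_univ _)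
              fun z _ _ => sq_nonneg _
        _ ≤ ∑ z : V, (n + 1) * ((∑ i, U (update x i z) ^ 2) + U x ^ 2) :=
            Finset.sum_le_sum fun z _ => h6 z
        _ = (n + 1) * ((∑ i, ∑ z : V, U (update x i z) ^ 2) + v * U x ^ 2) := by
            rw [← Finset.mul_sum, Finset.sum_add_distrib, Finset.sum_comm]
            simp [hv]
    have h14 : 0 ≤ ∑ z ∈ B, g z ^ 2 := Finset.sum_nonneg fun z _ => sq_nonneg _
    have h15 : v ^ 2 * ((∑ i, Tm U i x) - U x) ^ 2 = (∑ z ∈ B, g z) ^ 2 := by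
      rw [← h1]
      ring
    rw [h15]
    calc (∑ z ∈ B, g z) ^ 2 ≤ (B.card : ℝ) * ∑ z ∈ B, g z ^ 2 := h5
      _ ≤ (κ * v) * ∑ z ∈ B, g z ^ 2 := mul_le_mul_of_nonneg_right hBcard h14
      _ ≤ (κ * v) * ((n + 1) * ((∑ i, ∑ z : V, U (update x i z) ^ 2) + v * U x ^ 2)) :=
          mul_le_mul_of_nonneg_left h13 (mul_nonneg hκ0 hv0.le)
  -- sum up
  set S : ℝ := ∑ x : I → V, U x ^ 2 with hS
  have hsum : ∑ x ∈ Gff β, v ^ 2 * ((∑ i, Tm U i x) - U x) ^ 2 ≤ v ^ 2 * (κ * (n + 1) ^ 2 * S) := by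
    calc ∑ x ∈ Gff β, v ^ 2 * ((∑ i, Tm U i x) - U x) ^ 2
        ≤ ∑ x ∈ Gff β, κ * v * ((n + 1) * ((∑ i, ∑ z : V, U (update x i z) ^ 2) + v * U x ^ 2)) :=
          Finset.sum_le_sum hone
      _ ≤ ∑ x : I → V, κ * v *
            ((n + 1) * ((∑ i, ∑ z : V, U (update x i z) ^ 2) + v * U x ^ 2)) := by
          refine Finset.sum_le_sum_of_subset_of_nonneg (Finset.subset_univ _) fun x _ _ => ?_
          have h1 : 0 ≤ ∑ i, ∑ z : V, U (update x i z) ^ 2 :=
            Finset.sum_nonneg fun i _ => Finset.sum_nonneg fun z _ => sq_nonneg _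
          have h2 : 0 ≤ v * U x ^ 2 := mul_nonneg hv0.le (sq_nonneg _)
          have h3 : 0 ≤ κ * v := mul_nonneg hκ0 hv0.le
          have h4 : 0 ≤ n + 1 := by linarith
          exact mul_nonneg h3 (mul_nonneg h4 (add_nonneg h1 h2))
      _ = v ^ 2 * (κ * (n + 1) ^ 2 * S) := by
          rw [← Finset.mul_sum, ← Finset.mul_sum, Finset.sum_add_distrib, ← Finset.mul_sum,
            Finset.sum_comm]
          have h1 : ∀ i : I, ∑ x : I → V, ∑ z : V, U (update x i z) ^ 2 = v * S := fun i =>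
            f6u_sum_update (fun x => U x ^ 2) i
          rw [Finset.sum_congr rfl fun i _ => h1 i]
          rw [Finset.sum_const, Finset.card_univ, nsmul_eq_mul, ← hn, ← hS]
          ring
  rw [← Finset.mul_sum] at hsum
  exact le_of_mul_le_mul_left hsum (by positivity)

theorem norm_U_le3 (U : (I → V) → ℝ) (hU : ∀ x, ¬ GF β x → U x = 0) (hA : Alt U) (i₀ : I)
    (κ : ℝ) (hκ1 : κ * (Fintype.card I + 1) ^ 2 ≤ 1 / 4)
    (h : ∑ x ∈ Gff β,
      ((∑ i, Tm U i x) - U x) ^ 2 ≤ κ * (Fintype.card I + 1) ^ 2 * ∑ x : I → V, U x ^ 2) :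
    ∑ x : I → V, U x ^ 2 ≤ 4 * (Fintype.card I : ℝ) ^ 2 * ∑ x : I → V, Tm U i₀ x ^ 2 := by
  classical
  set n : ℝ := (Fintype.card I : ℝ) with hn
  set S : ℝ := ∑ x : I → V, U x ^ 2 with hS
  set N : ℝ := ∑ x : I → V, Tm U i₀ x ^ 2 with hN
  have hS0 : 0 ≤ S := Finset.sum_nonneg fun x _ => sq_nonneg _
  have h1 : S = ∑ x ∈ Gff β, U x ^ 2 := by
    rw [hS]
    symm
    refine Finset.sum_subset (Finset.subset_univ _) fun x _ hx => ?_
    have h2 : ¬ GF β x := by
      intro h3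
      apply hx
      unfold Gff
      exact Finset.mem_filter.2 ⟨Finset.mem_univ _, h3⟩
    rw [hU x h2]
    ring
  have h3 : ∀ x : I → V, U x ^ 2 ≤
      2 * (n * ∑ i, Tm U i x ^ 2) + 2 * ((∑ i, Tm U i x) - U x) ^ 2 := by
    intro x
    have h4 : (∑ i, Tm U i x) ^ 2 ≤ n * ∑ i, Tm U i x ^ 2 := by
      have := @sq_sum_le_card_mul_sum_sq I ℝ _ _ _ _ Finset.univ (fun i => Tm U i x)
      simpa [hn] using this
    nlinarith [sq_nonneg (2 * (∑ i, Tm U i x) - U x)]
  have h5 : S ≤ 2 * (n * ∑ i, ∑ x : I → V, Tm U i x ^ 2) +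
      2 * ∑ x ∈ Gff β, ((∑ i, Tm U i x) - U x) ^ 2 := by
    calc S = ∑ x ∈ Gff β, U x ^ 2 := h1
      _ ≤ ∑ x ∈ Gff β, (2 * (n * ∑ i, Tm U i x ^ 2) + 2 * ((∑ i, Tm U i x) - U x) ^ 2) :=
          Finset.sum_le_sum fun x _ => h3 x
      _ = 2 * (n * ∑ x ∈ Gff β, ∑ i, Tm U i x ^ 2) +
          2 * ∑ x ∈ Gff β, ((∑ i, Tm U i x) - U x) ^ 2 := by
          rw [Finset.sum_add_distrib, ← Finset.mul_sum, ← Finset.mul_sum, ← Finset.mul_sum]
      _ ≤ 2 * (n * ∑ i, ∑ x : I → V, Tm U i x ^ 2) +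
          2 * ∑ x ∈ Gff β, ((∑ i, Tm U i x) - U x) ^ 2 := by
          have h6 : ∑ x ∈ Gff β, ∑ i, Tm U i x ^ 2 ≤ ∑ i, ∑ x : I → V, Tm U i x ^ 2 := by
            rw [Finset.sum_comm]
            refine Finset.sum_le_sum fun i _ => ?_
            exact Finset.sum_le_sum_of_subset_of_nonneg (Finset.subset_univ _)
              fun x _ _ => sq_nonneg _
          have h7 : 0 ≤ n := Nat.cast_nonneg _
          nlinarith [mul_le_mul_of_nonneg_left h6 h7]
  have h8 : ∑ i, ∑ x : I → V, Tm U i x ^ 2 = n * N := by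
    rw [Finset.sum_congr rfl fun i _ => f6u_Tm_norm hA i i₀]
    rw [Finset.sum_const, Finset.card_univ, nsmul_eq_mul]
  rw [h8] at h5
  have h9 : κ * (n + 1) ^ 2 * S ≤ 1 / 4 * S := mul_le_mul_of_nonneg_right hκ1 hS0
  have h10 : S ≤ 2 * (n * (n * N)) + 2 * (1 / 4 * S) := by linarith
  nlinarith

/-- Cauchy-Schwarz with weights -/
private theorem f6u_cs {α : Type*} (s : Finset α) (a b : α → ℝ) {w A B C : ℝ} (hw : 0 ≤ w)
    (ha : (∑ i ∈ s, a i ^ 2) * w ≤ A) (hb : (∑ i ∈ s, b i ^ 2) * w ≤ B) (hC : 0 ≤ C)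
    (hAB : A * B ≤ C ^ 2) : |∑ i ∈ s, a i * b i| * w ≤ C := by
  have h1 := Finset.sum_mul_sq_le_sq_mul_sq s a b
  have ha0 : 0 ≤ (∑ i ∈ s, a i ^ 2) * w :=
    mul_nonneg (Finset.sum_nonneg fun i _ => sq_nonneg _) hw
  have hb0 : 0 ≤ (∑ i ∈ s, b i ^ 2) * w :=
    mul_nonneg (Finset.sum_nonneg fun i _ => sq_nonneg _) hw
  have h2 : (|∑ i ∈ s, a i * b i| * w) ^ 2 ≤ C ^ 2 := by
    calc (|∑ i ∈ s, a i * b i| * w) ^ 2 = (∑ i ∈ s, a i * b i) ^ 2 * w ^ 2 := by
          rw [mul_pow, sq_abs]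
      _ ≤ ((∑ i ∈ s, a i ^ 2) * ∑ i ∈ s, b i ^ 2) * w ^ 2 :=
          mul_le_mul_of_nonneg_right h1 (sq_nonneg w)
      _ = ((∑ i ∈ s, a i ^ 2) * w) * ((∑ i ∈ s, b i ^ 2) * w) := by ring
      _ ≤ A * B := mul_le_mul ha hb hb0 (ha0.trans ha)
      _ ≤ C ^ 2 := hAB
  exact (pow_le_pow_iff_left₀ (mul_nonneg (abs_nonneg _) hw) hC (by norm_num)).1 h2

private theorem f6u_subset : (Ofr β : Finset ((I → V) × (I → V))) ⊆ Om β := by
  classical
  exact Finset.filter_subset _ _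

/-- squares of functions of a face, summed over the frames -/
private theorem f6u_face (hβ : ∀ a b, β a b = β b a) (P : Finset I) (f : (I → V) → ℝ) :
    (∑ ω ∈ Ofr β, f (fc P ω) ^ 2) * Nat.card W ≤
      (Fintype.card V : ℝ) ^ Fintype.card I * ∑ t ∈ Gff β, f t ^ 2 := by
  classical
  have hw : (0 : ℝ) ≤ Nat.card W := Nat.cast_nonneg _
  have h1 := sum_fc β hβ P (fun t => if GF β t then f t ^ 2 else 0) (by
    intro t ht
    have h2 : GF β t := by
      by_contra hcon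
      exact ht (if_neg hcon)
    exact GF_ont β t h2)
  have h2 : ∑ t : I → V, (if GF β t then f t ^ 2 else 0) = ∑ t ∈ Gff β, f t ^ 2 := by
    rw [Gff, Finset.sum_filter]
  rw [h2] at h1
  rw [← h1]
  refine mul_le_mul_of_nonneg_right ?_ hw
  calc (∑ ω ∈ Ofr β, f (fc P ω) ^ 2)
      = ∑ ω ∈ Ofr β, (if GF β (fc P ω) then f (fc P ω) ^ 2 else 0) := by
        refine Finset.sum_congr rfl fun ω hω => ?_
        rw [if_pos (GF_face β hβ P ω ((mem_Ofr β ω).1 hω))]
    _ ≤ _ := by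
        refine Finset.sum_le_sum_of_subset_of_nonneg (f6u_subset β) fun ω _ _ => ?_
        split_ifs
        · exact sq_nonneg _
        · exact le_rfl

theorem frame_part (hβ : ∀ a b, β a b = β b a) (U : (I → V) → ℝ)
    (hU : ∀ x, ¬ GF β x → U x = 0)
    (hP : ∀ x x' : I → V, Frm β (x, x') → ∑ P : Finset I, U (P.piecewise x' x) = 0)
    (i₀ : I) (M : ℝ) (hM : 0 ≤ M)
    (h : ∑ x ∈ Gff β,
      ((∑ i, Tm U i x) - U x) ^ 2 ≤ M ^ 2 * ∑ x : I → V, Tm U i₀ x ^ 2) :
    |∑ ω ∈ Ofr β,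
      Tm U i₀ ω.1 * ∑ P : Finset I, ∑ i : I, Tm U i (fc P ω)| * Nat.card W ≤
    2 ^ Fintype.card I * M * ((Fintype.card V : ℝ) ^ Fintype.card I *
      ∑ x : I → V, Tm U i₀ x ^ 2) := by
  classical
  have hw : (0 : ℝ) ≤ Nat.card W := Nat.cast_nonneg _
  have hv : (0 : ℝ) ≤ (Fintype.card V : ℝ) ^ Fintype.card I := pow_nonneg (Nat.cast_nonneg _) _
  have hN : 0 ≤ ∑ x : I → V, Tm U i₀ x ^ 2 := Finset.sum_nonneg fun x _ => sq_nonneg _
  have e1 : ∑ ω ∈ Ofr β, Tm U i₀ ω.1 * ∑ P : Finset I, ∑ i : I, Tm U i (fc P ω) =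
      ∑ P : Finset I, ∑ ω ∈ Ofr β,
        Tm U i₀ ω.1 * ((∑ i : I, Tm U i (fc P ω)) - U (fc P ω)) := by
    rw [Finset.sum_comm]
    refine Finset.sum_congr rfl fun ω hω => ?_
    have h3 : ∑ P : Finset I, U (fc P ω) = 0 := hP ω.1 ω.2 ((mem_Ofr β ω).1 hω)
    rw [← Finset.mul_sum, Finset.sum_sub_distrib, h3, sub_zero]
  have key : ∀ P : Finset I, |∑ ω ∈ Ofr β,
      Tm U i₀ ω.1 * ((∑ i : I, Tm U i (fc P ω)) - U (fc P ω))| * Nat.card W ≤
      M * ((Fintype.card V : ℝ) ^ Fintype.card I * ∑ x : I → V, Tm U i₀ x ^ 2) := by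
    intro P
    refine f6u_cs (Ofr β) (fun ω => Tm U i₀ ω.1)
      (fun ω => (∑ i : I, Tm U i (fc P ω)) - U (fc P ω)) hw
      (A := (Fintype.card V : ℝ) ^ Fintype.card I * ∑ x : I → V, Tm U i₀ x ^ 2)
      (B := (Fintype.card V : ℝ) ^ Fintype.card I * (M ^ 2 * ∑ x : I → V, Tm U i₀ x ^ 2))
      ?_ ?_ (mul_nonneg hM (mul_nonneg hv hN)) ?_
    · have h1 := f6u_face β hβ ∅ (fun t => Tm U i₀ t)
      have h2 : ∀ ω : (I → V) × (I → V), fc (∅ : Finset I) ω = ω.1 := fun ω => by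
        simp [fc]
      simp only [h2] at h1
      refine h1.trans (mul_le_mul_of_nonneg_left ?_ hv)
      exact Finset.sum_le_sum_of_subset_of_nonneg (Finset.subset_univ _)
        fun _ _ _ => sq_nonneg _
    · exact (f6u_face β hβ P (fun t => (∑ i : I, Tm U i t) - U t)).trans
        (mul_le_mul_of_nonneg_left h hv)
    · apply le_of_eq
      ring
  rw [e1]
  calc |∑ P : Finset I, ∑ ω ∈ Ofr β,
        Tm U i₀ ω.1 * ((∑ i : I, Tm U i (fc P ω)) - U (fc P ω))| * Nat.card W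
      ≤ (∑ P : Finset I, |∑ ω ∈ Ofr β,
        Tm U i₀ ω.1 * ((∑ i : I, Tm U i (fc P ω)) - U (fc P ω))|) * Nat.card W :=
        mul_le_mul_of_nonneg_right (Finset.abs_sum_le_sum_abs _ _) hw
    _ = ∑ P : Finset I, |∑ ω ∈ Ofr β,
        Tm U i₀ ω.1 * ((∑ i : I, Tm U i (fc P ω)) - U (fc P ω))| * Nat.card W :=
        Finset.sum_mul _ _ _
    _ ≤ ∑ _P : Finset I,
        M * ((Fintype.card V : ℝ) ^ Fintype.card I * ∑ x : I → V, Tm U i₀ x ^ 2) :=
        Finset.sum_le_sum fun P _ => key P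
    _ = 2 ^ Fintype.card I * M * ((Fintype.card V : ℝ) ^ Fintype.card I *
          ∑ x : I → V, Tm U i₀ x ^ 2) := by
        rw [Finset.sum_const, Finset.card_univ, Fintype.card_finset, nsmul_eq_mul]
        push_cast
        ring

end F6

end Pool.Agent.KM
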