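import Pool.Agent.KM.FDefs
import Pool.Agent.KM.FBad
import Pool.Agent.KM.FBad2
import Pool.Agent.KM.FCross
import Pool.Agent.KM.FUpper

/-!
Project KM3 (MP_27fd67_ag), row F7: the base theorem with frames
(helper90, after the file ABase of helper60).
-/

set_option autoImplicit false

open Function

namespace Pool.Agent.KM

/-- from a count to a fraction -/
private theorem F7_frac (N q M C : ℕ) (V : ℝ) (hq : 1 < q) (hV : (M : ℝ) = V)
    (h : N * (q - 1) ≤ C * M) : (N : ℝ) ≤ (C : ℝ) / ((q : ℝ) - 1) * V := by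
  have h1 : ((N * (q - 1) : ℕ) : ℝ) ≤ ((C * M : ℕ) : ℝ) := by exact_mod_cast h
  rw [Nat.cast_mul, Nat.cast_mul, Nat.cast_sub hq.le, Nat.cast_one, hV] at h1
  have h2 : (0 : ℝ) < (q : ℝ) - 1 := by
    have : (1 : ℝ) < q := by exact_mod_cast hq
    linarith
  rw [div_mul_eq_mul_div, le_div_iff₀ h2]
  exact h1

private theorem F7_e1 (t n r s : ℝ) (ht : 1 ≤ t) (hn : 2 ≤ n) (hr : r = 4 * t * n * (n + 1))
    (hs : s ≤ 1 / r) : t * (2 * n * (n + 1) * s) ≤ 1 / 2 := by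
  have h0 : 0 < t * n * (n + 1) := by positivity
  have h1 : 0 < r := by rw [hr]; positivity
  rw [le_div_iff₀ h1, hr] at hs
  nlinarith

private theorem F7_e2 (t n r s : ℝ) (ht : 1 ≤ t) (hn : 2 ≤ n) (hr : r = 4 * t * n * (n + 1))
    (hs : s ≤ 1 / r) (hs0 : 0 ≤ s) : n * t * s ≤ 1 / 4 := by
  have h1 : 0 < r := by rw [hr]; positivity
  rw [le_div_iff₀ h1, hr] at hs
  have h2 : 0 ≤ s * t * n * n := by positivity
  nlinarith

private theorem F7_e3 (t n r s : ℝ) (ht : 1 ≤ t) (hn : 2 ≤ n) (hr : r = 4 * t * n * (n + 1))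
    (hs : r ≤ s) : n * t / s ≤ 1 / 4 := by
  have h1 : 0 < r := by rw [hr]; positivity
  rw [div_le_iff₀ (lt_of_lt_of_le h1 hs)]
  have h2 : 0 ≤ t * n * n := by positivity
  nlinarith

theorem base_thm3 (n w : ℕ) (hn : 2 ≤ n) : ∃ q₀ : ℕ,
    ∀ (K V W I : Type) [Field K] [Fintype K] [AddCommGroup V] [Module K V] [Finite V]
      [AddCommGroup W] [Module K W] [Finite W] [Fintype I] [DecidableEq I]
      (β : V →ₗ[K] V →ₗ[K] W), (∀ a b, β a b = β b a) → Module.finrank K W = w →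
      Fintype.card I = n → q₀ ≤ Fintype.card K →
      ∀ U : (I → V) → ℝ, (∀ x, ¬ GF β x → U x = 0) → Alt U →
        (∀ x z, GF β x → (∀ i, GF β (update x i z)) → U x = ∑ i, U (update x i z)) →
        (∀ x x' : I → V, Frm β (x, x') → ∑ P : Finset I, U (P.piecewise x' x) = 0) →
        ∀ x, U x = 0 := by
  set C1 : ℕ := n * Cb n w with hC1
  set C2 : ℕ := 2 * Cb n w with hC2
  set R : ℕ := 4 * 2 ^ n * n * (n + 1) with hR
  refine ⟨2 + R ^ 2 * (C1 + C2 + 1), ?_⟩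
  intro K V W I _ _ _ _ _ _ _ _ _ _ β hβ hw hI hK U hU hA hC hP x
  have : Fintype V := Fintype.ofFinite V
  set q := Fintype.card K with hq
  have hR0 : 0 < R := by
    rw [hR]; positivity
  have hq1 : 1 < q := by
    have : 2 ≤ q := le_trans (Nat.le_add_right _ _) hK
    omega
  -- real numbers
  set r : ℝ := (R : ℝ) with hr
  have hr0 : 0 < r := by rw [hr]; exact_mod_cast hR0
  have hrn : r = 4 * 2 ^ n * n * (n + 1) := by
    rw [hr, hR]; push_cast; ring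
  have hqr : r ^ 2 * ((C1 : ℝ) + C2 + 1) ≤ (q : ℝ) - 1 := by
    have h1 : ((2 + R ^ 2 * (C1 + C2 + 1) : ℕ) : ℝ) ≤ (q : ℝ) := by exact_mod_cast hK
    push_cast at h1
    linarith
  have hq0 : (0 : ℝ) < (q : ℝ) - 1 := by
    have : (1 : ℝ) < q := by exact_mod_cast hq1
    linarith
  have hn2 : (2 : ℝ) ≤ n := by exact_mod_cast hn
  have hC10 : (0 : ℝ) ≤ C1 := Nat.cast_nonneg _
  have hC20 : (0 : ℝ) ≤ C2 := Nat.cast_nonneg _
  set κ : ℝ := (C1 : ℝ) / ((q : ℝ) - 1) with hκ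
  set κ' : ℝ := (C2 : ℝ) / ((q : ℝ) - 1) with hκ'
  have hκ0 : 0 ≤ κ := by positivity
  have hκ'0 : 0 ≤ κ' := by positivity
  have hκr : κ ≤ 1 / r ^ 2 := by
    rw [hκ, div_le_div_iff₀ hq0 (by positivity), one_mul]
    nlinarith [sq_nonneg r]
  have hκ'r : κ' ≤ 1 / r ^ 2 := by
    rw [hκ', div_le_div_iff₀ hq0 (by positivity), one_mul]
    nlinarith [sq_nonneg r]
  have hs1 : Real.sqrt κ ≤ 1 / r := by
    rw [Real.sqrt_le_left (by positivity), div_pow, one_pow]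
    exact hκr
  have hs2 : Real.sqrt κ' ≤ 1 / r := by
    rw [Real.sqrt_le_left (by positivity), div_pow, one_pow]
    exact hκ'r
  have h2n : (1 : ℝ) ≤ 2 ^ n := one_le_pow₀ (by norm_num)
  have hrge : (24 : ℝ) ≤ r := by
    rw [hrn]
    nlinarith [mul_nonneg (sub_nonneg.2 h2n) (by positivity : (0 : ℝ) ≤ (n : ℝ) * (n + 1))]
  -- the bounds
  obtain ⟨i₀⟩ : Nonempty I := by
    rw [← Fintype.card_pos_iff, hI]
    omega
  set N := ∑ x : I → V, Tm U i₀ x ^ 2 with hN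
  have hN0 : 0 ≤ N := Finset.sum_nonneg fun x _ => sq_nonneg _
  set B := (Fintype.card V : ℝ) ^ Fintype.card I * N with hB
  have hV0 : (0 : ℝ) < Fintype.card V := by
    have : 0 < Fintype.card V := Fintype.card_pos_iff.2 ⟨0⟩
    exact_mod_cast this
  have hB0 : 0 ≤ B := by positivity
  have hbc : ∀ x : I → V, GF β x → ({z : V | ∃ i, ¬ GF β (update x i z)}.ncard : ℝ) ≤
      κ * Fintype.card V := by
    intro x hx
    have h1 := bad_cocycle3 β x hx
    rw [hI, hw] at h1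
    exact F7_frac _ _ _ _ _ hq1 rfl h1
  have hdef := defect_bound3 β U hU hC κ hκ0 (hκr.trans (by
    rw [div_le_one (by positivity)]
    nlinarith)) hbc
  have hκ4 : κ * (Fintype.card I + 1) ^ 2 ≤ 1 / 4 := by
    rw [hI]
    calc κ * ((n : ℝ) + 1) ^ 2 ≤ 1 / r ^ 2 * ((n : ℝ) + 1) ^ 2 := by
          apply mul_le_mul_of_nonneg_right hκr (by positivity)
      _ = (((n : ℝ) + 1) / r) ^ 2 := by rw [div_pow]; ring
      _ ≤ (1 / 2) ^ 2 := by
          apply pow_le_pow_left₀ (by positivity)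
          rw [div_le_div_iff₀ hr0 (by norm_num), hrn]
          nlinarith [mul_nonneg (sub_nonneg.2 h2n) (by positivity : (0 : ℝ) ≤ (n : ℝ) * (n + 1))]
      _ = 1 / 4 := by norm_num
  have hnorm := norm_U_le3 β U hU hA i₀ κ hκ4 hdef
  -- M
  set M : ℝ := 2 * n * (n + 1) * Real.sqrt κ with hM
  have hM0 : 0 ≤ M := by positivity
  have hdef2 : ∑ x ∈ Gff β, ((∑ i, Tm U i x) - U x) ^ 2 ≤ M ^ 2 * ∑ x : I → V, Tm U i₀ x ^ 2 := by
    refine hdef.trans ?_
    calc κ * ((Fintype.card I : ℝ) + 1) ^ 2 * ∑ x : I → V, U x ^ 2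
        ≤ κ * ((Fintype.card I : ℝ) + 1) ^ 2 * (4 * (Fintype.card I : ℝ) ^ 2 *
          ∑ x : I → V, Tm U i₀ x ^ 2) := by
          apply mul_le_mul_of_nonneg_left hnorm (by positivity)
      _ = M ^ 2 * ∑ x : I → V, Tm U i₀ x ^ 2 := by
          rw [hM, hI, mul_pow, Real.sq_sqrt hκ0]
          ring
  have hgood := frame_part β hβ U hU hP i₀ M hM0 hdef2
  have hlow := lower_bound3 β hβ U hU hA i₀ κ' hκ'0 (by
    intro i P
    have h1 := bad_frames β hβ U hU i P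
    rw [hw, hI] at h1
    rw [hI, hκ', div_mul_eq_mul_div, le_div_iff₀ hq0]
    refine h1.trans (le_of_eq ?_)
    rw [hC2]
    push_cast
    ring) (by
    have h1 := Ont_mass β U hU i₀
    rw [hw, hI] at h1
    have h2 : (Cb n w : ℝ) * N ≤ κ' * N * ((q : ℝ) - 1) := by
      rw [hκ', hC2, div_mul_eq_mul_div, div_mul_cancel₀ _ hq0.ne']
      push_cast
      nlinarith [mul_nonneg (Nat.cast_nonneg (α := ℝ) (Cb n w)) hN0]
    rw [← hN] at h1 ⊢
    refine le_of_mul_le_mul_right ?_ hq0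
    rw [add_mul]
    linarith)
  have hW0 : (0 : ℝ) ≤ Nat.card W := by positivity
  set G := ∑ ω ∈ Ofr β, Tm U i₀ ω.1 * ∑ P : Finset I, ∑ i : I, Tm U i (fc P ω) with hG
  have h1 : G * Nat.card W ≤ |G| * Nat.card W := mul_le_mul_of_nonneg_right (le_abs_self _) hW0
  rw [← hN, ← hB] at hgood hlow
  rw [hI] at hgood hlow
  -- numerical estimates
  have e1 : 2 ^ n * M ≤ 1 / 2 := F7_e1 (2 ^ n) n r (Real.sqrt κ) h2n hn2 hrn hs1
  have e2 : (n : ℝ) * 2 ^ n * Real.sqrt κ' ≤ 1 / 4 :=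
    F7_e2 (2 ^ n) n r (Real.sqrt κ') h2n hn2 hrn hs2 (Real.sqrt_nonneg _)
  have e3 : (n : ℝ) * 2 ^ n / Real.sqrt q ≤ 1 / 4 := by
    apply F7_e3 (2 ^ n) n r (Real.sqrt q) h2n hn2 hrn
    apply Real.le_sqrt_of_sq_le
    have h3 : r ^ 2 ≤ r ^ 2 * ((C1 : ℝ) + C2 + 1) :=
      le_mul_of_one_le_right (sq_nonneg r) (by linarith)
    linarith
  have e5 : 4 * κ' ≤ 1 / 4 := by
    have h4 : κ' * r ^ 2 ≤ 1 := by
      rw [le_div_iff₀ (by positivity)] at hκ'r
      exact hκ'r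
    nlinarith
  have e4 : B ≤ 0 := by
    have h5 : (2 - 4 * κ' - (n : ℝ) * 2 ^ n * (1 / Real.sqrt q + Real.sqrt κ')) * B ≤
        2 ^ n * M * B := by
      linarith
    have h6 := mul_le_mul_of_nonneg_right e1 hB0
    have h7 := mul_le_mul_of_nonneg_right e2 hB0
    have h8 := mul_le_mul_of_nonneg_right e3 hB0
    have h9 := mul_le_mul_of_nonneg_right e5 hB0
    have h10 : (2 - 4 * κ' - (n : ℝ) * 2 ^ n * (1 / Real.sqrt q + Real.sqrt κ')) * B =
        2 * B - 4 * κ' * B - (n : ℝ) * 2 ^ n / Real.sqrt q * B -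
          (n : ℝ) * 2 ^ n * Real.sqrt κ' * B := by ring
    linarith
  have hNz : N = 0 := by
    have h9 : B = 0 := le_antisymm e4 hB0
    rcases mul_eq_zero.1 h9 with h | h
    · exact absurd h (by positivity)
    · exact h
  have hS : ∑ x : I → V, U x ^ 2 ≤ 0 := by
    refine hnorm.trans ?_
    rw [← hN, hNz]
    simp
  have hS0 : ∀ y ∈ (Finset.univ : Finset (I → V)), 0 ≤ U y ^ 2 := fun y _ => sq_nonneg _
  have := (Finset.sum_eq_zero_iff_of_nonneg hS0).1 (le_antisymm hS (Finset.sum_nonneg hS0)) x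
    (Finset.mem_univ x)
  exact pow_eq_zero_iff two_ne_zero |>.1 this

end Pool.Agent.KM
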