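import Pool.Agent.KM.FDefs
import Pool.Agent.KM.FBase
import Pool.Agent.KM.DDescent
import Pool.Agent.KM.MFace
import Pool.Agent.KM.AMilnor

/-!
Project KM3 (MP_27fd67_ag), row F8: Milnor functionals vanish on frames (helper19).
-/

set_option autoImplicit false

open Function

namespace Pool.Agent.KM

section
variable {K V W I : Type} [Field K] [AddCommGroup V] [Module K V] [AddCommGroup W]
  [Module K W] [Fintype I] [DecidableEq I] (β : V →ₗ[K] V →ₗ[K] W)

omit [DecidableEq I] in
private theorem f8_gen_perm (σ : Equiv.Perm I) (x u : I → V) :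
    gen β Finset.univ (x ∘ σ) (u ∘ σ) = gen β Finset.univ x u := by
  unfold gen
  simp only [LinearMap.coe_sum, Finset.sum_apply, LinearMap.comp_apply, LinearMap.proj_apply,
    comp_apply]
  exact Equiv.sum_comp σ (fun l => β (x l) (u l))

omit [DecidableEq I] in
private theorem f8_Ont_perm (σ : Equiv.Perm I) (x : I → V) (h : Ont β x) : Ont β (x ∘ σ) := by
  intro w
  obtain ⟨u, hu⟩ := h w
  exact ⟨u ∘ σ, by rw [f8_gen_perm, hu]⟩

private theorem f8_GF_perm (σ : Equiv.Perm I) (x : I → V) (h : GF β x) : GF β (x ∘ σ) := by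
  obtain ⟨x', h1, h2, h3⟩ := h
  refine ⟨x' ∘ σ, ?_, fun i => h2 (σ i), fun P => ?_⟩
  · show gen β Finset.univ (x ∘ σ) (x' ∘ σ) = 0
    rw [f8_gen_perm]
    exact h1
  · have h4 : fc P (x ∘ σ, x' ∘ σ) = fc (P.map σ.toEmbedding) (x, x') ∘ σ := by
      funext l
      by_cases hl : l ∈ P
      · simp [fc, hl]
      · simp [fc, hl]
    rw [h4]
    exact f8_Ont_perm β σ _ (h3 _)

private theorem f8_GF_ne (x : I → V) (h : GF β x) (i : I) : x i ≠ 0 := by
  obtain ⟨x', h1, h2, h3⟩ := h
  exact (h2 i).1

private theorem f8_GF_face (hβ : ∀ a b, β a b = β b a) (P : Finset I) (x x' : I → V)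
    (h : Frm β (x, x')) : GF β (P.piecewise x' x) := by
  obtain ⟨h1, h2, h3⟩ := h
  refine ⟨Pᶜ.piecewise x' x, ?_, fun i => ?_, fun Q => ?_⟩
  · have h4 : gen β Finset.univ (P.piecewise x' x) (Pᶜ.piecewise x' x) =
        gen β Finset.univ x x' := by
      unfold gen
      simp only [LinearMap.coe_sum, Finset.sum_apply, LinearMap.comp_apply, LinearMap.proj_apply]
      refine Finset.sum_congr rfl fun i _ => ?_
      by_cases hi : i ∈ P
      · simp [hi, hβ (x' i) (x i)]
      · simp [hi]
    exact h4.trans h1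
  · by_cases hi : i ∈ P
    · simpa [hi] using (h2 i).symm
    · simpa [hi] using h2 i
  · have h4 : fc Q (P.piecewise x' x, Pᶜ.piecewise x' x) = fc (symmDiff P Q) (x, x') := by
      funext l
      by_cases hP : l ∈ P <;> by_cases hQ : l ∈ Q <;>
        simp [fc, Finset.piecewise, Finset.mem_symmDiff, hP, hQ]
    rw [h4]
    exact h3 _

end

/-- the value of a Milnor functional on faces of frames over a large finite field is zero -/
private theorem f8_fin {K V W ι F : Type} [Field K] [AddCommGroup V] [Module K V]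
    [AddCommGroup W] [Module K W] [Fintype ι] [DecidableEq ι] [Field F] (β : V →ₗ[K] V →ₗ[K] W)
    (hq : ∀ U : (Option ι → V) → ℝ, (∀ x, ¬ GF β x → U x = 0) → Alt U →
        (∀ x z, GF β x → (∀ i, GF β (update x i z)) → U x = ∑ i, U (update x i z)) →
        (∀ x x' : Option ι → V, Frm β (x, x') →
          ∑ P : Finset (Option ι), U (P.piecewise x' x) = 0) →
        ∀ x, U x = 0)
    (hβ : ∀ a b, β a b = β b a) (f : V → F) (hf0 : ∀ v, f v = 0 ↔ v = 0)
    (hgen : ∀ x x' : Option ι → V, gen β Finset.univ x x' = 0 → ∑ i, f (x i) * f (x' i) = 0)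
    (T : (ι → F) → ℝ) (hT : IsM T) (x : Option ι → V)
    (hx : GF β x) : T (fun i => f (x (some i)) / f (x none)) = 0 := by
  classical
  have hφ0 : ∀ v, v ≠ 0 → f v ≠ 0 := fun v hv h => hv ((hf0 v).1 h)
  set U : (Option ι → V) → ℝ := fun y =>
    if GF β y then T (fun i => f (y (some i)) / f (y none)) else 0 with hU
  have h1 : ∀ y, GF β y → U y = T (fun i => f (y (some i)) / f (y none)) := fun y hy => by
    simp only [hU]
    rw [if_pos hy]
  have h2 : ∀ y, ¬ GF β y → U y = 0 := fun y hy => by
    simp only [hU]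
    rw [if_neg hy]
  have hAlt : Alt U := by
    intro y o o' ho
    by_cases hy : GF β y
    · rw [h1 _ (f8_GF_perm β _ y hy), h1 _ hy]
      exact IsM.quot_alt hT (fun o => f (y o)) (fun o => hφ0 _ (f8_GF_ne β y hy o)) o o' ho
    · have hy' : ¬ GF β (y ∘ Equiv.swap o o') := by
        intro h
        apply hy
        have h3 := f8_GF_perm β (Equiv.swap o o') _ h
        have h4 : (y ∘ Equiv.swap o o') ∘ Equiv.swap o o' = y := by
          funext l
          simp
        rwa [h4] at h3
      rw [h2 _ hy', h2 _ hy, neg_zero]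
  have hC : ∀ (y : Option ι → V) (z : V), GF β y → (∀ i, GF β (update y i z)) →
      U y = ∑ i, U (update y i z) := by
    intro y z hy hyz
    rw [h1 _ hy, Finset.sum_congr rfl fun o _ => h1 _ (hyz o)]
    have hz : z ≠ 0 := by
      have := f8_GF_ne β _ (hyz none) none
      rwa [update_self] at this
    have h3 := IsM.quot_cocycle hT (fun o => f (y o)) (fun o => hφ0 _ (f8_GF_ne β y hy o)) (f z)
      (hφ0 z hz)
    rw [h3]
    refine Finset.sum_congr rfl fun o _ => ?_
    have h4 : ∀ o', update (fun o => f (y o)) o (f z) o' = f (update y o z o') := by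
      intro o'
      by_cases h : o' = o
      · subst h; simp
      · rw [update_of_ne h, update_of_ne h]
    congr 1
    funext i
    rw [h4, h4]
  have hP : ∀ y y' : Option ι → V, Frm β (y, y') →
      ∑ P : Finset (Option ι), U (P.piecewise y' y) = 0 := by
    intro y y' hfr
    have hy : ∀ o, y o ≠ 0 := fun o => (hfr.2.1 o).1
    have hy' : ∀ o, y' o ≠ 0 := fun o => (hfr.2.1 o).2
    have h3 := IsM.face_sum hT (fun o => f (y o)) (fun o => f (y' o)) (fun o => hφ0 _ (hy o))
      (fun o => hφ0 _ (hy' o)) (hgen y y' hfr.1)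
    rw [← h3]
    refine Finset.sum_congr rfl fun P _ => ?_
    rw [h1 _ (f8_GF_face β hβ P y y' hfr)]
    have h4 : ∀ o, P.piecewise (fun o => f (y' o)) (fun o => f (y o)) o =
        f (P.piecewise y' y o) := by
      intro o
      by_cases h : o ∈ P
      · simp [h]
      · simp [h]
    congr 1
    funext i
    rw [h4, h4]
  rw [← h1 x hx]
  exact hq U h2 hAlt hC hP x

theorem good_zero3 (p : ℕ) [Fact p.Prime] (k F ι : Type) [Field k] [Field F] [Algebra k F]
    [CharP k p] [Algebra (ZMod p) k] [Algebra.IsAlgebraic (ZMod p) k] [Infinite k] [Fintype ι]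
    [Nonempty ι] [DecidableEq ι] (V W : Submodule k F) [FiniteDimensional k V]
    [FiniteDimensional k W] (hVW : V * V ≤ W) (c c' : Option ι → F) (hc : ∀ o, c o ∈ V)
    (hc' : ∀ o, c' o ∈ V) (hc0 : ∀ o, c o ≠ 0) (hc0' : ∀ o, c' o ≠ 0)
    (hs : ∑ o, c o * c' o = 0)
    (hgen : ∀ P : Finset (Option ι), W ≤ Submodule.span k (Set.range (P.piecewise c' c)) * V)
    (T : (ι → F) → ℝ) (hT : IsM T) : T (fun i => c (some i) / c none) = 0 := by
  have hn : 2 ≤ Fintype.card (Option ι) := by
    rw [Fintype.card_option]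
    have : 0 < Fintype.card ι := Fintype.card_pos
    omega
  obtain ⟨q₀, hq₀⟩ := base_thm3 (Fintype.card (Option ι)) (Module.finrank k W) hn
  classical
  obtain ⟨K, hKfin, hKq, β, f, hβ, hfV, hf0, hfS, hgen0, hsurj⟩ := exists_descent p V W hVW
    (Finset.univ.image c ∪ Finset.univ.image c') (by
      intro s hs
      rcases Finset.mem_union.1 hs with h | h
      · obtain ⟨o, _, rfl⟩ := Finset.mem_image.1 h
        exact hc o
      · obtain ⟨o, _, rfl⟩ := Finset.mem_image.1 h
        exact hc' o) q₀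
  choose x hx using fun o => hfS (c o) (Finset.mem_union_left _
    (Finset.mem_image.2 ⟨o, Finset.mem_univ _, rfl⟩))
  choose x' hx' using fun o => hfS (c' o) (Finset.mem_union_right _
    (Finset.mem_image.2 ⟨o, Finset.mem_univ _, rfl⟩))
  let _ : Fintype K := Fintype.ofFinite K
  have hfr : GF β x := by
    refine ⟨x', (hgen0 _ x x').2 (by simp only [hx, hx']; exact hs), fun o => ⟨?_, ?_⟩,
      fun P => ?_⟩
    · intro h0
      apply hc0 o
      rw [← hx, (hf0 _).2 h0]
    · intro h0
      apply hc0' o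
      rw [← hx', (hf0 _).2 h0]
    · apply hsurj
      refine (hgen P).trans (le_of_eq ?_)
      congr 2
      rw [Finset.coe_univ, Set.image_univ]
      congr 1
      funext o
      by_cases h : o ∈ P
      · simp [fc, h, hx']
      · simp [fc, h, hx]
  have h1 := f8_fin β (hq₀ K _ _ (Option ι) β hβ (by simp) rfl
    (by rw [← Nat.card_eq_fintype_card]; exact hKq)) hβ f hf0
    (fun x x' h => (hgen0 _ x x').1 h) T hT x hfr
  simpa only [hx] using h1

end Pool.Agent.KM
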