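import Pool.Agent.KM.Defs

/-!
Project KM, row KM-M1: basic algebra of Milnor functionals.
-/

set_option autoImplicit false

open Function

namespace Pool.Agent.KM

variable {F ι : Type} [Field F] [DecidableEq ι] {T : (ι → F) → ℝ}

theorem IsM.one (hT : IsM T) (x : ι → F) (i : ι) : T (update x i 1) = 0 := by
  have h := hT.mul x i 1 1 one_ne_zero one_ne_zero
  rw [one_mul] at h
  linarith

theorem IsM.inv (hT : IsM T) (x : ι → F) (i : ι) {a : F} (ha : a ≠ 0) :
    T (update x i a⁻¹) = - T (update x i a) := by
  have h := hT.mul x i a a⁻¹ ha (inv_ne_zero ha)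
  rw [mul_inv_cancel₀ ha, hT.one] at h
  linarith

theorem IsM.div (hT : IsM T) (x : ι → F) (i : ι) {a b : F} (ha : a ≠ 0) (hb : b ≠ 0) :
    T (update x i (a / b)) = T (update x i a) - T (update x i b) := by
  rw [div_eq_mul_inv, hT.mul x i a b⁻¹ ha (inv_ne_zero hb), hT.inv x i hb]
  ring

theorem IsM.m1_pow (hT : IsM T) (x : ι → F) (i : ι) {a : F} (ha : a ≠ 0) (N : ℕ) :
    T (update x i (a ^ N)) = N * T (update x i a) := by
  induction N with
  | zero => rw [pow_zero, hT.one]; simp
  | succ n ih =>
    rw [pow_succ, hT.mul x i _ _ (pow_ne_zero n ha) ha, ih]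
    push_cast
    ring

theorem IsM.tors (hT : IsM T) (x : ι → F) (i : ι) {a : F} (ha : Tors a) :
    T (update x i a) = 0 := by
  obtain ⟨N, hN, h⟩ := ha
  have ha0 : a ≠ 0 := by
    rintro rfl
    rw [zero_pow hN.ne'] at h
    exact zero_ne_one h
  have h1 := hT.m1_pow x i ha0 N
  rw [h, hT.one] at h1
  have hN' : (N : ℝ) ≠ 0 := by exact_mod_cast hN.ne'
  rcases mul_eq_zero.1 h1.symm with h2 | h2
  · exact absurd h2 hN'
  · exact h2

theorem IsM.tors_mul (hT : IsM T) (x : ι → F) (i : ι) {c : F} (hc : Tors c) (a : F) :
    T (update x i (c * a)) = T (update x i a) := by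
  by_cases ha : a = 0
  · rw [ha, mul_zero]
  · have hc0 : c ≠ 0 := by
      obtain ⟨N, hN, h⟩ := hc
      rintro rfl
      rw [zero_pow hN.ne'] at h
      exact zero_ne_one h
    rw [hT.mul x i c a hc0 ha, hT.tors x i hc, zero_add]

theorem m1_tors_neg_one {F : Type} [Field F] : Tors (-1 : F) := ⟨2, by norm_num, by norm_num⟩

theorem IsM.neg (hT : IsM T) (x : ι → F) (i : ι) (a : F) :
    T (update x i (-a)) = T (update x i a) := by
  have h := hT.tors_mul x i (m1_tors_neg_one (F := F)) a
  rwa [neg_one_mul] at h

theorem IsM.of_neg (hT : IsM T) (x : ι → F) {i j : ι} (hij : i ≠ j) (h : x j = - x i) :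
    T x = 0 := by
  by_cases h0 : x i = 0
  · exact hT.zero x i h0
  by_cases h1 : x i = 1
  · have h2 := hT.one x i
    rwa [← h1, update_eq_self] at h2
  have ha1 : 1 - x i ≠ 0 := sub_ne_zero.2 (Ne.symm h1)
  have ha2 : 1 - (x i)⁻¹ ≠ 0 := by
    intro h3
    apply h1
    have h4 : (x i)⁻¹ = 1 := (sub_eq_zero.1 h3).symm
    exact inv_eq_one.1 h4
  have hx : - x i = (1 - x i) / (1 - (x i)⁻¹) := by
    rw [eq_div_iff ha2]
    field_simp
    ring
  have e1 : T x = T (update x j (- x i)) := by
    rw [← h, update_eq_self]
  rw [e1, hx, hT.div x j ha1 ha2]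
  have e2 : T (update x j (1 - x i)) = 0 := by
    apply hT.st _ i j hij
    rw [update_of_ne hij, update_self]
    ring
  have e3 : T (update x j (1 - (x i)⁻¹)) = 0 := by
    have e4 : T (update (update x j (1 - (x i)⁻¹)) i (x i)⁻¹) = 0 := by
      apply hT.st _ i j hij
      rw [update_self, update_of_ne hij.symm, update_self]
      ring
    rw [hT.inv _ i h0] at e4
    have e5 : update (update x j (1 - (x i)⁻¹)) i (x i) = update x j (1 - (x i)⁻¹) := by
      have : x i = (update x j (1 - (x i)⁻¹)) i := by rw [update_of_ne hij]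
      conv_lhs => rw [this]
      rw [update_of_ne hij]
      exact update_eq_self_iff.2 (by rw [update_of_ne hij])
    rw [e5] at e4
    linarith
  rw [e2, e3, sub_zero]

theorem IsM.of_eq (hT : IsM T) (x : ι → F) {i j : ι} (hij : i ≠ j) (h : x i = x j) :
    T x = 0 := by
  have e1 : T (update x j (- x i)) = 0 := by
    apply hT.of_neg _ hij
    rw [update_self, update_of_ne hij]
  rw [hT.neg, h, update_eq_self] at e1
  exact e1

/-- merging two entries -/
theorem IsM.merge (hT : IsM T) (x : ι → F) {i j : ι} (hij : i ≠ j) (hi : x i ≠ 0) (hj : x j ≠ 0)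
    (hw : x i + x j ≠ 0) :
    T x = T (update x j (x i + x j)) + T (update x i (x i + x j)) := by
  have e0 : T (update (update x i (x i / (x i + x j))) j (x j / (x i + x j))) = 0 := by
    apply hT.st _ i j hij
    rw [update_of_ne hij, update_self, update_self, ← add_div, div_self hw]
  rw [hT.div _ j hj hw] at e0
  have e1 : update (update x i (x i / (x i + x j))) j (x j) = update x i (x i / (x i + x j)) :=
    update_eq_self_iff.2 (by rw [update_of_ne hij.symm])
  rw [e1, hT.div x i hi hw, update_eq_self, update_comm hij, hT.div _ i hi hw] at e0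
  have e2 : update (update x j (x i + x j)) i (x i) = update x j (x i + x j) :=
    update_eq_self_iff.2 (by rw [update_of_ne hij])
  have e3 : T (update (update x j (x i + x j)) i (x i + x j)) = 0 := by
    apply hT.of_eq _ hij
    rw [update_self, update_of_ne hij.symm, update_self]
  rw [e2, e3] at e0
  linarith

/-- dividing a set of other entries by a given one -/
theorem IsM.m1_div_finset (hT : IsM T) (x : ι → F) (o : ι) (h : ∀ i, x i ≠ 0) (S : Finset ι)
    (hS : o ∉ S) : T (fun i => if i ∈ S then x i / x o else x i) = T x := by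
  induction S using Finset.induction_on with
  | empty => simp
  | @insert a S ha ih =>
    have hao : a ≠ o := by
      rintro rfl
      exact hS (Finset.mem_insert_self _ _)
    have hoS : o ∉ S := fun h' => hS (Finset.mem_insert_of_mem h')
    rw [← ih hoS]
    have e1 : (fun i => if i ∈ insert a S then x i / x o else x i) =
        update (fun i => if i ∈ S then x i / x o else x i) a (x a / x o) := by
      funext i
      by_cases hi : i = a
      · rw [hi, update_self, if_pos (Finset.mem_insert_self _ _)]
      · rw [update_of_ne hi]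
        have : i ∈ insert a S ↔ i ∈ S := by
          rw [Finset.mem_insert]
          exact ⟨fun h' => h'.resolve_left hi, Or.inr⟩
        simp only [this]
    rw [e1, hT.div _ a (h a) (h o)]
    have e2 : update (fun i => if i ∈ S then x i / x o else x i) a (x a) =
        (fun i => if i ∈ S then x i / x o else x i) :=
      update_eq_self_iff.2 (by simp only [if_neg ha])
    have e3 : T (update (fun i => if i ∈ S then x i / x o else x i) a (x o)) = 0 := by
      apply hT.of_eq _ hao
      rw [update_self, update_of_ne hao.symm, if_neg hoS]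
    rw [e2, e3, sub_zero]

/-- dividing all other entries by a given one does not change the value -/
theorem IsM.div_all [Finite ι] (hT : IsM T) (x : ι → F) (o : ι) (h : ∀ i, x i ≠ 0) :
    T (fun i => if i = o then x i else x i / x o) = T x := by
  classical
  have _ : Fintype ι := Fintype.ofFinite ι
  have h1 := hT.m1_div_finset x o h (Finset.univ.erase o) (Finset.notMem_erase _ _)
  rw [← h1]
  congr 1
  funext i
  by_cases hi : i = o
  · simp [hi]
  · simp [hi]

end Pool.Agent.KM
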