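import Pool.Agent.KM.Defs

/-!
KM-G1: monomials in `r` elements which generate.
-/

set_option autoImplicit false

open Function
open scoped Pointwise

namespace Pool.Agent.KM

section G
variable {k F : Type} [Field k] [Field F] [Algebra k F]

theorem g1_prod_mem {ι : Type} [DecidableEq ι] (s : Finset ι) (y : ι → F) (E : Submodule k F)
    (hyE : ∀ i, y i ∈ E) (ρ : ι → ℕ) : ∏ i ∈ s, y i ^ ρ i ∈ E ^ (∑ i ∈ s, ρ i) := by
  induction s using Finset.induction_on with
  | empty =>
    rw [Finset.prod_empty, Finset.sum_empty, pow_zero]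
    exact Submodule.one_le.1 le_rfl
  | insert i s hi ih =>
    rw [Finset.prod_insert hi, Finset.sum_insert hi, pow_add]
    exact Submodule.mul_mem_mul (Submodule.pow_mem_pow E (hyE i) _) ih

theorem g1_exists_le {ι : Type} [Fintype ι] [DecidableEq ι] (β : ι → ℕ) (n : ℕ)
    (h : n ≤ ∑ i, β i) : ∃ γ : ι → ℕ, (∀ i, γ i ≤ β i) ∧ ∑ i, γ i = n := by
  induction n with
  | zero => exact ⟨fun _ => 0, fun _ => Nat.zero_le _, Finset.sum_const_zero⟩
  | succ n ih =>
    obtain ⟨γ, h1, h2⟩ := ih (by omega)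
    obtain ⟨i, -, hi⟩ := Finset.exists_lt_of_sum_lt (s := Finset.univ) (f := γ) (g := β)
      (by omega)
    refine ⟨update γ i (γ i + 1), fun j => ?_, ?_⟩
    · by_cases hj : j = i
      · subst hj
        rw [update_self]
        omega
      · rw [update_of_ne hj]
        exact h1 j
    · rw [Finset.sum_update_of_mem (Finset.mem_univ i), ← h2,
        ← Finset.add_sum_erase Finset.univ γ (Finset.mem_univ i), Finset.sdiff_singleton_eq_erase]
      omega

theorem g1_iter {r : ℕ} (y : Fin r → F) (E : Submodule k F) (B : ℕ)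
    (hE : ∀ j, B ≤ j → E ^ (j + 1) ≤ Submodule.span k (Set.range y) * E ^ j) (j : ℕ)
    (hj : B ≤ j) (t : ℕ) :
    E ^ (j + t) ≤ Submodule.span k {f | ∃ α : Fin r → ℕ, ∑ i, α i = t ∧ f = ∏ i, y i ^ α i} *
      E ^ j := by
  induction t with
  | zero =>
    have h1 : (1 : Submodule k F) ≤
        Submodule.span k {f | ∃ α : Fin r → ℕ, ∑ i, α i = 0 ∧ f = ∏ i, y i ^ α i} := by
      rw [Submodule.one_le]
      refine Submodule.subset_span ⟨fun _ => 0, Finset.sum_const_zero, ?_⟩
      simp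
    calc E ^ (j + 0) = 1 * E ^ j := by rw [add_zero, one_mul]
      _ ≤ _ := mul_le_mul' h1 le_rfl
  | succ t ih =>
    calc E ^ (j + (t + 1)) = E ^ (j + t + 1) := rfl
      _ ≤ Submodule.span k (Set.range y) * E ^ (j + t) := hE (j + t) (by omega)
      _ ≤ Submodule.span k (Set.range y) * (Submodule.span k
            {f | ∃ α : Fin r → ℕ, ∑ i, α i = t ∧ f = ∏ i, y i ^ α i} * E ^ j) :=
          mul_le_mul' le_rfl ih
      _ = Submodule.span k (Set.range y *
            {f | ∃ α : Fin r → ℕ, ∑ i, α i = t ∧ f = ∏ i, y i ^ α i}) * E ^ j := by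
          rw [← mul_assoc, Submodule.span_mul_span]
      _ ≤ _ := by
          refine mul_le_mul' (Submodule.span_mono ?_) le_rfl
          rintro _ ⟨_, ⟨i, rfl⟩, _, ⟨α, hα, rfl⟩, rfl⟩
          refine ⟨update α i (α i + 1), ?_, ?_⟩
          · rw [Finset.sum_update_of_mem (Finset.mem_univ i), ← hα,
              ← Finset.add_sum_erase Finset.univ α (Finset.mem_univ i),
              Finset.sdiff_singleton_eq_erase]
            omega
          · change y i * ∏ l, y l ^ α l = _
            rw [← Finset.mul_prod_erase Finset.univ (fun l => y l ^ α l) (Finset.mem_univ i),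
              ← Finset.mul_prod_erase Finset.univ (fun l => y l ^ update α i (α i + 1) l)
                (Finset.mem_univ i), update_self, ← mul_assoc, ← pow_succ']
            congr 1
            refine Finset.prod_congr rfl fun l hl => ?_
            rw [update_of_ne (Finset.ne_of_mem_erase hl)]

theorem grid_span (r : ℕ) (hr : 1 ≤ r) (y : Fin r → F) (E : Submodule k F)
    (hyE : ∀ i, y i ∈ E) (B : ℕ) (hB : 1 ≤ B)
    (hE : ∀ j, B ≤ j → E ^ (j + 1) ≤ Submodule.span k (Set.range y) * E ^ j) (N : ℕ)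
    (hN : B + r * (B - 1) ≤ N) :
    E ^ (N + (r + 1) * B) ≤ Submodule.span k
      {f | ∃ γ : Fin r → ℕ, ∑ i, γ i = r + 1 ∧ f = ∏ i, y i ^ (B * γ i)} * E ^ N := by
  obtain ⟨N', rfl⟩ : ∃ N', N = N' + r * (B - 1) := ⟨N - r * (B - 1), by omega⟩
  have hN' : B ≤ N' := by omega
  have h1 := g1_iter y E B hE N' hN' (r * (B - 1) + (r + 1) * B)
  have h2 : N' + r * (B - 1) + (r + 1) * B = N' + (r * (B - 1) + (r + 1) * B) := by ring
  rw [h2]
  refine h1.trans ?_
  have h3 : Submodule.span k {f | ∃ α : Fin r → ℕ, ∑ i, α i = r * (B - 1) + (r + 1) * B ∧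
      f = ∏ i, y i ^ α i} ≤ Submodule.span k
      {f | ∃ γ : Fin r → ℕ, ∑ i, γ i = r + 1 ∧ f = ∏ i, y i ^ (B * γ i)} * E ^ (r * (B - 1)) := by
    rw [Submodule.span_le]
    rintro _ ⟨α, hα, rfl⟩
    have h4 : r + 1 ≤ ∑ i, α i / B := by
      have h5 : ∑ i, α i ≤ ∑ i : Fin r, (B * (α i / B) + (B - 1)) := by
        refine Finset.sum_le_sum fun i _ => ?_
        have h6 := Nat.div_add_mod (α i) B
        have h7 := Nat.mod_lt (α i) (show 0 < B by omega)
        omega
      rw [Finset.sum_add_distrib, ← Finset.mul_sum, Finset.sum_const, Finset.card_univ,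
        Fintype.card_fin, smul_eq_mul, hα] at h5
      have h8 : (r + 1) * B ≤ B * ∑ i, α i / B := by omega
      rw [mul_comm (r + 1) B] at h8
      exact Nat.le_of_mul_le_mul_left h8 (by omega)
    obtain ⟨γ, hγ, hγs⟩ := g1_exists_le _ _ h4
    have h9 : ∀ i, B * γ i ≤ α i := fun i =>
      (Nat.mul_le_mul_left B (hγ i)).trans (Nat.mul_div_le (α i) B)
    have h10 : ∏ i, y i ^ α i = (∏ i, y i ^ (B * γ i)) * ∏ i, y i ^ (α i - B * γ i) := by
      rw [← Finset.prod_mul_distrib]
      refine Finset.prod_congr rfl fun i _ => ?_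
      rw [← pow_add, Nat.add_sub_cancel' (h9 i)]
    have h11 : ∑ i, (α i - B * γ i) = r * (B - 1) := by
      have h12 : ∑ i, α i = ∑ i, (α i - B * γ i) + ∑ i, B * γ i := by
        rw [← Finset.sum_add_distrib]
        refine Finset.sum_congr rfl fun i _ => ?_
        rw [Nat.sub_add_cancel (h9 i)]
      rw [← Finset.mul_sum, hγs, hα, mul_comm B (r + 1)] at h12
      omega
    change ∏ i, y i ^ α i ∈ _
    rw [h10, ← h11]
    exact Submodule.mul_mem_mul (Submodule.subset_span ⟨γ, hγs, rfl⟩)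
      (g1_prod_mem Finset.univ y E hyE _)
  calc _ ≤ (Submodule.span k
      {f | ∃ γ : Fin r → ℕ, ∑ i, γ i = r + 1 ∧ f = ∏ i, y i ^ (B * γ i)} *
        E ^ (r * (B - 1))) * E ^ N' := mul_le_mul' h3 le_rfl
    _ = _ := by rw [mul_assoc, ← pow_add, add_comm (r * (B - 1)) N']

theorem card_exps (r : ℕ) (hr : 1 ≤ r) : {γ : Fin r → ℕ | ∑ i, γ i = r + 1}.Finite ∧
    {γ : Fin r → ℕ | ∑ i, γ i = r + 1}.ncard = Nat.choose (2 * r) (r - 1) := by
  classical
  have h1 : {γ : Fin r → ℕ | ∑ i, γ i = r + 1} =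
      ((Finset.univ : Finset (Fin r)).piAntidiag (r + 1) : Set (Fin r → ℕ)) := by
    ext γ
    simp
  rw [h1]
  refine ⟨Finset.finite_toSet _, ?_⟩
  rw [Set.ncard_coe_finset, ← Finset.map_sym_eq_piAntidiag, Finset.card_map, Finset.sym_univ,
    Finset.card_univ, Sym.card_sym_eq_choose, Fintype.card_fin]
  have h2 : r + (r + 1) - 1 = 2 * r := by omega
  rw [h2]
  have h3 : 2 * r = (r + 1) + (r - 1) := by omega
  exact Nat.choose_symm_of_eq_add h3

end G

end Pool.Agent.KM
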