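import Pool.Agent.KM.FDefs
import Pool.Agent.KM.GSpan

/-!
Project KM3 (MP_27fd67_ag), row F12: five forms of degree `12` in three variables generate all
forms of degree at least `21` (helper81).
-/

set_option autoImplicit false
set_option linter.all false

open Function

namespace Pool.Agent.KM

/-- the exponents of the monomials of the two products; `(a, b, c)` stands for
`z 0 ^ a * z 1 ^ b * z 2 ^ c` -/
private def pcT : Bool → List (ℕ × ℕ × ℕ)
  | false => [(1, 7, 4), (5, 4, 3), (3, 8, 1), (7, 5, 0), (6, 4, 2), (10, 1, 1)]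
  | true => [(0, 5, 7), (3, 3, 6), (3, 6, 3), (2, 6, 4), (5, 4, 3), (5, 7, 0), (5, 2, 5),
      (8, 0, 4), (8, 3, 1)]

/-- the known monomials -/
private def pcOk (G : List (ℕ × ℕ × ℕ)) (m : ℕ × ℕ × ℕ) : Bool :=
  decide (12 ≤ m.1) || decide (12 ≤ m.2.1) || decide (12 ≤ m.2.2) || G.elem m

/-- the monomials of the product of a form with the monomial `v` -/
private def pcL (s : Bool × ℕ × ℕ) : List (ℕ × ℕ × ℕ) :=
  (pcT s.1).map fun m => (m.1 + s.2.1, m.2.1 + s.2.2, m.2.2 + (9 - s.2.1 - s.2.2))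

/-- one step: if exactly one monomial is unknown, it becomes known -/
private def pcStep (G : List (ℕ × ℕ × ℕ)) (s : Bool × ℕ × ℕ) : List (ℕ × ℕ × ℕ) :=
  if s.2.1 + s.2.2 ≤ 9 then
    match (pcL s).filter (fun m => !pcOk G m) with
    | [m] => m :: G
    | _ => G
  else G

/-- the steps -/
private def pcSteps : List (Bool × ℕ × ℕ) :=
  [
    (false, 0, 8), (false, 0, 9), (false, 1, 8), (false, 7, 1), (false, 7, 2), (false, 8, 1),
    (false, 9, 0), (true, 0, 9), (false, 3, 4), (false, 3, 5), (false, 4, 4), (false, 4, 5),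
    (false, 7, 0), (false, 0, 7), (false, 5, 4), (false, 8, 0), (false, 1, 7), (false, 2, 7),
    (false, 3, 3), (false, 4, 3), (true, 0, 8), (true, 2, 7), (true, 4, 5), (false, 0, 6),
    (false, 2, 5), (false, 5, 3), (false, 6, 1), (false, 6, 2), (true, 1, 7), (true, 1, 8),
    (true, 3, 6), (true, 9, 0), (false, 1, 6), (false, 3, 6), (false, 5, 2), (true, 5, 4),
    (false, 4, 2), (true, 0, 7), (true, 2, 6), (true, 3, 5), (false, 2, 3), (false, 5, 1),
    (false, 6, 0), (true, 4, 4), (true, 6, 2), (true, 8, 1), (false, 1, 3), (false, 4, 1),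
    (false, 5, 0), (true, 1, 6), (true, 3, 4), (true, 7, 1), (true, 0, 6), (true, 4, 3),
    (false, 3, 1), (true, 1, 5), (true, 5, 2), (true, 8, 0), (false, 4, 0), (true, 0, 0),
    (true, 2, 4), (true, 6, 1), (true, 0, 3), (true, 3, 3), (true, 5, 0), (false, 0, 1),
    (false, 2, 1), (true, 0, 5), (true, 2, 2), (true, 4, 2), (true, 7, 0), (false, 3, 0),
    (true, 0, 1), (true, 0, 4), (true, 1, 1), (true, 1, 4), (true, 2, 3), (true, 3, 2),
    (true, 6, 0), (true, 0, 2), (true, 1, 3), (true, 2, 0), (true, 3, 0), (true, 1, 0),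
    (true, 1, 2), (true, 3, 1), (true, 4, 0), (false, 0, 0)
  ]

/-- all monomials of degree `21` become known -/
private theorem pc_all : ∀ a < 22, ∀ b < 22, a + b ≤ 21 →
    pcOk (pcSteps.foldl pcStep []) (a, b, 21 - a - b) = true := by
  decide +kernel

section P
variable (k F : Type) [Field k] [Field F] [Algebra k F]

private def pcM {F : Type} [Field F] (z : Fin 3 → F) (m : ℕ × ℕ × ℕ) : F :=
  z 0 ^ m.1 * z 1 ^ m.2.1 * z 2 ^ m.2.2

private theorem pcM_mem (z : Fin 3 → F) (m : ℕ × ℕ × ℕ) :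
    pcM z m ∈ Submodule.span k (Set.range z) ^ (m.1 + m.2.1 + m.2.2) := by
  unfold pcM
  rw [pow_add, pow_add]
  exact Submodule.mul_mem_mul (Submodule.mul_mem_mul
    (Submodule.pow_mem_pow _ (Submodule.subset_span (Set.mem_range_self 0)) _)
    (Submodule.pow_mem_pow _ (Submodule.subset_span (Set.mem_range_self 1)) _))
    (Submodule.pow_mem_pow _ (Submodule.subset_span (Set.mem_range_self 2)) _)

private theorem pcM_add (z : Fin 3 → F) (m : ℕ × ℕ × ℕ) (a b c : ℕ) :
    pcM z (m.1 + a, m.2.1 + b, m.2.2 + c) = pcM z m * pcM z (a, b, c) := by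
  unfold pcM
  ring

private theorem pc_filter {M : Submodule k F} (z : Fin 3 → F) (p : ℕ × ℕ × ℕ → Bool)
    (L : List (ℕ × ℕ × ℕ)) (h : ∀ m ∈ L, p m = false → pcM z m ∈ M) :
    (L.map (pcM z)).sum - ((L.filter p).map (pcM z)).sum ∈ M := by
  induction L with
  | nil => simp
  | cons m L ih =>
    have ih' := ih fun m' hm' => h m' (List.mem_cons_of_mem _ hm')
    by_cases hp : p m = true
    · rw [List.filter_cons_of_pos hp, List.map_cons, List.map_cons, List.sum_cons, List.sum_cons,
        add_sub_add_left_eq_sub]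
      exact ih'
    · have hp' : p m = false := by simpa using hp
      rw [List.filter_cons_of_neg hp, List.map_cons, List.sum_cons, add_sub_assoc]
      exact M.add_mem (h m List.mem_cons_self hp') ih'

private theorem pc_inv (M : Submodule k F) (z : Fin 3 → F)
    (h12 : ∀ m : ℕ × ℕ × ℕ, m.1 + m.2.1 + m.2.2 = 21 → (12 ≤ m.1 ∨ 12 ≤ m.2.1 ∨ 12 ≤ m.2.2) →
      pcM z m ∈ M)
    (hT : ∀ i a b c, a + b + c = 9 → ((pcT i).map (pcM z)).sum * pcM z (a, b, c) ∈ M)
    (G : List (ℕ × ℕ × ℕ)) (hG : ∀ m ∈ G, pcM z m ∈ M) (s : Bool × ℕ × ℕ) :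
    ∀ m ∈ pcStep G s, pcM z m ∈ M := by
  intro m hm
  unfold pcStep at hm
  split_ifs at hm with h9
  · have hdeg : ∀ i, ∀ m ∈ pcT i, m.1 + m.2.1 + m.2.2 = 12 := by
      intro i m hm
      cases i
      · simp only [pcT, List.mem_cons, List.not_mem_nil, or_false] at hm
        rcases hm with rfl | rfl | rfl | rfl | rfl | rfl <;> rfl
      · simp only [pcT, List.mem_cons, List.not_mem_nil, or_false] at hm
        rcases hm with rfl | rfl | rfl | rfl | rfl | rfl | rfl | rfl | rfl <;> rfl
    have hL : ∀ m ∈ pcL s, m.1 + m.2.1 + m.2.2 = 21 := by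
      intro m hm
      unfold pcL at hm
      obtain ⟨m', hm', rfl⟩ := List.mem_map.1 hm
      have := hdeg _ _ hm'
      simp only
      omega
    have h1 := pc_filter k F (M := M) z (fun m => !pcOk G m) (pcL s) (by
      intro m' hm' hp
      simp only [Bool.not_eq_false'] at hp
      unfold pcOk at hp
      simp only [Bool.or_eq_true, decide_eq_true_eq, List.elem_iff] at hp
      rcases hp with ((h | h) | h) | h
      · exact h12 m' (hL m' hm') (Or.inl h)
      · exact h12 m' (hL m' hm') (Or.inr (Or.inl h))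
      · exact h12 m' (hL m' hm') (Or.inr (Or.inr h))
      · exact hG m' h)
    have h2 : ((pcL s).map (pcM z)).sum ∈ M := by
      have h3 : ((pcL s).map (pcM z)).sum =
          ((pcT s.1).map (pcM z)).sum * pcM z (s.2.1, s.2.2, 9 - s.2.1 - s.2.2) := by
        unfold pcL
        rw [List.map_map, ← List.sum_map_mul_right]
        congr 1
        refine List.map_congr_left fun m' _ => ?_
        exact pcM_add F z m' _ _ _
      rw [h3]
      exact hT _ _ _ _ (by omega)
    have h4 := M.sub_mem h2 h1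
    rw [sub_sub_cancel] at h4
    split at hm
    · rename_i m' he
      rw [he] at h4
      simp only [List.map_cons, List.map_nil, List.sum_cons, List.sum_nil, add_zero] at h4
      rcases List.mem_cons.1 hm with h | h
      · rw [h]; exact h4
      · exact hG m h
    · exact hG m hm
  · exact hG m hm

private theorem pc_fold (M : Submodule k F) (z : Fin 3 → F)
    (h12 : ∀ m : ℕ × ℕ × ℕ, m.1 + m.2.1 + m.2.2 = 21 → (12 ≤ m.1 ∨ 12 ≤ m.2.1 ∨ 12 ≤ m.2.2) →
      pcM z m ∈ M)
    (hT : ∀ i a b c, a + b + c = 9 → ((pcT i).map (pcM z)).sum * pcM z (a, b, c) ∈ M)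
    (L : List (Bool × ℕ × ℕ)) (G : List (ℕ × ℕ × ℕ)) (hG : ∀ m ∈ G, pcM z m ∈ M) :
    ∀ m ∈ L.foldl pcStep G, pcM z m ∈ M := by
  induction L generalizing G with
  | nil => exact hG
  | cons s L ih => exact ih _ (pc_inv k F M z h12 hT G hG s)

/-- the certificate: five forms of degree `12` in three variables generate all forms of degree
at least `21` -/
theorem cert (z : Fin 3 → F) (α α' β' : F)
    (hα : α = z 1 ^ 3 * z 2 ^ 3 + z 0 ^ 2 * z 1 ^ 4 + z 0 ^ 5 * z 2)
    (hα' : α' = z 0 * z 1 ^ 4 * z 2 + z 0 ^ 5 * z 1)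
    (hβ' : β' = z 1 ^ 2 * z 2 ^ 4 + z 0 ^ 3 * z 2 ^ 3 + z 0 ^ 3 * z 1 ^ 3) (N : ℕ) (hN : 21 ≤ N) :
    Submodule.span k (Set.range z) ^ N ≤
      Submodule.span k {α * α', α * β', z 0 ^ 12, z 1 ^ 12, z 2 ^ 12} *
        Submodule.span k (Set.range z) ^ (N - 12) := by
  set E := Submodule.span k (Set.range z) with hE
  set L := Submodule.span k ({α * α', α * β', z 0 ^ 12, z 1 ^ 12, z 2 ^ 12} : Set F) with hL
  have h0 : ∀ i, z i ^ 12 ∈ L := by
    intro i
    refine Submodule.subset_span ?_
    fin_cases i <;> simp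
  have h12 : ∀ m : ℕ × ℕ × ℕ, m.1 + m.2.1 + m.2.2 = 21 →
      (12 ≤ m.1 ∨ 12 ≤ m.2.1 ∨ 12 ≤ m.2.2) → pcM z m ∈ L * E ^ 9 := by
    intro m hm h
    obtain ⟨a, b, c⟩ := m
    simp only at hm h
    rcases h with h | h | h
    · obtain ⟨a', rfl⟩ := Nat.exists_eq_add_of_le h
      have e : pcM z (12 + a', b, c) = z 0 ^ 12 * pcM z (a', b, c) := by
        unfold pcM; ring
      rw [e]
      refine Submodule.mul_mem_mul (h0 0) ?_
      have := pcM_mem k F z (a', b, c)
      have e2 : a' + b + c = 9 := by omega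
      rwa [show (a', b, c).1 + (a', b, c).2.1 + (a', b, c).2.2 = 9 from e2] at this
    · obtain ⟨b', rfl⟩ := Nat.exists_eq_add_of_le h
      have e : pcM z (a, 12 + b', c) = z 1 ^ 12 * pcM z (a, b', c) := by
        unfold pcM; ring
      rw [e]
      refine Submodule.mul_mem_mul (h0 1) ?_
      have := pcM_mem k F z (a, b', c)
      have e2 : a + b' + c = 9 := by omega
      rwa [show (a, b', c).1 + (a, b', c).2.1 + (a, b', c).2.2 = 9 from e2] at this
    · obtain ⟨c', rfl⟩ := Nat.exists_eq_add_of_le h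
      have e : pcM z (a, b, 12 + c') = z 2 ^ 12 * pcM z (a, b, c') := by
        unfold pcM; ring
      rw [e]
      refine Submodule.mul_mem_mul (h0 2) ?_
      have := pcM_mem k F z (a, b, c')
      have e2 : a + b + c' = 9 := by omega
      rwa [show (a, b, c').1 + (a, b, c').2.1 + (a, b, c').2.2 = 9 from e2] at this
  have hT : ∀ i a b c, a + b + c = 9 →
      ((pcT i).map (pcM z)).sum * pcM z (a, b, c) ∈ L * E ^ 9 := by
    intro i a b c h9
    refine Submodule.mul_mem_mul ?_ ?_
    · cases i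
      · have e : ((pcT false).map (pcM z)).sum = α * α' := by
          rw [hα, hα']
          simp only [pcT, List.map_cons, List.map_nil, List.sum_cons, List.sum_nil, pcM]
          ring
        rw [e]
        exact Submodule.subset_span (by simp)
      · have e : ((pcT true).map (pcM z)).sum = α * β' := by
          rw [hα, hβ']
          simp only [pcT, List.map_cons, List.map_nil, List.sum_cons, List.sum_nil, pcM]
          ring
        rw [e]
        exact Submodule.subset_span (by simp)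
    · have := pcM_mem k F z (a, b, c)
      rwa [show (a, b, c).1 + (a, b, c).2.1 + (a, b, c).2.2 = 9 from h9] at this
  have hG := pc_fold k F (L * E ^ 9) z h12 hT pcSteps [] (by simp)
  have h21 : E ^ 21 ≤ L * E ^ 9 := by
    have h1 := g1_iter z E 0 (fun j _ => by rw [pow_succ']) 0 le_rfl 21
    rw [zero_add, pow_zero, mul_one] at h1
    refine h1.trans (Submodule.span_le.2 ?_)
    rintro f ⟨u, hu, rfl⟩
    rw [Fin.sum_univ_three] at hu
    rw [Fin.prod_univ_three]
    have h2 := pc_all (u 0) (by omega) (u 1) (by omega) (by omega)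
    have e : 21 - u 0 - u 1 = u 2 := by omega
    rw [e] at h2
    unfold pcOk at h2
    simp only [Bool.or_eq_true, decide_eq_true_eq, List.elem_iff] at h2
    show pcM z (u 0, u 1, u 2) ∈ L * E ^ 9
    rcases h2 with ((h | h) | h) | h
    · exact h12 _ hu (Or.inl h)
    · exact h12 _ hu (Or.inr (Or.inl h))
    · exact h12 _ hu (Or.inr (Or.inr h))
    · exact hG _ h
  have e1 : E ^ N = E ^ 21 * E ^ (N - 21) := by
    rw [← pow_add]
    congr 1
    omega
  have e2 : E ^ (N - 12) = E ^ 9 * E ^ (N - 21) := by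
    rw [← pow_add]
    congr 1
    omega
  rw [e1, e2, ← mul_assoc]
  exact mul_le_mul' h21 le_rfl

end P

end Pool.Agent.KM
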