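import Pool.Agent.KM.PRec2
import Pool.Agent.KM.PCert

/-!
Project KM3, F13: `PS_two` and `PS_all`. The forms are the `q`-th powers of the forms of the
certificate.
-/

set_option autoImplicit false

open Function

namespace Pool.Agent.KM

section P
variable (k F : Type) [Field k] [Field F] [Algebra k F]

private theorem PFrob_span_pow {p e : ℕ} [Fact p.Prime] [CharP F p] (T : Set F) {x : F}
    (hx : x ∈ Submodule.span k T) :
    x ^ p ^ e ∈ Submodule.span k ((fun y : F => y ^ p ^ e) '' T) := by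
  induction hx using Submodule.span_induction with
  | mem y hy => exact Submodule.subset_span ⟨y, hy, rfl⟩
  | zero =>
    rw [zero_pow (pow_ne_zero _ (Fact.out : p.Prime).ne_zero)]; exact Submodule.zero_mem _
  | add x y _ _ hx hy => rw [add_pow_char_pow]; exact Submodule.add_mem _ hx hy
  | smul c x _ hx => rw [smul_pow]; exact Submodule.smul_mem _ _ hx

private theorem PFrob_mul {p e : ℕ} [Fact p.Prime] [CharP F p] (T : Set F) (E : Submodule k F)
    (n : ℕ) {x : F} (hx : x ∈ Submodule.span k T * E ^ n) :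
    x ^ p ^ e ∈ Submodule.span k ((fun y : F => y ^ p ^ e) '' T) * E ^ (n * p ^ e) := by
  refine Submodule.mul_induction_on hx (fun a ha b hb => ?_) fun x y hx hy => ?_
  · rw [mul_pow, pow_mul]
    exact Submodule.mul_mem_mul (PFrob_span_pow k F T ha) (Submodule.pow_mem_pow _ hb _)
  · rw [add_pow_char_pow]; exact Submodule.add_mem _ hx hy

private theorem PFrob_monomial {n : ℕ} (z : Fin n → F) (u : Fin n → ℕ) :
    ∏ i, z i ^ u i ∈ Submodule.span k (Set.range z) ^ (∑ i, u i) := by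
  have h : ∀ s : Finset (Fin n), ∏ i ∈ s, z i ^ u i ∈
      Submodule.span k (Set.range z) ^ (∑ i ∈ s, u i) := by
    intro s
    induction s using Finset.cons_induction with
    | empty =>
      rw [Finset.prod_empty, Finset.sum_empty, pow_zero]; exact Submodule.one_le.1 le_rfl
    | cons i s hi ih =>
      rw [Finset.prod_cons, Finset.sum_cons, pow_add]
      exact Submodule.mul_mem_mul (Submodule.pow_mem_pow _
        (Submodule.subset_span (Set.mem_range_self i)) _) ih
  exact h Finset.univ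

private theorem PFrob_pow_le {n : ℕ} (z : Fin n → F) (N : ℕ) :
    Submodule.span k (Set.range z) ^ N ≤
      Submodule.span k {x | ∃ u : Fin n → ℕ, ∑ i, u i = N ∧ x = ∏ i, z i ^ u i} := by
  induction N with
  | zero =>
    rw [pow_zero, Submodule.one_le]
    exact Submodule.subset_span ⟨0, by simp, by simp⟩
  | succ N ih =>
    rw [pow_succ]
    refine (mul_le_mul' ih le_rfl).trans ?_
    rw [Submodule.span_mul_span]
    refine Submodule.span_le.2 ?_
    rintro _ ⟨_, ⟨u, hu, rfl⟩, _, ⟨j, rfl⟩, rfl⟩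
    refine Submodule.subset_span ⟨u + Pi.single j 1, ?_, ?_⟩
    · simp [Finset.sum_add_distrib, hu]
    · simp only [Pi.add_apply, pow_add, Finset.prod_mul_distrib]
      congr 1
      rw [Finset.prod_eq_single j]
      · simp
      · intro i _ hi; simp [Pi.single_eq_of_ne hi]
      · simp

theorem PS_two (p : ℕ) [Fact p.Prime] [CharP F p] : PS k F 2 2 := by
  intro a θ₀
  have hp : 2 ≤ p := (Fact.out : p.Prime).two_le
  set q : ℕ := p ^ (a + θ₀) with hq
  have hqa : a + θ₀ < q := (a + θ₀).lt_pow_self (by omega)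
  have hq0 : 0 < q := by omega
  refine ⟨6 * q, by omega, fun z => ?_⟩
  set E := Submodule.span k (Set.range z) with hE
  have hz : ∀ i, z i ∈ E := fun i => Submodule.subset_span ⟨i, rfl⟩
  have hmon : ∀ (i₀ i₁ i₂ : ℕ) , z 0 ^ i₀ * z 1 ^ i₁ * z 2 ^ i₂ ∈ E ^ (i₀ + i₁ + i₂) := by
    intro i₀ i₁ i₂
    rw [pow_add, pow_add]
    exact Submodule.mul_mem_mul (Submodule.mul_mem_mul (Submodule.pow_mem_pow _ (hz 0) _)
      (Submodule.pow_mem_pow _ (hz 1) _)) (Submodule.pow_mem_pow _ (hz 2) _)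
  set α : F := z 1 ^ 3 * z 2 ^ 3 + z 0 ^ 2 * z 1 ^ 4 + z 0 ^ 5 * z 2 with hα
  set α' : F := z 0 * z 1 ^ 4 * z 2 + z 0 ^ 5 * z 1 with hα'
  set β' : F := z 1 ^ 2 * z 2 ^ 4 + z 0 ^ 3 * z 2 ^ 3 + z 0 ^ 3 * z 1 ^ 3 with hβ'
  have h1 : α ∈ E ^ 6 := by
    refine Submodule.add_mem _ (Submodule.add_mem _ ?_ ?_) ?_
    · simpa using hmon 0 3 3
    · simpa using hmon 2 4 0
    · simpa using hmon 5 0 1
  have h2 : α' ∈ E ^ 6 := by
    refine Submodule.add_mem _ ?_ ?_
    · simpa using hmon 1 4 1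
    · simpa using hmon 5 1 0
  have h3 : β' ∈ E ^ 6 := by
    refine Submodule.add_mem _ (Submodule.add_mem _ ?_ ?_) ?_
    · simpa using hmon 0 2 4
    · simpa using hmon 3 0 3
    · simpa using hmon 3 3 0
  refine ⟨0, fun i => z i.succ ^ (12 * q), α ^ q, α' ^ q, β' ^ q, fun i => ?_, ?_, ?_, ?_, ?_⟩
  · have := Submodule.pow_mem_pow E (hz i.succ) (12 * q)
    rwa [show 2 * (6 * q) = 12 * q by ring]
  · rw [pow_mul]; exact Submodule.pow_mem_pow _ h1 _
  · rw [pow_mul]; exact Submodule.pow_mem_pow _ h2 _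
  · rw [pow_mul]; exact Submodule.pow_mem_pow _ h3 _
  intro N hN
  refine (PFrob_pow_le k F z N).trans (Submodule.span_le.2 ?_)
  rintro _ ⟨u, hu, rfl⟩
  set g : Fin 3 → ℕ := fun i => u i % q with hg
  set u' : Fin 3 → ℕ := fun i => u i / q with hu'
  have hdiv : ∀ i, u i = g i + u' i * q := fun i => by
    simp only [hg, hu']; rw [mul_comm]; exact (Nat.mod_add_div (u i) q).symm
  have hgq : ∀ i, g i < q := fun i => Nat.mod_lt _ hq0
  have hsum : N = ∑ i, g i + (∑ i, u' i) * q := by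
    rw [← hu, Finset.sum_mul, ← Finset.sum_add_distrib]
    exact Finset.sum_congr rfl fun i _ => hdiv i
  have hgs : ∑ i, g i + 3 ≤ 3 * q := by
    rw [Fin.sum_univ_three]
    have := hgq 0; have := hgq 1; have := hgq 2
    omega
  have h21 : 21 ≤ ∑ i, u' i := by
    by_contra hcon
    have h5 : ∑ i, u' i ≤ 20 := by omega
    have h6 : (∑ i, u' i) * q ≤ 20 * q := Nat.mul_le_mul_right q h5
    omega
  have h4 : ∏ i, z i ^ u' i ∈
      Submodule.span k {α * α', α * β', z 0 ^ 12, z 1 ^ 12, z 2 ^ 12} * E ^ (∑ i, u' i - 12) :=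
    cert k F z α α' β' hα hα' hβ' _ h21 (PFrob_monomial k F z u')
  have h5 := PFrob_mul k F (p := p) (e := a + θ₀) _ E _ h4
  rw [← hq] at h5
  have h6 : ∏ i, z i ^ u i = (∏ i, z i ^ g i) * (∏ i, z i ^ u' i) ^ q := by
    rw [← Finset.prod_pow, ← Finset.prod_mul_distrib]
    exact Finset.prod_congr rfl fun i _ => by rw [hdiv i, pow_add, pow_mul]
  have h7 : N - 2 * (6 * q) = ∑ i, g i + (∑ i, u' i - 12) * q := by
    rw [hsum, Nat.sub_mul]
    have : 12 * q ≤ (∑ i, u' i) * q := Nat.mul_le_mul_right q (by omega)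
    omega
  have h8 : Submodule.span k ((fun y : F => y ^ q) ''
      {α * α', α * β', z 0 ^ 12, z 1 ^ 12, z 2 ^ 12}) ≤
      Submodule.span k {α ^ q * α' ^ q, α ^ q * β' ^ q, z 0 ^ (2 * (6 * q))} ⊔
        Submodule.span k (Set.range fun i : Fin 2 => z i.succ ^ (12 * q)) := by
    refine Submodule.span_le.2 ?_
    rintro _ ⟨y, hy, rfl⟩
    simp only [Set.mem_insert_iff, Set.mem_singleton_iff] at hy
    have hs : ∀ x, x ∈ ({α ^ q * α' ^ q, α ^ q * β' ^ q, z 0 ^ (2 * (6 * q))} : Set F) →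
        x ∈ Submodule.span k {α ^ q * α' ^ q, α ^ q * β' ^ q, z 0 ^ (2 * (6 * q))} ⊔
          Submodule.span k (Set.range fun i : Fin 2 => z i.succ ^ (12 * q)) := fun x hx =>
      Submodule.mem_sup_left (Submodule.subset_span hx)
    rcases hy with rfl | rfl | rfl | rfl | rfl
    · exact hs _ (by simp [mul_pow])
    · exact hs _ (by simp [mul_pow])
    · exact hs _ (by simp only [Set.mem_insert_iff, Set.mem_singleton_iff]; right; right
                     rw [← pow_mul]; congr 1; ring)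
    · refine Submodule.mem_sup_right (Submodule.subset_span ⟨0, ?_⟩)
      simp [pow_mul]
    · refine Submodule.mem_sup_right (Submodule.subset_span ⟨1, ?_⟩)
      simp only [Fin.succ_one_eq_two]; rw [pow_mul]
  rw [h6, h7, pow_add, mul_comm (∏ i, z i ^ g i), mul_comm (E ^ ∑ i, g i), ← mul_assoc]
  exact Submodule.mul_mem_mul (mul_le_mul' h8 le_rfl h5) (PFrob_monomial k F z g)

theorem PS_all [Infinite k] (p : ℕ) [Fact p.Prime] [CharP F p] (d : ℕ) (hd : 2 ≤ d) :
    PS k F d (2 ^ (d + 1) - 6) := by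
  induction d, hd using Nat.le_induction with
  | base => exact PS_two k F p
  | succ d hd ih =>
    have h := PS_succ k F d _ ih
    have h8 : 2 ^ 3 ≤ 2 ^ (d + 1) := Nat.pow_le_pow_right (by norm_num) (by omega)
    have : 2 ^ (d + 1) - 6 + 2 ^ (d + 1) = 2 ^ (d + 1 + 1) - 6 := by
      rw [pow_succ 2 (d + 1)]; omega
    rwa [this] at h

end P

end Pool.Agent.KM
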