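import Pool.Agent.KM.FDefs
import Pool.Agent.KM.GSpan

/-!
Project KM3 (MP_27fd67_ag), row F10: `2 ^ d` forms of degree `b` in `d + 1` variables generate
all forms of degree at least `2 * b` (helper81).
-/

set_option autoImplicit false
set_option linter.all false

open Function

namespace Pool.Agent.KM

/-! ### halves of exponents -/

/-- extension by zero -/
private def cuE {n : ℕ} (u : Fin n → ℕ) (l : ℕ) : ℕ := if h : l < n then u ⟨l, h⟩ else 0

/-- partial sums -/
private def cuS {n : ℕ} (u : Fin n → ℕ) (j : ℕ) : ℕ := ∑ l ∈ Finset.range j, cuE u l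

private theorem cuS_succ {n : ℕ} (u : Fin n → ℕ) (i : Fin n) :
    cuS u (i + 1) = cuS u i + u i := by
  unfold cuS
  rw [Finset.sum_range_succ]
  congr 1
  unfold cuE
  rw [dif_pos i.2]

private theorem cuS_mono {n : ℕ} (u : Fin n → ℕ) : Monotone (cuS u) := by
  intro a b h
  unfold cuS
  exact Finset.sum_le_sum_of_subset (Finset.range_mono h)

private theorem cuS_last {n : ℕ} (u : Fin n → ℕ) : cuS u n = ∑ i, u i := by
  unfold cuS
  rw [← Fin.sum_univ_eq_sum_range]
  refine Finset.sum_congr rfl fun i _ => ?_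
  unfold cuE
  rw [dif_pos i.2]

/-- the lower half -/
private def cuV {n : ℕ} (u : Fin n → ℕ) (i : Fin n) : ℕ := cuS u (i + 1) / 2 - cuS u i / 2

/-- the upper half -/
private def cuC {n : ℕ} (u : Fin n → ℕ) (i : Fin n) : ℕ :=
  (cuS u (i + 1) + 1) / 2 - (cuS u i + 1) / 2

private theorem cuV_sum {n b : ℕ} (u : Fin n → ℕ) (hu : ∑ i, u i = 2 * b) :
    ∑ i, cuV u i = b := by
  unfold cuV
  rw [Fin.sum_univ_eq_sum_range (fun i => cuS u (i + 1) / 2 - cuS u i / 2) n,
    Finset.sum_range_tsub (f := fun i => cuS u i / 2)]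
  · simp only [cuS_last, hu]
    unfold cuS
    simp
  · intro a c h
    exact Nat.div_le_div_right (cuS_mono u h)

private theorem cuVC {n : ℕ} (u : Fin n → ℕ) (i : Fin n) : cuV u i + cuC u i = u i := by
  unfold cuV cuC
  have h := cuS_succ u i
  omega

/-- the parity of the partial sum -/
private def cuT {n : ℕ} (u : Fin n → ℕ) (j : ℕ) : ℤ := ((cuS u j % 2 : ℕ) : ℤ)

private theorem cuCV {n : ℕ} (u : Fin n → ℕ) (i : Fin n) :
    (cuC u i : ℤ) - cuV u i = cuT u (i + 1) - cuT u i := by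
  unfold cuV cuC cuT
  have h := cuS_succ u i
  omega

/-- the class of an exponent -/
private def cuCl {d : ℕ} (u : Fin (d + 1) → ℕ) (i : Fin d) : Bool :=
  decide (cuS u (i + 1) % 2 = 1)

/-- the parities belonging to a class -/
private def cuTc {d : ℕ} (τ : Fin d → Bool) (j : ℕ) : ℤ :=
  if h : 1 ≤ j ∧ j ≤ d then (if τ ⟨j - 1, by omega⟩ then 1 else 0) else 0

private theorem cuTc_eq {d b : ℕ} (u : Fin (d + 1) → ℕ) (hu : ∑ i, u i = 2 * b) (j : ℕ)
    (hj : j ≤ d + 1) : cuTc (cuCl u) j = cuT u j := by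
  unfold cuTc cuT
  by_cases h : 1 ≤ j ∧ j ≤ d
  · rw [dif_pos h]
    unfold cuCl
    have e : j - 1 + 1 = j := by omega
    simp only [e, decide_eq_true_eq]
    split_ifs with h1
    · rw [h1]; rfl
    · have : cuS u j % 2 = 0 := by omega
      rw [this]; rfl
  · rw [dif_neg h]
    rcases Nat.eq_zero_or_pos j with h0 | h0
    · subst h0
      unfold cuS
      simp
    · have : j = d + 1 := by
        by_contra h1
        exact h ⟨h0, by omega⟩
      subst this
      rw [cuS_last, hu]
      simp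

/-- the weight of a monomial in the form of the class `τ` -/
private def cuW {d : ℕ} (τ : Fin d → Bool) (c : Fin (d + 1) → ℕ) : ℤ :=
  2 * ∑ i : Fin (d + 1), (c i : ℤ) * (c i - (cuTc τ (i + 1) - cuTc τ i))

private theorem cuTc_bound {d : ℕ} (τ : Fin d → Bool) (j : ℕ) : 0 ≤ cuTc τ j ∧ cuTc τ j ≤ 1 := by
  unfold cuTc
  split_ifs <;> simp

private theorem cuW_nonneg {d : ℕ} (τ : Fin d → Bool) (c : Fin (d + 1) → ℕ) : 0 ≤ cuW τ c := by
  unfold cuW
  refine mul_nonneg (by norm_num) (Finset.sum_nonneg fun i _ => ?_)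
  rcases Nat.eq_zero_or_pos (c i) with h | h
  · rw [h]; simp
  · refine mul_nonneg (by positivity) ?_
    have h1 := cuTc_bound τ (i + 1)
    have h2 := cuTc_bound τ i
    have h3 : (1 : ℤ) ≤ c i := by exact_mod_cast h
    linarith [h1.2, h2.1]

/-- sums of squares -/
private def cuN {n : ℕ} (u : Fin n → ℕ) : ℕ := ∑ i, u i ^ 2

/-- the square of the distance -/
private def cuD {n : ℕ} (u u' : Fin n → ℕ) : ℕ := ∑ i, ((u i : ℤ) - u' i).natAbs ^ 2

private theorem cu_key {d b : ℕ} (u' c u : Fin (d + 1) → ℕ) (hu' : ∑ i, u' i = 2 * b)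
    (hc : ∀ i, u i = c i + cuV u' i) :
    (cuW (cuCl u') c).toNat + (cuN (cuV u') + cuN (cuC u')) = cuN u + cuD u u' := by
  have h1 : ((cuW (cuCl u') c).toNat : ℤ) = cuW (cuCl u') c :=
    Int.toNat_of_nonneg (cuW_nonneg _ _)
  zify
  rw [h1]
  unfold cuW cuN cuD
  push_cast
  rw [Finset.mul_sum, ← Finset.sum_add_distrib, ← Finset.sum_add_distrib,
    ← Finset.sum_add_distrib]
  refine Finset.sum_congr rfl fun i _ => ?_
  rw [cuTc_eq u' hu' _ (by have := i.2; omega), cuTc_eq u' hu' _ (by have := i.2; omega),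
    ← cuCV, sq_abs]
  have h2 : (u' i : ℤ) = cuV u' i + cuC u' i := by exact_mod_cast (cuVC u' i).symm
  have h3 : (u i : ℤ) = c i + cuV u' i := by exact_mod_cast hc i
  rw [h2, h3]
  ring

private theorem cuD_self {n : ℕ} (u : Fin n → ℕ) : cuD u u = 0 := by
  unfold cuD
  simp

private theorem cuD_ne {n : ℕ} (u u' : Fin n → ℕ) (h : u ≠ u') : cuD u u' ≠ 0 := by
  intro h0
  apply h
  unfold cuD at h0
  funext i
  have := (Finset.sum_eq_zero_iff_of_nonneg (fun _ _ => Nat.zero_le _)).1 h0 i (Finset.mem_univ i)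
  have h1 := pow_eq_zero_iff (two_ne_zero) |>.1 this
  have h2 := Int.natAbs_eq_zero.1 h1
  omega

/-- the type of exponents of degree `N` -/
private abbrev CuU (n N : ℕ) : Type := {u : Fin n → ℕ // u ∈ Finset.piAntidiag Finset.univ N}

private theorem CuU_sum {n N : ℕ} (u : CuU n N) : ∑ i, u.1 i = N := by
  have := u.2
  rw [Finset.mem_piAntidiag] at this
  exact this.1

open scoped Classical in
/-- the matrix -/
private noncomputable def cuB {R : Type} [CommSemiring R] {d b : ℕ} (s : R) :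
    Matrix (CuU (d + 1) (2 * b)) (CuU (d + 1) (2 * b)) R :=
  fun u' u => if cuV u'.1 ≤ u.1 then s ^ cuD u.1 u'.1 else 0

private theorem cuB_zero {R : Type} [CommSemiring R] {d b : ℕ} :
    (cuB (0 : R) : Matrix (CuU (d + 1) (2 * b)) (CuU (d + 1) (2 * b)) R) = 1 := by
  ext u' u
  unfold cuB
  by_cases h : u' = u
  · subst h
    have hle : ∀ i, cuV u'.1 i ≤ u'.1 i := fun i => by have := cuVC u'.1 i; omega
    rw [if_pos (show cuV u'.1 ≤ u'.1 from hle), cuD_self, pow_zero, Matrix.one_apply_eq]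
  · rw [Matrix.one_apply_ne h]
    split_ifs
    · exact zero_pow (cuD_ne _ _ (fun h1 => h (Subtype.ext h1.symm)))
    · rfl

private theorem cu_exists (k : Type) [Field k] [Infinite k] (d b : ℕ) :
    ∃ s : k, s ≠ 0 ∧
      (cuB s : Matrix (CuU (d + 1) (2 * b)) (CuU (d + 1) (2 * b)) k).det ≠ 0 := by
  classical
  set Q : Polynomial k :=
    (cuB (Polynomial.X : Polynomial k) : Matrix (CuU (d + 1) (2 * b)) (CuU (d + 1) (2 * b)) _).det
    with hQ
  have hev : ∀ s : k, Polynomial.eval s Q =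
      (cuB s : Matrix (CuU (d + 1) (2 * b)) (CuU (d + 1) (2 * b)) k).det := by
    intro s
    have h1 := RingHom.map_det (Polynomial.evalRingHom s)
      (cuB (Polynomial.X : Polynomial k) : Matrix (CuU (d + 1) (2 * b)) (CuU (d + 1) (2 * b)) _)
    have h2 : (Polynomial.evalRingHom s).mapMatrix
        (cuB (Polynomial.X : Polynomial k) :
          Matrix (CuU (d + 1) (2 * b)) (CuU (d + 1) (2 * b)) _) = cuB s := by
      ext u' u
      simp only [RingHom.mapMatrix_apply, Matrix.map_apply, cuB, Polynomial.coe_evalRingHom]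
      split_ifs
      · simp
      · simp
    rw [h2] at h1
    exact h1
  have hQ0 : Q ≠ 0 := by
    intro h0
    have h1 := hev 0
    rw [h0, cuB_zero, Matrix.det_one, Polynomial.eval_zero] at h1
    exact zero_ne_one h1
  have hX : Polynomial.X * Q ≠ 0 := mul_ne_zero Polynomial.X_ne_zero hQ0
  obtain ⟨s, hs⟩ : ∃ s : k, Polynomial.eval s (Polynomial.X * Q) ≠ 0 := by
    by_contra hno
    push Not at hno
    apply hX
    exact Polynomial.funext fun r => by rw [hno r, Polynomial.eval_zero]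
  rw [Polynomial.eval_mul, Polynomial.eval_X] at hs
  refine ⟨s, left_ne_zero_of_mul hs, ?_⟩
  rw [← hev]
  exact right_ne_zero_of_mul hs

section P
variable (k F : Type) [Field k] [Field F] [Algebra k F]

/-- monomials -/
private def cuM {F : Type} [Field F] {n : ℕ} (z : Fin n → F) (u : Fin n → ℕ) : F := ∏ i, z i ^ u i

private theorem cuM_mem {n : ℕ} (z : Fin n → F) (u : Fin n → ℕ) :
    cuM z u ∈ Submodule.span k (Set.range z) ^ (∑ i, u i) :=
  g1_prod_mem Finset.univ z _ (fun i => Submodule.subset_span (Set.mem_range_self i)) u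

/-- the form of the class `τ` -/
private noncomputable def cuX {k F : Type} [Field k] [Field F] [Algebra k F] {d : ℕ} (b : ℕ)
    (s : k) (z : Fin (d + 1) → F) (τ : Fin d → Bool) : F :=
  ∑ c ∈ Finset.piAntidiag Finset.univ b, s ^ (cuW τ c).toNat • cuM z c

private theorem cuX_mem {d : ℕ} (b : ℕ) (s : k) (z : Fin (d + 1) → F) (τ : Fin d → Bool) :
    cuX b s z τ ∈ Submodule.span k (Set.range z) ^ b := by
  unfold cuX
  refine Submodule.sum_mem _ fun c hc => Submodule.smul_mem _ _ ?_
  have h := cuM_mem k F z c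
  rw [Finset.mem_piAntidiag] at hc
  rwa [hc.1] at h

private theorem cu_row {d b : ℕ} (s : k) (z : Fin (d + 1) → F) (u' : CuU (d + 1) (2 * b)) :
    s ^ (cuN (cuV u'.1) + cuN (cuC u'.1)) • (cuX b s z (cuCl u'.1) * cuM z (cuV u'.1)) =
      ∑ u : CuU (d + 1) (2 * b), cuB s u' u • (s ^ cuN u.1 • cuM z u.1) := by
  classical
  have hs := CuU_sum u'
  have e1 : ∑ u : CuU (d + 1) (2 * b), cuB s u' u • (s ^ cuN u.1 • cuM z u.1) =
      ∑ u ∈ Finset.piAntidiag Finset.univ (2 * b), (if cuV u'.1 ≤ u then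
        s ^ (cuD u u'.1) • (s ^ cuN u • cuM z u) else 0) := by
    rw [← Finset.sum_coe_sort (Finset.piAntidiag Finset.univ (2 * b))]
    refine Finset.sum_congr rfl fun u _ => ?_
    unfold cuB
    split_ifs
    · rfl
    · rw [zero_smul]
  rw [e1, ← Finset.sum_filter]
  unfold cuX
  rw [Finset.sum_mul, Finset.smul_sum]
  refine Finset.sum_bij' (fun c _ => fun i => c i + cuV u'.1 i) (fun u _ => fun i => u i - cuV u'.1 i)
    ?_ ?_ ?_ ?_ ?_
  · intro c hc
    rw [Finset.mem_piAntidiag] at hc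
    rw [Finset.mem_filter, Finset.mem_piAntidiag]
    refine ⟨⟨?_, fun i _ => Finset.mem_univ i⟩, fun i => Nat.le_add_left _ _⟩
    rw [Finset.sum_add_distrib, hc.1, cuV_sum _ hs]
    ring
  · intro u hu
    rw [Finset.mem_filter, Finset.mem_piAntidiag] at hu
    rw [Finset.mem_piAntidiag]
    refine ⟨?_, fun i _ => Finset.mem_univ i⟩
    have h1 : ∑ i, (u i - cuV u'.1 i) + ∑ i, cuV u'.1 i = ∑ i, u i := by
      rw [← Finset.sum_add_distrib]
      exact Finset.sum_congr rfl fun i _ => Nat.sub_add_cancel (hu.2 i)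
    rw [hu.1.1, cuV_sum _ hs] at h1
    omega
  · intro c _
    funext i
    simp
  · intro u hu
    rw [Finset.mem_filter] at hu
    funext i
    exact Nat.sub_add_cancel (hu.2 i)
  · intro c hc
    have hk := cu_key u'.1 c (fun i => c i + cuV u'.1 i) hs (fun i => rfl)
    have hM : cuM z (fun i => c i + cuV u'.1 i) = cuM z c * cuM z (cuV u'.1) := by
      unfold cuM
      rw [← Finset.prod_mul_distrib]
      exact Finset.prod_congr rfl fun i _ => pow_add _ _ _
    rw [hM, smul_mul_assoc, smul_smul, smul_smul, ← pow_add, ← pow_add]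
    congr 2
    omega

/-- `2 ^ d` forms of degree `b` in `d + 1` variables generate all forms of degree `≥ 2 b` -/
theorem cube [Infinite k] (d b : ℕ) (z : Fin (d + 1) → F) :
    ∃ x : Fin (2 ^ d) → F, (∀ i, x i ∈ Submodule.span k (Set.range z) ^ b) ∧
      ∀ N, 2 * b ≤ N → Submodule.span k (Set.range z) ^ N ≤
        Submodule.span k (Set.range x) * Submodule.span k (Set.range z) ^ (N - b) := by
  classical
  obtain ⟨s, hs, hdet⟩ := cu_exists k d b
  have hcard : Fintype.card (Fin d → Bool) = 2 ^ d := by simp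
  set e : (Fin d → Bool) ≃ Fin (2 ^ d) := Fintype.equivFinOfCardEq hcard with he
  set E := Submodule.span k (Set.range z) with hE
  set x : Fin (2 ^ d) → F := fun i => cuX b s z (e.symm i) with hx
  have hmain : E ^ (2 * b) ≤ Submodule.span k (Set.range x) * E ^ b := by
    have h1 := g1_iter z E 0 (fun j _ => by rw [pow_succ']) 0 le_rfl (2 * b)
    rw [zero_add, pow_zero, mul_one] at h1
    refine h1.trans (Submodule.span_le.2 ?_)
    rintro f ⟨α, hα, rfl⟩
    have hα' : α ∈ Finset.piAntidiag Finset.univ (2 * b) := by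
      rw [Finset.mem_piAntidiag]
      exact ⟨hα, fun i _ => Finset.mem_univ i⟩
    set u0 : CuU (d + 1) (2 * b) := ⟨α, hα'⟩ with hu0
    have hrow : ∀ u' : CuU (d + 1) (2 * b),
        ∑ u : CuU (d + 1) (2 * b), cuB s u' u • (s ^ cuN u.1 • cuM z u.1) ∈
          Submodule.span k (Set.range x) * E ^ b := by
      intro u'
      rw [← cu_row k F s z u']
      refine Submodule.smul_mem _ _ (Submodule.mul_mem_mul (Submodule.subset_span ?_) ?_)
      · exact ⟨e (cuCl u'.1), by simp [hx]⟩
      · have h2 := cuM_mem k F z (cuV u'.1)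
        rwa [cuV_sum _ (CuU_sum u')] at h2
    have hinv : s ^ cuN α • cuM z α = ∑ u' : CuU (d + 1) (2 * b),
        (cuB s)⁻¹ u0 u' • ∑ u : CuU (d + 1) (2 * b), cuB s u' u • (s ^ cuN u.1 • cuM z u.1) := by
      have h3 : ∀ u' : CuU (d + 1) (2 * b), (cuB s)⁻¹ u0 u' •
          ∑ u : CuU (d + 1) (2 * b), cuB s u' u • (s ^ cuN u.1 • cuM z u.1) =
          ∑ u : CuU (d + 1) (2 * b), ((cuB s)⁻¹ u0 u' * cuB s u' u) •
            (s ^ cuN u.1 • cuM z u.1) := by
        intro u'
        rw [Finset.smul_sum]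
        exact Finset.sum_congr rfl fun u _ => smul_smul _ _ _
      rw [Finset.sum_congr rfl fun u' _ => h3 u', Finset.sum_comm]
      have h4 : ∀ u : CuU (d + 1) (2 * b), ∑ u' : CuU (d + 1) (2 * b),
          ((cuB s)⁻¹ u0 u' * cuB s u' u) • (s ^ cuN u.1 • cuM z u.1) =
          (1 : Matrix (CuU (d + 1) (2 * b)) (CuU (d + 1) (2 * b)) k) u0 u •
            (s ^ cuN u.1 • cuM z u.1) := by
        intro u
        rw [← Finset.sum_smul]
        congr 1
        have h5 : (cuB s : Matrix (CuU (d + 1) (2 * b)) (CuU (d + 1) (2 * b)) k)⁻¹ * cuB s = 1 :=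
          Matrix.nonsing_inv_mul _ (isUnit_iff_ne_zero.2 hdet)
        rw [← h5, Matrix.mul_apply]
      rw [Finset.sum_congr rfl fun u _ => h4 u, Finset.sum_eq_single u0]
      · rw [Matrix.one_apply_eq, one_smul]
      · intro u _ hu
        rw [Matrix.one_apply_ne (Ne.symm hu), zero_smul]
      · intro h
        exact absurd (Finset.mem_univ _) h
    have hmem : s ^ cuN α • cuM z α ∈ Submodule.span k (Set.range x) * E ^ b := by
      rw [hinv]
      exact Submodule.sum_mem _ fun u' _ => Submodule.smul_mem _ _ (hrow u')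
    have hs' : s ^ cuN α ≠ 0 := pow_ne_zero _ hs
    have := Submodule.smul_mem _ (s ^ cuN α)⁻¹ hmem
    rw [smul_smul, inv_mul_cancel₀ hs', one_smul] at this
    exact this
  refine ⟨x, fun i => cuX_mem k F b s z _, fun N hN => ?_⟩
  have e1 : E ^ N = E ^ (2 * b) * E ^ (N - 2 * b) := by
    rw [← pow_add]
    congr 1
    omega
  have e2 : E ^ (N - b) = E ^ b * E ^ (N - 2 * b) := by
    rw [← pow_add]
    congr 1
    omega
  rw [e1, e2, ← mul_assoc]
  exact mul_le_mul' hmain le_rfl

end P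

end Pool.Agent.KM
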