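import Pool.Agent.KM.FDefs
import Pool.Agent.KM.PCube

/-!
Project KM3 (MP_27fd67_ag), row F11a (helper36): the recursion for the numbers of generating
forms.
-/

set_option autoImplicit false

open Function

namespace Pool.Agent.KM

section P
variable (k F : Type) [Field k] [Field F] [Algebra k F]

private theorem p11_l {A B C : Submodule k F} (h : A ≤ B) : A * C ≤ B * C :=
  mul_le_mul' h le_rfl

private theorem p11_r {A B C : Submodule k F} (h : B ≤ C) : A * B ≤ A * C :=
  mul_le_mul' le_rfl h

theorem PG_mono (d m m' : ℕ) (h : m ≤ m') (hP : PG k F d m) : PG k F d m' := by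
  intro a
  obtain ⟨b₀, hb⟩ := hP a
  refine ⟨b₀, fun b hb₀ z => ?_⟩
  obtain ⟨j, t, ht, hN⟩ := hb b hb₀ z
  refine ⟨j, fun i => if hi : (i : ℕ) < m then t ⟨i, hi⟩ else 0, ?_, ?_⟩
  · intro i
    dsimp only
    split_ifs with hi
    · exact ht _
    · exact Submodule.zero_mem _
  · intro N hN'
    refine (hN N hN').trans (p11_l k F (sup_le_sup_left
      (Submodule.span_mono ?_) _))
    rintro _ ⟨i, rfl⟩
    refine ⟨⟨i, i.2.trans_le h⟩, ?_⟩
    simp

/-- expansion of a power of a sum of submodules -/
private theorem p11_sup_pow (A B : Submodule k F) (n : ℕ) :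
    (A ⊔ B) ^ (n + 1) ≤ B ^ (n + 1) ⊔ A * (A ⊔ B) ^ n := by
  induction n with
  | zero => simp [sup_comm]
  | succ n ih =>
    have h1 : (A ⊔ B) ^ (n + 1 + 1) ≤ A * (A ⊔ B) ^ (n + 1) ⊔ B * (A ⊔ B) ^ (n + 1) := by
      rw [pow_succ' (A ⊔ B) (n + 1), Submodule.sup_mul]
    have h2 : B * (A ⊔ B) ^ (n + 1) ≤ B ^ (n + 1 + 1) ⊔ A * (A ⊔ B) ^ (n + 1) := by
      refine (p11_r k F ih).trans ?_
      rw [Submodule.mul_sup]
      refine sup_le_sup (le_of_eq (pow_succ' B (n + 1)).symm) ?_
      rw [mul_left_comm, pow_succ' (A ⊔ B) n]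
      exact p11_r k F (p11_l k F le_sup_right)
    exact h1.trans (sup_le le_sup_right h2)

theorem PG_zero : PG k F 0 0 := by
  intro a
  refine ⟨a, fun b hb z => ⟨0, Fin.elim0, fun i => i.elim0, fun N hN => ?_⟩⟩
  have hr : Set.range z = {z 0} := by
    ext y
    constructor
    · rintro ⟨i, rfl⟩
      have hi : i = 0 := Fin.ext (by omega)
      rw [hi]
      rfl
    · rintro rfl
      exact ⟨0, rfl⟩
  have h1 : Submodule.span k (Set.range z) ^ N =
      Submodule.span k (Set.range z) ^ b * Submodule.span k (Set.range z) ^ (N - b) := by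
    rw [← pow_add]
    congr 1
    omega
  rw [h1]
  refine p11_l k F (le_sup_of_le_left ?_)
  rw [hr, Submodule.span_pow, Set.singleton_pow]

theorem PG_succ [Infinite k] (d m : ℕ) (h : PG k F d m) : PG k F (d + 1) (m + 2 ^ (d + 1)) := by
  intro a
  obtain ⟨b₀, hb⟩ := h (2 * a)
  refine ⟨max b₀ (2 * a + 1), fun b hb₀ z => ?_⟩
  have hb1 : b₀ ≤ b := (le_max_left _ _).trans hb₀
  have hb2 : 2 * a + 1 ≤ b := (le_max_right _ _).trans hb₀
  obtain ⟨j, t, ht, hN⟩ := hb b hb1 (fun i => z i.succ)
  obtain ⟨x, hx, hxN⟩ := cube k F (d + 1) (b - a) z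
  set E := Submodule.span k (Set.range z) with hE
  set E' := Submodule.span k (Set.range fun i : Fin (d + 1) => z i.succ) with hE'
  have hE'E : E' ≤ E := Submodule.span_mono (by rintro _ ⟨i, rfl⟩; exact ⟨i.succ, rfl⟩)
  have hz0 : z 0 ∈ E := Submodule.subset_span ⟨0, rfl⟩
  have hEsup : E ≤ Submodule.span k {z 0} ⊔ E' := by
    rw [hE, Submodule.span_le]
    rintro _ ⟨i, rfl⟩
    refine Fin.cases ?_ (fun i => ?_) i
    · exact Submodule.mem_sup_left (Submodule.mem_span_singleton_self _)
    · exact Submodule.mem_sup_right (Submodule.subset_span ⟨i, rfl⟩)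
  have hsupE : Submodule.span k {z 0} ⊔ E' = E :=
    le_antisymm (sup_le ((Submodule.span_singleton_le_iff_mem _ _).2 hz0) hE'E) hEsup
  set t' : Fin (m + 2 ^ (d + 1)) → F := Fin.append t (fun i => z 0 ^ a * x i) with ht'
  have hG1 : Submodule.span k (Set.range t) ≤ Submodule.span k (Set.range t') := by
    refine Submodule.span_mono ?_
    rintro _ ⟨i, rfl⟩
    exact ⟨Fin.castAdd _ i, by rw [ht', Fin.append_left]⟩
  have hG2 : Submodule.span k (Set.range fun i => z 0 ^ a * x i) ≤
      Submodule.span k (Set.range t') := by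
    refine Submodule.span_mono ?_
    rintro _ ⟨i, rfl⟩
    exact ⟨Fin.natAdd _ i, by rw [ht', Fin.append_right]⟩
  refine ⟨j.succ, t', ?_, ?_⟩
  · intro i
    refine Fin.addCases (fun i => ?_) (fun i => ?_) i
    · rw [ht', Fin.append_left]
      exact pow_le_pow_left' hE'E b (ht i)
    · rw [ht', Fin.append_right]
      have h1 : z 0 ^ a * x i ∈ E ^ a * E ^ (b - a) :=
        Submodule.mul_mem_mul (Submodule.pow_mem_pow E hz0 a) (hx i)
      rw [← pow_add, show a + (b - a) = b by omega] at h1
      exact h1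
  · intro N hN'
    set G := (Submodule.span k {z j.succ ^ b} ⊔ Submodule.span k (Set.range t')) * E ^ (N - b)
      with hG
    have key : ∀ e c : ℕ, c + e = a → Submodule.span k {z 0 ^ c} * E ^ (N - c) ≤ G := by
      intro e
      induction e with
      | zero =>
        intro c hc
        have hc' : c = a := by omega
        subst hc'
        have h1 := hxN (N - c) (by omega)
        rw [show N - c - (b - c) = N - b by omega] at h1
        refine (p11_r k F h1).trans ?_
        rw [← mul_assoc, Submodule.span_mul_span, Set.singleton_mul]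
        refine p11_l k F (le_sup_of_le_right ?_)
        refine le_trans (Submodule.span_mono ?_) hG2
        rintro _ ⟨_, ⟨i, rfl⟩, rfl⟩
        exact ⟨i, rfl⟩
      | succ e ih =>
        intro c hc
        have h1 : E ^ (N - c) ≤ E' ^ (N - c) ⊔ Submodule.span k {z 0} * E ^ (N - (c + 1)) := by
          have h2 := p11_sup_pow k F (Submodule.span k {z 0}) E' (N - (c + 1))
          rw [hsupE, show N - (c + 1) + 1 = N - c by omega] at h2
          exact h2
        refine (p11_r k F h1).trans ?_
        rw [Submodule.mul_sup]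
        refine sup_le ?_ ?_
        · have h3 := hN (N - c) (by omega)
          refine (p11_r k F h3).trans ?_
          rw [mul_left_comm]
          refine mul_le_mul' (sup_le_sup_left hG1 _) ?_
          have h4 : Submodule.span k {z 0 ^ c} ≤ E ^ c :=
            (Submodule.span_singleton_le_iff_mem _ _).2 (Submodule.pow_mem_pow E hz0 c)
          calc Submodule.span k {z 0 ^ c} * E' ^ (N - c - b) ≤ E ^ c * E ^ (N - c - b) :=
                mul_le_mul' h4 (pow_le_pow_left' hE'E _)
            _ = E ^ (N - b) := by rw [← pow_add]; congr 1; omega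
        · rw [← mul_assoc, Submodule.span_mul_span, Set.singleton_mul_singleton, ← pow_succ]
          exact ih (c + 1) (by omega)
    have h0 := key a 0 (by omega)
    rw [pow_zero, tsub_zero] at h0
    refine le_trans (le_of_eq ?_) h0
    rw [← Submodule.one_eq_span, one_mul]

theorem PG_all [Infinite k] (d : ℕ) : PG k F d (2 ^ (d + 1) - 2) := by
  induction d with
  | zero => exact PG_zero k F
  | succ d ih =>
    have h := PG_succ k F d _ ih
    have h1 : 2 ≤ 2 ^ (d + 1) := by
      calc 2 = 2 ^ 1 := rfl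
        _ ≤ 2 ^ (d + 1) := Nat.pow_le_pow_right (by norm_num) (by omega)
    have h2 : 2 ^ (d + 1) - 2 + 2 ^ (d + 1) = 2 ^ (d + 1 + 1) - 2 := by
      rw [pow_succ 2 (d + 1)]
      omega
    rwa [h2] at h

end P

end Pool.Agent.KM
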