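import Pool.Agent.KM.FDefs
import Pool.Agent.KM.PCube

/-!
Project KM3, row F11b: the recursion for forms with two products.
-/

set_option autoImplicit false

namespace Pool.Agent.KM

section P
variable {k F : Type} [Field k] [Field F] [Algebra k F]

private theorem f11b_pow_le (A B : Submodule k F) (M : ℕ) :
    (A ⊔ B) ^ (M + 1) ≤ B ^ (M + 1) ⊔ A * (A ⊔ B) ^ M := by
  induction M with
  | zero =>
    rw [zero_add, pow_one, pow_one, pow_zero, mul_one]
    exact le_of_eq (sup_comm A B)
  | succ M ih =>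
    have h1 : (A ⊔ B) ^ (M + 1 + 1) = A * (A ⊔ B) ^ (M + 1) ⊔ B * (A ⊔ B) ^ (M + 1) := by
      rw [pow_succ' (A ⊔ B) (M + 1), Submodule.sup_mul]
    rw [h1]
    apply sup_le le_sup_right
    calc B * (A ⊔ B) ^ (M + 1) ≤ B * (B ^ (M + 1) ⊔ A * (A ⊔ B) ^ M) :=
          mul_le_mul' le_rfl ih
      _ = B * B ^ (M + 1) ⊔ B * (A * (A ⊔ B) ^ M) := by rw [Submodule.mul_sup]
      _ ≤ B ^ (M + 1 + 1) ⊔ A * (A ⊔ B) ^ (M + 1) := by
          apply sup_le_sup
          · rw [← pow_succ']
          · rw [mul_left_comm, pow_succ']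
            exact mul_le_mul' le_rfl (mul_le_mul' le_sup_right le_rfl)

private theorem f11b_split (A B X : Submodule k F) (N C : ℕ) (hC : C ≤ N)
    (h1 : ∀ c < C, A ^ c * B ^ (N - c) ≤ X) (h2 : A ^ C * (A ⊔ B) ^ (N - C) ≤ X) :
    (A ⊔ B) ^ N ≤ X := by
  have key : ∀ e ≤ C, A ^ (C - e) * (A ⊔ B) ^ (N - (C - e)) ≤ X := by
    intro e
    induction e with
    | zero => intro _; simpa using h2
    | succ e ih =>
      intro he
      have ih' := ih (by omega)
      have e1 : N - (C - (e + 1)) = (N - (C - e)) + 1 := by omega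
      have e2 : C - e = (C - (e + 1)) + 1 := by omega
      calc A ^ (C - (e + 1)) * (A ⊔ B) ^ (N - (C - (e + 1)))
          ≤ A ^ (C - (e + 1)) * (B ^ (N - (C - (e + 1))) ⊔ A * (A ⊔ B) ^ (N - (C - e))) := by
            refine mul_le_mul' le_rfl ?_
            rw [e1]
            exact f11b_pow_le A B _
        _ = A ^ (C - (e + 1)) * B ^ (N - (C - (e + 1))) ⊔
            A ^ (C - e) * (A ⊔ B) ^ (N - (C - e)) := by
            rw [Submodule.mul_sup, ← mul_assoc, ← pow_succ, ← e2]
        _ ≤ X := sup_le (h1 _ (by omega)) ih'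
  have := key C le_rfl
  simpa using this

private theorem f11b_span_pow (x : F) (n : ℕ) :
    (Submodule.span k {x}) ^ n = Submodule.span k {x ^ n} := by
  rw [Submodule.span_pow, Set.singleton_pow]

private theorem f11b_range (d : ℕ) (z : Fin (d + 2) → F) :
    Submodule.span k (Set.range z) =
      Submodule.span k {z 0} ⊔ Submodule.span k (Set.range (Fin.tail z)) := by
  conv_lhs => rw [← Fin.cons_self_tail z]
  rw [Fin.range_cons, Submodule.span_insert]

variable (k F)

theorem PS_mono (d m m' : ℕ) (h : m ≤ m') (hP : PS k F d m) : PS k F d m' := by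
  intro a θ₀
  obtain ⟨θ, hθ, hPS⟩ := hP a θ₀
  refine ⟨θ, hθ, ?_⟩
  intro z
  obtain ⟨j, t, α, α', β', ht, hα, hα', hβ', hN⟩ := hPS z
  refine ⟨j, fun i => if hi : (i : ℕ) < m then t ⟨i, hi⟩ else 0, α, α', β', ?_, hα, hα', hβ', ?_⟩
  · intro i
    by_cases hi : (i : ℕ) < m
    · simp only [hi, dif_pos]
      exact ht _
    · simp only [hi, dif_neg, not_false_eq_true]
      exact Submodule.zero_mem _
  · intro N hNN
    refine (hN N hNN).trans (mul_le_mul' (sup_le_sup_left ?_ _) le_rfl)
    apply Submodule.span_mono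
    rintro _ ⟨i, rfl⟩
    refine ⟨⟨i, lt_of_lt_of_le i.2 h⟩, ?_⟩
    simp [i.2]

theorem PS_one : PS k F 1 0 := by
  intro a θ₀
  refine ⟨max a θ₀, le_max_right _ _, ?_⟩
  have ha : a ≤ max a θ₀ := le_max_left _ _
  generalize max a θ₀ = θ at ha
  intro z
  have hz : ∀ i, z i ∈ Submodule.span k (Set.range z) := fun i =>
    Submodule.subset_span (Set.mem_range_self i)
  refine ⟨1, fun i => i.elim0, z 0 ^ θ, z 0 ^ θ, z 1 ^ θ, fun i => i.elim0,
    Submodule.pow_mem_pow _ (hz 0) θ, Submodule.pow_mem_pow _ (hz 0) θ,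
    Submodule.pow_mem_pow _ (hz 1) θ, ?_⟩
  intro N hN
  have hE := f11b_range (k := k) 0 z
  have hB : Submodule.span k (Set.range (Fin.tail z)) = Submodule.span k {z 1} := by
    congr 1
    ext y
    constructor
    · rintro ⟨i, rfl⟩
      have : i = 0 := Subsingleton.elim _ _
      subst this
      rfl
    · intro hy
      exact ⟨0, hy.symm⟩
  rw [hB] at hE
  set A := Submodule.span k {z 0} with hA
  set B := Submodule.span k {z 1} with hB'
  set E := Submodule.span k (Set.range z) with hE'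
  set S : Submodule k F := Submodule.span k {z 0 ^ θ * z 0 ^ θ, z 0 ^ θ * z 1 ^ θ,
    z 1 ^ (2 * θ)} ⊔ Submodule.span k (Set.range fun i : Fin 0 => (i.elim0 : F)) with hS
  have hAE : A ≤ E := by rw [hE]; exact le_sup_left
  have hBE : B ≤ E := by rw [hE]; exact le_sup_right
  have m1 : A ^ (2 * θ) ≤ S := by
    rw [hA, f11b_span_pow]
    refine le_trans (Submodule.span_mono ?_) le_sup_left
    rw [Set.singleton_subset_iff]
    left
    rw [two_mul, pow_add]
  have m2 : A ^ θ * B ^ θ ≤ S := by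
    rw [hA, hB', f11b_span_pow, f11b_span_pow, Submodule.span_mul_span,
      Set.singleton_mul_singleton]
    refine le_trans (Submodule.span_mono ?_) le_sup_left
    rw [Set.singleton_subset_iff]
    right; left
    rfl
  have m3 : B ^ (2 * θ) ≤ S := by
    rw [hB', f11b_span_pow]
    refine le_trans (Submodule.span_mono ?_) le_sup_left
    rw [Set.singleton_subset_iff]
    right; right
    rfl
  have hEN : E ^ N = (A ⊔ B) ^ N := by rw [hE]
  rw [hEN]
  apply f11b_split A B _ N (2 * θ) (by omega)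
  · intro c hc
    rcases lt_or_ge c θ with hc1 | hc1
    · have e1 : N - c = 2 * θ + (N - c - 2 * θ) := by omega
      have e2 : N - 2 * θ = c + (N - c - 2 * θ) := by omega
      rw [e1, e2, pow_add, pow_add, mul_left_comm]
      exact mul_le_mul' m3 (mul_le_mul' (pow_le_pow_left' hAE _) (pow_le_pow_left' hBE _))
    · have e1 : N - c = θ + (N - c - θ) := by omega
      have e2 : N - 2 * θ = (c - θ) + (N - c - θ) := by omega
      have e3 : c = θ + (c - θ) := by omega
      have e4 : A ^ c * B ^ (N - c) = (A ^ θ * B ^ θ) * (A ^ (c - θ) * B ^ (N - c - θ)) := by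
        conv_lhs => rw [e1, e3, pow_add, pow_add]
        have e5 : θ + (c - θ) - θ = c - θ := by omega
        have e6 : N - (θ + (c - θ)) - θ = N - c - θ := by omega
        rw [e6]
        ring
      rw [e4, e2, pow_add]
      exact mul_le_mul' m2 (mul_le_mul' (pow_le_pow_left' hAE _) (pow_le_pow_left' hBE _))
  · rw [← hE]
    exact mul_le_mul' m1 le_rfl

theorem PS_succ [Infinite k] (d m : ℕ) (h : PS k F d m) : PS k F (d + 1) (m + 2 ^ (d + 1)) := by
  intro a θ₀
  obtain ⟨θ, hθ, hPS⟩ := h (2 * a) (max a θ₀)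
  have ha : a ≤ θ := le_trans (le_max_left _ _) hθ
  refine ⟨θ, le_trans (le_max_right _ _) hθ, ?_⟩
  intro z
  obtain ⟨j, t, α, α', β', ht, hα, hα', hβ', hN⟩ := hPS (Fin.tail z)
  obtain ⟨x, hx, hxN⟩ := cube k F (d + 1) (2 * θ - a) z
  have hE := f11b_range (k := k) d z
  set A := Submodule.span k {z 0} with hA
  set B := Submodule.span k (Set.range (Fin.tail z)) with hB
  set E := Submodule.span k (Set.range z) with hE'
  have hAE : A ≤ E := by rw [hE]; exact le_sup_left
  have hBE : B ≤ E := by rw [hE]; exact le_sup_right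
  have hz0 : z 0 ∈ E := Submodule.subset_span (Set.mem_range_self 0)
  set s : Fin (m + 2 ^ (d + 1)) → F := Fin.append t (fun i => z 0 ^ a * x i) with hs
  refine ⟨j.succ, s, α, α', β', ?_, pow_le_pow_left' hBE θ hα, pow_le_pow_left' hBE θ hα',
    pow_le_pow_left' hBE θ hβ', ?_⟩
  · intro i
    refine Fin.addCases (fun i => ?_) (fun i => ?_) i
    · rw [hs, Fin.append_left]
      exact pow_le_pow_left' hBE _ (ht i)
    · rw [hs, Fin.append_right]
      have e1 : 2 * θ = a + (2 * θ - a) := by omega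
      rw [e1, pow_add]
      have e2 : a + (2 * θ - a) - a = 2 * θ - a := by omega
      exact Submodule.mul_mem_mul (Submodule.pow_mem_pow _ hz0 a) (hx i)
  · intro N hNN
    set S : Submodule k F := Submodule.span k {α * α', α * β', z j.succ ^ (2 * θ)} ⊔
      Submodule.span k (Set.range s) with hS
    have hS1 : Submodule.span k {α * α', α * β', Fin.tail z j ^ (2 * θ)} ⊔
        Submodule.span k (Set.range t) ≤ S := by
      apply sup_le_sup
      · exact le_rfl
      · apply Submodule.span_mono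
        rintro _ ⟨i, rfl⟩
        exact ⟨Fin.castAdd _ i, by rw [hs, Fin.append_left]⟩
    have hS2 : A ^ a * Submodule.span k (Set.range x) ≤ S := by
      rw [hA, f11b_span_pow, Submodule.span_mul_span]
      refine le_trans (Submodule.span_mono ?_) le_sup_right
      rintro _ ⟨u, hu, v, ⟨i, rfl⟩, rfl⟩
      rw [Set.mem_singleton_iff] at hu
      subst hu
      exact ⟨Fin.natAdd _ i, by rw [hs, Fin.append_right]⟩
    have hEN : E ^ N = (A ⊔ B) ^ N := by rw [hE]
    rw [hEN]
    apply f11b_split A B _ N a (by omega)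
    · intro c hc
      have h1 := hN (N - c) (by omega)
      have e2 : N - 2 * θ = c + (N - c - 2 * θ) := by omega
      calc A ^ c * B ^ (N - c) ≤ A ^ c * (S * B ^ (N - c - 2 * θ)) :=
            mul_le_mul' le_rfl (h1.trans (mul_le_mul' hS1 le_rfl))
        _ = S * (A ^ c * B ^ (N - c - 2 * θ)) := by rw [mul_left_comm]
        _ ≤ S * (E ^ c * E ^ (N - c - 2 * θ)) :=
            mul_le_mul' le_rfl (mul_le_mul' (pow_le_pow_left' hAE _) (pow_le_pow_left' hBE _))
        _ = S * E ^ (N - 2 * θ) := by rw [← pow_add, ← e2]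
    · rw [← hE]
      have h1 := hxN (N - a) (by omega)
      have e1 : N - a - (2 * θ - a) = N - 2 * θ := by omega
      rw [e1] at h1
      calc A ^ a * E ^ (N - a) ≤ A ^ a * (Submodule.span k (Set.range x) * E ^ (N - 2 * θ)) :=
            mul_le_mul' le_rfl h1
        _ = (A ^ a * Submodule.span k (Set.range x)) * E ^ (N - 2 * θ) := by rw [mul_assoc]
        _ ≤ S * E ^ (N - 2 * θ) := mul_le_mul' hS2 le_rfl

end P

end Pool.Agent.KM
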