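import Pool.Agent.KM.FDefs
import Pool.Agent.KM.MBasic
import Pool.Agent.KM.FGood
import Pool.Agent.KM.PRec
import Pool.Agent.KM.PRec2
import Pool.Agent.KM.PFrob
import Pool.Agent.KM.BType
import Pool.Agent.KM.BGrid3

/-!
Project KM3 (MP_27fd67_ag), row F20: Milnor functionals vanish on quotients of elements in
general position (helper49).
-/

set_option autoImplicit false
set_option linter.all false

open Function

namespace Pool.Agent.KM

section B
variable {k F : Type} [Field k] [Field F] [Algebra k F]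

/-- expansion of a quotient -/
theorem f20_expand {F ι : Type} [Field F] [Fintype ι] [DecidableEq ι] {T : (ι → F) → ℝ}
    (hT : IsM T) (e : ι → Bool → F) (c : ι → F) (he : ∀ i s, e i s ≠ 0) (hc : ∀ i, c i ≠ 0)
    (h : ∀ ε : ι → Bool, T (fun i => e i (ε i) * c i) = 0) :
    T (fun i => e i true / e i false) = 0 := by
  have key : ∀ (S : Finset ι) (ε : ι → Bool),
      T (fun i => if i ∈ S then e i true / e i false else e i (ε i) * c i) = 0 := by
    intro S
    induction S using Finset.induction_on with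
    | empty =>
      intro ε
      simpa using h ε
    | insert a S ha ih =>
      intro ε
      have h1 := ih (update ε a true)
      have h2 := ih (update ε a false)
      have e0 : (fun i => if i ∈ insert a S then e i true / e i false else e i (ε i) * c i) =
          update (fun i => if i ∈ S then e i true / e i false else e i (ε i) * c i) a
            ((e a true * c a) / (e a false * c a)) := by
        funext i
        by_cases hi : i = a
        · subst hi
          rw [update_self, if_pos (Finset.mem_insert_self _ _), mul_div_mul_right _ _ (hc i)]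
        · rw [update_of_ne hi]
          simp only [Finset.mem_insert, hi, false_or]
      have e1 : ∀ s : Bool,
          (fun i => if i ∈ S then e i true / e i false else e i (update ε a s i) * c i) =
          update (fun i => if i ∈ S then e i true / e i false else e i (ε i) * c i) a
            (e a s * c a) := by
        intro s
        funext i
        by_cases hi : i = a
        · subst hi
          rw [update_self, if_neg ha, update_self]
        · rw [update_of_ne hi, update_of_ne hi]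
      rw [e1] at h1 h2
      rw [e0, hT.div _ _ (mul_ne_zero (he _ _) (hc _)) (mul_ne_zero (he _ _) (hc _)), h1, h2,
        sub_zero]
  have h3 := key Finset.univ (fun _ => true)
  simpa using h3

theorem f20_gpos {I : Type} (E : Submodule k F) (e : I → F) (d j₀ j₁ : ℕ) (h : j₀ ≤ j₁)
    (hG : GPos E e d j₀) : GPos E e d j₁ :=
  ⟨hG.1, fun R hR j hj => hG.2 R hR j (h.trans hj)⟩

theorem f20_pow (u d : ℕ) (h : u ≤ d) : 2 ^ u + (d - u) ≤ 2 ^ d := by
  induction d, h using Nat.le_induction with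
  | base => simp
  | succ n hn ih =>
    have : 1 ≤ 2 ^ n := Nat.one_le_two_pow
    rw [pow_succ]
    omega

/-- from a frame with values in the field to the vanishing -/
theorem f20_zero (p : ℕ) [Fact p.Prime] (k F ι : Type) [Field k] [Field F] [Algebra k F]
    [CharP k p] [Algebra (ZMod p) k] [Algebra.IsAlgebraic (ZMod p) k] [Infinite k] [Fintype ι]
    [Nonempty ι] [DecidableEq ι] (E : Submodule k F) [FiniteDimensional k E] (b : ℕ)
    (x : Option ι → ↥(E ^ b)) (hx : GF (mulB E b) x)
    (T : (ι → F) → ℝ) (hT : IsM T) :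
    (∀ o, (x o : F) ≠ 0) ∧ T (fun i => (x (some i) : F) / (x none : F)) = 0 := by
  obtain ⟨x', hs, hne, hO⟩ := hx
  have hfg : E.FG := Module.Finite.iff_fg.mp ‹_›
  haveI : ∀ n : ℕ, FiniteDimensional k ↥(E ^ n) := fun n =>
    Module.Finite.iff_fg.mpr (Submodule.FG.pow hfg n)
  have h0 : ∀ o, (x o : F) ≠ 0 := fun o h => (hne o).1 (Subtype.ext h)
  have h0' : ∀ o, (x' o : F) ≠ 0 := fun o h => (hne o).2 (Subtype.ext h)
  refine ⟨h0, ?_⟩
  refine good_zero3 p k F ι (E ^ b) (E ^ (2 * b)) (by rw [two_mul, pow_add])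
    (fun o => (x o : F)) (fun o => (x' o : F)) (fun o => (x o).2) (fun o => (x' o).2) h0 h0'
    ?_ ?_ T hT
  · have h1 : ((gen (mulB E b) Finset.univ x x' : ↥(E ^ (2 * b))) : F) = 0 := by
      rw [hs]; rfl
    rw [← h1]
    simp only [gen, LinearMap.sum_apply, LinearMap.comp_apply, LinearMap.proj_apply,
      Submodule.coe_sum]
    rfl
  · intro P
    have h2 := (Ont_mulB E b _).1 (hO P)
    have h3 : (fun i => ((fc P (x, x') i : ↥(E ^ b)) : F)) =
        P.piecewise (fun o => (x' o : F)) (fun o => (x o : F)) := by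
      funext i
      by_cases hi : i ∈ P
      · simp [fc, hi]
      · simp [fc, hi]
    rw [h3] at h2
    exact h2

/-- Milnor functionals vanish on quotients of elements in general position. -/
theorem gpos_zero (p : ℕ) [Fact p.Prime] (k F ι : Type) [Field k] [Field F] [Algebra k F]
    [CharP k p] [Algebra (ZMod p) k] [Algebra.IsAlgebraic (ZMod p) k] [Infinite k] [Fintype ι]
    [DecidableEq ι] (d j₀ : ℕ) (hd : 1 ≤ d) (hι : d + 1 ≤ Fintype.card ι)
    (hι' : 2 ^ (d + 1) ≤ Fintype.card ι + 4) (E : Submodule k F) [FiniteDimensional k E]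
    (e : ι → Bool → F) (he : ∀ i s, e i s ≠ 0)
    (hG : ∀ ε : ι → Bool, GPos E (fun i => e i (ε i)) d j₀)
    (T : (ι → F) → ℝ) (hT : IsM T) : T (fun i => e i true / e i false) = 0 := by
  haveI : CharP F p := charP_of_injective_algebraMap (algebraMap k F).injective p
  haveI : Nonempty ι := Fintype.card_pos_iff.mp (by omega)
  obtain ⟨m, hm⟩ : ∃ m, Fintype.card ι = m + 2 := ⟨Fintype.card ι - 2, by omega⟩
  obtain ⟨j, hj1, hj0⟩ : ∃ j, 1 ≤ j ∧ j₀ ≤ j := ⟨max j₀ 1, le_max_right _ _, le_max_left _ _⟩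
  have hG' : ∀ ε : ι → Bool, GPos E (fun i => e i (ε i)) d j := fun ε =>
    f20_gpos E _ d j₀ j hj0 (hG ε)
  have hPS : PS k F d m := by
    rcases Nat.lt_or_ge d 2 with h2 | h2
    · have : d = 1 := by omega
      subst this
      exact PS_mono k F 1 0 m (Nat.zero_le _) (PS_one k F)
    · exact PS_mono k F d _ m (by omega) (PS_all k F p d h2)
  have hPG : ∀ κ, 1 ≤ κ → κ ≤ d → PG k F (d - κ) (m + 1 - κ) := by
    intro κ h1 h2
    refine PG_mono k F (d - κ) _ _ ?_ (PG_all k F (d - κ))
    have h3 := f20_pow (d - κ + 1) d (by omega)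
    have h4 : d - (d - κ + 1) = κ - 1 := by omega
    rw [h4] at h3
    rw [pow_succ] at hι'
    rcases Nat.lt_or_ge d 2 with h5 | h5
    · have : d = 1 := by omega
      subst this
      have : κ = 1 := by omega
      subst this
      simp
    · have h6 : 2 ^ 2 ≤ 2 ^ d := Nat.pow_le_pow_right (by norm_num) h5
      omega
  obtain ⟨B, hB⟩ : ∃ B : ℕ, ∀ κ, 1 ≤ κ → κ ≤ d → ∀ b, B ≤ b →
      PGat k F (d - κ) (m + 1 - κ) (j + m + 3) b := by
    have h1 : ∀ κ : ℕ, ∃ b₀ : ℕ, 1 ≤ κ → κ ≤ d → ∀ b, b₀ ≤ b →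
        PGat k F (d - κ) (m + 1 - κ) (j + m + 3) b := by
      intro κ
      by_cases h : 1 ≤ κ ∧ κ ≤ d
      · obtain ⟨b₀, hb⟩ := hPG κ h.1 h.2 (j + m + 3)
        exact ⟨b₀, fun _ _ => hb⟩
      · exact ⟨0, fun h1 h2 => absurd ⟨h1, h2⟩ h⟩
    choose b₀ hb₀ using h1
    refine ⟨∑ κ ∈ Finset.range (d + 1), b₀ κ, fun κ h1 h2 b hb => hb₀ κ h1 h2 b ?_⟩
    exact (Finset.single_le_sum (f := b₀) (fun _ _ => Nat.zero_le _)
      (Finset.mem_range.2 (Nat.lt_succ_of_le h2))).trans hb
  obtain ⟨θ, hθ, hS⟩ := hPS (j + m + 3) (max B (j + m + 3))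
  have hθ1 : B ≤ θ := (le_max_left _ _).trans hθ
  have hθ2 : j + m + 3 ≤ θ := (le_max_right _ _).trans hθ
  obtain ⟨x₀, q, hgrid⟩ := grid3 d j m (j + m + 3) θ hj1 hm hι E e he hG' hS
    (fun κ h1 h2 => hB κ h1 h2 _ (by omega)) le_rfl hθ2
  have hq : ∀ ε : ι → Bool, x₀ ≠ 0 ∧ (∀ i, e i (ε i) * q i ≠ 0) ∧
      T (fun i => e i (ε i) * (q i / x₀)) = 0 := by
    intro ε
    obtain ⟨x, hx0, hxs, hx⟩ := hgrid ε
    obtain ⟨h1, h2⟩ := f20_zero p k F ι E (2 * θ + 1) x hx T hT
    refine ⟨hx0 ▸ h1 none, fun i => (hxs i) ▸ h1 (some i), ?_⟩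
    have h3 : (fun i => (x (some i) : F) / (x none : F)) =
        fun i => e i (ε i) * (q i / x₀) := by
      funext i
      rw [hxs i, hx0, mul_div_assoc]
    rw [← h3]
    exact h2
  have hq0 := hq (fun _ => true)
  exact f20_expand hT e (fun i => q i / x₀) he
    (fun i => div_ne_zero (right_ne_zero_of_mul (hq0.2.1 i)) hq0.1) (fun ε => (hq ε).2.2)

end B

end Pool.Agent.KM
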