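import Pool.Agent.KM.HDefs
import Pool.Agent.KM.BStrip
import Pool.Agent.KM.BLeaf
import Pool.Agent.KM.BTwo
import Pool.Agent.KM.BPair

/-!
Project KM4 (MP_27fd67_ag), row H11: the instance for a pair of places (helper57, after BPair of
helper40).
-/

set_option autoImplicit false
set_option linter.all false

open Function

namespace Pool.Agent.KM

section B
variable {k F : Type} [Field k] [Field F] [Algebra k F]

/-- the leaf with `H = ∅` -/
theorem leaf_top2 {Λ : Type} [Fintype Λ] [DecidableEq Λ] (E : Submodule k F) (e : Λ → F)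
    (d j₀ m a θ : ℕ) (hj : 1 ≤ j₀) (hG : GPos E e d j₀) (hΛ : d + 1 ≤ Fintype.card Λ)
    (hP : PTat k F d m a θ) :
    ∃ (t : Fin m → F) (α α' β' : F), (∀ i, t i ∈ E ^ (2 * θ)) ∧ α ∈ E ^ θ ∧
      α' ∈ E ^ θ ∧ β' ∈ E ^ θ ∧ ∀ N, j₀ + 4 * θ ≤ N + a → j₀ + 2 * θ ≤ N →
      E ^ N ≤ (Submodule.span k {α * α', α * β'} ⊔
        Submodule.span k (Set.range t)) * E ^ (N - 2 * θ) := by
  obtain ⟨R, hRH, hR⟩ := Finset.exists_subset_card_eq (s := (Finset.univ : Finset Λ))
    (n := d + 1) (by simpa using hΛ)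
  let f := R.equivFinOfCardEq hR
  let z : Fin (d + 1) → Λ := fun i => (f.symm i : Λ)
  have hz : Injective z := by
    intro i j hij
    exact f.symm.injective (Subtype.ext hij)
  obtain ⟨t, α, α', β', ht, hα, hα', hβ', hgen⟩ := hP (e ∘ z)
  have hZE : Submodule.span k (Set.range (e ∘ z)) ≤ E := by
    rw [Submodule.span_le]
    rintro _ ⟨i, rfl⟩
    exact hG.1 _
  refine ⟨t, α, α', β', fun i => pow_le_pow_left₀ bot_le hZE _ (ht i),
    pow_le_pow_left₀ bot_le hZE _ hα, pow_le_pow_left₀ bot_le hZE _ hα',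
    pow_le_pow_left₀ bot_le hZE _ hβ', ?_⟩
  intro N h1 h2
  have h0 := leaf_span E e d d j₀ hj hG ∅ z hz (by simp) (by simp) N (by omega)
  rw [Finset.coe_empty, Set.image_empty, Submodule.span_empty, Submodule.bot_mul, bot_sup_eq] at h0
  refine h0.trans ?_
  have h3 := hgen (N - j₀) (by omega)
  calc Submodule.span k (Set.range (e ∘ z)) ^ (N - j₀) * E ^ j₀
      ≤ ((Submodule.span k {α * α', α * β'} ⊔
            Submodule.span k (Set.range t)) *
          Submodule.span k (Set.range (e ∘ z)) ^ (N - j₀ - 2 * θ)) * E ^ j₀ :=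
        mul_le_mul' h3 le_rfl
    _ ≤ ((Submodule.span k {α * α', α * β'} ⊔
            Submodule.span k (Set.range t)) * E ^ (N - j₀ - 2 * θ)) * E ^ j₀ :=
        mul_le_mul' (mul_le_mul' le_rfl (pow_le_pow_left₀ bot_le hZE _)) le_rfl
    _ = (Submodule.span k {α * α', α * β'} ⊔
            Submodule.span k (Set.range t)) * E ^ (N - 2 * θ) := by
        rw [mul_assoc, ← pow_add]
        congr 2
        omega

section inst
variable {I : Type} [Fintype I] [DecidableEq I]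
variable (E : Submodule k F) (θ : ℕ) (e : I → F) (i j : I)

variable {E θ e i j} in
/-- all instances -/
theorem h11_all (d j₀ m a : ℕ) (hj : 1 ≤ j₀) (hI : Fintype.card I = m + 2)
    (hId : d + 2 ≤ Fintype.card I) (hG : GPos E e d j₀) (hS : PTat k F d m a θ)
    (hP : ∀ κ, 1 ≤ κ → κ ≤ d → PGat k F (d - κ) (m - κ) a (2 * θ))
    (ha : j₀ + m + 3 ≤ a) (hθ : j₀ + m + 3 ≤ θ) (hij : i ≠ j) (c : Bool × Finset I) :
    ∃ (al be al' be' : F) (ξ : I → F), al ∈ E ^ θ ∧ be ∈ E ^ θ ∧ al' ∈ E ^ θ ∧ be' ∈ E ^ θ ∧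
      (∀ l, ξ l ∈ E ^ (2 * θ)) ∧ E ^ (f17_n θ c.2) ≤
      Submodule.span k {al * al'} * f17_A E θ i c ⊔
      Submodule.span k {al * be'} * f17_B E θ j c ⊔
      Submodule.span k {be * be'} * f17_C E θ i c ⊔
      (⨆ l, Submodule.span k {ξ l} * f17_D E θ i j c l) ⊔ f17_M E θ e i j c := by
  classical
  obtain ⟨τ, S⟩ := c
  have hcard : Sᶜ.card ≤ m + 2 := hI ▸ Finset.card_le_univ _
  have hn : f17_n θ S = 4 * θ + 2 - Sᶜ.card := rfl
  have hpow : ∀ {ζ : F}, ζ ∈ E → ζ ^ (2 * θ) = ζ ^ θ * ζ ^ θ := fun {ζ} _ => by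
    rw [two_mul, pow_add]
  let H : Finset I := S.image (f17_f τ i j)
  have hM : f17_M E θ e i j (τ, S) = Submodule.span k (e '' H) * E ^ (f17_n θ S - 1) := by
    unfold f17_M
    congr 2
    ext z
    simp only [H, Set.mem_image, Finset.coe_image]
    constructor
    · rintro ⟨δ, hδ, rfl⟩
      exact ⟨_, ⟨δ, hδ, rfl⟩, rfl⟩
    · rintro ⟨_, ⟨δ, hδ, rfl⟩, rfl⟩
      exact ⟨δ, hδ, rfl⟩
  -- the ordinary places
  let O : Finset I := Finset.univ.filter fun l => l ≠ i ∧ l ≠ j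
  have hO : O.card = m := by
    have h1 : O = (Finset.univ.erase i).erase j := by
      ext l
      simp only [O, Finset.mem_filter, Finset.mem_univ, true_and, Finset.mem_erase, and_true]
      tauto
    rw [h1, Finset.card_erase_of_mem (by simp [hij.symm]),
      Finset.card_erase_of_mem (Finset.mem_univ _), Finset.card_univ, hI]
    omega
  have hOS : O ∩ S ⊆ H := by
    intro l hl
    have h1 : l ≠ i := (Finset.mem_filter.1 (Finset.mem_inter.1 hl).1).2.1
    refine Finset.mem_image.2 ⟨l, (Finset.mem_inter.1 hl).2, f17_f_of_ne τ h1⟩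
  have hU : (O \ S).card + (O ∩ S).card = m := by
    rw [← hO]; exact Finset.card_sdiff_add_card_inter O S
  have hUfree : ∀ l ∈ O \ S, l ∉ S ∧ l ≠ i ∧ l ≠ j := by
    intro l hl
    have h1 := Finset.mem_sdiff.1 hl
    exact ⟨h1.2, (Finset.mem_filter.1 h1.1).2⟩
  by_cases hH : d + 1 ≤ H.card
  · -- many places
    refine ⟨0, 0, 0, 0, fun _ => 0, Submodule.zero_mem _, Submodule.zero_mem _,
      Submodule.zero_mem _, Submodule.zero_mem _, fun _ => Submodule.zero_mem _, ?_⟩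
    refine f17_inst E θ e i j (τ, S) 0 0 0 0 _ ∅ ?_ (fun z hz => absurd hz (Set.notMem_empty z))
    refine le_sup_of_le_left ?_
    rw [hM]
    exact leaf_big E e d j₀ hG H hH _ (by rw [hn]; omega)
  by_cases hκ : H.card = 0
  · -- no place
    have hS0 : S = ∅ := by
      have := Finset.card_eq_zero.1 hκ
      exact Finset.image_eq_empty.1 this
    have hUc : m ≤ (O \ S).card := by
      rw [hS0, Finset.sdiff_empty, hO]
    obtain ⟨t, α, α', β', ht, hα, hα', hβ', hN⟩ :=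
      leaf_top2 E e d j₀ m a θ hj hG (by omega) hS
    have hN' := hN (f17_n θ S) (by rw [hn]; omega) (by rw [hn]; omega)
    obtain ⟨ξ, hξ, hξt⟩ := f17_place (O \ S) m hUc (E ^ (2 * θ)) t ht
    have hiS : i ∉ S := by rw [hS0]; exact Finset.notMem_empty _
    have hjS : j ∉ S := by rw [hS0]; exact Finset.notMem_empty _
    have hle : E ^ (f17_n θ S) ≤ f17_M E θ e i j (τ, S) ⊔
        Submodule.span k ({α * α', α * β'} ∪ Set.range t) * f17_G E θ S := by
      refine le_sup_of_le_right (hN'.trans ?_)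
      rw [Submodule.span_union]
      exact le_rfl
    have htt : ∀ q, ∃ l, l ∉ S ∧ l ≠ i ∧ l ≠ j ∧ t q = ξ l := by
      intro q
      obtain ⟨l, hl, h1⟩ := hξt q
      obtain ⟨h2, h3, h4⟩ := hUfree l hl
      exact ⟨l, h2, h3, h4, h1.symm⟩
    cases τ
    · refine ⟨α, 0, α', β', ξ, hα, Submodule.zero_mem _, hα', hβ', hξ, ?_⟩
      refine f17_inst E θ e i j (false, S) α 0 α' β' ξ _ hle ?_
      rintro z ((rfl | rfl) | ⟨q, rfl⟩)
      · exact Or.inl ⟨rfl, hiS, rfl⟩
      · exact Or.inr (Or.inl ⟨hjS, rfl⟩)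
      · exact Or.inr (Or.inr (Or.inr (htt q)))
    · refine ⟨β', α', 0, α, ξ, hβ', hα', Submodule.zero_mem _, hα, hξ, ?_⟩
      refine f17_inst E θ e i j (true, S) β' α' 0 α ξ _ hle ?_
      rintro z ((rfl | rfl) | ⟨q, rfl⟩)
      · exact Or.inr (Or.inr (Or.inl ⟨rfl, hiS, mul_comm _ _⟩))
      · exact Or.inr (Or.inl ⟨hjS, mul_comm _ _⟩)
      · exact Or.inr (Or.inr (Or.inr (htt q)))
  · -- the middle case
    have hκ1 : 1 ≤ H.card := Nat.one_le_iff_ne_zero.2 hκ
    have hκ2 : H.card ≤ d := by omega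
    obtain ⟨ζ, t, hζ, ht, hN⟩ := leaf_mid E e d j₀ (m - H.card) a (2 * θ) hj hG (by omega) H
      hκ2 (hP H.card hκ1 hκ2)
    have hN' := hN (f17_n θ S) (by rw [hn]; omega) (by rw [hn]; omega)
    have hle : E ^ (f17_n θ S) ≤ f17_M E θ e i j (τ, S) ⊔
        Submodule.span k ({ζ ^ (2 * θ)} ∪ Set.range t) * f17_G E θ S := by
      rw [hM, Submodule.span_union]
      exact hN'
    have hζθ : ζ ^ θ ∈ E ^ θ := Submodule.pow_mem_pow E hζ θ
    by_cases hfree : i ∈ S ∧ j ∈ S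
    · -- one ordinary place takes the power
      have hjH : j ∈ H := Finset.mem_image.2 ⟨j, hfree.2, f17_f_of_ne τ hij.symm⟩
      have hjO : j ∉ O ∩ S := fun h => (Finset.mem_filter.1 (Finset.mem_inter.1 h).1).2.2 rfl
      have h1 : (insert j (O ∩ S)).card ≤ H.card :=
        Finset.card_le_card (Finset.insert_subset hjH hOS)
      rw [Finset.card_insert_of_notMem hjO] at h1
      obtain ⟨ξ, hξ, hξt⟩ := f17_place (O \ S) (m - H.card + 1) (by omega) (E ^ (2 * θ))
        (Fin.cons (ζ ^ (2 * θ)) t) (by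
          intro q
          refine Fin.cases ?_ (fun q => ?_) q
          · exact Submodule.pow_mem_pow E hζ _
          · exact ht q)
      refine ⟨ζ ^ θ, ζ ^ θ, ζ ^ θ, ζ ^ θ, ξ, hζθ, hζθ, hζθ, hζθ, hξ, ?_⟩
      refine f17_inst E θ e i j (τ, S) _ _ _ _ ξ _ hle ?_
      rintro z (rfl | ⟨q, rfl⟩)
      · right; right; right
        obtain ⟨l, hl, h1⟩ := hξt 0
        obtain ⟨h2, h3, h4⟩ := hUfree l hl
        exact ⟨l, h2, h3, h4, by rw [h1]; rfl⟩
      · right; right; right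
        obtain ⟨l, hl, h1⟩ := hξt q.succ
        obtain ⟨h2, h3, h4⟩ := hUfree l hl
        exact ⟨l, h2, h3, h4, by rw [h1, Fin.cons_succ]⟩
    · have h1 : (O ∩ S).card ≤ H.card := Finset.card_le_card hOS
      obtain ⟨ξ, hξ, hξt⟩ := f17_place (O \ S) (m - H.card) (by omega) (E ^ (2 * θ)) t ht
      refine ⟨ζ ^ θ, ζ ^ θ, ζ ^ θ, ζ ^ θ, ξ, hζθ, hζθ, hζθ, hζθ, hξ, ?_⟩
      refine f17_inst E θ e i j (τ, S) _ _ _ _ ξ _ hle ?_
      rintro z (rfl | ⟨q, rfl⟩)
      · by_cases hjS : j ∉ S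
        · exact Or.inr (Or.inl ⟨hjS, hpow hζ⟩)
        · have hiS : i ∉ S := fun h => hfree ⟨h, not_not.1 hjS⟩
          cases τ
          · exact Or.inl ⟨rfl, hiS, hpow hζ⟩
          · exact Or.inr (Or.inr (Or.inl ⟨rfl, hiS, hpow hζ⟩))
      · right; right; right
        obtain ⟨l, hl, h1⟩ := hξt q
        obtain ⟨h2, h3, h4⟩ := hUfree l hl
        exact ⟨l, h2, h3, h4, h1.symm⟩

end inst


theorem h11_n_add (θ : ℕ) {I : Type} [Fintype I] [DecidableEq I] (m : ℕ)
    (hI : Fintype.card I = m + 2) (hθ : m + 3 ≤ θ) (S : Finset I) :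
    2 * θ + (f17_n θ S - 2 * θ) = f17_n θ S := by
  have h1 : Sᶜ.card ≤ m + 2 := hI ▸ Finset.card_le_univ _
  have hn : f17_n θ S = 4 * θ + 2 - Sᶜ.card := rfl
  omega

theorem h11_G_le2 (E : Submodule k F) (θ : ℕ) {I : Type} [Fintype I] [DecidableEq I] (m : ℕ)
    (hI : Fintype.card I = m + 2) (hθ : m + 3 ≤ θ) (S : Finset I) :
    E ^ (2 * θ) * f17_G E θ S ≤ E ^ (f17_n θ S) := by
  have h1 : E ^ (2 * θ) * f17_G E θ S = E ^ (2 * θ + (f17_n θ S - 2 * θ)) := (pow_add E _ _).symm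
  rw [h1, h11_n_add θ m hI hθ]

theorem h11_G_le (E : Submodule k F) (θ : ℕ) {I : Type} [Fintype I] [DecidableEq I] (m : ℕ)
    (hI : Fintype.card I = m + 2) (hθ : m + 3 ≤ θ) (S : Finset I) :
    E ^ θ * E ^ θ * f17_G E θ S ≤ E ^ (f17_n θ S) := by
  have h1 : E ^ θ * E ^ θ = E ^ (2 * θ) := by rw [two_mul, pow_add]
  rw [h1]
  exact h11_G_le2 E θ m hI hθ S

/-- the common choice -/
theorem h11_pick [Infinite k] {I : Type} [Fintype I] [DecidableEq I] (d j₀ m a θ : ℕ)
    (hj : 1 ≤ j₀) (hI : Fintype.card I = m + 2) (hId : d + 2 ≤ Fintype.card I)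
    (E : Submodule k F) [FiniteDimensional k E] (e : I → F) (hG : GPos E e d j₀)
    (hS : PTat k F d m a θ)
    (hP : ∀ κ, 1 ≤ κ → κ ≤ d → PGat k F (d - κ) (m - κ) a (2 * θ))
    (ha : j₀ + m + 3 ≤ a) (hθ : j₀ + m + 3 ≤ θ) (i j : I) (hij : i ≠ j) :
    ∃ (al be al' be' : F) (ξ : I → F), al ∈ E ^ θ ∧ be ∈ E ^ θ ∧ al' ∈ E ^ θ ∧ be' ∈ E ^ θ ∧
      (∀ l, ξ l ∈ E ^ (2 * θ)) ∧ ∀ c : Bool × Finset I, E ^ (f17_n θ c.2) ≤
      Submodule.span k {al * al'} * f17_A E θ i c ⊔
      Submodule.span k {al * be'} * f17_B E θ j c ⊔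
      Submodule.span k {be * be'} * f17_C E θ i c ⊔
      (⨆ l, Submodule.span k {ξ l} * f17_D E θ i j c l) ⊔ f17_M E θ e i j c := by
  have hfd : ∀ c : Bool × Finset I, FiniteDimensional k
      ((fun c : Bool × Finset I => E ^ (f17_n θ c.2)) c : Submodule k F) := by
    intro c
    have h1 : E.FG := (Submodule.fg_iff_finiteDimensional E).2 inferInstance
    exact (Submodule.fg_iff_finiteDimensional _).1 (h1.pow _)
  have hθ' : m + 3 ≤ θ := by omega
  have hA : ∀ c, E ^ θ * E ^ θ * f17_A E θ i c ≤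
      (fun c : Bool × Finset I => E ^ (f17_n θ c.2)) c := fun c =>
    f17_ite _ _ _ (h11_G_le E θ m hI hθ' c.2) _
  have hB : ∀ c, E ^ θ * E ^ θ * f17_B E θ j c ≤
      (fun c : Bool × Finset I => E ^ (f17_n θ c.2)) c := fun c =>
    f17_ite _ _ _ (h11_G_le E θ m hI hθ' c.2) _
  have hC : ∀ c, E ^ θ * E ^ θ * f17_C E θ i c ≤
      (fun c : Bool × Finset I => E ^ (f17_n θ c.2)) c := fun c =>
    f17_ite _ _ _ (h11_G_le E θ m hI hθ' c.2) _
  have hD : ∀ c l, (fun _ : I => E ^ (2 * θ)) l * f17_D E θ i j c l ≤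
      (fun c : Bool × Finset I => E ^ (f17_n θ c.2)) c := fun c l =>
    f17_ite _ _ _ (h11_G_le2 E θ m hI hθ' c.2) _
  exact two_stage (J := I) (ν := Bool × Finset I) (E ^ θ) (fun _ => E ^ (2 * θ))
      (f17_A E θ i) (f17_B E θ j) (f17_C E θ i) (f17_D E θ i j)
      (fun c => E ^ (f17_n θ c.2)) (f17_M E θ e i j) hA hB hC hD
      (fun c => h11_all d j₀ m a hj hI hId hG hS hP ha hθ hij c)

/-- the stripping lemma for the two tuples -/
theorem h11_strip {I : Type} [Fintype I] [DecidableEq I] (m θ : ℕ)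
    (hI : Fintype.card I = m + 2) (hθ : m + 3 ≤ θ)
    (E : Submodule k F) (e : I → F) (he : ∀ i, e i ∈ E) (i j : I)
    (al be al' be' : F) (ξ : I → F) (hall : ∀ c : Bool × Finset I, E ^ (f17_n θ c.2) ≤
      Submodule.span k {al * al'} * f17_A E θ i c ⊔
      Submodule.span k {al * be'} * f17_B E θ j c ⊔
      Submodule.span k {be * be'} * f17_C E θ i c ⊔
      (⨆ l, Submodule.span k {ξ l} * f17_D E θ i j c l) ⊔ f17_M E θ e i j c)
    (τ : Bool) (r : I → F) (hr1 : τ = false → r i = al * al')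
    (hr2 : τ = true → r i = be * be') (hr3 : r j = al * be')
    (hr4 : ∀ l, l ≠ i → l ≠ j → r l = ξ l) :
    E ^ (4 * θ + 2) ≤ Submodule.span k (Set.range fun δ => e (f17_f τ i j δ) * r δ) *
        E ^ (4 * θ + 2 - 2 * θ - 1) := by
  refine strip E e he (f17_f τ i j) r (2 * θ) (4 * θ + 2) (by omega) ?_
  intro S
  have hr : ∀ l, l ∉ S → ∀ g ∈ f17_G E θ S, r l * g ∈
      Submodule.span k (r '' (Sᶜ : Finset I)) * E ^ (4 * θ + 2 - Sᶜ.card - 2 * θ) := by
    intro l hl g hg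
    refine Submodule.mul_mem_mul (Submodule.subset_span ⟨l, ?_, rfl⟩) hg
    simpa using hl
  refine (hall (τ, S)).trans ?_
  refine sup_le (sup_le (sup_le (sup_le ?_ ?_) ?_) ?_) ?_
  · refine le_sup_of_le_left (f17_ite2 _ _ _ _ fun h g hg => ?_)
    rw [← hr1 h.1]
    exact hr i h.2 g hg
  · refine le_sup_of_le_left (f17_ite2 _ _ _ _ fun h g hg => ?_)
    rw [← hr3]
    exact hr j h g hg
  · refine le_sup_of_le_left (f17_ite2 _ _ _ _ fun h g hg => ?_)
    rw [← hr2 h.1]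
    exact hr i h.2 g hg
  · refine le_sup_of_le_left (iSup_le fun l => f17_ite2 _ _ _ _ fun h g hg => ?_)
    rw [← hr4 l h.2.1 h.2.2]
    exact hr l h.1 g hg
  · exact le_sup_of_le_right le_rfl

/-- the instance of `Kc` for the pair `i, j` -/
theorem pair_inst2 [Infinite k] {I : Type} [Fintype I] [DecidableEq I] (d j₀ m a θ : ℕ)
    (hj : 1 ≤ j₀) (hI : Fintype.card I = m + 2) (hId : d + 2 ≤ Fintype.card I)
    (E : Submodule k F) [FiniteDimensional k E] (e : I → F) (hG : GPos E e d j₀)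
    (hS : PTat k F d m a θ)
    (hP : ∀ κ, 1 ≤ κ → κ ≤ d → PGat k F (d - κ) (m - κ) a (2 * θ))
    (ha : j₀ + m + 3 ≤ a) (hθ : j₀ + m + 3 ≤ θ) (i j : I) (hij : i ≠ j) :
    ∃ p y : I → F, (∀ l, p l ∈ E ^ (2 * θ)) ∧ (∀ l, y l ∈ E ^ (2 * θ + 1)) ∧
      ∑ l, e l * p l * y l = 0 ∧ OnE E (2 * θ + 1) (fun l => e l * p l) ∧
      OnE E (2 * θ + 1) (update (fun l => e l * p l) i (y i)) := by
  obtain ⟨al, be, al', be', ξ, hal, hbe, hal', hbe', hξ, hall⟩ :=
    h11_pick d j₀ m a θ hj hI hId E e hG hS hP ha hθ i j hij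
  -- the forms
  let p : I → F := update (update ξ i (al * al')) j (al * be')
  have hpi : p i = al * al' := by
    show update (update ξ i (al * al')) j (al * be') i = _
    rw [update_of_ne hij, update_self]
  have hpj : p j = al * be' := by
    show update (update ξ i (al * al')) j (al * be') j = _
    rw [update_self]
  have hpl : ∀ l, l ≠ i → l ≠ j → p l = ξ l := by
    intro l h1 h2
    show update (update ξ i (al * al')) j (al * be') l = _
    rw [update_of_ne h2, update_of_ne h1]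
  let q : I → F := update p i (be * be')
  have hqi : q i = be * be' := update_self _ _ _
  have hql : ∀ l, l ≠ i → q l = p l := fun l h => update_of_ne h _ _
  let y : I → F := update (update (fun _ => (0 : F)) i (e j * (be * be'))) j (-(e i * (al' * be)))
  have hyi : y i = e j * (be * be') := by
    show update (update (fun _ => (0 : F)) i (e j * (be * be'))) j (-(e i * (al' * be))) i = _
    rw [update_of_ne hij, update_self]
  have hyj : y j = -(e i * (al' * be)) := by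
    show update (update (fun _ => (0 : F)) i (e j * (be * be'))) j (-(e i * (al' * be))) j = _
    rw [update_self]
  have hyl : ∀ l, l ≠ i → l ≠ j → y l = 0 := by
    intro l h1 h2
    show update (update (fun _ => (0 : F)) i (e j * (be * be'))) j (-(e i * (al' * be))) l = _
    rw [update_of_ne h2, update_of_ne h1]
  have h2θ : ∀ {u v : F}, u ∈ E ^ θ → v ∈ E ^ θ → u * v ∈ E ^ (2 * θ) := by
    intro u v hu hv
    rw [two_mul, pow_add]
    exact Submodule.mul_mem_mul hu hv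
  have h2θ1 : ∀ {u v : F}, u ∈ E → v ∈ E ^ (2 * θ) → u * v ∈ E ^ (2 * θ + 1) := by
    intro u v hu hv
    rw [pow_succ']
    exact Submodule.mul_mem_mul hu hv
  have hstrip := h11_strip m θ hI (by omega) E e hG.1 i j al be al' be' ξ hall
  have hb : 4 * θ + 2 - 2 * θ - 1 = 2 * θ + 1 := by omega
  have hb2 : 2 * (2 * θ + 1) = 4 * θ + 2 := by omega
  refine ⟨p, y, ?_, ?_, ?_, ?_, ?_⟩
  · intro l
    by_cases h1 : l = i
    · rw [h1, hpi]; exact h2θ hal hal'
    by_cases h2 : l = j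
    · rw [h2, hpj]; exact h2θ hal hbe'
    rw [hpl l h1 h2]; exact hξ l
  · intro l
    by_cases h1 : l = i
    · rw [h1, hyi]; exact h2θ1 (hG.1 j) (h2θ hbe hbe')
    by_cases h2 : l = j
    · rw [h2, hyj]; exact Submodule.neg_mem _ (h2θ1 (hG.1 i) (h2θ hal' hbe))
    rw [hyl l h1 h2]; exact Submodule.zero_mem _
  · rw [← Finset.add_sum_erase Finset.univ _ (Finset.mem_univ i),
      ← Finset.add_sum_erase (Finset.univ.erase i) _
        (Finset.mem_erase.2 ⟨hij.symm, Finset.mem_univ j⟩),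
      Finset.sum_eq_zero, hyi, hyj, hpi, hpj]
    · ring
    · intro l hl
      have h1 := Finset.mem_erase.1 hl
      have h2 := Finset.mem_erase.1 h1.2
      rw [hyl l h2.1 h1.1, mul_zero]
  · unfold OnE
    have h1 := hstrip false p (fun _ => hpi) (fun h => by cases h) hpj hpl
    rw [hb] at h1
    rw [hb2]
    exact h1
  · unfold OnE
    have h1 := hstrip true q (fun h => by cases h) (fun _ => hqi)
      (by rw [hql j hij.symm, hpj]) (fun l h1 h2 => by rw [hql l h1, hpl l h1 h2])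
    rw [hb] at h1
    rw [hb2]
    have h2 : (fun δ => e (f17_f true i j δ) * q δ) = update (fun l => e l * p l) i (y i) := by
      funext l
      by_cases h : l = i
      · subst h
        rw [update_self, hqi, hyi]
        unfold f17_f
        simp
      · rw [update_of_ne h, hql l h, f17_f_of_ne true h]
    rw [← h2]
    exact h1

end B

end Pool.Agent.KM
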