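import Pool.Agent.KM.HDefs
import Pool.Agent.KM.GGeneric
import Pool.Agent.KM.FLine
import Pool.Agent.KM.KFrame
import Pool.Agent.KM.BPair2
import Pool.Agent.KM.BType

/-!
Project KM4 (MP_27fd67_ag), row H12: one sign type (helper57, after BType of KM3).
-/

set_option autoImplicit false
set_option linter.all false

open Function

namespace Pool.Agent.KM

section B
variable {k F : Type} [Field k] [Field F] [Algebra k F]

private theorem h12_gen {I : Type} [Fintype I] (E : Submodule k F) (b : ℕ)
    (x u : I → ↥(E ^ b)) :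
    ((gen (mulB E b) Finset.univ x u : ↥(E ^ (2 * b))) : F) = ∑ i, (x i : F) * (u i : F) := by
  unfold gen
  rw [LinearMap.sum_apply, Submodule.coe_sum]
  rfl

/-- the tuple `e l * p l` -/
private noncomputable def h12_L {I : Type} (E : Submodule k F) (e : I → F) (he : ∀ i, e i ∈ E)
    (n : ℕ) : (I → ↥(E ^ n)) →ₗ[k] (I → ↥(E ^ (n + 1))) where
  toFun p := fun l => ⟨e l * (p l : F), by
    rw [pow_succ']
    exact Submodule.mul_mem_mul (he l) (p l).2⟩
  map_add' p q := by
    funext l
    exact Subtype.ext (mul_add _ _ _)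
  map_smul' c p := by
    funext l
    exact Subtype.ext (mul_smul_comm _ _ _)

private theorem h12_fd_pow (E : Submodule k F) [FiniteDimensional k E] (n : ℕ) :
    FiniteDimensional k (E ^ n : Submodule k F) := by
  have h : E.FG := (Submodule.fg_iff_finiteDimensional E).2 inferInstance
  exact (Submodule.fg_iff_finiteDimensional _).1 (h.pow n)

private theorem h12_line_ne {M : Type} [AddCommGroup M] [Module k M] (u v : M) (h : u ≠ 0) :
    {t : k | ¬ (u + t • v ≠ 0)}.Finite := by
  apply Set.Subsingleton.finite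
  intro t ht t' ht'
  simp only [ne_eq, not_not, Set.mem_setOf_eq] at ht ht'
  by_contra hne
  have h2 : (t - t') • v = 0 := by
    rw [sub_smul]
    have := congrArg₂ (· - ·) ht ht'
    simpa using this
  rcases smul_eq_zero.mp h2 with h3 | h3
  · exact hne (sub_eq_zero.mp h3)
  · rw [h3, smul_zero, add_zero] at ht
    exact h ht

/-- one sign type -/
theorem type_inst2 [Infinite k] {I : Type} [Fintype I] [DecidableEq I] (d j₀ m a θ : ℕ)
    (hj : 1 ≤ j₀) (hI : Fintype.card I = m + 2) (hId : d + 2 ≤ Fintype.card I)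
    (E : Submodule k F) [FiniteDimensional k E] (e : I → F) (he : ∀ i, e i ≠ 0)
    (hG : GPos E e d j₀) (hS : PTat k F d m a θ)
    (hP : ∀ κ, 1 ≤ κ → κ ≤ d → PGat k F (d - κ) (m - κ) a (2 * θ))
    (ha : j₀ + m + 3 ≤ a) (hθ : j₀ + m + 3 ≤ θ) :
    ∃ (p : I → F) (x : I → ↥(E ^ (2 * θ + 1))), (∀ l, p l ∈ E ^ (2 * θ)) ∧
      (∀ l, (x l : F) = e l * p l) ∧ GF (mulB E (2 * θ + 1)) x := by
  classical
  have := h12_fd_pow E (2 * (2 * θ + 1))
  have heE : ∀ i, e i ∈ E := hG.1
  obtain ⟨p, hp⟩ := g3_common (k := k) (X := I → ↥(E ^ (2 * θ))) (ν := I ⊕ I)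
    (fun c p => match c with
      | Sum.inl i => Kc (mulB E (2 * θ + 1)) i (h12_L E e heE (2 * θ) p)
      | Sum.inr l => h12_L E e heE (2 * θ) p l ≠ 0) (by
      rintro (i | l) x1 x2 h1
      · have h2 := Kc_line (mulB E (2 * θ + 1)) i (h12_L E e heE (2 * θ) x1)
          (h12_L E e heE (2 * θ) (x2 - x1)) h1
        simpa only [map_add, map_smul] using h2
      · have h2 := h12_line_ne (k := k) (h12_L E e heE (2 * θ) x1 l)
          (h12_L E e heE (2 * θ) (x2 - x1) l) h1
        refine h2.subset ?_
        intro t ht ht'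
        apply ht
        rw [map_add, map_smul]
        exact ht') (by
      rintro (i | l)
      · obtain ⟨j, hij⟩ : ∃ j, i ≠ j := by
          have h3 : 1 < Fintype.card I := by omega
          obtain ⟨j, hj⟩ := Fintype.exists_ne_of_one_lt_card h3 i
          exact ⟨j, hj.symm⟩
        obtain ⟨p, y, hp, hy, h0, h1, h2⟩ := pair_inst2 d j₀ m a θ hj hI hId E e hG hS hP ha hθ
          i j hij
        refine ⟨fun l => ⟨p l, hp l⟩, ?_, fun l => ⟨y l, hy l⟩, ?_, ?_⟩
        · rw [Ont_mulB]
          exact h1
        · refine Subtype.ext ?_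
          rw [h12_gen]
          exact h0
        · rw [Ont_mulB]
          have h4 : (fun l => ((update (h12_L E e heE (2 * θ) fun l => ⟨p l, hp l⟩) i
              (⟨y i, hy i⟩ : ↥(E ^ (2 * θ + 1))) l : ↥(E ^ (2 * θ + 1))) : F)) =
              update (fun l => e l * p l) i (y i) := by
            funext l
            by_cases hl : l = i
            · subst hl
              rw [update_self, update_self]
            · rw [update_of_ne hl, update_of_ne hl]
              rfl
          rw [h4]
          exact h2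
      · refine ⟨fun l => ⟨e l ^ (2 * θ), Submodule.pow_mem_pow E (hG.1 l) _⟩, fun h => ?_⟩
        have h1 : e l * e l ^ (2 * θ) = 0 := congrArg Subtype.val h
        exact mul_ne_zero (he l) (pow_ne_zero _ (he l)) h1)
  refine ⟨fun l => (p l : F), h12_L E e heE (2 * θ) p, fun l => (p l).2, fun l => rfl, ?_⟩
  refine frame_of_K (mulB E (2 * θ + 1)) (fun a b => Subtype.ext (mul_comm _ _)) (by omega) _
    (fun l => hp (Sum.inr l)) (fun i => hp (Sum.inl i))

end B

end Pool.Agent.KM
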