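import Pool.Agent.KM.FLine
import Pool.Agent.KM.BType2
import Pool.Agent.KM.BGrid3

/-!
Project KM4 (MP_27fd67_ag), row H13: a common choice of multipliers for all sign types (helper57,
after BGrid3 of KM3).
-/

set_option autoImplicit false
set_option linter.all false

open Function

namespace Pool.Agent.KM


section B
variable {k F : Type} [Field k] [Field F] [Algebra k F]

private theorem h13_fd_pow (E : Submodule k F) [FiniteDimensional k E] (n : ℕ) :
    FiniteDimensional k (E ^ n : Submodule k F) := by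
  have h : E.FG := (Submodule.fg_iff_finiteDimensional E).2 inferInstance
  exact (Submodule.fg_iff_finiteDimensional _).1 (h.pow n)

/-- common choice for all sign types -/
theorem grid4 [Infinite k] {ι : Type} [Fintype ι] [DecidableEq ι] (d j₀ m a θ : ℕ)
    (hj : 1 ≤ j₀) (hι : Fintype.card ι = m + 1) (hιd : d + 1 ≤ Fintype.card ι)
    (E : Submodule k F) [FiniteDimensional k E] (e : ι → Bool → F) (he : ∀ i s, e i s ≠ 0)
    (hG : ∀ ε : ι → Bool, GPos E (fun i => e i (ε i)) d j₀) (hS : PTat k F d m a θ)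
    (hP : ∀ κ, 1 ≤ κ → κ ≤ d → PGat k F (d - κ) (m - κ) a (2 * θ))
    (ha : j₀ + m + 3 ≤ a) (hθ : j₀ + m + 3 ≤ θ) :
    ∃ (x₀ : F) (p : ι → F), ∀ ε : ι → Bool, ∃ x : Option ι → ↥(E ^ (2 * θ + 1)),
      (x none : F) = x₀ ∧ (∀ i, (x (some i) : F) = e i (ε i) * p i) ∧
        GF (mulB E (2 * θ + 1)) x := by
  classical
  obtain ⟨e₀, he₀, hG₀⟩ := exists_e0 d j₀ hιd E e he hG
  haveI hfd : FiniteDimensional k (E ^ (2 * (2 * θ + 1)) : Submodule k F) := h13_fd_pow E _
  let f : (ι → Bool) → Option ι → F := fun ε o => o.elim e₀ (fun i => e i (ε i))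
  have hfE : ∀ ε o, f ε o ∈ E := fun ε o => (hG₀ ε).1 o
  have hf0 : ∀ ε o, f ε o ≠ 0 := by
    rintro ε (_ | i)
    · exact he₀
    · exact he i (ε i)
  have hmul : ∀ ε o, ∀ q ∈ (E ^ (2 * θ) : Submodule k F), f ε o * q ∈ E ^ (2 * θ + 1) := by
    intro ε o q hq
    rw [pow_succ']
    exact Submodule.mul_mem_mul (hfE ε o) hq
  let X : (ι → Bool) → (Option ι → ↥(E ^ (2 * θ) : Submodule k F)) →
      (Option ι → ↥(E ^ (2 * θ + 1) : Submodule k F)) :=
    fun ε q o => ⟨f ε o * (q o : F), hmul ε o _ (q o).2⟩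
  have hX : ∀ ε q q' (t : k), X ε (q + t • q') = X ε q + t • X ε q' := by
    intro ε q q' t
    funext o
    apply Subtype.ext
    simp only [X, Pi.add_apply, Pi.smul_apply, Submodule.coe_add, Submodule.coe_smul]
    rw [mul_add, mul_smul_comm]
  obtain ⟨q, hq⟩ := g3_common (k := k) (X := Option ι → ↥(E ^ (2 * θ) : Submodule k F))
    (ν := ι → Bool) (fun ε q => GF (mulB E (2 * θ + 1)) (X ε q)) (by
      intro ε q1 q2 h1
      have h2 := (GF_line (mulB E (2 * θ + 1)) (X ε q1) (X ε (q2 - q1)) h1).1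
      refine h2.subset ?_
      intro t ht
      simp only [Set.mem_setOf_eq] at ht ⊢
      rwa [hX] at ht) (by
      intro ε
      obtain ⟨p, x, hp, hx, hGF⟩ := type_inst2 (I := Option ι) d j₀ m a θ hj
        (by rw [Fintype.card_option, hι]) (by rw [Fintype.card_option]; omega) E (f ε) (hf0 ε)
        (hG₀ ε) hS hP ha hθ
      refine ⟨fun o => ⟨p o, hp o⟩, ?_⟩
      have hxX : X ε (fun o => ⟨p o, hp o⟩) = x := by
        funext o
        apply Subtype.ext
        exact (hx o).symm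
      rw [hxX]
      exact hGF)
  refine ⟨e₀ * (q none : F), fun i => (q (some i) : F), ?_⟩
  intro ε
  exact ⟨X ε q, rfl, fun i => rfl, hq ε⟩

end B

end Pool.Agent.KM
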