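import Pool.Agent.KM.HPT
import Pool.Agent.KM.BGpos
import Pool.Agent.KM.BGrid4

/-!
Project KM4 (MP_27fd67_ag), row H14: Milnor functionals vanish on quotients of elements in
general position (helper57, after BGpos of KM3).
-/

set_option autoImplicit false
set_option linter.all false

open Function

namespace Pool.Agent.KM

/-- Milnor functionals vanish on quotients of elements in general position. -/
theorem gpos_zero2 (p : ℕ) [Fact p.Prime] (k F ι : Type) [Field k] [Field F] [Algebra k F]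
    [CharP k p] [Algebra (ZMod p) k] [Algebra.IsAlgebraic (ZMod p) k] [Infinite k] [Fintype ι]
    [DecidableEq ι] (d j₀ : ℕ) (hd : 1 ≤ d) (hι : 2 ^ d ≤ Fintype.card ι)
    (E : Submodule k F) [FiniteDimensional k E]
    (e : ι → Bool → F) (he : ∀ i s, e i s ≠ 0)
    (hG : ∀ ε : ι → Bool, GPos E (fun i => e i (ε i)) d j₀)
    (T : (ι → F) → ℝ) (hT : IsM T) : T (fun i => e i true / e i false) = 0 := by
  haveI : CharP F p := charP_of_injective_algebraMap (algebraMap k F).injective p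
  have hd2 : d + 1 ≤ 2 ^ d := Nat.lt_two_pow_self
  haveI : Nonempty ι := Fintype.card_pos_iff.mp (by omega)
  obtain ⟨m, hm⟩ : ∃ m, Fintype.card ι = m + 1 := ⟨Fintype.card ι - 1, by omega⟩
  obtain ⟨j, hj1, hj0⟩ : ∃ j, 1 ≤ j ∧ j₀ ≤ j := ⟨max j₀ 1, le_max_right _ _, le_max_left _ _⟩
  have hG' : ∀ ε : ι → Bool, GPos E (fun i => e i (ε i)) d j := fun ε =>
    f20_gpos E _ d j₀ j hj0 (hG ε)
  have hPT : PT k F d m := PT_mono k F d _ m (by omega) (PT_all k F d hd)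
  have hPG : ∀ κ, 1 ≤ κ → κ ≤ d → PG k F (d - κ) (m - κ) := by
    intro κ h1 h2
    refine PG_mono k F (d - κ) _ _ ?_ (PG_all k F (d - κ))
    have h3 := f20_pow (d - κ + 1) d (by omega)
    have h4 : d - (d - κ + 1) = κ - 1 := by omega
    rw [h4] at h3
    omega
  obtain ⟨B, hB⟩ : ∃ B : ℕ, ∀ κ, 1 ≤ κ → κ ≤ d → ∀ b, B ≤ b →
      PGat k F (d - κ) (m - κ) (j + m + 3) b := by
    have h1 : ∀ κ : ℕ, ∃ b₀ : ℕ, 1 ≤ κ → κ ≤ d → ∀ b, b₀ ≤ b →
        PGat k F (d - κ) (m - κ) (j + m + 3) b := by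
      intro κ
      by_cases h : 1 ≤ κ ∧ κ ≤ d
      · obtain ⟨b₀, hb⟩ := hPG κ h.1 h.2 (j + m + 3)
        exact ⟨b₀, fun _ _ => hb⟩
      · exact ⟨0, fun h1 h2 => absurd ⟨h1, h2⟩ h⟩
    choose b₀ hb₀ using h1
    refine ⟨∑ κ ∈ Finset.range (d + 1), b₀ κ, fun κ h1 h2 b hb => hb₀ κ h1 h2 b ?_⟩
    exact (Finset.single_le_sum (f := b₀) (fun _ _ => Nat.zero_le _)
      (Finset.mem_range.2 (Nat.lt_succ_of_le h2))).trans hb
  obtain ⟨θ₀, hθ₀⟩ := hPT (j + m + 3)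
  obtain ⟨θ, hθ1, hθ2, hθ3⟩ : ∃ θ, B ≤ θ ∧ j + m + 3 ≤ θ ∧ θ₀ ≤ θ :=
    ⟨B + (j + m + 3) + θ₀, by omega, by omega, by omega⟩
  obtain ⟨x₀, q, hgrid⟩ := grid4 d j m (j + m + 3) θ hj1 hm (by omega) E e he hG' (hθ₀ θ hθ3)
    (fun κ h1 h2 => hB κ h1 h2 _ (by omega)) le_rfl hθ2
  have hq : ∀ ε : ι → Bool, x₀ ≠ 0 ∧ (∀ i, e i (ε i) * q i ≠ 0) ∧
      T (fun i => e i (ε i) * (q i / x₀)) = 0 := by
    intro ε
    obtain ⟨x, hx0, hxs, hx⟩ := hgrid ε
    obtain ⟨h1, h2⟩ := f20_zero p k F ι E (2 * θ + 1) x hx T hT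
    refine ⟨hx0 ▸ h1 none, fun i => (hxs i) ▸ h1 (some i), ?_⟩
    have h3 : (fun i => (x (some i) : F) / (x none : F)) =
        fun i => e i (ε i) * (q i / x₀) := by
      funext i
      rw [hxs i, hx0, mul_div_assoc]
    rw [← h3]
    exact h2
  have hq0 := hq (fun _ => true)
  exact f20_expand hT e (fun i => q i / x₀) he
    (fun i => div_ne_zero (right_ne_zero_of_mul (hq0.2.1 i)) hq0.1) (fun ε => (hq ε).2.2)

end Pool.Agent.KM
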