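import Pool.Agent.KM.Defs
import Pool.Agent.KM.MBasic

/-!
Project KM, row M2: sums.
-/

set_option autoImplicit false

open Function

namespace Pool.Agent.KM

variable {F ι : Type} [Field F] [DecidableEq ι] {T : (ι → F) → ℝ}

private theorem m2_sum_one_aux (hT : IsM T) (n : ℕ) : ∀ (S : Finset ι), S.card = n + 1 →
    ∀ (x : ι → F), ∑ i ∈ S, x i = 1 → T x = 0 := by
  induction n with
  | zero =>
    intro S hS x h
    obtain ⟨a, rfl⟩ := Finset.card_eq_one.1 hS
    rw [Finset.sum_singleton] at h
    have h1 := IsM.one hT x a
    rw [← h, update_eq_self] at h1
    exact h1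
  | succ n ih =>
    intro S hS x h
    obtain ⟨i, hi, j, hj, hij⟩ := Finset.one_lt_card.1 (by omega : 1 < S.card)
    by_cases hxi : x i = 0
    · exact hT.zero x i hxi
    by_cases hxj : x j = 0
    · exact hT.zero x j hxj
    by_cases hw : x i + x j = 0
    · exact IsM.of_neg hT x hij (by linear_combination hw)
    rw [IsM.merge hT x hij hxi hxj hw]
    have key : ∀ (a b : ι), a ∈ S → b ∈ S → a ≠ b →
        T (update x b (x a + x b)) = 0 := by
      intro a b ha hb hab
      apply ih (S.erase a) (by rw [Finset.card_erase_of_mem ha]; omega)
      have hb' : b ∈ S.erase a := Finset.mem_erase.2 ⟨hab.symm, hb⟩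
      rw [Finset.sum_update_of_mem hb', ← Finset.erase_eq]
      rw [← Finset.add_sum_erase S x ha, ← Finset.add_sum_erase (S.erase a) x hb'] at h
      linear_combination h
    have h1 := key i j hi hj hij
    have h2 := key j i hj hi hij.symm
    rw [add_comm (x j) (x i)] at h2
    rw [h1, h2, add_zero]

theorem IsM.sum_one (hT : IsM T) (S : Finset ι) (hS : S.Nonempty) (x : ι → F)
    (h : ∑ i ∈ S, x i = 1) : T x = 0 := by
  have h1 := Finset.card_pos.2 hS
  exact m2_sum_one_aux hT (S.card - 1) S (by omega) x h

/-- changing all entries by roots of unity -/
theorem m2_tors_all [Fintype ι] (hT : IsM T) (x : ι → F) (c : ι → F) (hc : ∀ i, Tors (c i)) :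
    T (fun i => c i * x i) = T x := by
  have key : ∀ S : Finset ι, T (fun i => if i ∈ S then c i * x i else x i) = T x := by
    intro S
    induction S using Finset.induction_on with
    | empty => simp
    | insert a S ha ih =>
      rw [← ih]
      have h1 : (fun i => if i ∈ insert a S then c i * x i else x i) =
          update (fun i => if i ∈ S then c i * x i else x i) a (c a * x a) := by
        funext i
        by_cases hia : i = a
        · subst hia; simp
        · simp [hia]
      have h2 : (fun i => if i ∈ S then c i * x i else x i) =
          update (fun i => if i ∈ S then c i * x i else x i) a (x a) := by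
        funext i
        by_cases hia : i = a
        · subst hia; simp [ha]
        · simp [hia]
      rw [h1, IsM.tors_mul hT _ a (hc a), ← h2]
  have := key Finset.univ
  simpa using this

/-- relation (ii) -/
theorem IsM.sum_zero [Fintype ι] (hT : IsM T) (y : Option ι → F) (h0 : ∀ o, y o ≠ 0)
    (h : ∑ o, y o = 0) : T (fun i => y (some i) / y none) = 0 := by
  rw [Fintype.sum_option] at h
  have hne : (Finset.univ : Finset ι).Nonempty := by
    rw [Finset.nonempty_iff_ne_empty]
    intro he
    rw [he, Finset.sum_empty, add_zero] at h
    exact h0 none h
  have htors : Tors (-1 : F) := ⟨2, by norm_num, by norm_num⟩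
  rw [← m2_tors_all hT (fun i => y (some i) / y none) (fun _ => -1) (fun _ => htors)]
  apply hT.sum_one Finset.univ hne
  have h1 : ∑ i : ι, (-1 : F) * (y (some i) / y none) = - (∑ i : ι, y (some i)) / y none := by
    rw [← Finset.mul_sum, ← Finset.sum_div]
    ring
  rw [h1, div_eq_one_iff_eq (h0 none)]
  linear_combination -h

/-- dividing some entries by another entry -/
theorem m2_div_some (hT : IsM T) (z : ι → F) (h0 : ∀ i, z i ≠ 0) (a : ι) (S : Finset ι)
    (ha : a ∉ S) : T (fun i => if i ∈ S then z i / z a else z i) = T z := by
  induction S using Finset.induction_on with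
  | empty => simp
  | insert b S hb ih =>
    have hab : a ≠ b := fun h => ha (by rw [h]; exact Finset.mem_insert_self b S)
    have haS : a ∉ S := fun h => ha (Finset.mem_insert_of_mem h)
    rw [← ih haS]
    have h1 : (fun i => if i ∈ insert b S then z i / z a else z i) =
        update (fun i => if i ∈ S then z i / z a else z i) b (z b / z a) := by
      funext i
      by_cases hib : i = b
      · subst hib; simp
      · simp [hib]
    have h2 : (fun i => if i ∈ S then z i / z a else z i) =
        update (fun i => if i ∈ S then z i / z a else z i) b (z b) := by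
      funext i
      by_cases hib : i = b
      · subst hib; simp [hb]
      · simp [hib]
    rw [h1, IsM.div hT _ b (h0 b) (h0 a), ← h2]
    have h3 : T (update (fun i => if i ∈ S then z i / z a else z i) b (z a)) = 0 := by
      apply IsM.of_eq hT _ hab
      rw [update_self, update_of_ne hab]
      simp [haS]
    rw [h3, sub_zero]

/-- relation (iv) -/
theorem IsM.replace [Fintype ι] (hT : IsM T) (x : ι → F) (h0 : ∀ i, x i ≠ 0) (c : ι → F)
    (hc : ∀ i, Tors (c i)) (w : F) (hw : w = ∑ i, c i * x i) (hw0 : w ≠ 0) :
    T x = ∑ i, T (update x i w) := by
  have key : ∀ S : Finset ι, T (fun i => if i ∈ S then x i / w else x i) =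
      T x - ∑ i ∈ S, T (update x i w) := by
    intro S
    induction S using Finset.induction_on with
    | empty => simp
    | insert a S ha ih =>
      have h1 : (fun i => if i ∈ insert a S then x i / w else x i) =
          update (fun i => if i ∈ S then x i / w else x i) a (x a / w) := by
        funext i
        by_cases hia : i = a
        · subst hia; simp
        · simp [hia]
      have h2 : (fun i => if i ∈ S then x i / w else x i) =
          update (fun i => if i ∈ S then x i / w else x i) a (x a) := by
        funext i
        by_cases hia : i = a
        · subst hia; simp [ha]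
        · simp [hia]
      have h3 : T (update (fun i => if i ∈ S then x i / w else x i) a w) =
          T (update x a w) := by
        have hz : ∀ i, update x a w i ≠ 0 := by
          intro i
          by_cases hia : i = a
          · subst hia; rw [update_self]; exact hw0
          · rw [update_of_ne hia]; exact h0 i
        rw [← m2_div_some hT (update x a w) hz a S ha]
        congr 1
        funext i
        by_cases hia : i = a
        · subst hia; simp [ha]
        · simp [hia]
      rw [h1, IsM.div hT _ a (h0 a) hw0, ← h2, ih, h3, Finset.sum_insert ha]
      ring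
  have h1 := key Finset.univ
  simp only [Finset.mem_univ, if_true] at h1
  have hne : (Finset.univ : Finset ι).Nonempty := by
    rw [Finset.nonempty_iff_ne_empty]
    intro he
    rw [he, Finset.sum_empty] at hw
    exact hw0 hw
  have h2 : T (fun i => x i / w) = 0 := by
    rw [← m2_tors_all hT (fun i => x i / w) c hc]
    apply hT.sum_one Finset.univ hne
    have h3 : ∑ i, c i * (x i / w) = (∑ i, c i * x i) / w := by
      rw [Finset.sum_div]
      apply Finset.sum_congr rfl
      intro i _
      ring
    rw [h3, ← hw, div_self hw0]
  rw [h2] at h1
  linarith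

/-- relation (iii) -/
theorem IsM.step (hT : IsM T) (x : ι → F) {i j : ι} (hij : i ≠ j) (hi : x i ≠ 0) (hj : x j ≠ 0)
    {c w : F} (hc : Tors c) (hw : w = x i + c * x j) (hw0 : w ≠ 0) :
    T x = T (update (update x i (x i / w)) j w) + T (update (update x i w) j (x j / w)) := by
  -- the value for given entries at `i`, `j`
  have hcomm : ∀ u v : F, update (update x i u) j v = update (update x j v) i u := fun u v =>
    update_comm hij u v x
  have hx : T x = T (update (update x i (x i)) j (x j)) := by
    rw [update_eq_self, update_eq_self]
  have e1 : T (update (update x i (x i / w)) j (c * (x j / w))) = 0 := by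
    apply hT.st _ i j hij
    rw [update_self, update_of_ne hij, update_self]
    field_simp
    exact hw.symm
  rw [IsM.tors_mul hT _ j hc] at e1
  have e2 := IsM.div hT (update x i (x i / w)) j hj hw0
  have e3 := IsM.div hT (update x j (x j)) i hi hw0
  have e4 := IsM.div hT (update x i w) j hj hw0
  have e5 : T (update (update x i w) j w) = 0 := by
    apply IsM.of_eq hT _ hij
    rw [update_self, update_of_ne hij, update_self]
  rw [hx, e4, e5, sub_zero]
  rw [← hcomm, ← hcomm, ← hcomm] at e3
  rw [e1] at e2
  linarith

end Pool.Agent.KM
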