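import Pool.Agent.KM.VGen

/-!
KM-V2: the generic value of a polynomial (helper38).
-/

set_option autoImplicit false
set_option linter.all false

open Function

namespace Pool.Agent.KM

variable {k F : Type} [Field k] [Field F] [Algebra k F]

/-- a polynomial over `A` with a coefficient `1` takes generically unit values -/
private theorem vgauss_unit (A : ValuationSubring F) (hA : Over k A) (Q : MvPolynomial ℕ A)
    (α : ℕ →₀ ℕ) (hα : Q.coeff α = 1) :
    ∀ᶠ l in Gen k, A.valuation (ev l (MvPolynomial.map A.subtype Q)) = 1 := by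
  let i : k →+* A := (algebraMap k F).codRestrict A.toSubring hA
  have hi : ∀ c : k, ((i c : A) : F) = algebraMap k F c := fun c => rfl
  letI : Algebra k (IsLocalRing.ResidueField A) := ((IsLocalRing.residue A).comp i).toAlgebra
  have hq : MvPolynomial.map (IsLocalRing.residue A) Q ≠ 0 := by
    intro h
    have h1 := congrArg (MvPolynomial.coeff α) h
    rw [MvPolynomial.coeff_map, hα, map_one, MvPolynomial.coeff_zero] at h1
    exact one_ne_zero h1
  filter_upwards [ev_ne_zero (k := k) _ hq] with l hl
  have e1 : ev l (MvPolynomial.map (IsLocalRing.residue A) Q) =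
      IsLocalRing.residue A (MvPolynomial.eval (fun n => i (l n)) Q) := by
    show MvPolynomial.eval _ _ = _
    rw [MvPolynomial.eval_map]
    exact (MvPolynomial.eval₂_comp_left (IsLocalRing.residue A) (RingHom.id A)
      (fun n => i (l n)) Q).symm
  have e2 : ev l (MvPolynomial.map A.subtype Q) =
      ((MvPolynomial.eval (fun n => i (l n)) Q : A) : F) := by
    show MvPolynomial.eval _ _ = A.subtype _
    rw [MvPolynomial.eval_map]
    exact (MvPolynomial.eval₂_comp_left A.subtype (RingHom.id A) (fun n => i (l n)) Q).symm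
  rw [e1] at hl
  rw [e2]
  have hu : IsUnit (MvPolynomial.eval (fun n => i (l n)) Q) := by
    by_contra hcon
    exact hl ((IsLocalRing.residue_eq_zero_iff _).2 ((IsLocalRing.mem_maximalIdeal _).2 hcon))
  exact (A.valuation_eq_one_iff _).1 hu

/-- the generic value of `P` at `A` is the maximum of the values of the coefficients -/
theorem ev_gauss (P : MvPolynomial ℕ F) (hP : P ≠ 0) (A : ValuationSubring F) (hA : Over k A) :
    ∃ α ∈ P.support, (∀ b, A.valuation (P.coeff b) ≤ A.valuation (P.coeff α)) ∧
      ∀ᶠ l in Gen k, A.valuation (ev l P) = A.valuation (P.coeff α) := by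
  classical
  obtain ⟨α, hα, hmax⟩ := P.support.exists_max_image (fun b => A.valuation (P.coeff b))
    (MvPolynomial.support_nonempty.2 hP)
  have hα0 : P.coeff α ≠ 0 := MvPolynomial.mem_support_iff.1 hα
  have hmax' : ∀ b, A.valuation (P.coeff b) ≤ A.valuation (P.coeff α) := by
    intro b
    by_cases hb : b ∈ P.support
    · exact hmax b hb
    · rw [MvPolynomial.notMem_support_iff.1 hb, map_zero]
      exact zero_le'
  refine ⟨α, hα, hmax', ?_⟩
  -- the normalised polynomial
  have hcoe : ∀ b, P.coeff b / P.coeff α ∈ A := by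
    intro b
    rw [← A.valuation_le_one_iff, map_div₀]
    exact div_le_one_of_le₀ (hmax' b) zero_le'
  set R : MvPolynomial ℕ F := MvPolynomial.C (P.coeff α)⁻¹ * P with hR
  have hRc : ∀ b, R.coeff b = P.coeff b / P.coeff α := by
    intro b
    rw [hR, MvPolynomial.coeff_C_mul, div_eq_inv_mul]
  have hrange : R ∈ Set.range (MvPolynomial.map (σ := ℕ) A.subtype) := by
    rw [MvPolynomial.mem_range_map_iff_coeffs_subset]
    intro x hx
    obtain ⟨b, -, rfl⟩ := MvPolynomial.mem_coeffs_iff.1 hx
    rw [hRc b]
    exact ⟨⟨_, hcoe b⟩, rfl⟩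
  obtain ⟨Q, hQ⟩ := hrange
  have hQα : Q.coeff α = 1 := by
    apply Subtype.ext
    have := congrArg (MvPolynomial.coeff α) hQ
    rw [MvPolynomial.coeff_map, hRc, div_self hα0] at this
    exact this
  filter_upwards [vgauss_unit A hA Q α hQα] with l hl
  rw [show MvPolynomial.map A.subtype Q = R from hQ, hR, map_mul, map_mul] at hl
  have e : ev l (MvPolynomial.C (P.coeff α)⁻¹) = (P.coeff α)⁻¹ := MvPolynomial.eval_C _
  rw [e, map_inv₀] at hl
  have hv : A.valuation (P.coeff α) ≠ 0 := (Valuation.ne_zero_iff _).2 hα0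
  rw [inv_mul_eq_one₀ hv] at hl
  exact hl.symm

end Pool.Agent.KM
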