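import Pool.Agent.KM.VGen
import Pool.Agent.KM.VGauss

/-!
KM-V3: generically rational families (helper45).
-/

set_option autoImplicit false
set_option linter.all false

open Function

namespace Pool.Agent.KM

variable {k F : Type} [Field k] [Field F] [Algebra k F]

theorem IsRat.mono {N M : ℕ} (h : N ≤ M) {a : Fam k F} (ha : IsRat N a) : IsRat M a := by
  obtain ⟨P, D, hP, hD, h1, h2, h3⟩ := ha
  exact ⟨P, D, hP, hD, fun i hi => lt_of_lt_of_le (h1 i hi) h,
    fun i hi => lt_of_lt_of_le (h2 i hi) h, h3⟩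

theorem IsRat.const (c : F) (hc : c ≠ 0) : IsRat 0 (fun _ => c : Fam k F) := by
  refine ⟨MvPolynomial.C c, 1, ?_, one_ne_zero, ?_, ?_, ?_⟩
  · rwa [Ne, MvPolynomial.C_eq_zero]
  · intro i hi
    rw [MvPolynomial.vars_C] at hi
    simp at hi
  · intro i hi
    rw [MvPolynomial.vars_one] at hi
    simp at hi
  · refine Filter.Eventually.of_forall fun l => ?_
    simp [ev]

private theorem v3_vars_mul {N : ℕ} {P Q : MvPolynomial ℕ F} (hP : ∀ i ∈ P.vars, i < N)
    (hQ : ∀ i ∈ Q.vars, i < N) : ∀ i ∈ (P * Q).vars, i < N := by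
  classical
  intro i hi
  rcases Finset.mem_union.1 (MvPolynomial.vars_mul P Q hi) with h | h
  · exact hP i h
  · exact hQ i h

theorem IsRat.mul {N : ℕ} {a b : Fam k F} (ha : IsRat N a) (hb : IsRat N b) :
    IsRat N (fun l => a l * b l) := by
  obtain ⟨P, D, hP, hD, h1, h2, h3⟩ := ha
  obtain ⟨P', D', hP', hD', h1', h2', h3'⟩ := hb
  refine ⟨P * P', D * D', mul_ne_zero hP hP', mul_ne_zero hD hD', v3_vars_mul h1 h1',
    v3_vars_mul h2 h2', ?_⟩
  filter_upwards [h3, h3'] with l hl hl'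
  rw [hl, hl', map_mul, map_mul, div_mul_div_comm]

theorem IsRat.div {N : ℕ} {a b : Fam k F} (ha : IsRat N a) (hb : IsRat N b) :
    IsRat N (fun l => a l / b l) := by
  obtain ⟨P, D, hP, hD, h1, h2, h3⟩ := ha
  obtain ⟨P', D', hP', hD', h1', h2', h3'⟩ := hb
  refine ⟨P * D', D * P', mul_ne_zero hP hD', mul_ne_zero hD hP', v3_vars_mul h1 h2',
    v3_vars_mul h2 h1', ?_⟩
  filter_upwards [h3, h3'] with l hl hl'
  rw [hl, hl', map_mul, map_mul, div_div_div_eq]

theorem IsRat.add {N : ℕ} {a b : Fam k F} (ha : IsRat N a) (hb : IsRat N b) :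
    IsRat (N + 1) (fun l => a l + algebraMap k F (l N) * b l) := by
  classical
  obtain ⟨P, D, hP, hD, h1, h2, h3⟩ := ha
  obtain ⟨P', D', hP', hD', h1', h2', h3'⟩ := hb
  have hv1 := v3_vars_mul h1 h2'
  have hv2 := v3_vars_mul h1' h2
  refine ⟨P * D' + MvPolynomial.X N * (P' * D), D * D', ?_, mul_ne_zero hD hD', ?_, ?_, ?_⟩
  · intro h0
    obtain ⟨α, hα⟩ := MvPolynomial.support_nonempty.2 (mul_ne_zero hP hD')
    have hα' := MvPolynomial.mem_support_iff.1 hα
    have hN : N ∉ α.support := by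
      intro hN
      have := hv1 N ((MvPolynomial.mem_vars N).2 ⟨α, hα, hN⟩)
      omega
    have h4 := congrArg (MvPolynomial.coeff α) h0
    rw [MvPolynomial.coeff_add, MvPolynomial.coeff_X_mul', if_neg hN, add_zero,
      MvPolynomial.coeff_zero] at h4
    exact hα' h4
  · intro i hi
    rcases Finset.mem_union.1 (MvPolynomial.vars_add_subset _ _ hi) with h | h
    · have := hv1 i h; omega
    · rcases Finset.mem_union.1 (MvPolynomial.vars_mul _ _ h) with h | h
      · rw [MvPolynomial.vars_X] at h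
        have := Finset.mem_singleton.1 h
        omega
      · have := hv2 i h; omega
  · intro i hi
    have := v3_vars_mul h2 h2' i hi
    omega
  · filter_upwards [h3, h3', ev_ne_zero D hD, ev_ne_zero D' hD'] with l hl hl' hd hd'
    have hX : ev l (MvPolynomial.X N : MvPolynomial ℕ F) = algebraMap k F (l N) := by
      simp [ev]
    rw [hl, hl', map_mul, map_add, map_mul, map_mul, map_mul, hX]
    field_simp

theorem IsRat.ne_zero {N : ℕ} {a : Fam k F} (ha : IsRat N a) : ∀ᶠ l in Gen k, a l ≠ 0 := by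
  obtain ⟨P, D, hP, hD, h1, h2, h3⟩ := ha
  filter_upwards [h3, ev_ne_zero P hP, ev_ne_zero D hD] with l hl hp hd
  rw [hl]
  exact div_ne_zero hp hd

theorem IsRat.val {N : ℕ} {a : Fam k F} (ha : IsRat N a) (A : ValuationSubring F)
    (hA : Over k A) : ∃ γ, γ ≠ 0 ∧ ∀ᶠ l in Gen k, A.valuation (a l) = γ := by
  obtain ⟨P, D, hP, hD, h1, h2, h3⟩ := ha
  obtain ⟨α, hα, -, hPv⟩ := ev_gauss P hP A hA
  obtain ⟨β, hβ, -, hDv⟩ := ev_gauss D hD A hA
  refine ⟨A.valuation (P.coeff α) / A.valuation (D.coeff β), ?_, ?_⟩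
  · refine div_ne_zero ?_ ?_
    · exact (Valuation.ne_zero_iff _).2 (MvPolynomial.mem_support_iff.1 hα)
    · exact (Valuation.ne_zero_iff _).2 (MvPolynomial.mem_support_iff.1 hβ)
  · filter_upwards [h3, hPv, hDv] with l hl hp hd
    rw [hl, map_div₀, hp, hd]

end Pool.Agent.KM
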