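import Pool.Agent.KM.Defs

set_option autoImplicit false

/-!
Project KM, row V1: the filter of generic parameters.
-/

open Function

namespace Pool.Agent.KM

section V
variable {k F : Type} [Field k] [Field F] [Algebra k F]

theorem gen_neBot [Infinite k] : (Gen k).NeBot := by
  rw [Filter.neBot_iff]
  intro h
  have h1 : (∅ : Set (ℕ → k)) ∈ Gen k := by
    rw [h]
    exact Filter.mem_bot
  obtain ⟨Θ, h0, h2⟩ := h1
  apply h0
  apply MvPolynomial.funext
  intro l
  rw [map_zero]
  by_contra hne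
  exact h2 l hne

theorem ev_ne_zero (P : MvPolynomial ℕ F) (hP : P ≠ 0) : ∀ᶠ l in Gen k, ev l P ≠ 0 := by
  obtain ⟨α, hα⟩ := MvPolynomial.ne_zero_iff.1 hP
  obtain ⟨φ, hφ⟩ : ∃ φ : Module.Dual k F, φ (P.coeff α) ≠ 0 := by
    by_contra hcon
    push Not at hcon
    exact hα ((Module.forall_dual_apply_eq_zero_iff k _).1 hcon)
  set Θ : MvPolynomial ℕ k := ∑ β ∈ P.support, MvPolynomial.monomial β (φ (P.coeff β)) with hΘ
  refine ⟨Θ, ?_, fun l hl h0 => hl ?_⟩
  · rw [MvPolynomial.ne_zero_iff]
    refine ⟨α, ?_⟩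
    rw [hΘ, MvPolynomial.coeff_sum, Finset.sum_eq_single α]
    · rw [MvPolynomial.coeff_monomial, if_pos rfl]
      exact hφ
    · intro β _ hβ
      rw [MvPolynomial.coeff_monomial, if_neg hβ]
    · intro h
      exact absurd (MvPolynomial.mem_support_iff.2 hα) h
  · have h1 : φ (ev l P) = MvPolynomial.eval l Θ := by
      rw [hΘ, map_sum, ev, MvPolynomial.eval_eq, map_sum]
      refine Finset.sum_congr rfl fun β _ => ?_
      rw [MvPolynomial.eval_monomial, Finsupp.prod]
      have h2 : P.coeff β * ∏ i ∈ β.support, (algebraMap k F (l i)) ^ β i =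
          (∏ i ∈ β.support, l i ^ β i) • P.coeff β := by
        rw [Algebra.smul_def, map_prod, mul_comm]
        congr 1
        refine Finset.prod_congr rfl fun i _ => ?_
        rw [map_pow]
      rw [h2, map_smul, smul_eq_mul, mul_comm]
    rw [← h1, h0, map_zero]

theorem gen_coord_ne (n : ℕ) (c : k) : ∀ᶠ l in Gen k, l n ≠ c := by
  refine ⟨MvPolynomial.X n - MvPolynomial.C c, ?_, fun l hl h => hl ?_⟩
  · intro h
    have h1 := congrArg (MvPolynomial.eval (fun _ => c + 1)) h
    rw [map_sub, MvPolynomial.eval_X, MvPolynomial.eval_C, map_zero, add_sub_cancel_left] at h1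
    exact one_ne_zero h1
  · rw [map_sub, MvPolynomial.eval_X, MvPolynomial.eval_C, h, sub_self]

end V

end Pool.Agent.KM
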