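import Pool.Agent.KM.Defs
import Pool.Agent.KM.VGen
import Pool.Agent.KM.VGauss
import Pool.Agent.KM.VRat

/-!
Project KM (MP_27fd67_ag), row V4: the value of a sum with a generic coefficient is the maximum
of the values.
-/

set_option autoImplicit false

open Function

namespace Pool.Agent.KM

variable {k F : Type} [Field k] [Field F] [Algebra k F]

/-- A polynomial whose variables are smaller than `N` has only monomials with exponent `0`
at `N`. -/
private lemma v4_coeff_zero {N : ℕ} {P : MvPolynomial ℕ F} (hP : ∀ i ∈ P.vars, i < N)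
    (α : ℕ →₀ ℕ) (h : α N ≠ 0) : P.coeff α = 0 := by
  by_contra hc
  have h1 : N ∈ P.vars := by
    rw [MvPolynomial.mem_vars_iff_mem_support]
    exact ⟨α, MvPolynomial.mem_support_iff.2 hc, Finsupp.mem_support_iff.2 h⟩
  exact lt_irrefl _ (hP N h1)

private lemma v4_vars_mul {N : ℕ} {P Q : MvPolynomial ℕ F} (hP : ∀ i ∈ P.vars, i < N)
    (hQ : ∀ i ∈ Q.vars, i < N) : ∀ i ∈ (P * Q).vars, i < N := by
  intro i hi
  rcases Finset.mem_union.1 (MvPolynomial.vars_mul P Q hi) with h | h
  · exact hP i h
  · exact hQ i h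

/-- The Gauss value of `P + X_N Q`. -/
private lemma v4_gauss {N : ℕ} {P Q : MvPolynomial ℕ F} (hP0 : P ≠ 0) (hQ0 : Q ≠ 0)
    (hP : ∀ i ∈ P.vars, i < N) (hQ : ∀ i ∈ Q.vars, i < N)
    (A : ValuationSubring F) (hA : Over k A) :
    ∀ᶠ l in Gen k, A.valuation (ev l P + algebraMap k F (l N) * ev l Q) =
      max (A.valuation (ev l P)) (A.valuation (ev l Q)) := by
  set R : MvPolynomial ℕ F := P + MvPolynomial.X N * Q with hR
  have hc1 : ∀ α : ℕ →₀ ℕ, α N = 0 → R.coeff α = P.coeff α := by
    intro α hα
    rw [hR, MvPolynomial.coeff_add, MvPolynomial.coeff_X_mul', if_neg, add_zero]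
    rw [Finsupp.mem_support_iff, hα]
    simp
  have hc2 : ∀ α : ℕ →₀ ℕ, α N = 0 → R.coeff (α + Finsupp.single N 1) = Q.coeff α := by
    intro α hα
    rw [hR, MvPolynomial.coeff_add, add_comm α, MvPolynomial.coeff_X_mul,
      v4_coeff_zero hP _ (by simp), zero_add]
  have hR0 : R ≠ 0 := by
    intro h0
    obtain ⟨α, hα⟩ := MvPolynomial.ne_zero_iff.1 hP0
    have hαN : α N = 0 := by
      by_contra h
      exact hα (v4_coeff_zero hP α h)
    rw [← hc1 α hαN, h0] at hα
    simp at hα
  obtain ⟨α, hα, hαm, hαe⟩ := ev_gauss (k := k) P hP0 A hA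
  obtain ⟨β, hβ, hβm, hβe⟩ := ev_gauss (k := k) Q hQ0 A hA
  obtain ⟨γ, hγ, hγm, hγe⟩ := ev_gauss (k := k) R hR0 A hA
  have hαN : α N = 0 := by
    by_contra h
    exact MvPolynomial.mem_support_iff.1 hα (v4_coeff_zero hP α h)
  have hβN : β N = 0 := by
    by_contra h
    exact MvPolynomial.mem_support_iff.1 hβ (v4_coeff_zero hQ β h)
  have key : A.valuation (R.coeff γ) =
      max (A.valuation (P.coeff α)) (A.valuation (Q.coeff β)) := by
    apply le_antisymm
    · rw [hR, MvPolynomial.coeff_add]
      refine (A.valuation.map_add _ _).trans ?_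
      refine max_le_max (hαm γ) ?_
      rw [MvPolynomial.coeff_X_mul']
      split_ifs
      · exact hβm _
      · rw [map_zero]
        exact zero_le
    · refine max_le ?_ ?_
      · rw [← hc1 α hαN]
        exact hγm α
      · rw [← hc2 β hβN]
        exact hγm _
  filter_upwards [hαe, hβe, hγe] with l h1 h2 h3
  rw [h1, h2, ← key, ← h3, hR]
  simp [ev]

theorem IsRat.val_add [Infinite k] {N : ℕ} {a b : Fam k F} (ha : IsRat N a) (hb : IsRat N b)
    (A : ValuationSubring F) (hA : Over k A) :
    ∀ᶠ l in Gen k, A.valuation (a l + algebraMap k F (l N) * b l) =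
      max (A.valuation (a l)) (A.valuation (b l)) := by
  obtain ⟨P, D, hP, hD, hPv, hDv, hab⟩ := ha
  obtain ⟨P', D', hP', hD', hPv', hDv', hab'⟩ := hb
  have hg := v4_gauss (mul_ne_zero hP hD') (mul_ne_zero hP' hD) (v4_vars_mul hPv hDv')
    (v4_vars_mul hPv' hDv) A hA
  filter_upwards [hab, hab', hg, ev_ne_zero (k := k) D hD, ev_ne_zero (k := k) D' hD']
    with l h1 h2 h3 h4 h5
  have e0 : ev l D * ev l D' ≠ 0 := mul_ne_zero h4 h5
  have e1 : a l = ev l (P * D') / (ev l D * ev l D') := by
    rw [h1, map_mul]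
    field_simp
  have e2 : b l = ev l (P' * D) / (ev l D * ev l D') := by
    rw [h2, map_mul]
    field_simp
  have e3 : a l + algebraMap k F (l N) * b l =
      (ev l (P * D') + algebraMap k F (l N) * ev l (P' * D)) / (ev l D * ev l D') := by
    rw [e1, e2]
    ring
  rw [e3, e1, e2, map_div₀, map_div₀, map_div₀, h3]
  have e4 : 0 < A.valuation (ev l D * ev l D') := by
    rw [zero_lt_iff]
    exact (Valuation.ne_zero_iff _).2 e0
  rcases le_total (A.valuation (ev l (P * D'))) (A.valuation (ev l (P' * D))) with h | h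
  · rw [max_eq_right h, max_eq_right]
    exact div_le_div_of_nonneg_right h e4.le
  · rw [max_eq_left h, max_eq_left]
    exact div_le_div_of_nonneg_right h e4.le

/-- generic linear combinations of all entries -/
theorem exists_comb [Infinite k] {ι : Type} [Fintype ι] [Nonempty ι] {N : ℕ} (a : ι → Fam k F)
    (ha : ∀ i, IsRat N (a i)) : ∃ (M : ℕ) (c : ι → (ℕ → k) → k), IsRat M (fun l => ∑ i, algebraMap k F (c i l) * a i l) ∧
      (∀ i, ∀ᶠ l in Gen k, c i l ≠ 0) ∧
      ∀ A : ValuationSubring F, Over k A → ∀ᶠ l in Gen k,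
        (∀ i, A.valuation (a i l) ≤ A.valuation (∑ i, algebraMap k F (c i l) * a i l)) ∧
        ∃ i, A.valuation (∑ i, algebraMap k F (c i l) * a i l) = A.valuation (a i l) := by
  classical
  have key : ∀ s : Finset ι, s.Nonempty → ∃ (M : ℕ) (c : ι → (ℕ → k) → k), N ≤ M ∧
      IsRat M (fun l => ∑ i ∈ s, algebraMap k F (c i l) * a i l) ∧
      (∀ i ∈ s, ∀ᶠ l in Gen k, c i l ≠ 0) ∧
      ∀ A : ValuationSubring F, Over k A → ∀ᶠ l in Gen k,
        (∀ i ∈ s, A.valuation (a i l) ≤ A.valuation (∑ i ∈ s, algebraMap k F (c i l) * a i l)) ∧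
        ∃ i ∈ s, A.valuation (∑ i ∈ s, algebraMap k F (c i l) * a i l) = A.valuation (a i l) := by
    intro s hs
    induction hs using Finset.Nonempty.cons_induction with
    | singleton j =>
      refine ⟨N, fun _ _ => 1, le_rfl, ?_, fun i _ => Filter.Eventually.of_forall fun l => one_ne_zero,
        fun A hA => Filter.Eventually.of_forall fun l => ?_⟩
      · simpa using ha j
      · simp
    | cons j s hj hs ih =>
      obtain ⟨M, c, hNM, hrat, hne, hval⟩ := ih
      have hsum : ∀ l, (∑ i ∈ Finset.cons j s hj,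
          algebraMap k F (update c j (fun l => l M) i l) * a i l) =
          (∑ i ∈ s, algebraMap k F (c i l) * a i l) + algebraMap k F (l M) * a j l := by
        intro l
        rw [Finset.sum_cons, add_comm, update_self]
        congr 1
        refine Finset.sum_congr rfl fun i hi => ?_
        rw [update_of_ne]
        rintro rfl
        exact hj hi
      refine ⟨M + 1, update c j (fun l => l M), by omega, ?_, ?_, fun A hA => ?_⟩
      · simp only [hsum]
        exact hrat.add ((ha j).mono hNM)
      · intro i hi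
        rcases Finset.mem_cons.1 hi with rfl | hi'
        · rw [update_self]
          exact gen_coord_ne M 0
        · have hij : i ≠ j := fun e => hj (e ▸ hi')
          rw [update_of_ne hij]
          exact hne i hi'
      · filter_upwards [hval A hA, hrat.val_add ((ha j).mono hNM) A hA] with l h1 h2
        simp only [hsum]
        rw [h2]
        refine ⟨fun i hi => ?_, ?_⟩
        · rcases Finset.mem_cons.1 hi with rfl | hi
          · exact le_max_right _ _
          · exact (h1.1 i hi).trans (le_max_left _ _)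
        · rcases le_total (A.valuation (∑ i ∈ s, algebraMap k F (c i l) * a i l))
            (A.valuation (a j l)) with h | h
          · exact ⟨j, Finset.mem_cons_self j s, max_eq_right h⟩
          · obtain ⟨i, hi, he⟩ := h1.2
            exact ⟨i, Finset.mem_cons.2 (Or.inr hi), (max_eq_left h).trans he⟩
  obtain ⟨M, c, -, h1, h2, h3⟩ := key Finset.univ Finset.univ_nonempty
  refine ⟨M, c, h1, fun i => h2 i (Finset.mem_univ i), fun A hA => ?_⟩
  filter_upwards [h3 A hA] with l h4
  refine ⟨fun i => h4.1 i (Finset.mem_univ i), ?_⟩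
  obtain ⟨i, -, hi⟩ := h4.2
  exact ⟨i, hi⟩

end Pool.Agent.KM
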