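import Pool.Agent.KM.Defs
import Pool.Agent.KM.MSum
import Pool.Agent.KM.VRat
import Pool.Agent.KM.VSum

/-!
KM-C1: sums of decompositions and the base case of the moving lemma.
-/

set_option autoImplicit false
set_option linter.all false

open Function

namespace Pool.Agent.KM

section C

variable {k F ι : Type} [Field k] [Field F] [Algebra k F] [Fintype ι] [DecidableEq ι]

theorem Dec.add {a b c : ι → Fam k F} (u v : ℤ) (hb : Dec b) (hc : Dec c)
    (h : ∀ᶠ l in Gen k, ∀ T : (ι → F) → ℝ, IsM T →
      T (fun j => a j l) = u * T (fun j => b j l) + v * T (fun j => c j l)) : Dec a := by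
  obtain ⟨Lb, hLb, hb'⟩ := hb
  obtain ⟨Lc, hLc, hc'⟩ := hc
  refine ⟨Lb.map (fun t => (t.1, t.2.1, u * t.2.2)) ++ Lc.map (fun t => (t.1, t.2.1, v * t.2.2)),
    ?_, ?_⟩
  · intro t ht
    rcases List.mem_append.1 ht with ht | ht
    · obtain ⟨s, hs, rfl⟩ := List.mem_map.1 ht
      exact hLb s hs
    · obtain ⟨s, hs, rfl⟩ := List.mem_map.1 ht
      exact hLc s hs
  · filter_upwards [h, hb', hc'] with l h1 h2 h3 T hT
    rw [h1 T hT, h2 T hT, h3 T hT, List.map_append, List.sum_append, List.map_map, List.map_map,
      ← List.sum_map_mul_left, ← List.sum_map_mul_left]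
    congr 2
    · refine List.map_congr_left fun t _ => ?_
      simp only [comp_apply]
      push_cast
      ring
    · refine List.map_congr_left fun t _ => ?_
      simp only [comp_apply]
      push_cast
      ring

/-- the base case -/
theorem dec_nil [Infinite k] [Nonempty ι] (htors : ∀ c : k, c ≠ 0 → Tors (algebraMap k F c))
    (a : ι → Fam k F) (ha : ∀ i, ∃ N, IsRat N (a i)) (h1 : Le1 a) (hst : Star [] a) : Dec a := by
  choose N hN using ha
  obtain ⟨M, c, hM, hc, hval⟩ := exists_comb a
    (fun i => (hN i).mono (Finset.le_sup (f := N) (Finset.mem_univ i)))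
  set w : Fam k F := fun l => ∑ i, algebraMap k F (c i l) * a i l with hw
  have hmov : Moving w := by
    intro A hA
    have hle : ∀ᶠ l in Gen k, ∀ i, A.valuation (a i l) ≤ 1 := by
      rw [Filter.eventually_all]
      exact fun i => h1 i A hA
    filter_upwards [hval A hA, hst A hA, hle] with l ⟨h2, j, hj⟩ h3 h4
    rcases h3 with ⟨i, hi⟩ | ⟨δ, hδ, -⟩
    · refine le_antisymm ?_ ?_
      · rw [hw]
        simp only
        rw [hj]
        exact h4 j
      · rw [← hi]
        exact h2 i
    · exact absurd hδ (List.not_mem_nil)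
  refine ⟨(Finset.univ : Finset ι).toList.map (fun i => (update a i w, i, 1)), ?_, ?_⟩
  · intro t ht
    obtain ⟨i, -, rfl⟩ := List.mem_map.1 ht
    refine ⟨fun j => ?_, ?_⟩
    · by_cases hj : j = i
      · subst hj
        exact ⟨M, by simpa using hM⟩
      · exact ⟨N j, by simpa [hj] using hN j⟩
    · simpa using hmov
  · have hc' : ∀ᶠ l in Gen k, ∀ i, c i l ≠ 0 := by
      rw [Filter.eventually_all]
      exact hc
    have ha' : ∀ᶠ l in Gen k, ∀ i, a i l ≠ 0 := by
      rw [Filter.eventually_all]
      exact fun i => (hN i).ne_zero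
    filter_upwards [hc', ha', hM.ne_zero] with l h2 h3 h4 T hT
    have h5 := hT.replace (fun j => a j l) h3 (fun i => algebraMap k F (c i l))
      (fun i => htors _ (h2 i)) (w l) rfl h4
    rw [h5, List.map_map, Finset.sum_map_toList]
    refine Finset.sum_congr rfl fun i _ => ?_
    simp only [comp_apply, Int.cast_one, one_mul]
    congr 1
    funext j
    by_cases hj : j = i
    · subst hj
      simp
    · simp [hj]

end C

end Pool.Agent.KM
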