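import Pool.Agent.KM.Defs

/-!
KM-C4: multiplicative relations between the values of algebraically dependent elements.
-/

set_option autoImplicit false
set_option linter.unusedSectionVars false

open Function

namespace Pool.Agent.KM

variable {k F ι : Type} [Field k] [Field F] [Algebra k F] [Fintype ι] [DecidableEq ι]

theorem c4_val_const (A : ValuationSubring F) (hA : Over k A) (c : k) (hc : c ≠ 0) :
    A.valuation (algebraMap k F c) = 1 := by
  have h1 : A.valuation (algebraMap k F c) ≤ 1 := (A.valuation_le_one_iff _).mpr (hA c)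
  have h2 : A.valuation (algebraMap k F c⁻¹) ≤ 1 := (A.valuation_le_one_iff _).mpr (hA c⁻¹)
  have h0 : algebraMap k F c ≠ 0 := by
    rwa [Ne, FaithfulSMul.algebraMap_eq_zero_iff]
  rw [map_inv₀, map_inv₀] at h2
  have hv : A.valuation (algebraMap k F c) ≠ 0 := (Valuation.ne_zero_iff _).mpr h0
  refine le_antisymm h1 ?_
  have h3 := mul_le_mul_right h2 (A.valuation (algebraMap k F c))
  rw [mul_inv_cancel₀ hv, mul_one] at h3
  exact h3

theorem c4_val_monomial (A : ValuationSubring F) (hA : Over k A) (x : ι → F)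
    (c : k) (hc : c ≠ 0) (α : ι →₀ ℕ) :
    A.valuation (algebraMap k F c * ∏ i, x i ^ α i) = ∏ i, A.valuation (x i) ^ α i := by
  rw [map_mul, c4_val_const A hA c hc, one_mul, map_prod]
  simp only [map_pow]

/-- algebraically dependent elements: multiplicative relations between the values -/
theorem dep_relations (x : ι → F) (hx : ∀ i, x i ≠ 0) (hdep : ¬ AlgebraicIndependent k x) :
    ∃ H : List (ι → ℤ), (∀ δ ∈ H, δ ≠ 0) ∧ ∀ A : ValuationSubring F, Over k A →
      ∃ δ ∈ H, ∏ i, A.valuation (x i) ^ (δ i) = 1 := by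
  classical
  rw [algebraicIndependent_iff] at hdep
  push Not at hdep
  obtain ⟨P, hP, hP0⟩ := hdep
  refine ⟨(P.support.offDiag.toList).map (fun q => fun i => (q.1 i : ℤ) - (q.2 i : ℤ)), ?_, ?_⟩
  · intro δ hδ h0
    obtain ⟨q, hq, rfl⟩ := List.mem_map.mp hδ
    rw [Finset.mem_toList, Finset.mem_offDiag] at hq
    apply hq.2.2
    ext i
    have := congrFun h0 i
    simp only [Pi.zero_apply] at this
    omega
  · intro A hA
    have hne : P.support.Nonempty := MvPolynomial.support_nonempty.mpr hP0
    obtain ⟨α, hα, hmax⟩ := P.support.exists_max_image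
      (fun α => ∏ i, A.valuation (x i) ^ α i) hne
    have hsum : ∑ β ∈ P.support, algebraMap k F (P.coeff β) * ∏ i, x i ^ β i = 0 := by
      rw [← hP, MvPolynomial.aeval_def, MvPolynomial.eval₂_eq']
    have hval : ∀ β ∈ P.support, A.valuation (algebraMap k F (P.coeff β) * ∏ i, x i ^ β i) =
        ∏ i, A.valuation (x i) ^ β i := by
      intro β hβ
      exact c4_val_monomial A hA x _ (MvPolynomial.mem_support_iff.mp hβ) β
    have hv0 : ∀ β : ι →₀ ℕ, (∏ i, A.valuation (x i) ^ β i) ≠ 0 := by
      intro β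
      rw [Finset.prod_ne_zero_iff]
      intro i _
      exact pow_ne_zero _ ((Valuation.ne_zero_iff _).mpr (hx i))
    have hex : ∃ β ∈ P.support, β ≠ α ∧
        ∏ i, A.valuation (x i) ^ α i ≤ ∏ i, A.valuation (x i) ^ β i := by
      by_contra hcon
      push Not at hcon
      have h1 : A.valuation (∑ β ∈ P.support.erase α,
          algebraMap k F (P.coeff β) * ∏ i, x i ^ β i) < ∏ i, A.valuation (x i) ^ α i := by
        apply Valuation.map_sum_lt _ (hv0 α)
        intro β hβ
        rw [Finset.mem_erase] at hβ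
        rw [hval β hβ.2]
        exact hcon β hβ.2 hβ.1
      rw [← Finset.add_sum_erase _ _ hα] at hsum
      have h2 := eq_neg_of_add_eq_zero_left hsum
      have h3 := congrArg A.valuation h2
      rw [Valuation.map_neg, hval α hα] at h3
      exact absurd h3 h1.ne'
    obtain ⟨β, hβ, hβα, hle⟩ := hex
    have heq := le_antisymm (hmax β hβ) hle
    refine ⟨fun i => (α i : ℤ) - (β i : ℤ), ?_, ?_⟩
    · rw [List.mem_map]
      exact ⟨(α, β), by rw [Finset.mem_toList, Finset.mem_offDiag]; exact ⟨hα, hβ, hβα.symm⟩, rfl⟩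
    · have h4 : ∀ i, A.valuation (x i) ^ ((α i : ℤ) - (β i : ℤ)) =
          A.valuation (x i) ^ α i / A.valuation (x i) ^ β i := by
        intro i
        rw [zpow_sub₀ ((Valuation.ne_zero_iff _).mpr (hx i)), zpow_natCast, zpow_natCast]
      simp only [h4]
      rw [Finset.prod_div_distrib, heq, div_self (hv0 α)]

end Pool.Agent.KM
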