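import Pool.Agent.KM.MSum
import Pool.Agent.KM.VGen
import Pool.Agent.KM.VRat
import Pool.Agent.KM.VSum
import Pool.Agent.KM.CDec

/-!
Project KM (MP_27fd67_ag), row KM-C2 (helper47): dropping a same-signed vector from the list, and
the step for a pair of entries.
-/

set_option autoImplicit false

open Function

namespace Pool.Agent.KM

section group
variable {ι Γ : Type} [Fintype ι] [LinearOrderedCommGroupWithZero Γ]

private lemma c2_nonneg (x : ι → Γ) (hx : ∀ i, x i ≤ 1) (δ : ι → ℤ) {i : ι} (hi : δ i ≠ 0)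
    (hsgn : ∀ i, 0 ≤ δ i) (h : ∏ i, x i ^ (δ i) = 1) : x i = 1 := by
  have key : ∀ j, x j ^ (δ j) = x j ^ (δ j).toNat := fun j => by
    conv_lhs => rw [← Int.toNat_of_nonneg (hsgn j)]
    exact zpow_natCast _ _
  simp only [key] at h
  have h2 := (Finset.prod_eq_one_iff_of_le_one' (fun j _ => pow_le_one' (hx j) _)).1 h i
    (Finset.mem_univ i)
  have hn : (δ i).toNat ≠ 0 := by
    have := hsgn i
    omega
  exact (pow_eq_one_iff_left hn).mp h2

private lemma c2_sign (x : ι → Γ) (hx : ∀ i, x i ≤ 1) (δ : ι → ℤ) (hδ : δ ≠ 0)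
    (hsgn : (∀ i, 0 ≤ δ i) ∨ (∀ i, δ i ≤ 0)) (h : ∏ i, x i ^ (δ i) = 1) : ∃ i, x i = 1 := by
  obtain ⟨i, hi⟩ : ∃ i, δ i ≠ 0 := by
    by_contra hcon
    push Not at hcon
    exact hδ (funext hcon)
  rcases hsgn with hs | hs
  · exact ⟨i, c2_nonneg x hx δ hi hs h⟩
  · refine ⟨i, c2_nonneg x hx (fun j => - δ j) (neg_ne_zero.2 hi)
      (fun j => by have := hs j; omega) ?_⟩
    simp only [zpow_neg, Finset.prod_inv_distrib, h, inv_one]

/-- substitution in the product -/
private lemma c2_subst [DecidableEq ι] {i j : ι} (hij : i ≠ j) (x y : ι → Γ) (δ : ι → ℤ)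
    (h0 : ∀ m, x m ≠ 0) (hrest : ∀ m, m ≠ i → m ≠ j → y m = x m) (hi : y i = x i / x j)
    (hj : y j = x j) (h : ∏ m, x m ^ (δ m) = 1) : ∏ m, y m ^ (sub1 i j δ m) = 1 := by
  have hji : j ≠ i := hij.symm
  rw [← h, Fintype.prod_eq_mul_prod_compl i, Fintype.prod_eq_mul_prod_compl i]
  have hmem : j ∈ ({i} : Finset ι)ᶜ := by simp [hji]
  rw [← Finset.mul_prod_erase _ _ hmem, ← Finset.mul_prod_erase _ _ hmem]
  have hprod : ∏ m ∈ ({i} : Finset ι)ᶜ.erase j, y m ^ (sub1 i j δ m) =
      ∏ m ∈ ({i} : Finset ι)ᶜ.erase j, x m ^ (δ m) := by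
    refine Finset.prod_congr rfl fun m hm => ?_
    have hmj : m ≠ j := (Finset.mem_erase.1 hm).1
    have hmi : m ≠ i := by
      have := (Finset.mem_erase.1 hm).2
      simpa using this
    rw [hrest m hmi hmj]
    simp [sub1, update_of_ne hmj]
  rw [hprod]
  have e1 : sub1 i j δ i = δ i := by simp [sub1, update_of_ne hij]
  have e2 : sub1 i j δ j = δ i + δ j := by simp [sub1]
  rw [e1, e2, hi, hj, zpow_add₀ (h0 j), div_zpow]
  have hx : x j ^ δ i ≠ 0 := zpow_ne_zero _ (h0 j)
  rw [← mul_assoc, ← mul_assoc, ← mul_assoc, div_mul_cancel₀ _ hx]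

end group

variable {k F ι : Type} [Field k] [Field F] [Algebra k F] [Fintype ι] [DecidableEq ι]

/-- dropping a vector all of whose entries have the same sign -/
theorem Star.drop {H : List (ι → ℤ)} {δ : ι → ℤ} (hδ : δ ≠ 0)
    (hsgn : (∀ i, 0 ≤ δ i) ∨ (∀ i, δ i ≤ 0)) {a : ι → Fam k F}
    (ha : ∀ i, ∃ N, IsRat N (a i)) (h1 : Le1 a) (hst : Star (δ :: H) a) : Star H a := by
  intro A hA
  have hle : ∀ᶠ l in Gen k, ∀ i, A.valuation (a i l) ≤ 1 :=
    Filter.eventually_all.2 fun i => h1 i A hA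
  filter_upwards [hst A hA, hle] with l hl hle
  rcases hl with hl | ⟨δ', hδ', hl⟩
  · exact Or.inl hl
  · rcases List.mem_cons.1 hδ' with rfl | hmem
    · exact Or.inl (c2_sign _ hle _ hδ hsgn hl)
    · exact Or.inr ⟨δ', hmem, hl⟩

/-- the half step: dividing the entry `i` by `w` and replacing the entry `j` by `w` -/
private lemma c2_half (H : List (ι → ℤ)) {i j : ι} (hij : i ≠ j) (a : ι → Fam k F)
    (ha : ∀ i, ∃ N, IsRat N (a i)) (h1 : Le1 a) (hst : Star H a) (w : Fam k F)
    (hw : ∃ N, IsRat N w)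
    (hmax : ∀ A : ValuationSubring F, Over k A → ∀ᶠ l in Gen k,
      A.valuation (w l) = max (A.valuation (a i l)) (A.valuation (a j l)))
    (b : ι → Fam k F) (hb : b = update (update a i (fun l => a i l / w l)) j w) :
    (∀ i, ∃ N, IsRat N (b i)) ∧ Le1 b ∧ Star (H.map (sub1 i j)) b := by
  have hne : ∀ᶠ l in Gen k, ∀ i, a i l ≠ 0 :=
    Filter.eventually_all.2 fun i => by
      obtain ⟨N, hN⟩ := ha i
      exact hN.ne_zero
  have bi : b i = fun l => a i l / w l := by rw [hb, update_of_ne hij, update_self]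
  have bj : b j = w := by rw [hb, update_self]
  have bm : ∀ m, m ≠ i → m ≠ j → b m = a m := fun m hmi hmj => by
    rw [hb, update_of_ne hmj, update_of_ne hmi]
  refine ⟨fun m => ?_, fun m A hA => ?_, fun A hA => ?_⟩
  · by_cases hmj : m = j
    · rw [hmj, bj]; exact hw
    · by_cases hmi : m = i
      · rw [hmi, bi]
        obtain ⟨N₁, h₁⟩ := ha i
        obtain ⟨N₂, h₂⟩ := hw
        exact ⟨max N₁ N₂, (h₁.mono (le_max_left _ _)).div (h₂.mono (le_max_right _ _))⟩
      · rw [bm m hmi hmj]; exact ha m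
  · by_cases hmj : m = j
    · rw [hmj, bj]
      filter_upwards [hmax A hA, h1 i A hA, h1 j A hA] with l h₁ h₂ h₃
      rw [h₁]
      exact max_le h₂ h₃
    · by_cases hmi : m = i
      · rw [hmi, bi]
        filter_upwards [hmax A hA, hne] with l h₁ h₂
        have h0 : A.valuation (a i l) ≠ 0 := by
          rw [Ne, map_eq_zero]; exact h₂ i
        have hle : A.valuation (a i l) ≤ A.valuation (w l) := by
          rw [h₁]; exact le_max_left _ _
        rw [map_div₀]
        exact div_le_one_of_le₀ hle zero_le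
      · rw [bm m hmi hmj]; exact h1 m A hA
  · filter_upwards [hst A hA, hmax A hA, hne, h1 i A hA, h1 j A hA] with l hs hm h0 hi1 hj1
    have hv0 : ∀ m, A.valuation (a m l) ≠ 0 := fun m => by
      rw [Ne, map_eq_zero]; exact h0 m
    rcases hs with ⟨m, hm1⟩ | ⟨δ, hδ, hδ1⟩
    · left
      by_cases hmj : m = j
      · refine ⟨j, ?_⟩
        rw [bj, hm, ← hmj, hm1]
        exact max_eq_right hi1
      · by_cases hmi : m = i
        · refine ⟨j, ?_⟩
          rw [bj, hm, ← hmi, hm1]
          exact max_eq_left hj1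
        · refine ⟨m, ?_⟩
          rw [bm m hmi hmj, hm1]
    · rcases le_total (A.valuation (a j l)) (A.valuation (a i l)) with hle | hle
      · left
        refine ⟨i, ?_⟩
        rw [bi]
        show A.valuation (a i l / w l) = 1
        rw [map_div₀, hm, max_eq_left hle, div_self (hv0 i)]
      · right
        refine ⟨sub1 i j δ, List.mem_map.2 ⟨δ, hδ, rfl⟩, ?_⟩
        refine c2_subst hij (fun m => A.valuation (a m l)) (fun m => A.valuation (b m l)) δ hv0
          (fun m hmi hmj => ?_) ?_ ?_ hδ1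
        · show A.valuation (b m l) = A.valuation (a m l)
          rw [bm m hmi hmj]
        · show A.valuation (b i l) = A.valuation (a i l) / A.valuation (a j l)
          rw [bi]
          show A.valuation (a i l / w l) = _
          rw [map_div₀, hm, max_eq_right hle]
        · show A.valuation (b j l) = A.valuation (a j l)
          rw [bj, hm, max_eq_right hle]

/-- one step: `i ≠ j`; the two new tuples -/
theorem dec_step [Infinite k] (htors : ∀ c : k, c ≠ 0 → Tors (algebraMap k F c))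
    (H : List (ι → ℤ)) {i j : ι} (hij : i ≠ j) (a : ι → Fam k F)
    (ha : ∀ i, ∃ N, IsRat N (a i)) (h1 : Le1 a) (hst : Star H a)
    (hA : ∀ b : ι → Fam k F, (∀ i, ∃ N, IsRat N (b i)) → Le1 b → Star (H.map (sub1 i j)) b → Dec b)
    (hB : ∀ b : ι → Fam k F, (∀ i, ∃ N, IsRat N (b i)) → Le1 b → Star (H.map (sub1 j i)) b → Dec b) :
    Dec a := by
  obtain ⟨N₁, hN₁⟩ := ha i
  obtain ⟨N₂, hN₂⟩ := ha j
  set N := max N₁ N₂ with hN
  have hi := hN₁.mono (le_max_left N₁ N₂)
  have hj := hN₂.mono (le_max_right N₁ N₂)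
  set w : Fam k F := fun l => a i l + algebraMap k F (l N) * a j l with hw
  have hwrat : ∃ N, IsRat N w := ⟨_, hi.add hj⟩
  have hmax : ∀ A : ValuationSubring F, Over k A → ∀ᶠ l in Gen k,
      A.valuation (w l) = max (A.valuation (a i l)) (A.valuation (a j l)) :=
    fun A hA => hi.val_add hj A hA
  have hmax' : ∀ A : ValuationSubring F, Over k A → ∀ᶠ l in Gen k,
      A.valuation (w l) = max (A.valuation (a j l)) (A.valuation (a i l)) := fun A hA => by
    filter_upwards [hmax A hA] with l hl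
    rw [hl, max_comm]
  have hne : ∀ᶠ l in Gen k, ∀ i, a i l ≠ 0 :=
    Filter.eventually_all.2 fun i => by
      obtain ⟨N, hN⟩ := ha i
      exact hN.ne_zero
  have hw0 : ∀ᶠ l in Gen k, w l ≠ 0 := by
    obtain ⟨M, hM⟩ := hwrat
    exact hM.ne_zero
  obtain ⟨r1, r2, r3⟩ := c2_half H hij a ha h1 hst w hwrat hmax _ rfl
  obtain ⟨s1, s2, s3⟩ := c2_half H hij.symm a ha h1 hst w hwrat hmax' _ rfl
  refine Dec.add 1 1 (hA _ r1 r2 r3) (hB _ s1 s2 s3) ?_
  filter_upwards [hne, hw0, gen_coord_ne N (0 : k)] with l h0 hw0 hl T hT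
  have := hT.step (fun m => a m l) hij (h0 i) (h0 j) (htors _ hl) (w := w l) rfl hw0
  rw [this, Int.cast_one, one_mul, one_mul]
  congr 2
  · funext m
    by_cases hmj : m = j
    · rw [hmj]; simp
    · by_cases hmi : m = i
      · rw [hmi]; simp [update_of_ne hij]
      · simp [update_of_ne hmi, update_of_ne hmj]
  · funext m
    by_cases hmi : m = i
    · rw [hmi]; simp [update_of_ne hij]
    · by_cases hmj : m = j
      · rw [hmj]; simp [update_of_ne hij.symm]
      · simp [update_of_ne hmi, update_of_ne hmj]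

end Pool.Agent.KM
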