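import Pool.Agent.KM.Defs
import Pool.Agent.KM.CDec
import Pool.Agent.KM.CStep

/-!
Project KM: the induction on the list of integer vectors.
-/

set_option autoImplicit false

open Function

namespace Pool.Agent.KM

section C
variable {k F ι : Type} [Field k] [Field F] [Algebra k F] [Fintype ι] [DecidableEq ι]

theorem c3_sub1_ne {i j : ι} (hij : i ≠ j) {δ : ι → ℤ} (hδ : δ ≠ 0) : sub1 i j δ ≠ 0 := by
  intro h
  apply hδ
  have hl : ∀ l, l ≠ j → δ l = 0 := by
    intro l hl
    have h1 := congrFun h l
    simp only [sub1, update_of_ne hl, Pi.zero_apply] at h1
    exact h1
  funext l
  by_cases hlj : l = j
  · subst hlj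
    have h1 := congrFun h l
    simp only [sub1, update_self, Pi.zero_apply] at h1
    rw [hl i hij, zero_add] at h1
    exact h1
  · exact hl l hlj

theorem c3_map_ne {i j : ι} (hij : i ≠ j) {H : List (ι → ℤ)} (hH : ∀ δ ∈ H, δ ≠ 0) :
    ∀ δ ∈ H.map (sub1 i j), δ ≠ 0 := by
  intro δ hδ
  rw [List.mem_map] at hδ
  obtain ⟨δ', h1, rfl⟩ := hδ
  exact c3_sub1_ne hij (hH δ' h1)

theorem c3_neg {H : List (ι → ℤ)} {δ : ι → ℤ} {a : ι → Fam k F} (h : Star (δ :: H) a) :
    Star ((-δ) :: H) a := by
  intro A hA
  filter_upwards [h A hA] with l hl
  rcases hl with h1 | ⟨δ', h1, h2⟩
  · exact Or.inl h1
  · rw [List.mem_cons] at h1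
    rcases h1 with rfl | h1
    · refine Or.inr ⟨-δ', List.mem_cons_self, ?_⟩
      have h3 : ∀ i, A.valuation (a i l) ^ ((-δ') i) = (A.valuation (a i l) ^ (δ' i))⁻¹ := by
        intro i
        rw [Pi.neg_apply, zpow_neg]
      rw [Finset.prod_congr rfl (fun i _ => h3 i), Finset.prod_inv_distrib, h2, inv_one]
    · exact Or.inr ⟨δ', List.mem_cons_of_mem _ h1, h2⟩

/-- the induction -/
theorem dec_of_star [Infinite k] [Nonempty ι]
    (htors : ∀ c : k, c ≠ 0 → Tors (algebraMap k F c)) (H : List (ι → ℤ)) (hH : ∀ δ ∈ H, δ ≠ 0)
    (a : ι → Fam k F) (ha : ∀ i, ∃ N, IsRat N (a i)) (h1 : Le1 a) (hst : Star H a) : Dec a := by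
  -- induction on the length
  have key : ∀ (h : ℕ) (H : List (ι → ℤ)), H.length = h → (∀ δ ∈ H, δ ≠ 0) →
      ∀ a : ι → Fam k F, (∀ i, ∃ N, IsRat N (a i)) → Le1 a → Star H a → Dec a := by
    intro h
    induction h with
    | zero =>
      intro H hlen _ a ha h1 hst
      rw [List.length_eq_zero_iff] at hlen
      subst hlen
      exact dec_nil htors a ha h1 hst
    | succ h ihh =>
      -- induction on the maximum
      have key2 : ∀ (M : ℕ) (δ : ι → ℤ) (H : List (ι → ℤ)), H.length = h → δ ≠ 0 →
          (∀ δ ∈ H, δ ≠ 0) → (∀ l, |δ l| ≤ M) →
          ∀ a : ι → Fam k F, (∀ i, ∃ N, IsRat N (a i)) → Le1 a → Star (δ :: H) a → Dec a := by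
        intro M
        induction M with
        | zero =>
          intro δ H _ hδ _ hM
          exfalso
          apply hδ
          funext l
          have h2 := hM l
          rw [Nat.cast_zero] at h2
          exact abs_nonpos_iff.1 h2
        | succ M ihM =>
          -- induction on the number of entries with maximal absolute value
          have key3 : ∀ (c : ℕ) (δ : ι → ℤ) (H : List (ι → ℤ)), H.length = h → δ ≠ 0 →
              (∀ δ ∈ H, δ ≠ 0) → (∀ l, |δ l| ≤ (M + 1 : ℕ)) →
              (Finset.univ.filter (fun l => |δ l| = (M + 1 : ℕ))).card ≤ c →
              ∀ a : ι → Fam k F, (∀ i, ∃ N, IsRat N (a i)) → Le1 a → Star (δ :: H) a →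
                Dec a := by
            intro c
            induction c with
            | zero =>
              intro δ H hlen hδ hH hM hc
              refine ihM δ H hlen hδ hH (fun l => ?_)
              have h2 : l ∉ Finset.univ.filter (fun l => |δ l| = (M + 1 : ℕ)) := by
                rw [Finset.card_eq_zero.1 (Nat.le_zero.1 hc)]
                exact Finset.notMem_empty l
              rw [Finset.mem_filter, not_and] at h2
              have h3 := h2 (Finset.mem_univ l)
              have h4 := hM l
              push_cast at h3 h4 ⊢
              omega
            | succ c ihc =>
              -- induction on the number of negative entries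
              have key4 : ∀ (o : ℕ) (δ : ι → ℤ) (H : List (ι → ℤ)), H.length = h → δ ≠ 0 →
                  (∀ δ ∈ H, δ ≠ 0) → (∀ l, |δ l| ≤ (M + 1 : ℕ)) →
                  (Finset.univ.filter (fun l => |δ l| = (M + 1 : ℕ))).card ≤ c + 1 →
                  (∃ i, δ i = (M + 1 : ℕ)) →
                  (Finset.univ.filter (fun l => δ l < 0)).card ≤ o →
                  ∀ a : ι → Fam k F, (∀ i, ∃ N, IsRat N (a i)) → Le1 a → Star (δ :: H) a →
                    Dec a := by
                intro o
                induction o with
                | zero =>
                  intro δ H hlen hδ hH hM hc hi ho a ha h1 hst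
                  refine ihh H hlen hH a ha h1 (Star.drop hδ (Or.inl (fun l => ?_)) ha h1 hst)
                  by_contra hl
                  have h2 : l ∈ Finset.univ.filter (fun l => δ l < 0) :=
                    Finset.mem_filter.2 ⟨Finset.mem_univ l, not_le.1 hl⟩
                  rw [Finset.card_eq_zero.1 (Nat.le_zero.1 ho)] at h2
                  exact Finset.notMem_empty l h2
                | succ o iho =>
                  intro δ H hlen hδ hH hM hc hi ho a ha h1 hst
                  by_cases hneg : ∃ j, δ j < 0
                  · obtain ⟨j, hj⟩ := hneg
                    obtain ⟨i, hi⟩ := hi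
                    have hij : i ≠ j := by
                      rintro rfl
                      rw [hi] at hj
                      push_cast at hj
                      omega
                    have hMj := (abs_le.1 (hM j)).1
                    have hs1 : ∀ l, l ≠ j → sub1 i j δ l = δ l := fun l hl => update_of_ne hl _ _
                    have hs2 : sub1 i j δ j = δ i + δ j := update_self _ _ _
                    have hs3 : ∀ l, l ≠ i → sub1 j i δ l = δ l := fun l hl => update_of_ne hl _ _
                    have hs4 : sub1 j i δ i = δ j + δ i := update_self _ _ _
                    refine dec_step htors (δ :: H) hij a ha h1 hst (fun b hb hb1 hbst => ?_)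
                      (fun b hb hb1 hbst => ?_)
                    · rw [List.map_cons] at hbst
                      refine iho (sub1 i j δ) (H.map (sub1 i j)) (by rw [List.length_map, hlen])
                        (c3_sub1_ne hij hδ) (c3_map_ne hij hH) (fun l => ?_) ?_
                        ⟨i, by rw [hs1 i hij, hi]⟩ ?_ b hb hb1 hbst
                      · by_cases hl : l = j
                        · subst hl
                          rw [hs2, hi, abs_le]
                          push_cast at hMj ⊢
                          constructor <;> omega
                        · rw [hs1 l hl]
                          exact hM l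
                      · refine (Finset.card_le_card (fun l hl => ?_)).trans hc
                        rw [Finset.mem_filter] at hl ⊢
                        refine ⟨hl.1, ?_⟩
                        by_cases hlj : l = j
                        · subst hlj
                          exfalso
                          have h3 := hl.2
                          rw [hs2, hi] at h3
                          rcases (abs_eq (by positivity)).1 h3 with h4 | h4 <;>
                            (push_cast at h4 hMj; omega)
                        · rw [← hs1 l hlj]
                          exact hl.2
                      · refine Nat.lt_succ_iff.1 (lt_of_lt_of_le (Finset.card_lt_card ?_) ho)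
                        refine Finset.ssubset_iff_subset_ne.2 ⟨fun l hl => ?_, fun he => ?_⟩
                        · rw [Finset.mem_filter] at hl ⊢
                          refine ⟨hl.1, ?_⟩
                          by_cases hlj : l = j
                          · subst hlj
                            exact hj
                          · rw [← hs1 l hlj]
                            exact hl.2
                        · have h2 : j ∈ Finset.univ.filter (fun l => δ l < 0) :=
                            Finset.mem_filter.2 ⟨Finset.mem_univ j, hj⟩
                          rw [← he, Finset.mem_filter, hs2, hi] at h2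
                          have h3 := h2.2
                          push_cast at h3 hMj
                          omega
                    · rw [List.map_cons] at hbst
                      refine ihc (sub1 j i δ) (H.map (sub1 j i)) (by rw [List.length_map, hlen])
                        (c3_sub1_ne hij.symm hδ) (c3_map_ne hij.symm hH) (fun l => ?_) ?_
                        b hb hb1 hbst
                      · by_cases hl : l = i
                        · subst hl
                          rw [hs4, hi, abs_le]
                          push_cast at hMj ⊢
                          constructor <;> omega
                        · rw [hs3 l hl]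
                          exact hM l
                      · refine Nat.lt_succ_iff.1 (lt_of_lt_of_le (Finset.card_lt_card ?_) hc)
                        refine Finset.ssubset_iff_subset_ne.2 ⟨fun l hl => ?_, fun he => ?_⟩
                        · rw [Finset.mem_filter] at hl ⊢
                          refine ⟨hl.1, ?_⟩
                          by_cases hli : l = i
                          · subst hli
                            rw [hi]
                            exact abs_of_nonneg (by positivity)
                          · rw [← hs3 l hli]
                            exact hl.2
                        · have h2 : i ∈ Finset.univ.filter (fun l => |δ l| = (M + 1 : ℕ)) :=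
                            Finset.mem_filter.2 ⟨Finset.mem_univ i, by
                              rw [hi]; exact abs_of_nonneg (by positivity)⟩
                          rw [← he, Finset.mem_filter, hs4, hi] at h2
                          rcases (abs_eq (by positivity)).1 h2.2 with h4 | h4 <;>
                            (push_cast at h4 hMj; omega)
                  · push Not at hneg
                    exact ihh H hlen hH a ha h1 (Star.drop hδ (Or.inl hneg) ha h1 hst)
              intro δ H hlen hδ hH hM hc a ha h1 hst
              by_cases hex : ∃ i, |δ i| = (M + 1 : ℕ)
              · obtain ⟨i, hi⟩ := hex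
                rcases abs_eq (by positivity) |>.1 hi with hi' | hi'
                · exact key4 _ δ H hlen hδ hH hM hc ⟨i, hi'⟩ le_rfl a ha h1 hst
                · refine key4 _ (-δ) H hlen (neg_ne_zero.2 hδ) hH (fun l => ?_) ?_ ⟨i, ?_⟩ le_rfl
                    a ha h1 (c3_neg hst)
                  · rw [Pi.neg_apply, abs_neg]
                    exact hM l
                  · simp only [Pi.neg_apply, abs_neg]
                    exact hc
                  · rw [Pi.neg_apply, hi', neg_neg]
              · push Not at hex
                refine ihc δ H hlen hδ hH hM ?_ a ha h1 hst
                rw [Finset.filter_false_of_mem (fun l _ => hex l), Finset.card_empty]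
                exact Nat.zero_le _
          intro δ H hlen hδ hH hM
          exact key3 _ δ H hlen hδ hH hM le_rfl
      intro H hlen hH a ha h1 hst
      cases H with
      | nil => exact absurd hlen (by simp)
      | cons δ H =>
        rw [List.length_cons, Nat.add_right_cancel_iff] at hlen
        refine key2 (∑ l, (δ l).natAbs) δ H hlen (hH δ List.mem_cons_self)
          (fun δ' h' => hH δ' (List.mem_cons_of_mem _ h')) (fun l => ?_) a ha h1 hst
        rw [Int.abs_eq_natAbs]
        exact_mod_cast Finset.single_le_sum (f := fun l => (δ l).natAbs)
          (fun _ _ => Nat.zero_le _) (Finset.mem_univ l)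
  exact key H.length H rfl hH a ha h1 hst

end C

end Pool.Agent.KM
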