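import Pool.Agent.KM.Defs
import Pool.Agent.KM.MBasic
import Pool.Agent.KM.VRat
import Pool.Agent.KM.VSum
import Pool.Agent.KM.CDec
import Pool.Agent.KM.CInd
import Pool.Agent.KM.CDep

/-!
Project KM (MP_27fd67_ag), row KM-C5: Claim M (the moving lemma).
-/

set_option autoImplicit false
set_option linter.all false

open Function

namespace Pool.Agent.KM

section C
variable {k F ι : Type} [Field k] [Field F] [Algebra k F] [Fintype ι] [DecidableEq ι]

/-- the denominator `1 + l₀ x` -/
private def c5_den (k : Type) {F : Type} [Field k] [Field F] [Algebra k F] (x : F) : Fam k F :=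
  fun l => 1 + algebraMap k F (l 0) * x

/-- `x⁺` and `x⁻` -/
private def c5_pm (k : Type) {F : Type} [Field k] [Field F] [Algebra k F] (x : F) (b : Bool) :
    Fam k F := fun l => (if b then x else 1) / c5_den k x l

private theorem c5_den_rat (x : F) (hx : x ≠ 0) : IsRat 1 (c5_den k x) :=
  IsRat.add (N := 0) (IsRat.const 1 one_ne_zero) (IsRat.const x hx)

private theorem c5_pm_rat (x : F) (hx : x ≠ 0) (b : Bool) : IsRat 1 (c5_pm k x b) := by
  have h : (if b then x else 1) ≠ 0 := by split_ifs <;> simp [hx]
  exact IsRat.div (IsRat.mono (Nat.zero_le 1) (IsRat.const _ h)) (c5_den_rat x hx)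

private theorem c5_den_val [Infinite k] (x : F) (hx : x ≠ 0) (A : ValuationSubring F)
    (hA : Over k A) :
    ∀ᶠ l in Gen k, A.valuation (c5_den k x l) = max 1 (A.valuation x) := by
  have h := IsRat.val_add (k := k) (N := 0) (IsRat.const 1 one_ne_zero) (IsRat.const x hx) A hA
  refine h.mono fun l hl => ?_
  rw [map_one] at hl
  exact hl

private theorem c5_pm_val [Infinite k] (x : F) (hx : x ≠ 0) (b : Bool) (A : ValuationSubring F)
    (hA : Over k A) :
    ∀ᶠ l in Gen k, A.valuation (c5_pm k x b l) =
      (if b then A.valuation x else 1) / max 1 (A.valuation x) := by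
  refine (c5_den_val (k := k) x hx A hA).mono fun l hl => ?_
  simp only [c5_pm, map_div₀, hl]
  cases b <;> simp

private theorem c5_le (γ : Type) [LinearOrderedCommGroupWithZero γ] (v : γ) (b : Bool) :
    (if b then v else 1) / max 1 v ≤ 1 := by
  have h0 : (0 : γ) < max 1 v := lt_of_lt_of_le zero_lt_one (le_max_left _ _)
  rw [div_le_one₀ h0]
  cases b
  · simp
  · simp

private theorem c5_val (γ : Type) [LinearOrderedCommGroupWithZero γ] (v : γ) (hv : v ≠ 0)
    (b : Bool) (h : (if b then v else 1) / max 1 v ≠ 1) :
    (if b then v else 1) / max 1 v = v ^ (if b then (1 : ℤ) else -1) := by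
  cases b
  · simp only [Bool.false_eq_true, if_false] at h ⊢
    rcases le_total v 1 with h1 | h1
    · exact absurd (by rw [max_eq_left h1, div_one]) h
    · rw [max_eq_right h1, zpow_neg, zpow_one, one_div]
  · simp only [if_true] at h ⊢
    rcases le_total v 1 with h1 | h1
    · rw [max_eq_left h1, div_one, zpow_one]
    · exact absurd (by rw [max_eq_right h1, div_self hv]) h

private theorem c5_base [Infinite k] [Nonempty ι]
    (htors : ∀ c : k, c ≠ 0 → Tors (algebraMap k F c))
    (x : ι → F) (hx : ∀ i, x i ≠ 0) (hdep : ¬ AlgebraicIndependent k x) (b : ι → Bool) :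
    Dec (fun i => c5_pm k (x i) (b i) : ι → Fam k F) := by
  obtain ⟨H, hH, hA⟩ := dep_relations x hx hdep
  refine dec_of_star htors (H.map fun δ i => (if b i then (1 : ℤ) else -1) * δ i) ?_ _
    (fun i => ⟨1, c5_pm_rat (x i) (hx i) (b i)⟩) ?_ ?_
  · intro δ' hδ'
    obtain ⟨δ, hδ, rfl⟩ := List.mem_map.1 hδ'
    intro h0
    apply hH δ hδ
    funext i
    have := congrFun h0 i
    simp only [Pi.zero_apply] at this ⊢
    rcases mul_eq_zero.1 this with h | h
    · split_ifs at h <;> simp at h
    · exact h
  · intro i A hAk
    refine (c5_pm_val (k := k) (x i) (hx i) (b i) A hAk).mono fun l hl => ?_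
    rw [hl]
    exact c5_le _ _ _
  · intro A hAk
    obtain ⟨δ, hδ, hprod⟩ := hA A hAk
    have hev : ∀ᶠ l in Gen k, ∀ i, A.valuation (c5_pm k (x i) (b i) l) =
        (if b i then A.valuation (x i) else 1) / max 1 (A.valuation (x i)) :=
      Filter.eventually_all.2 fun i => c5_pm_val (k := k) (x i) (hx i) (b i) A hAk
    refine hev.mono fun l hl => ?_
    by_cases h1 : ∃ i, A.valuation (c5_pm k (x i) (b i) l) = 1
    · exact Or.inl h1
    · push Not at h1
      refine Or.inr ⟨_, List.mem_map.2 ⟨δ, hδ, rfl⟩, ?_⟩
      rw [← hprod]
      refine Finset.prod_congr rfl fun i _ => ?_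
      have h2 := h1 i
      rw [hl i] at h2 ⊢
      rw [c5_val _ _ ((Valuation.ne_zero_iff _).2 (hx i)) (b i) h2, ← zpow_mul]
      congr 1
      split_ifs <;> ring

/-- Claim M -/
theorem claimM [Infinite k] [Nonempty ι] (htors : ∀ c : k, c ≠ 0 → Tors (algebraMap k F c))
    (x : ι → F) (hx : ∀ i, x i ≠ 0) (hdep : ¬ AlgebraicIndependent k x) :
    Dec (fun i _ => x i : ι → Fam k F) := by
  have key : ∀ S : Finset ι, ∀ b : ι → Bool,
      Dec (fun i l => if i ∈ S then x i else c5_pm k (x i) (b i) l : ι → Fam k F) := by
    intro S
    induction S using Finset.induction_on with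
    | empty =>
      intro b
      have := c5_base htors x hx hdep b
      convert this using 2
      funext l
      simp
    | insert i S hi ih =>
      intro b
      refine Dec.add 1 (-1) (ih (update b i true)) (ih (update b i false)) ?_
      have hden := (c5_den_rat (k := k) (x i) (hx i)).ne_zero
      refine hden.mono fun l hl T hT => ?_
      set y : ι → F := fun j => if j ∈ S then x j else c5_pm k (x j) (b j) l with hy
      have e0 : (fun j => if j ∈ insert i S then x j else c5_pm k (x j) (b j) l) =
          update y i (c5_pm k (x i) true l / c5_pm k (x i) false l) := by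
        funext j
        by_cases hj : j = i
        · subst hj
          simp only [Finset.mem_insert_self, if_true, update_self]
          simp only [c5_pm, if_true, Bool.false_eq_true, if_false]
          field_simp
        · simp [hj, hy]
      have e1 : ∀ c : Bool, (fun j => if j ∈ S then x j else c5_pm k (x j) (update b i c j) l) =
          update y i (c5_pm k (x i) c l) := by
        intro c
        funext j
        by_cases hj : j = i
        · subst hj
          simp [hi]
        · simp [hj, hy]
      have hne : ∀ c : Bool, c5_pm k (x i) c l ≠ 0 := by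
        intro c
        refine div_ne_zero ?_ hl
        cases c <;> simp [hx i]
      beta_reduce
      rw [e0, e1, e1, hT.div y i (hne true) (hne false)]
      push_cast
      ring
  have := key Finset.univ (fun _ => true)
  convert this using 2
  simp
end C

end Pool.Agent.KM
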