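import Pool.Agent.KM.Defs

/-!
Project KM (MP_27fd67_ag), row KM-D1: finite subfields, descent of surjectivity, torsion.
-/

set_option autoImplicit false

open Function

namespace Pool.Agent.KM

theorem exists_subfield (p : ℕ) [Fact p.Prime] (k : Type) [Field k] [CharP k p]
    [Algebra (ZMod p) k] [Algebra.IsAlgebraic (ZMod p) k] [Infinite k] (S : Finset k) (q₀ : ℕ) :
    ∃ K : Subfield k, Finite K ∧ (∀ a ∈ S, a ∈ K) ∧ q₀ ≤ Nat.card K := by
  classical
  obtain ⟨T, hT⟩ := Infinite.exists_subset_card_eq k q₀
  set U : Set k := ((S ∪ T : Finset k) : Set k) with hU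
  have : Finite U := (S ∪ T).finite_toSet
  have : FiniteDimensional (ZMod p) (IntermediateField.adjoin (ZMod p) U) :=
    IntermediateField.finiteDimensional_adjoin fun x _ =>
      (Algebra.IsAlgebraic.isAlgebraic x).isIntegral
  have hfin : Finite (IntermediateField.adjoin (ZMod p) U) :=
    Module.finite_of_finite (ZMod p)
  have hsub : ∀ a ∈ U, a ∈ IntermediateField.adjoin (ZMod p) U := fun a ha =>
    IntermediateField.subset_adjoin (ZMod p) U ha
  refine ⟨(IntermediateField.adjoin (ZMod p) U).toSubfield, hfin, fun a ha => ?_, ?_⟩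
  · exact hsub a (by rw [hU]; simp [ha])
  · rw [← hT]
    have hinj : Function.Injective (fun t : T =>
        (⟨(t : k), hsub t (by rw [hU]; simp)⟩ : IntermediateField.adjoin (ZMod p) U)) := by
      intro a b hab
      exact Subtype.ext (congrArg (Subtype.val : IntermediateField.adjoin (ZMod p) U → k) hab)
    have h := Nat.card_le_card_of_injective _ hinj
    rw [Nat.card_eq_fintype_card, Fintype.card_coe] at h
    exact h

/-- surjectivity of a matrix descends to a subfield -/
theorem surj_descend {K k : Type} [Field K] [Field k] [Algebra K k] {m n : Type} [Fintype m]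
    [Fintype n] (A : Matrix m n K) (h : Surjective (A.map (algebraMap K k)).mulVecLin) :
    Surjective A.mulVecLin := by
  classical
  by_contra hns
  have hlt : LinearMap.range A.mulVecLin < ⊤ := by
    rw [lt_top_iff_ne_top]
    intro htop
    exact hns (LinearMap.range_eq_top.mp htop)
  obtain ⟨f, hf0, hf⟩ := Submodule.exists_le_ker_of_lt_top _ hlt
  apply hf0
  -- the coordinates of the functional
  have hfw : ∀ v : m → K, f v = ∑ i, v i * f (Pi.single i 1) := by
    intro v
    conv_lhs => rw [pi_eq_sum_univ' v]
    rw [map_sum]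
    refine Finset.sum_congr rfl fun i _ => ?_
    rw [map_smul, smul_eq_mul]
  have hcol : ∀ j : n, ∑ i, A i j * f (Pi.single i 1) = 0 := by
    intro j
    have h1 : f (A.mulVecLin (Pi.single j 1)) = 0 := hf ⟨_, rfl⟩
    rw [hfw] at h1
    simpa [Matrix.mulVecLin_apply, Matrix.mulVec_single] using h1
  have hcol' : ∀ j : n, ∑ i, algebraMap K k (A i j) * algebraMap K k (f (Pi.single i 1)) = 0 := by
    intro j
    have := congrArg (algebraMap K k) (hcol j)
    simpa [map_sum, map_mul] using this
  have hall : ∀ u : n → k,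
      ∑ i, ((A.map (algebraMap K k)).mulVecLin u) i * algebraMap K k (f (Pi.single i 1)) = 0 := by
    intro u
    simp only [Matrix.mulVecLin_apply, Matrix.mulVec, dotProduct, Matrix.map_apply,
      Finset.sum_mul]
    rw [Finset.sum_comm]
    refine Finset.sum_eq_zero fun j _ => ?_
    have : ∀ i, algebraMap K k (A i j) * u j * algebraMap K k (f (Pi.single i 1)) =
        u j * (algebraMap K k (A i j) * algebraMap K k (f (Pi.single i 1))) := fun i => by ring
    simp only [this]
    rw [← Finset.mul_sum, hcol' j, mul_zero]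
  have hw : ∀ i : m, f (Pi.single i 1) = 0 := by
    intro i
    obtain ⟨u, hu⟩ := h (Pi.single i 1)
    have h1 := hall u
    rw [hu] at h1
    have h2 : algebraMap K k (f (Pi.single i 1)) = 0 := by
      simpa [Pi.single_apply] using h1
    exact (map_eq_zero _).mp h2
  ext i
  simp [hw]

theorem tors_of_algebraic (p : ℕ) [Fact p.Prime] (k F : Type) [Field k] [Field F] [Algebra k F]
    [Algebra (ZMod p) k] [Algebra.IsAlgebraic (ZMod p) k] (c : k) (hc : c ≠ 0) :
    Tors (algebraMap k F c) := by
  have : FiniteDimensional (ZMod p) (IntermediateField.adjoin (ZMod p) ({c} : Set k)) :=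
    IntermediateField.adjoin.finiteDimensional (Algebra.IsAlgebraic.isAlgebraic c).isIntegral
  have hfin : Finite (IntermediateField.adjoin (ZMod p) ({c} : Set k)) :=
    Module.finite_of_finite (ZMod p)
  set c' : IntermediateField.adjoin (ZMod p) ({c} : Set k) :=
    ⟨c, IntermediateField.mem_adjoin_simple_self (ZMod p) c⟩ with hc'
  have hc0 : c' ≠ 0 := fun h => hc (congrArg
    (Subtype.val : IntermediateField.adjoin (ZMod p) ({c} : Set k) → k) h)
  have h1 : IsOfFinOrder (Units.mk0 c' hc0) := isOfFinOrder_of_finite _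
  obtain ⟨N, hN, hpow⟩ := isOfFinOrder_iff_pow_eq_one.mp h1
  refine ⟨N, hN, ?_⟩
  have h2 : c' ^ N = 1 := by
    have := congrArg (fun z : (IntermediateField.adjoin (ZMod p) ({c} : Set k))ˣ =>
      (z : IntermediateField.adjoin (ZMod p) ({c} : Set k))) hpow
    simpa using this
  have h3 : c ^ N = 1 := by
    have := congrArg (Subtype.val : IntermediateField.adjoin (ZMod p) ({c} : Set k) → k) h2
    simpa [hc'] using this
  rw [← map_pow, h3, map_one]

end Pool.Agent.KM
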