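import Pool.Agent.KM.Defs

/-!
Project KM, file M4: fixing some of the entries of a functional of Milnor type.
-/

set_option autoImplicit false

open Function

namespace Pool.Agent.KM

private theorem m4_update_extend {F ι κ : Type} [DecidableEq ι] [DecidableEq κ] (e : κ → ι)
    (he : Injective e) (y : κ → F) (z : ι → F) (i : κ) (a : F) :
    extend e (update y i a) z = update (extend e y z) (e i) a := by
  funext j
  by_cases hj : j = e i
  · subst hj
    rw [he.extend_apply, update_self, update_self]
  · rw [update_of_ne hj]
    by_cases h : ∃ l, e l = j
    · obtain ⟨l, rfl⟩ := h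
      rw [he.extend_apply, he.extend_apply, update_of_ne fun h => hj (congrArg e h)]
    · rw [extend_apply' _ _ _ h, extend_apply' _ _ _ h]

theorem IsM.freeze {F ι κ : Type} [Field F] [DecidableEq ι] [DecidableEq κ] {T : (ι → F) → ℝ}
    (hT : IsM T) (e : κ → ι) (he : Injective e) (z : ι → F) :
    IsM (fun y : κ → F => T (extend e y z)) where
  zero := fun y i hi => hT.zero _ (e i) (by rw [he.extend_apply]; exact hi)
  mul := fun y i a b ha hb => by
    simp only [m4_update_extend e he]
    exact hT.mul _ _ a b ha hb
  st := fun y i j hij h => hT.st _ (e i) (e j) (fun h' => hij (he h'))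
    (by rw [he.extend_apply, he.extend_apply]; exact h)

private theorem m4_update_elim {F ι : Type} [DecidableEq ι] (a : F) (y : ι → F) (i : ι) (b : F) :
    (fun o : Option ι => o.elim a (update y i b)) =
      update (fun o : Option ι => o.elim a y) (some i) b := by
  funext o
  cases o with
  | none => rfl
  | some j =>
    by_cases hj : j = i
    · subst hj
      rw [update_self]
      exact update_self _ _ _
    · rw [update_of_ne fun h => hj (Option.some.inj h)]
      exact update_of_ne hj _ _

theorem IsM.fixNone {F ι : Type} [Field F] [DecidableEq ι] {T : (Option ι → F) → ℝ}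
    (hT : IsM T) (a : F) : IsM (fun y : ι → F => T (fun o => o.elim a y)) where
  zero := fun y i hi => hT.zero _ (some i) hi
  mul := fun y i b c hb hc => by
    simp only [m4_update_elim]
    exact hT.mul _ _ b c hb hc
  st := fun y i j hij h => hT.st _ (some i) (some j) (fun h' => hij (Option.some.inj h')) h

end Pool.Agent.KM
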