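import Pool.Agent.KM.MBasic
import Pool.Agent.KM.MFace
import Pool.Agent.KM.MFreeze
import Pool.Agent.KM.DField
import Pool.Agent.KM.BBase

set_option autoImplicit false

open Function

namespace Pool.Agent.KM

/-! ### the bilinear map given by structure constants -/

/-- The bilinear map with the structure constants `γ`. -/
def d2bil {K : Type} [Field K] {h w : ℕ} (γ : Fin h → Fin h → Fin w → K) :
    (Fin h → K) →ₗ[K] (Fin h → K) →ₗ[K] (Fin w → K) :=
  LinearMap.mk₂ K (fun u v l => ∑ j, ∑ j', γ j j' l * (u j * v j'))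
    (by
      intro u u' v
      funext l
      simp only [Pi.add_apply, ← Finset.sum_add_distrib]
      refine Finset.sum_congr rfl fun j _ => Finset.sum_congr rfl fun j' _ => ?_
      ring)
    (by
      intro a u v
      funext l
      simp only [Pi.smul_apply, smul_eq_mul, Finset.mul_sum]
      refine Finset.sum_congr rfl fun j _ => Finset.sum_congr rfl fun j' _ => ?_
      ring)
    (by
      intro u v v'
      funext l
      simp only [Pi.add_apply, ← Finset.sum_add_distrib]
      refine Finset.sum_congr rfl fun j _ => Finset.sum_congr rfl fun j' _ => ?_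
      ring)
    (by
      intro a u v
      funext l
      simp only [Pi.smul_apply, smul_eq_mul, Finset.mul_sum]
      refine Finset.sum_congr rfl fun j _ => Finset.sum_congr rfl fun j' _ => ?_
      ring)

lemma d2bil_apply {K : Type} [Field K] {h w : ℕ} (γ : Fin h → Fin h → Fin w → K)
    (u v : Fin h → K) (l : Fin w) :
    d2bil γ u v l = ∑ j, ∑ j', γ j j' l * (u j * v j') := rfl

/-- The combination of the `b j` with coefficients `v j`. -/
def d2phi {K F : Type} [Field K] [Field F] {h : ℕ} (ρ : K →+* F) (b : Fin h → F)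
    (v : Fin h → K) : F := ∑ j, ρ (v j) * b j

lemma d2phi_sum {K F I : Type} [Field K] [Field F] {h : ℕ} (ρ : K →+* F) (b : Fin h → F)
    (s : Finset I) (f : I → Fin h → K) :
    d2phi ρ b (∑ i ∈ s, f i) = ∑ i ∈ s, d2phi ρ b (f i) := by
  unfold d2phi
  rw [Finset.sum_comm]
  refine Finset.sum_congr rfl fun j _ => ?_
  rw [Finset.sum_apply, map_sum, Finset.sum_mul]

lemma d2phi_bil {K F : Type} [Field K] [Field F] {h w : ℕ} (ρ : K →+* F) (b : Fin h → F)
    (b' : Fin w → F) (γ : Fin h → Fin h → Fin w → K)
    (hγ : ∀ j j', b j * b j' = ∑ l, ρ (γ j j' l) * b' l) (u v : Fin h → K) :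
    d2phi ρ b' (d2bil γ u v) = d2phi ρ b u * d2phi ρ b v := by
  unfold d2phi
  rw [Finset.sum_mul_sum]
  have e : ∀ j j', ρ (u j) * b j * (ρ (v j') * b j') =
      ∑ l, ρ (γ j j' l * (u j * v j')) * b' l := by
    intro j j'
    calc ρ (u j) * b j * (ρ (v j') * b j') = ρ (u j) * ρ (v j') * (b j * b j') := by ring
      _ = ∑ l, ρ (γ j j' l * (u j * v j')) * b' l := by
        rw [hγ, Finset.mul_sum]
        refine Finset.sum_congr rfl fun l _ => ?_
        rw [map_mul, map_mul]
        ring
  have e2 : ∀ l, ρ (d2bil γ u v l) * b' l =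
      ∑ j, ∑ j', ρ (γ j j' l * (u j * v j')) * b' l := by
    intro l
    rw [d2bil_apply, map_sum, Finset.sum_mul]
    refine Finset.sum_congr rfl fun j _ => ?_
    rw [map_sum, Finset.sum_mul]
  simp only [e, e2]
  rw [Finset.sum_comm]
  refine Finset.sum_congr rfl fun j _ => ?_
  rw [Finset.sum_comm]

lemma d2_gen_apply {K V W I : Type} [Field K] [AddCommGroup V] [Module K V] [AddCommGroup W]
    [Module K W] (β : V →ₗ[K] V →ₗ[K] W) (D : Finset I) (x u : I → V) :
    gen β D x u = ∑ i ∈ D, β (x i) (u i) := by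
  unfold gen
  rw [LinearMap.sum_apply]
  rfl

/-- the vanishing for tuples with coordinates in the finite field -/
lemma d2_main {K F κ : Type} [Field K] [Field F] [Fintype κ] [DecidableEq κ]
    {h w s : ℕ} (ρ : K →+* F) (b : Fin h → F) (b' : Fin w → F)
    (γ : Fin h → Fin h → Fin w → K)
    (hγ : ∀ j j', b j * b j' = ∑ l, ρ (γ j j' l) * b' l)
    (hinj : ∀ v : Fin h → K, d2phi ρ b v = 0 → v = 0)
    (hbase : ∀ U : (Option κ → Fin h → K) → ℝ, (∀ x, ¬ Good (d2bil γ) s x → U x = 0) →
      (∀ x x' : Option κ → Fin h → K, gen (d2bil γ) Finset.univ x x' = 0 →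
        (∀ P : Finset (Option κ), Good (d2bil γ) s (P.piecewise x' x)) →
        ∑ P : Finset (Option κ), U (P.piecewise x' x) = 0) → ∀ x, U x = 0)
    (T : (κ → F) → ℝ) (hT : IsM T) (x : Option κ → Fin h → K) (hx : Good (d2bil γ) s x) :
    T (fun i => d2phi ρ b (x (some i)) / d2phi ρ b (x none)) = 0 := by
  classical
  have key := hbase
    (fun y => if Good (d2bil γ) s y then
      T (fun i => d2phi ρ b (y (some i)) / d2phi ρ b (y none)) else 0)
    (fun y hy => if_neg hy)
    (by
      intro y y' hsyz hgood
      have hne : ∀ o, d2phi ρ b (y o) ≠ 0 := by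
        intro o h0
        have h1 := (hgood ∅).1 o
        rw [Finset.piecewise_empty] at h1
        exact h1 (hinj _ h0)
      have hne' : ∀ o, d2phi ρ b (y' o) ≠ 0 := by
        intro o h0
        have h1 := (hgood Finset.univ).1 o
        rw [Finset.piecewise_univ] at h1
        exact h1 (hinj _ h0)
      have hsum : ∑ o, d2phi ρ b (y o) * d2phi ρ b (y' o) = 0 := by
        rw [d2_gen_apply] at hsyz
        calc ∑ o, d2phi ρ b (y o) * d2phi ρ b (y' o)
            = ∑ o, d2phi ρ b' (d2bil γ (y o) (y' o)) :=
              Finset.sum_congr rfl fun o _ => (d2phi_bil ρ b b' γ hγ _ _).symm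
          _ = d2phi ρ b' (∑ o, d2bil γ (y o) (y' o)) := (d2phi_sum ρ b' _ _).symm
          _ = 0 := by
            rw [hsyz]
            unfold d2phi
            refine Finset.sum_eq_zero fun j _ => ?_
            rw [Pi.zero_apply, map_zero, zero_mul]
      have hface := hT.face_sum (fun o => d2phi ρ b (y o)) (fun o => d2phi ρ b (y' o)) hne hne'
        hsum
      refine Eq.trans ?_ hface
      refine Finset.sum_congr rfl fun P _ => ?_
      have hp : ∀ o, d2phi ρ b (P.piecewise y' y o) =
          P.piecewise (fun o => d2phi ρ b (y' o)) (fun o => d2phi ρ b (y o)) o := by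
        intro o
        by_cases ho : o ∈ P
        · rw [Finset.piecewise_eq_of_mem _ _ _ ho, Finset.piecewise_eq_of_mem _ _ _ ho]
        · rw [Finset.piecewise_eq_of_notMem _ _ _ ho, Finset.piecewise_eq_of_notMem _ _ _ ho]
      change (if Good (d2bil γ) s (P.piecewise y' y) then
        T (fun i => d2phi ρ b (P.piecewise y' y (some i)) /
          d2phi ρ b (P.piecewise y' y none)) else 0) = _
      rw [if_pos (hgood P)]
      simp only [hp])
    x
  rwa [if_pos hx] at key

/-- elements of `span (c '' D) * V` -/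
lemma d2_mem_mul {k F I : Type} [Field k] [Field F] [Algebra k F] (V : Submodule k F)
    (D : Finset I) (c : I → F) (f : F)
    (hf : f ∈ Submodule.span k (c '' (D : Set I)) * V) :
    ∃ u : I → V, f = ∑ i ∈ D, c i * (u i : F) := by
  classical
  let Φ : (I → V) →ₗ[k] F :=
    ∑ i ∈ D, (LinearMap.mulLeft k (c i)).comp (V.subtype.comp (LinearMap.proj i))
  have hΦ : ∀ u : I → V, Φ u = ∑ i ∈ D, c i * (u i : F) := by
    intro u
    simp only [Φ, LinearMap.sum_apply]
    rfl
  have hle : Submodule.span k (c '' (D : Set I)) * V ≤ LinearMap.range Φ := by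
    rw [Submodule.mul_le]
    intro m hm n hn
    induction hm using Submodule.span_induction with
    | mem m hm =>
      obtain ⟨i, hi, rfl⟩ := hm
      refine ⟨Pi.single i ⟨n, hn⟩, ?_⟩
      rw [hΦ, Finset.sum_eq_single i]
      · rw [Pi.single_eq_same]
      · intro j _ hj
        rw [Pi.single_eq_of_ne hj]
        simp
      · intro h
        exact absurd hi h
    | zero =>
      rw [zero_mul]
      exact Submodule.zero_mem _
    | add m m' _ _ h1 h2 =>
      rw [add_mul]
      exact Submodule.add_mem _ h1 h2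
    | smul a m _ h1 =>
      rw [smul_mul_assoc]
      exact Submodule.smul_mem _ a h1
  obtain ⟨u, hu⟩ := hle hf
  exact ⟨u, by rw [← hu, hΦ]⟩

/-- The matrix of `gen`. -/
def d2mat {K I : Type} [Field K] [DecidableEq I] {h w : ℕ} (γ : Fin h → Fin h → Fin w → K)
    (D : Finset I) (x : I → Fin h → K) : Matrix (Fin w) (I × Fin h) K :=
  fun l q => if q.1 ∈ D then ∑ j, γ j q.2 l * x q.1 j else 0

lemma d2mat_mulVec {K I : Type} [Field K] [DecidableEq I] [Fintype I] {h w : ℕ}
    (γ : Fin h → Fin h → Fin w → K) (D : Finset I) (x : I → Fin h → K) (q : I × Fin h → K) :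
    (d2mat γ D x).mulVec q = gen (d2bil γ) D x (fun i j => q (i, j)) := by
  funext l
  rw [d2_gen_apply, Finset.sum_apply, Matrix.mulVec, dotProduct, Fintype.sum_prod_type,
    ← Finset.sum_subset (Finset.subset_univ D)]
  · refine Finset.sum_congr rfl fun i hi => ?_
    rw [d2bil_apply, Finset.sum_comm]
    refine Finset.sum_congr rfl fun j' _ => ?_
    rw [d2mat, if_pos hi, Finset.sum_mul]
    refine Finset.sum_congr rfl fun j _ => ?_
    ring
  · intro i _ hi
    refine Finset.sum_eq_zero fun j' _ => ?_
    rw [d2mat, if_neg hi, zero_mul]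

lemma d2mat_map {K k I : Type} [Field K] [Field k] [DecidableEq I] {h w : ℕ} (ρ : K →+* k)
    (γ : Fin h → Fin h → Fin w → K) (D : Finset I) (x : I → Fin h → K) :
    (d2mat γ D x).map ρ = d2mat (fun j j' l => ρ (γ j j' l)) D (fun i j => ρ (x i j)) := by
  ext l q
  rw [Matrix.map_apply, d2mat, d2mat]
  by_cases hq : q.1 ∈ D
  · rw [if_pos hq, if_pos hq, map_sum]
    refine Finset.sum_congr rfl fun j _ => ?_
    rw [map_mul]
  · rw [if_neg hq, if_neg hq, map_zero]

lemma d2phi_basis {k F : Type} [Field k] [Field F] [Algebra k F] (V : Submodule k F) {h : ℕ}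
    (b : Module.Basis (Fin h) k V) (v : Fin h → k) :
    d2phi (algebraMap k F) (fun j => (b j : F)) v = (b.equivFun.symm v : V) := by
  rw [Module.Basis.equivFun_symm_apply, Submodule.coe_sum]
  unfold d2phi
  refine Finset.sum_congr rfl fun j _ => ?_
  rw [Submodule.coe_smul, Algebra.smul_def]

/-- generation descends to the finite field -/
lemma d2_good {K k F I : Type} [Field K] [Field k] [Field F] [Algebra K k] [Algebra k F]
    [Fintype I] [DecidableEq I] (V W : Submodule k F) {h w : ℕ} (bV : Module.Basis (Fin h) k V)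
    (bW : Module.Basis (Fin w) k W) (γ : Fin h → Fin h → Fin w → K)
    (hγ : ∀ j j', (bV j : F) * bV j' =
      ∑ l, algebraMap k F (algebraMap K k (γ j j' l)) * (bW l : F))
    (x : I → Fin h → K) (c : I → F)
    (hx : ∀ i, c i = d2phi (algebraMap k F) (fun j => (bV j : F))
      (fun j => algebraMap K k (x i j)))
    (D : Finset I) (hgen : W ≤ Submodule.span k (c '' (D : Set I)) * V) :
    Surjective (gen (d2bil γ) D x) := by
  have hA : Surjective ((d2mat γ D x).map (algebraMap K k)).mulVecLin := by
    intro y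
    obtain ⟨u, hu⟩ := d2_mem_mul V D c (bW.equivFun.symm y : W)
      (hgen (bW.equivFun.symm y : W).2)
    refine ⟨fun q => bV.equivFun (u q.1) q.2, ?_⟩
    rw [Matrix.mulVecLin_apply, d2mat_map, d2mat_mulVec]
    apply bW.equivFun.symm.injective
    apply Subtype.ext
    rw [← d2phi_basis W bW, hu, d2_gen_apply, d2phi_sum]
    refine Finset.sum_congr rfl fun i _ => ?_
    rw [d2phi_bil (algebraMap k F) (fun j => (bV j : F)) (fun l => (bW l : F)) _ hγ, ← hx i,
      d2phi_basis V bV]
    congr 2
    exact bV.equivFun.symm_apply_apply (u i)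
  intro y
  obtain ⟨u, hu⟩ := surj_descend _ hA y
  rw [Matrix.mulVecLin_apply, d2mat_mulVec] at hu
  exact ⟨_, hu⟩

/-- the case of the index set `Option κ` -/
lemma d2_option (p : ℕ) [Fact p.Prime] (k F κ : Type) [Field k] [Field F] [Algebra k F]
    [CharP k p] [Algebra (ZMod p) k] [Algebra.IsAlgebraic (ZMod p) k] [Infinite k] [Fintype κ]
    [DecidableEq κ] (V W : Submodule k F) [FiniteDimensional k V] [FiniteDimensional k W]
    (hVW : V * V ≤ W) (s : ℕ) (hs1 : 1 ≤ s) (hs : 2 * s + 1 ≤ Fintype.card (Option κ))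
    (c : Option κ → F) (hc : ∀ i, c i ∈ V) (hc0 : ∀ i, c i ≠ 0)
    (hgen : ∀ D : Finset (Option κ), D.card = s → W ≤ Submodule.span k (c '' D) * V)
    (T : (Option κ → F) → ℝ) (hT : IsM T) : T c = 0 := by
  classical
  obtain ⟨q₀, hq⟩ := base_thm (Fintype.card (Option κ)) s (Module.finrank k W) hs1 hs
  let bV := Module.finBasis k V
  let bW := Module.finBasis k W
  have hmem : ∀ j j', (bV j : F) * bV j' ∈ W :=
    fun j j' => hVW (Submodule.mul_mem_mul (bV j).2 (bV j').2)
  let γk : Fin (Module.finrank k V) → Fin (Module.finrank k V) → Fin (Module.finrank k W) → k :=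
    fun j j' l => bW.equivFun ⟨_, hmem j j'⟩ l
  let ck : Option κ → Fin (Module.finrank k V) → k := fun i j => bV.equivFun ⟨c i, hc i⟩ j
  let S : Finset k := (Finset.univ.image fun q : Fin (Module.finrank k V) ×
      Fin (Module.finrank k V) × Fin (Module.finrank k W) => γk q.1 q.2.1 q.2.2) ∪
    (Finset.univ.image fun q : Option κ × Fin (Module.finrank k V) => ck q.1 q.2)
  obtain ⟨K, hK, hSK, hcard⟩ := exists_subfield p k S q₀
  have hKf : Fintype K := Fintype.ofFinite K
  let γ : Fin (Module.finrank k V) → Fin (Module.finrank k V) → Fin (Module.finrank k W) → K :=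
    fun j j' l => ⟨γk j j' l, hSK _ (Finset.mem_union_left _
      (Finset.mem_image.2 ⟨(j, j', l), Finset.mem_univ _, rfl⟩))⟩
  let xc : Option κ → Fin (Module.finrank k V) → K :=
    fun i j => ⟨ck i j, hSK _ (Finset.mem_union_right _
      (Finset.mem_image.2 ⟨(i, j), Finset.mem_univ _, rfl⟩))⟩
  have hγ : ∀ j j', (bV j : F) * bV j' =
      ∑ l, algebraMap k F (algebraMap K k (γ j j' l)) * (bW l : F) := by
    intro j j'
    have h1 := d2phi_basis W bW (fun l => γk j j' l)
    have h2 : bW.equivFun.symm (fun l => γk j j' l) = ⟨_, hmem j j'⟩ :=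
      bW.equivFun.symm_apply_apply _
    rw [h2] at h1
    exact h1.symm
  have hx : ∀ i, c i = d2phi (algebraMap k F) (fun j => (bV j : F))
      (fun j => algebraMap K k (xc i j)) := by
    intro i
    have h1 := d2phi_basis V bV (fun j => ck i j)
    have h2 : bV.equivFun.symm (fun j => ck i j) = ⟨c i, hc i⟩ :=
      bV.equivFun.symm_apply_apply _
    rw [h2] at h1
    exact h1.symm
  let ρ : K →+* F := (algebraMap k F).comp (algebraMap K k)
  have hinj : ∀ v : Fin (Module.finrank k V) → K, d2phi ρ (fun j => (bV j : F)) v = 0 → v = 0 := by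
    intro v hv
    have h1 := d2phi_basis V bV (fun j => algebraMap K k (v j))
    have h2 : d2phi (algebraMap k F) (fun j => (bV j : F)) (fun j => algebraMap K k (v j)) = 0 :=
      hv
    rw [h2] at h1
    have h3 : bV.equivFun.symm (fun j => algebraMap K k (v j)) = 0 := Subtype.ext h1.symm
    rw [LinearEquiv.map_eq_zero_iff] at h3
    funext j
    have h4 := congrFun h3 j
    exact (algebraMap K k).injective (by rw [h4]; simp)
  have hgood : Good (d2bil γ) s xc := by
    refine ⟨fun i h0 => hc0 i ?_, fun D hD => d2_good V W bV bW γ hγ xc c hx D (hgen D hD)⟩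
    rw [hx i, h0]
    unfold d2phi
    refine Finset.sum_eq_zero fun j _ => ?_
    simp
  have hT' : IsM (fun y : κ → F => T (fun o => o.elim (c none) y)) := hT.fixNone (c none)
  have hmain := d2_main ρ (fun j => (bV j : F)) (fun l => (bW l : F)) γ hγ hinj
    (hq K (Fin (Module.finrank k V) → K) (Fin (Module.finrank k W) → K) (Option κ) (d2bil γ)
      (by
        intro u v
        funext l
        rw [d2bil_apply, d2bil_apply, Finset.sum_comm]
        refine Finset.sum_congr rfl fun j _ => Finset.sum_congr rfl fun j' _ => ?_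
        have e : γ j' j l = γ j j' l := by
          apply Subtype.ext
          have e0 : (⟨_, hmem j' j⟩ : W) = ⟨_, hmem j j'⟩ := Subtype.ext (mul_comm _ _)
          change bW.equivFun ⟨_, hmem j' j⟩ l = bW.equivFun ⟨_, hmem j j'⟩ l
          rw [e0]
        rw [e]
        ring)
      (by rw [Module.finrank_fin_fun]) rfl
      (by rw [← Nat.card_eq_fintype_card]; exact hcard))
    (fun y : κ → F => T (fun o => o.elim (c none) y)) hT' xc hgood
  have hdiv := hT.div_all c none hc0
  rw [← hdiv]
  have e : (fun i => if i = none then c i else c i / c none) =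
      fun o : Option κ => o.elim (c none) (fun i => d2phi ρ (fun j => (bV j : F)) (xc (some i)) /
        d2phi ρ (fun j => (bV j : F)) (xc none)) := by
    funext o
    cases o with
    | none => rfl
    | some i =>
      have h1 : d2phi ρ (fun j => (bV j : F)) (xc (some i)) = c (some i) := (hx (some i)).symm
      have h2 : d2phi ρ (fun j => (bV j : F)) (xc none) = c none := (hx none).symm
      rw [if_neg (Option.some_ne_none i)]
      change _ = d2phi ρ (fun j => (bV j : F)) (xc (some i)) /
        d2phi ρ (fun j => (bV j : F)) (xc none)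
      rw [h1, h2]
  rw [e]
  exact hmain

/-- good tuples over `k`: the elements `c_g` span-generate: -/
theorem good_zero (p : ℕ) [Fact p.Prime] (k F ι : Type) [Field k] [Field F] [Algebra k F]
    [CharP k p] [Algebra (ZMod p) k] [Algebra.IsAlgebraic (ZMod p) k] [Infinite k] [Fintype ι]
    [DecidableEq ι] (V W : Submodule k F) [FiniteDimensional k V] [FiniteDimensional k W]
    (hVW : V * V ≤ W) (s : ℕ) (hs1 : 1 ≤ s) (hs : 2 * s + 1 ≤ Fintype.card ι)
    (c : ι → F) (hc : ∀ i, c i ∈ V) (hc0 : ∀ i, c i ≠ 0)
    (hgen : ∀ D : Finset ι, D.card = s → W ≤ Submodule.span k (c '' D) * V)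
    (T : (ι → F) → ℝ) (hT : IsM T) : T c = 0 := by
  classical
  obtain ⟨m, hm⟩ : ∃ m, Fintype.card ι = m + 1 := ⟨Fintype.card ι - 1, by omega⟩
  have e : Option (Fin m) ≃ ι := Fintype.equivOfCardEq (by
    rw [Fintype.card_option, Fintype.card_fin, hm])
  have hT' : IsM (fun y : Option (Fin m) → F => T (fun i => y (e.symm i))) := by
    refine ⟨fun y i hi => hT.zero _ (e i) (by rw [e.symm_apply_apply]; exact hi), ?_,
      fun y i j hij h => hT.st _ (e i) (e j) (fun h' => hij (e.injective h')) (by
        rw [e.symm_apply_apply, e.symm_apply_apply]; exact h)⟩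
    intro y i a b ha hb
    have hu : ∀ t : F, (fun j => update y i t (e.symm j)) =
        update (fun j => y (e.symm j)) (e i) t := by
      intro t
      funext j
      by_cases hj : j = e i
      · subst hj
        rw [e.symm_apply_apply, update_self, update_self]
      · rw [update_of_ne hj, update_of_ne]
        intro h
        apply hj
        rw [← h, e.apply_symm_apply]
    rw [hu, hu, hu]
    exact hT.mul _ _ a b ha hb
  have h := d2_option p k F (Fin m) V W hVW s hs1 (by
      rw [Fintype.card_option, Fintype.card_fin]; omega) (fun i => c (e i)) (fun i => hc _)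
    (fun i => hc0 _) (by
      intro D hD
      have h1 := hgen (D.map e.toEmbedding) (by rw [Finset.card_map, hD])
      have h2 : c '' (D.map e.toEmbedding : Finset ι) = (fun i => c (e i)) '' (D : Set _) := by
        rw [Finset.coe_map, Set.image_image]
        rfl
      rwa [h2] at h1) _ hT'
  have h3 : (fun i => c (e (e.symm i))) = c := by
    funext i
    rw [e.apply_symm_apply]
  rw [h3] at h
  exact h

end Pool.Agent.KM
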