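import Pool.Agent.KM.Defs
import Pool.Agent.KM.DField
import Pool.Agent.KM.MFace
import Pool.Agent.KM.AMilnor
import Pool.Agent.KM.ABase

/-!
Project KM2 (MP_27fd67_ag), row D3: good tuples, root group form (helper60).
-/

set_option autoImplicit false

open Function

namespace Pool.Agent.KM

section finite
variable {K V W ι F : Type} [Field K] [AddCommGroup V] [Module K V] [AddCommGroup W]
  [Module K W] [Fintype ι] [DecidableEq ι] [Field F] (β : V →ₗ[K] V →ₗ[K] W)

private theorem d3_gen_perm {I : Type} [Fintype I] [DecidableEq I] (σ : Equiv.Perm I)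
    (x u : I → V) (i : I) :
    gen β {i}ᶜ (x ∘ σ) (u ∘ σ) = gen β {σ i}ᶜ x u := by
  unfold gen
  simp only [LinearMap.coe_sum, Finset.sum_apply, LinearMap.comp_apply, LinearMap.proj_apply,
    comp_apply]
  refine Finset.sum_bij' (fun l _ => σ l) (fun l _ => σ.symm l) ?_ ?_ ?_ ?_ ?_
  · intro l hl
    simpa using hl
  · intro l hl
    simp only [Finset.mem_compl, Finset.mem_singleton] at hl ⊢
    intro h
    apply hl
    rw [← h]
    simp
  · intro l _; simp
  · intro l _; simp
  · intro l _; rfl

private theorem d3_GG_perm {I : Type} [Fintype I] [DecidableEq I] (σ : Equiv.Perm I)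
    (x : I → V) (hx : GG β x) : GG β (x ∘ σ) := by
  refine ⟨fun i => hx.1 (σ i), fun i w => ?_⟩
  obtain ⟨u, hu⟩ := hx.2 (σ i) w
  exact ⟨u ∘ σ, by rw [d3_gen_perm, hu]⟩

/-- the value of a Milnor functional on good tuples over a large finite field is zero -/
theorem d3_fin (n w q₀ : ℕ)
    (hq : ∀ (K V W I : Type) [Field K] [Fintype K] [AddCommGroup V] [Module K V] [Finite V]
      [AddCommGroup W] [Module K W] [Finite W] [Fintype I] [DecidableEq I]
      (β : V →ₗ[K] V →ₗ[K] W), (∀ a b, β a b = β b a) → Module.finrank K W = w →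
      Fintype.card I = n → q₀ ≤ Fintype.card K →
      ∀ U : (I → V) → ℝ, (∀ x, ¬ GG β x → U x = 0) → Alt U →
        (∀ x z, GG β x → (∀ i, GG β (update x i z)) → U x = ∑ i, U (update x i z)) →
        (∀ x x' : I → V, gen β Finset.univ x x' = 0 →
          (∀ P : Finset I, GG β (P.piecewise x' x)) →
          ∑ P : Finset I, U (P.piecewise x' x) = 0) →
        ∀ x, U x = 0)
    [Fintype K] [Finite V] [Finite W] (hβ : ∀ a b, β a b = β b a)
    (hw : Module.finrank K W = w) (hn : Fintype.card (Option ι) = n)
    (hK : q₀ ≤ Fintype.card K) (φ : V →+ F) (hφ : Injective φ) (ψ : W →+ F)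
    (hm : ∀ a b, φ a * φ b = ψ (β a b)) (T : (ι → F) → ℝ) (hT : IsM T) (x : Option ι → V)
    (hx : GG β x) : T (fun i => φ (x (some i)) / φ (x none)) = 0 := by
  classical
  have hφ0 : ∀ v, v ≠ 0 → φ v ≠ 0 := by
    intro v hv h
    apply hv
    apply hφ
    rw [h, map_zero]
  set U : (Option ι → V) → ℝ := fun y =>
    if GG β y then T (fun i => φ (y (some i)) / φ (y none)) else 0 with hU
  have h1 : ∀ y, GG β y → U y = T (fun i => φ (y (some i)) / φ (y none)) := fun y hy => by
    simp only [hU]
    rw [if_pos hy]
  have h2 : ∀ y, ¬ GG β y → U y = 0 := fun y hy => by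
    simp only [hU]
    rw [if_neg hy]
  have hAlt : Alt U := by
    intro y o o' ho
    by_cases hy : GG β y
    · rw [h1 _ (d3_GG_perm β _ y hy), h1 _ hy]
      exact IsM.quot_alt hT (fun o => φ (y o)) (fun o => hφ0 _ (hy.1 o)) o o' ho
    · have hy' : ¬ GG β (y ∘ Equiv.swap o o') := by
        intro h
        apply hy
        have h3 := d3_GG_perm β (Equiv.swap o o') _ h
        have h4 : (y ∘ Equiv.swap o o') ∘ Equiv.swap o o' = y := by
          funext l
          simp
        rwa [h4] at h3
      rw [h2 _ hy', h2 _ hy, neg_zero]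
  have hC : ∀ (y : Option ι → V) (z : V), GG β y → (∀ i, GG β (update y i z)) →
      U y = ∑ i, U (update y i z) := by
    intro y z hy hyz
    rw [h1 _ hy, Finset.sum_congr rfl fun o _ => h1 _ (hyz o)]
    have hz : z ≠ 0 := by
      have := (hyz none).1 none
      rwa [update_self] at this
    have h3 := IsM.quot_cocycle hT (fun o => φ (y o)) (fun o => hφ0 _ (hy.1 o)) (φ z) (hφ0 z hz)
    rw [h3]
    refine Finset.sum_congr rfl fun o _ => ?_
    have h4 : ∀ o', update (fun o => φ (y o)) o (φ z) o' = φ (update y o z o') := by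
      intro o'
      by_cases h : o' = o
      · subst h; simp
      · rw [update_of_ne h, update_of_ne h]
    congr 1
    funext i
    rw [h4, h4]
  have hP : ∀ y y' : Option ι → V, gen β Finset.univ y y' = 0 →
      (∀ P : Finset (Option ι), GG β (P.piecewise y' y)) →
      ∑ P : Finset (Option ι), U (P.piecewise y' y) = 0 := by
    intro y y' hs hg
    have hy : ∀ o, y o ≠ 0 := by
      intro o
      have := (hg ∅).1 o
      simpa using this
    have hy' : ∀ o, y' o ≠ 0 := by
      intro o
      have := (hg Finset.univ).1 o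
      simpa using this
    have h3 := IsM.face_sum hT (fun o => φ (y o)) (fun o => φ (y' o)) (fun o => hφ0 _ (hy o))
      (fun o => hφ0 _ (hy' o)) (by
        simp only [hm]
        rw [← map_sum]
        have : ∑ o, β (y o) (y' o) = 0 := by
          unfold gen at hs
          simpa using hs
        rw [this, map_zero])
    rw [← h3]
    refine Finset.sum_congr rfl fun P _ => ?_
    rw [h1 _ (hg P)]
    have h4 : ∀ o, P.piecewise (fun o => φ (y' o)) (fun o => φ (y o)) o =
        φ (P.piecewise y' y o) := by
      intro o
      by_cases h : o ∈ P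
      · simp [h]
      · simp [h]
    congr 1
    funext i
    rw [h4, h4]
  rw [← h1 x hx]
  exact hq K V W (Option ι) β hβ hw hn hK U h2 hAlt hC hP x

end finite

private theorem d3_sum3 {k F : Type} [Field k] [Field F] [Algebra k F] {h w : ℕ} (a b : Fin h → k)
    (m : Fin h → Fin h → Fin w → k) (v : Fin h → F) (z : Fin w → F)
    (hp : ∀ i j, v i * v j = ∑ l, m i j l • z l) :
    (∑ i, a i • v i) * (∑ j, b j • v j) = ∑ l, (∑ i, ∑ j, a i * b j * m i j l) • z l := by
  rw [Finset.sum_mul_sum]
  symm
  simp only [Finset.sum_smul]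
  rw [Finset.sum_comm]
  refine Finset.sum_congr rfl fun i _ => ?_
  rw [Finset.sum_comm]
  refine Finset.sum_congr rfl fun j _ => ?_
  rw [smul_mul_smul_comm, hp, Finset.smul_sum]
  exact Finset.sum_congr rfl fun l _ => by rw [smul_smul]

theorem good_zero2 (p : ℕ) [Fact p.Prime] (k F ι : Type) [Field k] [Field F] [Algebra k F]
    [CharP k p] [Algebra (ZMod p) k] [Algebra.IsAlgebraic (ZMod p) k] [Infinite k] [Fintype ι]
    [Nonempty ι] [DecidableEq ι] (V W : Submodule k F) [FiniteDimensional k V]
    [FiniteDimensional k W] (hVW : V * V ≤ W) (c : Option ι → F) (hc : ∀ o, c o ∈ V)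
    (hc0 : ∀ o, c o ≠ 0) (hgen : ∀ o, W ≤ Submodule.span k (c '' {o}ᶜ) * V)
    (T : (ι → F) → ℝ) (hT : IsM T) : T (fun i => c (some i) / c none) = 0 := by
  classical
  set h := Module.finrank k V with hh
  set w := Module.finrank k W with hw
  set bV : Module.Basis (Fin h) k V := Module.finBasis k V with hbV
  set bW : Module.Basis (Fin w) k W := Module.finBasis k W with hbW
  have hn : 2 ≤ Fintype.card (Option ι) := by
    rw [Fintype.card_option]
    have : 0 < Fintype.card ι := Fintype.card_pos
    omega
  obtain ⟨q₀, hq₀⟩ := base_thm2 (Fintype.card (Option ι)) w hn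
  -- structure constants and coordinates
  set m : Fin h → Fin h → Fin w → k := fun i j l =>
    bW.repr ⟨(bV i : F) * (bV j : F), hVW (Submodule.mul_mem_mul (bV i).2 (bV j).2)⟩ l with hm
  set γ : Option ι → Fin h → k := fun o i => bV.repr ⟨c o, hc o⟩ i with hγ
  set S : Finset k := (Finset.univ.image fun q : Fin h × Fin h × Fin w => m q.1 q.2.1 q.2.2) ∪
    (Finset.univ.image fun q : Option ι × Fin h => γ q.1 q.2) with hS
  obtain ⟨K, hKfin, hKS, hKq⟩ := exists_subfield p k S q₀
  have hmK : ∀ i j l, m i j l ∈ K := fun i j l => hKS _ (Finset.mem_union_left _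
    (Finset.mem_image.2 ⟨(i, j, l), Finset.mem_univ _, rfl⟩))
  have hγK : ∀ o i, γ o i ∈ K := fun o i => hKS _ (Finset.mem_union_right _
    (Finset.mem_image.2 ⟨(o, i), Finset.mem_univ _, rfl⟩))
  haveI : Fintype K := Fintype.ofFinite K
  set β : (Fin h → K) →ₗ[K] (Fin h → K) →ₗ[K] (Fin w → K) := LinearMap.mk₂ K
    (fun x y l => ∑ i, ∑ j, x i * y j * (⟨m i j l, hmK i j l⟩ : K))
    (by
      intro x x' y
      funext l
      simp only [Pi.add_apply, ← Finset.sum_add_distrib]
      exact Finset.sum_congr rfl fun i _ => Finset.sum_congr rfl fun j _ => by ring)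
    (by
      intro a x y
      funext l
      simp only [Pi.smul_apply, smul_eq_mul, Finset.mul_sum]
      exact Finset.sum_congr rfl fun i _ => Finset.sum_congr rfl fun j _ => by ring)
    (by
      intro x y y'
      funext l
      simp only [Pi.add_apply, ← Finset.sum_add_distrib]
      exact Finset.sum_congr rfl fun i _ => Finset.sum_congr rfl fun j _ => by ring)
    (by
      intro a x y
      funext l
      simp only [Pi.smul_apply, smul_eq_mul, Finset.mul_sum]
      exact Finset.sum_congr rfl fun i _ => Finset.sum_congr rfl fun j _ => by ring) with hβ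
  have hβa : ∀ x y l, β x y l = ∑ i, ∑ j, x i * y j * (⟨m i j l, hmK i j l⟩ : K) :=
    fun x y l => rfl
  -- the maps to `F`
  let φ : (Fin h → K) →+ F :=
    { toFun := fun x => ∑ i, ((x i : K) : k) • (bV i : F)
      map_zero' := by simp
      map_add' := fun x y => by simp [add_smul, Finset.sum_add_distrib] }
  let ψ : (Fin w → K) →+ F :=
    { toFun := fun x => ∑ i, ((x i : K) : k) • (bW i : F)
      map_zero' := by simp
      map_add' := fun x y => by simp [add_smul, Finset.sum_add_distrib] }
  have hφ : Injective φ := by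
    rw [injective_iff_map_eq_zero]
    intro x hx
    have h1 : ∑ i, ((x i : K) : k) • bV i = 0 := by
      apply Subtype.ext
      have h2 : ((∑ i, ((x i : K) : k) • bV i : V) : F) = φ x := by
        simp [φ]
      rw [h2, hx]
      rfl
    have h3 := (Fintype.linearIndependent_iff.1 bV.linearIndependent) _ h1
    funext i
    exact Subtype.ext (h3 i)
  have hWr : ∀ z : W, (z : F) = ∑ l, bW.repr z l • (bW l : F) := by
    intro z
    conv_lhs => rw [← bW.sum_repr z]
    simp only [Submodule.coe_sum, Submodule.coe_smul]
  have hVr : ∀ z : V, (z : F) = ∑ l, bV.repr z l • (bV l : F) := by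
    intro z
    conv_lhs => rw [← bV.sum_repr z]
    simp only [Submodule.coe_sum, Submodule.coe_smul]
  have hprod : ∀ i j, (bV i : F) * (bV j : F) = ∑ l, m i j l • (bW l : F) := fun i j =>
    hWr ⟨(bV i : F) * (bV j : F), hVW (Submodule.mul_mem_mul (bV i).2 (bV j).2)⟩
  have hmul : ∀ a b, φ a * φ b = ψ (β a b) := by
    intro a b
    show (∑ i, ((a i : K) : k) • (bV i : F)) * (∑ j, ((b j : K) : k) • (bV j : F)) =
      ∑ l, ((β a b l : K) : k) • (bW l : F)
    rw [d3_sum3 (fun i => ((a i : K) : k)) (fun i => ((b i : K) : k)) m _ _ hprod]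
    refine Finset.sum_congr rfl fun l _ => ?_
    rw [hβa]
    push_cast
    rfl
  have hβs : ∀ a b, β a b = β b a := by
    intro a b
    funext l
    rw [hβa, hβa, Finset.sum_comm]
    refine Finset.sum_congr rfl fun i _ => Finset.sum_congr rfl fun j _ => ?_
    have h1 : m j i l = m i j l := by
      simp only [hm]
      congr 3
      exact mul_comm _ _
    have h2 : (⟨m j i l, hmK j i l⟩ : K) = ⟨m i j l, hmK i j l⟩ := Subtype.ext h1
    rw [h2]
    ring
  -- the tuple
  set x : Option ι → Fin h → K := fun o i => ⟨γ o i, hγK o i⟩ with hx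
  have hxc : ∀ o, φ (x o) = c o := by
    intro o
    exact (hVr ⟨c o, hc o⟩).symm
  have hGG : GG β x := by
    refine ⟨fun o h0 => hc0 o (by rw [← hxc, h0, map_zero]), fun o => ?_⟩
    set A : Matrix (Fin w) (Option ι × Fin h) K := fun l q =>
      if q.1 = o then 0 else ∑ i, x q.1 i * (⟨m i q.2 l, hmK i q.2 l⟩ : K) with hA
    have hA1 : Surjective A.mulVecLin := by
      apply surj_descend (K := K) (k := k)
      intro y
      set f : F := ∑ l, y l • (bW l : F) with hf
      have hfW : f ∈ W := Submodule.sum_mem _ fun l _ => Submodule.smul_mem _ _ (bW l).2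
      have hf2 : ∃ v : Option ι → V, f = ∑ o' ∈ ({o}ᶜ : Finset (Option ι)), c o' * (v o' : F) := by
        have h1 := hgen o hfW
        have h2 : ∀ z ∈ Submodule.span k (c '' {o}ᶜ) * V,
            ∃ v : Option ι → V, z = ∑ o' ∈ ({o}ᶜ : Finset (Option ι)), c o' * (v o' : F) := by
          intro z hz
          induction hz using Submodule.mul_induction_on' with
          | mem_mul_mem a ha b hb =>
            induction ha using Submodule.span_induction with
            | mem a ha =>
              obtain ⟨g, hg, rfl⟩ := ha
              refine ⟨fun g' => if g' = g then ⟨b, hb⟩ else 0, ?_⟩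
              rw [Finset.sum_eq_single g]
              · simp
              · intro g' _ hne
                simp [hne]
              · intro h'
                exact absurd (by simpa using hg) h'
            | zero => exact ⟨0, by simp⟩
            | add a a' _ _ h1 h2 =>
              obtain ⟨v, hv⟩ := h1
              obtain ⟨v', hv'⟩ := h2
              refine ⟨v + v', ?_⟩
              rw [add_mul, hv, hv', ← Finset.sum_add_distrib]
              exact Finset.sum_congr rfl (fun g _ => by simp [mul_add])
            | smul c a _ h1 =>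
              obtain ⟨v, hv⟩ := h1
              refine ⟨c • v, ?_⟩
              rw [smul_mul_assoc, hv, Finset.smul_sum]
              exact Finset.sum_congr rfl (fun g _ => by simp)
          | add a _ a' _ h1 h2 =>
            obtain ⟨v, hv⟩ := h1
            obtain ⟨v', hv'⟩ := h2
            refine ⟨v + v', ?_⟩
            rw [hv, hv', ← Finset.sum_add_distrib]
            exact Finset.sum_congr rfl (fun g _ => by simp [mul_add])
        exact h2 f h1
      obtain ⟨v, hv⟩ := hf2
      refine ⟨fun q => bV.repr (v q.1) q.2, ?_⟩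
      -- compare coordinates
      have h3 : ∑ l, ((A.map (algebraMap K k)).mulVecLin
          (fun q => bV.repr (v q.1) q.2) l) • (bW l : F) = f := by
        have h4 : ∀ l, (A.map (algebraMap K k)).mulVecLin (fun q => bV.repr (v q.1) q.2) l =
            ∑ o' ∈ ({o}ᶜ : Finset (Option ι)), ∑ i, ∑ j, γ o' i * bV.repr (v o') j * m i j l := by
          intro l
          rw [Matrix.mulVecLin_apply, Matrix.mulVec, dotProduct, Fintype.sum_prod_type,
            ← Finset.sum_compl_add_sum {o}, Finset.sum_singleton]
          have h5 : ∑ j, (A.map (algebraMap K k)) l (o, j) * bV.repr (v o) j = 0 := by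
            apply Finset.sum_eq_zero
            intro j _
            simp [hA]
          rw [h5, add_zero]
          refine Finset.sum_congr rfl fun o' ho' => ?_
          have ho'' : o' ≠ o := by simpa using ho'
          rw [Finset.sum_comm (f := fun i j => γ o' i * bV.repr (v o') j * m i j l)]
          refine Finset.sum_congr rfl fun j _ => ?_
          simp only [Matrix.map_apply, hA, if_neg ho'']
          rw [map_sum, Finset.sum_mul]
          refine Finset.sum_congr rfl fun i _ => ?_
          rw [map_mul]
          show γ o' i * m i j l * _ = _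
          ring
        have h6 : ∀ l, (∑ o' ∈ ({o}ᶜ : Finset (Option ι)),
            ∑ i, ∑ j, γ o' i * bV.repr (v o') j * m i j l) • (bW l : F) =
            ∑ o' ∈ ({o}ᶜ : Finset (Option ι)),
              (∑ i, ∑ j, γ o' i * bV.repr (v o') j * m i j l) • (bW l : F) :=
          fun l => Finset.sum_smul
        simp only [h4, h6]
        rw [Finset.sum_comm, hv]
        refine Finset.sum_congr rfl fun o' _ => ?_
        rw [← d3_sum3 (γ o') (fun j => bV.repr (v o') j) m _ _ hprod]
        rw [← hVr (v o')]
        congr 1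
        exact hxc o'
      have h10 : ∑ l, ((A.map (algebraMap K k)).mulVecLin
          (fun q => bV.repr (v q.1) q.2) l) • bW l = ∑ l, y l • bW l := by
        apply Subtype.ext
        rw [Submodule.coe_sum, Submodule.coe_sum]
        exact h3
      have h11 := congrArg (fun z => (bW.repr z : Fin w → k)) h10
      simp only [Module.Basis.repr_sum_self] at h11
      exact h11
    intro y
    obtain ⟨u, hu⟩ := hA1 y
    refine ⟨fun o' j => u (o', j), ?_⟩
    rw [← hu]
    funext l
    unfold gen
    simp only [LinearMap.coe_sum, Finset.sum_apply, LinearMap.comp_apply, LinearMap.proj_apply]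
    rw [Matrix.mulVecLin_apply, Matrix.mulVec, dotProduct, Fintype.sum_prod_type,
      ← Finset.sum_compl_add_sum {o} (fun o' => ∑ j, A l (o', j) * u (o', j)),
      Finset.sum_singleton]
    have h5 : ∑ j, A l (o, j) * u (o, j) = 0 := by
      apply Finset.sum_eq_zero
      intro j _
      simp [hA]
    rw [h5, add_zero]
    refine Finset.sum_congr rfl fun o' ho' => ?_
    have ho'' : o' ≠ o := by simpa using ho'
    rw [hβa, Finset.sum_comm]
    refine Finset.sum_congr rfl fun j _ => ?_
    simp only [hA, if_neg ho'']
    rw [Finset.sum_mul]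
    refine Finset.sum_congr rfl fun i _ => ?_
    ring
  have hfin := d3_fin β (Fintype.card (Option ι)) w q₀ hq₀ hβs (by simp) rfl
    (by rw [← Nat.card_eq_fintype_card]; exact hKq) φ hφ ψ hmul T hT x hGG
  simpa only [hxc] using hfin

end Pool.Agent.KM
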