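import Pool.Agent.KM.MilnorDef

/-!
Project KM (MP_27fd67_ag): uniform vanishing of Milnor K-groups tensor `ℚ`.
Common definitions (helper96).
-/

set_option autoImplicit false

open Function

namespace Pool.Agent.KM

/-- A functional of Milnor type: a real valued function of tuples of elements of the field `F`,
zero if an entry is zero, multi-additive on nonzero entries, and zero if two entries at
different places have sum `1`. -/
structure IsM {F ι : Type} [Field F] [DecidableEq ι] (T : (ι → F) → ℝ) : Prop where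
  zero : ∀ (x : ι → F) (i : ι), x i = 0 → T x = 0
  mul : ∀ (x : ι → F) (i : ι) (a b : F), a ≠ 0 → b ≠ 0 →
    T (update x i (a * b)) = T (update x i a) + T (update x i b)
  st : ∀ (x : ι → F) (i j : ι), i ≠ j → x i + x j = 1 → T x = 0

/-- `a` is a root of unity. -/
def Tors {F : Type} [Field F] (a : F) : Prop := ∃ N : ℕ, 0 < N ∧ a ^ N = 1

/-! ### bilinear maps over a field -/

/-- The map `u ↦ ∑ i ∈ D, β (x i) (u i)`. -/
def gen {K V W I : Type} [Field K] [AddCommGroup V] [Module K V] [AddCommGroup W] [Module K W]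
    (β : V →ₗ[K] V →ₗ[K] W) (D : Finset I) (x : I → V) : (I → V) →ₗ[K] W :=
  ∑ i ∈ D, (β (x i)).comp (LinearMap.proj i)

/-- `x` is good: all entries are nonzero, and every subfamily of `s` entries generates `W`. -/
def Good {K V W I : Type} [Field K] [AddCommGroup V] [Module K V] [AddCommGroup W] [Module K W]
    (β : V →ₗ[K] V →ₗ[K] W) (s : ℕ) (x : I → V) : Prop :=
  (∀ i, x i ≠ 0) ∧ ∀ D : Finset I, D.card = s → Surjective (gen β D x)

/-! ### generic parameters -/

/-- Evaluation of a polynomial with coefficients in `F` at parameters from the small field. -/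
noncomputable abbrev ev {k F : Type} [Field k] [Field F] [Algebra k F] (l : ℕ → k) :
    MvPolynomial ℕ F →+* F :=
  MvPolynomial.eval (fun i => algebraMap k F (l i))

/-- The filter of generic parameters: generated by the non-vanishing loci of the nonzero
polynomials over `k`. -/
def Gen (k : Type) [Field k] : Filter (ℕ → k) where
  sets := {S | ∃ Θ : MvPolynomial ℕ k, Θ ≠ 0 ∧ ∀ l, MvPolynomial.eval l Θ ≠ 0 → l ∈ S}
  univ_sets := ⟨1, one_ne_zero, fun _ _ => trivial⟩
  sets_of_superset := by
    rintro S S' ⟨Θ, h0, h⟩ hS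
    exact ⟨Θ, h0, fun l hl => hS (h l hl)⟩
  inter_sets := by
    rintro S S' ⟨Θ, h0, h⟩ ⟨Θ', h0', h'⟩
    refine ⟨Θ * Θ', mul_ne_zero h0 h0', fun l hl => ?_⟩
    rw [map_mul] at hl
    exact ⟨h l (left_ne_zero_of_mul hl), h' l (right_ne_zero_of_mul hl)⟩

/-- Families of elements of `F` depending on parameters. -/
abbrev Fam (k F : Type) : Type := (ℕ → k) → F

/-- The family `a` is (generically) a quotient of two nonzero polynomials in the parameters
`l 0, …, l (N-1)`. -/
def IsRat {k F : Type} [Field k] [Field F] [Algebra k F] (N : ℕ) (a : Fam k F) : Prop :=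
  ∃ P D : MvPolynomial ℕ F, P ≠ 0 ∧ D ≠ 0 ∧ (∀ i ∈ P.vars, i < N) ∧ (∀ i ∈ D.vars, i < N) ∧
    ∀ᶠ l in Gen k, a l = ev l P / ev l D

/-- The valuation ring `A` contains `k`. -/
def Over (k : Type) {F : Type} [Field k] [Field F] [Algebra k F] (A : ValuationSubring F) : Prop :=
  ∀ c : k, algebraMap k F c ∈ A

/-- Moving families: generically units for every valuation ring over `k`. -/
def Moving {k F : Type} [Field k] [Field F] [Algebra k F] (a : Fam k F) : Prop :=
  ∀ A : ValuationSubring F, Over k A → ∀ᶠ l in Gen k, A.valuation (a l) = 1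

/-- `a` decomposes, for all Milnor functionals, in tuples which have a moving entry. -/
def Dec {k F ι : Type} [Field k] [Field F] [Algebra k F] [DecidableEq ι] (a : ι → Fam k F) :
    Prop :=
  ∃ L : List ((ι → Fam k F) × ι × ℤ),
    (∀ t ∈ L, (∀ j, ∃ N, IsRat N (t.1 j)) ∧ Moving (t.1 t.2.1)) ∧
    ∀ᶠ l in Gen k, ∀ T : (ι → F) → ℝ, IsM T →
      T (fun j => a j l) = (L.map fun t => (t.2.2 : ℝ) * T (fun j => t.1 j l)).sum

/-! ### maps, numbers and conditions used in the proof -/

/-- The map `(u,v) ↦ (∑ x_i u_i, ∑_{P} z_i u_i + ∑_{off P} z_i v_i)`. -/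
def Psi {K V W I : Type} [Field K] [AddCommGroup V] [Module K V] [AddCommGroup W] [Module K W]
    [Fintype I] [DecidableEq I] (β : V →ₗ[K] V →ₗ[K] W) (P : Finset I) (x z : I → V) :
    ((I → V) × (I → V)) →ₗ[K] (W × W) :=
  LinearMap.prod ((gen β Finset.univ x).comp (LinearMap.fst K _ _))
    ((gen β P z).comp (LinearMap.fst K _ _) + (gen β Pᶜ z).comp (LinearMap.snd K _ _))

/-- `NN β P x y` = number of syzygies `x'` of `x` whose face at `P` is `y`. -/
noncomputable def NN {K V W I : Type} [Field K] [AddCommGroup V] [Module K V] [AddCommGroup W]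
    [Module K W] [Fintype I] [DecidableEq I] (β : V →ₗ[K] V →ₗ[K] W) (P : Finset I)
    (x y : I → V) : ℕ :=
  {x' : I → V | gen β Finset.univ x x' = 0 ∧ P.piecewise x' x = y}.ncard

/-- The affine chart `k[E/y]`. -/
abbrev chart {k F : Type} [Field k] [Field F] [Algebra k F] (E : Submodule k F) (y : F) :
    Subalgebra k F :=
  Algebra.adjoin k ((fun u => u / y) '' (E : Set F))

/-- All entries have values at most one. -/
def Le1 {k F ι : Type} [Field k] [Field F] [Algebra k F] (a : ι → Fam k F) : Prop :=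
  ∀ i, ∀ A : ValuationSubring F, Over k A → ∀ᶠ l in Gen k, A.valuation (a i l) ≤ 1

/-- The condition (*) for the list `H` of integer vectors. -/
def Star {k F ι : Type} [Field k] [Field F] [Algebra k F] [Fintype ι] (H : List (ι → ℤ))
    (a : ι → Fam k F) : Prop :=
  ∀ A : ValuationSubring F, Over k A → ∀ᶠ l in Gen k,
    (∃ i, A.valuation (a i l) = 1) ∨ ∃ δ ∈ H, ∏ i, A.valuation (a i l) ^ (δ i) = 1

/-- The unimodular substitution of the vector `δ` in the step for the pair `i, j`. -/
def sub1 {ι : Type} [DecidableEq ι] (i j : ι) (δ : ι → ℤ) : ι → ℤ := update δ j (δ i + δ j)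

end Pool.Agent.KM
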