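import Pool.Agent.KM.FDefs

/-!
Project KM3 (MP_27fd67_ag), F1: polynomial families of linear maps and of vectors (helper13).
-/

set_option autoImplicit false

open Function

namespace Pool.Agent.KM

theorem fp_natDegree_det {K ι : Type} [Field K] [Fintype ι] [DecidableEq ι] (D : ℕ)
    (M : Matrix ι ι (Polynomial K)) (h : ∀ i j, (M i j).natDegree ≤ D) :
    M.det.natDegree ≤ D * Fintype.card ι := by
  rw [Matrix.det_apply]
  refine Polynomial.natDegree_sum_le_of_forall_le _ _ (fun σ _ => ?_)
  refine (Polynomial.natDegree_smul_le _ _).trans ?_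
  refine (Polynomial.natDegree_prod_le _ _).trans ?_
  refine (Finset.sum_le_sum (fun i _ => h (σ i) i)).trans ?_
  simp [mul_comm]

theorem fp_natDegree_sum {K : Type} [Field K] (D : ℕ) (a : ℕ → K) :
    (∑ j ∈ Finset.range (D + 1), Polynomial.C (a j) * Polynomial.X ^ j).natDegree ≤ D := by
  refine Polynomial.natDegree_sum_le_of_forall_le _ _ (fun j hj => ?_)
  exact (Polynomial.natDegree_C_mul_X_pow_le _ _).trans
    (Nat.lt_succ_iff.1 (Finset.mem_range.1 hj))

theorem fp_roots {K : Type} [Field K] (S : Set K) (p : Polynomial K) (d : ℕ) (hp : p ≠ 0)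
    (hd : p.natDegree ≤ d) (hS : ∀ t ∈ S, p.eval t = 0) : S.Finite ∧ S.ncard ≤ d := by
  classical
  have hsub : S ⊆ (p.roots.toFinset : Set K) := by
    intro t ht
    rw [Finset.mem_coe, Multiset.mem_toFinset, Polynomial.mem_roots hp]
    exact hS t ht
  refine ⟨(Finset.finite_toSet _).subset hsub, ?_⟩
  calc S.ncard ≤ (p.roots.toFinset : Set K).ncard :=
        Set.ncard_le_ncard hsub (Finset.finite_toSet _)
    _ = p.roots.toFinset.card := Set.ncard_coe_finset _
    _ ≤ p.roots.card := Multiset.toFinset_card_le _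
    _ ≤ p.natDegree := Polynomial.card_roots' p
    _ ≤ d := hd

theorem poly_line {K E W : Type} [Field K] [AddCommGroup E] [Module K E] [AddCommGroup W]
    [Module K W] [FiniteDimensional K W] (D : ℕ) (A : ℕ → (E →ₗ[K] W)) (h : Surjective (A 0)) :
    {t : K | ¬ Surjective (∑ j ∈ Finset.range (D + 1), t ^ j • A j)}.Finite ∧
      {t : K | ¬ Surjective (∑ j ∈ Finset.range (D + 1), t ^ j • A j)}.ncard ≤
        D * Module.finrank K W := by
  classical
  obtain ⟨σ, hσ⟩ := (A 0).exists_rightInverse_of_surjective (LinearMap.range_eq_top.2 h)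
  let b := Module.finBasis K W
  let M : ℕ → Matrix (Fin (Module.finrank K W)) (Fin (Module.finrank K W)) K :=
    fun j => LinearMap.toMatrix b b (A j ∘ₗ σ)
  let P : Matrix (Fin (Module.finrank K W)) (Fin (Module.finrank K W)) (Polynomial K) :=
    Matrix.of fun i k => ∑ j ∈ Finset.range (D + 1), Polynomial.C (M j i k) * Polynomial.X ^ j
  have heval : ∀ t : K, P.det.eval t = (∑ j ∈ Finset.range (D + 1), t ^ j • M j).det := by
    intro t
    have h1 : P.det.eval t = ((Polynomial.evalRingHom t).mapMatrix P).det := by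
      rw [← RingHom.map_det]
      rfl
    rw [h1]
    congr 1
    ext i k
    rw [RingHom.mapMatrix_apply, Matrix.map_apply, Polynomial.coe_evalRingHom, Matrix.sum_apply]
    show Polynomial.eval t (∑ j ∈ Finset.range (D + 1),
      Polynomial.C (M j i k) * Polynomial.X ^ j) = _
    rw [Polynomial.eval_finsetSum]
    refine Finset.sum_congr rfl fun j _ => ?_
    rw [Polynomial.eval_mul, Polynomial.eval_C, Polynomial.eval_pow, Polynomial.eval_X,
      Matrix.smul_apply, smul_eq_mul, mul_comm]
  have hdet0 : P.det ≠ 0 := by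
    intro h0
    have h1 := heval 0
    rw [h0, Polynomial.eval_zero, Finset.sum_eq_single 0] at h1
    · simp only [pow_zero, one_smul, M, hσ, LinearMap.toMatrix_id, Matrix.det_one] at h1
      exact one_ne_zero h1.symm
    · intro j _ hj
      rw [zero_pow hj, zero_smul]
    · intro hj
      exact absurd (Finset.mem_range.2 (Nat.succ_pos D)) hj
  refine fp_roots _ P.det _ hdet0 ?_ ?_
  · have h2 := fp_natDegree_det D P (fun i k => fp_natDegree_sum D (fun j => M j i k))
    simpa using h2
  · intro t ht
    by_contra hne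
    apply ht
    rw [heval t] at hne
    have hM : (∑ j ∈ Finset.range (D + 1), t ^ j • M j) =
        LinearMap.toMatrix b b ((∑ j ∈ Finset.range (D + 1), t ^ j • A j) ∘ₗ σ) := by
      have hc : (∑ j ∈ Finset.range (D + 1), t ^ j • A j) ∘ₗ σ =
          ∑ j ∈ Finset.range (D + 1), t ^ j • (A j ∘ₗ σ) := by
        ext x
        simp [LinearMap.sum_apply]
      rw [hc, map_sum]
      exact Finset.sum_congr rfl fun j _ => (map_smul _ _ _).symm
    rw [hM, LinearMap.det_toMatrix] at hne
    have hs : Surjective ((∑ j ∈ Finset.range (D + 1), t ^ j • A j) ∘ₗ σ) := by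
      intro y
      refine ⟨(LinearMap.equivOfDetNeZero _ hne).symm y, ?_⟩
      exact (LinearMap.equivOfDetNeZero _ hne).apply_symm_apply y
    intro y
    obtain ⟨x, hx⟩ := hs y
    refine ⟨σ x, ?_⟩
    rw [← hx, LinearMap.comp_apply, LinearMap.sum_apply, Finset.sum_apply]

/-- a polynomial family of vectors which is nonzero at `0` -/
theorem poly_ne {K E : Type} [Field K] [AddCommGroup E] [Module K E] (D : ℕ) (v : ℕ → E)
    (h : v 0 ≠ 0) :
    {t : K | ∑ j ∈ Finset.range (D + 1), t ^ j • v j = 0}.Finite ∧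
      {t : K | ∑ j ∈ Finset.range (D + 1), t ^ j • v j = 0}.ncard ≤ D := by
  classical
  obtain ⟨f, hf⟩ : ∃ f : E →ₗ[K] K, f (v 0) ≠ 0 := by
    by_contra hcon
    push Not at hcon
    exact h ((Module.forall_dual_apply_eq_zero_iff K (v 0)).1 hcon)
  refine fp_roots _ (∑ j ∈ Finset.range (D + 1), Polynomial.C (f (v j)) * Polynomial.X ^ j) D
    ?_ (fp_natDegree_sum D _) ?_
  · intro h0
    apply hf
    have h1 := congrArg (Polynomial.eval 0) h0
    rw [Polynomial.eval_finsetSum, Finset.sum_eq_single 0] at h1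
    · simpa using h1
    · intro j _ hj
      simp [hj]
    · intro hj
      exact absurd (Finset.mem_range.2 (Nat.succ_pos D)) hj
  · intro t ht
    have h1 : f (∑ j ∈ Finset.range (D + 1), t ^ j • v j) = 0 := by
      rw [show (∑ j ∈ Finset.range (D + 1), t ^ j • v j) = 0 from ht, map_zero]
    rw [map_sum] at h1
    rw [Polynomial.eval_finsetSum]
    refine Eq.trans (Finset.sum_congr rfl fun j _ => ?_) h1
    rw [Polynomial.eval_mul, Polynomial.eval_C, Polynomial.eval_pow, Polynomial.eval_X,
      map_smul, smul_eq_mul, mul_comm]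

end Pool.Agent.KM
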