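import Pool.Agent.KM.GInst
import Pool.Agent.KM.GGeneric

/-!
Project KM (MP_27fd67_ag), row KM-G4: the grid trick for finitely many types.
-/

set_option autoImplicit false

open Function

namespace Pool.Agent.KM

section G
variable {k F : Type} [Field k] [Field F] [Algebra k F]

private theorem g4_fd_pow (E : Submodule k F) [FiniteDimensional k E] (n : ℕ) :
    FiniteDimensional k (E ^ n : Submodule k F) := by
  have h : E.FG := (Submodule.fg_iff_finiteDimensional E).2 inferInstance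
  exact (Submodule.fg_iff_finiteDimensional _).1 (h.pow n)

private theorem g4_pow_ne_bot (E : Submodule k F) (hE : E ≠ ⊥) (n : ℕ) :
    (E ^ n : Submodule k F) ≠ ⊥ := by
  obtain ⟨u, hu, hu0⟩ := (Submodule.ne_bot_iff E).1 hE
  refine (Submodule.ne_bot_iff _).2 ⟨u ^ n, Submodule.pow_mem_pow E hu n, pow_ne_zero n hu0⟩

theorem grid [Infinite k] (r m : ℕ) (hr : 1 ≤ r) (hm : r ≤ m) (τ : Type) [Finite τ] [Nonempty τ]
    (E : Submodule k F) [FiniteDimensional k E] (hE : E ≠ ⊥) (e : τ → Fin m → F)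
    (heE : ∀ t g, e t g ∈ E)
    (h : ∀ t, ∀ R : Finset (Fin m), R.card = r →
      ∃ j₀, ∀ j, j₀ ≤ j → E ^ (j + 1) ≤ Submodule.span k (e t '' R) * E ^ j) :
    ∃ (V : Submodule k F) (q : Fin m → F), FiniteDimensional k V ∧ (∀ g, q g ≠ 0) ∧
      (∀ t g, e t g * q g ∈ V) ∧
      ∀ t, ∀ D : Finset (Fin m), D.card = r * Nat.choose (2 * r) (r - 1) →
        V * V ≤ Submodule.span k ((fun g => e t g * q g) '' D) * V := by
  classical
  choose! j₀ hj₀ using h
  -- a uniform bound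
  obtain ⟨B, hB1, hB⟩ : ∃ B : ℕ, 1 ≤ B ∧ ∀ t, ∀ R : Finset (Fin m), R.card = r →
      ∀ j, B ≤ j → E ^ (j + 1) ≤ Submodule.span k (e t '' R) * E ^ j := by
    obtain ⟨M, hM⟩ := (Set.finite_range (fun p : τ × Finset (Fin m) => j₀ p.1 p.2)).bddAbove
    refine ⟨M + 1, by omega, fun t R hR j hj => hj₀ t R hR j ?_⟩
    have := hM ⟨(t, R), rfl⟩
    simp only at this
    omega
  -- the elements `y`
  obtain ⟨t₀⟩ := ‹Nonempty τ›
  let y : Fin r → F := fun i => e t₀ (Fin.castLE hm i)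
  have hy : Set.range y = e t₀ '' ((Finset.univ.map (Fin.castLEEmb hm) : Finset (Fin m)) : Set (Fin m)) := by
    ext x
    simp only [y, Set.mem_range, Set.mem_image, Finset.mem_coe, Finset.mem_map,
      Finset.mem_univ, true_and]
    constructor
    · rintro ⟨i, hi⟩
      exact ⟨Fin.castLE hm i, ⟨i, rfl⟩, hi⟩
    · rintro ⟨_, ⟨i, rfl⟩, hi⟩
      exact ⟨i, hi⟩
  have hycard : (Finset.univ.map (Fin.castLEEmb hm) : Finset (Fin m)).card = r := by simp
  have hyB : ∀ j, B ≤ j → E ^ (j + 1) ≤ Submodule.span k (Set.range y) * E ^ j := by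
    intro j hj
    rw [hy]
    exact hB t₀ _ hycard j hj
  have := g4_fd_pow E ((r + 1) * B)
  have := g4_fd_pow E (1 + (r + 1) * B)
  have hV : ∀ t g, ∀ q ∈ (E ^ ((r + 1) * B) : Submodule k F),
      e t g * q ∈ (E ^ (1 + (r + 1) * B) : Submodule k F) := by
    intro t g q hq
    rw [pow_add, pow_one]
    exact Submodule.mul_mem_mul (heE t g) hq
  obtain ⟨q, hq, hq'⟩ := common_gen m (r * Nat.choose (2 * r) (r - 1)) τ (E ^ ((r + 1) * B))
    (E ^ (1 + (r + 1) * B)) (g4_pow_ne_bot E hE _) e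
    (fun t D hD => grid_inst r hr E m y (fun i => heE t₀ _) (e t) (heE t) B hB1 hyB
      (hB t) D hD) hV
  exact ⟨E ^ (1 + (r + 1) * B), q, inferInstance, fun g => (hq g).2,
    fun t g => hV t g _ (hq g).1, hq'⟩
end G

end Pool.Agent.KM
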