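import Pool.Agent.KM.GSpan

/-!
KM-G2: one choice of multipliers for one set of indices.
-/

set_option autoImplicit false

open Function
open scoped Pointwise

namespace Pool.Agent.KM

section G
variable {k F : Type} [Field k] [Field F] [Algebra k F]

theorem g2_span_mul_le (S : Set F) (P Q : Submodule k F)
    (h : ∀ s ∈ S, Submodule.span k {s} * P ≤ Q) : Submodule.span k S * P ≤ Q := by
  rw [Submodule.mul_le]
  intro m hm n hn
  induction hm using Submodule.span_induction with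
  | mem s hs => exact h s hs (Submodule.mul_mem_mul (Submodule.mem_span_singleton_self s) hn)
  | zero => rw [zero_mul]; exact Q.zero_mem
  | add a b _ _ ha hb => rw [add_mul]; exact Q.add_mem ha hb
  | smul c a _ ha => rw [smul_mul_assoc]; exact Q.smul_mem c ha

theorem grid_inst (r : ℕ) (hr : 1 ≤ r) (E : Submodule k F) (m : ℕ) (y : Fin r → F)
    (hyE : ∀ i, y i ∈ E) (e : Fin m → F) (he : ∀ g, e g ∈ E) (B : ℕ) (hB : 1 ≤ B)
    (hyB : ∀ j, B ≤ j → E ^ (j + 1) ≤ Submodule.span k (Set.range y) * E ^ j)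
    (heB : ∀ R : Finset (Fin m), R.card = r →
      ∀ j, B ≤ j → E ^ (j + 1) ≤ Submodule.span k (e '' R) * E ^ j)
    (D : Finset (Fin m)) (hD : D.card = r * Nat.choose (2 * r) (r - 1)) :
    ∃ q : Fin m → F, (∀ g, q g ∈ E ^ ((r + 1) * B)) ∧
      E ^ (1 + (r + 1) * B) * E ^ (1 + (r + 1) * B) ≤
        Submodule.span k ((fun g => e g * q g) '' D) * E ^ (1 + (r + 1) * B) := by
  classical
  obtain ⟨hfin, hcard⟩ := card_exps r hr
  set G : Finset (Fin r → ℕ) := hfin.toFinset with hG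
  have hGc : G.card = Nat.choose (2 * r) (r - 1) := by
    rw [← hcard, hG, Set.ncard_eq_toFinset_card _ hfin]
  have hmemG : ∀ γ : Fin r → ℕ, γ ∈ G ↔ ∑ i, γ i = r + 1 := by
    intro γ
    rw [hG, Set.Finite.mem_toFinset]
    rfl
  have hc : Fintype.card {x // x ∈ D} = Fintype.card ({x // x ∈ G} × Fin r) := by
    rw [Fintype.card_coe, Fintype.card_prod, Fintype.card_coe, Fintype.card_fin, hD, hGc,
      mul_comm]
  let φ : {x // x ∈ D} ≃ {x // x ∈ G} × Fin r := Fintype.equivOfCardEq hc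
  let q : Fin m → F := fun g =>
    if h : g ∈ D then ∏ i, y i ^ (B * (φ ⟨g, h⟩).1.1 i) else 0
  have hq1 : ∀ g (h : g ∈ D), q g = ∏ i, y i ^ (B * (φ ⟨g, h⟩).1.1 i) := fun g h => dif_pos h
  refine ⟨q, ?_, ?_⟩
  · intro g
    by_cases h : g ∈ D
    · rw [hq1 g h]
      have h1 := g1_prod_mem (k := k) Finset.univ y E hyE (fun i => B * (φ ⟨g, h⟩).1.1 i)
      have h2 : ∑ i, B * (φ ⟨g, h⟩).1.1 i = (r + 1) * B := by
        rw [← Finset.mul_sum, (hmemG _).1 (φ ⟨g, h⟩).1.2, mul_comm]
      rw [h2] at h1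
      exact h1
    · have h1 : q g = 0 := dif_neg h
      rw [h1]
      exact Submodule.zero_mem _
  · have h1 := grid_span r hr y E hyE B hB hyB (1 + (r + 1) * B + 1) (by
      have h2 : r * (B - 1) ≤ r * B := Nat.mul_le_mul_left r (Nat.sub_le B 1)
      have h3 : (r + 1) * B = r * B + B := by ring
      omega)
    have h2 : E ^ (1 + (r + 1) * B) * E ^ (1 + (r + 1) * B) =
        E ^ (1 + (r + 1) * B + 1 + (r + 1) * B) := by
      rw [← pow_add]
      congr 1
      ring
    rw [h2]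
    refine h1.trans (g2_span_mul_le _ _ _ ?_)
    rintro _ ⟨γ, hγ, rfl⟩
    have hγG : γ ∈ G := (hmemG γ).2 hγ
    let R : Finset (Fin m) := Finset.univ.image fun j : Fin r => (φ.symm (⟨γ, hγG⟩, j)).1
    have hRc : R.card = r := by
      have h3 : Function.Injective fun j : Fin r => (φ.symm (⟨γ, hγG⟩, j)).1 := by
        intro a b hab
        have h4 : φ.symm (⟨γ, hγG⟩, a) = φ.symm (⟨γ, hγG⟩, b) := Subtype.ext hab
        have h5 := φ.symm.injective h4
        exact (Prod.mk.inj h5).2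
      change (Finset.univ.image _).card = r
      rw [Finset.card_image_of_injective _ h3, Finset.card_univ, Fintype.card_fin]
    have h3 := heB R hRc (1 + (r + 1) * B) (by
      have h4 : (r + 1) * B = r * B + B := by ring
      omega)
    refine (mul_le_mul' le_rfl h3).trans ?_
    rw [← mul_assoc, Submodule.span_mul_span]
    refine mul_le_mul' (Submodule.span_mono ?_) le_rfl
    rintro _ ⟨_, rfl, _, ⟨g, hg, rfl⟩, rfl⟩
    obtain ⟨j, -, hj⟩ := Finset.mem_image.1 (Finset.mem_coe.1 hg)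
    have hgD : g ∈ D := by
      rw [← hj]
      exact (φ.symm (⟨γ, hγG⟩, j)).2
    refine ⟨g, hgD, ?_⟩
    have h5 : φ ⟨g, hgD⟩ = (⟨γ, hγG⟩, j) := by
      rw [← φ.apply_symm_apply (⟨γ, hγG⟩, j)]
      congr 1
      exact Subtype.ext hj.symm
    change e g * q g = (∏ i, y i ^ (B * γ i)) * e g
    rw [hq1 g hgD, h5, mul_comm]

end G

end Pool.Agent.KM
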