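import Pool.Agent.KM.HWin

/-!
Project KM4 (MP_27fd67_ag), row H5: the case of disjoint sets of factors, `∑ u ≥ 4 ^ d`.
-/

set_option autoImplicit false

open Function

namespace Pool.Agent.KM

section H5

private theorem top_half_aux {J : Type} [DecidableEq J] (u : J → ℤ) (h : ℕ) :
    ∀ S : Finset J, S.card = 2 * h → ∃ B ⊆ S, B.card = h ∧
      0 ≤ ∑ l ∈ B, u l - ∑ l ∈ S \ B, u l ∧
      ∀ i ∈ S, ∀ j ∈ S, u i - u j ≤ ∑ l ∈ B, u l - ∑ l ∈ S \ B, u l := by
  induction h with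
  | zero =>
    intro S hS
    have h0 : S = ∅ := by
      rw [← Finset.card_eq_zero, hS, mul_zero]
    subst h0
    exact ⟨∅, subset_rfl, rfl, by simp, fun i hi => absurd hi (Finset.notMem_empty i)⟩
  | succ h ih =>
    intro S hS
    have hne : S.Nonempty := by
      rw [← Finset.card_pos, hS]
      omega
    obtain ⟨a, ha, hmax⟩ := S.exists_max_image u hne
    have hca : (S.erase a).card = 2 * h + 1 := by
      rw [Finset.card_erase_of_mem ha, hS]
      omega
    have hne' : (S.erase a).Nonempty := by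
      rw [← Finset.card_pos, hca]
      omega
    obtain ⟨b, hb, hmin⟩ := (S.erase a).exists_min_image u hne'
    have hcb : ((S.erase a).erase b).card = 2 * h := by
      rw [Finset.card_erase_of_mem hb, hca]
      omega
    have hbS : b ∈ S := Finset.mem_of_mem_erase hb
    have hmin' : ∀ j ∈ S, u b ≤ u j := by
      intro j hj
      by_cases hja : j = a
      · rw [hja]
        exact hmax b hbS
      · exact hmin j (Finset.mem_erase.2 ⟨hja, hj⟩)
    obtain ⟨B, hBS, hB, h0, -⟩ := ih _ hcb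
    have haB : a ∉ B := fun h => by
      have := hBS h
      simp at this
    have hba : b ≠ a := Finset.ne_of_mem_erase hb
    have hbB : b ∉ B := fun h => by
      have := hBS h
      simp at this
    have hBS' : B ⊆ S := fun x hx => Finset.mem_of_mem_erase (Finset.mem_of_mem_erase (hBS hx))
    have hdiff : S \ insert a B = insert b (((S.erase a).erase b) \ B) := by
      ext x
      simp only [Finset.mem_sdiff, Finset.mem_insert, Finset.mem_erase, not_or]
      constructor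
      · rintro ⟨h1, h2, h3⟩
        by_cases hx : x = b
        · exact Or.inl hx
        · exact Or.inr ⟨⟨hx, h2, h1⟩, h3⟩
      · rintro (rfl | ⟨⟨h1, h2, h3⟩, h4⟩)
        · exact ⟨hbS, hba, hbB⟩
        · exact ⟨h3, h2, h4⟩
    have hbn : b ∉ ((S.erase a).erase b) \ B := by
      simp
    have key : ∑ l ∈ insert a B, u l - ∑ l ∈ S \ insert a B, u l =
        (u a - u b) + (∑ l ∈ B, u l - ∑ l ∈ ((S.erase a).erase b) \ B, u l) := by
      rw [hdiff, Finset.sum_insert haB, Finset.sum_insert hbn]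
      ring
    refine ⟨insert a B, Finset.insert_subset ha hBS', ?_, ?_, ?_⟩
    · rw [Finset.card_insert_of_notMem haB, hB]
    · rw [key]
      have := hmax b hbS
      linarith
    · intro i hi j hj
      rw [key]
      have h1 := hmax i hi
      have h2 := hmin' j hj
      linarith

theorem top_half {J : Type} [DecidableEq J] (S : Finset J) (u : J → ℤ) (h : ℕ)
    (hS : S.card = 2 * h) : ∃ B ⊆ S, B.card = h ∧
      ∀ i ∈ S, ∀ j ∈ S, u i - u j ≤ ∑ l ∈ B, u l - ∑ l ∈ S \ B, u l := by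
  obtain ⟨B, h1, h2, -, h3⟩ := top_half_aux u h S hS
  exact ⟨B, h1, h2, h3⟩

/-- the induction step -/
private theorem win_ext_step {k F J Γ : Type} [Field k] [Field F] [Algebra k F] [Infinite k]
    [Finite Γ] [DecidableEq J] [DecidableEq Γ] (d : ℕ) (wt : Γ → ℕ)
    (G : J → Finset Γ) (S : Finset J) (hw : ∀ i ∈ S, ∑ g ∈ G i, wt g = 2)
    (hw1 : ∀ i ∈ S, ∀ g ∈ G i, 1 ≤ wt g)
    (hG : ∀ i ∈ S, ∀ j ∈ S, i ≠ j → Disjoint (G i) (G j)) (hS : S.card = 2 ^ (d + 1))
    (ih : ∀ B ⊆ S, B.card = 2 ^ d → ∀ (ν : ℤ) (o : Γ → ℤ),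
      (4 : ℤ) ^ d ≤ ∑ i ∈ B, (ν - 2 * ∑ g ∈ G i, o g) → Win k F d wt G B ν o) (n : ℕ) :
    ∀ (ν : ℤ) (o : Γ → ℤ), (4 : ℤ) ^ (d + 1) ≤ ∑ i ∈ S, (ν - 2 * ∑ g ∈ G i, o g) →
      ∑ i ∈ S, (ν - 2 * ∑ g ∈ G i, o g) ^ 2 ≤ (n : ℤ) → Win k F (d + 1) wt G S ν o := by
  induction n using Nat.strong_induction_on with
  | _ n ihn =>
    intro ν o hsum hsq
    obtain ⟨u, hu⟩ : ∃ u : J → ℤ, ∀ i, u i = ν - 2 * ∑ g ∈ G i, o g := ⟨_, fun _ => rfl⟩
    simp only [← hu] at hsum hsq
    by_cases hall : ∀ i ∈ S, 0 ≤ u i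
    · exact win_half (d + 1) wt G S hw hG hS ν o fun i hi => by
        rw [← hu]
        exact hall i hi
    push Not at hall
    obtain ⟨j₀, hj₀, hneg⟩ := hall
    obtain ⟨B, hBS, hB, hdiff⟩ := top_half S u (2 ^ d) (by rw [hS, pow_succ]; ring)
    have hsplit : ∑ i ∈ B, u i + ∑ i ∈ S \ B, u i = ∑ i ∈ S, u i := by
      rw [add_comm]
      exact Finset.sum_sdiff hBS
    have hself := hdiff j₀ hj₀ j₀ hj₀
    rw [sub_self] at hself
    -- the facet
    have hfacet : Win k F d wt G B ν o := by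
      refine ih B hBS hB ν o ?_
      simp only [← hu]
      have h4 : (4 : ℤ) ^ (d + 1) = 4 * 4 ^ d := by rw [pow_succ]; ring
      have h5 : (0 : ℤ) < 4 ^ d := by positivity
      linarith
    -- a large element
    obtain ⟨i₀, hi₀, hbig⟩ : ∃ i ∈ S, (2 : ℤ) ^ (d + 1) ≤ u i := by
      by_contra hcon
      push Not at hcon
      have h1 : ∑ i ∈ S, u i < ∑ _i ∈ S, (2 : ℤ) ^ (d + 1) :=
        Finset.sum_lt_sum_of_nonempty ⟨j₀, hj₀⟩ hcon
      rw [Finset.sum_const, hS, nsmul_eq_mul] at h1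
      have h2 : ((2 ^ (d + 1) : ℕ) : ℤ) * 2 ^ (d + 1) = 4 ^ (d + 1) := by
        push_cast
        rw [← mul_pow]
        norm_num
      rw [h2] at h1
      linarith
    have hgap : (2 : ℤ) ^ (d + 1) + 1 ≤ ∑ l ∈ B, u l - ∑ l ∈ S \ B, u l := by
      have := hdiff i₀ hi₀ j₀ hj₀
      linarith
    -- the factors
    have hne : ∀ i ∈ S, (G i).Nonempty := by
      intro i hi
      rw [Finset.nonempty_iff_ne_empty]
      intro h0
      have := hw i hi
      rw [h0, Finset.sum_empty] at this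
      omega
    have : Nonempty Γ := ⟨(hne j₀ hj₀).choose⟩
    have hne' : ∀ i, ∃ g, i ∈ S → g ∈ G i := by
      intro i
      by_cases hi : i ∈ S
      · obtain ⟨g, hg⟩ := hne i hi
        exact ⟨g, fun _ => hg⟩
      · exact ⟨Classical.arbitrary Γ, fun h => absurd h hi⟩
    choose g hg using hne'
    obtain ⟨D, hD⟩ : ∃ D : Finset Γ, D = (S \ B).image g := ⟨_, rfl⟩
    have hAS : ∀ i ∈ S \ B, i ∈ S := fun i hi => (Finset.mem_sdiff.1 hi).1
    have hmem : ∀ i ∈ S, ∀ x, x ∈ G i → x ∈ D → i ∈ S \ B ∧ x = g i := by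
      intro i hi x hx hxD
      rw [hD, Finset.mem_image] at hxD
      obtain ⟨j, hj, rfl⟩ := hxD
      by_cases hij : i = j
      · subst hij
        exact ⟨hj, rfl⟩
      · exact absurd (hg j (hAS j hj))
          (Finset.disjoint_left.1 (hG i hi j (hAS j hj) hij) hx)
    have hinterA : ∀ i ∈ S \ B, G i ∩ D = {g i} := by
      intro i hi
      ext x
      rw [Finset.mem_inter, Finset.mem_singleton]
      constructor
      · rintro ⟨h1, h2⟩
        exact (hmem i (hAS i hi) x h1 h2).2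
      · rintro rfl
        refine ⟨hg i (hAS i hi), ?_⟩
        rw [hD]
        exact Finset.mem_image_of_mem g hi
    have hinterB : ∀ i ∈ B, Disjoint (G i) D := by
      intro i hi
      rw [Finset.disjoint_left]
      intro x hx hxD
      exact (Finset.mem_sdiff.1 (hmem i (hBS hi) x hx hxD).1).2 hi
    have hwD : ∀ x ∈ D, 1 ≤ wt x := by
      intro x hx
      rw [hD, Finset.mem_image] at hx
      obtain ⟨j, hj, rfl⟩ := hx
      exact hw1 j (hAS j hj) _ (hg j (hAS j hj))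
    have hcard : ∀ i ∈ S, (G i ∩ D).card ≤ 1 := by
      intro i hi
      by_cases hiB : i ∈ B
      · rw [Finset.disjoint_iff_inter_eq_empty.1 (hinterB i hiB)]
        simp
      · rw [hinterA i (Finset.mem_sdiff.2 ⟨hi, hiB⟩), Finset.card_singleton]
    -- the new numbers
    have hsumo : ∀ i, ∑ x ∈ G i, (if x ∈ D then o x - 1 else o x) =
        ∑ x ∈ G i, o x - (G i ∩ D).card := by
      intro i
      have h1 : ∀ x ∈ G i, (if x ∈ D then o x - 1 else o x) =
          o x - (if x ∈ D then 1 else 0) := by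
        intro x _
        split_ifs <;> ring
      rw [Finset.sum_congr rfl h1, Finset.sum_sub_distrib, Finset.sum_ite_mem, Finset.sum_const]
      simp
    have huA : ∀ i ∈ S \ B, ν - 1 - 2 * ∑ x ∈ G i, (if x ∈ D then o x - 1 else o x) =
        u i + 1 := by
      intro i hi
      rw [hsumo, hinterA i hi, Finset.card_singleton, hu]
      push_cast
      ring
    have huB : ∀ i ∈ B, ν - 1 - 2 * ∑ x ∈ G i, (if x ∈ D then o x - 1 else o x) =
        u i - 1 := by
      intro i hi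
      rw [hsumo, Finset.disjoint_iff_inter_eq_empty.1 (hinterB i hi), Finset.card_empty, hu]
      push_cast
      ring
    have hcA : ((S \ B).card : ℤ) = 2 ^ d := by
      have h1 : (S \ B).card = 2 ^ d := by
        rw [Finset.card_sdiff_of_subset hBS, hS, hB, pow_succ]
        omega
      rw [h1]
      push_cast
      rfl
    have hcB : (B.card : ℤ) = 2 ^ d := by
      rw [hB]
      push_cast
      rfl
    have hsum' : ∑ i ∈ S, (ν - 1 - 2 * ∑ x ∈ G i, (if x ∈ D then o x - 1 else o x)) =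
        ∑ i ∈ S, u i := by
      rw [← Finset.sum_sdiff hBS, Finset.sum_congr rfl huA, Finset.sum_congr rfl huB,
        Finset.sum_add_distrib, Finset.sum_sub_distrib, ← hsplit, Finset.sum_const,
        Finset.sum_const, nsmul_eq_mul, nsmul_eq_mul, hcA, hcB]
      ring
    have hsq' : ∑ i ∈ S, (ν - 1 - 2 * ∑ x ∈ G i, (if x ∈ D then o x - 1 else o x)) ^ 2 =
        ∑ i ∈ S, u i ^ 2 - 2 * (∑ l ∈ B, u l - ∑ l ∈ S \ B, u l) + 2 ^ (d + 1) := by
      have hA2 : ∑ i ∈ S \ B, (ν - 1 - 2 * ∑ x ∈ G i, (if x ∈ D then o x - 1 else o x)) ^ 2 =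
          ∑ i ∈ S \ B, u i ^ 2 + 2 * ∑ i ∈ S \ B, u i + 2 ^ d := by
        have h1 : ∀ i ∈ S \ B,
            (ν - 1 - 2 * ∑ x ∈ G i, (if x ∈ D then o x - 1 else o x)) ^ 2 =
            u i ^ 2 + 2 * u i + 1 := by
          intro i hi
          rw [huA i hi]
          ring
        rw [Finset.sum_congr rfl h1, Finset.sum_add_distrib, Finset.sum_add_distrib,
          ← Finset.mul_sum, Finset.sum_const, nsmul_eq_mul, hcA, mul_one]
      have hB2 : ∑ i ∈ B, (ν - 1 - 2 * ∑ x ∈ G i, (if x ∈ D then o x - 1 else o x)) ^ 2 =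
          ∑ i ∈ B, u i ^ 2 - 2 * ∑ i ∈ B, u i + 2 ^ d := by
        have h1 : ∀ i ∈ B,
            (ν - 1 - 2 * ∑ x ∈ G i, (if x ∈ D then o x - 1 else o x)) ^ 2 =
            u i ^ 2 - 2 * u i + 1 := by
          intro i hi
          rw [huB i hi]
          ring
        rw [Finset.sum_congr rfl h1, Finset.sum_add_distrib, Finset.sum_sub_distrib,
          ← Finset.mul_sum, Finset.sum_const, nsmul_eq_mul, hcB, mul_one]
      rw [← Finset.sum_sdiff hBS, hA2, hB2, ← Finset.sum_sdiff (f := fun i => u i ^ 2) hBS,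
        pow_succ]
      ring
    refine win_step d wt G S B D hwD hcard hBS hinterB ν o hfacet ?_
    -- the rest by induction
    have hn : (0 : ℤ) ≤ ∑ i ∈ S, (ν - 1 - 2 * ∑ x ∈ G i, (if x ∈ D then o x - 1 else o x)) ^ 2 :=
      Finset.sum_nonneg fun i _ => sq_nonneg _
    have hlt : ∑ i ∈ S, (ν - 1 - 2 * ∑ x ∈ G i, (if x ∈ D then o x - 1 else o x)) ^ 2 <
        (n : ℤ) := by
      rw [hsq']
      have h5 : (0 : ℤ) < 2 ^ (d + 1) := by positivity
      linarith
    obtain ⟨m, hm⟩ : ∃ m : ℕ,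
        ∑ i ∈ S, (ν - 1 - 2 * ∑ x ∈ G i, (if x ∈ D then o x - 1 else o x)) ^ 2 = (m : ℤ) :=
      ⟨_, (Int.toNat_of_nonneg hn).symm⟩
    refine ihn m ?_ (ν - 1) _ ?_ ?_
    · rw [hm] at hlt
      exact_mod_cast hlt
    · rw [hsum']
      exact hsum
    · exact hm.le

theorem win_ext {k F J Γ : Type} [Field k] [Field F] [Algebra k F] [Infinite k] [Finite Γ]
    [DecidableEq J] [DecidableEq Γ] (d : ℕ) (hd : 1 ≤ d) (wt : Γ → ℕ)
    (G : J → Finset Γ) (S : Finset J) (hw : ∀ i ∈ S, ∑ g ∈ G i, wt g = 2)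
    (hw1 : ∀ i ∈ S, ∀ g ∈ G i, 1 ≤ wt g)
    (hG : ∀ i ∈ S, ∀ j ∈ S, i ≠ j → Disjoint (G i) (G j)) (hS : S.card = 2 ^ d) (ν : ℤ)
    (o : Γ → ℤ) (h : (4 : ℤ) ^ d ≤ ∑ i ∈ S, (ν - 2 * ∑ g ∈ G i, o g)) :
    Win k F d wt G S ν o := by
  induction d, hd using Nat.le_induction generalizing S ν o with
  | base =>
    refine win_two wt G S hw hG (by simpa using hS) ν o (le_trans ?_ h)
    norm_num
  | succ d hd ih =>
    have hn : (0 : ℤ) ≤ ∑ i ∈ S, (ν - 2 * ∑ g ∈ G i, o g) ^ 2 :=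
      Finset.sum_nonneg fun i _ => sq_nonneg _
    refine win_ext_step d wt G S hw hw1 hG hS (fun B hBS hB ν' o' h' => ?_)
      (∑ i ∈ S, (ν - 2 * ∑ g ∈ G i, o g) ^ 2).toNat ν o h (Int.toNat_of_nonneg hn).ge
    exact ih B (fun i hi => hw i (hBS hi)) (fun i hi => hw1 i (hBS hi))
      (fun i hi j hj => hG i (hBS hi) j (hBS hj)) hB ν' o' h'

end H5

end Pool.Agent.KM
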