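import Pool.Agent.KM.HDefs
import Pool.Agent.KM.PCert

/-!
Project KM4 (MP_27fd67_ag), row H6: the certificate with the powers `z i ^ κ` of the variables
(helper44).
-/

set_option autoImplicit false

open Function

namespace Pool.Agent.KM

section H6
variable (k : Type) {F : Type} [Field k] [Field F] [Algebra k F]

private theorem h6_monomial {n : ℕ} (z : Fin n → F) (u : Fin n → ℕ) :
    ∏ i, z i ^ u i ∈ Submodule.span k (Set.range z) ^ (∑ i, u i) := by
  have h : ∀ s : Finset (Fin n), ∏ i ∈ s, z i ^ u i ∈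
      Submodule.span k (Set.range z) ^ (∑ i ∈ s, u i) := by
    intro s
    induction s using Finset.cons_induction with
    | empty =>
      rw [Finset.prod_empty, Finset.sum_empty, pow_zero]; exact Submodule.one_le.1 le_rfl
    | cons i s hi ih =>
      rw [Finset.prod_cons, Finset.sum_cons, pow_add]
      exact Submodule.mul_mem_mul (Submodule.pow_mem_pow _
        (Submodule.subset_span (Set.mem_range_self i)) _) ih
  exact h Finset.univ

private theorem h6_pow_le {n : ℕ} (z : Fin n → F) (N : ℕ) :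
    Submodule.span k (Set.range z) ^ N ≤
      Submodule.span k {x | ∃ u : Fin n → ℕ, ∑ i, u i = N ∧ x = ∏ i, z i ^ u i} := by
  induction N with
  | zero =>
    rw [pow_zero, Submodule.one_le]
    exact Submodule.subset_span ⟨0, by simp, by simp⟩
  | succ N ih =>
    rw [pow_succ]
    refine (mul_le_mul' ih le_rfl).trans ?_
    rw [Submodule.span_mul_span]
    refine Submodule.span_le.2 ?_
    rintro _ ⟨_, ⟨u, hu, rfl⟩, _, ⟨j, rfl⟩, rfl⟩
    refine Submodule.subset_span ⟨u + Pi.single j 1, ?_, ?_⟩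
    · simp [Finset.sum_add_distrib, hu]
    · simp only [Pi.add_apply, pow_add, Finset.prod_mul_distrib]
      congr 1
      rw [Finset.prod_eq_single j]
      · simp
      · intro i _ hi; simp [Pi.single_eq_of_ne hi]
      · simp

theorem cert_pow (z : Fin 3 → F) (κ : ℕ) (hκ : 1 ≤ κ) :
    ∃ α α' β' : F, α ∈ Submodule.span k (Set.range z) ^ (6 * κ) ∧
      α' ∈ Submodule.span k (Set.range z) ^ (6 * κ) ∧
      β' ∈ Submodule.span k (Set.range z) ^ (6 * κ) ∧
      ∀ N, 23 * κ ≤ N + 2 → Submodule.span k (Set.range z) ^ N ≤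
        Submodule.span k {α * α', α * β', z 0 ^ (12 * κ), z 1 ^ (12 * κ), z 2 ^ (12 * κ)} *
          Submodule.span k (Set.range z) ^ (N - 12 * κ) := by
  set E := Submodule.span k (Set.range z) with hE
  set w : Fin 3 → F := fun i => z i ^ κ with hw
  set E' := Submodule.span k (Set.range w) with hE'
  have hz : ∀ i, z i ∈ E := fun i => Submodule.subset_span ⟨i, rfl⟩
  have hle : E' ≤ E ^ κ := by
    refine Submodule.span_le.2 ?_
    rintro _ ⟨i, rfl⟩
    exact Submodule.pow_mem_pow _ (hz i) _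
  have hle' : ∀ n, E' ^ n ≤ E ^ (n * κ) := by
    intro n
    rw [mul_comm, pow_mul]
    exact pow_le_pow_left' hle n
  have hmon : ∀ (i₀ i₁ i₂ : ℕ), i₀ + i₁ + i₂ = 6 →
      w 0 ^ i₀ * w 1 ^ i₁ * w 2 ^ i₂ ∈ E ^ (6 * κ) := by
    intro i₀ i₁ i₂ h
    refine hle' 6 ?_
    rw [← h, pow_add, pow_add]
    exact Submodule.mul_mem_mul (Submodule.mul_mem_mul
      (Submodule.pow_mem_pow _ (Submodule.subset_span (Set.mem_range_self 0)) _)
      (Submodule.pow_mem_pow _ (Submodule.subset_span (Set.mem_range_self 1)) _))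
      (Submodule.pow_mem_pow _ (Submodule.subset_span (Set.mem_range_self 2)) _)
  set α : F := w 1 ^ 3 * w 2 ^ 3 + w 0 ^ 2 * w 1 ^ 4 + w 0 ^ 5 * w 2 with hα
  set α' : F := w 0 * w 1 ^ 4 * w 2 + w 0 ^ 5 * w 1 with hα'
  set β' : F := w 1 ^ 2 * w 2 ^ 4 + w 0 ^ 3 * w 2 ^ 3 + w 0 ^ 3 * w 1 ^ 3 with hβ'
  refine ⟨α, α', β', ?_, ?_, ?_, ?_⟩
  · refine Submodule.add_mem _ (Submodule.add_mem _ ?_ ?_) ?_
    · simpa using hmon 0 3 3 (by norm_num)
    · simpa using hmon 2 4 0 (by norm_num)
    · simpa using hmon 5 0 1 (by norm_num)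
  · refine Submodule.add_mem _ ?_ ?_
    · simpa using hmon 1 4 1 (by norm_num)
    · simpa using hmon 5 1 0 (by norm_num)
  · refine Submodule.add_mem _ (Submodule.add_mem _ ?_ ?_) ?_
    · simpa using hmon 0 2 4 (by norm_num)
    · simpa using hmon 3 0 3 (by norm_num)
    · simpa using hmon 3 3 0 (by norm_num)
  intro N hN
  refine (h6_pow_le k z N).trans (Submodule.span_le.2 ?_)
  rintro _ ⟨u, hu, rfl⟩
  set g : Fin 3 → ℕ := fun i => u i % κ with hg
  set u' : Fin 3 → ℕ := fun i => u i / κ with hu'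
  have hdiv : ∀ i, u i = g i + κ * u' i := fun i => by
    simp only [hg, hu']; exact (Nat.mod_add_div (u i) κ).symm
  have hgq : ∀ i, g i < κ := fun i => Nat.mod_lt _ hκ
  have hsum : N = ∑ i, g i + (∑ i, u' i) * κ := by
    rw [← hu, Finset.sum_mul, ← Finset.sum_add_distrib]
    exact Finset.sum_congr rfl fun i _ => by rw [hdiv i, mul_comm κ]
  have hgs : ∑ i, g i + 3 ≤ 3 * κ := by
    rw [Fin.sum_univ_three]
    have := hgq 0; have := hgq 1; have := hgq 2
    omega
  have h21 : 21 ≤ ∑ i, u' i := by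
    by_contra hcon
    have h5 : ∑ i, u' i ≤ 20 := by omega
    have h6 : (∑ i, u' i) * κ ≤ 20 * κ := Nat.mul_le_mul_right κ h5
    omega
  have h4 : ∏ i, w i ^ u' i ∈
      Submodule.span k {α * α', α * β', w 0 ^ 12, w 1 ^ 12, w 2 ^ 12} * E' ^ (∑ i, u' i - 12) :=
    cert k F w α α' β' hα hα' hβ' _ h21 (h6_monomial k w u')
  have h5 : Submodule.span k {α * α', α * β', w 0 ^ 12, w 1 ^ 12, w 2 ^ 12} *
      E' ^ (∑ i, u' i - 12) ≤
      Submodule.span k {α * α', α * β', z 0 ^ (12 * κ), z 1 ^ (12 * κ), z 2 ^ (12 * κ)} *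
        E ^ ((∑ i, u' i - 12) * κ) := by
    refine mul_le_mul' ?_ (hle' _)
    have e : ∀ i, w i ^ 12 = z i ^ (12 * κ) := fun i => by
      simp only [hw]; rw [← pow_mul, mul_comm]
    rw [e 0, e 1, e 2]
  have h6 : ∏ i, z i ^ u i = (∏ i, w i ^ u' i) * ∏ i, z i ^ g i := by
    rw [← Finset.prod_mul_distrib]
    exact Finset.prod_congr rfl fun i _ => by
      rw [hdiv i, pow_add, pow_mul, mul_comm]
  have h7 : N - 12 * κ = (∑ i, u' i - 12) * κ + ∑ i, g i := by
    rw [hsum, Nat.sub_mul]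
    have : 12 * κ ≤ (∑ i, u' i) * κ := Nat.mul_le_mul_right κ (by omega)
    omega
  rw [h6, h7, pow_add, ← mul_assoc]
  exact Submodule.mul_mem_mul (h5 h4) (h6_monomial k z g)

theorem hq_cert {L : Type} [DecidableEq L] (z : Fin 3 → F) (j : Fin 3 → L) (hj : Injective j)
    (κ : ℕ) (hκ : 1 ≤ κ) (N : ℕ) (hN : 23 * κ ≤ N + 2) (c : Fin 3 ⊕ L → ℕ)
    (h1 : ∀ i, c (Sum.inl i) = 6 * κ) (h2 : ∀ i, c (Sum.inr (j i)) = 12 * κ) :
    HQ k GH {Sum.inl false, Sum.inl true, Sum.inr (j 0), Sum.inr (j 1), Sum.inr (j 2)} z N c := by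
  have s1 : ∑ g ∈ GH (L := L) (Sum.inl false), c g = 12 * κ := by
    have : (GH (L := L) (Sum.inl false)) = {Sum.inl 0, Sum.inl 1} := rfl
    rw [this, Finset.sum_pair (by simp), h1, h1]
    ring
  have s2 : ∑ g ∈ GH (L := L) (Sum.inl true), c g = 12 * κ := by
    have : (GH (L := L) (Sum.inl true)) = {Sum.inl 0, Sum.inl 2} := rfl
    rw [this, Finset.sum_pair (by simp), h1, h1]
    ring
  have s3 : ∀ i, ∑ g ∈ GH (Sum.inr (j i)), c g = 12 * κ := by
    intro i
    have : (GH (Sum.inr (j i))) = {Sum.inr (j i)} := rfl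
    rw [this, Finset.sum_singleton, h2]
  have hs : ∀ i ∈ ({Sum.inl false, Sum.inl true, Sum.inr (j 0), Sum.inr (j 1), Sum.inr (j 2)} :
      Finset (Bool ⊕ L)), ∑ g ∈ GH i, c g = 12 * κ := by
    intro i hi
    simp only [Finset.mem_insert, Finset.mem_singleton] at hi
    rcases hi with rfl | rfl | rfl | rfl | rfl
    · exact s1
    · exact s2
    · exact s3 0
    · exact s3 1
    · exact s3 2
  refine ⟨fun i hi => ?_, ?_⟩
  · rw [hs i hi]; omega
  obtain ⟨α, α', β', hα, hα', hβ', hE⟩ := cert_pow k z κ hκ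
  have n10 : j 1 ≠ j 0 := fun h => by simpa using hj h
  have n20 : j 2 ≠ j 0 := fun h => by simpa using hj h
  have n21 : j 2 ≠ j 1 := fun h => by simpa using hj h
  have hz : ∀ i, z i ^ (12 * κ) ∈ Submodule.span k (Set.range z) ^ (12 * κ) := fun i =>
    Submodule.pow_mem_pow _ (Submodule.subset_span (Set.mem_range_self i)) _
  refine ⟨Sum.elim ![α, α', β'] (fun l => if l = j 0 then z 0 ^ (12 * κ) else
    if l = j 1 then z 1 ^ (12 * κ) else if l = j 2 then z 2 ^ (12 * κ) else 0), ?_, ?_⟩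
  · rintro (i | l)
    · rw [h1 i, Sum.elim_inl]
      fin_cases i
      · exact hα
      · exact hα'
      · exact hβ'
    · rw [Sum.elim_inr]
      split_ifs with e0 e1 e2
      · rw [e0, h2]; exact hz 0
      · rw [e1, h2]; exact hz 1
      · rw [e2, h2]; exact hz 2
      · exact Submodule.zero_mem _
  · refine (hE N hN).trans ?_
    refine Submodule.mul_le.2 fun m hm n hn => ?_
    induction hm using Submodule.span_induction with
    | mem x hx =>
      have key : ∀ i ∈ ({Sum.inl false, Sum.inl true, Sum.inr (j 0), Sum.inr (j 1),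
          Sum.inr (j 2)} : Finset (Bool ⊕ L)), ∀ ξ : Fin 3 ⊕ L → F, ∏ g ∈ GH i, ξ g = x →
          x * n ∈ ⨆ i ∈ ({Sum.inl false, Sum.inl true, Sum.inr (j 0), Sum.inr (j 1),
          Sum.inr (j 2)} : Finset (Bool ⊕ L)), Submodule.span k {∏ g ∈ GH i, ξ g} *
            Submodule.span k (Set.range z) ^ (N - ∑ g ∈ GH i, c g) := by
        intro i hi ξ hx
        refine (le_iSup₂_of_le (f := fun i (_ : i ∈ ({Sum.inl false, Sum.inl true,
          Sum.inr (j 0), Sum.inr (j 1), Sum.inr (j 2)} : Finset (Bool ⊕ L))) =>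
            Submodule.span k {∏ g ∈ GH i, ξ g} *
            Submodule.span k (Set.range z) ^ (N - ∑ g ∈ GH i, c g)) i hi le_rfl) ?_
        show x * n ∈ Submodule.span k {∏ g ∈ GH i, ξ g} *
            Submodule.span k (Set.range z) ^ (N - ∑ g ∈ GH i, c g)
        rw [hs i hi, hx]
        exact Submodule.mul_mem_mul (Submodule.mem_span_singleton_self x) hn
      simp only [Set.mem_insert_iff, Set.mem_singleton_iff] at hx
      rcases hx with h | h | h | h | h
      · refine key (Sum.inl false) (by simp) _ ?_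
        have : (GH (L := L) (Sum.inl false)) = {Sum.inl 0, Sum.inl 1} := rfl
        rw [this, Finset.prod_pair (by simp), h]
        simp
      · refine key (Sum.inl true) (by simp) _ ?_
        have : (GH (L := L) (Sum.inl true)) = {Sum.inl 0, Sum.inl 2} := rfl
        rw [this, Finset.prod_pair (by simp), h]
        simp
      · refine key (Sum.inr (j 0)) (by simp) _ ?_
        have : (GH (Sum.inr (j 0))) = {Sum.inr (j 0)} := rfl
        rw [this, Finset.prod_singleton, h]
        simp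
      · refine key (Sum.inr (j 1)) (by simp) _ ?_
        have : (GH (Sum.inr (j 1))) = {Sum.inr (j 1)} := rfl
        rw [this, Finset.prod_singleton, h]
        simp [n10]
      · refine key (Sum.inr (j 2)) (by simp) _ ?_
        have : (GH (Sum.inr (j 2))) = {Sum.inr (j 2)} := rfl
        rw [this, Finset.prod_singleton, h]
        simp [n20, n21]
    | zero => rw [zero_mul]; exact Submodule.zero_mem _
    | add x y _ _ hx hy => rw [add_mul]; exact Submodule.add_mem _ hx hy
    | smul a x _ hx => rw [smul_mul_assoc]; exact Submodule.smul_mem _ _ hx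

end H6

end Pool.Agent.KM
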