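import Pool.Agent.KM.HDefs

/-!
Project KM4 (MP_27fd67_ag), row H3: two variables, monomials (helper90).
-/

set_option autoImplicit false

open Function

namespace Pool.Agent.KM

section H3
variable {k F J Γ : Type} [Field k] [Field F] [Algebra k F]

private theorem h3_pow_le (A B : Submodule k F) (M : ℕ) :
    (A ⊔ B) ^ (M + 1) ≤ B ^ (M + 1) ⊔ A * (A ⊔ B) ^ M := by
  induction M with
  | zero => rw [zero_add, pow_one, pow_one, pow_zero, mul_one, sup_comm]
  | succ M ih =>
    calc (A ⊔ B) ^ (M + 1 + 1) = (A ⊔ B) * (A ⊔ B) ^ (M + 1) := pow_succ' _ _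
      _ = A * (A ⊔ B) ^ (M + 1) ⊔ B * (A ⊔ B) ^ (M + 1) := Submodule.sup_mul _ _ _
      _ ≤ A * (A ⊔ B) ^ (M + 1) ⊔ B * (B ^ (M + 1) ⊔ A * (A ⊔ B) ^ M) :=
          sup_le_sup_left (mul_le_mul' le_rfl ih) _
      _ ≤ B ^ (M + 1 + 1) ⊔ A * (A ⊔ B) ^ (M + 1) := by
          rw [Submodule.mul_sup, ← pow_succ', mul_left_comm]
          refine sup_le le_sup_right (sup_le le_sup_left (le_trans ?_ le_sup_right))
          rw [pow_succ' (A ⊔ B) M]
          exact mul_le_mul' le_rfl (mul_le_mul' le_sup_right le_rfl)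

/-- A power of `A ⊔ B` is contained in `X` if all the products of powers are. -/
private theorem h3_split (A B X : Submodule k F) (N : ℕ)
    (h : ∀ c ≤ N, A ^ c * B ^ (N - c) ≤ X) : (A ⊔ B) ^ N ≤ X := by
  have key : ∀ e ≤ N, A ^ (N - e) * (A ⊔ B) ^ e ≤ X := by
    intro e
    induction e with
    | zero =>
      intro _
      simpa using h N le_rfl
    | succ e ih =>
      intro he
      have ih' := ih (by omega)
      have e2 : N - e = (N - (e + 1)) + 1 := by omega
      have h1 := h (N - (e + 1)) (by omega)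
      rw [show N - (N - (e + 1)) = e + 1 by omega] at h1
      calc A ^ (N - (e + 1)) * (A ⊔ B) ^ (e + 1)
          ≤ A ^ (N - (e + 1)) * (B ^ (e + 1) ⊔ A * (A ⊔ B) ^ e) :=
            mul_le_mul' le_rfl (h3_pow_le A B e)
        _ = A ^ (N - (e + 1)) * B ^ (e + 1) ⊔ A ^ (N - e) * (A ⊔ B) ^ e := by
            rw [Submodule.mul_sup, ← mul_assoc, ← pow_succ, ← e2]
        _ ≤ X := sup_le h1 ih'
  have := key N le_rfl
  simpa using this

private theorem h3_span_pow (x : F) (n : ℕ) :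
    (Submodule.span k {x}) ^ n = Submodule.span k {x ^ n} := by
  rw [Submodule.span_pow, Set.singleton_pow]

private theorem h3_range (z : Fin 2 → F) :
    Submodule.span k (Set.range z) = Submodule.span k {z 0} ⊔ Submodule.span k {z 1} := by
  rw [← Submodule.span_union]
  congr 1
  ext x
  simp only [Set.mem_range, Fin.exists_fin_two, Set.singleton_union, Set.mem_insert_iff,
    Set.mem_singleton_iff]
  constructor
  · rintro (h | h)
    · exact Or.inl h.symm
    · exact Or.inr h.symm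
  · rintro (h | h)
    · exact Or.inl h.symm
    · exact Or.inr h.symm

private theorem h3_mon (z : Fin 2 → F) (N c u v : ℕ) (hu : u ≤ c) (hc : c ≤ N)
    (hv : v ≤ N - c) :
    Submodule.span k {z 0} ^ c * Submodule.span k {z 1} ^ (N - c) ≤
      Submodule.span k {z 0 ^ u * z 1 ^ v} * Submodule.span k (Set.range z) ^ (N - (u + v)) := by
  have hA : Submodule.span k {z 0} ≤ Submodule.span k (Set.range z) := by
    rw [h3_range]; exact le_sup_left
  have hB : Submodule.span k {z 1} ≤ Submodule.span k (Set.range z) := by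
    rw [h3_range]; exact le_sup_right
  have e1 : Submodule.span k {z 0 ^ u * z 1 ^ v} =
      Submodule.span k {z 0} ^ u * Submodule.span k {z 1} ^ v := by
    rw [h3_span_pow, h3_span_pow, Submodule.span_mul_span, Set.singleton_mul_singleton]
  calc Submodule.span k {z 0} ^ c * Submodule.span k {z 1} ^ (N - c)
      = (Submodule.span k {z 0} ^ u * Submodule.span k {z 0} ^ (c - u)) *
        (Submodule.span k {z 1} ^ v * Submodule.span k {z 1} ^ (N - c - v)) := by
        rw [← pow_add, ← pow_add, Nat.add_sub_cancel' hu, Nat.add_sub_cancel' hv]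
    _ = (Submodule.span k {z 0} ^ u * Submodule.span k {z 1} ^ v) *
        (Submodule.span k {z 0} ^ (c - u) * Submodule.span k {z 1} ^ (N - c - v)) :=
        mul_mul_mul_comm _ _ _ _
    _ ≤ (Submodule.span k {z 0} ^ u * Submodule.span k {z 1} ^ v) *
        (Submodule.span k (Set.range z) ^ (c - u) *
          Submodule.span k (Set.range z) ^ (N - c - v)) :=
        mul_le_mul' le_rfl (mul_le_mul' (pow_le_pow_left' hA _) (pow_le_pow_left' hB _))
    _ = _ := by
        rw [← e1, ← pow_add]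
        congr 2
        omega

/-- Reduction to monomials. -/
private theorem h3_red (G : J → Finset Γ) (S : Finset J) (z : Fin 2 → F) (N : ℕ) (c : Γ → ℕ)
    (hS : ∀ l ∈ S, ∑ g ∈ G l, c g ≤ N) (ξ : Γ → F)
    (hξ : ∀ g, ξ g ∈ Submodule.span k (Set.range z) ^ c g)
    (h : ∀ a ≤ N, ∃ i ∈ S, ∃ u v : ℕ, u ≤ a ∧ v ≤ N - a ∧ u + v = ∑ g ∈ G i, c g ∧
      ∏ g ∈ G i, ξ g = z 0 ^ u * z 1 ^ v) : HQ k G S z N c := by
  refine ⟨hS, ξ, hξ, ?_⟩
  conv_lhs => rw [h3_range]
  apply h3_split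
  intro a ha
  obtain ⟨i, hi, u, v, hu, hv, huv, hp⟩ := h a ha
  refine le_trans (h3_mon z N a u v hu ha hv) ?_
  rw [← hp, huv]
  exact le_iSup₂ (f := fun i (_ : i ∈ S) => Submodule.span k {∏ g ∈ G i, ξ g} *
        Submodule.span k (Set.range z) ^ (N - ∑ g ∈ G i, c g)) i hi

private theorem h3_mem (z : Fin 2 → F) (u v n : ℕ) (h : u + v = n) :
    z 0 ^ u * z 1 ^ v ∈ Submodule.span k (Set.range z) ^ n := by
  rw [← h, pow_add]
  exact Submodule.mul_mem_mul
    (Submodule.pow_mem_pow _ (Submodule.subset_span (Set.mem_range_self 0)) _)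
    (Submodule.pow_mem_pow _ (Submodule.subset_span (Set.mem_range_self 1)) _)

theorem hq_two [DecidableEq Γ] (G : J → Finset Γ) (S : Finset J) (z : Fin 2 → F) (N : ℕ)
    (c : Γ → ℕ) (hS : ∀ l ∈ S, ∑ g ∈ G l, c g ≤ N) (i j : J) (hi : i ∈ S) (hj : j ∈ S)
    (hij : Disjoint (G i) (G j)) (h : ∑ g ∈ G i, c g + ∑ g ∈ G j, c g ≤ N + 1) :
    HQ k G S z N c := by
  refine h3_red G S z N c hS (fun g => if g ∈ G i then z 0 ^ c g else z 1 ^ c g) (fun g => ?_)
    fun a ha => ?_
  · by_cases hg : g ∈ G i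
    · simp only [if_pos hg]
      simpa using h3_mem (k := k) z (c g) 0 (c g) rfl
    · simp only [if_neg hg]
      simpa using h3_mem (k := k) z 0 (c g) (c g) (zero_add _)
  · by_cases h1 : ∑ g ∈ G i, c g ≤ a
    · refine ⟨i, hi, ∑ g ∈ G i, c g, 0, h1, Nat.zero_le _, rfl, ?_⟩
      rw [pow_zero, mul_one, ← Finset.prod_pow_eq_pow_sum]
      exact Finset.prod_congr rfl fun g hg => if_pos hg
    · refine ⟨j, hj, 0, ∑ g ∈ G j, c g, Nat.zero_le _, by omega, zero_add _, ?_⟩
      rw [pow_zero, one_mul, ← Finset.prod_pow_eq_pow_sum]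
      exact Finset.prod_congr rfl fun g hg => if_neg fun hg' =>
        Finset.disjoint_left.1 hij hg' hg

theorem hq_three [DecidableEq Γ] (G : J → Finset Γ) (S : Finset J) (z : Fin 2 → F) (N : ℕ)
    (c : Γ → ℕ) (hS : ∀ l ∈ S, ∑ g ∈ G l, c g ≤ N) (i j l : J) (hi : i ∈ S) (hj : j ∈ S)
    (hl : l ∈ S) (g₀ : Γ) (hg : G j = {g₀}) (hgi : g₀ ∉ G i) (hgl : g₀ ∉ G l)
    (hil : Disjoint (G i) (G l)) (h1 : 3 * ∑ g ∈ G i, c g ≤ 2 * N) (h2 : 3 * c g₀ ≤ 2 * N)
    (h3 : 3 * ∑ g ∈ G l, c g ≤ 2 * N) : HQ k G S z N c := by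
  refine h3_red G S z N c hS (fun g => if g ∈ G i then z 0 ^ c g else
    if g = g₀ then z 0 ^ (c g₀ / 2) * z 1 ^ (c g₀ - c g₀ / 2) else z 1 ^ c g) (fun g => ?_)
    fun a ha => ?_
  · by_cases hgi' : g ∈ G i
    · simp only [if_pos hgi']
      simpa using h3_mem (k := k) z (c g) 0 (c g) rfl
    · simp only [if_neg hgi']
      by_cases hg0 : g = g₀
      · subst hg0
        simp only [if_pos]
        exact h3_mem z _ _ _ (by omega)
      · simp only [if_neg hg0]
        simpa using h3_mem (k := k) z 0 (c g) (c g) (zero_add _)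
  · by_cases h4 : ∑ g ∈ G i, c g ≤ a
    · refine ⟨i, hi, ∑ g ∈ G i, c g, 0, h4, Nat.zero_le _, rfl, ?_⟩
      rw [pow_zero, mul_one, ← Finset.prod_pow_eq_pow_sum]
      exact Finset.prod_congr rfl fun g hg => if_pos hg
    by_cases h5 : ∑ g ∈ G l, c g ≤ N - a
    · refine ⟨l, hl, 0, ∑ g ∈ G l, c g, Nat.zero_le _, h5, zero_add _, ?_⟩
      rw [pow_zero, one_mul, ← Finset.prod_pow_eq_pow_sum]
      refine Finset.prod_congr rfl fun g hg' => ?_
      have h6 : g ∉ G i := fun h7 => Finset.disjoint_left.1 hil h7 hg'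
      have h7 : g ≠ g₀ := fun h8 => hgl (h8 ▸ hg')
      simp only [if_neg h6, if_neg h7]
    · refine ⟨j, hj, c g₀ / 2, c g₀ - c g₀ / 2, by omega, by omega, ?_, ?_⟩
      · rw [hg, Finset.sum_singleton]
        omega
      · rw [hg, Finset.prod_singleton]
        simp only [if_neg hgi, if_pos]

end H3

end Pool.Agent.KM
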