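import Pool.Agent.KM.HStep
import Pool.Agent.KM.HTwo
import Pool.Agent.KM.HCert

/-!
Project KM4 (MP_27fd67_ag), row H7: five elements, two of them with a common factor, in three
variables.
-/

set_option autoImplicit false
set_option linter.unusedSectionVars false

open Function

namespace Pool.Agent.KM

section H7

private theorem h7_sum {L : Type} [DecidableEq L] (c : Fin 3 ⊕ L → ℕ) :
    (∑ g ∈ GH (Sum.inl false : Bool ⊕ L), c g = c (Sum.inl 0) + c (Sum.inl 1)) ∧
    (∑ g ∈ GH (Sum.inl true : Bool ⊕ L), c g = c (Sum.inl 0) + c (Sum.inl 2)) ∧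
    ∀ i : L, ∑ g ∈ GH (Sum.inr i : Bool ⊕ L), c g = c (Sum.inr i) := by
  refine ⟨?_, ?_, fun i => ?_⟩
  · unfold GH
    rw [Finset.sum_pair (by simp)]
  · unfold GH
    rw [Finset.sum_pair (by simp)]
  · unfold GH
    rw [Finset.sum_singleton]

theorem hq_five {k F L : Type} [Field k] [Field F] [Algebra k F] [Infinite k] [Finite L]
    [DecidableEq L] (z : Fin 3 → F) (j : Fin 3 → L) (hj : Injective j) (κ : ℕ) (hκ : 1 ≤ κ)
    (M : ℕ) (hM : M + 4 ≤ 10 * κ) (N : ℕ) (hN : 23 * κ + M ≤ N + 2) (c : Fin 3 ⊕ L → ℕ)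
    (h1 : ∀ i, 6 * κ ≤ c (Sum.inl i)) (h2 : ∀ i, 12 * κ ≤ c (Sum.inr (j i)))
    (h3 : ∑ i, c (Sum.inl i) + ∑ i, c (Sum.inr (j i)) = 54 * κ + M) :
    HQ k GH {Sum.inl false, Sum.inl true, Sum.inr (j 0), Sum.inr (j 1), Sum.inr (j 2)} z N c := by
  induction M generalizing N c with
  | zero =>
    rw [Fin.sum_univ_three, Fin.sum_univ_three] at h3
    have a0 := h1 0
    have a1 := h1 1
    have a2 := h1 2
    have b0 := h2 0
    have b1 := h2 1
    have b2 := h2 2
    refine hq_cert k z j hj κ hκ N (by omega) c (fun i => ?_) (fun i => ?_)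
    · fin_cases i
      · show c (Sum.inl 0) = _
        omega
      · show c (Sum.inl 1) = _
        omega
      · show c (Sum.inl 2) = _
        omega
    · fin_cases i
      · show c (Sum.inr (j 0)) = _
        omega
      · show c (Sum.inr (j 1)) = _
        omega
      · show c (Sum.inr (j 2)) = _
        omega
  | succ M ih =>
    obtain ⟨N, rfl⟩ : ∃ N', N = N' + 1 := ⟨N - 1, by omega⟩
    have h3' := h3
    rw [Fin.sum_univ_three, Fin.sum_univ_three] at h3'
    have a0 := h1 0
    have a1 := h1 1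
    have a2 := h1 2
    have b0 := h2 0
    have b1 := h2 1
    have b2 := h2 2
    obtain ⟨s1, s2, s3⟩ := h7_sum c
    have hdeg : ∀ l ∈ ({Sum.inl false, Sum.inl true, Sum.inr (j 0), Sum.inr (j 1),
        Sum.inr (j 2)} : Finset (Bool ⊕ L)), ∑ g ∈ GH l, c g ≤ 12 * κ + M + 1 := by
      intro l hl
      simp only [Finset.mem_insert, Finset.mem_singleton] at hl
      rcases hl with rfl | rfl | rfl | rfl | rfl
      · rw [s1]; omega
      · rw [s2]; omega
      · rw [s3]; omega
      · rw [s3]; omega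
      · rw [s3]; omega
    have hj01 : j 0 ≠ j 1 := fun h => absurd (hj h) (by decide)
    have hj02 : j 0 ≠ j 2 := fun h => absurd (hj h) (by decide)
    have hj12 : j 1 ≠ j 2 := fun h => absurd (hj h) (by decide)
    -- one step for the factor `g`
    have step : ∀ g : Fin 3 ⊕ L, 1 ≤ c g →
        (∀ i, 6 * κ ≤ (if (Sum.inl i : Fin 3 ⊕ L) = g then c (Sum.inl i) - 1
          else c (Sum.inl i))) →
        (∀ i, 12 * κ ≤ (if (Sum.inr (j i) : Fin 3 ⊕ L) = g then c (Sum.inr (j i)) - 1
          else c (Sum.inr (j i)))) →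
        (∑ i, (if (Sum.inl i : Fin 3 ⊕ L) = g then c (Sum.inl i) - 1 else c (Sum.inl i)) +
          ∑ i, (if (Sum.inr (j i) : Fin 3 ⊕ L) = g then c (Sum.inr (j i)) - 1
            else c (Sum.inr (j i))) = 54 * κ + M) →
        (∃ i' j' l' : Bool ⊕ L, i' ∈ ({Sum.inl false, Sum.inl true, Sum.inr (j 0), Sum.inr (j 1),
            Sum.inr (j 2)} : Finset (Bool ⊕ L)) ∧ j' ∈ ({Sum.inl false, Sum.inl true,
            Sum.inr (j 0), Sum.inr (j 1), Sum.inr (j 2)} : Finset (Bool ⊕ L)) ∧
            l' ∈ ({Sum.inl false, Sum.inl true, Sum.inr (j 0), Sum.inr (j 1),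
            Sum.inr (j 2)} : Finset (Bool ⊕ L)) ∧ g ∉ GH i' ∧ g ∉ GH j' ∧ g ∉ GH l' ∧
            ∃ g₀ : Fin 3 ⊕ L, GH j' = {g₀} ∧ g₀ ∉ GH i' ∧ g₀ ∉ GH l' ∧
              Disjoint (GH i') (GH l')) →
        HQ k GH {Sum.inl false, Sum.inl true, Sum.inr (j 0), Sum.inr (j 1), Sum.inr (j 2)}
          z (N + 1) c := by
      intro g hg hh1 hh2 hh3 ⟨i', j', l', hi', hj', hl', gi, gj, gl, g₀, hg₀, ggi, ggl, hil⟩
      apply hq_step GH _ (({Sum.inl false, Sum.inl true, Sum.inr (j 0), Sum.inr (j 1),
        Sum.inr (j 2)} : Finset (Bool ⊕ L)).filter (fun i => g ∉ GH i)) {g} z N c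
      · intro g' hg'
        rw [Finset.mem_singleton] at hg'
        rw [hg']; exact hg
      · intro i _
        exact (Finset.card_le_card Finset.inter_subset_right).trans (by simp)
      · exact Finset.filter_subset _ _
      · intro i hi
        rw [Finset.disjoint_singleton_right]
        exact (Finset.mem_filter.1 hi).2
      · refine hq_three GH _ _ _ c ?_ i' j' l' (Finset.mem_filter.2 ⟨hi', gi⟩)
          (Finset.mem_filter.2 ⟨hj', gj⟩) (Finset.mem_filter.2 ⟨hl', gl⟩) g₀ hg₀ ggi ggl hil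
          ?_ ?_ ?_
        · intro l hl
          have := hdeg l (Finset.mem_filter.1 hl).1
          omega
        · have := hdeg i' hi'
          omega
        · have := hdeg j' hj'
          rw [hg₀, Finset.sum_singleton] at this
          omega
        · have := hdeg l' hl'
          omega
      · refine ih (by omega) N (by omega) _ (fun i => ?_) (fun i => ?_) ?_
        · simpa only [Finset.mem_singleton] using hh1 i
        · simpa only [Finset.mem_singleton] using hh2 i
        · simpa only [Finset.mem_singleton] using hh3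
    -- the factors
    by_cases c0 : 6 * κ < c (Sum.inl 0)
    · apply step (Sum.inl 0) (by omega)
      · intro i
        fin_cases i <;> simp <;> omega
      · intro i
        fin_cases i <;> simp <;> omega
      · rw [Fin.sum_univ_three, Fin.sum_univ_three]
        simp
        omega
      · exact ⟨Sum.inr (j 0), Sum.inr (j 1), Sum.inr (j 2), by simp, by simp, by simp,
          by simp [GH], by simp [GH], by simp [GH], Sum.inr (j 1), rfl,
          by simp [GH, hj01.symm], by simp [GH, hj12], by simp [GH, hj02]⟩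
    by_cases c1 : 6 * κ < c (Sum.inl 1)
    · apply step (Sum.inl 1) (by omega)
      · intro i
        fin_cases i <;> simp <;> omega
      · intro i
        fin_cases i <;> simp <;> omega
      · rw [Fin.sum_univ_three, Fin.sum_univ_three]
        simp
        omega
      · exact ⟨Sum.inr (j 0), Sum.inr (j 1), Sum.inr (j 2), by simp, by simp, by simp,
          by simp [GH], by simp [GH], by simp [GH], Sum.inr (j 1), rfl,
          by simp [GH, hj01.symm], by simp [GH, hj12], by simp [GH, hj02]⟩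
    by_cases c2 : 6 * κ < c (Sum.inl 2)
    · apply step (Sum.inl 2) (by omega)
      · intro i
        fin_cases i <;> simp <;> omega
      · intro i
        fin_cases i <;> simp <;> omega
      · rw [Fin.sum_univ_three, Fin.sum_univ_three]
        simp
        omega
      · exact ⟨Sum.inr (j 0), Sum.inr (j 1), Sum.inr (j 2), by simp, by simp, by simp,
          by simp [GH], by simp [GH], by simp [GH], Sum.inr (j 1), rfl,
          by simp [GH, hj01.symm], by simp [GH, hj12], by simp [GH, hj02]⟩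
    by_cases e0 : 12 * κ < c (Sum.inr (j 0))
    · apply step (Sum.inr (j 0)) (by omega)
      · intro i
        fin_cases i <;> simp <;> omega
      · intro i
        fin_cases i <;> simp [hj01.symm, hj02.symm] <;> omega
      · rw [Fin.sum_univ_three, Fin.sum_univ_three]
        simp [hj01.symm, hj02.symm]
        omega
      · exact ⟨Sum.inl false, Sum.inr (j 1), Sum.inr (j 2), by simp, by simp, by simp,
          by simp [GH], by simp [GH, hj01], by simp [GH, hj02], Sum.inr (j 1), rfl,
          by simp [GH], by simp [GH, hj12], by simp [GH]⟩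
    by_cases e1 : 12 * κ < c (Sum.inr (j 1))
    · apply step (Sum.inr (j 1)) (by omega)
      · intro i
        fin_cases i <;> simp <;> omega
      · intro i
        fin_cases i <;> simp [hj01, hj12.symm] <;> omega
      · rw [Fin.sum_univ_three, Fin.sum_univ_three]
        simp [hj01, hj12.symm]
        omega
      · exact ⟨Sum.inl false, Sum.inr (j 0), Sum.inr (j 2), by simp, by simp, by simp,
          by simp [GH], by simp [GH, hj01.symm], by simp [GH, hj12], Sum.inr (j 0), rfl,
          by simp [GH], by simp [GH, hj02], by simp [GH]⟩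
    · apply step (Sum.inr (j 2)) (by omega)
      · intro i
        fin_cases i <;> simp <;> omega
      · intro i
        fin_cases i <;> simp [hj02, hj12] <;> omega
      · rw [Fin.sum_univ_three, Fin.sum_univ_three]
        simp [hj02, hj12]
        omega
      · exact ⟨Sum.inl false, Sum.inr (j 0), Sum.inr (j 1), by simp, by simp, by simp,
          by simp [GH], by simp [GH, hj02.symm], by simp [GH, hj12.symm], Sum.inr (j 0), rfl,
          by simp [GH], by simp [GH, hj01], by simp [GH]⟩

theorem win_five {k F L : Type} [Field k] [Field F] [Algebra k F] [Infinite k] [Finite L]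
    [DecidableEq L] (S : Finset (Bool ⊕ L)) (h0 : ∀ b, Sum.inl b ∈ S) (hS : S.card = 5) (ν : ℤ)
    (o : Fin 3 ⊕ L → ℤ) : Win k F 2 wH GH S ν o := by
  -- the three single elements
  obtain ⟨j, hj, hSj⟩ : ∃ j : Fin 3 → L, Injective j ∧
      S = {Sum.inl false, Sum.inl true, Sum.inr (j 0), Sum.inr (j 1), Sum.inr (j 2)} := by
    have e1 : (S.erase (Sum.inl false)).card = 4 := by
      rw [Finset.card_erase_of_mem (h0 false), hS]
    have e2 : Sum.inl true ∈ S.erase (Sum.inl false) :=
      Finset.mem_erase.2 ⟨by simp, h0 true⟩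
    have e3 : ((S.erase (Sum.inl false)).erase (Sum.inl true)).card = 3 := by
      rw [Finset.card_erase_of_mem e2, e1]
    obtain ⟨x, y, w, hxy, hxw, hyw, he⟩ := Finset.card_eq_three.1 e3
    have hin : ∀ t ∈ (S.erase (Sum.inl false)).erase (Sum.inl true), ∃ l : L, t = Sum.inr l := by
      intro t ht
      rw [Finset.mem_erase, Finset.mem_erase] at ht
      rcases t with b | l
      · exfalso
        rcases b with _ | _
        · exact ht.2.1 rfl
        · exact ht.1 rfl
      · exact ⟨l, rfl⟩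
    obtain ⟨lx, rfl⟩ := hin x (by rw [he]; simp)
    obtain ⟨ly, rfl⟩ := hin y (by rw [he]; simp)
    obtain ⟨lw, rfl⟩ := hin w (by rw [he]; simp)
    have nxy : lx ≠ ly := fun h => hxy (by rw [h])
    have nxw : lx ≠ lw := fun h => hxw (by rw [h])
    have nyw : ly ≠ lw := fun h => hyw (by rw [h])
    refine ⟨![lx, ly, lw], ?_, ?_⟩
    · intro a b hab
      fin_cases a <;> fin_cases b <;> simp_all
    · rw [← Finset.insert_erase (h0 false), ← Finset.insert_erase e2, he]
      rfl
  -- the bounds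
  obtain ⟨C, hC⟩ : ∃ C : ℕ, |ν| + |o (Sum.inl 0)| + |o (Sum.inl 1)| + |o (Sum.inl 2)| +
      |o (Sum.inr (j 0))| + |o (Sum.inr (j 1))| + |o (Sum.inr (j 2))| ≤ (C : ℤ) :=
    ⟨_, Int.self_le_toNat _⟩
  have b0 := abs_le.1 (le_refl |ν|)
  have b1 := abs_le.1 (le_refl |o (Sum.inl 0)|)
  have b2 := abs_le.1 (le_refl |o (Sum.inl 1)|)
  have b3 := abs_le.1 (le_refl |o (Sum.inl 2)|)
  have b4 := abs_le.1 (le_refl |o (Sum.inr (j 0))|)
  have b5 := abs_le.1 (le_refl |o (Sum.inr (j 1))|)
  have b6 := abs_le.1 (le_refl |o (Sum.inr (j 2))|)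
  have p0 := abs_nonneg ν
  have p1 := abs_nonneg (o (Sum.inl 0))
  have p2 := abs_nonneg (o (Sum.inl 1))
  have p3 := abs_nonneg (o (Sum.inl 2))
  have p4 := abs_nonneg (o (Sum.inr (j 0)))
  have p5 := abs_nonneg (o (Sum.inr (j 1)))
  have p6 := abs_nonneg (o (Sum.inr (j 2)))
  refine ⟨43 * C + 300, fun r hr N c hN hc z => ?_⟩
  rw [hSj]
  have d0 := hc (Sum.inl 0)
  have d1 := hc (Sum.inl 1)
  have d2 := hc (Sum.inl 2)
  have f0 := hc (Sum.inr (j 0))
  have f1 := hc (Sum.inr (j 1))
  have f2 := hc (Sum.inr (j 2))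
  simp only [wH, Sum.elim_inl, Sum.elim_inr] at d0 d1 d2 f0 f1 f2
  push_cast at d0 d1 d2 f0 f1 f2
  obtain ⟨κ, hκ1, hκ2⟩ : ∃ κ : ℕ, 6 * κ + C ≤ r ∧ r ≤ 6 * κ + C + 5 :=
    ⟨(r - C) / 6, by omega, by omega⟩
  obtain ⟨M, hM⟩ : ∃ M : ℕ, c (Sum.inl 0) + c (Sum.inl 1) + c (Sum.inl 2) +
      (c (Sum.inr (j 0)) + c (Sum.inr (j 1)) + c (Sum.inr (j 2))) = 54 * κ + M :=
    ⟨c (Sum.inl 0) + c (Sum.inl 1) + c (Sum.inl 2) +
      (c (Sum.inr (j 0)) + c (Sum.inr (j 1)) + c (Sum.inr (j 2))) - 54 * κ, by omega⟩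
  refine hq_five z j hj κ (by omega) M (by omega) N (by omega) c (fun i => ?_) (fun i => ?_) ?_
  · fin_cases i
    · show 6 * κ ≤ c (Sum.inl 0)
      omega
    · show 6 * κ ≤ c (Sum.inl 1)
      omega
    · show 6 * κ ≤ c (Sum.inl 2)
      omega
  · fin_cases i
    · show 12 * κ ≤ c (Sum.inr (j 0))
      omega
    · show 12 * κ ≤ c (Sum.inr (j 1))
      omega
    · show 12 * κ ≤ c (Sum.inr (j 2))
      omega
  · rw [Fin.sum_univ_three, Fin.sum_univ_three]
    exact hM

end H7

end Pool.Agent.KM
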