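import Pool.Agent.KM.HSpec
import Pool.Agent.KM.HExt
import Pool.Agent.KM.HFive

/-!
Project KM4 (MP_27fd67_ag), row H9: all states with the special pair are winning (helper81).
-/

set_option autoImplicit false
set_option linter.all false

open Function

namespace Pool.Agent.KM

section H9
variable {k F L : Type} [Field k] [Field F] [Algebra k F] [DecidableEq L]

/-- steps with the facet `B`, where `B` contains at most one special element -/
private theorem h9_facet [Infinite k] [Finite L] (d : ℕ) (hd : 1 ≤ d) (H : Finset (Bool ⊕ L))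
    (hH : ∀ i ∈ H, ∃ l, i = Sum.inr l) (hcard : H.card = 2 ^ d) (x j : Bool ⊕ L) (hx : x ∈ H)
    (hj : j ∉ H) (ν : ℤ) (o : Fin 3 ⊕ L → ℤ)
    (h : (4 : ℤ) ^ d ≤ ∑ i ∈ insert j (H.erase x), uH ν o i) :
    Win k F d wH GH (insert j (H.erase x)) ν o := by
  classical
  have hj' : j ∉ H.erase x := fun h => hj (Finset.mem_of_mem_erase h)
  refine win_ext d hd wH GH _ (fun i _ => wH_sum i) (fun i _ g _ => wH_one g) ?_ ?_ ν o h
  · intro a ha b hb hab
    refine GH_disj a b hab ?_
    rintro ⟨⟨a', rfl⟩, ⟨b', rfl⟩⟩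
    have hno : ∀ c : Bool, (Sum.inl c : Bool ⊕ L) ∉ H.erase x := by
      intro c hc
      obtain ⟨l, hl⟩ := hH _ (Finset.mem_of_mem_erase hc)
      exact absurd hl (by simp)
    have h1 := (Finset.mem_insert.1 ha).resolve_right (hno a')
    have h2 := (Finset.mem_insert.1 hb).resolve_right (hno b')
    exact hab (h1.trans h2.symm)
  · rw [Finset.card_insert_of_notMem hj', Finset.card_erase_of_mem hx, hcard]
    exact Nat.sub_add_cancel Nat.one_le_two_pow

/-- `n` steps with the facet `S \ H` -/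
private theorem h9_T [Infinite k] [Finite L] (d : ℕ) (S H : Finset (Bool ⊕ L)) (hHS : H ⊆ S)
    (hL : ∀ ν o, Win k F d wH GH (S \ H) ν o) (n : ℕ) : ∀ (ν : ℤ) (o : Fin 3 ⊕ L → ℤ),
    (∀ (ν' : ℤ) (o' : Fin 3 ⊕ L → ℤ), (∀ i ∈ S \ H, uH ν' o' i = uH ν o i - n) →
      (∀ i ∈ H, uH ν' o' i = uH ν o i + n) → Win k F (d + 1) wH GH S ν' o') →
    Win k F (d + 1) wH GH S ν o := by
  induction n with
  | zero =>
    intro ν o h
    exact h ν o (fun i _ => by simp) (fun i _ => by simp)
  | succ n ih =>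
    intro ν o h
    refine win_P d S (S \ H) Finset.sdiff_subset ν o (hL ν o) ?_
    intro ν' o' h1 h2
    refine ih ν' o' ?_
    intro ν'' o'' h3 h4
    refine h ν'' o'' ?_ ?_
    · intro i hi
      rw [h3 i hi, h1 i hi]
      push_cast
      ring
    · intro i hi
      rw [h4 i hi, h2 i (hHS hi) (fun h => (Finset.mem_sdiff.1 h).2 hi)]
      push_cast
      ring

/-- the number of steps in `P` whose facet contains `i` -/
private def h9c (H : Finset (Bool ⊕ L)) (P : Finset ((Bool ⊕ L) × (Bool ⊕ L))) (i : Bool ⊕ L) :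
    ℕ := (P.filter fun p => i ∈ insert p.2 (H.erase p.1)).card

/-- the steps in `P` -/
private theorem h9_P [Infinite k] [Finite L] (d : ℕ) (hd : 1 ≤ d) (S H : Finset (Bool ⊕ L))
    (hHS : H ⊆ S) (hH : ∀ i ∈ H, ∃ l, i = Sum.inr l) (hcard : H.card = 2 ^ d) (A b : ℤ)
    (hAb : (4 : ℤ) ^ d ≤ (2 ^ d - 1) * A - b) (P : Finset ((Bool ⊕ L) × (Bool ⊕ L))) :
    P ⊆ H ×ˢ (S \ H) → ∀ (ν : ℤ) (o : Fin 3 ⊕ L → ℤ), (∀ i ∈ H, A + P.card ≤ uH ν o i) →
    (∀ i ∈ S \ H, -b + P.card ≤ uH ν o i) →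
    (∀ (ν' : ℤ) (o' : Fin 3 ⊕ L → ℤ),
      (∀ i ∈ S, uH ν' o' i = uH ν o i + P.card - 2 * h9c H P i) →
      Win k F (d + 1) wH GH S ν' o') →
    Win k F (d + 1) wH GH S ν o := by
  classical
  induction P using Finset.induction_on with
  | empty =>
    intro _ ν o _ _ h
    exact h ν o (fun i _ => by simp [h9c])
  | @insert p P hp ih =>
    intro hP ν o h1 h2 h
    obtain ⟨x, j⟩ := p
    have hxj := Finset.mem_product.1 (hP (Finset.mem_insert_self _ _))
    have hx : x ∈ H := hxj.1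
    have hjS : j ∈ S := (Finset.mem_sdiff.1 hxj.2).1
    have hj : j ∉ H := (Finset.mem_sdiff.1 hxj.2).2
    have hP' : P ⊆ H ×ˢ (S \ H) := fun a ha => hP (Finset.mem_insert_of_mem ha)
    have hc : ((insert (x, j) P).card : ℤ) = P.card + 1 := by
      rw [Finset.card_insert_of_notMem hp]
      push_cast
      ring
    have hj' : j ∉ H.erase x := fun h => hj (Finset.mem_of_mem_erase h)
    have hBS : insert j (H.erase x) ⊆ S := by
      intro i hi
      rcases Finset.mem_insert.1 hi with rfl | hi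
      · exact hjS
      · exact hHS (Finset.mem_of_mem_erase hi)
    have hsum : (4 : ℤ) ^ d ≤ ∑ i ∈ insert j (H.erase x), uH ν o i := by
      rw [Finset.sum_insert hj']
      have e1 : ∑ i ∈ H.erase x, (A + ((insert (x, j) P).card : ℤ)) ≤
          ∑ i ∈ H.erase x, uH ν o i :=
        Finset.sum_le_sum fun i hi => h1 i (Finset.mem_of_mem_erase hi)
      rw [Finset.sum_const, Finset.card_erase_of_mem hx, hcard, nsmul_eq_mul,
        Nat.cast_sub Nat.one_le_two_pow] at e1
      push_cast at e1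
      have e2 := h2 j hxj.2
      rw [hc] at e1 e2
      have e3 : (0 : ℤ) ≤ (2 ^ d - 1) * (P.card + 1) := by
        refine mul_nonneg ?_ (by positivity)
        have : (1 : ℤ) ≤ 2 ^ d := one_le_pow₀ (by norm_num)
        linarith
      nlinarith
    refine win_P d S _ hBS ν o (h9_facet d hd H hH hcard x j hx hj ν o hsum) ?_
    intro ν' o' h3 h4
    have h5 : ∀ i ∈ S, uH ν' o' i = uH ν o i + 1 -
        2 * (if i ∈ insert j (H.erase x) then 1 else 0) := by
      intro i hi
      split_ifs with hiB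
      · rw [h3 i hiB]; ring
      · rw [h4 i hi hiB]; ring
    have h6 : ∀ i ∈ S, uH ν o i - 1 ≤ uH ν' o' i := by
      intro i hi
      rw [h5 i hi]
      split_ifs <;> linarith
    refine ih hP' ν' o' ?_ ?_ ?_
    · intro i hi
      have e1 := h1 i hi
      rw [hc] at e1
      have e2 := h6 i (hHS hi)
      linarith
    · intro i hi
      have e1 := h2 i hi
      rw [hc] at e1
      have e2 := h6 i (Finset.mem_sdiff.1 hi).1
      linarith
    · intro ν'' o'' h7
      refine h ν'' o'' ?_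
      intro i hi
      rw [h7 i hi, h5 i hi, hc]
      have e1 : (h9c H (insert (x, j) P) i : ℤ) =
          h9c H P i + (if i ∈ insert j (H.erase x) then 1 else 0) := by
        unfold h9c
        rw [Finset.filter_insert]
        split_ifs with hiB
        · rw [Finset.card_insert_of_notMem (fun h => hp (Finset.mem_filter.1 h).1)]
          push_cast
          ring
        · simp
      rw [e1]
      ring

private theorem h9c_L (S H : Finset (Bool ⊕ L)) (i : Bool ⊕ L) (hi : i ∈ S \ H) :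
    h9c H (H ×ˢ (S \ H)) i = H.card := by
  classical
  unfold h9c
  have hiH : i ∉ H := (Finset.mem_sdiff.1 hi).2
  have e : (H ×ˢ (S \ H)).filter (fun p => i ∈ insert p.2 (H.erase p.1)) = H ×ˢ {i} := by
    ext ⟨x, j⟩
    simp only [Finset.mem_filter, Finset.mem_product, Finset.mem_singleton, Finset.mem_insert,
      Finset.mem_erase]
    constructor
    · rintro ⟨⟨hx, _⟩, h | ⟨_, h⟩⟩
      · exact ⟨hx, h.symm⟩
      · exact absurd h hiH
    · rintro ⟨hx, rfl⟩
      exact ⟨⟨hx, hi⟩, Or.inl rfl⟩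
  rw [e, Finset.card_product, Finset.card_singleton, mul_one]

private theorem h9c_H (S H : Finset (Bool ⊕ L)) (i : Bool ⊕ L) (hi : i ∈ H) :
    h9c H (H ×ˢ (S \ H)) i = (H.card - 1) * (S \ H).card := by
  classical
  unfold h9c
  have e : (H ×ˢ (S \ H)).filter (fun p => i ∈ insert p.2 (H.erase p.1)) =
      (H.erase i) ×ˢ (S \ H) := by
    ext ⟨x, j⟩
    simp only [Finset.mem_filter, Finset.mem_product, Finset.mem_insert,
      Finset.mem_erase, Finset.mem_sdiff]
    constructor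
    · rintro ⟨⟨hx, hjS, hj⟩, h | ⟨h, _⟩⟩
      · exact absurd (h ▸ hi) hj
      · exact ⟨⟨fun h' => h h'.symm, hx⟩, hjS, hj⟩
    · rintro ⟨⟨hne, hx⟩, hjS, hj⟩
      exact ⟨⟨hx, hjS, hj⟩, Or.inr ⟨fun h' => hne h'.symm, hi⟩⟩
  rw [e, Finset.card_product, Finset.card_erase_of_mem hi]

private theorem h9_arith (q X t : ℤ) (hq : 4 ≤ q) (hX : 0 ≤ X) (ht : 0 ≤ t) :
    X ≤ (q - 1) * ((t + 1) * (q * (q - 1) - 2) + (q ^ 2 * (q + 1) + X) - q * (q + 1)) -
      ((t + 1) * (q * (q - 1)) + q * (q + 1)) := by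
  have h1 : 0 ≤ (q - 1) * (q ^ 2 - 2 * q - 2) := mul_nonneg (by linarith) (by nlinarith)
  have h2 : 0 ≤ (t + 1) * ((q - 1) * (q ^ 2 - 2 * q - 2)) := mul_nonneg (by linarith) h1
  have h3 : 0 ≤ (q - 2) * (q ^ 2 * (q + 1) + X) := by
    refine mul_nonneg (by linarith) ?_
    have : 0 ≤ q ^ 2 * (q + 1) := mul_nonneg (by positivity) (by linarith)
    linarith
  nlinarith

/-- the claim `C(t)` -/
private theorem h9_C [Infinite k] [Finite L] (d : ℕ) (hd : 2 ≤ d) (S H : Finset (Bool ⊕ L))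
    (h0 : ∀ b, Sum.inl b ∈ S) (hS : S.card = 2 ^ (d + 1) + 1)
    (hHS : H ⊆ S) (hH : ∀ i ∈ H, ∃ l, i = Sum.inr l) (hcard : H.card = 2 ^ d) (t : ℕ) :
    ∀ (ν : ℤ) (o : Fin 3 ⊕ L → ℤ), (∀ i ∈ S \ H, -((t : ℤ) * (2 ^ d * (2 ^ d - 1))) ≤ uH ν o i) →
    (∀ i ∈ H, (t : ℤ) * (2 ^ d * (2 ^ d - 1) - 2) + ((2 ^ d) ^ 2 * (2 ^ d + 1) + 4 ^ d) ≤
      uH ν o i) → Win k F (d + 1) wH GH S ν o := by
  classical
  induction t with
  | zero =>
    intro ν o h1 h2
    have h3 : ∀ i ∈ S, 0 ≤ uH ν o i := by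
      intro i hi
      by_cases hiH : i ∈ H
      · have h4 := h2 i hiH
        have h5 : (0 : ℤ) ≤ (2 ^ d) ^ 2 * (2 ^ d + 1) + 4 ^ d := by positivity
        push_cast at h4
        linarith
      · have h4 := h1 i (Finset.mem_sdiff.2 ⟨hi, hiH⟩)
        push_cast at h4
        linarith
    refine win_mono (d + 1) wH GH (S.erase (Sum.inl true)) S (Finset.erase_subset _ _)
      (fun i _ => wH_sum i) ν o ?_
    refine win_half (d + 1) wH GH _ (fun i _ => wH_sum i) ?_ ?_ ν o ?_
    · intro a ha b hb hab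
      refine GH_disj a b hab ?_
      rintro ⟨⟨a', rfl⟩, ⟨b', rfl⟩⟩
      have ha1 := Finset.ne_of_mem_erase ha
      have hb1 := Finset.ne_of_mem_erase hb
      cases a' <;> cases b' <;> simp_all
    · rw [Finset.card_erase_of_mem (h0 true), hS]
      rfl
    · intro i hi
      exact h3 i (Finset.mem_of_mem_erase hi)
  | succ t ih =>
    intro ν o h1 h2
    have hcL : (S \ H).card = 2 ^ d + 1 := by
      rw [Finset.card_sdiff_of_subset hHS, hS, hcard, pow_succ]
      omega
    have hPc : ((H ×ˢ (S \ H)).card : ℤ) = 2 ^ d * (2 ^ d + 1) := by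
      rw [Finset.card_product, hcL, hcard]
      push_cast
      ring
    have hq : (4 : ℤ) ≤ 2 ^ d := by
      have h5 : (2 : ℤ) ^ 2 ≤ 2 ^ d := pow_le_pow_right₀ (by norm_num) hd
      linarith
    refine h9_P d (by omega) S H hHS hH hcard
      (((t : ℤ) + 1) * (2 ^ d * (2 ^ d - 1) - 2) + ((2 ^ d) ^ 2 * (2 ^ d + 1) + 4 ^ d) -
        2 ^ d * (2 ^ d + 1))
      (((t : ℤ) + 1) * (2 ^ d * (2 ^ d - 1)) + 2 ^ d * (2 ^ d + 1))
      (h9_arith _ _ _ hq (by positivity) (by positivity)) _ (Finset.Subset.refl _) ν o ?_ ?_ ?_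
    · intro i hi
      have h3 := h2 i hi
      rw [hPc]
      push_cast at h3
      linarith
    · intro i hi
      have h3 := h1 i hi
      rw [hPc]
      push_cast at h3
      linarith
    · intro ν' o' h3
      refine ih ν' o' ?_ ?_
      · intro i hi
        have h4 := h1 i hi
        rw [h3 i (Finset.mem_sdiff.1 hi).1, hPc, h9c_L S H i hi, hcard]
        push_cast at h4 ⊢
        nlinarith
      · intro i hi
        have h4 := h2 i hi
        rw [h3 i (hHS hi), hPc, h9c_H S H i hi, hcL, hcard]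
        have e1 : (((2 ^ d - 1) * (2 ^ d + 1) : ℕ) : ℤ) = (2 ^ d - 1) * (2 ^ d + 1) := by
          rw [Nat.cast_mul, Nat.cast_sub Nat.one_le_two_pow]
          push_cast
          ring
        rw [e1]
        push_cast at h4
        nlinarith

theorem win_all [Infinite k] [Finite L] (d : ℕ) (hd : 2 ≤ d) (S : Finset (Bool ⊕ L))
    (h0 : ∀ b, Sum.inl b ∈ S) (hS : S.card = 2 ^ d + 1) (ν : ℤ) (o : Fin 3 ⊕ L → ℤ) :
    Win k F d wH GH S ν o := by
  classical
  induction d, hd using Nat.le_induction generalizing S ν o with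
  | base => exact win_five S h0 hS ν o
  | succ d hd ih =>
    -- the normal elements
    set R := (S.erase (Sum.inl false)).erase (Sum.inl true) with hR
    have hRc : R.card = 2 ^ (d + 1) + 1 - 1 - 1 := by
      rw [hR, Finset.card_erase_of_mem (Finset.mem_erase.2 ⟨by simp, h0 true⟩),
        Finset.card_erase_of_mem (h0 false), hS]
    have h2d : 1 ≤ 2 ^ d := Nat.one_le_two_pow
    obtain ⟨H, hHR, hcard⟩ := Finset.exists_subset_card_eq (s := R) (n := 2 ^ d) (by
      rw [hRc, pow_succ]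
      omega)
    have hHS : H ⊆ S := fun i hi => Finset.mem_of_mem_erase (Finset.mem_of_mem_erase (hHR hi))
    have hH : ∀ i ∈ H, ∃ l, i = Sum.inr l := by
      intro i hi
      have h1 := Finset.mem_erase.1 (hHR hi)
      have h2 := Finset.mem_erase.1 h1.2
      rcases i with (b | l)
      · cases b
        · exact absurd rfl h2.1
        · exact absurd rfl h1.1
      · exact ⟨l, rfl⟩
    have hcL : (S \ H).card = 2 ^ d + 1 := by
      rw [Finset.card_sdiff_of_subset hHS, hS, hcard, pow_succ]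
      omega
    have hL0 : ∀ b, Sum.inl b ∈ S \ H := by
      intro b
      refine Finset.mem_sdiff.2 ⟨h0 b, fun h => ?_⟩
      obtain ⟨l, hl⟩ := hH _ h
      exact absurd hl (by simp)
    -- a bound
    set C : ℕ := ∑ i ∈ S, (uH ν o i).natAbs with hC
    have hCi : ∀ i ∈ S, -(C : ℤ) ≤ uH ν o i := by
      intro i hi
      have h1 : (uH ν o i).natAbs ≤ C :=
        Finset.single_le_sum (f := fun i => (uH ν o i).natAbs) (fun _ _ => Nat.zero_le _) hi
      omega
    set q : ℕ := 2 ^ d with hq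
    have hq4 : 4 ≤ q := by
      have h5 : 2 ^ 2 ≤ 2 ^ d := Nat.pow_le_pow_right (by norm_num) hd
      rw [hq]
      omega
    set κ₀ : ℕ := q ^ 2 * (q + 1) + 4 ^ d with hκ₀
    set t : ℕ := κ₀ + C with ht
    obtain ⟨Λ, hΛ⟩ : ∃ Λ : ℕ, (Λ : ℤ) = (q : ℤ) * (q - 1) ∧ 1 ≤ Λ := by
      refine ⟨q * (q - 1), ?_, ?_⟩
      · rw [Nat.cast_mul, Nat.cast_sub (by omega)]
        push_cast
        ring
      · exact Nat.mul_pos (by omega) (by omega)
    have hCt : C ≤ t * Λ := by
      calc C ≤ t := Nat.le_add_left _ _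
        _ = t * 1 := (mul_one t).symm
        _ ≤ t * Λ := Nat.mul_le_mul_left t hΛ.2
    have hqz : (2 : ℤ) ^ d = (q : ℤ) := by
      rw [hq]
      push_cast
      ring
    have hκz : ((κ₀ : ℕ) : ℤ) = (2 ^ d) ^ 2 * (2 ^ d + 1) + 4 ^ d := by
      rw [hκ₀, hqz]
      push_cast
      ring
    refine h9_T d S H hHS (fun ν' o' => ih (S \ H) hL0 (by rw [hcL]) ν' o') (t * Λ - C) ν o ?_
    intro ν' o' h1 h2
    refine h9_C d hd S H h0 hS hHS hH (by rw [hcard]) t ν' o' ?_ ?_
    · intro i hi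
      rw [h1 i hi, Nat.cast_sub hCt, hqz, ← hΛ.1]
      have h3 := hCi i (Finset.mem_sdiff.1 hi).1
      push_cast
      linarith
    · intro i hi
      rw [h2 i hi, Nat.cast_sub hCt, ← hκz, hqz, ← hΛ.1]
      have h3 := hCi i (hHS hi)
      have h4 : (t : ℤ) = κ₀ + C := by
        rw [ht]
        push_cast
        ring
      push_cast
      nlinarith

end H9

end Pool.Agent.KM
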