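import Pool.Agent.KM.FDefs

/-!
Project KM4 (MP_27fd67_ag): generation by products of few forms. Definitions (helper81).
-/

set_option autoImplicit false

open Function

namespace Pool.Agent.KM

/-- The elements `∏ g ∈ G i, ξ g` (`i ∈ S`) with suitable factors `ξ g` of degree `c g` in the
variables `z` generate the forms of degree `N`. -/
def HQ (k : Type) {F J Γ : Type} [Field k] [Field F] [Algebra k F] {n : ℕ} (G : J → Finset Γ)
    (S : Finset J) (z : Fin n → F) (N : ℕ) (c : Γ → ℕ) : Prop :=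
  (∀ i ∈ S, ∑ g ∈ G i, c g ≤ N) ∧ ∃ ξ : Γ → F,
    (∀ g, ξ g ∈ Submodule.span k (Set.range z) ^ c g) ∧
      Submodule.span k (Set.range z) ^ N ≤ ⨆ i ∈ S, Submodule.span k {∏ g ∈ G i, ξ g} *
        Submodule.span k (Set.range z) ^ (N - ∑ g ∈ G i, c g)

/-- `HQ` for all large `r`, with `N = 4 * r + ν` and `c g = wt g * r + o g`. -/
def Win (k F : Type) [Field k] [Field F] [Algebra k F] {J Γ : Type} (d : ℕ) (wt : Γ → ℕ)
    (G : J → Finset Γ) (S : Finset J) (ν : ℤ) (o : Γ → ℤ) : Prop :=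
  ∃ k₀ : ℕ, ∀ r : ℕ, k₀ ≤ r → ∀ (N : ℕ) (c : Γ → ℕ), (N : ℤ) = 4 * r + ν →
    (∀ g, (c g : ℤ) = wt g * r + o g) → ∀ z : Fin (d + 1) → F, HQ k G S z N c

/-- Two elements with a common factor and further elements with one factor each. -/
def GH {L : Type} [DecidableEq L] : Bool ⊕ L → Finset (Fin 3 ⊕ L)
  | Sum.inl false => {Sum.inl 0, Sum.inl 1}
  | Sum.inl true => {Sum.inl 0, Sum.inl 2}
  | Sum.inr i => {Sum.inr i}

/-- The degrees of the factors. -/
def wH {L : Type} : Fin 3 ⊕ L → ℕ := Sum.elim (fun _ => 1) (fun _ => 2)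

/-- The number `N - 2 * deg i`. -/
def uH {L : Type} [DecidableEq L] (ν : ℤ) (o : Fin 3 ⊕ L → ℤ) (i : Bool ⊕ L) : ℤ :=
  ν - 2 * ∑ g ∈ GH i, o g

/-- `m + 2` forms of degree `2 * θ` in `d + 1` variables generate all forms of degree at least
`4 * θ - a`; two of them are products `α * α'`, `α * β'` of forms of degree `θ`. -/
def PTat (k F : Type) [Field k] [Field F] [Algebra k F] (d m a θ : ℕ) : Prop :=
  ∀ z : Fin (d + 1) → F, ∃ (t : Fin m → F) (α α' β' : F),
    (∀ i, t i ∈ Submodule.span k (Set.range z) ^ (2 * θ)) ∧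
    α ∈ Submodule.span k (Set.range z) ^ θ ∧ α' ∈ Submodule.span k (Set.range z) ^ θ ∧
    β' ∈ Submodule.span k (Set.range z) ^ θ ∧
      ∀ N, 4 * θ ≤ N + a → Submodule.span k (Set.range z) ^ N ≤
        (Submodule.span k {α * α', α * β'} ⊔ Submodule.span k (Set.range t)) *
          Submodule.span k (Set.range z) ^ (N - 2 * θ)

/-- `PTat` for every slack `a` and all large `θ`. -/
def PT (k F : Type) [Field k] [Field F] [Algebra k F] (d m : ℕ) : Prop :=
  ∀ a : ℕ, ∃ θ₀ : ℕ, ∀ θ, θ₀ ≤ θ → PTat k F d m a θ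

end Pool.Agent.KM
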