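import Pool.Agent.KM.HStep

/-!
Project KM4 (MP_27fd67_ag), row H2: generation when twice every degree is at most `N` (helper98).
-/

set_option autoImplicit false

open Function

namespace Pool.Agent.KM

section H2
variable {k F J Γ : Type} [Field k] [Field F] [Algebra k F]

/-- the degree outside of `D` -/
private theorem h2_sum_off [DecidableEq Γ] (G : J → Finset Γ) (i : J) (D : Finset Γ) (c : Γ → ℕ)
    (h : Disjoint (G i) D) :
    ∑ g ∈ G i, (if g ∈ D then c g - 1 else c g) = ∑ g ∈ G i, c g :=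
  Finset.sum_congr rfl fun _ hg => if_neg (Finset.disjoint_left.1 h hg)

/-- the degree drops by one when `D` contains exactly one factor -/
private theorem h2_sum_on [DecidableEq Γ] (G : J → Finset Γ) (i : J) (D : Finset Γ) (c : Γ → ℕ)
    (g₀ : Γ) (h : G i ∩ D = {g₀}) (hc : 1 ≤ c g₀) :
    ∑ g ∈ G i, (if g ∈ D then c g - 1 else c g) + 1 = ∑ g ∈ G i, c g := by
  have hg : g₀ ∈ G i ∩ D := by rw [h]; exact Finset.mem_singleton_self _
  obtain ⟨hgG, hgD⟩ := Finset.mem_inter.1 hg
  rw [← Finset.add_sum_erase _ _ hgG, ← Finset.add_sum_erase _ _ hgG, if_pos hgD]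
  have : ∑ g ∈ (G i).erase g₀, (if g ∈ D then c g - 1 else c g) = ∑ g ∈ (G i).erase g₀, c g := by
    refine Finset.sum_congr rfl fun g hg => if_neg fun hgD' => ?_
    obtain ⟨hne, hgi⟩ := Finset.mem_erase.1 hg
    have : g ∈ ({g₀} : Finset Γ) := h ▸ Finset.mem_inter.2 ⟨hgi, hgD'⟩
    exact hne (Finset.mem_singleton.1 this)
  rw [this]
  omega

/-- some element has degree zero -/
private theorem h2_zero {n : ℕ} (G : J → Finset Γ) (S : Finset J) (z : Fin (n + 1) → F) (N : ℕ)
    (c : Γ → ℕ) (hS : ∀ i ∈ S, ∑ g ∈ G i, c g ≤ N) (i : J) (hi : i ∈ S)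
    (h : ∑ g ∈ G i, c g = 0) : HQ k G S z N c := by
  refine ⟨hS, fun g => z 0 ^ c g, fun g => ?_, ?_⟩
  · exact Submodule.pow_mem_pow _ (Submodule.subset_span (Set.mem_range_self (0 : Fin _))) _
  · refine le_iSup₂_of_le (f := fun i (_ : i ∈ S) => Submodule.span k {∏ g ∈ G i, z 0 ^ c g} *
        Submodule.span k (Set.range z) ^ (N - ∑ g ∈ G i, c g)) i hi ?_
    rw [h, Nat.sub_zero, Finset.prod_pow_eq_pow_sum, h, pow_zero, ← Submodule.one_eq_span, one_mul]

theorem hq_half [Infinite k] [Finite Γ] [DecidableEq J] [DecidableEq Γ] (d : ℕ)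
    (G : J → Finset Γ) (S : Finset J) (z : Fin (d + 1) → F) (N : ℕ) (c : Γ → ℕ)
    (hG : ∀ i ∈ S, ∀ j ∈ S, i ≠ j → Disjoint (G i) (G j)) (hS : S.card = 2 ^ d)
    (h : ∀ i ∈ S, 2 * ∑ g ∈ G i, c g ≤ N) : HQ k G S z N c := by
  induction d generalizing S N c with
  | zero =>
    rw [pow_zero] at hS
    obtain ⟨i, rfl⟩ := Finset.card_eq_one.1 hS
    have hi := h i (Finset.mem_singleton_self i)
    refine ⟨fun j hj => ?_, fun g => z 0 ^ c g, fun g => ?_, ?_⟩
    · have := h j hj
      omega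
    · exact Submodule.pow_mem_pow _ (Submodule.subset_span (Set.mem_range_self (0 : Fin _))) _
    · refine le_iSup₂_of_le (f := fun j (_ : j ∈ ({i} : Finset J)) =>
        Submodule.span k {∏ g ∈ G j, z 0 ^ c g} *
          Submodule.span k (Set.range z) ^ (N - ∑ g ∈ G j, c g)) i (Finset.mem_singleton_self i) ?_
      have hr : Set.range z = {z 0} := by
        ext x
        simp only [Set.mem_range, Set.mem_singleton_iff]
        constructor
        · rintro ⟨a, rfl⟩
          rw [Fin.fin_one_eq_zero a]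
        · rintro rfl
          exact ⟨0, rfl⟩
      rw [hr, Finset.prod_pow_eq_pow_sum, Submodule.span_pow, Submodule.span_pow,
        Set.singleton_pow, Set.singleton_pow, Submodule.span_mul_span,
        Set.singleton_mul_singleton, ← pow_add]
      have : ∑ g ∈ G i, c g + (N - ∑ g ∈ G i, c g) = N := by omega
      rw [this]
  | succ d ih =>
    induction N using Nat.strong_induction_on generalizing c with
    | _ N ihN =>
      have hS0 : ∀ i ∈ S, ∑ g ∈ G i, c g ≤ N := fun i hi => by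
        have := h i hi
        omega
      by_cases hz : ∃ i ∈ S, ∑ g ∈ G i, c g = 0
      · obtain ⟨i, hi, hi0⟩ := hz
        exact h2_zero G S z N c hS0 i hi hi0
      push Not at hz
      -- choose a factor of positive degree
      have hch : ∀ i, ∃ g, i ∈ S → g ∈ G i ∧ 1 ≤ c g := by
        intro i
        by_cases hi : i ∈ S
        · obtain ⟨g, hg, hgc⟩ := Finset.exists_ne_zero_of_sum_ne_zero (hz i hi)
          exact ⟨g, fun _ => ⟨hg, Nat.one_le_iff_ne_zero.2 hgc⟩⟩
        · obtain ⟨i₀, hi₀⟩ : S.Nonempty := by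
            rw [← Finset.card_pos, hS]
            positivity
          obtain ⟨g, hg, hgc⟩ := Finset.exists_ne_zero_of_sum_ne_zero (hz i₀ hi₀)
          exact ⟨g, fun h => absurd h hi⟩
      choose γ hγ using hch
      have hγG : ∀ i ∈ S, γ i ∈ G i := fun i hi => (hγ i hi).1
      have hγc : ∀ i ∈ S, 1 ≤ c (γ i) := fun i hi => (hγ i hi).2
      -- two halves
      obtain ⟨S₁, hS₁, hS₁c⟩ := Finset.exists_subset_card_eq
        (show 2 ^ d ≤ S.card by rw [hS, pow_succ]; omega)
      have hS₂c : (S \ S₁).card = 2 ^ d := by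
        rw [Finset.card_sdiff_of_subset hS₁, hS, hS₁c, pow_succ]
        omega
      set S₂ := S \ S₁ with hS₂
      have hS₂S : S₂ ⊆ S := Finset.sdiff_subset
      have hdis : ∀ i ∈ S, ∀ T : Finset J, T ⊆ S → i ∉ T → Disjoint (G i) (T.image γ) := by
        intro i hi T hT hiT
        rw [Finset.disjoint_right]
        intro g hg hgi
        obtain ⟨j, hj, rfl⟩ := Finset.mem_image.1 hg
        have hne : i ≠ j := fun he => hiT (he ▸ hj)
        exact Finset.disjoint_left.1 (hG i hi j (hT hj) hne) hgi (hγG j (hT hj))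
      have hint : ∀ i ∈ S, ∀ T : Finset J, T ⊆ S → i ∈ T → G i ∩ T.image γ = {γ i} := by
        intro i hi T hT hiT
        ext g
        rw [Finset.mem_inter, Finset.mem_image, Finset.mem_singleton]
        constructor
        · rintro ⟨hgi, j, hj, rfl⟩
          by_contra hne
          have hij : i ≠ j := fun he => hne (he ▸ rfl)
          exact Finset.disjoint_left.1 (hG i hi j (hT hj) hij) hgi (hγG j (hT hj))
        · rintro rfl
          exact ⟨hγG i hi, i, hiT, rfl⟩
      have hcard : ∀ i ∈ S, ∀ T : Finset J, T ⊆ S → (G i ∩ T.image γ).card ≤ 1 := by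
        intro i hi T hT
        by_cases hiT : i ∈ T
        · rw [hint i hi T hT hiT, Finset.card_singleton]
        · rw [Finset.disjoint_iff_inter_eq_empty.1 (hdis i hi T hT hiT)]
          simp
      have hN2 : 2 ≤ N := by
        obtain ⟨i₀, hi₀⟩ : S.Nonempty := by
          rw [← Finset.card_pos, hS]
          positivity
        have h1 := h i₀ hi₀
        have h2 := hz i₀ hi₀
        omega
      obtain ⟨N', rfl⟩ : ∃ N', N = N' + 1 + 1 := ⟨N - 2, by omega⟩
      set D₂ := S₂.image γ with hD₂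
      set D₁ := S₁.image γ with hD₁
      set c₁ : Γ → ℕ := fun g => if g ∈ D₂ then c g - 1 else c g with hc₁
      set c₂ : Γ → ℕ := fun g => if g ∈ D₁ then c₁ g - 1 else c₁ g with hc₂
      have hn12 : ∀ i ∈ S₁, i ∉ S₂ := fun i hi hi' => (Finset.mem_sdiff.1 hi').2 hi
      have hn21 : ∀ i ∈ S₂, i ∉ S₁ := fun i hi => (Finset.mem_sdiff.1 hi).2
      have hdeg1 : ∀ i ∈ S₁, ∑ g ∈ G i, c₁ g = ∑ g ∈ G i, c g := fun i hi =>
        h2_sum_off G i D₂ c (hdis i (hS₁ hi) S₂ hS₂S (hn12 i hi))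
      have hdeg2 : ∀ i ∈ S₂, ∑ g ∈ G i, c₁ g + 1 = ∑ g ∈ G i, c g := fun i hi =>
        h2_sum_on G i D₂ c (γ i) (hint i (hS₂S hi) S₂ hS₂S hi) (hγc i (hS₂S hi))
      have hγD₂ : ∀ i ∈ S₁, γ i ∉ D₂ := fun i hi =>
        Finset.disjoint_left.1 (hdis i (hS₁ hi) S₂ hS₂S (hn12 i hi)) (hγG i (hS₁ hi))
      have hc₁γ : ∀ i ∈ S₁, 1 ≤ c₁ (γ i) := fun i hi => by
        rw [hc₁]
        simp only
        rw [if_neg (hγD₂ i hi)]
        exact hγc i (hS₁ hi)
      refine hq_step G S S₁ D₂ z (N' + 1) c ?_ (fun i hi => hcard i hi S₂ hS₂S) hS₁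
        (fun i hi => hdis i (hS₁ hi) S₂ hS₂S (hn12 i hi)) ?_ ?_
      · intro g hg
        obtain ⟨j, hj, rfl⟩ := Finset.mem_image.1 hg
        exact hγc j (hS₂S hj)
      · exact ih S₁ (Fin.tail z) (N' + 1 + 1) c
          (fun i hi j hj hij => hG i (hS₁ hi) j (hS₁ hj) hij) hS₁c fun i hi => h i (hS₁ hi)
      · change HQ k G S z (N' + 1) c₁
        refine hq_step G S S₂ D₁ z N' c₁ ?_ (fun i hi => hcard i hi S₁ hS₁) hS₂S
          (fun i hi => hdis i (hS₂S hi) S₁ hS₁ (hn21 i hi)) ?_ ?_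
        · intro g hg
          obtain ⟨j, hj, rfl⟩ := Finset.mem_image.1 hg
          exact hc₁γ j hj
        · refine ih S₂ (Fin.tail z) (N' + 1) c₁
            (fun i hi j hj hij => hG i (hS₂S hi) j (hS₂S hj) hij) hS₂c fun i hi => ?_
          have h1 := h i (hS₂S hi)
          have h2 := hdeg2 i hi
          omega
        · change HQ k G S z N' c₂
          refine ihN N' (by omega) c₂ fun i hi => ?_
          by_cases hi1 : i ∈ S₁
          · have h3 : ∑ g ∈ G i, c₂ g + 1 = ∑ g ∈ G i, c₁ g :=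
              h2_sum_on G i D₁ c₁ (γ i) (hint i hi S₁ hS₁ hi1) (hc₁γ i hi1)
            have h4 := hdeg1 i hi1
            have h5 := h i hi
            omega
          · have hi2 : i ∈ S₂ := Finset.mem_sdiff.2 ⟨hi, hi1⟩
            have h3 : ∑ g ∈ G i, c₂ g = ∑ g ∈ G i, c₁ g :=
              h2_sum_off G i D₁ c₁ (hdis i hi S₁ hS₁ hi1)
            have h4 := hdeg2 i hi2
            have h5 := h i hi
            omega

end H2

end Pool.Agent.KM
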