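import Pool.Agent.KM.HAll

/-!
Project KM4 (MP_27fd67_ag), row H10: forms with two products (helper55).
-/

set_option autoImplicit false

open Function

namespace Pool.Agent.KM

section H10
variable {k F : Type} [Field k] [Field F] [Algebra k F]

private theorem h10_pow_le (A B : Submodule k F) (M : ℕ) :
    (A ⊔ B) ^ (M + 1) ≤ B ^ (M + 1) ⊔ A * (A ⊔ B) ^ M := by
  induction M with
  | zero =>
    rw [zero_add, pow_one, pow_one, pow_zero, mul_one]
    exact le_of_eq (sup_comm A B)
  | succ M ih =>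
    have h1 : (A ⊔ B) ^ (M + 1 + 1) = A * (A ⊔ B) ^ (M + 1) ⊔ B * (A ⊔ B) ^ (M + 1) := by
      rw [pow_succ' (A ⊔ B) (M + 1), Submodule.sup_mul]
    rw [h1]
    apply sup_le le_sup_right
    calc B * (A ⊔ B) ^ (M + 1) ≤ B * (B ^ (M + 1) ⊔ A * (A ⊔ B) ^ M) :=
          mul_le_mul' le_rfl ih
      _ = B * B ^ (M + 1) ⊔ B * (A * (A ⊔ B) ^ M) := by rw [Submodule.mul_sup]
      _ ≤ B ^ (M + 1 + 1) ⊔ A * (A ⊔ B) ^ (M + 1) := by
          apply sup_le_sup
          · rw [← pow_succ']
          · rw [mul_left_comm, pow_succ']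
            exact mul_le_mul' le_rfl (mul_le_mul' le_sup_right le_rfl)

private theorem h10_split (A B X : Submodule k F) (N C : ℕ) (hC : C ≤ N)
    (h1 : ∀ c < C, A ^ c * B ^ (N - c) ≤ X) (h2 : A ^ C * (A ⊔ B) ^ (N - C) ≤ X) :
    (A ⊔ B) ^ N ≤ X := by
  have key : ∀ e ≤ C, A ^ (C - e) * (A ⊔ B) ^ (N - (C - e)) ≤ X := by
    intro e
    induction e with
    | zero => intro _; simpa using h2
    | succ e ih =>
      intro he
      have ih' := ih (by omega)
      have e1 : N - (C - (e + 1)) = (N - (C - e)) + 1 := by omega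
      have e2 : C - e = (C - (e + 1)) + 1 := by omega
      calc A ^ (C - (e + 1)) * (A ⊔ B) ^ (N - (C - (e + 1)))
          ≤ A ^ (C - (e + 1)) * (B ^ (N - (C - (e + 1))) ⊔ A * (A ⊔ B) ^ (N - (C - e))) := by
            refine mul_le_mul' le_rfl ?_
            rw [e1]
            exact h10_pow_le A B _
        _ = A ^ (C - (e + 1)) * B ^ (N - (C - (e + 1))) ⊔
            A ^ (C - e) * (A ⊔ B) ^ (N - (C - e)) := by
            rw [Submodule.mul_sup, ← mul_assoc, ← pow_succ, ← e2]
        _ ≤ X := sup_le (h1 _ (by omega)) ih'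
  have := key C le_rfl
  simpa using this

private theorem h10_span_pow (x : F) (n : ℕ) :
    (Submodule.span k {x}) ^ n = Submodule.span k {x ^ n} := by
  rw [Submodule.span_pow, Set.singleton_pow]

private theorem h10_range (d : ℕ) (z : Fin (d + 2) → F) :
    Submodule.span k (Set.range z) =
      Submodule.span k {z 0} ⊔ Submodule.span k (Set.range (Fin.tail z)) := by
  conv_lhs => rw [← Fin.cons_self_tail z]
  rw [Fin.range_cons, Submodule.span_insert]

variable (k F)

theorem PT_mono (d m m' : ℕ) (h : m ≤ m') (hP : PT k F d m) : PT k F d m' := by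
  intro a
  obtain ⟨θ₀, hθ₀⟩ := hP a
  refine ⟨θ₀, fun θ hθ z => ?_⟩
  obtain ⟨t, α, α', β', ht, hα, hα', hβ', hN⟩ := hθ₀ θ hθ z
  refine ⟨fun i => if hi : (i : ℕ) < m then t ⟨i, hi⟩ else 0, α, α', β', ?_, hα, hα', hβ', ?_⟩
  · intro i
    by_cases hi : (i : ℕ) < m
    · simp only [hi, dif_pos]
      exact ht _
    · simp only [hi, dif_neg, not_false_eq_true]
      exact Submodule.zero_mem _
  · intro N hNN
    refine (hN N hNN).trans (mul_le_mul' (sup_le_sup_left ?_ _) le_rfl)
    apply Submodule.span_mono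
    rintro _ ⟨i, rfl⟩
    refine ⟨⟨i, lt_of_lt_of_le i.2 h⟩, ?_⟩
    simp [i.2]

theorem PT_one : PT k F 1 1 := by
  intro a
  refine ⟨a, fun θ ha z => ?_⟩
  have hz : ∀ i, z i ∈ Submodule.span k (Set.range z) := fun i =>
    Submodule.subset_span (Set.mem_range_self i)
  refine ⟨fun _ => z 1 ^ (2 * θ), z 0 ^ θ, z 0 ^ θ, z 1 ^ θ,
    fun _ => Submodule.pow_mem_pow _ (hz 1) _,
    Submodule.pow_mem_pow _ (hz 0) θ, Submodule.pow_mem_pow _ (hz 0) θ,
    Submodule.pow_mem_pow _ (hz 1) θ, ?_⟩
  intro N hN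
  have hE := h10_range (k := k) 0 z
  have hB : Submodule.span k (Set.range (Fin.tail z)) = Submodule.span k {z 1} := by
    congr 1
    ext y
    constructor
    · rintro ⟨i, rfl⟩
      have : i = 0 := Subsingleton.elim _ _
      subst this
      rfl
    · intro hy
      exact ⟨0, hy.symm⟩
  rw [hB] at hE
  set A := Submodule.span k {z 0} with hA
  set B := Submodule.span k {z 1} with hB'
  set E := Submodule.span k (Set.range z) with hE'
  set S : Submodule k F := Submodule.span k {z 0 ^ θ * z 0 ^ θ, z 0 ^ θ * z 1 ^ θ} ⊔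
    Submodule.span k (Set.range fun _ : Fin 1 => z 1 ^ (2 * θ)) with hS
  have hAE : A ≤ E := by rw [hE]; exact le_sup_left
  have hBE : B ≤ E := by rw [hE]; exact le_sup_right
  have m1 : A ^ (2 * θ) ≤ S := by
    rw [hA, h10_span_pow]
    refine le_trans (Submodule.span_mono ?_) le_sup_left
    rw [Set.singleton_subset_iff]
    left
    rw [two_mul, pow_add]
  have m2 : A ^ θ * B ^ θ ≤ S := by
    rw [hA, hB', h10_span_pow, h10_span_pow, Submodule.span_mul_span,
      Set.singleton_mul_singleton]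
    refine le_trans (Submodule.span_mono ?_) le_sup_left
    rw [Set.singleton_subset_iff]
    right
    rfl
  have m3 : B ^ (2 * θ) ≤ S := by
    rw [hB', h10_span_pow]
    refine le_trans (Submodule.span_mono ?_) le_sup_right
    rw [Set.singleton_subset_iff]
    exact ⟨0, rfl⟩
  have hEN : E ^ N = (A ⊔ B) ^ N := by rw [hE]
  rw [hEN]
  apply h10_split A B _ N (2 * θ) (by omega)
  · intro c hc
    rcases lt_or_ge c θ with hc1 | hc1
    · have e1 : N - c = 2 * θ + (N - c - 2 * θ) := by omega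
      have e2 : N - 2 * θ = c + (N - c - 2 * θ) := by omega
      rw [e1, e2, pow_add, pow_add, mul_left_comm]
      exact mul_le_mul' m3 (mul_le_mul' (pow_le_pow_left' hAE _) (pow_le_pow_left' hBE _))
    · have e1 : N - c = θ + (N - c - θ) := by omega
      have e2 : N - 2 * θ = (c - θ) + (N - c - θ) := by omega
      have e3 : c = θ + (c - θ) := by omega
      have e4 : A ^ c * B ^ (N - c) = (A ^ θ * B ^ θ) * (A ^ (c - θ) * B ^ (N - c - θ)) := by
        conv_lhs => rw [e1, e3, pow_add, pow_add]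
        have e5 : θ + (c - θ) - θ = c - θ := by omega
        have e6 : N - (θ + (c - θ)) - θ = N - c - θ := by omega
        rw [e6]
        ring
      rw [e4, e2, pow_add]
      exact mul_le_mul' m2 (mul_le_mul' (pow_le_pow_left' hAE _) (pow_le_pow_left' hBE _))
  · rw [← hE]
    exact mul_le_mul' m1 le_rfl

theorem PT_all [Infinite k] (d : ℕ) (hd : 1 ≤ d) : PT k F d (2 ^ d - 1) := by
  rcases hd.eq_or_lt with rfl | hd2
  · exact PT_one k F
  intro a
  have hpow : 1 ≤ 2 ^ d := Nat.one_le_two_pow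
  obtain ⟨k₀, hk₀⟩ := win_all (k := k) (F := F) d hd2
    (Finset.univ : Finset (Bool ⊕ Fin (2 ^ d - 1))) (fun b => Finset.mem_univ _) (by
      rw [Finset.card_univ, Fintype.card_sum, Fintype.card_bool, Fintype.card_fin]
      omega) (-(a : ℤ)) (fun _ => 0)
  refine ⟨max k₀ a, fun θ hθ z => ?_⟩
  have h1 : k₀ ≤ θ := (le_max_left _ _).trans hθ
  have h2 : a ≤ θ := (le_max_right _ _).trans hθ
  obtain ⟨-, ξ, hξ, hE⟩ := hk₀ θ h1 (4 * θ - a) (fun g => wH g * θ) (by
    push_cast [show a ≤ 4 * θ by omega]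
    ring) (fun g => by push_cast; ring) z
  beta_reduce at hξ hE
  have w0 : ∀ i : Fin 3, (wH (Sum.inl i : Fin 3 ⊕ Fin (2 ^ d - 1))) = 1 := fun i => rfl
  have w1 : ∀ l : Fin (2 ^ d - 1), (wH (Sum.inr l : Fin 3 ⊕ Fin (2 ^ d - 1))) = 2 := fun i => rfl
  refine ⟨fun l => ξ (Sum.inr l), ξ (Sum.inl 0), ξ (Sum.inl 1), ξ (Sum.inl 2), fun l => ?_,
    ?_, ?_, ?_, ?_⟩
  · have h := hξ (Sum.inr l)
    rwa [w1] at h
  · have h := hξ (Sum.inl 0)
    rwa [w0, one_mul] at h
  · have h := hξ (Sum.inl 1)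
    rwa [w0, one_mul] at h
  · have h := hξ (Sum.inl 2)
    rwa [w0, one_mul] at h
  · intro N hN
    set E := Submodule.span k (Set.range z) with hE'
    set S : Submodule k F := Submodule.span k {ξ (Sum.inl 0) * ξ (Sum.inl 1),
      ξ (Sum.inl 0) * ξ (Sum.inl 2)} ⊔ Submodule.span k (Set.range fun l => ξ (Sum.inr l))
      with hS
    have h3 : E ^ (4 * θ - a) ≤ S * E ^ (4 * θ - a - 2 * θ) := by
      refine hE.trans (iSup₂_le fun i _ => ?_)
      have hsum : ∑ g ∈ GH i, wH g * θ = 2 * θ := by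
        rcases i with (b | l)
        · rcases b with _ | _
          · rw [GH, Finset.sum_pair (by simp), w0, w0]
            ring
          · rw [GH, Finset.sum_pair (by simp), w0, w0]
            ring
        · rw [GH, Finset.sum_singleton, w1]
      rw [hsum]
      refine mul_le_mul' ?_ le_rfl
      rw [Submodule.span_singleton_le_iff_mem]
      rcases i with (b | l)
      · rcases b with _ | _
        · rw [GH, Finset.prod_pair (by simp)]
          exact Submodule.mem_sup_left (Submodule.subset_span (by left; rfl))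
        · rw [GH, Finset.prod_pair (by simp)]
          exact Submodule.mem_sup_left (Submodule.subset_span (by right; rfl))
      · rw [GH, Finset.prod_singleton]
        exact Submodule.mem_sup_right (Submodule.subset_span ⟨l, rfl⟩)
    have e1 : N = (4 * θ - a) + (N - (4 * θ - a)) := by omega
    have e2 : N - 2 * θ = (4 * θ - a - 2 * θ) + (N - (4 * θ - a)) := by omega
    calc E ^ N = E ^ (4 * θ - a) * E ^ (N - (4 * θ - a)) := by
          rw [← pow_add, ← e1]
      _ ≤ (S * E ^ (4 * θ - a - 2 * θ)) * E ^ (N - (4 * θ - a)) := mul_le_mul' h3 le_rfl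
      _ = S * E ^ (N - 2 * θ) := by rw [mul_assoc, ← pow_add, ← e2]

end H10

end Pool.Agent.KM
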