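import Pool.Agent.KM.HWin

/-!
Project KM4 (MP_27fd67_ag), row H8: steps in terms of the numbers `uH` (helper81).
-/

set_option autoImplicit false
set_option linter.all false

open Function

namespace Pool.Agent.KM

section H8
variable {k F L : Type} [Field k] [Field F] [Algebra k F] [DecidableEq L]

theorem wH_sum (i : Bool ⊕ L) : ∑ g ∈ GH i, wH g = 2 := by
  rcases i with (b | l)
  · cases b
    · show ∑ g ∈ ({Sum.inl 0, Sum.inl 1} : Finset (Fin 3 ⊕ L)), wH g = 2
      rw [Finset.sum_pair (by simp)]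
      rfl
    · show ∑ g ∈ ({Sum.inl 0, Sum.inl 2} : Finset (Fin 3 ⊕ L)), wH g = 2
      rw [Finset.sum_pair (by simp)]
      rfl
  · show ∑ g ∈ ({Sum.inr l} : Finset (Fin 3 ⊕ L)), wH g = 2
    rw [Finset.sum_singleton]
    rfl

theorem wH_one (g : Fin 3 ⊕ L) : 1 ≤ wH g := by
  rcases g with (g | g)
  · exact le_rfl
  · exact Nat.le_succ 1

theorem GH_disj (i j : Bool ⊕ L) (hij : i ≠ j)
    (h : ¬ ((∃ b, i = Sum.inl b) ∧ (∃ b, j = Sum.inl b))) : Disjoint (GH i) (GH j) := by
  rcases i with (a | l)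
  · rcases j with (b | m)
    · exact absurd ⟨⟨a, rfl⟩, ⟨b, rfl⟩⟩ h
    · cases a <;> simp [GH]
  · rcases j with (b | m)
    · cases b <;> simp [GH]
    · have : l ≠ m := fun h => hij (by rw [h])
      simp [GH, this]

/-- the factors of a step -/
private def h8D (B : Finset (Bool ⊕ L)) : Fin 3 ⊕ L → Prop
  | Sum.inl 0 => Sum.inl false ∉ B ∧ Sum.inl true ∉ B
  | Sum.inl 1 => Sum.inl false ∉ B ∧ Sum.inl true ∈ B
  | Sum.inl 2 => Sum.inl false ∈ B ∧ Sum.inl true ∉ B
  | Sum.inr i => Sum.inr i ∉ B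

private theorem h8_in (B : Finset (Bool ⊕ L)) (i : Bool ⊕ L) (hi : i ∈ B) :
    ∀ g ∈ GH i, ¬ h8D B g := by
  rcases i with (b | l)
  · cases b
    · intro g hg
      simp only [GH, Finset.mem_insert, Finset.mem_singleton] at hg
      rcases hg with rfl | rfl <;> simp [h8D, hi]
    · intro g hg
      simp only [GH, Finset.mem_insert, Finset.mem_singleton] at hg
      rcases hg with rfl | rfl <;> simp [h8D, hi]
  · intro g hg
    simp only [GH, Finset.mem_singleton] at hg
    rw [hg]
    simp [h8D, hi]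

private theorem h8_out (B : Finset (Bool ⊕ L)) (i : Bool ⊕ L) (hi : i ∉ B) :
    ∃ g ∈ GH i, h8D B g ∧ ∀ g' ∈ GH i, h8D B g' → g' = g := by
  rcases i with (b | l)
  · cases b
    · by_cases h : (Sum.inl true : Bool ⊕ L) ∈ B
      · refine ⟨Sum.inl 1, by simp [GH], ⟨hi, h⟩, ?_⟩
        intro g hg
        simp only [GH, Finset.mem_insert, Finset.mem_singleton] at hg
        rcases hg with rfl | rfl
        · rintro ⟨_, h2⟩
          exact absurd h h2
        · intro _; rfl
      · refine ⟨Sum.inl 0, by simp [GH], ⟨hi, h⟩, ?_⟩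
        intro g hg
        simp only [GH, Finset.mem_insert, Finset.mem_singleton] at hg
        rcases hg with rfl | rfl
        · intro _; rfl
        · rintro ⟨_, h2⟩
          exact absurd h2 h
    · by_cases h : (Sum.inl false : Bool ⊕ L) ∈ B
      · refine ⟨Sum.inl 2, by simp [GH], ⟨h, hi⟩, ?_⟩
        intro g hg
        simp only [GH, Finset.mem_insert, Finset.mem_singleton] at hg
        rcases hg with rfl | rfl
        · rintro ⟨h2, _⟩
          exact absurd h h2
        · intro _; rfl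
      · refine ⟨Sum.inl 0, by simp [GH], ⟨h, hi⟩, ?_⟩
        intro g hg
        simp only [GH, Finset.mem_insert, Finset.mem_singleton] at hg
        rcases hg with rfl | rfl
        · intro _; rfl
        · rintro ⟨h2, _⟩
          exact absurd h2 h
  · refine ⟨Sum.inr l, by simp [GH], hi, ?_⟩
    intro g hg _
    simpa [GH] using hg

/-- a step, in terms of the numbers `uH` -/
theorem win_P [Infinite k] [Finite L] (d : ℕ) (S B : Finset (Bool ⊕ L)) (hBS : B ⊆ S) (ν : ℤ)
    (o : Fin 3 ⊕ L → ℤ) (h1 : Win k F d wH GH B ν o)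
    (h : ∀ (ν' : ℤ) (o' : Fin 3 ⊕ L → ℤ), (∀ i ∈ B, uH ν' o' i = uH ν o i - 1) →
      (∀ i ∈ S, i ∉ B → uH ν' o' i = uH ν o i + 1) → Win k F (d + 1) wH GH S ν' o') :
    Win k F (d + 1) wH GH S ν o := by
  classical
  cases nonempty_fintype L
  set D : Finset (Fin 3 ⊕ L) := Finset.univ.filter (h8D B) with hD
  have hmem : ∀ g, g ∈ D ↔ h8D B g := fun g => by simp [hD]
  have hin : ∀ i ∈ B, Disjoint (GH i) D := by
    intro i hi
    rw [Finset.disjoint_left]
    intro g hg hgD
    exact h8_in B i hi g hg ((hmem g).1 hgD)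
  have hout : ∀ i, i ∉ B → ∃ g ∈ GH i, GH i ∩ D = {g} := by
    intro i hi
    obtain ⟨g, hg, hgD, hu⟩ := h8_out B i hi
    refine ⟨g, hg, ?_⟩
    ext g'
    rw [Finset.mem_inter, Finset.mem_singleton, hmem]
    constructor
    · rintro ⟨h1, h2⟩
      exact hu g' h1 h2
    · rintro rfl
      exact ⟨hg, hgD⟩
  have hsum : ∀ i, ∑ g ∈ GH i, (if g ∈ D then o g - 1 else o g) =
      ∑ g ∈ GH i, o g - (GH i ∩ D).card := by
    intro i
    have e1 : ∀ g ∈ GH i, (if g ∈ D then o g - 1 else o g) = o g - (if g ∈ D then 1 else 0) := by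
      intro g _
      split_ifs <;> ring
    rw [Finset.sum_congr rfl e1, Finset.sum_sub_distrib, Finset.sum_ite_mem,
      Finset.sum_const, nsmul_eq_mul, mul_one]
  refine win_step d wH GH S B D (fun g _ => wH_one g) ?_ hBS hin ν o h1 (h _ _ ?_ ?_)
  · intro i _
    by_cases hi : i ∈ B
    · rw [Finset.disjoint_iff_inter_eq_empty.1 (hin i hi)]
      simp
    · obtain ⟨g, _, hg⟩ := hout i hi
      rw [hg]
      simp
  · intro i hi
    unfold uH
    rw [hsum, Finset.disjoint_iff_inter_eq_empty.1 (hin i hi)]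
    simp only [Finset.card_empty, Nat.cast_zero]
    ring
  · intro i _ hi
    obtain ⟨g, _, hg⟩ := hout i hi
    unfold uH
    rw [hsum, hg]
    simp only [Finset.card_singleton, Nat.cast_one]
    ring

end H8

end Pool.Agent.KM
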