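import Pool.Agent.KM.HDefs
import Pool.Agent.KM.SCommon

/-!
Project KM4 (MP_27fd67_ag), row H1: the Horace step (helper19).
-/

set_option autoImplicit false

open Function

namespace Pool.Agent.KM

section common
variable {k F J Γ ν : Type} [Field k] [Field F] [Algebra k F]

private theorem h1_l {A B C : Submodule k F} (h : A ≤ B) : A * C ≤ B * C :=
  mul_le_mul' h le_rfl

private theorem h1_r {A B C : Submodule k F} (h : B ≤ C) : A * B ≤ A * C :=
  mul_le_mul' le_rfl h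

/-- the conditions in terms of one factor -/
private theorem h1_split [DecidableEq Γ] (G : J → Finset Γ) (S : Finset J)
    (Y : J → Submodule k F) (ξ : Γ → F) (g₀ : Γ) (x : F) :
    (⨆ i ∈ S, Submodule.span k {∏ g ∈ G i, update ξ g₀ x g} * Y i) =
      Submodule.span k {x} * (⨆ i ∈ S.filter fun i => g₀ ∈ G i,
        Submodule.span k {∏ g ∈ (G i).erase g₀, ξ g} * Y i) ⊔
      ⨆ i ∈ S.filter fun i => g₀ ∉ G i, Submodule.span k {∏ g ∈ G i, ξ g} * Y i := by
  have h1 : ∀ i, g₀ ∈ G i → ∏ g ∈ G i, update ξ g₀ x g = x * ∏ g ∈ (G i).erase g₀, ξ g := by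
    intro i hi
    rw [← Finset.mul_prod_erase _ _ hi, update_self]
    congr 1
    exact Finset.prod_congr rfl fun g hg => by rw [update_of_ne (Finset.ne_of_mem_erase hg)]
  have h2 : ∀ i, g₀ ∉ G i → ∏ g ∈ G i, update ξ g₀ x g = ∏ g ∈ G i, ξ g := by
    intro i hi
    refine Finset.prod_congr rfl fun g hg => ?_
    rw [update_of_ne]
    rintro rfl
    exact hi hg
  apply le_antisymm
  · refine iSup₂_le fun i hi => ?_
    by_cases hg : g₀ ∈ G i
    · rw [h1 i hg]
      refine le_trans ?_ le_sup_left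
      rw [← Set.singleton_mul_singleton, ← Submodule.span_mul_span, mul_assoc]
      exact h1_r (le_iSup₂_of_le i (Finset.mem_filter.2 ⟨hi, hg⟩) le_rfl)
    · rw [h2 i hg]
      refine le_trans ?_ le_sup_right
      exact le_iSup₂_of_le (f := fun i (_ : i ∈ S.filter fun i => g₀ ∉ G i) =>
        Submodule.span k {∏ g ∈ G i, ξ g} * Y i) i (Finset.mem_filter.2 ⟨hi, hg⟩) le_rfl
  · refine sup_le ?_ ?_
    · rw [Submodule.mul_iSup]
      refine iSup_le fun i => ?_
      rw [Submodule.mul_iSup]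
      refine iSup_le fun hi => ?_
      obtain ⟨hi, hg⟩ := Finset.mem_filter.1 hi
      rw [← mul_assoc, Submodule.span_mul_span, Set.singleton_mul_singleton, ← h1 i hg]
      exact le_iSup₂_of_le (f := fun i (_ : i ∈ S) =>
        Submodule.span k {∏ g ∈ G i, update ξ g₀ x g} * Y i) i hi le_rfl
    · refine iSup₂_le fun i hi => ?_
      obtain ⟨hi, hg⟩ := Finset.mem_filter.1 hi
      rw [← h2 i hg]
      exact le_iSup₂_of_le (f := fun i (_ : i ∈ S) =>
        Submodule.span k {∏ g ∈ G i, update ξ g₀ x g} * Y i) i hi le_rfl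

/-- a common choice of one factor -/
private theorem h1_one [Infinite k] [Finite ν] [DecidableEq Γ] (G : J → Finset Γ)
    (P : Γ → Submodule k F) (S : ν → Finset J) (Y : ν → J → Submodule k F)
    (W M : ν → Submodule k F) [∀ c, FiniteDimensional k (W c)]
    (hle : ∀ c, ∀ i ∈ S c, ∀ ξ : Γ → F, (∀ g, ξ g ∈ P g) → ∀ y ∈ Y c i,
      (∏ g ∈ G i, ξ g) * y ∈ W c)
    (ξ : ν → Γ → F) (hξ : ∀ c g, ξ c g ∈ P g)
    (h : ∀ c, W c ≤ (⨆ i ∈ S c, Submodule.span k {∏ g ∈ G i, ξ c g} * Y c i) ⊔ M c) (g₀ : Γ) :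
    ∃ x ∈ P g₀, ∀ c,
      W c ≤ (⨆ i ∈ S c, Submodule.span k {∏ g ∈ G i, update (ξ c) g₀ x g} * Y c i) ⊔ M c := by
  have hform : ∀ (c : ν) (x : F), ((⨆ g ∈ ({()} : Finset Unit), Submodule.span k
      {(1 : F) * x} * (⨆ i ∈ (S c).filter fun i => g₀ ∈ G i,
        Submodule.span k {∏ g ∈ (G i).erase g₀, ξ c g} * Y c i)) ⊔
      ((⨆ i ∈ (S c).filter fun i => g₀ ∉ G i, Submodule.span k {∏ g ∈ G i, ξ c g} * Y c i) ⊔
        M c)) =
      (⨆ i ∈ S c, Submodule.span k {∏ g ∈ G i, update (ξ c) g₀ x g} * Y c i) ⊔ M c := by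
    intro c x
    rw [h1_split G (S c) (Y c) (ξ c) g₀ x, sup_assoc]
    simp
  have hle' : ∀ c, ∀ g ∈ ({()} : Finset Unit), ∀ x ∈ (fun _ : Unit => P g₀) g,
      ∀ y ∈ (fun (c : ν) (_ : Unit) => ⨆ i ∈ (S c).filter fun i => g₀ ∈ G i,
        Submodule.span k {∏ g ∈ (G i).erase g₀, ξ c g} * Y c i) c g,
      (fun (_ : ν) (_ : Unit) => (1 : F)) c g * x * y ∈ W c := by
    intro c g _ x hx y hy
    have h1 : (⨆ i ∈ (S c).filter fun i => g₀ ∈ G i,
        Submodule.span k {∏ g ∈ (G i).erase g₀, ξ c g} * Y c i) ≤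
        (W c).comap (LinearMap.mulLeft k ((1 : F) * x)) := by
      refine iSup₂_le fun i hi => ?_
      obtain ⟨hi, hg⟩ := Finset.mem_filter.1 hi
      rw [Submodule.mul_le]
      intro m hm y hy
      obtain ⟨a, rfl⟩ := Submodule.mem_span_singleton.1 hm
      show (1 : F) * x * ((a • ∏ g ∈ (G i).erase g₀, ξ c g) * y) ∈ W c
      have h2 := hle c i hi (update (ξ c) g₀ x) (by
        intro g
        by_cases hgg : g = g₀
        · subst hgg
          simpa using hx
        · rw [update_of_ne hgg]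
          exact hξ c g) y hy
      have h3 : ∏ g ∈ G i, update (ξ c) g₀ x g = x * ∏ g ∈ (G i).erase g₀, ξ c g := by
        rw [← Finset.mul_prod_erase _ _ hg, update_self]
        congr 1
        exact Finset.prod_congr rfl fun g hg => by
          rw [update_of_ne (Finset.ne_of_mem_erase hg)]
      rw [h3] at h2
      rw [one_mul, ← mul_assoc, mul_smul_comm, smul_mul_assoc]
      exact Submodule.smul_mem _ _ h2
    exact h1 hy
  obtain ⟨p, hp, hW⟩ := common_cond (k := k) (J := Unit) (fun _ => P g₀) (fun _ _ => 1)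
    (fun _ : ν => {()})
    (fun c _ => ⨆ i ∈ (S c).filter fun i => g₀ ∈ G i,
        Submodule.span k {∏ g ∈ (G i).erase g₀, ξ c g} * Y c i) W
    (fun c => (⨆ i ∈ (S c).filter fun i => g₀ ∉ G i,
        Submodule.span k {∏ g ∈ G i, ξ c g} * Y c i) ⊔ M c) hle' (fun c =>
    ⟨fun _ => ξ c g₀, fun _ => hξ c g₀, by
      have h5 := hform c (ξ c g₀)
      simp only [update_eq_self] at h5
      exact (h c).trans (le_of_eq h5.symm)⟩)
  refine ⟨p (), hp (), fun c => ?_⟩
  rw [← hform]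
  exact hW c

/-- a common choice of all factors -/
private theorem h1_all [Infinite k] [Finite ν] [Finite Γ] (G : J → Finset Γ)
    (P : Γ → Submodule k F) (S : ν → Finset J) (Y : ν → J → Submodule k F)
    (W M : ν → Submodule k F) [∀ c, FiniteDimensional k (W c)]
    (hle : ∀ c, ∀ i ∈ S c, ∀ ξ : Γ → F, (∀ g, ξ g ∈ P g) → ∀ y ∈ Y c i,
      (∏ g ∈ G i, ξ g) * y ∈ W c)
    (h : ∀ c, ∃ ξ : Γ → F, (∀ g, ξ g ∈ P g) ∧
      W c ≤ (⨆ i ∈ S c, Submodule.span k {∏ g ∈ G i, ξ g} * Y c i) ⊔ M c) :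
    ∃ ξ : Γ → F, (∀ g, ξ g ∈ P g) ∧
      ∀ c, W c ≤ (⨆ i ∈ S c, Submodule.span k {∏ g ∈ G i, ξ g} * Y c i) ⊔ M c := by
  classical
  cases nonempty_fintype Γ
  have key : ∀ T : Finset Γ, ∃ ξ : ν → Γ → F, (∀ c g, ξ c g ∈ P g) ∧
      (∀ c, W c ≤ (⨆ i ∈ S c, Submodule.span k {∏ g ∈ G i, ξ c g} * Y c i) ⊔ M c) ∧
      ∀ c c', ∀ g ∈ T, ξ c g = ξ c' g := by
    intro T
    induction T using Finset.induction_on with
    | empty =>
      choose ξ hξ hW using h
      exact ⟨ξ, hξ, hW, by simp⟩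
    | insert g₀ T hg₀ ih =>
      obtain ⟨ξ, hξ, hW, heq⟩ := ih
      obtain ⟨x, hx, hW'⟩ := h1_one G P S Y W M hle ξ hξ hW g₀
      refine ⟨fun c => update (ξ c) g₀ x, fun c g => ?_, hW', fun c c' g hg => ?_⟩
      · show update (ξ c) g₀ x g ∈ P g
        by_cases hgg : g = g₀
        · subst hgg
          simpa using hx
        · rw [update_of_ne hgg]
          exact hξ c g
      · show update (ξ c) g₀ x g = update (ξ c') g₀ x g
        by_cases hgg : g = g₀
        · subst hgg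
          simp
        · rw [update_of_ne hgg, update_of_ne hgg]
          exact heq c c' g (Finset.mem_of_mem_insert_of_ne hg hgg)
  obtain ⟨ξ, hξ, hW, heq⟩ := key Finset.univ
  by_cases hν : Nonempty ν
  · obtain ⟨c₀⟩ := hν
    refine ⟨ξ c₀, hξ c₀, fun c => ?_⟩
    have : ξ c₀ = ξ c := funext fun g => heq c₀ c g (Finset.mem_univ g)
    rw [this]
    exact hW c
  · exact ⟨fun _ => 0, fun g => Submodule.zero_mem _, fun c => absurd ⟨c⟩ hν⟩

end common

section H1
variable {k F J Γ : Type} [Field k] [Field F] [Algebra k F]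

theorem hq_mono {n : ℕ} (G : J → Finset Γ) (S S' : Finset J) (h : S ⊆ S') (z : Fin n → F)
    (N : ℕ) (c : Γ → ℕ) (hS' : ∀ i ∈ S', ∑ g ∈ G i, c g ≤ N) (hS : HQ k G S z N c) :
    HQ k G S' z N c := by
  obtain ⟨-, ξ, hξ, hE⟩ := hS
  refine ⟨hS', ξ, hξ, hE.trans ?_⟩
  exact iSup₂_le fun i hi => le_iSup₂_of_le (f := fun i (_ : i ∈ S') =>
    Submodule.span k {∏ g ∈ G i, ξ g} * Submodule.span k (Set.range z) ^ (N - ∑ g ∈ G i, c g))
    i (h hi) le_rfl

/-- the degrees outside of the elements of `S` do not matter -/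
theorem hq_congr {n : ℕ} (G : J → Finset Γ) (S : Finset J) (z : Fin n → F)
    (N : ℕ) (c c' : Γ → ℕ) (h : ∀ i ∈ S, ∀ g ∈ G i, c g = c' g) (hS : HQ k G S z N c) :
    HQ k G S z N c' := by
  classical
  obtain ⟨hd, ξ, hξ, hE⟩ := hS
  have hsum : ∀ i ∈ S, ∑ g ∈ G i, c' g = ∑ g ∈ G i, c g := fun i hi =>
    Finset.sum_congr rfl fun g hg => (h i hi g hg).symm
  refine ⟨fun i hi => by rw [hsum i hi]; exact hd i hi,
    fun g => if ∃ i ∈ S, g ∈ G i then ξ g else 0, fun g => ?_, hE.trans ?_⟩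
  · show (if ∃ i ∈ S, g ∈ G i then ξ g else 0) ∈ Submodule.span k (Set.range z) ^ c' g
    by_cases hg : ∃ i ∈ S, g ∈ G i
    · rw [if_pos hg]
      obtain ⟨i, hi, hgi⟩ := hg
      rw [← h i hi g hgi]
      exact hξ g
    · rw [if_neg hg]
      exact Submodule.zero_mem _
  · refine iSup₂_le fun i hi => ?_
    refine le_iSup₂_of_le i hi ?_
    rw [hsum i hi]
    have : ∏ g ∈ G i, (if ∃ i ∈ S, g ∈ G i then ξ g else 0) = ∏ g ∈ G i, ξ g :=
      Finset.prod_congr rfl fun g hg => if_pos ⟨i, hi, hg⟩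
    rw [this]

private theorem h1_prod_mem (E : Submodule k F) (T : Finset Γ) (ξ : Γ → F) (c : Γ → ℕ)
    (h : ∀ g ∈ T, ξ g ∈ E ^ c g) : ∏ g ∈ T, ξ g ∈ E ^ (∑ g ∈ T, c g) := by
  classical
  induction T using Finset.induction_on with
  | empty => simp [Submodule.one_eq_span, Submodule.mem_span_singleton_self]
  | insert g T hg ih =>
    rw [Finset.prod_insert hg, Finset.sum_insert hg, pow_add]
    exact Submodule.mul_mem_mul (h g (Finset.mem_insert_self _ _))
      (ih fun g hg => h g (Finset.mem_insert_of_mem hg))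

private theorem h1_sup_pow (A B : Submodule k F) (n : ℕ) :
    (A ⊔ B) ^ (n + 1) ≤ B ^ (n + 1) ⊔ A * (A ⊔ B) ^ n := by
  induction n with
  | zero => simp [sup_comm]
  | succ n ih =>
    have h1 : (A ⊔ B) ^ (n + 1 + 1) ≤ A * (A ⊔ B) ^ (n + 1) ⊔ B * (A ⊔ B) ^ (n + 1) := by
      rw [pow_succ' (A ⊔ B) (n + 1), Submodule.sup_mul]
    have h2 : B * (A ⊔ B) ^ (n + 1) ≤ B ^ (n + 1 + 1) ⊔ A * (A ⊔ B) ^ (n + 1) := by
      refine (h1_r ih).trans ?_
      rw [Submodule.mul_sup]
      refine sup_le_sup (le_of_eq (pow_succ' B (n + 1)).symm) ?_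
      rw [mul_left_comm, pow_succ' (A ⊔ B) n]
      exact h1_r (h1_l le_sup_right)
    exact h1.trans (sup_le le_sup_right h2)

theorem hq_step [Infinite k] [Finite Γ] [DecidableEq Γ] {n : ℕ} (G : J → Finset Γ)
    (S B : Finset J) (D : Finset Γ) (z : Fin (n + 1) → F) (N : ℕ) (c : Γ → ℕ)
    (hc : ∀ g ∈ D, 1 ≤ c g) (hD : ∀ i ∈ S, (G i ∩ D).card ≤ 1) (hBS : B ⊆ S)
    (hBD : ∀ i ∈ B, Disjoint (G i) D) (h1 : HQ k G B (Fin.tail z) (N + 1) c)
    (h2 : HQ k G S z N (fun g => if g ∈ D then c g - 1 else c g)) :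
    HQ k G S z (N + 1) c := by
  obtain ⟨hd1, ξ₁, hξ₁, hE₁⟩ := h1
  obtain ⟨hd2, ξ₂, hξ₂, hE₂⟩ := h2
  set c' : Γ → ℕ := fun g => if g ∈ D then c g - 1 else c g with hc'
  set E := Submodule.span k (Set.range z) with hE
  set E' := Submodule.span k (Set.range (Fin.tail z)) with hE'
  have hc'D : ∀ g ∈ D, c g = c' g + 1 := by
    intro g hg
    simp only [hc', if_pos hg]
    have := hc g hg
    omega
  have hc'o : ∀ g, g ∉ D → c' g = c g := fun g hg => by simp only [hc', if_neg hg]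
  have hE'E : E' ≤ E := by
    refine Submodule.span_mono ?_
    rintro _ ⟨i, rfl⟩
    exact ⟨i.succ, rfl⟩
  have hsup : Submodule.span k {z 0} ⊔ E' = E := by
    rw [hE, hE', ← Submodule.span_union]
    congr 1
    rw [Set.singleton_union, ← Fin.range_cons, Fin.cons_self_tail]
  have hz0 : z 0 ∈ E := Submodule.subset_span ⟨0, rfl⟩
  -- sums and products for the disjoint sets
  have hdisj : ∀ i, Disjoint (G i) D → ∀ g ∈ G i, g ∉ D := fun i hi g hg hgD =>
    (Finset.disjoint_left.1 hi hg hgD)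
  have hsumB : ∀ i, Disjoint (G i) D → ∑ g ∈ G i, c' g = ∑ g ∈ G i, c g := fun i hi =>
    Finset.sum_congr rfl fun g hg => hc'o g (hdisj i hi g hg)
  -- common choice
  have hfd : ∀ m : ℕ, FiniteDimensional k ↥(E ^ m) := fun m =>
    Module.Finite.iff_fg.2 ((Submodule.fg_span (Set.finite_range z)).pow m)
  let Wc : Bool → Submodule k F := fun t => if t = true then E ^ N else E ^ (N + 1)
  have : ∀ t, FiniteDimensional k (Wc t) := by
    intro t
    cases t
    · exact hfd (N + 1)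
    · exact hfd N
  obtain ⟨η, hη, hW⟩ := h1_all (k := k) (ν := Bool) G (fun g => E ^ c' g)
    (fun t => if t = true then S else B)
    (fun t i => if t = true then E ^ (N - ∑ g ∈ G i, c' g) else E ^ (N + 1 - ∑ g ∈ G i, c g))
    Wc (fun t => if t = true then ⊥ else Submodule.span k {z 0} * E ^ N) (by
      intro t i hi ξ hξ y hy
      cases t
      · have hi' : i ∈ B := hi
        have hy' : y ∈ E ^ (N + 1 - ∑ g ∈ G i, c g) := hy
        show (∏ g ∈ G i, ξ g) * y ∈ E ^ (N + 1)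
        have h3 := h1_prod_mem E (G i) ξ c' (fun g _ => hξ g)
        rw [hsumB i (hBD i hi')] at h3
        have h4 := Submodule.mul_mem_mul h3 hy'
        rwa [← pow_add, Nat.add_sub_cancel' (hd1 i hi')] at h4
      · have hi' : i ∈ S := hi
        have hy' : y ∈ E ^ (N - ∑ g ∈ G i, c' g) := hy
        show (∏ g ∈ G i, ξ g) * y ∈ E ^ N
        have h3 := h1_prod_mem E (G i) ξ c' (fun g _ => hξ g)
        have h4 := Submodule.mul_mem_mul h3 hy'
        rwa [← pow_add, Nat.add_sub_cancel' (hd2 i hi')] at h4) (by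
      intro t
      cases t
      · refine ⟨fun g => if g ∈ D then 0 else ξ₁ g, fun g => ?_, ?_⟩
        · by_cases hg : g ∈ D
          · simp only [if_pos hg]
            exact Submodule.zero_mem _
          · simp only [if_neg hg]
            rw [hc'o g hg]
            exact pow_le_pow_left' hE'E _ (hξ₁ g)
        · show E ^ (N + 1) ≤ (⨆ i ∈ B, Submodule.span k
            {∏ g ∈ G i, (if g ∈ D then 0 else ξ₁ g)} * E ^ (N + 1 - ∑ g ∈ G i, c g)) ⊔
            Submodule.span k {z 0} * E ^ N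
          have h3 := h1_sup_pow (Submodule.span k {z 0}) E' N
          rw [hsup] at h3
          refine h3.trans (sup_le_sup_right (hE₁.trans ?_) _)
          refine iSup₂_mono fun i hi => ?_
          have h4 : ∏ g ∈ G i, (if g ∈ D then 0 else ξ₁ g) = ∏ g ∈ G i, ξ₁ g :=
            Finset.prod_congr rfl fun g hg => if_neg (hdisj i (hBD i hi) g hg)
          rw [h4]
          exact h1_r (pow_le_pow_left' hE'E _)
      · refine ⟨ξ₂, hξ₂, ?_⟩
        show E ^ N ≤ (⨆ i ∈ S, Submodule.span k {∏ g ∈ G i, ξ₂ g} *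
          E ^ (N - ∑ g ∈ G i, c' g)) ⊔ ⊥
        rw [sup_bot_eq]
        exact hE₂)
  have hW1 : E ^ N ≤ ⨆ i ∈ S, Submodule.span k {∏ g ∈ G i, η g} *
      E ^ (N - ∑ g ∈ G i, c' g) := by
    have h3 : E ^ N ≤ (⨆ i ∈ S, Submodule.span k {∏ g ∈ G i, η g} *
      E ^ (N - ∑ g ∈ G i, c' g)) ⊔ ⊥ := hW true
    rwa [sup_bot_eq] at h3
  have hW2 : E ^ (N + 1) ≤ (⨆ i ∈ B, Submodule.span k {∏ g ∈ G i, η g} *
      E ^ (N + 1 - ∑ g ∈ G i, c g)) ⊔ Submodule.span k {z 0} * E ^ N := hW false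
  -- the factors
  set ξ : Γ → F := fun g => if g ∈ D then z 0 * η g else η g with hξdef
  have hprodB : ∀ i, Disjoint (G i) D → ∏ g ∈ G i, ξ g = ∏ g ∈ G i, η g := fun i hi =>
    Finset.prod_congr rfl fun g hg => by simp only [hξdef, if_neg (hdisj i hi g hg)]
  have hone : ∀ i ∈ S, ¬ Disjoint (G i) D → (∏ g ∈ G i, ξ g = z 0 * ∏ g ∈ G i, η g) ∧
      ∑ g ∈ G i, c g = ∑ g ∈ G i, c' g + 1 := by
    intro i hi hnd
    obtain ⟨g₁, hg₁, hg₁D⟩ := Finset.not_disjoint_iff.1 hnd
    have huniq : ∀ g ∈ G i, g ≠ g₁ → g ∉ D := by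
      intro g hg hne hgD
      have h3 := hD i hi
      have h4 : ({g, g₁} : Finset Γ) ⊆ G i ∩ D := by
        intro x hx
        rcases Finset.mem_insert.1 hx with rfl | hx
        · exact Finset.mem_inter.2 ⟨hg, hgD⟩
        · rw [Finset.mem_singleton.1 hx]
          exact Finset.mem_inter.2 ⟨hg₁, hg₁D⟩
      have h5 := Finset.card_le_card h4
      rw [Finset.card_pair hne] at h5
      omega
    constructor
    · rw [← Finset.mul_prod_erase _ _ hg₁, ← Finset.mul_prod_erase _ η hg₁, ← mul_assoc]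
      congr 1
      · simp only [hξdef, if_pos hg₁D]
      · refine Finset.prod_congr rfl fun g hg => ?_
        have := huniq g (Finset.mem_of_mem_erase hg) (Finset.ne_of_mem_erase hg)
        simp only [hξdef, if_neg this]
    · rw [← Finset.add_sum_erase _ _ hg₁, ← Finset.add_sum_erase _ c' hg₁, hc'D g₁ hg₁D]
      have : ∑ g ∈ (G i).erase g₁, c g = ∑ g ∈ (G i).erase g₁, c' g :=
        Finset.sum_congr rfl fun g hg =>
          (hc'o g (huniq g (Finset.mem_of_mem_erase hg) (Finset.ne_of_mem_erase hg))).symm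
      rw [this]
      ring
  refine ⟨fun i hi => ?_, ξ, fun g => ?_, ?_⟩
  · by_cases hdj : Disjoint (G i) D
    · rw [← hsumB i hdj]
      exact (hd2 i hi).trans (Nat.le_succ N)
    · rw [(hone i hi hdj).2]
      exact Nat.succ_le_succ (hd2 i hi)
  · by_cases hg : g ∈ D
    · simp only [hξdef, if_pos hg]
      rw [hc'D g hg, pow_succ']
      exact Submodule.mul_mem_mul hz0 (hη g)
    · simp only [hξdef, if_neg hg]
      rw [← hc'o g hg]
      exact hη g
  · refine hW2.trans (sup_le ?_ ?_)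
    · refine iSup₂_le fun i hi => ?_
      refine le_iSup₂_of_le i (hBS hi) ?_
      rw [hprodB i (hBD i hi)]
    · refine (h1_r hW1).trans ?_
      rw [Submodule.mul_iSup]
      refine iSup_le fun i => ?_
      rw [Submodule.mul_iSup]
      refine iSup_le fun hi => ?_
      refine le_iSup₂_of_le i hi ?_
      by_cases hdj : Disjoint (G i) D
      · rw [hprodB i hdj, hsumB i hdj, mul_left_comm]
        have h3 : ∑ g ∈ G i, c g ≤ N := by
          rw [← hsumB i hdj]
          exact hd2 i hi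
        rw [show N + 1 - ∑ g ∈ G i, c g = (N - ∑ g ∈ G i, c g) + 1 by omega, pow_succ' E]
        exact h1_r (h1_l ((Submodule.span_singleton_le_iff_mem _ _).2 hz0))
      · obtain ⟨h3, h4⟩ := hone i hi hdj
        rw [h3, h4, ← mul_assoc, Submodule.span_mul_span, Set.singleton_mul_singleton,
          show N + 1 - (∑ g ∈ G i, c' g + 1) = N - ∑ g ∈ G i, c' g by omega]

end H1

end Pool.Agent.KM
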