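import Pool.Agent.KM.HStep
import Pool.Agent.KM.HHalf
import Pool.Agent.KM.HTwo

/-!
Project KM4 (MP_27fd67_ag), row H4: windows of degrees (helper84).
-/

set_option autoImplicit false

open Function

namespace Pool.Agent.KM

section H4
variable {k F J Γ : Type} [Field k] [Field F] [Algebra k F]

private theorem hwin_bound {J : Type} (S : Finset J) (a : J → ℤ) :
    ∃ k₀ : ℕ, ∀ i ∈ S, a i ≤ k₀ := by
  refine ⟨S.sup fun i => (a i).toNat, fun i hi => ?_⟩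
  have h1 : (a i).toNat ≤ S.sup fun i => (a i).toNat :=
    Finset.le_sup (f := fun i => (a i).toNat) hi
  have h2 : a i ≤ ((a i).toNat : ℤ) := Int.self_le_toNat _
  exact h2.trans (by exact_mod_cast h1)

private theorem hwin_deg {Γ : Type} (s : Finset Γ) (wt c : Γ → ℕ) (o : Γ → ℤ) (r : ℕ)
    (hw : ∑ g ∈ s, wt g = 2) (hc : ∀ g, (c g : ℤ) = wt g * r + o g) :
    ((∑ g ∈ s, c g : ℕ) : ℤ) = 2 * r + ∑ g ∈ s, o g := by
  push_cast
  rw [Finset.sum_congr rfl fun g _ => hc g, Finset.sum_add_distrib, ← Finset.sum_mul]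
  have h : (∑ g ∈ s, (wt g : ℤ)) = 2 := by exact_mod_cast hw
  rw [h]

theorem win_mono (d : ℕ) (wt : Γ → ℕ) (G : J → Finset Γ) (S S' : Finset J) (h : S ⊆ S')
    (hw : ∀ i ∈ S', ∑ g ∈ G i, wt g = 2) (ν : ℤ) (o : Γ → ℤ) (hS : Win k F d wt G S ν o) :
    Win k F d wt G S' ν o := by
  obtain ⟨k₀, hk₀⟩ := hS
  obtain ⟨k₁, hk₁⟩ := hwin_bound S' fun i => ∑ g ∈ G i, o g - ν
  refine ⟨max k₀ k₁, fun r hr N c hN hc z => ?_⟩
  refine hq_mono G S S' h z N c (fun i hi => ?_)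
    (hk₀ r ((le_max_left _ _).trans hr) N c hN hc z)
  have h1 := hwin_deg (G i) wt c o r (hw i hi) hc
  have h2 := hk₁ i hi
  have h3 : (k₁ : ℤ) ≤ r := by exact_mod_cast (le_max_right _ _).trans hr
  have h4 : ((∑ g ∈ G i, c g : ℕ) : ℤ) ≤ N := by
    rw [h1, hN]
    linarith
  exact_mod_cast h4

theorem win_step [Infinite k] [Finite Γ] [DecidableEq Γ] (d : ℕ) (wt : Γ → ℕ)
    (G : J → Finset Γ) (S B : Finset J) (D : Finset Γ) (hw : ∀ g ∈ D, 1 ≤ wt g)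
    (hD : ∀ i ∈ S, (G i ∩ D).card ≤ 1) (hBS : B ⊆ S) (hBD : ∀ i ∈ B, Disjoint (G i) D) (ν : ℤ)
    (o : Γ → ℤ) (h1 : Win k F d wt G B ν o)
    (h2 : Win k F (d + 1) wt G S (ν - 1) (fun g => if g ∈ D then o g - 1 else o g)) :
    Win k F (d + 1) wt G S ν o := by
  obtain ⟨k₁, hk₁⟩ := h1
  obtain ⟨k₂, hk₂⟩ := h2
  obtain ⟨k₃, hk₃⟩ := hwin_bound D fun g => 1 - o g
  refine ⟨max (max k₁ k₂) (max k₃ (1 - ν).toNat), fun r hr N c hN hc z => ?_⟩
  have hr1 : k₁ ≤ r := ((le_max_left _ _).trans (le_max_left _ _)).trans hr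
  have hr2 : k₂ ≤ r := ((le_max_right _ _).trans (le_max_left _ _)).trans hr
  have hr3 : (k₃ : ℤ) ≤ r := by
    exact_mod_cast ((le_max_left _ _).trans (le_max_right _ _)).trans hr
  have hr4 : ((1 - ν).toNat : ℤ) ≤ r := by
    exact_mod_cast ((le_max_right _ _).trans (le_max_right _ _)).trans hr
  have hr5 : 1 - ν ≤ r := (Int.self_le_toNat _).trans hr4
  have hr0 : (0 : ℤ) ≤ r := Int.natCast_nonneg r
  have hcD : ∀ g ∈ D, 1 ≤ c g := by
    intro g hg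
    have e1 : (1 : ℤ) ≤ wt g := by exact_mod_cast hw g hg
    have e2 := hk₃ g hg
    have e3 : (r : ℤ) ≤ wt g * r := by nlinarith
    have e4 : (1 : ℤ) ≤ c g := by
      rw [hc g]
      linarith
    exact_mod_cast e4
  have hN1 : 1 ≤ N := by
    have e : (1 : ℤ) ≤ N := by
      rw [hN]
      linarith
    exact_mod_cast e
  obtain ⟨N', rfl⟩ : ∃ N', N = N' + 1 := ⟨N - 1, by omega⟩
  refine hq_step G S B D z N' c hcD hD hBS hBD (hk₁ r hr1 (N' + 1) c hN hc (Fin.tail z)) ?_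
  refine hk₂ r hr2 N' _ ?_ ?_ z
  · push_cast at hN
    linarith
  · intro g
    by_cases hg : g ∈ D
    · have e1 := hcD g hg
      have e2 := hc g
      simp only [if_pos hg]
      rw [Nat.cast_sub e1, e2]
      push_cast
      ring
    · simp only [if_neg hg]
      exact hc g

theorem win_half [Infinite k] [Finite Γ] [DecidableEq J] [DecidableEq Γ] (d : ℕ) (wt : Γ → ℕ)
    (G : J → Finset Γ) (S : Finset J) (hw : ∀ i ∈ S, ∑ g ∈ G i, wt g = 2)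
    (hG : ∀ i ∈ S, ∀ j ∈ S, i ≠ j → Disjoint (G i) (G j)) (hS : S.card = 2 ^ d) (ν : ℤ)
    (o : Γ → ℤ) (h : ∀ i ∈ S, 0 ≤ ν - 2 * ∑ g ∈ G i, o g) : Win k F d wt G S ν o := by
  refine ⟨0, fun r _ N c hN hc z => ?_⟩
  refine hq_half d G S z N c hG hS fun i hi => ?_
  have h1 := hwin_deg (G i) wt c o r (hw i hi) hc
  have h2 := h i hi
  have h3 : ((2 * ∑ g ∈ G i, c g : ℕ) : ℤ) ≤ N := by
    rw [Nat.cast_mul, h1, hN]
    push_cast
    linarith
  exact_mod_cast h3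

theorem win_two (wt : Γ → ℕ) [DecidableEq J] [DecidableEq Γ]
    (G : J → Finset Γ) (S : Finset J) (hw : ∀ i ∈ S, ∑ g ∈ G i, wt g = 2)
    (hG : ∀ i ∈ S, ∀ j ∈ S, i ≠ j → Disjoint (G i) (G j)) (hS : S.card = 2) (ν : ℤ)
    (o : Γ → ℤ) (h : 0 ≤ ∑ i ∈ S, (ν - 2 * ∑ g ∈ G i, o g)) : Win k F 1 wt G S ν o := by
  obtain ⟨k₁, hk₁⟩ := hwin_bound S fun i => ∑ g ∈ G i, o g - ν
  refine ⟨k₁, fun r hr N c hN hc z => ?_⟩
  have hr1 : (k₁ : ℤ) ≤ r := by exact_mod_cast hr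
  have hle : ∀ l ∈ S, ∑ g ∈ G l, c g ≤ N := by
    intro l hl
    have h1 := hwin_deg (G l) wt c o r (hw l hl) hc
    have h2 := hk₁ l hl
    have h4 : ((∑ g ∈ G l, c g : ℕ) : ℤ) ≤ N := by
      rw [h1, hN]
      linarith
    exact_mod_cast h4
  obtain ⟨i, j, hij, rfl⟩ := Finset.card_eq_two.mp hS
  have hi : i ∈ ({i, j} : Finset J) := Finset.mem_insert_self i {j}
  have hj : j ∈ ({i, j} : Finset J) := Finset.mem_insert_of_mem (Finset.mem_singleton_self j)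
  refine hq_two G {i, j} z N c hle i j hi hj (hG i hi j hj hij) ?_
  have h1 := hwin_deg (G i) wt c o r (hw i hi) hc
  have h2 := hwin_deg (G j) wt c o r (hw j hj) hc
  rw [Finset.sum_pair hij] at h
  have h3 : ((∑ g ∈ G i, c g + ∑ g ∈ G j, c g : ℕ) : ℤ) ≤ ((N + 1 : ℕ) : ℤ) := by
    rw [Nat.cast_add, h1, h2, Nat.cast_add, hN]
    push_cast
    linarith
  exact_mod_cast h3

end H4

end Pool.Agent.KM
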