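import Pool.Agent.KM.Defs

/-!
Project KM (MP_27fd67_ag), row M5: if all Milnor functionals with real values vanish, then the
Milnor K-group `MilnorK F n` is torsion.
-/

set_option autoImplicit false

open Function
open scoped TensorProduct

namespace Pool.Agent.KM

/-- An element of an abelian group which is killed by all homomorphisms to `ℚ` is torsion. -/
theorem m5_torsion_of_forall_hom {A : Type*} [AddCommGroup A] (a : A)
    (h : ∀ l : A →+ ℚ, l a = 0) : ∃ n : ℕ, 0 < n ∧ n • a = 0 := by
  have h1 : (1 : ℚ) ⊗ₜ[ℤ] a = 0 := by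
    by_contra hne
    obtain ⟨l, hl⟩ : ∃ l : Module.Dual ℚ (ℚ ⊗[ℤ] A), l ((1 : ℚ) ⊗ₜ[ℤ] a) ≠ 0 := by
      by_contra hcon
      push Not at hcon
      exact hne ((Module.forall_dual_apply_eq_zero_iff ℚ _).1 hcon)
    exact hl (h (l.toAddMonoidHom.comp ((TensorProduct.mk ℤ ℚ A 1).toAddMonoidHom)))
  have h2 : IsLocalizedModule (nonZeroDivisors ℤ) (TensorProduct.mk ℤ ℚ A 1) :=
    (isLocalizedModule_iff_isBaseChange (nonZeroDivisors ℤ) ℚ _).2
      (TensorProduct.isBaseChange ℤ A ℚ)
  obtain ⟨c, hc⟩ := (IsLocalizedModule.eq_zero_iff (nonZeroDivisors ℤ)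
    (TensorProduct.mk ℤ ℚ A 1)).1 h1
  have hc0 : (c : ℤ) ≠ 0 := nonZeroDivisors.coe_ne_zero c
  refine ⟨(c : ℤ).natAbs, Int.natAbs_pos.2 hc0, ?_⟩
  have hc' : (c : ℤ) • a = 0 := hc
  rcases Int.natAbs_eq (c : ℤ) with h3 | h3
  · rw [h3, natCast_zsmul] at hc'
    exact hc'
  · rw [h3, neg_smul, natCast_zsmul, neg_eq_zero] at hc'
    exact hc'

section adjacent

variable {F : Type} [Field F] {n : ℕ} {A : Type*} [AddCommGroup A]
  {S : (Fin n → Fˣ) → A}

/-- multi-additive functions on tuples of units -/
def M5Mul (S : (Fin n → Fˣ) → A) : Prop :=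
  ∀ (x : Fin n → Fˣ) (i : Fin n) (a b : Fˣ),
    S (update x i (a * b)) = S (update x i a) + S (update x i b)

/-- the Steinberg relation for neighbouring entries -/
def M5St (S : (Fin n → Fˣ) → A) : Prop :=
  ∀ (x : Fin n → Fˣ) (i j : Fin n), (i : ℕ) + 1 = j → (x i : F) + x j = 1 → S x = 0

theorem m5_one (hm : M5Mul S) (x : Fin n → Fˣ) (i : Fin n) : S (update x i 1) = 0 := by
  have h := hm x i 1 1
  rw [mul_one] at h
  exact left_eq_add.1 h

theorem m5_inv (hm : M5Mul S) (x : Fin n → Fˣ) (i : Fin n) (a : Fˣ) :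
    S (update x i a⁻¹) = - S (update x i a) := by
  have h := hm x i a a⁻¹
  rw [mul_inv_cancel, m5_one hm] at h
  exact (neg_eq_of_add_eq_zero_right h.symm).symm

theorem m5_neg_self (hm : M5Mul S) (hs : M5St S) (x : Fin n → Fˣ) (i j : Fin n)
    (hij : (i : ℕ) + 1 = j) (a : Fˣ) : S (update (update x i a) j (-a)) = 0 := by
  have hne : i ≠ j := by
    intro h
    rw [h] at hij
    omega
  have hst : ∀ a b : Fˣ, (a : F) + b = 1 → S (update (update x i a) j b) = 0 := by
    intro a b hab
    refine hs _ i j hij ?_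
    rw [update_of_ne hne, update_self, update_self]
    exact hab
  by_cases ha : a = 1
  · rw [ha, update_comm hne]
    exact m5_one hm _ i
  · have ha1 : (a : F) ≠ 1 := fun h => ha (Units.ext h)
    have hb : (1 : F) - a ≠ 0 := sub_ne_zero.2 (Ne.symm ha1)
    have hc : (1 : F) - (a : F)⁻¹ ≠ 0 := by
      rw [sub_ne_zero]
      intro h
      apply ha1
      rw [← inv_inv (a : F), ← h, inv_one]
    have e : (-a : Fˣ) = Units.mk0 _ hb * (Units.mk0 _ hc)⁻¹ := by
      apply Units.ext
      rw [Units.val_neg, Units.val_mul, Units.val_inv_eq_inv_val, Units.val_mk0, Units.val_mk0]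
      have ha0 : (a : F) ≠ 0 := a.ne_zero
      field_simp
      ring
    have h1 : S (update (update x i a) j (Units.mk0 _ hb)) = 0 := hst _ _ (by simp)
    have h2 : S (update (update x i a⁻¹) j (Units.mk0 _ hc)) = 0 := hst _ _ (by simp)
    rw [update_comm hne, m5_inv hm, update_comm (Ne.symm hne), neg_eq_zero] at h2
    rw [e, hm, h1, m5_inv hm, h2, neg_zero, add_zero]

theorem m5_anti (hm : M5Mul S) (hs : M5St S) (x : Fin n → Fˣ) (i j : Fin n)
    (hij : (i : ℕ) + 1 = j) (a b : Fˣ) :
    S (update (update x i a) j b) + S (update (update x i b) j a) = 0 := by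
  have hne : i ≠ j := by
    intro h
    rw [h] at hij
    omega
  have h := m5_neg_self hm hs x i j hij (a * b)
  have e1 : -(a * b) = (-a) * b := (neg_mul a b).symm
  have e2 : -(a * b) = (-b) * a := by rw [neg_mul, mul_comm]
  rw [update_comm hne, hm, update_comm (Ne.symm hne), update_comm (Ne.symm hne)] at h
  have h1 : S (update (update x i a) j (-(a * b))) = S (update (update x i a) j b) := by
    rw [e1, hm, m5_neg_self hm hs x i j hij, zero_add]
  have h2 : S (update (update x i b) j (-(a * b))) = S (update (update x i b) j a) := by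
    rw [e2, hm, m5_neg_self hm hs x i j hij, zero_add]
  rw [h1, h2] at h
  exact h

theorem m5_swap (hm : M5Mul S) (hs : M5St S) (x : Fin n → Fˣ) (i j : Fin n)
    (hij : (i : ℕ) + 1 = j) : S x = - S (fun l => x (Equiv.swap i j l)) := by
  have hne : i ≠ j := by
    intro h
    rw [h] at hij
    omega
  have e1 : x = update (update x i (x i)) j (x j) := by
    rw [update_eq_self, update_eq_self]
  have e2 : (fun l => x (Equiv.swap i j l)) = update (update x i (x j)) j (x i) := by
    funext l
    by_cases h1 : l = j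
    · rw [h1, Equiv.swap_apply_right, update_self]
    · by_cases h2 : l = i
      · rw [h2, Equiv.swap_apply_left, update_of_ne hne, update_self]
      · rw [Equiv.swap_apply_of_ne_of_ne h2 h1, update_of_ne h1, update_of_ne h2]
  have h := m5_anti hm hs x i j hij (x i) (x j)
  rw [← e1, ← e2] at h
  exact eq_neg_of_add_eq_zero_left h

theorem m5_st_lt (hm : M5Mul S) (hs : M5St S) (d : ℕ) :
    ∀ (x : Fin n → Fˣ) (i j : Fin n), (i : ℕ) + 1 + d = j → (x i : F) + x j = 1 → S x = 0 := by
  induction d with
  | zero => exact fun x i j h => hs x i j (by simpa using h)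
  | succ d ih =>
    intro x i j hij h
    have hj : (j : ℕ) - 1 < n := lt_of_le_of_lt (Nat.sub_le _ _) j.2
    let m : Fin n := ⟨(j : ℕ) - 1, hj⟩
    have hm' : (m : ℕ) = (j : ℕ) - 1 := rfl
    have hmj : (m : ℕ) + 1 = j := by
      rw [hm']
      omega
    have him : (i : ℕ) + 1 + d = m := by
      rw [hm']
      omega
    rw [m5_swap hm hs x m j hmj, ih _ i m him, neg_zero]
    have hi1 : i ≠ m := by
      intro h
      rw [← h] at him
      omega
    have hi2 : i ≠ j := by
      intro h
      rw [← h] at hij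
      omega
    rw [Equiv.swap_apply_left, Equiv.swap_apply_of_ne_of_ne hi1 hi2]
    exact h

theorem m5_st (hm : M5Mul S) (hs : M5St S) (x : Fin n → Fˣ) (i j : Fin n) (hij : i ≠ j)
    (h : (x i : F) + x j = 1) : S x = 0 := by
  rcases lt_or_gt_of_ne hij with h1 | h1
  · have h1' : (i : ℕ) < j := h1
    exact m5_st_lt hm hs ((j : ℕ) - i - 1) x i j (by omega) h
  · have h1' : (j : ℕ) < i := h1
    exact m5_st_lt hm hs ((i : ℕ) - j - 1) x j i (by omega) (by rw [add_comm]; exact h)

end adjacent

section functional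

variable {F : Type} [Field F] {n : ℕ}

open Classical in
/-- The function on tuples of elements attached to a function on tuples of units. -/
noncomputable def m5Ext (S : (Fin n → Fˣ) → ℝ) (x : Fin n → F) : ℝ :=
  if h : ∀ i, x i ≠ 0 then S (fun i => Units.mk0 (x i) (h i)) else 0

theorem m5Ext_val (S : (Fin n → Fˣ) → ℝ) (u : Fin n → Fˣ) :
    m5Ext S (fun i => (u i : F)) = S u := by
  have h : ∀ i, (u i : F) ≠ 0 := fun i => (u i).ne_zero
  rw [m5Ext, dif_pos h]
  congr 1
  funext i
  exact Units.mk0_val _ _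

theorem m5Ext_isM (S : (Fin n → Fˣ) → ℝ) (hm : M5Mul S) (hs : M5St S) : IsM (m5Ext S) := by
  constructor
  · intro x i hi
    exact dif_neg fun h => h i hi
  · intro x i a b ha hb
    by_cases hx : ∀ j, j ≠ i → x j ≠ 0
    · -- the tuple of units
      let u : Fin n → Fˣ := fun j => if h : j = i then 1 else Units.mk0 (x j) (hx j h)
      have hu : ∀ c : Fˣ, update x i (c : F) = fun j => ((update u i c) j : F) := by
        intro c
        funext j
        by_cases h : j = i
        · subst h
          rw [update_self, update_self]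
        · rw [update_of_ne h, update_of_ne h]
          show x j = ((u j : Fˣ) : F)
          have : u j = Units.mk0 (x j) (hx j h) := dif_neg h
          rw [this, Units.val_mk0]
      have h1 : update x i (a * b) = fun j => ((update u i (Units.mk0 a ha * Units.mk0 b hb)) j : F) := by
        rw [← hu, Units.val_mul, Units.val_mk0, Units.val_mk0]
      have h2 : update x i a = fun j => ((update u i (Units.mk0 a ha)) j : F) := by
        rw [← hu, Units.val_mk0]
      have h3 : update x i b = fun j => ((update u i (Units.mk0 b hb)) j : F) := by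
        rw [← hu, Units.val_mk0]
      rw [h1, h2, h3, m5Ext_val, m5Ext_val, m5Ext_val]
      exact hm u i _ _
    · push Not at hx
      obtain ⟨j, hj, hj0⟩ := hx
      have h : ∀ c : F, m5Ext S (update x i c) = 0 := by
        intro c
        refine dif_neg fun h => h j ?_
        rw [update_of_ne hj]
        exact hj0
      rw [h, h, h, add_zero]
  · intro x i j hij h
    by_cases hx : ∀ l, x l ≠ 0
    · rw [m5Ext, dif_pos hx]
      exact m5_st hm hs _ i j hij h
    · exact dif_neg hx

end functional

/-- if all Milnor functionals vanish, then the Milnor K-group is torsion -/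
theorem milnorK_torsion {F : Type} [Field F] {n : ℕ}
    (h : ∀ T : (Fin n → F) → ℝ, IsM T → ∀ x, T x = 0) (ξ : MilnorK F n) :
    ∃ N : ℕ, 0 < N ∧ N • ξ = 0 := by
  apply m5_torsion_of_forall_hom
  intro l
  let mk : FreeAbelianGroup (Fin n → Fˣ) →+ MilnorK F n :=
    QuotientAddGroup.mk' (AddSubgroup.closure {ξ | MilnorRel F n ξ})
  have hrel : ∀ η, MilnorRel F n η → mk η = 0 := by
    intro η hη
    exact (QuotientAddGroup.eq_zero_iff _).2 (AddSubgroup.subset_closure hη)
  let S : (Fin n → Fˣ) → ℝ := fun x => ((l (mk (FreeAbelianGroup.of x)) : ℚ) : ℝ)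
  have hm : M5Mul S := by
    intro x i a b
    have h1 := hrel _ (MilnorRel.mul x i a b)
    rw [map_sub, map_sub, sub_sub, sub_eq_zero] at h1
    show ((l (mk (FreeAbelianGroup.of _)) : ℚ) : ℝ) = _
    rw [h1, map_add, Rat.cast_add]
  have hs : M5St S := by
    intro x i j hij hx
    have h1 := hrel _ (MilnorRel.steinberg x i j hij hx)
    show ((l (mk (FreeAbelianGroup.of _)) : ℚ) : ℝ) = _
    rw [h1, map_zero, Rat.cast_zero]
  have hT := h (m5Ext S) (m5Ext_isM S hm hs)
  have hS : ∀ u, l (mk (FreeAbelianGroup.of u)) = 0 := by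
    intro u
    have h1 : ((l (mk (FreeAbelianGroup.of u)) : ℚ) : ℝ) = 0 := by
      have h2 : S u = 0 := by rw [← m5Ext_val S u, hT]
      exact h2
    exact Rat.cast_eq_zero.1 h1
  have hl : l.comp mk = 0 := by
    apply FreeAbelianGroup.lift_ext
    intro u
    exact hS u
  obtain ⟨η, rfl⟩ := QuotientAddGroup.mk'_surjective _ ξ
  exact DFunLike.congr_fun hl η

end Pool.Agent.KM
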