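import Pool.Agent.KM.Defs

set_option autoImplicit false

open Function
open scoped Pointwise

namespace Pool.Agent.KM

variable {k F : Type} [Field k] [Field F] [Algebra k F]

theorem mem_chart (E : Submodule k F) (y : F) (hy : y ∈ E) (hy0 : y ≠ 0) (f : F)
    (hf : f ∈ chart E y) : ∃ j₀, ∀ j, j₀ ≤ j → f * y ^ j ∈ E ^ j := by
  induction hf using Algebra.adjoin_induction with
  | mem f hf =>
    obtain ⟨u, hu, rfl⟩ := hf
    refine ⟨1, fun j hj => ?_⟩
    obtain ⟨i, rfl⟩ : ∃ i, j = i + 1 := ⟨j - 1, by omega⟩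
    have e : u / y * y ^ (i + 1) = u * y ^ i := by
      rw [pow_succ]
      field_simp
    change u / y * y ^ (i + 1) ∈ E ^ (i + 1)
    rw [e, pow_succ']
    exact Submodule.mul_mem_mul hu (Submodule.pow_mem_pow E hy i)
  | algebraMap c =>
    refine ⟨0, fun j _ => ?_⟩
    rw [← Algebra.smul_def]
    exact Submodule.smul_mem _ c (Submodule.pow_mem_pow E hy j)
  | add f g _ _ h1 h2 =>
    obtain ⟨j1, h1⟩ := h1
    obtain ⟨j2, h2⟩ := h2
    refine ⟨max j1 j2, fun j hj => ?_⟩
    rw [add_mul]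
    exact Submodule.add_mem _ (h1 j (le_trans (le_max_left _ _) hj))
      (h2 j (le_trans (le_max_right _ _) hj))
  | mul f g _ _ h1 h2 =>
    obtain ⟨j1, h1⟩ := h1
    obtain ⟨j2, h2⟩ := h2
    refine ⟨j1 + j2, fun j hj => ?_⟩
    have e : f * g * y ^ j = f * y ^ j1 * (g * y ^ (j - j1)) := by
      calc f * g * y ^ j = f * g * y ^ (j1 + (j - j1)) := by
            rw [Nat.add_sub_cancel' (by omega)]
        _ = f * y ^ j1 * (g * y ^ (j - j1)) := by rw [pow_add]; ring
    have e2 : E ^ j = E ^ j1 * E ^ (j - j1) := by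
      rw [← pow_add, Nat.add_sub_cancel' (by omega)]
    rw [e, e2]
    exact Submodule.mul_mem_mul (h1 j1 le_rfl) (h2 _ (by omega))

/-- products of elements of `E` -/
lemma p1_prod_mem {I : Type} (E : Submodule k F) (s : Finset I) (g : I → F)
    (hg : ∀ i ∈ s, g i ∈ E) : ∏ i ∈ s, g i ∈ E ^ s.card := by
  classical
  induction s using Finset.induction_on with
  | empty =>
    rw [Finset.prod_empty, Finset.card_empty, pow_zero]
    exact Submodule.one_le.1 le_rfl
  | insert a s ha ih =>
    rw [Finset.prod_insert ha, Finset.card_insert_of_notMem ha, pow_succ']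
    exact Submodule.mul_mem_mul (hg a (Finset.mem_insert_self a s))
      (ih fun i hi => hg i (Finset.mem_insert_of_mem hi))

/-- powers of `y` -/
lemma p1_pow (E : Submodule k F) (y : F) (hy : y ∈ E) (hy0 : y ≠ 0) (S : Set F)
    (h : Ideal.span {f : chart E y | ∃ e ∈ S, (f : F) = e / y} = ⊤) :
    ∃ J, ∀ j, J ≤ j → y ^ (j + 1) ∈ Submodule.span k S * E ^ j := by
  have key : ∀ f : chart E y, f ∈ Ideal.span {f : chart E y | ∃ e ∈ S, (f : F) = e / y} →
      ∃ J, ∀ j, J ≤ j → (f : F) * y ^ (j + 1) ∈ Submodule.span k S * E ^ j := by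
    intro f hf
    induction hf using Submodule.span_induction with
    | mem f hf =>
      obtain ⟨e, he, hfe⟩ := hf
      refine ⟨0, fun j _ => ?_⟩
      have e1 : (f : F) * y ^ (j + 1) = e * y ^ j := by
        rw [hfe, pow_succ]
        field_simp
      rw [e1]
      exact Submodule.mul_mem_mul (Submodule.subset_span he) (Submodule.pow_mem_pow E hy j)
    | zero =>
      refine ⟨0, fun j _ => ?_⟩
      have e1 : ((0 : chart E y) : F) * y ^ (j + 1) = 0 := by
        rw [ZeroMemClass.coe_zero, zero_mul]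
      rw [e1]
      exact Submodule.zero_mem _
    | add f g _ _ h1 h2 =>
      obtain ⟨j1, h1⟩ := h1
      obtain ⟨j2, h2⟩ := h2
      refine ⟨max j1 j2, fun j hj => ?_⟩
      have e1 : ((f + g : chart E y) : F) * y ^ (j + 1) =
          (f : F) * y ^ (j + 1) + (g : F) * y ^ (j + 1) := by
        rw [AddMemClass.coe_add, add_mul]
      rw [e1]
      exact Submodule.add_mem _ (h1 j (le_trans (le_max_left _ _) hj))
        (h2 j (le_trans (le_max_right _ _) hj))
    | smul a f _ h1 =>
      obtain ⟨j1, h1⟩ := h1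
      obtain ⟨j2, h2⟩ := mem_chart E y hy hy0 a a.2
      refine ⟨j1 + j2, fun j hj => ?_⟩
      have e1 : ((a • f : chart E y) : F) * y ^ (j + 1) =
          (f : F) * y ^ (j1 + 1) * ((a : F) * y ^ (j - j1)) := by
        have e2 : ((a • f : chart E y) : F) = (a : F) * (f : F) := rfl
        calc ((a • f : chart E y) : F) * y ^ (j + 1) = (a : F) * (f : F) *
              y ^ (j1 + 1 + (j - j1)) := by
              rw [e2]
              congr 2
              omega
          _ = (f : F) * y ^ (j1 + 1) * ((a : F) * y ^ (j - j1)) := by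
              rw [pow_add]
              ring
      have e3 : E ^ j = E ^ j1 * E ^ (j - j1) := by
        rw [← pow_add, Nat.add_sub_cancel' (by omega)]
      rw [e1, e3, ← mul_assoc]
      exact Submodule.mul_mem_mul (h1 j1 le_rfl) (h2 _ (by omega))
  obtain ⟨J, hJ⟩ := key 1 (by rw [h]; trivial)
  refine ⟨J, fun j hj => ?_⟩
  have h1 := hJ j hj
  rwa [OneMemClass.coe_one, one_mul] at h1

/-- if the elements `e ∈ S` (divided by `y`) generate the unit ideal of every chart, then
`E^(j+1) = span(S) E^j` for large `j` -/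
theorem span_of_charts (E : Submodule k F) [FiniteDimensional k E] (Y : Finset F)
    (hY : Submodule.span k (Y : Set F) = E) (hY0 : ∀ y ∈ Y, y ≠ 0) (S : Set F)
    (hS : ∀ e ∈ S, e ∈ E)
    (h : ∀ y ∈ Y, Ideal.span {f : chart E y | ∃ e ∈ S, (f : F) = e / y} = ⊤) :
    ∃ j₀, ∀ j, j₀ ≤ j → E ^ (j + 1) ≤ Submodule.span k S * E ^ j := by
  classical
  have hYE : ∀ y ∈ Y, y ∈ E := by
    intro y hy
    rw [← hY]
    exact Submodule.subset_span hy
  choose! J hJ using fun y (hy : y ∈ Y) => p1_pow E y (hYE y hy) (hY0 y hy) S (h y hy)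
  set M := Y.sup J with hM
  refine ⟨Y.card * M, fun j hj => ?_⟩
  have hpow : E ^ (j + 1) = Submodule.span k ((Y : Set F) ^ (j + 1)) := by
    rw [← hY, Submodule.span_pow]
  rw [hpow, Submodule.span_le]
  intro a ha
  rw [Set.mem_pow] at ha
  obtain ⟨g, rfl⟩ := ha
  have hgY : ∀ i, (g i : F) ∈ Y := fun i => (g i).2
  rw [List.prod_ofFn]
  obtain ⟨y, hy, hcard⟩ := Finset.exists_lt_card_fiber_of_mul_lt_card_of_maps_to
    (s := (Finset.univ : Finset (Fin (j + 1)))) (t := Y) (f := fun i => (g i : F)) (n := M)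
    (fun i _ => hgY i) (by
      rw [Finset.card_univ, Fintype.card_fin]
      omega)
  set A := Finset.univ.filter (fun i : Fin (j + 1) => (g i : F) = y) with hA
  have hsplit : ∏ i, (g i : F) = y ^ A.card * ∏ i ∈ Aᶜ, (g i : F) := by
    rw [← Finset.prod_mul_prod_compl A]
    congr 1
    rw [Finset.prod_congr rfl (g := fun _ => y), Finset.prod_const]
    intro i hi
    exact (Finset.mem_filter.1 hi).2
  have hAcard : A.card + Aᶜ.card = j + 1 := by
    rw [Finset.card_add_card_compl, Fintype.card_fin]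
  have hM1 : J y ≤ A.card - 1 := by
    have h1 : J y ≤ M := Finset.le_sup hy
    omega
  have h2 : y ^ (A.card - 1 + 1) ∈ Submodule.span k S * E ^ (A.card - 1) := hJ y hy _ hM1
  have h3 : A.card - 1 + 1 = A.card := by omega
  rw [h3] at h2
  have h4 : ∏ i ∈ Aᶜ, (g i : F) ∈ E ^ (Aᶜ).card :=
    p1_prod_mem E _ _ fun i _ => hYE _ (hgY i)
  have h5 : E ^ j = E ^ (A.card - 1) * E ^ (Aᶜ).card := by
    rw [← pow_add]
    congr 1
    omega
  change ∏ i, (g i : F) ∈ Submodule.span k S * E ^ j
  rw [hsplit, h5, ← mul_assoc]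
  exact Submodule.mul_mem_mul h2 h4

end Pool.Agent.KM
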