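import Pool.Agent.KM.Defs
import Pool.Agent.K1.L2Regular

/-!
Project KM (MP_27fd67_ag), row P2: the affine charts are finitely generated, and heights of
primes are bounded by the transcendence degree.
-/

set_option autoImplicit false

open Function

namespace Pool.Agent.KM

variable {k F : Type} [Field k] [Field F] [Algebra k F]

theorem chart_fg (E : Submodule k F) [FiniteDimensional k E] (y : F) :
    Algebra.FiniteType k (chart E y) := by
  classical
  have hE : E.FG := (Module.finite_def.trans (Submodule.fg_top E)).mp inferInstance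
  obtain ⟨s, hs⟩ := hE
  rw [← Subalgebra.fg_iff_finiteType]
  refine ⟨s.image (fun u => u / y), ?_⟩
  apply le_antisymm
  · apply Algebra.adjoin_mono
    rw [Finset.coe_image]
    apply Set.image_mono
    intro u hu
    rw [← hs]
    exact Submodule.subset_span hu
  · rw [chart, Algebra.adjoin_le_iff]
    rintro _ ⟨u, hu, rfl⟩
    have hu' : u ∈ Submodule.span k (s : Set F) := by rw [hs]; exact hu
    simp only [SetLike.mem_coe]
    induction hu' using Submodule.span_induction with
    | mem x hx =>
      apply Algebra.subset_adjoin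
      rw [Finset.coe_image]
      exact ⟨x, hx, rfl⟩
    | zero => simp
    | add a b ha hb iha ihb =>
      have : (a + b) / y = a / y + b / y := add_div a b y
      rw [this]
      exact add_mem (iha (hs ▸ ha)) (ihb (hs ▸ hb))
    | smul c a ha iha =>
      have : (c • a) / y = c • (a / y) := smul_div_assoc c a y
      rw [this]
      exact Subalgebra.smul_mem _ (iha (hs ▸ ha)) c

theorem height_le (d : ℕ) (htr : Algebra.trdeg k F ≤ d) (S : Subalgebra k F)
    [Algebra.FiniteType k S] (𝔭 : Ideal S) [𝔭.IsPrime] : 𝔭.height ≤ d := by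
  obtain ⟨s, -, h2, h3⟩ := Pool.Agent.K1.L2R_key (k := k) (A := S)
  have h4 : (Algebra.trdeg k S : Cardinal) ≤ Algebra.trdeg k F :=
    trdeg_le_of_injective S.val Subtype.val_injective
  have h5 : s ≤ d := by
    rw [h3] at h4
    exact_mod_cast h4.trans htr
  have h6 := Ideal.height_le_ringKrullDim_of_ne_top (I := 𝔭) (Ideal.IsPrime.ne_top inferInstance)
  rw [h2] at h6
  have h7 : 𝔭.height ≤ s := by
    have : ((𝔭.height : ℕ∞) : WithBot ℕ∞) ≤ (((s : ℕ) : ℕ∞) : WithBot ℕ∞) := by exact_mod_cast h6
    exact WithBot.coe_le_coe.mp this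
  exact h7.trans (by exact_mod_cast h5)

end Pool.Agent.KM
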