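import Pool.Agent.KM.Defs

/-!
Project KM (MP_27fd67_ag), row KM-P3: every prime of a subalgebra of `F` is dominated by a
valuation ring over `k`.
-/

set_option autoImplicit false
set_option linter.all false

open Function

namespace Pool.Agent.KM

section P
variable {k F : Type} [Field k] [Field F] [Algebra k F]

private theorem p3_sub (S : Subring F) (P : Ideal S) [P.IsPrime] :
    ∃ A : ValuationSubring F, (∀ f : S, (f : F) ∈ A) ∧
      ∀ f : S, f ∈ P ↔ A.valuation (f : F) < 1 := by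
  obtain ⟨B, hle, hloc⟩ := (LocalSubring.ofPrime S P).exists_le_valuationSubring
  have hmem : ∀ f : S, (f : F) ∈ B := fun f => hle (LocalSubring.le_ofPrime S P f.2)
  refine ⟨B, hmem, fun f => ?_⟩
  have h1 : IsUnit (algebraMap S (LocalSubring.ofPrime S P).toSubring f) ↔ f ∈ P.primeCompl :=
    IsLocalization.AtPrime.isUnit_to_map_iff (LocalSubring.ofPrime S P).toSubring P f
  have h2 : IsUnit (⟨(f : F), hmem f⟩ : B) ↔
      IsUnit (algebraMap S (LocalSubring.ofPrime S P).toSubring f) := by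
    constructor
    · intro h
      exact hloc.map_nonunit _ h
    · intro h
      exact h.map (Subring.inclusion hle)
  have h3 := B.valuation_eq_one_iff (⟨(f : F), hmem f⟩ : B)
  have h4 : B.valuation (f : F) ≤ 1 := (B.valuation_le_one_iff _).2 (hmem f)
  have h5 : f ∈ P.primeCompl ↔ f ∉ P := Iff.rfl
  constructor
  · intro hf
    refine lt_of_le_of_ne h4 fun h => ?_
    exact (h5.1 (h1.1 (h2.1 (h3.2 h)))) hf
  · intro hlt
    by_contra hf
    exact hlt.ne (h3.1 (h2.2 (h1.2 (h5.2 hf))))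

theorem exists_dominating (S : Subalgebra k F) (𝔭 : Ideal S) [𝔭.IsPrime] :
    ∃ A : ValuationSubring F, Over k A ∧
      (∀ f : S, (f : F) ∈ A) ∧ ∀ f : S, f ∈ 𝔭 ↔ A.valuation (f : F) < 1 := by
  obtain ⟨A, h1, h2⟩ := @p3_sub F _ S.toSubring 𝔭 ‹_›
  exact ⟨A, fun c => h1 ⟨algebraMap k F c, S.algebraMap_mem c⟩, fun f => h1 ⟨f.1, f.2⟩,
    fun f => h2 ⟨f.1, f.2⟩⟩

/-- an element of maximal value is not in the prime -/
theorem exists_val (E : Submodule k F) (y : F) (hy : y ∈ E) (hy0 : y ≠ 0)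
    (𝔭 : Ideal (chart E y)) [𝔭.IsPrime] :
    ∃ A : ValuationSubring F, Over k A ∧ ∀ e ∈ E, (∀ u ∈ E, A.valuation u ≤ A.valuation e) →
      ∀ f : chart E y, (f : F) = e / y → f ∉ 𝔭 := by
  obtain ⟨A, hA, h1, h2⟩ := exists_dominating (chart E y) 𝔭
  refine ⟨A, hA, fun e he hmax f hf hfp => ?_⟩
  have h3 : A.valuation (e / y) < 1 := hf ▸ (h2 f).1 hfp
  have h4 : A.valuation y ≤ A.valuation e := hmax y hy
  have h5 : A.valuation y ≠ 0 := (Valuation.ne_zero_iff _).2 hy0
  rw [map_div₀] at h3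
  rw [div_lt_one₀ (zero_lt_iff.2 h5)] at h3
  exact absurd h4 (not_le.2 h3)

end P

end Pool.Agent.KM
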