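import Pool.Agent.KM.Defs
import Pool.Agent.KM.PChart
import Pool.Agent.KM.PDim
import Pool.Agent.KM.PDom

set_option autoImplicit false
set_option linter.all false

open Function

namespace Pool.Agent.KM

variable {k F : Type} [Field k] [Field F] [Algebra k F]

/-- the ideal of the chart generated by the quotients `e / y`, `e ∈ S` -/
private def p4_I (E : Submodule k F) (y : F) (S : Set F) : Ideal (chart E y) :=
  Ideal.span {f : chart E y | ∃ e ∈ S, (f : F) = e / y}

private theorem p4_I_mono (E : Submodule k F) (y : F) {S S' : Set F} (h : S ⊆ S') :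
    p4_I E y S ≤ p4_I E y S' := by
  apply Ideal.span_mono
  rintro f ⟨e, he, hf⟩
  exact ⟨e, h he, hf⟩

/-- the finite set of elements attached to a choice -/
private def p4_S {Λ τ : Type} {m : ℕ} (Q : Fin m → τ → Λ → F) (l : Fin m → Λ) (t : Fin m → τ)
    (R : Finset (Fin m)) : Set F :=
  (fun g => Q g (t g) (l g)) '' R

private theorem p4_height_succ {R : Type} [CommRing R] {𝔮 𝔭 : Ideal R} [𝔮.IsPrime] [𝔭.IsPrime]
    (h : 𝔮 < 𝔭) {d c : ℕ} (hd : 𝔭.height ≤ d) (hc : (c : ℕ∞) ≤ 𝔮.height) :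
    ((c + 1 : ℕ) : ℕ∞) ≤ 𝔭.height := by
  have hq : 𝔮.height ≤ 𝔭.height := Ideal.height_mono h.le
  have hfin : 𝔮.height < ⊤ := lt_of_le_of_lt (hq.trans hd) (ENat.coe_lt_top d)
  haveI : 𝔮.FiniteHeight := ⟨Or.inr hfin.ne⟩
  have hlt : 𝔮.height < 𝔭.height := Ideal.height_strict_mono_of_isPrime h
  have h2 : (c : ℕ∞) < 𝔭.height := lt_of_le_of_lt hc hlt
  have := Order.add_one_le_of_lt h2
  simpa using this

/-- the element to choose exists: it avoids the finitely many minimal primes -/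
private theorem p4_step {Λ τ : Type} [Finite τ] (m : ℕ)
    (E : Submodule k F) [FiniteDimensional k E] (𝓕 : Filter Λ) [𝓕.NeBot]
    (Q : Fin m → τ → Λ → F) (hQE : ∀ g t l, Q g t l ∈ E)
    (hQ : ∀ g t, ∀ A : ValuationSubring F, Over k A →
      ∀ᶠ l in 𝓕, ∀ u ∈ E, A.valuation u ≤ A.valuation (Q g t l))
    (Y : Finset F) (hYE : ∀ y ∈ Y, y ∈ E) (hY0 : ∀ y ∈ Y, y ≠ 0)
    (g : Fin m) (Gs : Set Λ) (hGs : Gs ∈ 𝓕) (l : Fin m → Λ) :
    ∃ x ∈ Gs, ∀ y ∈ Y, ∀ (R : Finset (Fin m)) (t : Fin m → τ) (t' : τ),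
      ∀ 𝔮 ∈ (p4_I E y (p4_S Q l t R)).minimalPrimes, ∀ f : chart E y,
        (f : F) = Q g t' x / y → f ∉ 𝔮 := by
  have hev : ∀ᶠ x in 𝓕, ∀ y ∈ Y, ∀ (R : Finset (Fin m)) (t : Fin m → τ) (t' : τ),
      ∀ 𝔮 ∈ (p4_I E y (p4_S Q l t R)).minimalPrimes, ∀ f : chart E y,
        (f : F) = Q g t' x / y → f ∉ 𝔮 := by
    rw [Filter.eventually_all_finset]
    intro y hy
    rw [Filter.eventually_all]
    intro R
    rw [Filter.eventually_all]
    intro t
    rw [Filter.eventually_all]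
    intro t'
    haveI : Algebra.FiniteType k (chart E y) := chart_fg E y
    haveI : IsNoetherianRing (chart E y) := Algebra.FiniteType.isNoetherianRing k _
    have hfin := Ideal.finite_minimalPrimes_of_isNoetherianRing (chart E y)
      (p4_I E y (p4_S Q l t R))
    rw [Filter.eventually_all_finite hfin]
    intro 𝔮 h𝔮
    haveI : 𝔮.IsPrime := h𝔮.1.1
    obtain ⟨A, hA, hA2⟩ := exists_val E y (hYE y hy) (hY0 y hy) 𝔮
    filter_upwards [hQ g t' A hA] with x hx f hf
    exact hA2 _ (hQE g t' x) hx f hf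
  obtain ⟨x, hx⟩ := (hev.and hGs).exists
  exact ⟨x, hx.2, hx.1⟩

private theorem p4_choice {Λ τ : Type} [Finite τ] (d m : ℕ) (htr : Algebra.trdeg k F ≤ d)
    (E : Submodule k F) [FiniteDimensional k E] (𝓕 : Filter Λ) [𝓕.NeBot]
    (Q : Fin m → τ → Λ → F) (hQE : ∀ g t l, Q g t l ∈ E)
    (hQ : ∀ g t, ∀ A : ValuationSubring F, Over k A →
      ∀ᶠ l in 𝓕, ∀ u ∈ E, A.valuation u ≤ A.valuation (Q g t l))
    (G : Fin m → Set Λ) (hG : ∀ g, G g ∈ 𝓕)
    (Y : Finset F) (hYE : ∀ y ∈ Y, y ∈ E) (hY0 : ∀ y ∈ Y, y ≠ 0) (n : ℕ) (hn : n ≤ m) :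
    ∃ l : Fin m → Λ, (∀ g, l g ∈ G g) ∧ ∀ y ∈ Y, ∀ R : Finset (Fin m),
      (∀ g ∈ R, (g : ℕ) < n) → ∀ t : Fin m → τ, ∀ 𝔭 : Ideal (chart E y), 𝔭.IsPrime →
        p4_I E y (p4_S Q l t R) ≤ 𝔭 → (R.card : ℕ∞) ≤ 𝔭.height := by
  induction n with
  | zero =>
    have h : ∀ g, ∃ x, x ∈ G g := fun g => 𝓕.nonempty_of_mem (hG g)
    choose l hl using h
    refine ⟨l, hl, ?_⟩
    intro y hy R hR t 𝔭 _ _
    have : R = ∅ := by
      apply Finset.eq_empty_of_forall_notMem
      intro g hg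
      exact absurd (hR g hg) (by omega)
    subst this
    simp
  | succ n ih =>
    obtain ⟨l, hl, hinv⟩ := ih (by omega)
    set g₀ : Fin m := ⟨n, by omega⟩ with hg₀
    obtain ⟨x, hx, hx2⟩ := p4_step m E 𝓕 Q hQE hQ Y hYE hY0 g₀ (G g₀) (hG g₀) l
    refine ⟨update l g₀ x, ?_, ?_⟩
    · intro g
      by_cases h : g = g₀
      · subst h
        simpa using hx
      · simpa [update_of_ne h] using hl g
    · intro y hy R hR t 𝔭 h𝔭 hle
      haveI := h𝔭
      have hcongr : ∀ R' : Finset (Fin m), g₀ ∉ R' →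
          p4_S Q (update l g₀ x) t R' = p4_S Q l t R' := by
        intro R' hR'
        apply Set.image_congr
        intro g hg
        have : g ≠ g₀ := by
          rintro rfl
          exact hR' hg
        simp [update_of_ne this]
      by_cases hgR : g₀ ∈ R
      · have hR' : g₀ ∉ R.erase g₀ := Finset.notMem_erase _ _
        have hle' : p4_I E y (p4_S Q l t (R.erase g₀)) ≤ 𝔭 := by
          rw [← hcongr _ hR']
          refine le_trans (p4_I_mono E y ?_) hle
          apply Set.image_mono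
          intro g hg
          exact Finset.mem_of_mem_erase hg
        obtain ⟨𝔮, h𝔮, h𝔮𝔭⟩ := Ideal.exists_minimalPrimes_le hle'
        haveI : 𝔮.IsPrime := h𝔮.1.1
        have hlt : ∀ g ∈ R.erase g₀, (g : ℕ) < n := by
          intro g hg
          have h1 := hR g (Finset.mem_of_mem_erase hg)
          have h2 : g ≠ g₀ := Finset.ne_of_mem_erase hg
          have h3 : (g : ℕ) ≠ n := by
            intro h
            apply h2
            apply Fin.ext
            simp [hg₀, h]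
          omega
        have hc := hinv y hy (R.erase g₀) hlt t 𝔮 inferInstance h𝔮.1.2
        -- the new element is in `𝔭` but not in `𝔮`
        have hmem : Q g₀ (t g₀) x / y ∈ chart E y :=
          Algebra.subset_adjoin ⟨_, hQE g₀ (t g₀) x, rfl⟩
        have hf𝔭 : (⟨Q g₀ (t g₀) x / y, hmem⟩ : chart E y) ∈ 𝔭 := by
          apply hle
          apply Ideal.subset_span
          refine ⟨Q g₀ (t g₀) x, ?_, rfl⟩
          refine ⟨g₀, hgR, ?_⟩
          simp
        have hf𝔮 : (⟨Q g₀ (t g₀) x / y, hmem⟩ : chart E y) ∉ 𝔮 :=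
          hx2 y hy (R.erase g₀) t (t g₀) 𝔮 h𝔮 _ rfl
        have hlt' : 𝔮 < 𝔭 := lt_of_le_of_ne h𝔮𝔭 (by
          rintro rfl
          exact hf𝔮 hf𝔭)
        haveI : Algebra.FiniteType k (chart E y) := chart_fg E y
        have hd := height_le d htr (chart E y) 𝔭
        have := p4_height_succ hlt' hd hc
        have hcard : (R.erase g₀).card + 1 = R.card := Finset.card_erase_add_one hgR
        rwa [hcard] at this
      · rw [hcongr _ hgR] at hle
        refine hinv y hy R ?_ t 𝔭 h𝔭 hle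
        intro g hg
        have h1 := hR g hg
        have h3 : (g : ℕ) ≠ n := by
          intro h
          apply hgR
          have : g = g₀ := Fin.ext (by simp [hg₀, h])
          rwa [← this]
        omega

theorem general_position {Λ τ : Type} [Finite τ] (d m : ℕ) (htr : Algebra.trdeg k F ≤ d)
    (E : Submodule k F) [FiniteDimensional k E] (hE : E ≠ ⊥) (𝓕 : Filter Λ) [𝓕.NeBot]
    (Q : Fin m → τ → Λ → F) (hQE : ∀ g t l, Q g t l ∈ E)
    (hQ : ∀ g t, ∀ A : ValuationSubring F, Over k A →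
      ∀ᶠ l in 𝓕, ∀ u ∈ E, A.valuation u ≤ A.valuation (Q g t l))
    (G : Fin m → Set Λ) (hG : ∀ g, G g ∈ 𝓕) :
    ∃ l : Fin m → Λ, (∀ g, l g ∈ G g) ∧ ∀ R : Finset (Fin m), R.card = d + 1 →
      ∀ t : Fin m → τ, ∃ j₀, ∀ j, j₀ ≤ j →
        E ^ (j + 1) ≤ Submodule.span k ((fun g => Q g (t g) (l g)) '' R) * E ^ j := by
  classical
  obtain ⟨Y', hY'⟩ := (Module.Finite.iff_fg.mp (inferInstance : Module.Finite k E))
  set Y : Finset F := Y'.filter (fun y => y ≠ 0) with hYdef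
  have hY : Submodule.span k (Y : Set F) = E := by
    rw [← hY', hYdef]
    have : ((Y'.filter (fun y => y ≠ 0) : Finset F) : Set F) = (Y' : Set F) \ {0} := by
      ext y; simp
    rw [this, Submodule.span_sdiff_singleton_zero]
  have hY0 : ∀ y ∈ Y, y ≠ 0 := by
    intro y hy
    exact (Finset.mem_filter.mp hy).2
  have hYE : ∀ y ∈ Y, y ∈ E := by
    intro y hy
    rw [← hY]
    exact Submodule.subset_span hy
  obtain ⟨l, hl, hinv⟩ := p4_choice d m htr E 𝓕 Q hQE hQ G hG Y hYE hY0 m le_rfl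
  refine ⟨l, hl, ?_⟩
  intro R hR t
  refine span_of_charts E Y hY hY0 _ ?_ ?_
  · rintro _ ⟨g, _, rfl⟩
    exact hQE _ _ _
  · intro y hy
    by_contra hne
    obtain ⟨𝔭, h𝔭, hle⟩ := Ideal.exists_le_maximal _ hne
    haveI : 𝔭.IsPrime := h𝔭.isPrime
    haveI : Algebra.FiniteType k (chart E y) := chart_fg E y
    have h1 := hinv y hy R (fun g _ => g.2) t 𝔭 inferInstance hle
    have h2 := height_le d htr (chart E y) 𝔭
    rw [hR] at h1
    have h3 := h1.trans h2
    have h4 : d + 1 ≤ d := by exact_mod_cast h3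
    omega

end Pool.Agent.KM
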