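import Pool.Agent.KM.Defs
import Pool.Agent.KM.PChart
import Pool.Agent.KM.PDim
import Pool.Agent.KM.PDom

/-!
Project KM2, row P5: general position, the first element need not be moving.
-/

set_option autoImplicit false
set_option linter.all false

open Function

namespace Pool.Agent.KM

variable {k F : Type} [Field k] [Field F] [Algebra k F]

/-- the ideal of the chart generated by the quotients `e / y`, `e ∈ S` -/
private def p5_I (E : Submodule k F) (y : F) (S : Set F) : Ideal (chart E y) :=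
  Ideal.span {f : chart E y | ∃ e ∈ S, (f : F) = e / y}

private theorem p5_I_mono (E : Submodule k F) (y : F) {S S' : Set F} (h : S ⊆ S') :
    p5_I E y S ≤ p5_I E y S' := by
  apply Ideal.span_mono
  rintro f ⟨e, he, hf⟩
  exact ⟨e, h he, hf⟩

/-- the finite set of elements attached to a choice -/
private def p5_S {Λ τ : Type} {m : ℕ} (Q : Fin m → τ → Λ → F) (l : Fin m → Λ) (t : Fin m → τ)
    (R : Finset (Fin m)) : Set F :=
  (fun g => Q g (t g) (l g)) '' R

private theorem p5_height_succ {R : Type} [CommRing R] {𝔮 𝔭 : Ideal R} [𝔮.IsPrime] [𝔭.IsPrime]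
    (h : 𝔮 < 𝔭) {d c : ℕ} (hd : 𝔭.height ≤ d) (hc : (c : ℕ∞) ≤ 𝔮.height) :
    ((c + 1 : ℕ) : ℕ∞) ≤ 𝔭.height := by
  have hq : 𝔮.height ≤ 𝔭.height := Ideal.height_mono h.le
  have hfin : 𝔮.height < ⊤ := lt_of_le_of_lt (hq.trans hd) (ENat.coe_lt_top d)
  haveI : 𝔮.FiniteHeight := ⟨Or.inr hfin.ne⟩
  have hlt : 𝔮.height < 𝔭.height := Ideal.height_strict_mono_of_isPrime h
  have h2 : (c : ℕ∞) < 𝔭.height := lt_of_le_of_lt hc hlt
  have := Order.add_one_le_of_lt h2
  simpa using this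

/-- the element to choose exists: it avoids the finitely many minimal primes; elements which
are not moving avoid the minimal primes of the zero ideal -/
private theorem p5_step {Λ τ : Type} [Finite τ] (m : ℕ)
    (E : Submodule k F) [FiniteDimensional k E] (𝓕 : Filter Λ) [𝓕.NeBot]
    (Q : Fin m → τ → Λ → F) (hQE : ∀ g t l, Q g t l ∈ E) (mov : Fin m → τ → Prop)
    (hQ : ∀ g t, mov g t → ∀ A : ValuationSubring F, Over k A →
      ∀ᶠ l in 𝓕, ∀ u ∈ E, A.valuation u ≤ A.valuation (Q g t l))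
    (hQ0 : ∀ g t, ∀ᶠ l in 𝓕, Q g t l ≠ 0)
    (Y : Finset F) (hYE : ∀ y ∈ Y, y ∈ E) (hY0 : ∀ y ∈ Y, y ≠ 0)
    (g : Fin m) (Gs : Set Λ) (hGs : Gs ∈ 𝓕) (l : Fin m → Λ) :
    ∃ x ∈ Gs, ∀ y ∈ Y, ∀ (R : Finset (Fin m)) (t : Fin m → τ) (t' : τ), (mov g t' ∨ R = ∅) →
      ∀ 𝔮 ∈ (p5_I E y (p5_S Q l t R)).minimalPrimes, ∀ f : chart E y,
        (f : F) = Q g t' x / y → f ∉ 𝔮 := by
  have hev : ∀ᶠ x in 𝓕, ∀ y ∈ Y, ∀ (R : Finset (Fin m)) (t : Fin m → τ) (t' : τ),
      (mov g t' ∨ R = ∅) →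
      ∀ 𝔮 ∈ (p5_I E y (p5_S Q l t R)).minimalPrimes, ∀ f : chart E y,
        (f : F) = Q g t' x / y → f ∉ 𝔮 := by
    rw [Filter.eventually_all_finset]
    intro y hy
    rw [Filter.eventually_all]
    intro R
    rw [Filter.eventually_all]
    intro t
    rw [Filter.eventually_all]
    intro t'
    by_cases hR : R = ∅
    · subst hR
      filter_upwards [hQ0 g t'] with x hx _ 𝔮 h𝔮 f hf
      have h1 : p5_I E y (p5_S Q l t ∅) = ⊥ := by
        rw [p5_I, Ideal.span_eq_bot]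
        rintro f ⟨e, he, _⟩
        simp [p5_S] at he
      rw [h1] at h𝔮
      have hb : (⊥ : Ideal (chart E y)).IsPrime := Ideal.isPrime_bot
      have h2 : 𝔮 = ⊥ := le_bot_iff.mp (h𝔮.2 ⟨hb, le_rfl⟩ bot_le)
      rw [h2, Ideal.mem_bot]
      rintro rfl
      apply hx
      have h3 : Q g t' x / y = 0 := by rw [← hf]; rfl
      rcases div_eq_zero_iff.mp h3 with h4 | h4
      · exact h4
      · exact absurd h4 (hY0 y hy)
    by_cases hm : mov g t'
    · haveI : Algebra.FiniteType k (chart E y) := chart_fg E y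
      haveI : IsNoetherianRing (chart E y) := Algebra.FiniteType.isNoetherianRing k _
      have hfin := Ideal.finite_minimalPrimes_of_isNoetherianRing (chart E y)
        (p5_I E y (p5_S Q l t R))
      have h5 : ∀ᶠ x in 𝓕, ∀ 𝔮 ∈ (p5_I E y (p5_S Q l t R)).minimalPrimes, ∀ f : chart E y,
          (f : F) = Q g t' x / y → f ∉ 𝔮 := by
        rw [Filter.eventually_all_finite hfin]
        intro 𝔮 h𝔮
        haveI : 𝔮.IsPrime := h𝔮.1.1
        obtain ⟨A, hA, hA2⟩ := exists_val E y (hYE y hy) (hY0 y hy) 𝔮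
        filter_upwards [hQ g t' hm A hA] with x hx f hf
        exact hA2 _ (hQE g t' x) hx f hf
      filter_upwards [h5] with x hx _
      exact hx
    · refine Filter.Eventually.of_forall fun x hx => ?_
      exact absurd hx (not_or.mpr ⟨hm, hR⟩)
  obtain ⟨x, hx⟩ := (hev.and hGs).exists
  exact ⟨x, hx.2, hx.1⟩

private theorem p5_choice {Λ τ : Type} [Finite τ] (d m : ℕ) (htr : Algebra.trdeg k F ≤ d)
    (E : Submodule k F) [FiniteDimensional k E] (𝓕 : Filter Λ) [𝓕.NeBot]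
    (Q : Fin m → τ → Λ → F) (hQE : ∀ g t l, Q g t l ∈ E) (mov : Fin m → τ → Prop)
    (hQ : ∀ g t, mov g t → ∀ A : ValuationSubring F, Over k A →
      ∀ᶠ l in 𝓕, ∀ u ∈ E, A.valuation u ≤ A.valuation (Q g t l))
    (hQ0 : ∀ g t, ∀ᶠ l in 𝓕, Q g t l ≠ 0)
    (G : Fin m → Set Λ) (hG : ∀ g, G g ∈ 𝓕)
    (Y : Finset F) (hYE : ∀ y ∈ Y, y ∈ E) (hY0 : ∀ y ∈ Y, y ≠ 0) (n : ℕ) (hn : n ≤ m) :
    ∃ l : Fin m → Λ, (∀ g, l g ∈ G g) ∧ ∀ y ∈ Y, ∀ R : Finset (Fin m),
      (∀ g ∈ R, (g : ℕ) < n) → ∀ t : Fin m → τ, (∀ g ∈ R, (∃ h ∈ R, h < g) → mov g (t g)) →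
        ∀ 𝔭 : Ideal (chart E y), 𝔭.IsPrime →
        p5_I E y (p5_S Q l t R) ≤ 𝔭 → (R.card : ℕ∞) ≤ 𝔭.height := by
  induction n with
  | zero =>
    have h : ∀ g, ∃ x, x ∈ G g := fun g => 𝓕.nonempty_of_mem (hG g)
    choose l hl using h
    refine ⟨l, hl, ?_⟩
    intro y hy R hR t _ 𝔭 _ _
    have : R = ∅ := by
      apply Finset.eq_empty_of_forall_notMem
      intro g hg
      exact absurd (hR g hg) (by omega)
    subst this
    simp
  | succ n ih =>
    obtain ⟨l, hl, hinv⟩ := ih (by omega)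
    set g₀ : Fin m := ⟨n, by omega⟩ with hg₀
    obtain ⟨x, hx, hx2⟩ := p5_step m E 𝓕 Q hQE mov hQ hQ0 Y hYE hY0 g₀ (G g₀) (hG g₀) l
    refine ⟨update l g₀ x, ?_, ?_⟩
    · intro g
      by_cases h : g = g₀
      · subst h
        simpa using hx
      · simpa [update_of_ne h] using hl g
    · intro y hy R hR t hmov 𝔭 h𝔭 hle
      haveI := h𝔭
      have hcongr : ∀ R' : Finset (Fin m), g₀ ∉ R' →
          p5_S Q (update l g₀ x) t R' = p5_S Q l t R' := by
        intro R' hR'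
        apply Set.image_congr
        intro g hg
        have : g ≠ g₀ := by
          rintro rfl
          exact hR' hg
        simp [update_of_ne this]
      by_cases hgR : g₀ ∈ R
      · have hR' : g₀ ∉ R.erase g₀ := Finset.notMem_erase _ _
        have hle' : p5_I E y (p5_S Q l t (R.erase g₀)) ≤ 𝔭 := by
          rw [← hcongr _ hR']
          refine le_trans (p5_I_mono E y ?_) hle
          apply Set.image_mono
          intro g hg
          exact Finset.mem_of_mem_erase hg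
        obtain ⟨𝔮, h𝔮, h𝔮𝔭⟩ := Ideal.exists_minimalPrimes_le hle'
        haveI : 𝔮.IsPrime := h𝔮.1.1
        have hlt : ∀ g ∈ R.erase g₀, (g : ℕ) < n := by
          intro g hg
          have h1 := hR g (Finset.mem_of_mem_erase hg)
          have h2 : g ≠ g₀ := Finset.ne_of_mem_erase hg
          have h3 : (g : ℕ) ≠ n := by
            intro h
            apply h2
            apply Fin.ext
            simp [hg₀, h]
          omega
        have hmov' : ∀ g ∈ R.erase g₀, (∃ h ∈ R.erase g₀, h < g) → mov g (t g) := by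
          rintro g hg ⟨h, hh, hhg⟩
          exact hmov g (Finset.mem_of_mem_erase hg) ⟨h, Finset.mem_of_mem_erase hh, hhg⟩
        have hc := hinv y hy (R.erase g₀) hlt t hmov' 𝔮 inferInstance h𝔮.1.2
        -- the new element is moving or the first one
        have hor : mov g₀ (t g₀) ∨ R.erase g₀ = ∅ := by
          rcases (R.erase g₀).eq_empty_or_nonempty with h | ⟨g, hg⟩
          · exact Or.inr h
          · left
            refine hmov g₀ hgR ⟨g, Finset.mem_of_mem_erase hg, ?_⟩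
            rw [Fin.lt_def]
            simpa [hg₀] using hlt g hg
        -- the new element is in `𝔭` but not in `𝔮`
        have hmem : Q g₀ (t g₀) x / y ∈ chart E y :=
          Algebra.subset_adjoin ⟨_, hQE g₀ (t g₀) x, rfl⟩
        have hf𝔭 : (⟨Q g₀ (t g₀) x / y, hmem⟩ : chart E y) ∈ 𝔭 := by
          apply hle
          apply Ideal.subset_span
          refine ⟨Q g₀ (t g₀) x, ?_, rfl⟩
          refine ⟨g₀, hgR, ?_⟩
          simp
        have hf𝔮 : (⟨Q g₀ (t g₀) x / y, hmem⟩ : chart E y) ∉ 𝔮 :=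
          hx2 y hy (R.erase g₀) t (t g₀) hor 𝔮 h𝔮 _ rfl
        have hlt' : 𝔮 < 𝔭 := lt_of_le_of_ne h𝔮𝔭 (by
          rintro rfl
          exact hf𝔮 hf𝔭)
        haveI : Algebra.FiniteType k (chart E y) := chart_fg E y
        have hd := height_le d htr (chart E y) 𝔭
        have := p5_height_succ hlt' hd hc
        have hcard : (R.erase g₀).card + 1 = R.card := Finset.card_erase_add_one hgR
        rwa [hcard] at this
      · rw [hcongr _ hgR] at hle
        refine hinv y hy R ?_ t hmov 𝔭 h𝔭 hle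
        intro g hg
        have h1 := hR g hg
        have h3 : (g : ℕ) ≠ n := by
          intro h
          apply hgR
          have : g = g₀ := Fin.ext (by simp [hg₀, h])
          rwa [← this]
        omega

theorem general_position2 {Λ τ : Type} [Finite τ] (d m : ℕ) (htr : Algebra.trdeg k F ≤ d)
    (E : Submodule k F) [FiniteDimensional k E] (hE : E ≠ ⊥) (𝓕 : Filter Λ) [𝓕.NeBot]
    (Q : Fin m → τ → Λ → F) (hQE : ∀ g t l, Q g t l ∈ E) (mov : Fin m → τ → Prop)
    (hQ : ∀ g t, mov g t → ∀ A : ValuationSubring F, Over k A →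
      ∀ᶠ l in 𝓕, ∀ u ∈ E, A.valuation u ≤ A.valuation (Q g t l))
    (hQ0 : ∀ g t, ∀ᶠ l in 𝓕, Q g t l ≠ 0)
    (G : Fin m → Set Λ) (hG : ∀ g, G g ∈ 𝓕) :
    ∃ l : Fin m → Λ, (∀ g, l g ∈ G g) ∧ ∀ R : Finset (Fin m), R.card = d + 1 →
      ∀ t : Fin m → τ, (∀ g ∈ R, (∃ h ∈ R, h < g) → mov g (t g)) → ∃ j₀, ∀ j, j₀ ≤ j →
        E ^ (j + 1) ≤ Submodule.span k ((fun g => Q g (t g) (l g)) '' R) * E ^ j := by
  classical
  obtain ⟨Y', hY'⟩ := (Module.Finite.iff_fg.mp (inferInstance : Module.Finite k E))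
  set Y : Finset F := Y'.filter (fun y => y ≠ 0) with hYdef
  have hY : Submodule.span k (Y : Set F) = E := by
    rw [← hY', hYdef]
    have : ((Y'.filter (fun y => y ≠ 0) : Finset F) : Set F) = (Y' : Set F) \ {0} := by
      ext y; simp
    rw [this, Submodule.span_sdiff_singleton_zero]
  have hY0 : ∀ y ∈ Y, y ≠ 0 := by
    intro y hy
    exact (Finset.mem_filter.mp hy).2
  have hYE : ∀ y ∈ Y, y ∈ E := by
    intro y hy
    rw [← hY]
    exact Submodule.subset_span hy
  obtain ⟨l, hl, hinv⟩ := p5_choice d m htr E 𝓕 Q hQE mov hQ hQ0 G hG Y hYE hY0 m le_rfl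
  refine ⟨l, hl, ?_⟩
  intro R hR t hmov
  refine span_of_charts E Y hY hY0 _ ?_ ?_
  · rintro _ ⟨g, _, rfl⟩
    exact hQE _ _ _
  · intro y hy
    by_contra hne
    obtain ⟨𝔭, h𝔭, hle⟩ := Ideal.exists_le_maximal _ hne
    haveI : 𝔭.IsPrime := h𝔭.isPrime
    haveI : Algebra.FiniteType k (chart E y) := chart_fg E y
    have h1 := hinv y hy R (fun g _ => g.2) t hmov 𝔭 inferInstance hle
    have h2 := height_le d htr (chart E y) 𝔭
    rw [hR] at h1
    have h3 := h1.trans h2
    have h4 : d + 1 ≤ d := by exact_mod_cast h3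
    omega

end Pool.Agent.KM
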