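import Pool.Agent.KM.Defs

/-!
Project KM2 (MP_27fd67_ag): definitions for the schedule (helper96).
-/

set_option autoImplicit false

open Function

namespace Pool.Agent.KM

variable {k F J : Type} [Field k] [Field F] [Algebra k F]

/-- For suitable `p g ∈ E^(u g - 1)` the elements `e g * p g`, `g ∈ D`, generate `E^w`
modulo `L`, with coefficients in `E^(v g)`. -/
def CC (E : Submodule k F) (e : J → F) (L : Submodule k F) (w : ℕ) (D : Finset J)
    (u v : J → ℕ) : Prop :=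
  ∃ p : J → F, (∀ g, p g ∈ E ^ (u g - 1)) ∧
    E ^ w ≤ (⨆ g ∈ D, Submodule.span k {e g * p g} * E ^ v g) ⊔ L * E ^ (w - 1)

/-- The span of `l 0, …, l (i-1)`. -/
def LL (k : Type) {F : Type} [Field k] [Field F] [Algebra k F] (l : ℕ → F) (i : ℕ) :
    Submodule k F :=
  Submodule.span k (l '' {j | j < i})

/-- The elements `e g`, `g ∈ B`, generate in large degrees modulo `L`. -/
def Term (E : Submodule k F) (e : J → F) (L : Submodule k F) (B : Finset J) : Prop :=
  ∃ j₀, ∀ j, j₀ ≤ j → E ^ (j + 1) ≤ (⨆ g ∈ B, Submodule.span k {e g} * E ^ j) ⊔ L * E ^ j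

/-- Blocks of `2^δ` elements which split in halves. -/
def ReB [DecidableEq J] (E : Submodule k F) (e : J → F) (l : ℕ → F) (d : ℕ) :
    ℕ → Finset J → Prop
  | 0, B => Term E e (LL k l d) B ∧ ∃ g, B = {g}
  | δ + 1, B => Term E e (LL k l (d - (δ + 1))) B ∧
      ∃ B₁ B₂, Disjoint B₁ B₂ ∧ B = B₁ ∪ B₂ ∧ ReB E e l d δ B₁ ∧ ReB E e l d δ B₂

/-- Disjoint unions of one element and of blocks of `2, 4, …, 2^δ` elements. -/
def RpB [DecidableEq J] (E : Submodule k F) (e : J → F) (l : ℕ → F) (d : ℕ) :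
    ℕ → Finset J → Prop
  | 0, D => ReB E e l d 0 D
  | δ + 1, D => ∃ A B, Disjoint A B ∧ D = A ∪ B ∧ RpB E e l d δ A ∧ ReB E e l d (δ + 1) B

end Pool.Agent.KM
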