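import Pool.Agent.KM.SRe

/-!
Project KM2 (MP_27fd67_ag): the schedule for disjoint unions of blocks.
-/

set_option autoImplicit false

open Function

namespace Pool.Agent.KM

variable {k F J : Type} [Field k] [Field F] [Algebra k F]

/-- disjoint unions of blocks generate, if `u` is not much larger than `v` -/
theorem RpB.cc [Infinite k] [Finite J] [DecidableEq J] (E : Submodule k F)
    [FiniteDimensional k E] (e : J → F) (he : ∀ g, e g ∈ E) (l : ℕ → F) (hl : ∀ i, l i ∈ E)
    (d δ : ℕ) (hδ : δ ≤ d) (D : Finset J) (hD : RpB E e l d δ D) (m : ℕ) :
    ∃ j₁, ∀ u v, j₁ ≤ u → j₁ ≤ v → u ≤ v + m →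
      CC E e (LL k l (d - δ)) (u + v) D (fun _ => u) (fun _ => v) := by
  induction δ generalizing D m with
  | zero =>
    obtain ⟨hT, g, rfl⟩ := hD
    have hL : LL k l d ≤ E := by
      refine Submodule.span_le.2 ?_
      rintro _ ⟨j, -, rfl⟩
      exact hl j
    obtain ⟨j₀, h₀⟩ := Term.single he hL hT
    refine ⟨max 1 j₀, fun u v hu hv _ => ?_⟩
    exact h₀ u v (le_trans (le_max_left _ _) hu) (le_trans (le_max_right _ _) hv)
  | succ δ ih =>
    obtain ⟨A, B, hAB, rfl, hA, hB⟩ := hD
    obtain ⟨J0, hJ0⟩ := ReB.cc E e he l hl d (δ + 1) hδ B hB
    obtain ⟨j1, hj1⟩ := ih (by omega) A hA (m + (m + J0))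
    have hlev : d - δ = (d - (δ + 1)) + 1 := by omega
    rw [hlev, LL_succ] at hj1
    refine ⟨j1 + (m + J0) + 2, fun u v hu hv huv => ?_⟩
    have claim : ∀ s, s ≤ m + J0 → CC E e (LL k l (d - (δ + 1))) (u + v - (m + J0 - s)) (A ∪ B)
        (fun g => if g ∈ A then u else u - (m + J0 - s))
        (fun g => if g ∈ A then v - (m + J0 - s) else v) := by
      intro s
      induction s with
      | zero =>
        intro _
        have h1 := hJ0 (u - (m + J0)) v (by omega) (by omega)
        have hw : u - (m + J0) + v = u + v - (m + J0 - 0) := by omega
        rw [hw] at h1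
        refine CC.mono Finset.subset_union_right (CC.congr (fun g hg => ?_) (fun g hg => ?_) h1)
        · have : g ∉ A := fun h => Finset.disjoint_left.1 hAB h hg
          simp [this]
        · have : g ∉ A := fun h => Finset.disjoint_left.1 hAB h hg
          simp [this]
      | succ s ihs =>
        intro hs
        have h2 := ihs (by omega)
        have ht : m + J0 - s = (m + J0 - (s + 1)) + 1 := by omega
        rw [ht] at h2
        generalize hteq : m + J0 - (s + 1) = t at h2 ⊢
        have htT : t ≤ m + J0 := by omega
        have h1 := hj1 u (v - t) (by omega) (by omega) (by omega)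
        refine CC.step E e he (LL k l (d - (δ + 1))) (l (d - (δ + 1))) (hl _) _ (A ∪ B) A
          Finset.subset_union_left _ _ ?_ ?_ ?_ ?_ ?_ ?_ ?_
        · intro g _
          by_cases hg : g ∈ A
          · simp only [hg, if_true]; omega
          · simp only [hg, if_false]; omega
        · intro g _
          by_cases hg : g ∈ A
          · simp only [hg, if_true]; omega
          · simp only [hg, if_false]; omega
        · intro g _ hg
          simp only [hg, if_false]; omega
        · intro g hg
          simp only [hg, if_true]; omega
        · omega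
        · have hw : u + (v - t) = u + v - t := by omega
          rw [hw] at h1
          exact CC.congr (fun g hg => by simp [hg]) (fun g hg => by simp [hg]) h1
        · have hw : u + v - (t + 1) = u + v - t - 1 := by omega
          rw [hw] at h2
          refine CC.congr (fun g _ => ?_) (fun g _ => ?_) h2
          · by_cases hg : g ∈ A
            · simp only [hg, if_true]
            · simp only [hg, if_false]; omega
          · by_cases hg : g ∈ A
            · simp only [hg, if_true]; omega
            · simp only [hg, if_false]
    have hfin := claim (m + J0) le_rfl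
    rw [Nat.sub_self, Nat.sub_zero] at hfin
    exact CC.congr (fun g _ => by simp) (fun g _ => by simp) hfin

end Pool.Agent.KM
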