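import Pool.Agent.KM.SCommon
import Pool.Agent.KM.SRp

/-!
Project KM2, row S5: the final space `V = E ^ a` and the multipliers.
-/

set_option autoImplicit false
set_option linter.all false

open Function

namespace Pool.Agent.KM

section S
variable {k F J : Type} [Field k] [Field F] [Algebra k F]

private theorem s5_span_mul (D : Finset J) (f : J → F) (V : Submodule k F) :
    (⨆ g ∈ D, Submodule.span k {f g} * V) = Submodule.span k (f '' D) * V := by
  have h : Submodule.span k (f '' (D : Set J)) = ⨆ g ∈ D, Submodule.span k {f g} := by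
    rw [Submodule.span_eq_iSup_of_singleton_spans, iSup_image]
    simp
  rw [h]
  simp only [Submodule.iSup_mul]

private theorem s5_LL_zero (l : ℕ → F) : LL k l 0 = ⊥ := by
  unfold LL
  simp

theorem grid2 [Infinite k] [Finite J] [Nonempty J] [DecidableEq J] (τ κ : Type) [Finite τ]
    [Finite κ] (E : Submodule k F) [FiniteDimensional k E] (hE : E ≠ ⊥) (e : τ → J → F)
    (he : ∀ t g, e t g ∈ E) (l : ℕ → F) (hl : ∀ i, l i ∈ E) (d : ℕ) (D : κ → Finset J)
    (hD : ∀ t c, RpB E (e t) l d d (D c)) :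
    ∃ (V : Submodule k F) (q : J → F), FiniteDimensional k V ∧ (∀ g, q g ≠ 0) ∧
      (∀ t g, e t g * q g ∈ V) ∧
      ∀ t c, V * V ≤ Submodule.span k ((fun g => e t g * q g) '' D c) * V := by
  classical
  haveI := Fintype.ofFinite τ
  haveI := Fintype.ofFinite κ
  have hcc : ∀ tc : τ × κ, ∃ j₁, ∀ u v, j₁ ≤ u → j₁ ≤ v → u ≤ v + 0 →
      CC E (e tc.1) (LL k l (d - d)) (u + v) (D tc.2) (fun _ => u) (fun _ => v) :=
    fun tc => RpB.cc E (e tc.1) (he tc.1) l hl d d le_rfl (D tc.2) (hD tc.1 tc.2) 0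
  choose j hj using hcc
  set a : ℕ := (Finset.univ.sup j) + 1 with ha
  have ha1 : ∀ tc, j tc ≤ a := fun tc =>
    (Finset.le_sup (Finset.mem_univ tc)).trans (Nat.le_succ _)
  have haa : a - 1 + 1 = a := by omega
  have hfg : ∀ n : ℕ, FiniteDimensional k (E ^ n : Submodule k F) := by
    intro n
    have h1 : E.FG := (Submodule.fg_iff_finiteDimensional E).2 inferInstance
    exact (Submodule.fg_iff_finiteDimensional _).1 (h1.pow n)
  -- a nonzero element of `E ^ (a - 1)` and a complement of its span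
  obtain ⟨x0, hx0, hx00⟩ := (Submodule.ne_bot_iff E).1 hE
  set z : F := x0 ^ (a - 1) with hz
  have hz0 : z ≠ 0 := pow_ne_zero _ hx00
  have hzE : z ∈ E ^ (a - 1) := Submodule.pow_mem_pow E hx0 (a - 1)
  obtain ⟨M0, hM0⟩ := Submodule.exists_isCompl (Submodule.span k {z})
  have hEmul : ∀ m n : ℕ, ∀ x ∈ E ^ m, ∀ y ∈ E ^ n, x * y ∈ E ^ (m + n) := by
    intro m n x hx y hy
    rw [pow_add]
    exact Submodule.mul_mem_mul hx hy
  -- the common solution
  haveI hWfd : ∀ c : (τ × κ) ⊕ J, FiniteDimensional k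
      ((fun c => Sum.elim (fun _ : τ × κ => E ^ (a + a)) (fun _ => E ^ (a - 1)) c :
        (τ × κ) ⊕ J → Submodule k F) c) := by
    rintro (tc | g)
    · exact hfg _
    · exact hfg _
  have hcommon := common_cond (k := k) (F := F) (ν := (τ × κ) ⊕ J)
    (P := fun _ => E ^ (a - 1))
    (e := fun c g => Sum.elim (fun tc : τ × κ => e tc.1 g) (fun _ => 1) c)
    (D := fun c => Sum.elim (fun tc : τ × κ => D tc.2) (fun g => {g}) c)
    (Y := fun c _ => Sum.elim (fun _ => E ^ a) (fun _ => Submodule.span k {1}) c)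
    (W := fun c => Sum.elim (fun _ : τ × κ => E ^ (a + a)) (fun _ => E ^ (a - 1)) c)
    (M := fun c => Sum.elim (fun _ : τ × κ => ⊥) (fun _ => M0) c)
    (by
      rintro (tc | g) g' hg' x hx y hy
      · simp only [Sum.elim_inl] at hy ⊢
        have h1 : e tc.1 g' * x ∈ E ^ (1 + (a - 1)) :=
          hEmul 1 (a - 1) _ (by simpa using he tc.1 g') _ hx
        have h2 := hEmul _ _ _ h1 _ hy
        rwa [show 1 + (a - 1) + a = a + a by omega] at h2
      · simp only [Sum.elim_inr] at hy ⊢
        obtain ⟨s, rfl⟩ := Submodule.mem_span_singleton.1 hy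
        rw [one_mul, mul_smul_comm, mul_one]
        exact Submodule.smul_mem _ _ hx)
    (by
      rintro (tc | g)
      · obtain ⟨p, hp, hp2⟩ := hj tc a a (ha1 tc) (ha1 tc) (by omega)
        refine ⟨p, hp, ?_⟩
        simp only [Sum.elim_inl]
        rw [Nat.sub_self, s5_LL_zero, Submodule.bot_mul] at hp2
        exact hp2
      · refine ⟨fun _ => z, fun _ => hzE, ?_⟩
        simp only [Sum.elim_inr, one_mul]
        have h1 : (⨆ g' ∈ ({g} : Finset J), Submodule.span k {z} * Submodule.span k {(1 : F)}) =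
            Submodule.span k {z} := by
          rw [← Submodule.one_eq_span, mul_one]
          simp
        rw [h1, hM0.sup_eq_top]
        exact le_top)
  obtain ⟨q, hq, hq2⟩ := hcommon
  refine ⟨E ^ a, q, hfg a, ?_, ?_, ?_⟩
  · intro g hg0
    have h1 := hq2 (Sum.inr g)
    simp only [Sum.elim_inr, one_mul] at h1
    have h2 : (⨆ g' ∈ ({g} : Finset J), Submodule.span k {q g'} * Submodule.span k {(1 : F)}) =
        ⊥ := by
      rw [← Submodule.one_eq_span]
      simp [hg0]
    rw [h2, bot_sup_eq] at h1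
    have h3 : z ∈ Submodule.span k {z} ⊓ M0 :=
      ⟨Submodule.mem_span_singleton_self z, h1 hzE⟩
    rw [hM0.inf_eq_bot] at h3
    exact hz0 ((Submodule.mem_bot k).1 h3)
  · intro t g
    have h1 := hEmul 1 (a - 1) _ (by simpa using he t g) _ (hq g)
    rwa [show 1 + (a - 1) = a by omega] at h1
  · intro t c
    have h1 := hq2 (Sum.inl (t, c))
    simp only [Sum.elim_inl, sup_bot_eq] at h1
    rw [← pow_add, ← s5_span_mul]
    exact h1

end S

end Pool.Agent.KM
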