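import Pool.Agent.KM.SDefs

/-!
Project KM2 (MP_27fd67_ag), row S6: pairs `(j, false)`, `(j, true)`; each set which misses one
element is a disjoint union of blocks.
-/

set_option autoImplicit false

open Function

namespace Pool.Agent.KM

section S
variable {k F J : Type} [Field k] [Field F] [Algebra k F]

private theorem s6_mono {E : Submodule k F} {e : J → F} {L : Submodule k F} {B B' : Finset J}
    (hB : B ⊆ B') (h : Term E e L B) : Term E e L B' := by
  obtain ⟨j₀, hj⟩ := h
  refine ⟨j₀, fun j hj' => (hj j hj').trans (sup_le_sup_right ?_ _)⟩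
  exact biSup_mono fun g hg => hB hg

private theorem s6_block (E : Submodule k F) (d : ℕ) (e : Fin (2 ^ d) × Bool → F)
    (l : ℕ → F)
    (h1 : ∀ (j : Fin (2 ^ d)) (b : Bool), Term E e (LL k l d) {(j, b)})
    (h2 : ∀ (j : Fin (2 ^ d)) (R : Finset (Fin (2 ^ d))) (i : ℕ), (∀ a ∈ R, j ≤ a) →
      R.card + i = d → Term E e (LL k l i) (insert (j, false) (R.image fun a => (a, true)))) :
    ∀ (δ : ℕ), δ + 1 ≤ d → ∀ P : Finset (Fin (2 ^ d)), P.card = 2 ^ δ →
      ReB E e l d (δ + 1) (P ×ˢ (Finset.univ : Finset Bool)) := by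
  intro δ
  induction δ with
  | zero =>
    intro hd P hP
    obtain ⟨j, rfl⟩ := Finset.card_eq_one.1 (by simpa using hP)
    refine ⟨?_, {(j, false)}, {(j, true)}, by simp, ?_, ⟨h1 j false, _, rfl⟩,
      ⟨h1 j true, _, rfl⟩⟩
    · have h := h2 j {j} (d - 1) (by simp) (by simp; omega)
      refine s6_mono ?_ h
      intro x hx
      simp only [Finset.image_singleton, Finset.mem_insert, Finset.mem_singleton] at hx
      rcases hx with rfl | rfl <;> simp
    · ext ⟨a, b⟩
      cases b <;> simp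
  | succ δ ih =>
    intro hd P hP
    have hne : P.Nonempty := by
      rw [← Finset.card_pos, hP]
      positivity
    refine ⟨?_, ?_⟩
    · have hcard : δ + 1 + 1 ≤ P.card := by
        rw [hP]
        have := Nat.lt_two_pow_self (n := δ + 1)
        omega
      obtain ⟨R, hRP, hR⟩ := Finset.exists_subset_card_eq hcard
      have h := h2 (P.min' hne) R (d - (δ + 1 + 1)) (fun a ha => P.min'_le a (hRP ha))
        (by rw [hR]; omega)
      refine s6_mono ?_ h
      intro x hx
      rw [Finset.mem_insert, Finset.mem_image] at hx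
      rcases hx with rfl | ⟨a, ha, rfl⟩
      · simp [P.min'_mem hne]
      · simp [hRP ha]
    · have hcard : 2 ^ δ ≤ P.card := by
        rw [hP, pow_succ]
        omega
      obtain ⟨P₁, hP₁P, hP₁⟩ := Finset.exists_subset_card_eq hcard
      have hP₂ : (P \ P₁).card = 2 ^ δ := by
        rw [Finset.card_sdiff_of_subset hP₁P, hP, hP₁, pow_succ]
        omega
      refine ⟨P₁ ×ˢ Finset.univ, (P \ P₁) ×ˢ Finset.univ, ?_, ?_,
        ih (by omega) P₁ hP₁, ih (by omega) _ hP₂⟩
      · rw [Finset.disjoint_product]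
        exact Or.inl Finset.disjoint_sdiff
      · rw [← Finset.union_product, Finset.union_sdiff_of_subset hP₁P]

private theorem s6_rp (E : Submodule k F) (d : ℕ) (e : Fin (2 ^ d) × Bool → F)
    (l : ℕ → F)
    (h1 : ∀ (j : Fin (2 ^ d)) (b : Bool), Term E e (LL k l d) {(j, b)})
    (h2 : ∀ (j : Fin (2 ^ d)) (R : Finset (Fin (2 ^ d))) (i : ℕ), (∀ a ∈ R, j ≤ a) →
      R.card + i = d → Term E e (LL k l i) (insert (j, false) (R.image fun a => (a, true))))
    (j₀ : Fin (2 ^ d)) (b₀ : Bool) :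
    ∀ (δ : ℕ), δ ≤ d → ∀ S : Finset (Fin (2 ^ d)), j₀ ∉ S → S.card + 1 = 2 ^ δ →
      RpB E e l d δ (insert (j₀, b₀) (S ×ˢ (Finset.univ : Finset Bool))) := by
  intro δ
  induction δ with
  | zero =>
    intro hd S hj hS
    have hS0 : S = ∅ := by
      rw [← Finset.card_eq_zero]
      simpa using hS
    subst hS0
    have : insert (j₀, b₀) ((∅ : Finset (Fin (2 ^ d))) ×ˢ (Finset.univ : Finset Bool)) =
        {(j₀, b₀)} := by simp
    rw [this]
    exact ⟨h1 j₀ b₀, _, rfl⟩
  | succ δ ih =>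
    intro hd S hj hS
    have hcard : 2 ^ δ ≤ S.card := by
      have : 2 ^ (δ + 1) = 2 ^ δ + 2 ^ δ := by rw [pow_succ]; omega
      have h0 : 0 < 2 ^ δ := by positivity
      omega
    obtain ⟨S₂, hS₂S, hS₂⟩ := Finset.exists_subset_card_eq hcard
    have hS₁ : (S \ S₂).card + 1 = 2 ^ δ := by
      rw [Finset.card_sdiff_of_subset hS₂S, hS₂]
      have : 2 ^ (δ + 1) = 2 ^ δ + 2 ^ δ := by rw [pow_succ]; omega
      omega
    refine ⟨insert (j₀, b₀) ((S \ S₂) ×ˢ Finset.univ), S₂ ×ˢ Finset.univ, ?_, ?_,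
      ih (by omega) (S \ S₂) (fun h => hj (Finset.sdiff_subset h)) hS₁,
      s6_block E d e l h1 h2 δ hd S₂ hS₂⟩
    · rw [Finset.disjoint_insert_left]
      refine ⟨?_, ?_⟩
      · intro h
        rw [Finset.mem_product] at h
        exact hj (hS₂S h.1)
      · rw [Finset.disjoint_product]
        exact Or.inl Finset.sdiff_disjoint
    · rw [Finset.insert_union, ← Finset.union_product, Finset.sdiff_union_of_subset hS₂S]

/-- the pairs `(y j, w j)`: each set which misses one element is a union of blocks -/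
theorem pairs_RpB (E : Submodule k F) (d : ℕ) (e : Fin (2 ^ d) × Bool → F)
    (l : ℕ → F)
    (h1 : ∀ (j : Fin (2 ^ d)) (b : Bool), Term E e (LL k l d) {(j, b)})
    (h2 : ∀ (j : Fin (2 ^ d)) (R : Finset (Fin (2 ^ d))) (i : ℕ), (∀ a ∈ R, j ≤ a) →
      R.card + i = d → Term E e (LL k l i) (insert (j, false) (R.image fun a => (a, true)))) :
    ∀ o : Fin (2 ^ d) × Bool, RpB E e l d d (Finset.univ.erase o) := by
  rintro ⟨j₀, b₀⟩
  have h := s6_rp E d e l h1 h2 j₀ (!b₀) d le_rfl (Finset.univ.erase j₀)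
    (Finset.notMem_erase _ _) (by
      rw [Finset.card_erase_of_mem (Finset.mem_univ _), Finset.card_univ, Fintype.card_fin]
      have h0 : 0 < 2 ^ d := by positivity
      omega)
  convert h using 1
  ext ⟨a, b⟩
  by_cases ha : a = j₀
  · subst ha
    cases b <;> cases b₀ <;> simp
  · simp [ha]

end S

end Pool.Agent.KM
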