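import Pool.Agent.KM.SStep

/-!
Project KM2 (MP_27fd67_ag), row S3: blocks of `2 ^ δ` elements which split in halves
(helper78).
-/

set_option autoImplicit false
set_option linter.all false

open Function

namespace Pool.Agent.KM

section S
variable {k F J : Type} [Field k] [Field F] [Algebra k F]

theorem LL_succ (l : ℕ → F) (i : ℕ) : LL k l (i + 1) = LL k l i ⊔ Submodule.span k {l i} := by
  unfold LL
  rw [← Submodule.span_union]
  congr 1
  ext x
  simp only [Set.mem_image, Set.mem_setOf_eq, Set.mem_union, Set.mem_singleton_iff]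
  constructor
  · rintro ⟨j, hj, rfl⟩
    rcases Nat.lt_succ_iff_lt_or_eq.1 hj with h | h
    · exact Or.inl ⟨j, h, rfl⟩
    · exact Or.inr (by rw [h])
  · rintro (⟨j, hj, rfl⟩ | rfl)
    · exact ⟨j, by omega, rfl⟩
    · exact ⟨i, by omega, rfl⟩

theorem Term.cc {E : Submodule k F} {e : J → F} {L : Submodule k F} {B : Finset J}
    (h : Term E e L B) : ∃ j₀, ∀ v, j₀ ≤ v → CC E e L (1 + v) B (fun _ => 1) (fun _ => v) := by
  obtain ⟨j₀, h⟩ := h
  refine ⟨j₀, fun v hv => ⟨fun _ => 1, fun g => ?_, ?_⟩⟩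
  · rw [Nat.sub_self, pow_zero]
    exact Submodule.one_le.1 le_rfl
  · have h1 := h v hv
    have h2 : 1 + v - 1 = v := by omega
    rw [h2, add_comm 1 v]
    simpa only [mul_one] using h1

private theorem s3_single {E : Submodule k F} {e : J → F} (he : ∀ g, e g ∈ E)
    {L : Submodule k F} {g : J} {j₀ : ℕ}
    (h : ∀ j, j₀ ≤ j → E ^ (j + 1) ≤ (⨆ g' ∈ ({g} : Finset J), Submodule.span k {e g'} * E ^ j)
      ⊔ L * E ^ j) (n v : ℕ) (hv : j₀ ≤ v) :
    E ^ (n + 1 + v) ≤ Submodule.span k {e g ^ (n + 1)} * E ^ v ⊔ L * E ^ (n + v) := by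
  have h' : ∀ j, j₀ ≤ j → E ^ (j + 1) ≤ Submodule.span k {e g} * E ^ j ⊔ L * E ^ j := by
    intro j hj
    refine (h j hj).trans (sup_le_sup_right ?_ _)
    simp
  induction n with
  | zero =>
    have h1 := h' v hv
    have h2 : 0 + 1 + v = v + 1 := by omega
    have h3 : 0 + v = v := by omega
    rw [h2, h3, zero_add, pow_one]
    exact h1
  | succ n ih =>
    have h1 := h' (n + 1 + v) (by omega)
    have h2 : n + 1 + 1 + v = n + 1 + v + 1 := by omega
    rw [h2]
    refine h1.trans (sup_le ?_ le_sup_right)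
    refine (mul_le_mul' le_rfl ih).trans ?_
    rw [Submodule.mul_sup]
    refine sup_le ?_ ?_
    · rw [← mul_assoc, Submodule.span_mul_span, Set.singleton_mul_singleton]
      have h3 : e g * e g ^ (n + 1) = e g ^ (n + 1 + 1) := by ring
      rw [h3]
      exact le_sup_left
    · refine le_trans ?_ le_sup_right
      rw [mul_left_comm]
      refine mul_le_mul' le_rfl ?_
      have h3 : n + 1 + v = (n + v) + 1 := by omega
      rw [h3, pow_succ', mul_comm E]
      rw [mul_comm]
      refine mul_le_mul' le_rfl ?_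
      exact (Submodule.span_singleton_le_iff_mem _ _).2 (he g)

theorem Term.single {E : Submodule k F} {e : J → F} (he : ∀ g, e g ∈ E) {L : Submodule k F}
    (hL : L ≤ E) {g : J} (h : Term E e L {g}) :
    ∃ j₀, ∀ u v, 1 ≤ u → j₀ ≤ v → CC E e L (u + v) {g} (fun _ => u) (fun _ => v) := by
  obtain ⟨j₀, h⟩ := h
  refine ⟨j₀, fun u v hu hv => ?_⟩
  obtain ⟨n, rfl⟩ : ∃ n, u = n + 1 := ⟨u - 1, by omega⟩
  refine ⟨fun g => e g ^ n, fun g => ?_, ?_⟩
  · rw [Nat.add_sub_cancel]
    exact Submodule.pow_mem_pow _ (he g) n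
  · have h1 := s3_single he h n v hv
    have h2 : n + 1 + v - 1 = n + v := by omega
    rw [h2]
    refine h1.trans (sup_le_sup_right ?_ _)
    have h3 : e g ^ (n + 1) = e g * e g ^ n := by ring
    rw [h3]
    simp

theorem ReB.cc [Infinite k] [Finite J] [DecidableEq J] (E : Submodule k F)
    [FiniteDimensional k E] (e : J → F) (he : ∀ g, e g ∈ E) (l : ℕ → F) (hl : ∀ i, l i ∈ E)
    (d δ : ℕ) (hδ : δ ≤ d) (B : Finset J) (hB : ReB E e l d δ B) :
    ∃ j₀, ∀ u v, 1 ≤ u → u + j₀ ≤ v →
      CC E e (LL k l (d - δ)) (u + v) B (fun _ => u) (fun _ => v) := by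
  induction δ generalizing B with
  | zero =>
    obtain ⟨hT, g, rfl⟩ := hB
    have hL : LL k l d ≤ E := by
      refine Submodule.span_le.2 ?_
      rintro _ ⟨j, _, rfl⟩
      exact hl j
    obtain ⟨j₀, h⟩ := Term.single he hL hT
    exact ⟨j₀, fun u v hu hv => h u v hu (by omega)⟩
  | succ δ ih =>
    obtain ⟨hT, B₁, B₂, hdis, rfl, hB₁, hB₂⟩ := hB
    obtain ⟨J₁, h₁⟩ := ih (by omega) B₁ hB₁
    obtain ⟨J₂, h₂⟩ := ih (by omega) B₂ hB₂
    obtain ⟨j₃, h₃⟩ := hT.cc
    obtain ⟨i, hi, hi'⟩ : ∃ i, d - (δ + 1) = i ∧ d - δ = i + 1 := ⟨_, rfl, by omega⟩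
    rw [hi] at h₃ ⊢
    rw [hi', LL_succ] at h₁ h₂
    refine ⟨J₁ + J₂ + j₃ + 2, fun u => ?_⟩
    induction u with
    | zero => intro v hu; omega
    | succ u ihu =>
      intro v _ hv
      rcases Nat.eq_zero_or_pos u with rfl | hu
      · exact h₃ v (by omega)
      · have hn : ∀ g ∈ B₂, g ∉ B₁ := fun g hg hg' => Finset.disjoint_left.1 hdis hg' hg
        refine CC.step E e he _ (l i) (hl i) _ _ B₁ Finset.subset_union_left _ _
          (fun g _ => rfl) (fun g _ => by omega) (fun g _ _ => by omega) (fun g _ => by omega)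
          (by omega) (h₁ (u + 1) v (by omega) (by omega)) ?_
        have e1 : u + 1 + v - 1 = u + v := by omega
        rw [e1]
        refine CC.step E e he _ (l i) (hl i) _ _ B₂ Finset.subset_union_right _ _
          (fun g _ => ?_) (fun g _ => ?_) (fun g hg hg2 => ?_) (fun g hg => ?_)
          (by omega) ?_ ?_
        · by_cases hg : g ∈ B₁
          · rw [if_pos hg, if_pos hg]; omega
          · rw [if_neg hg, if_neg hg]; omega
        · by_cases hg : g ∈ B₁
          · rw [if_pos hg]; omega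
          · rw [if_neg hg]; omega
        · have hg1 : g ∈ B₁ := by
            rcases Finset.mem_union.1 hg with h | h
            · exact h
            · exact absurd h hg2
          rw [if_pos hg1]; omega
        · rw [if_neg (hn g hg)]; omega
        · refine CC.congr (u := fun _ => u) (v := fun _ => v) (fun g hg => ?_) (fun g hg => ?_)
            (h₂ u v hu (by omega))
          · rw [if_neg (hn g hg)]; omega
          · rw [if_neg (hn g hg)]
        · have e2 : u + v - 1 = u + (v - 1) := by omega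
          rw [e2]
          refine CC.congr (u := fun _ => u) (v := fun _ => v - 1) (fun g hg => ?_)
            (fun g hg => ?_) (ihu (v - 1) hu (by omega))
          · rcases Finset.mem_union.1 hg with h | h
            · have h' : g ∉ B₂ := fun h' => hn g h' h
              rw [if_neg h', if_pos h]; omega
            · rw [if_pos h, if_neg (hn g h)]; omega
          · rcases Finset.mem_union.1 hg with h | h
            · have h' : g ∉ B₂ := fun h' => hn g h' h
              rw [if_neg h', if_pos h]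
            · rw [if_pos h, if_neg (hn g h)]

end S

end Pool.Agent.KM
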