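import Pool.Agent.KM.SDefs
import Pool.Agent.KM.SCommon

/-!
KM-S2 (MP_27fd67_ag): the step lemma.
-/

set_option autoImplicit false

open Function

namespace Pool.Agent.KM

section
variable {k F J : Type} [Field k] [Field F] [Algebra k F]

theorem s2_span_mul_le {a : F} {N R : Submodule k F} (h : ∀ y ∈ N, a * y ∈ R) :
    Submodule.span k {a} * N ≤ R := by
  rw [Submodule.mul_le]
  intro x hx y hy
  obtain ⟨c, rfl⟩ := Submodule.mem_span_singleton.1 hx
  rw [smul_mul_assoc]
  exact R.smul_mem c (h y hy)

theorem s2_mem_span_mul {a y : F} {N : Submodule k F} (h : y ∈ N) :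
    a * y ∈ Submodule.span k {a} * N :=
  Submodule.mul_mem_mul (Submodule.mem_span_singleton_self a) h

theorem s2_pow_mem {E : Submodule k F} {x y : F} {m n w : ℕ} (hx : x ∈ E ^ m) (hy : y ∈ E ^ n)
    (hw : m + n = w) : x * y ∈ E ^ w := by
  rw [← hw, pow_add]
  exact Submodule.mul_mem_mul hx hy

theorem CC.mono {E : Submodule k F} {e : J → F} {L : Submodule k F} {w : ℕ} {D D' : Finset J}
    {u v : J → ℕ} (hD : D ⊆ D') (h : CC E e L w D u v) : CC E e L w D' u v := by
  obtain ⟨p, hp, h⟩ := h
  exact ⟨p, hp, h.trans (sup_le_sup_right (biSup_mono fun g hg => hD hg) _)⟩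

theorem CC.congr {E : Submodule k F} {e : J → F} {L : Submodule k F} {w : ℕ} {D : Finset J}
    {u v u' v' : J → ℕ} (hu : ∀ g ∈ D, u g = u' g) (hv : ∀ g ∈ D, v g = v' g)
    (h : CC E e L w D u v) : CC E e L w D u' v' := by
  classical
  obtain ⟨p, hp, h⟩ := h
  refine ⟨fun g => if g ∈ D then p g else 0, fun g => ?_, ?_⟩
  · by_cases hg : g ∈ D
    · simp only [if_pos hg]
      rw [← hu g hg]
      exact hp g
    · simp only [if_neg hg]
      exact Submodule.zero_mem _
  · refine h.trans (sup_le_sup_right (iSup₂_mono fun g hg => ?_) _)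
    simp only [if_pos hg]
    rw [← hv g hg]

/-- the step lemma -/
theorem CC.step [Infinite k] [Finite J] [DecidableEq J] (E : Submodule k F)
    [FiniteDimensional k E] (e : J → F) (he : ∀ g, e g ∈ E) (L : Submodule k F) (l : F)
    (hl : l ∈ E) (w : ℕ) (D G : Finset J) (hG : G ⊆ D) (u v : J → ℕ)
    (hw : ∀ g ∈ D, u g + v g = w) (hu : ∀ g ∈ D, 1 ≤ u g) (hu2 : ∀ g ∈ D, g ∉ G → 2 ≤ u g)
    (hv : ∀ g ∈ G, 1 ≤ v g) (hw2 : 2 ≤ w)
    (h1 : CC E e (L ⊔ Submodule.span k {l}) w G u v)
    (h2 : CC E e L (w - 1) D (fun g => if g ∈ G then u g else u g - 1)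
      (fun g => if g ∈ G then v g - 1 else v g)) :
    CC E e L w D u v := by
  obtain ⟨p1, hp1, h1⟩ := h1
  obtain ⟨p2, hp2, h2⟩ := h2
  have hE1 : ∀ {x : F}, x ∈ E → x ∈ E ^ 1 := fun {x} hx => by rwa [pow_one]
  have hfd : ∀ n : ℕ, FiniteDimensional k ((E ^ n : Submodule k F)) := fun n =>
    Module.Finite.iff_fg.2 ((Module.Finite.iff_fg.1 inferInstance : E.FG).pow n)
  have hfd' : ∀ c : Bool, FiniteDimensional k
      ((cond c (E ^ w) (E ^ (w - 1)) : Submodule k F)) := by
    intro c
    cases c
    · exact hfd _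
    · exact hfd _
  obtain ⟨p, hp, hc⟩ := common_cond (ν := Bool)
    (fun g => if g ∈ G then E ^ (u g - 1) else E ^ (u g - 2)) (fun _ => e)
    (fun c => cond c G D)
    (fun c g => cond c (E ^ v g) (E ^ (if g ∈ G then v g - 1 else v g)))
    (fun c => cond c (E ^ w) (E ^ (w - 1)))
    (fun c => cond c ((L ⊔ Submodule.span k {l}) * E ^ (w - 1)) (L * E ^ (w - 1 - 1)))
    (by
      intro c g hg x hx y hy
      cases c
      · change e g * x * y ∈ E ^ (w - 1)
        change g ∈ D at hg
        change y ∈ E ^ (if g ∈ G then v g - 1 else v g) at hy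
        have h3 := hw g hg
        by_cases hgG : g ∈ G
        · simp only [if_pos hgG] at hx hy
          have h4 := hu g hg
          have h5 := hv g hgG
          exact s2_pow_mem (s2_pow_mem (hE1 (he g)) hx rfl) hy (by omega)
        · simp only [if_neg hgG] at hx hy
          have h4 := hu2 g hg hgG
          exact s2_pow_mem (s2_pow_mem (hE1 (he g)) hx rfl) hy (by omega)
      · change e g * x * y ∈ E ^ w
        change g ∈ G at hg
        change y ∈ E ^ v g at hy
        simp only [if_pos hg] at hx
        have h3 := hw g (hG hg)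
        have h4 := hu g (hG hg)
        exact s2_pow_mem (s2_pow_mem (hE1 (he g)) hx rfl) hy (by omega))
    (by
      intro c
      cases c
      · refine ⟨p2, fun g => ?_, h2⟩
        have h3 := hp2 g
        by_cases hgG : g ∈ G
        · simp only [if_pos hgG] at h3 ⊢
          exact h3
        · simp only [if_neg hgG] at h3 ⊢
          have h4 : u g - 2 = u g - 1 - 1 := by omega
          rw [h4]
          exact h3
      · refine ⟨fun g => if g ∈ G then p1 g else 0, fun g => ?_, ?_⟩
        · by_cases hgG : g ∈ G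
          · simp only [if_pos hgG]
            exact hp1 g
          · simp only [if_neg hgG]
            exact Submodule.zero_mem _
        · change E ^ w ≤ (⨆ g ∈ G, Submodule.span k {e g * (if g ∈ G then p1 g else 0)} *
            E ^ v g) ⊔ (L ⊔ Submodule.span k {l}) * E ^ (w - 1)
          refine h1.trans (sup_le_sup_right (iSup₂_mono fun g hg => ?_) _)
          rw [if_pos hg])
  have hc1 : E ^ w ≤ (⨆ g ∈ G, Submodule.span k {e g * p g} * E ^ v g) ⊔
      (L ⊔ Submodule.span k {l}) * E ^ (w - 1) := hc true
  have hc2 : E ^ (w - 1) ≤ (⨆ g ∈ D, Submodule.span k {e g * p g} *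
      E ^ (if g ∈ G then v g - 1 else v g)) ⊔ L * E ^ (w - 1 - 1) := hc false
  refine ⟨fun g => if g ∈ G then p g else if g ∈ D then l * p g else 0, fun g => ?_, ?_⟩
  · have h3 := hp g
    by_cases hgG : g ∈ G
    · simp only [if_pos hgG] at h3 ⊢
      exact h3
    · simp only [if_neg hgG] at h3 ⊢
      by_cases hgD : g ∈ D
      · simp only [if_pos hgD]
        have h4 := hu2 g hgD hgG
        exact s2_pow_mem (hE1 hl) h3 (by omega)
      · simp only [if_neg hgD]
        exact Submodule.zero_mem _
  · have hR : ∀ g ∈ D, Submodule.span k {e g * (if g ∈ G then p g else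
        if g ∈ D then l * p g else 0)} * E ^ v g ≤
        (⨆ g ∈ D, Submodule.span k {e g * (if g ∈ G then p g else
        if g ∈ D then l * p g else 0)} * E ^ v g) ⊔ L * E ^ (w - 1) := fun g hg =>
      le_sup_of_le_left (le_iSup₂_of_le g hg le_rfl)
    refine hc1.trans (sup_le (iSup₂_le fun g hg => ?_) ?_)
    · have h3 := hR g (hG hg)
      rw [if_pos hg] at h3
      exact h3
    · rw [Submodule.sup_mul]
      refine sup_le le_sup_right (s2_span_mul_le fun y hy => ?_)
      have h3 : E ^ (w - 1) ≤ ((⨆ g ∈ D, Submodule.span k {e g * (if g ∈ G then p g else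
        if g ∈ D then l * p g else 0)} * E ^ v g) ⊔ L * E ^ (w - 1)).comap
          (LinearMap.mulLeft k l) := by
        refine hc2.trans (sup_le (iSup₂_le fun g hg => s2_span_mul_le fun z hz => ?_) ?_)
        · rw [Submodule.mem_comap, LinearMap.mulLeft_apply]
          by_cases hgG : g ∈ G
          · have h4 := hR g hg
            rw [if_pos hgG] at h4
            rw [if_pos hgG] at hz
            have h5 : l * (e g * p g * z) = e g * p g * (l * z) := by ring
            rw [h5]
            have h6 := hv g hgG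
            exact h4 (s2_mem_span_mul (s2_pow_mem (hE1 hl) hz (by omega)))
          · have h4 := hR g hg
            rw [if_neg hgG, if_pos hg] at h4
            rw [if_neg hgG] at hz
            have h5 : l * (e g * p g * z) = e g * (l * p g) * z := by ring
            rw [h5]
            exact h4 (s2_mem_span_mul hz)
        · rw [Submodule.mul_le]
          intro x hx z hz
          rw [Submodule.mem_comap, LinearMap.mulLeft_apply]
          have h5 : l * (x * z) = x * (l * z) := by ring
          rw [h5]
          exact Submodule.mem_sup_right (Submodule.mul_mem_mul hx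
            (s2_pow_mem (hE1 hl) hz (by omega)))
      exact h3 hy

end

end Pool.Agent.KM
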