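import Pool.Agent.KM.Defs

/-!
Project KM: definitions for the transfer of Milnor functionals to quadratic extensions.
-/

set_option autoImplicit false

open Function Polynomial

namespace Pool.Agent.KM

/-- A rational place of the projective line over `F`, seen on polynomials: the order and the
leading coefficient. -/
structure Place (F : Type) [Field F] where
  m : F[X] → ℤ
  r : F[X] → F
  r_ne : ∀ f, f ≠ 0 → r f ≠ 0
  m_mul : ∀ f g, f ≠ 0 → g ≠ 0 → m (f * g) = m f + m g
  r_mul : ∀ f g, f ≠ 0 → g ≠ 0 → r (f * g) = r f * r g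
  add : ∀ f g, f ≠ 0 → g ≠ 0 → f + g ≠ 0 →
    (m f = m g ∧ m (f + g) = m f ∧ r f + r g = r (f + g)) ∨
    (m f = m g ∧ r f + r g = 0) ∨
    (m f < m g ∧ m (f + g) = m f ∧ r (f + g) = r f) ∨
    (m g < m f ∧ m (f + g) = m g ∧ r (f + g) = r g)

/-- The residue of a functional at a place. The slot `none` is the additional entry. -/
def DD {F ι : Type} [Field F] [Fintype ι] [DecidableEq ι] (v : Place F) (T : (ι → F) → ℝ)
    (g : Option ι → F[X]) : ℝ :=
  (v.m (g none) : ℝ) * T (fun i => v.r (g (some i))) -
    ∑ i, (v.m (g (some i)) : ℝ) * T (update (fun j => v.r (g (some j))) i (v.r (g none)))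

end Pool.Agent.KM
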