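import Pool.Agent.KM.TZorn
import Pool.Agent.KM.MGroup

/-!
KM-T6: from infinite algebraic constant fields to all fields of characteristic `p`.
-/

set_option autoImplicit false

open Function Polynomial

namespace Pool.Agent.KM

/-- If all Milnor functionals vanish for fields of transcendence degree at most `d` over
infinite fields which are algebraic over the prime field, then the Milnor K-groups of all fields
of characteristic `p` and transcendence degree at most `d` are torsion. -/
theorem charP_transfer (p : ℕ) [Fact p.Prime] (d n : ℕ)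
    (h : ∀ (k F : Type) [Field k] [Field F] [Algebra k F] [Algebra (ZMod p) k]
      [Algebra.IsAlgebraic (ZMod p) k] [Infinite k], Algebra.trdeg k F ≤ d →
      ∀ T : (Fin n → F) → ℝ, IsM T → ∀ x, T x = 0)
    (F : Type) [Field F] [Algebra (ZMod p) F] (htr : Algebra.trdeg (ZMod p) F ≤ d)
    (ξ : MilnorK F n) : ∃ N : ℕ, 0 < N ∧ N • ξ = 0 := by
  apply milnorK_torsion
  intro T hT x
  obtain ⟨L, _, _, _, k, T', hinf, hkalg, hT', hTT⟩ := exists_extension p F T hT
  rw [← hTT x]
  obtain ⟨K, _, _, hinf, hkalg⟩ : ∃ (K : Type) (_ : Field K) (_ : Algebra K L), Infinite K ∧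
      ∀ a : K, ∃ f : (ZMod p)[X], f ≠ 0 ∧
        (f.map ((algebraMap F L).comp (algebraMap (ZMod p) F))).eval (algebraMap K L a) = 0 :=
    ⟨k, inferInstance, inferInstance, hinf, fun a => hkalg a a.2⟩
  let _ : Algebra (ZMod p) L := ((algebraMap F L).comp (algebraMap (ZMod p) F)).toAlgebra
  have : IsScalarTower (ZMod p) F L := IsScalarTower.of_algebraMap_eq' rfl
  have hcL : CharP L p := charP_of_injective_algebraMap (algebraMap (ZMod p) L).injective p
  have hck : CharP K p := (algebraMap K L).charP (algebraMap K L).injective p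
  let _ : Algebra (ZMod p) K := ZMod.algebra K p
  have : IsScalarTower (ZMod p) K L := IsScalarTower.of_algebraMap_eq' (RingHom.ext_zmod _ _)
  have hkk : Algebra.IsAlgebraic (ZMod p) K := by
    constructor
    intro a
    obtain ⟨f, hf0, hf⟩ := hkalg a
    refine ⟨f, hf0, ?_⟩
    apply (algebraMap K L).injective
    rw [map_zero, ← hf, eval_map, ← aeval_algebraMap_apply]
    rfl
  have h1 : Algebra.trdeg K L ≤ d := by
    have e1 := _root_.trdeg_add_eq (R := ZMod p) (S := K) (A := L)
    have e2 := _root_.trdeg_add_eq (R := ZMod p) (S := F) (A := L)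
    rw [_root_.trdeg_eq_zero (R := F) (A := L), add_zero] at e2
    calc Algebra.trdeg K L ≤ Algebra.trdeg (ZMod p) K + Algebra.trdeg K L := le_add_self
      _ = Algebra.trdeg (ZMod p) F := by rw [e1, e2]
      _ ≤ d := htr
  exact h K L h1 T' hT' _

end Pool.Agent.KM
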