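import Pool.Agent.KM.TDefs

/-!
Project KM, part T2: the places of the projective line.
-/

set_option autoImplicit false
set_option linter.all false

open Function Polynomial

namespace Pool.Agent.KM

variable {F : Type} [Field F]

/-- The leading coefficient at the point `a`. -/
noncomputable def lcAt (a : F) (f : F[X]) : F :=
  (f /ₘ (X - C a) ^ rootMultiplicity a f).eval a

theorem lcAt_spec (a : F) (f : F[X]) (hf : f ≠ 0) :
    ∃ g : F[X], f = (X - C a) ^ rootMultiplicity a f * g ∧ g.eval a = lcAt a f ∧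
      lcAt a f ≠ 0 :=
  ⟨f /ₘ (X - C a) ^ rootMultiplicity a f,
    (pow_mul_divByMonic_rootMultiplicity_eq f a).symm, rfl,
    eval_divByMonic_pow_rootMultiplicity_ne_zero a hf⟩

theorem lcAt_uniq (a : F) (f g : F[X]) (n : ℕ) (h : f = (X - C a) ^ n * g)
    (hg : g.eval a ≠ 0) : rootMultiplicity a f = n ∧ lcAt a f = g.eval a := by
  have hX : (X - C a : F[X]) ≠ 0 := X_sub_C_ne_zero a
  have hg0 : g ≠ 0 := by rintro rfl; simp at hg
  have hf0 : f ≠ 0 := by rw [h]; exact mul_ne_zero (pow_ne_zero _ hX) hg0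
  have hm : rootMultiplicity a f = n := by
    have h1 : (X - C a) ^ n * g ≠ 0 := mul_ne_zero (pow_ne_zero _ hX) hg0
    rw [h, rootMultiplicity_mul h1, rootMultiplicity_X_sub_C_pow,
      rootMultiplicity_eq_zero (by rwa [IsRoot.def]), add_zero]
  refine ⟨hm, ?_⟩
  obtain ⟨g', h1, h2, -⟩ := lcAt_spec a f hf0
  rw [hm] at h1
  have h3 : (X - C a) ^ n * g' = (X - C a) ^ n * g := by rw [← h1, ← h]
  rw [← h2, mul_left_cancel₀ (pow_ne_zero _ hX) h3]

theorem exists_placeAt (a : F) : ∃ v : Place F,
    (∀ f, v.m f = (Polynomial.rootMultiplicity a f : ℤ)) ∧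
    (∀ f : F[X], f.eval a ≠ 0 → v.m f = 0 ∧ v.r f = f.eval a) ∧
    (∀ c b : F, c ≠ 0 → c * a + b = 0 → v.m (C c * X + C b) = 1 ∧ v.r (C c * X + C b) = c) := by
  refine ⟨{ m := fun f => (rootMultiplicity a f : ℤ)
            r := lcAt a
            r_ne := fun f hf => (lcAt_spec a f hf).choose_spec.2.2
            m_mul := fun f g hf hg => by
              have h := rootMultiplicity_mul (x := a) (mul_ne_zero hf hg)
              simp only [h, Nat.cast_add]
            r_mul := ?_
            add := ?_ }, fun f => rfl, ?_, ?_⟩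
  · intro f g hf hg
    obtain ⟨f', h1, h2, h3⟩ := lcAt_spec a f hf
    obtain ⟨g', h4, h5, h6⟩ := lcAt_spec a g hg
    have h : f * g = (X - C a) ^ (rootMultiplicity a f + rootMultiplicity a g) * (f' * g') := by
      conv_lhs => rw [h1, h4]
      rw [pow_add]; ring
    rw [(lcAt_uniq a _ _ _ h (by rw [eval_mul, h2, h5]; exact mul_ne_zero h3 h6)).2, eval_mul,
      h2, h5]
  · intro f g hf hg hfg
    obtain ⟨f', h1, h2, h3⟩ := lcAt_spec a f hf
    obtain ⟨g', h4, h5, h6⟩ := lcAt_spec a g hg
    rcases lt_trichotomy (rootMultiplicity a f) (rootMultiplicity a g) with hlt | heq | hlt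
    · obtain ⟨n, hn⟩ := Nat.exists_eq_add_of_lt hlt
      have h : f + g = (X - C a) ^ (rootMultiplicity a f) * (f' + (X - C a) ^ (n + 1) * g') := by
        conv_lhs => rw [h1, h4, hn]
        rw [add_assoc (rootMultiplicity a f), pow_add]; ring
      have he : (f' + (X - C a) ^ (n + 1) * g').eval a = lcAt a f := by simp [h2]
      obtain ⟨h7, h8⟩ := lcAt_uniq a _ _ _ h (by rw [he]; exact h3)
      refine Or.inr (Or.inr (Or.inl ⟨by exact_mod_cast hlt, by exact_mod_cast h7, ?_⟩))
      rw [h8, he]
    · by_cases h0 : lcAt a f + lcAt a g = 0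
      · exact Or.inr (Or.inl ⟨by exact_mod_cast heq, h0⟩)
      · have h : f + g = (X - C a) ^ (rootMultiplicity a f) * (f' + g') := by
          conv_lhs => rw [h1, h4, ← heq]
          ring
        obtain ⟨h7, h8⟩ := lcAt_uniq a _ _ _ h (by rw [eval_add, h2, h5]; exact h0)
        refine Or.inl ⟨by exact_mod_cast heq, by exact_mod_cast h7, ?_⟩
        rw [h8, eval_add, h2, h5]
    · obtain ⟨n, hn⟩ := Nat.exists_eq_add_of_lt hlt
      have h : f + g = (X - C a) ^ (rootMultiplicity a g) * (g' + (X - C a) ^ (n + 1) * f') := by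
        conv_lhs => rw [h1, h4, hn]
        rw [add_assoc (rootMultiplicity a g), pow_add]; ring
      have he : (g' + (X - C a) ^ (n + 1) * f').eval a = lcAt a g := by simp [h5]
      obtain ⟨h7, h8⟩ := lcAt_uniq a _ _ _ h (by rw [he]; exact h6)
      refine Or.inr (Or.inr (Or.inr ⟨by exact_mod_cast hlt, by exact_mod_cast h7, ?_⟩))
      rw [h8, he]
  · intro f hf
    obtain ⟨h1, h2⟩ := lcAt_uniq a f f 0 (by simp) hf
    have h3 : (rootMultiplicity a f : ℤ) = 0 := by exact_mod_cast h1
    exact ⟨h3, h2⟩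
  · intro c b hc hb
    have h : (C c * X + C b : F[X]) = (X - C a) ^ 1 * C c := by
      have : b = -(c * a) := by linear_combination hb
      rw [this, C_neg, C_mul]; ring
    obtain ⟨h1, h2⟩ := lcAt_uniq a _ _ _ h (by simpa using hc)
    have h3 : (rootMultiplicity a (C c * X + C b) : ℤ) = 1 := by exact_mod_cast h1
    have h4 : lcAt a (C c * X + C b) = c := by rw [h2, eval_C]
    exact ⟨h3, h4⟩

theorem exists_placeInf : ∃ v : Place F, ∀ f : F[X], v.m f = -(f.natDegree : ℤ) ∧
    v.r f = f.leadingCoeff := by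
  refine ⟨{ m := fun f => -(f.natDegree : ℤ)
            r := fun f => f.leadingCoeff
            r_ne := fun f hf => leadingCoeff_ne_zero.2 hf
            m_mul := fun f g hf hg => by
              simp only [natDegree_mul hf hg, Nat.cast_add]; ring
            r_mul := fun f g hf hg => leadingCoeff_mul f g
            add := ?_ }, fun f => ⟨rfl, rfl⟩⟩
  intro f g hf hg hfg
  rcases lt_trichotomy f.natDegree g.natDegree with hlt | heq | hlt
  · have h1 : (f + g).natDegree = g.natDegree := natDegree_add_eq_right_of_natDegree_lt hlt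
    have h2 : f.degree < g.degree := degree_lt_degree hlt
    refine Or.inr (Or.inr (Or.inr ⟨?_, ?_, leadingCoeff_add_of_degree_lt h2⟩))
    · simpa using hlt
    · simp only [h1]
  · by_cases h0 : f.leadingCoeff + g.leadingCoeff = 0
    · exact Or.inr (Or.inl ⟨by simp only [heq], h0⟩)
    · have hd : f.degree = g.degree := by
        rw [degree_eq_natDegree hf, degree_eq_natDegree hg, heq]
      have h1 : (f + g).degree = f.degree := by
        rw [degree_add_eq_of_leadingCoeff_add_ne_zero h0, hd, max_self]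
      refine Or.inl ⟨by simp only [heq], ?_, (leadingCoeff_add_of_degree_eq hd h0).symm⟩
      simp only [natDegree_eq_of_degree_eq h1]
  · have h1 : (f + g).natDegree = f.natDegree := natDegree_add_eq_left_of_natDegree_lt hlt
    have h2 : g.degree < f.degree := degree_lt_degree hlt
    refine Or.inr (Or.inr (Or.inl ⟨?_, ?_, ?_⟩))
    · simpa using hlt
    · simp only [h1]
    · exact leadingCoeff_add_of_degree_lt' h2

end Pool.Agent.KM
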