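import Pool.Agent.KM.TDefs
import Pool.Agent.KM.MBasic

/-!
Project KM: the residue of a Milnor functional at a rational place.
-/

set_option autoImplicit false

open Function Polynomial

namespace Pool.Agent.KM

variable {F ι : Type} [Field F] [DecidableEq ι] {T : (ι → F) → ℝ}

lemma t1_anti (hT : IsM T) (x : ι → F) {i j : ι} (hij : i ≠ j) {a b : F} (ha : a ≠ 0)
    (hb : b ≠ 0) : T (update (update x i a) j b) = - T (update (update x i b) j a) := by
  have h0 : ∀ c : F, T (update (update x j c) i c) = 0 := by
    intro c
    refine hT.of_eq _ hij ?_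
    rw [update_self, update_of_ne hij.symm, update_self]
  have h1 : T (update (update x i (a * b)) j (a * b)) = 0 := by
    refine hT.of_eq _ hij ?_
    rw [update_self, update_of_ne hij, update_self]
  rw [hT.mul _ j a b ha hb, update_comm hij, update_comm hij, hT.mul _ i a b ha hb,
    hT.mul _ i a b ha hb, h0, h0] at h1
  rw [update_comm hij, update_comm hij]
  linarith

/-- The properties of the two-slot functionals. -/
structure T1C (C : F → F → ℝ) : Prop where
  eq : ∀ x, x ≠ 0 → C x x = 0
  neg : ∀ x y, C x (-y) = C x y
  anti : ∀ x y, x ≠ 0 → y ≠ 0 → C x y = - C y x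
  merge : ∀ x y, x ≠ 0 → y ≠ 0 → x + y ≠ 0 → C x y = C x (x + y) + C (x + y) y

lemma t1_pair (hT : IsM T) (x : ι → F) {i j : ι} (hij : i ≠ j) :
    T1C (fun a b => T (update (update x i a) j b)) where
  eq := fun a _ => by
    refine hT.of_eq _ hij ?_
    rw [update_self, update_of_ne hij, update_self]
  neg := fun a b => hT.neg _ j b
  anti := fun a b ha hb => t1_anti hT x hij ha hb
  merge := fun a b ha hb hab => by
    have h1 : update (update x i a) j b i = a := by rw [update_of_ne hij, update_self]
    have h2 : update (update x i a) j b j = b := by rw [update_self]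
    have h3 := hT.merge (update (update x i a) j b) hij (by rw [h1]; exact ha)
      (by rw [h2]; exact hb) (by rw [h1, h2]; exact hab)
    rw [h1, h2, update_idem] at h3
    rw [h3]
    congr 2
    rw [update_comm hij.symm, update_idem]

lemma t1_sum {κ : Type} (s : Finset κ) (c : κ → ℝ) (C : κ → F → F → ℝ)
    (h : ∀ l ∈ s, T1C (C l)) : T1C (fun x y => ∑ l ∈ s, c l * C l x y) where
  eq := fun x hx => Finset.sum_eq_zero fun l hl => by rw [(h l hl).eq x hx, mul_zero]
  neg := fun x y => Finset.sum_congr rfl fun l hl => by rw [(h l hl).neg x y]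
  anti := fun x y hx hy => by
    rw [← Finset.sum_neg_distrib]
    refine Finset.sum_congr rfl fun l hl => ?_
    rw [(h l hl).anti x y hx hy, mul_neg]
  merge := fun x y hx hy hxy => by
    rw [← Finset.sum_add_distrib]
    refine Finset.sum_congr rfl fun l hl => ?_
    rw [(h l hl).merge x y hx hy hxy, mul_add]

lemma t1_comb {C D : F → F → ℝ} (hC : T1C C) (hD : T1C D) (c d : ℝ) :
    T1C (fun x y => c * C x y + d * D x y) where
  eq := fun x hx => by rw [hC.eq x hx, hD.eq x hx, mul_zero, mul_zero, add_zero]
  neg := fun x y => by rw [hC.neg x y, hD.neg x y]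
  anti := fun x y hx hy => by
    rw [hC.anti x y hx hy, hD.anti x y hx hy]
    ring
  merge := fun x y hx hy hxy => by
    rw [hC.merge x y hx hy hxy, hD.merge x y hx hy hxy]
    ring

/-- `E` has the shape `a G(y) - b G(x) + C(x,y)`. -/
structure T1E (E : ℤ → F → ℤ → F → ℝ) : Prop where
  ex : ∃ (G : F → ℝ) (C : F → F → ℝ), (∀ x, G (-x) = G x) ∧ T1C C ∧
    ∀ a x b y, x ≠ 0 → y ≠ 0 → E a x b y = a * G y - b * G x + C x y

lemma T1E.eq {E : ℤ → F → ℤ → F → ℝ} (hE : T1E E) (a : ℤ) (x : F) (hx : x ≠ 0) :
    E a x a x = 0 := by
  obtain ⟨G, C, _, hC, h⟩ := hE.ex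
  rw [h a x a x hx hx, hC.eq x hx]
  ring

lemma T1E.merge {E : ℤ → F → ℤ → F → ℝ} (hE : T1E E) (v : Place F) (f h : F[X]) (hf : f ≠ 0)
    (hh : h ≠ 0) (hw : f + h ≠ 0) :
    E (v.m f) (v.r f) (v.m h) (v.r h) = E (v.m f) (v.r f) (v.m (f + h)) (v.r (f + h)) +
      E (v.m (f + h)) (v.r (f + h)) (v.m h) (v.r h) := by
  have hrf := v.r_ne f hf
  have hrh := v.r_ne h hh
  have hrw := v.r_ne _ hw
  rcases v.add f h hf hh hw with h1 | h1 | h1 | h1
  · obtain ⟨h1, h2, h3⟩ := h1
    obtain ⟨G, C, _, hC, he⟩ := hE.ex
    have hne : v.r f + v.r h ≠ 0 := by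
      rw [h3]
      exact hrw
    rw [he _ _ _ _ hrf hrh, he _ _ _ _ hrf hrw, he _ _ _ _ hrw hrh, h2, ← h3, ← h1,
      hC.merge _ _ hrf hrh hne]
    ring
  · obtain ⟨h1, h2⟩ := h1
    obtain ⟨G, C, hG, hC, he⟩ := hE.ex
    have h3 : v.r h = - v.r f := (neg_eq_of_add_eq_zero_right h2).symm
    have h4 : C (v.r f) (v.r f) = 0 := hC.eq _ hrf
    have h5 := hC.anti _ _ hrf hrw
    rw [he _ _ _ _ hrf hrh, he _ _ _ _ hrf hrw, he _ _ _ _ hrw hrh, h3, hG, hC.neg, hC.neg, h4,
      ← h1, h5]
    ring
  · obtain ⟨_, h2, h3⟩ := h1
    rw [h2, h3, hE.eq _ _ hrf, zero_add]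
  · obtain ⟨_, h2, h3⟩ := h1
    rw [h2, h3, hE.eq _ _ hrh, add_zero]

variable [Fintype ι]

/-- The residue in terms of the orders `μ` and the leading coefficients `ρ`. -/
def t1D (T : (ι → F) → ℝ) (μ : Option ι → ℤ) (ρ : Option ι → F) : ℝ :=
  (μ none : ℝ) * T (fun i => ρ (some i)) -
    ∑ i, (μ (some i) : ℝ) * T (update (fun j => ρ (some j)) i (ρ none))

lemma t1_DD (v : Place F) (g : Option ι → F[X]) :
    DD v T g = t1D T (fun o => v.m (g o)) (fun o => v.r (g o)) := rfl

lemma t1_DD_update (v : Place F) (g : Option ι → F[X]) (o : Option ι) (a : F[X]) :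
    DD v T (update g o a) =
      t1D T (update (fun o => v.m (g o)) o (v.m a)) (update (fun o => v.r (g o)) o (v.r a)) := by
  rw [t1_DD]
  congr 1
  · funext o'
    by_cases h : o' = o
    · subst h
      rw [update_self, update_self]
    · rw [update_of_ne h, update_of_ne h]
  · funext o'
    by_cases h : o' = o
    · subst h
      rw [update_self, update_self]
    · rw [update_of_ne h, update_of_ne h]

lemma t1_some_none (ρ : Option ι → F) (x : F) :
    (fun i => update ρ none x (some i)) = fun i => ρ (some i) := by
  funext i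
  rw [update_of_ne (Option.some_ne_none i)]

lemma t1_some_some (ρ : Option ι → F) (j : ι) (y : F) :
    (fun i => update ρ (some j) y (some i)) = update (fun i => ρ (some i)) j y := by
  funext i
  by_cases h : i = j
  · subst h
    rw [update_self, update_self]
  · rw [update_of_ne h, update_of_ne (fun h' => h (Option.some.inj h'))]

/-- the two slots `none`, `some j` -/
lemma t1_E_none (hT : IsM T) (μ : Option ι → ℤ) (ρ : Option ι → F) (j : ι) :
    T1E (fun a x b y => t1D T (update (update μ none a) (some j) b)
      (update (update ρ none x) (some j) y)) := by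
  refine ⟨fun x => T (update (fun i => ρ (some i)) j x),
    fun x y => ∑ i ∈ Finset.univ.erase j, (-(μ (some i) : ℝ)) *
      T (update (update (fun i => ρ (some i)) j y) i x), fun x => hT.neg _ j x, ?_, ?_⟩
  · refine t1_sum _ _ (fun i x y => T (update (update (fun i => ρ (some i)) j y) i x)) ?_
    intro i hi
    have hij : i ≠ j := Finset.ne_of_mem_erase hi
    have h1 := t1_pair hT (fun i => ρ (some i)) hij
    have h2 : (fun x y => T (update (update (fun i => ρ (some i)) j y) i x)) =
        fun x y => T (update (update (fun i => ρ (some i)) i x) j y) := by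
      funext x y
      rw [update_comm hij.symm]
    rw [h2]
    exact h1
  · intro a x b y _ _
    unfold t1D
    have e1 : update (update ρ none x) (some j) y none = x := by
      rw [update_of_ne (Option.some_ne_none j).symm, update_self]
    have e2 : update (update μ none a) (some j) b none = a := by
      rw [update_of_ne (Option.some_ne_none j).symm, update_self]
    rw [t1_some_some, t1_some_none, e1, e2, ← Finset.add_sum_erase _ _ (Finset.mem_univ j),
      update_self, update_idem]
    have e3 : ∑ i ∈ Finset.univ.erase j, ((update (update μ none a) (some j) b (some i) : ℤ) : ℝ) *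
          T (update (update (fun i => ρ (some i)) j y) i x) =
        ∑ i ∈ Finset.univ.erase j, (μ (some i) : ℝ) *
          T (update (update (fun i => ρ (some i)) j y) i x) := by
      refine Finset.sum_congr rfl fun i hi => ?_
      have hij : i ≠ j := Finset.ne_of_mem_erase hi
      rw [update_of_ne (fun h => hij (Option.some.inj h)),
        update_of_ne (Option.some_ne_none i)]
    rw [e3]
    simp only [neg_mul, Finset.sum_neg_distrib]
    ring

/-- the two slots `some i`, `some j` -/
lemma t1_E_some (hT : IsM T) (μ : Option ι → ℤ) (ρ : Option ι → F) (h0 : ρ none ≠ 0)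
    {i j : ι} (hij : i ≠ j) :
    T1E (fun a x b y => t1D T (update (update μ (some i) a) (some j) b)
      (update (update ρ (some i) x) (some j) y)) := by
  set R : ι → F := fun i => ρ (some i) with hR
  refine ⟨fun x => - T (update (update R i (ρ none)) j x),
    fun x y => (μ none : ℝ) * T (update (update R i x) j y) +
      1 * ∑ l ∈ (Finset.univ.erase i).erase j, (-(μ (some l) : ℝ)) *
        T (update (update (update R l (ρ none)) i x) j y),
    fun x => congrArg Neg.neg (hT.neg _ j x), ?_, ?_⟩
  · refine t1_comb (t1_pair hT R hij) (t1_sum _ _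
      (fun l x y => T (update (update (update R l (ρ none)) i x) j y)) fun l _ =>
        t1_pair hT _ hij) _ _
  · intro a x b y hx hy
    unfold t1D
    have e1 : update (update ρ (some i) x) (some j) y none = ρ none := by
      rw [update_of_ne (Option.some_ne_none j).symm, update_of_ne (Option.some_ne_none i).symm]
    have e2 : update (update μ (some i) a) (some j) b none = μ none := by
      rw [update_of_ne (Option.some_ne_none j).symm, update_of_ne (Option.some_ne_none i).symm]
    have e4 : update (update μ (some i) a) (some j) b (some i) = a := by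
      rw [update_of_ne (fun h => hij (Option.some.inj h)), update_self]
    have e5 : update (update μ (some i) a) (some j) b (some j) = b := by
      rw [update_self]
    have hji : j ∈ Finset.univ.erase i := Finset.mem_erase.2 ⟨hij.symm, Finset.mem_univ j⟩
    rw [t1_some_some, t1_some_some, e1, e2, ← Finset.add_sum_erase _ _ (Finset.mem_univ i),
      ← Finset.add_sum_erase _ _ hji, e4, e5, update_idem]
    have e6 : update (update (update R i x) j y) i (ρ none) = update (update R i (ρ none)) j y := by
      rw [update_comm hij.symm, update_idem]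
    have e7 := t1_anti hT R hij hx h0
    have e3 : ∑ l ∈ (Finset.univ.erase i).erase j,
          ((update (update μ (some i) a) (some j) b (some l) : ℤ) : ℝ) *
            T (update (update (update R i x) j y) l (ρ none)) =
        ∑ l ∈ (Finset.univ.erase i).erase j, (μ (some l) : ℝ) *
          T (update (update (update R l (ρ none)) i x) j y) := by
      refine Finset.sum_congr rfl fun l hl => ?_
      have hlj : l ≠ j := Finset.ne_of_mem_erase hl
      have hli : l ≠ i := Finset.ne_of_mem_erase (Finset.mem_of_mem_erase hl)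
      rw [update_of_ne (fun h => hlj (Option.some.inj h)),
        update_of_ne (fun h => hli (Option.some.inj h)), update_comm hlj.symm,
        update_comm hli.symm]
    rw [e3, e6, e7]
    simp only [neg_mul, Finset.sum_neg_distrib]
    ring

lemma t1_two (μ : Option ι → ℤ) (ρ : Option ι → F) {o o' : Option ι} (ho : o ≠ o') :
    t1D T μ ρ = t1D T (update (update μ o (μ o)) o' (μ o')) (update (update ρ o (ρ o)) o' (ρ o')) ∧
    (∀ c z, t1D T (update μ o' c) (update ρ o' z) =
      t1D T (update (update μ o (μ o)) o' c) (update (update ρ o (ρ o)) o' z)) ∧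
    ∀ c z, t1D T (update μ o c) (update ρ o z) =
      t1D T (update (update μ o c) o' (μ o')) (update (update ρ o z) o' (ρ o')) := by
  refine ⟨?_, fun c z => ?_, fun c z => ?_⟩
  · rw [update_eq_self, update_eq_self, update_eq_self, update_eq_self]
  · rw [update_eq_self, update_eq_self]
  · rw [update_comm ho, update_comm ho, update_eq_self, update_eq_self]

theorem DD_mul (hT : IsM T) (v : Place F) (g : Option ι → F[X]) (hg : ∀ o, g o ≠ 0)
    (o : Option ι) (a b : F[X]) (ha : a ≠ 0) (hb : b ≠ 0) :
    DD v T (update g o (a * b)) = DD v T (update g o a) + DD v T (update g o b) := by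
  have hra := v.r_ne a ha
  have hrb := v.r_ne b hb
  rw [t1_DD_update, t1_DD_update, t1_DD_update, v.m_mul a b ha hb, v.r_mul a b ha hb]
  unfold t1D
  cases o with
  | none =>
    simp only [update_self, t1_some_none]
    have e : ∀ c : ℤ, ∀ i : ι, update (fun o => v.m (g o)) none c (some i) = v.m (g (some i)) :=
      fun c i => update_of_ne (Option.some_ne_none i) _ _
    simp only [e, hT.mul _ _ _ _ hra hrb, mul_add, Finset.sum_add_distrib]
    push_cast
    ring
  | some j =>
    have e0 : ∀ c : ℤ, update (fun o => v.m (g o)) (some j) c none = v.m (g none) :=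
      fun c => update_of_ne (Option.some_ne_none j).symm _ _
    have e1 : ∀ c : F, update (fun o => v.r (g o)) (some j) c none = v.r (g none) :=
      fun c => update_of_ne (Option.some_ne_none j).symm _ _
    simp only [t1_some_some, e0, e1]
    rw [← Finset.add_sum_erase _ _ (Finset.mem_univ j), ← Finset.add_sum_erase _ _
      (Finset.mem_univ j), ← Finset.add_sum_erase _ _ (Finset.mem_univ j)]
    simp only [update_self, update_idem]
    have e2 : ∀ (c : ℤ) (z : F), ∑ i ∈ Finset.univ.erase j,
        ((update (fun o => v.m (g o)) (some j) c (some i) : ℤ) : ℝ) *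
          T (update (update (fun i => v.r (g (some i))) j z) i (v.r (g none))) =
        ∑ i ∈ Finset.univ.erase j, (v.m (g (some i)) : ℝ) *
          T (update (update (fun i => v.r (g (some i))) i (v.r (g none))) j z) := by
      intro c z
      refine Finset.sum_congr rfl fun i hi => ?_
      have hij : i ≠ j := Finset.ne_of_mem_erase hi
      rw [update_of_ne (fun h => hij (Option.some.inj h)), update_comm hij.symm]
    rw [e2, e2, e2, hT.mul _ _ _ _ hra hrb]
    simp only [hT.mul _ _ _ _ hra hrb, mul_add, Finset.sum_add_distrib]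
    push_cast
    ring

/-- the two-slot shape for all pairs of slots which are not of the form `(some j, none)` -/
lemma t1_E (hT : IsM T) (v : Place F) (g : Option ι → F[X]) (hg : ∀ o, g o ≠ 0)
    {o o' : Option ι} (ho : o ≠ o') (hn : o' ≠ none) :
    T1E (fun a x b y => t1D T (update (update (fun o => v.m (g o)) o a) o' b)
      (update (update (fun o => v.r (g o)) o x) o' y)) := by
  cases o' with
  | none => exact absurd rfl hn
  | some j =>
    cases o with
    | none => exact t1_E_none hT _ _ j
    | some i => exact t1_E_some hT _ _ (v.r_ne _ (hg none)) fun h => ho (congrArg some h)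

theorem DD_eq (hT : IsM T) (v : Place F) (g : Option ι → F[X]) (hg : ∀ o, g o ≠ 0)
    {o o' : Option ι} (ho : o ≠ o') (h : g o = g o') : DD v T g = 0 := by
  have key : ∀ o o' : Option ι, o ≠ o' → g o = g o' → o' ≠ none → DD v T g = 0 := by
    intro o o' ho h hn
    rw [t1_DD, (t1_two (T := T) (fun o => v.m (g o)) (fun o => v.r (g o)) ho).1]
    have h1 := (t1_E hT v g hg ho hn).eq (v.m (g o)) (v.r (g o)) (v.r_ne _ (hg o))
    rw [← h]
    exact h1
  by_cases hn : o' = none
  · exact key o' o ho.symm h.symm fun h' => ho (h'.trans hn.symm)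
  · exact key o o' ho h hn

theorem DD_merge (hT : IsM T) (v : Place F) (g : Option ι → F[X]) (hg : ∀ o, g o ≠ 0)
    {o o' : Option ι} (ho : o ≠ o') (h : g o + g o' ≠ 0) :
    DD v T g = DD v T (update g o' (g o + g o')) + DD v T (update g o (g o + g o')) := by
  have key : ∀ o o' : Option ι, o ≠ o' → g o + g o' ≠ 0 → o' ≠ none →
      DD v T g = DD v T (update g o' (g o + g o')) + DD v T (update g o (g o + g o')) := by
    intro o o' ho h hn
    have h2 := t1_two (T := T) (fun o => v.m (g o)) (fun o => v.r (g o)) ho
    rw [t1_DD_update, t1_DD_update, h2.2.1, h2.2.2, t1_DD, h2.1]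
    exact (t1_E hT v g hg ho hn).merge v (g o) (g o') (hg o) (hg o') h
  by_cases hn : o' = none
  · have h1 := key o' o ho.symm (by rw [add_comm]; exact h) fun h' => ho (h'.trans hn.symm)
    rw [add_comm (g o') (g o)] at h1
    rw [h1, add_comm]
  · exact key o o' ho h hn

end Pool.Agent.KM
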