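import Pool.Agent.KM.TDefs
import Pool.Agent.KM.TPlaces
import Pool.Agent.KM.TResidue

/-!
Project KM (MP_27fd67_ag), row KM-T3: the sum over all rational places of the projective line,
reciprocity (helper48).
-/

set_option autoImplicit false
set_option linter.all false

open Function Polynomial

namespace Pool.Agent.KM

section
variable {F ι : Type} [Field F] [Fintype ι] [DecidableEq ι] {T : (ι → F) → ℝ}

/-- the residue vanishes if all orders vanish -/
theorem DD_of_m_zero (v : Place F) (T : (ι → F) → ℝ) (g : Option ι → F[X])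
    (h : ∀ o, v.m (g o) = 0) : DD v T g = 0 := by
  unfold DD
  rw [h none, Finset.sum_eq_zero]
  · simp
  · intro i _
    rw [h (some i)]
    simp

/-- places with the same leading coefficients and opposite orders have opposite residues -/
theorem DD_opp (v w : Place F) (T : (ι → F) → ℝ) (g : Option ι → F[X])
    (hm : ∀ o, w.m (g o) = - v.m (g o)) (hr : ∀ o, w.r (g o) = v.r (g o)) :
    DD v T g + DD w T g = 0 := by
  unfold DD
  simp only [hm, hr]
  push_cast
  simp only [neg_mul, Finset.sum_neg_distrib]
  ring

/-- the chosen place at the point `a` -/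
noncomputable def vAt (a : F) : Place F := (exists_placeAt a).choose

/-- the chosen place at infinity -/
noncomputable def vInf (F : Type) [Field F] : Place F := (exists_placeInf (F := F)).choose

theorem vAt_m (a : F) (f : F[X]) : (vAt a).m f = (Polynomial.rootMultiplicity a f : ℤ) :=
  (exists_placeAt a).choose_spec.1 f

theorem vAt_eval (a : F) (f : F[X]) (h : f.eval a ≠ 0) :
    (vAt a).m f = 0 ∧ (vAt a).r f = f.eval a :=
  (exists_placeAt a).choose_spec.2.1 f h

theorem vAt_lin (a c b : F) (hc : c ≠ 0) (h : c * a + b = 0) :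
    (vAt a).m (C c * X + C b) = 1 ∧ (vAt a).r (C c * X + C b) = c :=
  (exists_placeAt a).choose_spec.2.2 c b hc h

theorem vInf_m (f : F[X]) : (vInf F).m f = -(f.natDegree : ℤ) :=
  ((exists_placeInf (F := F)).choose_spec f).1

theorem vInf_r (f : F[X]) : (vInf F).r f = f.leadingCoeff :=
  ((exists_placeInf (F := F)).choose_spec f).2

/-- the sum of all residues -/
noncomputable def SS (T : (ι → F) → ℝ) (g : Option ι → F[X]) : ℝ :=
  (∑ᶠ a : F, DD (vAt a) T g) + DD (vInf F) T g

theorem supp_fin (T : (ι → F) → ℝ) (g : Option ι → F[X]) (hg : ∀ o, g o ≠ 0) :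
    (support (fun a : F => DD (vAt a) T g)).Finite := by
  classical
  apply Set.Finite.subset (Finset.finite_toSet
    ((Finset.univ : Finset (Option ι)).biUnion (fun o => (g o).roots.toFinset)))
  intro a ha
  rw [mem_support] at ha
  by_contra hn
  apply ha
  apply DD_of_m_zero
  intro o
  apply (vAt_eval a (g o) _).1
  intro h0
  apply hn
  rw [Finset.mem_coe, Finset.mem_biUnion]
  exact ⟨o, Finset.mem_univ _, by rw [Multiset.mem_toFinset, mem_roots (hg o)]; exact h0⟩

theorem upd_ne {g : Option ι → F[X]} (hg : ∀ o, g o ≠ 0) (o : Option ι) {a : F[X]} (ha : a ≠ 0) :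
    ∀ o', update g o a o' ≠ 0 := by
  intro o'
  by_cases h : o' = o
  · rw [h, update_self]; exact ha
  · rw [update_of_ne h]; exact hg o'

theorem SS_mul (hT : IsM T) (g : Option ι → F[X]) (hg : ∀ o, g o ≠ 0) (o : Option ι)
    (a b : F[X]) (ha : a ≠ 0) (hb : b ≠ 0) :
    SS T (update g o (a * b)) = SS T (update g o a) + SS T (update g o b) := by
  unfold SS
  rw [DD_mul hT _ g hg o a b ha hb]
  have h1 : (fun x : F => DD (vAt x) T (update g o (a * b))) =
      fun x => DD (vAt x) T (update g o a) + DD (vAt x) T (update g o b) :=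
    funext fun x => DD_mul hT _ g hg o a b ha hb
  rw [h1, finsum_add_distrib (supp_fin T _ (upd_ne hg o ha)) (supp_fin T _ (upd_ne hg o hb))]
  ring

theorem SS_eq (hT : IsM T) (g : Option ι → F[X]) (hg : ∀ o, g o ≠ 0)
    {o o' : Option ι} (ho : o ≠ o') (h : g o = g o') : SS T g = 0 := by
  unfold SS
  rw [DD_eq hT _ g hg ho h]
  have h1 : (fun x : F => DD (vAt x) T g) = fun x => 0 :=
    funext fun x => DD_eq hT _ g hg ho h
  rw [h1, finsum_zero, add_zero]

theorem SS_merge (hT : IsM T) (g : Option ι → F[X]) (hg : ∀ o, g o ≠ 0)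
    {o o' : Option ι} (ho : o ≠ o') (h : g o + g o' ≠ 0) :
    SS T g = SS T (update g o' (g o + g o')) + SS T (update g o (g o + g o')) := by
  unfold SS
  rw [DD_merge hT _ g hg ho h]
  have h1 : (fun x : F => DD (vAt x) T g) =
      fun x => DD (vAt x) T (update g o' (g o + g o')) + DD (vAt x) T (update g o (g o + g o')) :=
    funext fun x => DD_merge hT _ g hg ho h
  rw [h1, finsum_add_distrib (supp_fin T _ (upd_ne hg o' h)) (supp_fin T _ (upd_ne hg o h))]
  ring

/-- no entry of positive degree -/
theorem SS_const (T : (ι → F) → ℝ) (g : Option ι → F[X]) (hg : ∀ o, g o ≠ 0)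
    (hd : ∀ o, (g o).natDegree = 0) : SS T g = 0 := by
  unfold SS
  have h1 : (fun x : F => DD (vAt x) T g) = fun x => 0 := by
    funext x
    apply DD_of_m_zero
    intro o
    apply (vAt_eval x (g o) _).1
    rw [eq_C_of_natDegree_eq_zero (hd o), eval_C]
    intro h0
    apply hg o
    rw [eq_C_of_natDegree_eq_zero (hd o), h0, C_0]
  rw [h1, finsum_zero, zero_add]
  apply DD_of_m_zero
  intro o
  rw [vInf_m, hd o]
  simp

/-- one entry of degree one -/
theorem SS_one (T : (ι → F) → ℝ) (g : Option ι → F[X]) (hg : ∀ o, g o ≠ 0) (o₁ : Option ι)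
    (h1 : (g o₁).natDegree = 1) (hd : ∀ o, o ≠ o₁ → (g o).natDegree = 0) : SS T g = 0 := by
  obtain ⟨c, hc, b, hcb⟩ := natDegree_eq_one.1 h1
  have hconst : ∀ o, o ≠ o₁ → ∃ e : F, e ≠ 0 ∧ g o = C e := by
    intro o ho
    refine ⟨(g o).coeff 0, ?_, eq_C_of_natDegree_eq_zero (hd o ho)⟩
    intro h0
    apply hg o
    rw [eq_C_of_natDegree_eq_zero (hd o ho), h0, C_0]
  have hev : ∀ a : F, c * a + b ≠ 0 → DD (vAt a) T g = 0 := by
    intro a ha
    apply DD_of_m_zero
    intro o
    apply (vAt_eval a (g o) _).1
    by_cases ho : o = o₁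
    · rw [ho, ← hcb]; simpa using ha
    · obtain ⟨e, he, h⟩ := hconst o ho
      rw [h, eval_C]; exact he
  have hroot : c * (-b / c) + b = 0 := by field_simp; ring
  unfold SS
  rw [finsum_eq_single (fun a : F => DD (vAt a) T g) (-b / c)]
  · apply DD_opp
    · intro o
      by_cases ho : o = o₁
      · rw [ho, vInf_m, h1, ← hcb, (vAt_lin _ c b hc hroot).1]
        norm_num
      · obtain ⟨e, he, h⟩ := hconst o ho
        rw [h, vInf_m, natDegree_C, (vAt_eval _ (C e) (by rw [eval_C]; exact he)).1]
        norm_num
    · intro o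
      by_cases ho : o = o₁
      · rw [ho, vInf_r, ← hcb, (vAt_lin _ c b hc hroot).2, leadingCoeff_linear hc]
      · obtain ⟨e, he, h⟩ := hconst o ho
        rw [h, vInf_r, leadingCoeff_C, (vAt_eval _ (C e) (by rw [eval_C]; exact he)).2, eval_C]
  · intro a ha
    apply hev
    intro h0
    apply ha
    rw [eq_div_iff hc]
    linear_combination h0

theorem SS_deg_le_one (hT : IsM T) : ∀ (k : ℕ) (g : Option ι → F[X]), (∀ o, g o ≠ 0) →
    (∀ o, (g o).natDegree ≤ 1) →
    (Finset.univ.filter (fun o => (g o).natDegree = 1)).card ≤ k → SS T g = 0 := by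
  intro k
  induction k with
  | zero =>
    intro g hg hd hk
    apply SS_const T g hg
    intro o
    by_contra hne
    have h1 : (g o).natDegree = 1 := by have := hd o; omega
    have h2 : o ∈ Finset.univ.filter (fun o => (g o).natDegree = 1) :=
      Finset.mem_filter.2 ⟨Finset.mem_univ _, h1⟩
    have h3 := Finset.card_pos.2 ⟨o, h2⟩
    omega
  | succ k ih =>
    intro g hg hd hk
    -- replacing an entry of degree one by a constant
    have red : ∀ (g' : Option ι → F[X]) (o : Option ι) (w : F[X]), (∀ o, g' o ≠ 0) →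
        (∀ o, (g' o).natDegree ≤ 1) →
        (Finset.univ.filter (fun o => (g' o).natDegree = 1)).card ≤ k + 1 →
        (g' o).natDegree = 1 → w ≠ 0 → w.natDegree = 0 → SS T (update g' o w) = 0 := by
      intro g' o w hg' hd' hk' ho hw hw0
      apply ih _ (upd_ne hg' o hw)
      · intro o'
        by_cases h : o' = o
        · rw [h, update_self, hw0]; omega
        · rw [update_of_ne h]; exact hd' o'
      · have hsub : Finset.univ.filter (fun o' => (update g' o w o').natDegree = 1) ⊆
            (Finset.univ.filter (fun o' => (g' o').natDegree = 1)).erase o := by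
          intro o' ho'
          rw [Finset.mem_filter] at ho'
          rw [Finset.mem_erase, Finset.mem_filter]
          by_cases h : o' = o
          · rw [h, update_self, hw0] at ho'
            omega
          · rw [update_of_ne h] at ho'
            exact ⟨h, Finset.mem_univ _, ho'.2⟩
        have h2 := Finset.card_le_card hsub
        have h3 : o ∈ Finset.univ.filter (fun o' => (g' o').natDegree = 1) :=
          Finset.mem_filter.2 ⟨Finset.mem_univ _, ho⟩
        rw [Finset.card_erase_of_mem h3] at h2
        omega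
    by_cases hex : ∃ o₁ o₂ : Option ι, o₁ ≠ o₂ ∧ (g o₁).natDegree = 1 ∧ (g o₂).natDegree = 1
    · obtain ⟨o₁, o₂, hne, h1, h2⟩ := hex
      obtain ⟨e, he, c, hf⟩ := natDegree_eq_one.1 h1
      obtain ⟨e', he', c', hh⟩ := natDegree_eq_one.1 h2
      by_cases hp : e' * c = e * c'
      · -- proportional
        have e1 : g o₁ = C (e / e') * g o₂ := by
          rw [← hf, ← hh]
          have h3 : e / e' * c' = c := by field_simp; linear_combination -hp
          have h4 : e / e' * e' = e := by field_simp
          rw [mul_add, ← mul_assoc, ← C_mul, ← C_mul, h3, h4]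
        have hce : (C (e / e') : F[X]) ≠ 0 := C_ne_zero.2 (div_ne_zero he he')
        have e2 : SS T (update g o₁ (C (e / e') * g o₂)) = SS T g := by rw [← e1, update_eq_self]
        rw [← e2, SS_mul hT g hg o₁ _ _ hce (hg o₂),
          red g o₁ _ hg hd hk h1 hce (natDegree_C _), zero_add]
        apply SS_eq hT _ (upd_ne hg o₁ (hg o₂)) hne
        rw [update_self, update_of_ne hne.symm]
      · -- independent
        have hw : C e' * g o₁ + C (-e) * g o₂ = C (e' * c - e * c') := by
          rw [← hf, ← hh]
          simp only [C_sub, C_mul, C_neg]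
          ring
        have hw0 : (C (e' * c - e * c') : F[X]) ≠ 0 := C_ne_zero.2 (sub_ne_zero.2 hp)
        have hCe' : (C e' : F[X]) ≠ 0 := C_ne_zero.2 he'
        have hCe : (C (-e) : F[X]) ≠ 0 := C_ne_zero.2 (neg_ne_zero.2 he)
        have hA : C e' * g o₁ ≠ 0 := mul_ne_zero hCe' (hg o₁)
        have hB : C (-e) * g o₂ ≠ 0 := mul_ne_zero hCe (hg o₂)
        have hAd : (C e' * g o₁).natDegree = 1 := by rw [natDegree_C_mul he', h1]
        have hBd : (C (-e) * g o₂).natDegree = 1 := by
          rw [natDegree_C_mul (neg_ne_zero.2 he), h2]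
        -- degree bookkeeping for one update by a polynomial of degree one at a place of degree one
        have keep : ∀ (g' : Option ι → F[X]) (o : Option ι) (w : F[X]), (g' o).natDegree = 1 →
            w.natDegree = 1 → ∀ o', (update g' o w o').natDegree = (g' o').natDegree := by
          intro g' o w h3 h4 o'
          by_cases h : o' = o
          · rw [h, update_self, h3, h4]
          · rw [update_of_ne h]
        have hg1 := upd_ne hg o₁ hA
        have k1 := keep g o₁ _ h1 hAd
        have hd1 : ∀ o, (update g o₁ (C e' * g o₁) o).natDegree ≤ 1 := fun o => by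
          rw [k1 o]; exact hd o
        have hk1 : (Finset.univ.filter
            (fun o => (update g o₁ (C e' * g o₁) o).natDegree = 1)).card ≤ k + 1 := by
          simp only [k1]; exact hk
        have h21 : (update g o₁ (C e' * g o₁) o₂).natDegree = 1 := by rw [k1 o₂]; exact h2
        have hg2 := upd_ne hg1 o₂ hB
        have k2 := keep (update g o₁ (C e' * g o₁)) o₂ _ h21 hBd
        have hd2 : ∀ o, (update (update g o₁ (C e' * g o₁)) o₂ (C (-e) * g o₂) o).natDegree ≤ 1 :=
          fun o => by rw [k2 o]; exact hd1 o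
        have hk2 : (Finset.univ.filter (fun o =>
            (update (update g o₁ (C e' * g o₁)) o₂ (C (-e) * g o₂) o).natDegree = 1)).card
              ≤ k + 1 := by
          simp only [k2]; exact hk1
        have v1 : update (update g o₁ (C e' * g o₁)) o₂ (C (-e) * g o₂) o₁ = C e' * g o₁ := by
          rw [update_of_ne hne, update_self]
        have v2 : update (update g o₁ (C e' * g o₁)) o₂ (C (-e) * g o₂) o₂ = C (-e) * g o₂ := by
          rw [update_self]
        have hS : SS T (update (update g o₁ (C e' * g o₁)) o₂ (C (-e) * g o₂)) = 0 := by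
          rw [SS_merge hT _ hg2 hne (by rw [v1, v2, hw]; exact hw0), v1, v2, hw,
            red _ o₂ _ hg2 hd2 hk2 (by rw [v2]; exact hBd) hw0 (natDegree_C _),
            red _ o₁ _ hg2 hd2 hk2 (by rw [v1]; exact hAd) hw0 (natDegree_C _), add_zero]
        rw [SS_mul hT _ hg1 o₂ _ _ hCe (hg o₂),
          red _ o₂ _ hg1 hd1 hk1 h21 hCe (natDegree_C _), zero_add] at hS
        have e3 : update (update g o₁ (C e' * g o₁)) o₂ (g o₂) = update g o₁ (C e' * g o₁) :=
          update_eq_self_iff.2 (by rw [update_of_ne hne.symm])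
        rw [e3, SS_mul hT g hg o₁ _ _ hCe' (hg o₁), red g o₁ _ hg hd hk h1 hCe' (natDegree_C _),
          zero_add, update_eq_self] at hS
        exact hS
    · by_cases hex1 : ∃ o₁, (g o₁).natDegree = 1
      · obtain ⟨o₁, h1⟩ := hex1
        apply SS_one T g hg o₁ h1
        intro o ho
        by_contra hne
        have h2 : (g o).natDegree = 1 := by have := hd o; omega
        exact hex ⟨o₁, o, fun h => ho h.symm, h1, h2⟩
      · apply SS_const T g hg
        intro o
        by_contra hne
        exact hex1 ⟨o, by have := hd o; omega⟩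

/-- A polynomial Milnor functional on `n+1` entries which is zero on tuples of polynomials of
degree at most one (reciprocity), and which is `T` on constants at `x`, and an irreducible
quadratic polynomial in the slot `none`. -/
theorem exists_recip (hT : IsM T) : ∃ S : (Option ι → F[X]) → ℝ,
    (∀ (g : Option ι → F[X]) (_ : ∀ o, g o ≠ 0) (o : Option ι) (a b : F[X]), a ≠ 0 → b ≠ 0 →
      S (update g o (a * b)) = S (update g o a) + S (update g o b)) ∧
    (∀ (g : Option ι → F[X]) (_ : ∀ o, g o ≠ 0) (o o' : Option ι), o ≠ o' → g o + g o' ≠ 0 →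
      S g = S (update g o' (g o + g o')) + S (update g o (g o + g o'))) ∧
    (∀ (g : Option ι → F[X]), (∀ o, g o ≠ 0) → (∀ o, (g o).natDegree ≤ 1) → S g = 0) ∧
    (∀ (x : ι → F) (π : F[X]), (∀ i, x i ≠ 0) → π.natDegree = 2 → (∀ a, π.eval a ≠ 0) →
      π.Monic → S (fun o => o.elim π (fun i => C (x i))) = -2 * T x) := by
  refine ⟨SS T, fun g hg o a b ha hb => SS_mul hT g hg o a b ha hb,
    fun g hg o o' ho h => SS_merge hT g hg ho h,
    fun g hg hd => SS_deg_le_one hT _ g hg hd le_rfl, ?_⟩
  intro x π hx hπ hroot hm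
  unfold SS
  have h1 : (fun a : F => DD (vAt a) T (fun o => o.elim π (fun i => C (x i)))) = fun _ => 0 := by
    funext a
    apply DD_of_m_zero
    intro o
    cases o with
    | none => exact (vAt_eval a π (hroot a)).1
    | some i => exact (vAt_eval a (C (x i)) (by rw [eval_C]; exact hx i)).1
  rw [h1, finsum_zero, zero_add]
  unfold DD
  simp only [Option.elim_none, Option.elim_some, vInf_m, vInf_r, natDegree_C, hπ,
    leadingCoeff_C, hm.leadingCoeff]
  simp

end

end Pool.Agent.KM
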