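import Pool.Agent.KM.TDefs
import Pool.Agent.KM.TRecip

/-!
Project KM (MP_27fd67_ag), row KM-T4: transfer of Milnor functionals to quadratic extensions
(helper36).
-/

set_option autoImplicit false
set_option linter.all false

open Function Polynomial

namespace Pool.Agent.KM

section quad
variable {F L ι : Type} [Field F] [Field L] [Algebra F L] [Fintype ι] [DecidableEq ι]

/-- a polynomial of degree at most one which vanishes at `θ` is zero -/
theorem lin_eq_zero (π : F[X]) (hroot : ∀ a, π.eval a ≠ 0) (θ : L)
    (hθ : aeval θ π = 0) (q : F[X]) (hq : q.natDegree ≤ 1) (h : aeval θ q = 0) : q = 0 := by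
  have hq2 := eq_X_add_C_of_natDegree_le_one hq
  by_cases he : q.coeff 1 = 0
  · rw [he] at hq2
    simp only [map_zero, zero_mul, zero_add] at hq2
    rw [hq2] at h
    rw [aeval_C] at h
    have : q.coeff 0 = 0 := by
      have := (map_eq_zero (algebraMap F L)).mp h
      exact this
    rw [hq2, this, map_zero]
  · exfalso
    rw [hq2] at h
    simp only [map_add, map_mul, aeval_C, aeval_X] at h
    have he' : algebraMap F L (q.coeff 1) ≠ 0 := by
      intro h'
      exact he ((map_eq_zero (algebraMap F L)).mp h')
    have hθ' : θ = algebraMap F L (-(q.coeff 0) / q.coeff 1) := by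
      rw [map_div₀, map_neg, eq_div_iff he']
      linear_combination h
    rw [hθ', aeval_algebraMap_apply, coe_aeval_eq_eval] at hθ
    exact hroot _ ((map_eq_zero (algebraMap F L)).mp hθ)

/-- two polynomials of degree at most one with the same value at `θ` agree -/
theorem lin_unique (π : F[X]) (hroot : ∀ a, π.eval a ≠ 0) (θ : L)
    (hθ : aeval θ π = 0) (q q' : F[X]) (hq : q.natDegree ≤ 1) (hq' : q'.natDegree ≤ 1)
    (h : aeval θ q = aeval θ q') : q = q' := by
  have := lin_eq_zero π hroot θ hθ (q - q')
    ((natDegree_sub_le _ _).trans (max_le hq hq')) (by rw [map_sub, h, sub_self])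
  exact sub_eq_zero.mp this

/-- the product of two linear polynomials, reduced modulo the quadratic polynomial -/
theorem lin_mul (π : F[X]) (hπ : π.natDegree = 2) (hm : π.Monic) (q q' : F[X])
    (hq : q.natDegree ≤ 1) (hq' : q'.natDegree ≤ 1) :
    ∃ (c : F) (s : F[X]), s.natDegree ≤ 1 ∧ q * q' = s + C c * π := by
  refine ⟨(q * q').coeff 2, q * q' - C ((q * q').coeff 2) * π, ?_, by ring⟩
  rw [natDegree_le_iff_coeff_eq_zero]
  intro N hN
  rw [coeff_sub, coeff_C_mul]
  rcases Nat.lt_or_ge 2 N with h | h
  · have h1 : (q * q').natDegree < N := by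
      have := natDegree_mul_le (p := q) (q := q')
      omega
    rw [coeff_eq_zero_of_natDegree_lt h1, coeff_eq_zero_of_natDegree_lt (by omega : π.natDegree < N)]
    simp
  · have h2 : N = 2 := by omega
    subst h2
    have : π.coeff 2 = 1 := by
      have := hm.coeff_natDegree
      rwa [hπ] at this
    rw [this, mul_one, sub_self]

end quad

/-- transfer for quadratic extensions -/
theorem transfer2 {F L ι : Type} [Field F] [Field L] [Algebra F L] [Fintype ι] [DecidableEq ι]
    (π : F[X]) (hπ : π.natDegree = 2) (hm : π.Monic) (hroot : ∀ a, π.eval a ≠ 0) (θ : L)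
    (hθ : aeval θ π = 0) (hL : ∀ y : L, ∃ c e : F, y = algebraMap F L c + algebraMap F L e * θ)
    (T : (ι → F) → ℝ) (hT : IsM T) :
    ∃ T' : (ι → L) → ℝ, IsM T' ∧ ∀ x : ι → F, T' (fun i => algebraMap F L (x i)) = T x := by
  classical
  obtain ⟨S, Smul, Smer, Slow, Scon⟩ := exists_recip hT
  -- the linear polynomial of an element
  have hp : ∀ y : L, ∃ q : F[X], q.natDegree ≤ 1 ∧ aeval θ q = y := by
    intro y
    obtain ⟨c, e, h⟩ := hL y
    refine ⟨C e * X + C c, natDegree_linear_le, ?_⟩
    rw [h]
    simp only [map_add, map_mul, aeval_C, aeval_X]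
    ring
  choose p hp1 hp2 using hp
  have huniq := lin_unique π hroot θ hθ
  have pne : ∀ y : L, y ≠ 0 → p y ≠ 0 := by
    intro y hy h
    apply hy
    rw [← hp2 y, h, map_zero]
  have pC : ∀ c : F, p (algebraMap F L c) = C c := by
    intro c
    apply huniq _ _ (hp1 _) (by simp)
    rw [hp2, aeval_C]
  have p1 : p 1 = 1 := by
    have := pC 1
    rwa [map_one, map_one] at this
  have padd : ∀ y y' : L, p y + p y' = p (y + y') := by
    intro y y'
    apply huniq _ _ ((natDegree_add_le _ _).trans (max_le (hp1 _) (hp1 _))) (hp1 _)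
    rw [map_add, hp2, hp2, hp2]
  have pmul : ∀ y y' : L, ∃ c : F, p y * p y' = p (y * y') + C c * π := by
    intro y y'
    obtain ⟨c, s, hs, h⟩ := lin_mul π hπ hm (p y) (p y') (hp1 _) (hp1 _)
    refine ⟨c, ?_⟩
    have : s = p (y * y') := by
      apply huniq _ _ hs (hp1 _)
      have h2 : aeval θ (p y * p y') = aeval θ (s + C c * π) := by rw [h]
      rw [map_mul, hp2, hp2, map_add, map_mul, hθ, mul_zero, add_zero] at h2
      rw [← h2, hp2]
    rw [h, this]
  have πne : π ≠ 0 := hm.ne_zero
  -- entries one
  have Sone : ∀ (g : Option ι → F[X]) (_ : ∀ o, g o ≠ 0) (o : Option ι),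
      S (update g o 1) = 0 := by
    intro g hg o
    have := Smul g hg o 1 1 one_ne_zero one_ne_zero
    rw [mul_one] at this
    linarith
  -- the family
  set G : F[X] → (ι → F[X]) → Option ι → F[X] := fun q x o => o.elim q x with hG
  have Gne : ∀ q x, q ≠ 0 → (∀ i, x i ≠ 0) → ∀ o, G q x o ≠ 0 := by
    intro q x hq hx o
    cases o with
    | none => exact hq
    | some i => exact hx i
  have Gsome : ∀ q x i a, update (G q x) (some i) a = G q (update x i a) := by
    intro q x i a
    funext o
    cases o with
    | none => simp [hG]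
    | some j =>
      by_cases h : j = i
      · subst h; simp [hG]
      · rw [update_of_ne (by simpa using h)]
        simp [hG, update_of_ne h]
  have Gnone : ∀ q x a, update (G q x) none a = G a x := by
    intro q x a
    funext o
    cases o with
    | none => simp [hG]
    | some j => simp [hG]
  have Gmul : ∀ q x i a b, q ≠ 0 → (∀ i, x i ≠ 0) → a ≠ 0 → b ≠ 0 →
      S (G q (update x i (a * b))) = S (G q (update x i a)) + S (G q (update x i b)) := by
    intro q x i a b hq hx ha hb
    have := Smul (G q x) (Gne q x hq hx) (some i) a b ha hb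
    rwa [Gsome, Gsome, Gsome] at this
  have Gmul0 : ∀ x a b, (∀ i, x i ≠ 0) → a ≠ 0 → b ≠ 0 →
      S (G (a * b) x) = S (G a x) + S (G b x) := by
    intro x a b hx ha hb
    have := Smul (G a x) (Gne a x ha hx) none a b ha hb
    rwa [Gnone, Gnone, Gnone] at this
  have Glow : ∀ q x, q ≠ 0 → (∀ i, x i ≠ 0) → q.natDegree ≤ 1 → (∀ i, (x i).natDegree ≤ 1) →
      S (G q x) = 0 := by
    intro q x hq hx h1 h2
    apply Slow _ (Gne q x hq hx)
    intro o
    cases o with
    | none => exact h1
    | some i => exact h2 i
  -- multiplicativity modulo the quadratic polynomial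
  have key : ∀ (y : ι → L) (i : ι) (a b : L), (∀ j, y j ≠ 0) → a ≠ 0 → b ≠ 0 →
      S (G π (update (fun j => p (y j)) i (p (a * b)))) =
      S (G π (update (fun j => p (y j)) i (p a))) + S (G π (update (fun j => p (y j)) i (p b))) := by
    intro y i a b hy ha hb
    have hyp : ∀ j, (fun j => p (y j)) j ≠ 0 := fun j => pne _ (hy j)
    have hyd : ∀ j, ((fun j => p (y j)) j).natDegree ≤ 1 := fun j => hp1 _
    generalize (fun j => p (y j)) = x at hyp hyd ⊢
    have hupd : ∀ c : F[X], c ≠ 0 → ∀ j, update x i c j ≠ 0 := by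
      intro c hc j
      by_cases h : j = i
      · subst h; simpa using hc
      · rw [update_of_ne h]; exact hyp j
    have hupdd : ∀ c : F[X], c.natDegree ≤ 1 → ∀ j, (update x i c j).natDegree ≤ 1 := by
      intro c hc j
      by_cases h : j = i
      · subst h; simpa using hc
      · rw [update_of_ne h]; exact hyd j
    have hab : a * b ≠ 0 := mul_ne_zero ha hb
    rw [← Gmul π x i (p a) (p b) πne hyp (pne _ ha) (pne _ hb)]
    obtain ⟨c, hc⟩ := pmul a b
    by_cases hc0 : c = 0
    · rw [hc, hc0, map_zero, zero_mul, add_zero]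
    · have hCc : (C c : F[X]) ≠ 0 := C_ne_zero.mpr hc0
      have hB : (C c : F[X]) * π ≠ 0 := mul_ne_zero hCc πne
      have hCne : p a * p b ≠ 0 := mul_ne_zero (pne _ ha) (pne _ hb)
      have hA := pne _ hab
      have hlowC : ∀ q : F[X], q ≠ 0 → q.natDegree ≤ 1 → S (G q (update x i (p a * p b))) = 0 := by
        intro q hq hqd
        rw [Gmul q x i _ _ hq hyp (pne _ ha) (pne _ hb),
          Glow q _ hq (hupd _ (pne _ ha)) hqd (hupdd _ (hp1 _)),
          Glow q _ hq (hupd _ (pne _ hb)) hqd (hupdd _ (hp1 _)), add_zero]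
      have hmer := Smer (G (C c * π) (update x i (p (a * b))))
        (Gne _ _ hB (hupd _ hA)) (some i) none (by simp)
        (by
          simp only [hG, Option.elim_some, Option.elim_none, update_self]
          rw [← hc]; exact hCne)
      have e1 : G (C c * π) (update x i (p (a * b))) (some i) +
          G (C c * π) (update x i (p (a * b))) none = p a * p b := by
        simp only [hG, Option.elim_some, Option.elim_none, update_self]
        rw [← hc]
      rw [e1, Gnone, Gsome, update_idem, Gmul0 _ _ _ (hupd _ hA) hCc πne,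
        Gmul0 _ _ _ (hupd _ hA) (pne _ ha) (pne _ hb),
        Gmul0 _ _ _ (hupd _ hCne) hCc πne,
        Glow (C c) _ hCc (hupd _ hA) (by simp) (hupdd _ (hp1 _)),
        Glow (p a) _ (pne _ ha) (hupd _ hA) (hp1 _) (hupdd _ (hp1 _)),
        Glow (p b) _ (pne _ hb) (hupd _ hA) (hp1 _) (hupdd _ (hp1 _)),
        hlowC (C c) hCc (by simp)] at hmer
      linarith
  -- the functional
  refine ⟨fun y => if ∃ i, y i = 0 then 0 else (-(1 / 2 : ℝ)) * S (G π (fun i => p (y i))),
    ⟨?_, ?_, ?_⟩, ?_⟩
  · intro x i hi
    try dsimp only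
    rw [if_pos ⟨i, hi⟩]
  · intro x i a b ha hb
    try dsimp only
    by_cases h : ∃ j, j ≠ i ∧ x j = 0
    · obtain ⟨j, hji, hj⟩ := h
      rw [if_pos ⟨j, by rw [update_of_ne hji]; exact hj⟩,
        if_pos ⟨j, by rw [update_of_ne hji]; exact hj⟩,
        if_pos ⟨j, by rw [update_of_ne hji]; exact hj⟩, add_zero]
    · push Not at h
      have hn : ∀ c : L, c ≠ 0 → ¬ ∃ j, update x i c j = 0 := by
        rintro c hc ⟨j, hj⟩
        by_cases hji : j = i
        · subst hji; rw [update_self] at hj; exact hc hj
        · rw [update_of_ne hji] at hj; exact h j hji hj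
      rw [if_neg (hn _ (mul_ne_zero ha hb)), if_neg (hn _ ha), if_neg (hn _ hb)]
      have hx1 : ∀ j, update x i (1 : L) j ≠ 0 := fun j hj => hn 1 one_ne_zero ⟨j, hj⟩
      have hk := key (update x i 1) i a b hx1 ha hb
      have e : ∀ c : L, (fun j => p (update x i c j)) =
          update (fun j => p (update x i 1 j)) i (p c) := by
        intro c
        funext j
        by_cases hji : j = i
        · subst hji; simp
        · rw [update_of_ne hji, update_of_ne hji, update_of_ne hji]
      rw [e, e a, e b, hk]
      ring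
  · intro x i j hij h
    try dsimp only
    by_cases h0 : ∃ l, x l = 0
    · rw [if_pos h0]
    · rw [if_neg h0]
      push Not at h0
      have hne := Gne π (fun i => p (x i)) πne (fun l => pne _ (h0 l))
      have e1 : G π (fun i => p (x i)) (some i) + G π (fun i => p (x i)) (some j) = 1 := by
        simp only [hG, Option.elim_some]
        rw [padd, h, p1]
      have hmer := Smer (G π (fun i => p (x i))) hne (some i) (some j)
        (by simpa using hij) (by rw [e1]; exact one_ne_zero)
      rw [e1, Sone _ hne, Sone _ hne, add_zero] at hmer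
      rw [hmer, mul_zero]
  · intro x
    try dsimp only
    by_cases h0 : ∃ l, x l = 0
    · obtain ⟨l, hl⟩ := h0
      rw [if_pos ⟨l, by rw [hl, map_zero]⟩, hT.zero x l hl]
    · have h0' : ¬ ∃ l, algebraMap F L (x l) = 0 := by
        rintro ⟨l, hl⟩
        exact h0 ⟨l, (map_eq_zero (algebraMap F L)).mp hl⟩
      rw [if_neg h0']
      push Not at h0
      have hcon := Scon x π h0 hπ hroot hm
      have e1 : (fun i => p (algebraMap F L (x i))) = fun i => C (x i) := by
        funext i
        exact pC _
      rw [e1]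
      simp only [hG]
      rw [hcon]
      ring

end Pool.Agent.KM
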