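import Pool.Agent.KM.TDefs
import Pool.Agent.KM.TQuad

/-!
Project KM, KM-T5: extension of a Milnor functional to a field with infinitely many elements
which are algebraic over the prime field.
-/

set_option autoImplicit false

open Function Polynomial

namespace Pool.Agent.KM

namespace TZ

/-- The Milnor axioms for tuples in a subset of `Ω`. -/
structure On {Ω ι : Type} [Field Ω] [DecidableEq ι] (L : Set Ω) (T : (ι → Ω) → ℝ) : Prop where
  zero : ∀ (x : ι → Ω), (∀ j, x j ∈ L) → ∀ i, x i = 0 → T x = 0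
  mul : ∀ (x : ι → Ω), (∀ j, x j ∈ L) → ∀ (i : ι) (a b : Ω), a ∈ L → b ∈ L → a ≠ 0 → b ≠ 0 →
    T (update x i (a * b)) = T (update x i a) + T (update x i b)
  st : ∀ (x : ι → Ω), (∀ j, x j ∈ L) → ∀ i j, i ≠ j → x i + x j = 1 → T x = 0

theorem map_update {K Ω ι : Type} [DecidableEq ι] (j : K → Ω) (y : ι → K) (i : ι) (a : K) :
    (fun o => j (update y i a o)) = update (fun o => j (y o)) i (j a) := by
  funext o
  by_cases h : o = i
  · subst h
    simp
  · simp [h]

variable {Ω ι : Type} [Field Ω] [DecidableEq ι]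

/-- restriction to a subfield -/
theorem On.restrict {F K : Type} [Field F] [Field K] (j : K →+* Ω) {L : Set Ω}
    (hL : ∀ y, j y ∈ L) {T : (ι → Ω) → ℝ} (h : On L T) : IsM (fun y : ι → K => T (fun o => j (y o))) where
  zero y i hy := h.zero _ (fun o => hL _) i (by rw [hy, map_zero])
  mul y i a b ha hb := by
    simp only [map_update (fun z => j z)]
    rw [map_mul]
    exact h.mul _ (fun o => hL _) i (j a) (j b) (hL _) (hL _)
      ((map_ne_zero j).2 ha) ((map_ne_zero j).2 hb)
  st y i o hio hy := h.st _ (fun o => hL _) i o hio (by rw [← map_add, hy, map_one])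

open Classical in
/-- extension by zero -/
theorem exists_on {K : Type} [Field K] (j : K →+* Ω) {T : (ι → K) → ℝ} (hT : IsM T) :
    ∃ T' : (ι → Ω) → ℝ, (∀ y : ι → K, T' (fun o => j (y o)) = T y) ∧ On (Set.range j) T' := by
  let T' : (ι → Ω) → ℝ := fun x =>
    if h : ∃ y : ι → K, (fun o => j (y o)) = x then T h.choose else 0
  have key : ∀ y : ι → K, T' (fun o => j (y o)) = T y := by
    intro y
    have h : ∃ z : ι → K, (fun o => j (z o)) = (fun o => j (y o)) := ⟨y, rfl⟩
    have h2 : h.choose = y := by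
      funext o
      exact j.injective (congrFun h.choose_spec o)
    show dite _ _ _ = _
    rw [dif_pos h, h2]
  have lift : ∀ x : ι → Ω, (∀ o, x o ∈ Set.range j) → ∃ y : ι → K, (fun o => j (y o)) = x := by
    intro x hx
    choose y hy using hx
    exact ⟨y, funext hy⟩
  refine ⟨T', key, ?_, ?_, ?_⟩
  · intro x hx i hi
    obtain ⟨y, rfl⟩ := lift x hx
    rw [key]
    exact hT.zero y i ((map_eq_zero j).1 hi)
  · intro x hx i a b ha hb ha0 hb0
    obtain ⟨y, rfl⟩ := lift x hx
    obtain ⟨a, rfl⟩ := ha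
    obtain ⟨b, rfl⟩ := hb
    rw [← map_mul, ← map_update (fun z => j z), ← map_update (fun z => j z),
      ← map_update (fun z => j z), key, key, key]
    exact hT.mul y i a b ((map_ne_zero j).1 ha0) ((map_ne_zero j).1 hb0)
  · intro x hx i o hio h
    obtain ⟨y, rfl⟩ := lift x hx
    rw [key]
    exact hT.st y i o hio (j.injective (by rw [map_add, map_one]; exact h))

/-- A finite field has an irreducible polynomial `X ^ 2 - X - c`. -/
theorem exists_quad (K : Type) [Field K] [Finite K] : ∃ c : K, ∀ x : K, x ^ 2 - x ≠ c := by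
  have h : ¬ Function.Injective (fun x : K => x ^ 2 - x) := by
    intro h
    have := @h 0 1 (by simp)
    exact zero_ne_one this
  have h2 : ¬ Function.Surjective (fun x : K => x ^ 2 - x) := fun h3 =>
    h (Finite.injective_iff_surjective.2 h3)
  rw [Function.Surjective] at h2
  push Not at h2
  exact h2

end TZ

open TZ in
theorem exists_extension (p : ℕ) [Fact p.Prime] (F : Type) [Field F] [Algebra (ZMod p) F]
    {ι : Type} [Fintype ι] [DecidableEq ι] (T : (ι → F) → ℝ) (hT : IsM T) :
    ∃ (L : Type) (_ : Field L) (_ : Algebra F L) (_ : Algebra.IsAlgebraic F L) (k : Subfield L)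
      (T' : (ι → L) → ℝ), Infinite k ∧ (∀ a ∈ k, ∃ f : (ZMod p)[X], f ≠ 0 ∧
        (f.map ((algebraMap F L).comp (algebraMap (ZMod p) F))).eval a = 0) ∧
      IsM T' ∧ ∀ x : ι → F, T' (fun i => algebraMap F L (x i)) = T x := by
  classical
  -- the pairs
  let Ω := AlgebraicClosure F
  let P : IntermediateField F Ω × ((ι → Ω) → ℝ) → Prop := fun q =>
    On (q.1 : Set Ω) q.2 ∧ ∀ x : ι → F, q.2 (fun i => algebraMap F Ω (x i)) = T x
  let r : {q // P q} → {q // P q} → Prop := fun a b =>
    a.1.1 ≤ b.1.1 ∧ ∀ x : ι → Ω, (∀ i, x i ∈ a.1.1) → b.1.2 x = a.1.2 x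
  have hrefl : ∀ a, r a a := fun a => ⟨le_rfl, fun _ _ => rfl⟩
  have htrans : ∀ {a b c}, r a b → r b c → r a c := by
    intro a b c h1 h2
    exact ⟨h1.1.trans h2.1, fun x hx => (h2.2 x fun i => h1.1 (hx i)).trans (h1.2 x hx)⟩
  -- the smallest pair
  obtain ⟨T₀, hT₀, hon₀⟩ := exists_on (algebraMap F Ω) hT
  have hbot : ((⊥ : IntermediateField F Ω) : Set Ω) = Set.range (algebraMap F Ω) := by
    ext y
    exact IntermediateField.mem_bot
  have base : P (⊥, T₀) := ⟨by rw [hbot]; exact hon₀, hT₀⟩
  -- chains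
  have hchain : ∀ c : Set {q // P q}, IsChain r c → ∃ ub, ∀ a ∈ c, r a ub := by
    intro c hc
    rcases c.eq_empty_or_nonempty with rfl | hne
    · exact ⟨⟨_, base⟩, fun a ha => absurd ha (Set.notMem_empty a)⟩
    have : Nonempty c := hne.to_subtype
    have hdir : ∀ a b : c, ∃ z : c, r a.1 z.1 ∧ r b.1 z.1 := by
      intro a b
      by_cases hab : a.1 = b.1
      · exact ⟨b, by rw [hab]; exact hrefl _, hrefl _⟩
      · rcases hc a.2 b.2 hab with h | h
        · exact ⟨b, h, hrefl _⟩
        · exact ⟨a, hrefl _, h⟩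
    have hdirL : Directed (· ≤ ·) (fun a : c => a.1.1.1) := fun a b => by
      obtain ⟨z, h1, h2⟩ := hdir a b
      exact ⟨z, h1.1, h2.1⟩
    let L : IntermediateField F Ω := ⨆ a : c, a.1.1.1
    have hL : ∀ y : Ω, y ∈ L ↔ ∃ a : c, y ∈ a.1.1.1 := by
      intro y
      have h := IntermediateField.coe_iSup_of_directed hdirL
      have h2 : y ∈ ((⨆ a : c, a.1.1.1 : IntermediateField F Ω) : Set Ω) ↔
          y ∈ ⋃ a : c, (a.1.1.1 : Set Ω) := by rw [h]
      rw [Set.mem_iUnion] at h2
      exact h2
    let T₁ : (ι → Ω) → ℝ := fun x =>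
      if h : ∃ a : c, ∀ i, x i ∈ a.1.1.1 then h.choose.1.1.2 x else 0
    have key : ∀ (a : c) (x : ι → Ω), (∀ i, x i ∈ a.1.1.1) → T₁ x = a.1.1.2 x := by
      intro a x hx
      have h : ∃ a : c, ∀ i, x i ∈ a.1.1.1 := ⟨a, hx⟩
      have h0 : T₁ x = h.choose.1.1.2 x := by
        show dite _ _ _ = _
        rw [dif_pos h]
      rw [h0]
      obtain ⟨z, h1, h2⟩ := hdir h.choose a
      rw [← h1.2 x h.choose_spec, ← h2.2 x hx]
    -- finitely many elements are in one member
    have fin : ∀ s : Finset Ω, (∀ y ∈ s, y ∈ L) → ∃ a : c, ∀ y ∈ s, y ∈ a.1.1.1 := by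
      intro s
      induction s using Finset.induction_on with
      | empty =>
        intro _
        exact ⟨Classical.arbitrary c, fun y hy => absurd hy (Finset.notMem_empty y)⟩
      | insert y s hy ih =>
        intro h
        obtain ⟨a, ha⟩ := ih fun z hz => h z (Finset.mem_insert_of_mem hz)
        obtain ⟨b, hb⟩ := (hL y).1 (h y (Finset.mem_insert_self y s))
        obtain ⟨z, h1, h2⟩ := hdir a b
        refine ⟨z, fun w hw => ?_⟩
        rcases Finset.mem_insert.1 hw with rfl | hw
        · exact h2.1 hb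
        · exact h1.1 (ha w hw)
    have fin2 : ∀ (x : ι → Ω) (u v : Ω), (∀ i, x i ∈ L) → u ∈ L → v ∈ L →
        ∃ a : c, (∀ i, x i ∈ a.1.1.1) ∧ u ∈ a.1.1.1 ∧ v ∈ a.1.1.1 := by
      intro x u v hx hu hv
      obtain ⟨a, ha⟩ := fin (insert u (insert v (Finset.univ.image x))) (by
        intro y hy
        rw [Finset.mem_insert, Finset.mem_insert, Finset.mem_image] at hy
        rcases hy with rfl | rfl | ⟨i, -, rfl⟩
        · exact hu
        · exact hv
        · exact hx i)
      refine ⟨a, fun i => ha _ ?_, ha _ (Finset.mem_insert_self _ _),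
        ha _ (Finset.mem_insert_of_mem (Finset.mem_insert_self _ _))⟩
      exact Finset.mem_insert_of_mem (Finset.mem_insert_of_mem
        (Finset.mem_image_of_mem x (Finset.mem_univ i)))
    have hupd : ∀ (a : c) (x : ι → Ω) (i : ι) (u : Ω), (∀ i, x i ∈ a.1.1.1) → u ∈ a.1.1.1 →
        ∀ o, update x i u o ∈ a.1.1.1 := by
      intro a x i u hx hu o
      by_cases ho : o = i
      · subst ho
        rw [update_self]
        exact hu
      · rw [update_of_ne ho]
        exact hx o
    have hP : P (L, T₁) := by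
      refine ⟨⟨?_, ?_, ?_⟩, ?_⟩
      · intro x hx i hi
        obtain ⟨a, ha, -, -⟩ := fin2 x 0 0 hx L.zero_mem L.zero_mem
        show T₁ x = 0
        rw [key a x ha]
        exact a.1.2.1.zero x ha i hi
      · intro x hx i u v hu hv hu0 hv0
        obtain ⟨a, ha, hua, hva⟩ := fin2 x u v hx hu hv
        show T₁ _ = T₁ _ + T₁ _
        rw [key a _ (hupd a x i _ ha (mul_mem hua hva)), key a _ (hupd a x i _ ha hua),
          key a _ (hupd a x i _ ha hva)]
        exact a.1.2.1.mul x ha i u v hua hva hu0 hv0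
      · intro x hx i o hio h
        obtain ⟨a, ha, -, -⟩ := fin2 x 0 0 hx L.zero_mem L.zero_mem
        show T₁ x = 0
        rw [key a x ha]
        exact a.1.2.1.st x ha i o hio h
      · intro x
        obtain ⟨a⟩ := this
        show T₁ _ = _
        rw [key a _ fun i => IntermediateField.algebraMap_mem _ _]
        exact a.1.2.2 x
    refine ⟨⟨(L, T₁), hP⟩, fun a ha => ⟨?_, fun x hx => key ⟨a, ha⟩ x hx⟩⟩
    exact le_iSup (fun a : c => a.1.1.1) ⟨a, ha⟩
  -- a maximal pair
  obtain ⟨m, hm⟩ := exists_maximal_of_chains_bounded hchain htrans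
  obtain ⟨⟨L, TL⟩, hPL⟩ := m
  have hon : On (L : Set Ω) TL := hPL.1
  have hext : ∀ x : ι → F, TL (fun i => algebraMap F Ω (x i)) = T x := hPL.2
  let jL : L →+* Ω := algebraMap L Ω
  have hTL : IsM (fun y : ι → L => TL (fun o => jL (y o))) :=
    On.restrict (F := F) jL (fun y => y.2) hon
  let k := algebraicClosure (ZMod p) L
  refine ⟨L, inferInstance, inferInstance, inferInstance, k.toSubfield, _, ?_, ?_, hTL, ?_⟩
  · -- infinite
    by_contra hfin
    have hfin' : Finite k := not_infinite_iff_finite.1 hfin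
    obtain ⟨c, hc⟩ := exists_quad k
    let π : L[X] := X ^ 2 - X - C (c : L)
    have hdeg : π.natDegree = 2 := by
      show (X ^ 2 - X - C (c : L)).natDegree = 2
      compute_degree!
    have hmon : π.Monic := by
      show (X ^ 2 - X - C (c : L)).Monic
      monicity!
    have heval : ∀ a : L, π.eval a = a ^ 2 - a - c := by
      intro a
      show (X ^ 2 - X - C (c : L)).eval a = _
      simp
    have hroot : ∀ a : L, π.eval a ≠ 0 := by
      intro a ha
      rw [heval] at ha
      have h1 : IsIntegral k a := by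
        refine ⟨X ^ 2 - X - C c, by monicity!, ?_⟩
        simpa using ha
      have h2 : IsIntegral (ZMod p) a := isIntegral_trans a h1
      have h3 : a ∈ k := mem_algebraicClosure_iff'.2 h2
      apply hc ⟨a, h3⟩
      apply Subtype.ext
      show a ^ 2 - a = c
      linear_combination ha
    obtain ⟨θ, hθ⟩ : ∃ θ : Ω, aeval θ π = 0 :=
      IsAlgClosed.exists_aeval_eq_zero Ω π (by
        intro h0
        have := natDegree_eq_zero_iff_degree_le_zero.2 h0.le
        omega)
    have hint : IsIntegral L θ := ⟨π, hmon, by rw [← aeval_def]; exact hθ⟩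
    let E := IntermediateField.adjoin L {θ}
    let θ' : E := ⟨θ, IntermediateField.mem_adjoin_simple_self L θ⟩
    have hθ' : aeval θ' π = 0 := by
      apply Subtype.ext
      have := Polynomial.aeval_algebraMap_apply Ω θ' π
      show algebraMap E Ω (aeval θ' π) = 0
      rw [← this]
      exact hθ
    have hE : ∀ y : E, ∃ c e : L, y = algebraMap L E c + algebraMap L E e * θ' := by
      intro y
      obtain ⟨f, hf, rfl⟩ := (IntermediateField.adjoin.powerBasis hint).exists_eq_aeval y
      have h1 : (IntermediateField.adjoin.powerBasis hint).dim ≤ 2 := by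
        rw [IntermediateField.adjoin.powerBasis_dim, ← hdeg]
        exact natDegree_le_natDegree (minpoly.min L θ hmon hθ)
      obtain ⟨a, b, rfl⟩ := exists_eq_X_add_C_of_natDegree_le_one (by omega : f.natDegree ≤ 1)
      refine ⟨b, a, ?_⟩
      have h2 : (IntermediateField.adjoin.powerBasis hint).gen = θ' := rfl
      rw [h2, map_add, map_mul, aeval_C, aeval_C, aeval_X, add_comm]
    obtain ⟨T₂, hT₂, hT₂e⟩ := transfer2 π hdeg hmon hroot θ' hθ' hE _ hTL
    obtain ⟨T₃, hT₃, hon₃⟩ := exists_on (algebraMap E Ω) hT₂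
    let L' : IntermediateField F Ω := E.restrictScalars F
    have hL' : (L' : Set Ω) = Set.range (algebraMap E Ω) := by
      ext y
      constructor
      · intro hy
        exact ⟨⟨y, hy⟩, rfl⟩
      · rintro ⟨y, rfl⟩
        exact y.2
    have h4 : ∀ x : ι → Ω, (∀ i, x i ∈ L) → T₃ x = TL x := by
      intro x hx
      have h5 := hT₂e fun i => ⟨x i, hx i⟩
      have h6 := hT₃ fun i => algebraMap L E ⟨x i, hx i⟩
      rw [h5] at h6
      exact h6
    have hP' : P (L', T₃) := by
      refine ⟨?_, fun x => ?_⟩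
      · show On (L' : Set Ω) T₃
        rw [hL']
        exact hon₃
      · show T₃ _ = _
        rw [h4 _ fun i => IntermediateField.algebraMap_mem _ _]
        exact hext x
    have h7 := hm ⟨(L', T₃), hP'⟩ ⟨fun y hy => by
      show y ∈ E
      exact IntermediateField.algebraMap_mem E (⟨y, hy⟩ : L), h4⟩
    have h8 : θ ∈ L := h7.1 (IntermediateField.mem_adjoin_simple_self L θ)
    apply hroot ⟨θ, h8⟩
    have h9 : algebraMap L Ω (π.eval ⟨θ, h8⟩) = 0 := by
      have h10 := Polynomial.aeval_algebraMap_apply Ω (⟨θ, h8⟩ : L) π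
      rw [Polynomial.coe_aeval_eq_eval] at h10
      rw [← h10]
      exact hθ
    exact (map_eq_zero (algebraMap L Ω)).1 h9
  · -- algebraic
    intro a ha
    obtain ⟨f, hf0, hf⟩ := mem_algebraicClosure_iff.1 ha
    refine ⟨f, hf0, ?_⟩
    have h1 : (algebraMap F L).comp (algebraMap (ZMod p) F) = algebraMap (ZMod p) L :=
      RingHom.ext_zmod _ _
    rw [h1, eval_map_algebraMap]
    exact hf
  · intro x
    exact hext x

end Pool.Agent.KM
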