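import Pool.Agent.KM.XDefs

/-!
Project KM3 (MP_27fd67_ag), part (C), row X2: values of rays, the fan at the start (helper53).
-/

set_option autoImplicit false

open Function
open scoped Pointwise

namespace Pool.Agent.KM

section Aux

variable {F : Type} [Field F] {n : ℕ} (x : Fin n → F)

private theorem x2_mon_ne (hx : ∀ i, x i ≠ 0) (χ : Fin n → ℤ) : mon x χ ≠ 0 :=
  Finset.prod_ne_zero_iff.2 fun i _ => zpow_ne_zero _ (hx i)

private theorem x2_mon_zero : mon x 0 = 1 := by simp [mon]

private theorem x2_mon_single (i : Fin n) : mon x (Pi.single i 1) = x i := by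
  unfold mon
  rw [Finset.prod_eq_single i]
  · simp
  · intro b _ hb
    simp [Pi.single_eq_of_ne hb]
  · intro h
    exact absurd (Finset.mem_univ i) h

private theorem x2_vm_ne (hx : ∀ i, x i ≠ 0) (A : ValuationSubring F) {S : Finset (Fin n → ℤ)}
    (hS : S.Nonempty) : vm A x S ≠ 0 := by
  obtain ⟨χ, hχ⟩ := hS
  have h1 : A.valuation (mon x χ) ≤ vm A x S :=
    Finset.le_sup (f := fun χ => A.valuation (mon x χ)) hχ
  have h2 : 0 < A.valuation (mon x χ) :=
    zero_lt_iff.2 ((Valuation.ne_zero_iff _).2 (x2_mon_ne x hx χ))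
  exact (h2.trans_le h1).ne'

private theorem x2_pr_single (χ : Fin n → ℤ) (i : Fin n) (c : ℤ) :
    pr χ (Pi.single i c) = χ i * c := by
  unfold pr
  rw [Finset.sum_eq_single i]
  · simp
  · intro b _ hb
    simp [Pi.single_eq_of_ne hb]
  · intro h
    exact absurd (Finset.mem_univ i) h

private theorem x2_vm_single (A : ValuationSubring F) (i : Fin n) :
    vm A x {Pi.single i 1} = A.valuation (x i) := by
  unfold vm
  rw [Finset.sup_singleton, x2_mon_single]

private theorem x2_vm_zero (A : ValuationSubring F) : vm A x {0} = 1 := by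
  unfold vm
  rw [Finset.sup_singleton, x2_mon_zero, map_one]

private theorem x2_vm_pair (A : ValuationSubring F) (i : Fin n) :
    vm A x {0, Pi.single i 1} = max 1 (A.valuation (x i)) := by
  unfold vm
  rw [Finset.sup_insert, Finset.sup_singleton, x2_mon_single, x2_mon_zero, map_one]

end Aux

section X

variable {k F : Type} [Field k] [Field F] [Algebra k F] {n : ℕ} {x : Fin n → F}
variable {J : Type} [Fintype J] [DecidableEq J]

theorem Fan.br_ne_zero {Φ : Fan n J} (hx : ∀ i, x i ≠ 0) (hΦ : Φ.Ok k x)
    (A : ValuationSubring F) (j : J) : Φ.br x A j ≠ 0 :=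
  div_ne_zero (x2_vm_ne x hx A (hΦ.neP j)) (x2_vm_ne x hx A (hΦ.neD j))

theorem Fan.br_le_one {Φ : Fan n J} (hx : ∀ i, x i ≠ 0) (hΦ : Φ.Ok k x)
    {A : ValuationSubring F} (hA : Over k A) (j : J) : Φ.br x A j ≤ 1 :=
  (div_le_one₀ (zero_lt_iff.2 (x2_vm_ne x hx A (hΦ.neD j)))).2 (hΦ.le A hA j)

theorem Fan.nt_iff {Φ : Fan n J} (hx : ∀ i, x i ≠ 0) (hΦ : Φ.Ok k x)
    (A : ValuationSubring F) (j : J) : Φ.nt x A j ↔ Φ.br x A j < 1 :=
  (div_lt_one₀ (zero_lt_iff.2 (x2_vm_ne x hx A (hΦ.neD j)))).symm

/-- The fan of the first step. -/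
private def x2_fan (n : ℕ) : Fan n (Fin n × Bool) where
  v j := Pi.single j.1 (if j.2 then 1 else -1)
  P j := if j.2 then {Pi.single j.1 1} else {0}
  D j := {0, Pi.single j.1 1}
  ψ j l := if l = (j.1, false) then -1 else 0

theorem fan_start (hx : ∀ i, x i ≠ 0) : ∃ Φ : Fan n (Fin n × Bool), Φ.Ok k x := by
  have hv : ∀ (A : ValuationSubring F) (i : Fin n), A.valuation (x i) ≠ 0 := fun A i =>
    (Valuation.ne_zero_iff _).2 (hx i)
  have hm : ∀ (A : ValuationSubring F) (i : Fin n), max 1 (A.valuation (x i)) ≠ 0 := fun A i =>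
    (zero_lt_one.trans_le (le_max_left _ _)).ne'
  have hP1 : ∀ (A : ValuationSubring F) (i : Fin n),
      vm A x ((x2_fan n).P (i, true)) = A.valuation (x i) := fun A i => x2_vm_single x A i
  have hP2 : ∀ (A : ValuationSubring F) (i : Fin n),
      vm A x ((x2_fan n).P (i, false)) = 1 := fun A i => x2_vm_zero x A
  have hD : ∀ (A : ValuationSubring F) (j : Fin n × Bool),
      vm A x ((x2_fan n).D j) = max 1 (A.valuation (x j.1)) := fun A j => x2_vm_pair x A j.1
  have hb1 : ∀ (A : ValuationSubring F) (i : Fin n), (x2_fan n).br x A (i, true) =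
      A.valuation (x i) / max 1 (A.valuation (x i)) := fun A i => by
    unfold Fan.br
    rw [hP1, hD]
  have hb2 : ∀ (A : ValuationSubring F) (i : Fin n), (x2_fan n).br x A (i, false) =
      1 / max 1 (A.valuation (x i)) := fun A i => by
    unfold Fan.br
    rw [hP2, hD]
  have hpr : ∀ (χ : Fin n → ℤ) (l : Fin n × Bool),
      pr χ ((x2_fan n).v l) = χ l.1 * (if l.2 then 1 else -1) := fun χ l =>
    x2_pr_single χ l.1 _
  refine ⟨x2_fan n, ?_, ?_, ?_, ?_, ?_, ?_, ?_, ?_⟩
  · rintro ⟨i, b⟩
    cases b
    · exact Finset.singleton_nonempty _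
    · exact Finset.singleton_nonempty _
  · rintro ⟨i, b⟩
    exact Finset.insert_nonempty _ _
  · rintro A _ ⟨i, b⟩
    cases b
    · rw [hP2, hD]
      exact le_max_left _ _
    · rw [hP1, hD]
      exact le_max_right _ _
  · intro A _ χ
    have h1 : A.valuation (mon x χ) = ∏ i, A.valuation (x i) ^ χ i := by
      unfold mon
      rw [map_prod]
      exact Finset.prod_congr rfl fun i _ => map_zpow₀ _ _ _
    rw [h1, Fintype.prod_prod_type]
    refine Finset.prod_congr rfl fun i _ => ?_
    rw [Fintype.prod_bool, hpr, hpr, hb1, hb2]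
    simp only [if_true, Bool.false_eq_true, if_false, mul_one, mul_neg, zpow_neg]
    rw [one_div, inv_zpow, inv_inv, ← mul_zpow, div_mul_cancel₀ _ (hm A i)]
  · intro A _ c hc hsum
    have hnot : ∀ i, c (i, true) = 0 ∨ c (i, false) = 0 := by
      intro i
      by_cases h : A.valuation (x i) < 1
      · right
        refine hc _ fun hnt => ?_
        unfold Fan.nt at hnt
        rw [hP2, hD, max_eq_left h.le] at hnt
        exact lt_irrefl _ hnt
      · left
        refine hc _ fun hnt => ?_
        unfold Fan.nt at hnt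
        rw [hP1, hD, max_eq_right (not_lt.1 h)] at hnt
        exact lt_irrefl _ hnt
    have hdiff : ∀ i, c (i, true) - c (i, false) = 0 := by
      intro i
      have h := hsum i
      rw [Fintype.sum_prod_type, Finset.sum_eq_single i] at h
      · rw [Fintype.sum_bool] at h
        simp only [x2_fan, if_true, Bool.false_eq_true, if_false, Pi.single_eq_same] at h
        linarith
      · intro b _ hb
        rw [Fintype.sum_bool]
        simp [x2_fan, Pi.single_eq_of_ne hb.symm]
      · intro h'
        exact absurd (Finset.mem_univ i) h'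
    rintro ⟨i, b⟩
    have h1 := hdiff i
    rcases hnot i with h | h
    · rw [h] at h1
      cases b
      · linarith
      · exact h
    · rw [h] at h1
      cases b
      · exact h
      · linarith
  · rintro A _ ⟨i, b⟩
    rw [hD, Finset.prod_eq_single (i, false)]
    · rw [hb2]
      simp [x2_fan]
    · rintro l _ hl
      simp [x2_fan, hl]
    · intro h
      exact absurd (Finset.mem_univ _) h
  · rintro ⟨i, b⟩ χ hχ ⟨i', b'⟩
    rw [hpr]
    simp only [x2_fan, Finset.mem_insert, Finset.mem_singleton] at hχ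
    simp only [x2_fan, Prod.mk.injEq]
    rcases hχ with rfl | rfl
    · split_ifs <;> simp
    · by_cases hi : i' = i
      · subst hi
        cases b' <;> simp
      · simp [hi]
  · rintro ⟨i, b⟩ χ hχ ⟨i', b'⟩
    rw [hpr]
    cases b
    · simp only [x2_fan, Bool.false_eq_true, if_false, Finset.mem_singleton] at hχ
      subst hχ
      simp only [x2_fan, Prod.mk.injEq]
      split_ifs <;> simp
    · simp only [x2_fan, if_true, Finset.mem_singleton] at hχ
      subst hχ
      simp only [x2_fan, Prod.mk.injEq]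
      by_cases hi : i' = i
      · subst hi
        cases b' <;> simp
      · simp [hi]

end X

end Pool.Agent.KM
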