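import Pool.Agent.KM.XVal
import Pool.Agent.KM.XStart

/-!
Project KM3 (MP_27fd67_ag), part (C), KM-X9: charts (helper56).
-/

set_option autoImplicit false

open Function
open scoped Pointwise

namespace Pool.Agent.KM

section X
variable {k F : Type} [Field k] [Field F] [Algebra k F] {n : ℕ} {x : Fin n → F}
variable {J : Type} [Fintype J] [DecidableEq J]

private theorem zpow_eq_one_of_lt {Γ : Type} [LinearOrderedCommGroupWithZero Γ] {a : Γ}
    (h1 : a < 1) {e : ℤ} (he : 0 ≤ e) (h : a ^ e = 1) : e = 0 := by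
  obtain ⟨m, rfl⟩ := Int.eq_ofNat_of_zero_le he
  by_contra hne
  have hm : m ≠ 0 := by
    rintro rfl
    exact hne rfl
  have h2 : a ^ m < 1 := pow_lt_one' h1 hm
  simp only [zpow_natCast] at h
  exact absurd h h2.ne

theorem psi_eq (hx : ∀ i, x i ≠ 0) {Φ : Fan n J} (hΦ : Φ.Ok k x) {A : ValuationSubring F}
    (hA : Over k A) (t : J × Bool) (χ : Fin n → ℤ) (hχ : χ ∈ Φ.S t)
    (hv : A.valuation (mon x χ) = vm A x (Φ.S t)) (l : J) (hl : Φ.nt x A l) :
    pr χ (Φ.v l) = Φ.ψ t.1 l + (if t.2 = true ∧ l = t.1 then 1 else 0) := by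
  have hbr0 : ∀ j, Φ.br x A j ≠ 0 := fun j => Fan.br_ne_zero hx hΦ A j
  have hbr1 : ∀ j, Φ.br x A j ≤ 1 := fun j => Fan.br_le_one hx hΦ hA j
  -- the exponents of the quotient
  set e : J → ℤ := fun l => pr χ (Φ.v l) - (Φ.ψ t.1 l + (if t.2 = true ∧ l = t.1 then 1 else 0))
    with he
  have hvm : vm A x (Φ.S t) =
      ∏ l, Φ.br x A l ^ (Φ.ψ t.1 l + (if t.2 = true ∧ l = t.1 then (1 : ℤ) else 0)) := by
    obtain ⟨j, b⟩ := t
    cases b with
    | false =>
      simp only [Fan.S, Bool.false_eq_true, if_false, false_and, add_zero]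
      exact hΦ.psi A hA j
    | true =>
      simp only [Fan.S, if_true, true_and]
      have h1 : ∀ l, Φ.br x A l ^ (Φ.ψ j l + (if l = j then (1 : ℤ) else 0))
          = Φ.br x A l ^ Φ.ψ j l * Φ.br x A l ^ (if l = j then (1 : ℤ) else 0) :=
        fun l => zpow_add₀ (hbr0 l) _ _
      rw [Finset.prod_congr rfl (fun l _ => h1 l), Finset.prod_mul_distrib, ← hΦ.psi A hA j]
      have h2 : ∏ l, Φ.br x A l ^ (if l = j then (1 : ℤ) else 0) = Φ.br x A j := by
        rw [Finset.prod_eq_single j]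
        · rw [if_pos rfl, zpow_one]
        · intro l _ hl
          rw [if_neg hl, zpow_zero]
        · intro h
          exact absurd (Finset.mem_univ j) h
      rw [h2, Fan.br, mul_div_cancel₀ _ (vm_ne_zero x A hx (hΦ.neD j))]
  have he0 : ∀ l, 0 ≤ e l := by
    intro l
    obtain ⟨j, b⟩ := t
    cases b with
    | false =>
      simp only [Fan.S, Bool.false_eq_true, if_false] at hχ
      have := hΦ.geD j χ hχ l
      simp only [he, Bool.false_eq_true, false_and, if_false]
      omega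
    | true =>
      simp only [Fan.S, if_true] at hχ
      have := hΦ.geP j χ hχ l
      simp only [he, true_and]
      omega
  have hprod : ∏ l, Φ.br x A l ^ e l = 1 := by
    have h1 : ∀ l, Φ.br x A l ^ e l = Φ.br x A l ^ pr χ (Φ.v l) /
        Φ.br x A l ^ (Φ.ψ t.1 l + (if t.2 = true ∧ l = t.1 then (1 : ℤ) else 0)) :=
      fun l => zpow_sub₀ (hbr0 l) _ _
    rw [Finset.prod_congr rfl (fun l _ => h1 l), Finset.prod_div_distrib, ← hvm,
      ← hΦ.mono A hA χ, hv, div_self]
    rw [← hv, Ne, map_eq_zero]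
    exact mon_ne_zero x hx χ
  have hle : ∀ l ∈ (Finset.univ : Finset J), Φ.br x A l ^ e l ≤ 1 := by
    intro l _
    obtain ⟨m, hm⟩ := Int.eq_ofNat_of_zero_le (he0 l)
    rw [hm]
    simp only [zpow_natCast]
    exact pow_le_one' (hbr1 l) m
  have hone := (Finset.prod_eq_one_iff_of_le_one' hle).mp hprod l (Finset.mem_univ l)
  have := zpow_eq_one_of_lt ((Fan.nt_iff hx hΦ A l).mp hl) (he0 l) hone
  simp only [he] at this
  omega

theorem chart_vm {Φ : Fan n J} (hx : ∀ i, x i ≠ 0) (c : J × Bool → Fin n → ℤ)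
    (hc : ∀ t, c t ∈ Φ.S t) {A : ValuationSubring F} (hg : ∀ f ∈ Φ.gens x c, f ∈ A)
    (t : J × Bool) : A.valuation (mon x (c t)) = vm A x (Φ.S t) := by
  refine le_antisymm (le_vm x A (hc t)) (vm_le x A ?_)
  intro χ hχ
  have h1 : mon x (χ - c t) ∈ A := hg _ (Or.inl ⟨t, χ, hχ, rfl⟩)
  rw [mon_sub x hx, ← ValuationSubring.valuation_le_one_iff, map_div₀] at h1
  have h2 : A.valuation (mon x (c t)) ≠ 0 := by
    rw [Ne, map_eq_zero]; exact mon_ne_zero x hx _
  exact (div_le_one₀ (zero_lt_iff.mpr h2)).mp h1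

theorem exists_chart {Φ : Fan n J} (hx : ∀ i, x i ≠ 0) (hΦ : Φ.Ok k x)
    {A : ValuationSubring F} (hA : Over k A) : ∃ c : J × Bool → Fin n → ℤ,
      (∀ t, c t ∈ Φ.S t) ∧ ∀ f ∈ Φ.gens x c, f ∈ A := by
  have hne : ∀ t : J × Bool, (Φ.S t).Nonempty := by
    rintro ⟨j, b⟩
    cases b with
    | false =>
      simp only [Fan.S, Bool.false_eq_true, if_false]
      exact hΦ.neD j
    | true =>
      simp only [Fan.S, if_true]
      exact hΦ.neP j
  choose c hc hcv using fun t => exists_vm x A (hne t)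
  have hv0 : ∀ χ, A.valuation (mon x χ) ≠ 0 := by
    intro χ
    rw [Ne, map_eq_zero]; exact mon_ne_zero x hx _
  refine ⟨c, hc, ?_⟩
  rintro f (⟨t, χ, hχ, rfl⟩ | ⟨j, rfl⟩)
  · rw [mon_sub x hx, ← ValuationSubring.valuation_le_one_iff, map_div₀,
      div_le_one₀ (zero_lt_iff.mpr (hv0 _)), hcv t]
    exact le_vm x A hχ
  · rw [mon_sub x hx, ← ValuationSubring.valuation_le_one_iff, map_div₀,
      div_le_one₀ (zero_lt_iff.mpr (hv0 _)), hcv, hcv]
    simp only [Fan.S, Bool.false_eq_true, if_false, if_true]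
    exact hΦ.le A hA j

theorem gp_mem_chart {Φ : Fan n J} (hx : ∀ i, x i ≠ 0) (c : J × Bool → Fin n → ℤ)
    (l : ℕ → k) (t : J × Bool) :
    gp x l (Φ.S t) / mon x (c t) ∈ Algebra.adjoin k (Φ.gens x c) := by
  rw [gp, Finset.sum_div]
  refine Subalgebra.sum_mem _ ?_
  intro χ hχ
  rw [mul_div_assoc, ← mon_sub x hx]
  refine Subalgebra.mul_mem _ (Subalgebra.algebraMap_mem _ _) ?_
  exact Algebra.subset_adjoin (Or.inl ⟨t, χ, hχ, rfl⟩)

theorem nt_chart {Φ : Fan n J} (hx : ∀ i, x i ≠ 0) (c : J × Bool → Fin n → ℤ)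
    (hc : ∀ t, c t ∈ Φ.S t) {A : ValuationSubring F} (hg : ∀ f ∈ Φ.gens x c, f ∈ A) (j : J) :
    Φ.nt x A j ↔ A.valuation (mon x (c (j, true) - c (j, false))) < 1 := by
  have h1 := chart_vm hx c hc hg (j, true)
  have h2 := chart_vm hx c hc hg (j, false)
  simp only [Fan.S, Bool.false_eq_true, if_false, if_true] at h1 h2
  have h0 : A.valuation (mon x (c (j, false))) ≠ 0 := by
    rw [Ne, map_eq_zero]; exact mon_ne_zero x hx _
  rw [mon_sub x hx, map_div₀, div_lt_one₀ (zero_lt_iff.mpr h0), h1, h2, Fan.nt]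

/-- Elements of the algebra generated by `T` are congruent to elements of the algebra generated
by `O`, if this holds for the elements of `T`. -/
private theorem congr_adjoin {A : ValuationSubring F} (hA : Over k A) (T O : Set F)
    (hT : ∀ f ∈ T, f ∈ A ∧ (A.valuation f < 1 ∨ f ∈ O)) {z : F} (hz : z ∈ Algebra.adjoin k T) :
    A.valuation z ≤ 1 ∧ ∃ z' ∈ Algebra.adjoin k O, A.valuation z' ≤ 1 ∧
      A.valuation (z - z') < 1 := by
  have hle : ∀ f : F, f ∈ A → A.valuation f ≤ 1 := fun f hf =>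
    (ValuationSubring.valuation_le_one_iff A f).mpr hf
  induction hz using Algebra.adjoin_induction with
  | mem f hf =>
    obtain ⟨h1, h2 | h2⟩ := hT f hf
    · exact ⟨hle f h1, 0, Subalgebra.zero_mem _, by simp, by rwa [sub_zero]⟩
    · exact ⟨hle f h1, f, Algebra.subset_adjoin h2, hle f h1, by simp⟩
  | algebraMap r =>
    exact ⟨hle _ (hA r), _, Subalgebra.algebraMap_mem _ r, hle _ (hA r), by simp⟩
  | add a b _ _ iha ihb =>
    obtain ⟨ha, a', ha', ha1, ha2⟩ := iha
    obtain ⟨hb, b', hb', hb1, hb2⟩ := ihb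
    refine ⟨(Valuation.map_add _ _ _).trans (max_le ha hb), a' + b',
      Subalgebra.add_mem _ ha' hb', (Valuation.map_add _ _ _).trans (max_le ha1 hb1), ?_⟩
    have e : a + b - (a' + b') = (a - a') + (b - b') := by ring
    rw [e]
    exact lt_of_le_of_lt (Valuation.map_add _ _ _) (max_lt ha2 hb2)
  | mul a b _ _ iha ihb =>
    obtain ⟨ha, a', ha', ha1, ha2⟩ := iha
    obtain ⟨hb, b', hb', hb1, hb2⟩ := ihb
    refine ⟨?_, a' * b', Subalgebra.mul_mem _ ha' hb', ?_, ?_⟩
    · rw [map_mul]; exact mul_le_one' ha hb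
    · rw [map_mul]; exact mul_le_one' ha1 hb1
    · have e : a * b - a' * b' = (a - a') * b + a' * (b - b') := by ring
      rw [e]
      refine lt_of_le_of_lt (Valuation.map_add _ _ _) (max_lt ?_ ?_)
      · rw [map_mul]; exact mul_lt_one_of_lt_of_le ha2 hb
      · rw [map_mul, mul_comm]; exact mul_lt_one_of_lt_of_le hb2 ha1

private theorem congr_aeval {A : ValuationSubring F} (hA : Over k A) {m : ℕ} (z z' : Fin m → F)
    (h1 : ∀ a, A.valuation (z a) ≤ 1) (h2 : ∀ a, A.valuation (z' a) ≤ 1)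
    (h3 : ∀ a, A.valuation (z a - z' a) < 1) (G : MvPolynomial (Fin m) k) :
    A.valuation (MvPolynomial.aeval z G) ≤ 1 ∧ A.valuation (MvPolynomial.aeval z' G) ≤ 1 ∧
      A.valuation (MvPolynomial.aeval z G - MvPolynomial.aeval z' G) < 1 := by
  induction G using MvPolynomial.induction_on with
  | C a =>
    simp only [MvPolynomial.aeval_C, sub_self, map_zero]
    have := (ValuationSubring.valuation_le_one_iff A _).mpr (hA a)
    exact ⟨this, this, zero_lt_one⟩
  | add p q ihp ihq =>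
    obtain ⟨a1, a2, a3⟩ := ihp
    obtain ⟨b1, b2, b3⟩ := ihq
    simp only [map_add]
    refine ⟨(Valuation.map_add _ _ _).trans (max_le a1 b1),
      (Valuation.map_add _ _ _).trans (max_le a2 b2), ?_⟩
    have e : MvPolynomial.aeval z p + MvPolynomial.aeval z q
        - (MvPolynomial.aeval z' p + MvPolynomial.aeval z' q)
        = (MvPolynomial.aeval z p - MvPolynomial.aeval z' p)
          + (MvPolynomial.aeval z q - MvPolynomial.aeval z' q) := by ring
    rw [e]
    exact lt_of_le_of_lt (Valuation.map_add _ _ _) (max_lt a3 b3)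
  | mul_X p i ih =>
    obtain ⟨a1, a2, a3⟩ := ih
    simp only [map_mul, MvPolynomial.aeval_X]
    refine ⟨mul_le_one' a1 (h1 i), mul_le_one' a2 (h2 i), ?_⟩
    have e : MvPolynomial.aeval z p * z i - MvPolynomial.aeval z' p * z' i
        = (MvPolynomial.aeval z p - MvPolynomial.aeval z' p) * z i
          + MvPolynomial.aeval z' p * (z i - z' i) := by ring
    rw [e]
    refine lt_of_le_of_lt (Valuation.map_add _ _ _) (max_lt ?_ ?_)
    · rw [map_mul]; exact mul_lt_one_of_lt_of_le a3 (h1 i)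
    · rw [map_mul, mul_comm]; exact mul_lt_one_of_lt_of_le (h3 i) a2

/-- The elements `z` of the algebra of the chart can be replaced by elements of the algebra
generated by the monomials orthogonal to the support. -/
theorem chart_reduce (hx : ∀ i, x i ≠ 0) {Φ : Fan n J} (hΦ : Φ.Ok k x)
    (c : J × Bool → Fin n → ℤ) (hc : ∀ t, c t ∈ Φ.S t) {A : ValuationSubring F}
    (hA : Over k A) (hg : ∀ f ∈ Φ.gens x c, f ∈ A) (m : ℕ) (z : Fin m → F)
    (hz : ∀ a, z a ∈ Algebra.adjoin k (Φ.gens x c))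
    (hind : ∀ G : MvPolynomial (Fin m) k, G ≠ 0 → A.valuation (MvPolynomial.aeval z G) = 1) :
    ∃ z' : Fin m → F, (∀ a, z' a ∈ Algebra.adjoin k
      {f | ∃ χ : Fin n → ℤ, (∀ j, Φ.nt x A j → pr χ (Φ.v j) = 0) ∧ f = mon x χ}) ∧
    ∀ G : MvPolynomial (Fin m) k, G ≠ 0 → A.valuation (MvPolynomial.aeval z' G) = 1 := by
  have hlt : ∀ f : F, f ∈ A → ¬ A.valuation f < 1 → A.valuation f = 1 := fun f hf h =>
    le_antisymm ((ValuationSubring.valuation_le_one_iff A f).mpr hf) (not_lt.mp h)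
  have hT : ∀ f ∈ Φ.gens x c, f ∈ A ∧ (A.valuation f < 1 ∨
      f ∈ {f | ∃ χ : Fin n → ℤ, (∀ j, Φ.nt x A j → pr χ (Φ.v j) = 0) ∧ f = mon x χ}) := by
    intro f hf
    refine ⟨hg f hf, ?_⟩
    by_cases h1 : A.valuation f < 1
    · exact Or.inl h1
    · right
      have h2 := hlt f (hg f hf) h1
      rcases hf with ⟨t, χ, hχ, rfl⟩ | ⟨j, rfl⟩
      · refine ⟨χ - c t, ?_, rfl⟩
        intro l hl
        rw [mon_sub x hx, map_div₀] at h2
        have h0 : A.valuation (mon x (c t)) ≠ 0 := by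
          rw [Ne, map_eq_zero]; exact mon_ne_zero x hx _
        rw [div_eq_one_iff_eq h0, chart_vm hx c hc hg t] at h2
        have e1 := psi_eq hx hΦ hA t χ hχ h2 l hl
        have e2 := psi_eq hx hΦ hA t (c t) (hc t) (chart_vm hx c hc hg t) l hl
        rw [pr_sub, e1, e2, sub_self]
      · refine ⟨c (j, true) - c (j, false), ?_, rfl⟩
        intro l hl
        have hj : ¬ Φ.nt x A j := by
          rw [nt_chart hx c hc hg j]
          exact h1
        have hlj : l ≠ j := by
          rintro rfl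
          exact hj hl
        have e1 := psi_eq hx hΦ hA (j, true) _ (hc _) (chart_vm hx c hc hg (j, true)) l hl
        have e2 := psi_eq hx hΦ hA (j, false) _ (hc _) (chart_vm hx c hc hg (j, false)) l hl
        rw [pr_sub, e1, e2]
        simp [hlj]
  choose h1 z' hz' hz1 hz2 using fun a => congr_adjoin hA _ _ hT (hz a)
  refine ⟨z', hz', ?_⟩
  intro G hG
  obtain ⟨_, a2, a3⟩ := congr_aeval hA z z' h1 hz1 hz2 G
  have h4 := hind G hG
  refine le_antisymm a2 (not_lt.mp ?_)
  intro h5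
  have e : MvPolynomial.aeval z G = (MvPolynomial.aeval z G - MvPolynomial.aeval z' G)
      + MvPolynomial.aeval z' G := by ring
  have h6 : A.valuation (MvPolynomial.aeval z G) < 1 := by
    rw [e]
    exact lt_of_le_of_lt (Valuation.map_add _ _ _) (max_lt a3 h5)
  exact absurd h4 h6.ne

end X

end Pool.Agent.KM
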