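import Pool.Agent.KM.XDefs

/-!
Project KM3, row X6b: dual vectors (helper78).
-/

set_option autoImplicit false
set_option linter.all false

open Function
open scoped Pointwise

namespace Pool.Agent.KM

/-- the vectors are linearly independent over the rational numbers -/
private theorem x6b_indep {n : ℕ} {J : Type} [Fintype J] [DecidableEq J] (v : J → Fin n → ℤ)
    (s : Finset J) (hind : ∀ c : J → ℤ, (∀ j, j ∉ s → c j = 0) →
      (∀ i, ∑ j, c j * v j i = 0) → ∀ j, c j = 0) :
    LinearIndependent ℚ (fun (a : s) (i : Fin n) => (v a i : ℚ)) := by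
  rw [← LinearIndependent.iff_fractionRing ℤ ℚ, Fintype.linearIndependent_iff]
  intro g hg a
  have h1 := hind (fun j => if h : j ∈ s then g ⟨j, h⟩ else 0) (fun j hj => dif_neg hj) ?_ a
  · rw [dif_pos a.2] at h1
    exact h1
  · intro i
    have h2 := congrFun hg i
    simp only [Finset.sum_apply, Pi.smul_apply, Pi.zero_apply, zsmul_eq_mul] at h2
    have h3 : ∑ a : s, g a * v a i = 0 := by
      have h4 : ((∑ a : s, g a * v a i : ℤ) : ℚ) = 0 := by
        push_cast
        exact h2
      exact_mod_cast h4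
    refine Eq.trans ?_ h3
    have h5 : ∀ j : J, (if h : j ∈ s then g ⟨j, h⟩ else 0) * v j i =
        if h : j ∈ s then g ⟨j, h⟩ * v j i else 0 := by
      intro j
      by_cases h : j ∈ s
      · rw [dif_pos h, dif_pos h]
      · rw [dif_neg h, dif_neg h, zero_mul]
    rw [Finset.sum_congr rfl fun j _ => h5 j]
    rw [← Finset.sum_subset (Finset.subset_univ s) (fun j _ hj => dif_neg hj),
      ← Finset.sum_attach s]
    exact Finset.sum_congr rfl fun j _ => by rw [dif_pos j.2]

theorem dual_vectors {n : ℕ} {J : Type} [Fintype J] [DecidableEq J] (v : J → Fin n → ℤ)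
    (s : Finset J) (hind : ∀ c : J → ℤ, (∀ j, j ∉ s → c j = 0) →
      (∀ i, ∑ j, c j * v j i = 0) → ∀ j, c j = 0) :
    ∃ (N : ℕ) (χ : J → Fin n → ℤ), 0 < N ∧
      ∀ a ∈ s, ∀ b ∈ s, pr (χ a) (v b) = if a = b then (N : ℤ) else 0 := by
  classical
  have hli := x6b_indep v s hind
  set w : s → Fin n → ℚ := fun a i => (v a i : ℚ) with hw
  let L : (s → ℚ) →ₗ[ℚ] (Fin n → ℚ) := Fintype.linearCombination ℚ w
  have hL : LinearMap.ker L = ⊥ := by
    rw [LinearMap.ker_eq_bot']
    intro c hc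
    have h1 := Fintype.linearIndependent_iff.1 hli c (by
      simpa [L, Fintype.linearCombination_apply] using hc)
    exact funext h1
  obtain ⟨f, hf⟩ := L.exists_leftInverse_of_injective hL
  have hfw : ∀ a b : s, f (w b) a = if a = b then 1 else 0 := by
    intro a b
    have h1 : L (Pi.single b 1) = w b := by
      simp [L, Fintype.linearCombination_apply_single]
    have h2 : f (L (Pi.single b 1)) = Pi.single b 1 := DFunLike.congr_fun hf (Pi.single b 1)
    rw [← h1, h2, Pi.single_apply]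
  obtain ⟨b, hb⟩ := IsLocalization.exist_integer_multiples_of_finite (nonZeroDivisors ℤ)
    (fun p : Fin n × s => f (Pi.single p.1 1) p.2)
  choose z hz using hb
  have hb0 : (b : ℤ) ≠ 0 := nonZeroDivisors.coe_ne_zero b
  refine ⟨(b : ℤ).natAbs, fun a i => if h : a ∈ s then (b : ℤ).sign * z (i, ⟨a, h⟩) else 0,
    Int.natAbs_pos.2 hb0, fun a ha c hc => ?_⟩
  have h1 : ((pr (fun i => if h : a ∈ s then (b : ℤ).sign * z (i, ⟨a, h⟩) else 0) (v c) : ℤ) : ℚ) =
      (((b : ℤ).sign * b : ℤ) : ℚ) * f (w ⟨c, hc⟩) ⟨a, ha⟩ := by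
    have h2 : w ⟨c, hc⟩ = ∑ i, (v c i : ℚ) • (Pi.single i 1 : Fin n → ℚ) := by
      ext j
      simp [hw, Finset.sum_apply, Pi.single_apply]
    rw [h2, map_sum, Finset.sum_apply, Finset.mul_sum]
    unfold pr
    push_cast
    refine Finset.sum_congr rfl fun i _ => ?_
    rw [dif_pos ha]
    have h3 := hz (i, ⟨a, ha⟩)
    rw [zsmul_eq_mul] at h3
    have h4 : ((z (i, ⟨a, ha⟩) : ℤ) : ℚ) = (b : ℤ) * f (Pi.single i 1) ⟨a, ha⟩ := h3
    rw [map_smul, Pi.smul_apply, smul_eq_mul]
    push_cast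
    rw [h4]
    ring
  rw [hfw] at h1
  have h5 : (b : ℤ).sign * b = ((b : ℤ).natAbs : ℤ) := by
    rw [Int.sign_mul_self_eq_abs, Int.abs_eq_natAbs]
  rw [h5] at h1
  by_cases hac : a = c
  · subst hac
    rw [if_pos rfl, mul_one] at h1
    rw [if_pos rfl]
    exact_mod_cast h1
  · rw [if_neg (fun h => hac (congrArg Subtype.val h)), mul_zero] at h1
    rw [if_neg hac]
    exact_mod_cast h1

end Pool.Agent.KM
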