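import Pool.Agent.KM.XDefs

/-! Project KM3, row X6c: independence in the field `κ(τ)` (helper54). -/

set_option autoImplicit false

open Function
open scoped Pointwise

namespace Pool.Agent.KM

theorem indep_tau {k κ : Type} [Field k] [Field κ] [Algebra k κ] {μ J : Type} (z : μ → κ)
    (hz : AlgebraicIndependent k z) (c : J → κ) (hc : ∀ b, c b ≠ 0) (N : ℕ) (hN : 0 < N) :
    AlgebraicIndependent k (Sum.elim
      (fun a => algebraMap (MvPolynomial J κ) (FractionRing (MvPolynomial J κ))
        (MvPolynomial.C (z a)))
      (fun b => algebraMap (MvPolynomial J κ) (FractionRing (MvPolynomial J κ))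
        (MvPolynomial.C (c b) * MvPolynomial.X b ^ N))) := by
  have h1 : AlgebraicIndependent κ (fun b : J =>
      (MvPolynomial.C (c b) * MvPolynomial.X b ^ N : MvPolynomial J κ)) := by
    have h2 := MvPolynomial.algebraicIndependent_polynomial_aeval_X
      (fun b : J => (Polynomial.C (c b) * Polynomial.X ^ N : Polynomial κ)) (fun b => by
        refine Polynomial.transcendental _ ?_ ?_
        · rw [Polynomial.natDegree_C_mul_X_pow N (c b) (hc b)]
          exact hN.ne'
        · rw [Polynomial.leadingCoeff_C_mul_X_pow]
          exact mem_nonZeroDivisors_of_ne_zero (hc b))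
    convert h2 using 2
    simp [MvPolynomial.algebraMap_eq]
  have h3 : AlgebraicIndependent κ (fun b : J =>
      algebraMap (MvPolynomial J κ) (FractionRing (MvPolynomial J κ))
        (MvPolynomial.C (c b) * MvPolynomial.X b ^ N)) :=
    h1.map' (f := IsScalarTower.toAlgHom κ (MvPolynomial J κ) (FractionRing (MvPolynomial J κ)))
      (IsFractionRing.injective (MvPolynomial J κ) (FractionRing (MvPolynomial J κ)))
  have h4 := hz.sumElim_comp h3
  refine (algebraicIndependent_equiv' (Equiv.sumComm μ J) ?_).mpr h4
  funext a
  rcases a with a | a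
  · show algebraMap κ (FractionRing (MvPolynomial J κ)) (z a) = _
    rw [IsScalarTower.algebraMap_apply κ (MvPolynomial J κ) (FractionRing (MvPolynomial J κ))]
    rfl
  · rfl

end Pool.Agent.KM
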