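import Pool.Agent.KM.XDefs

/-!
Project KM3 (MP_27fd67_ag), row X6a: the number of algebraically independent elements of a
finitely generated field is at most `d`, if any `d + 1` of the generators are dependent
(helper19).
-/

set_option autoImplicit false

open scoped Cardinal

namespace Pool.Agent.KM

theorem card_le_of_dep {k L : Type} [Field k] [Field L] [Algebra k L] {n : ℕ} (X : Fin n → L)
    (d : ℕ) (hdep : ∀ S : Finset (Fin n), S.card = d + 1 →
      ¬ AlgebraicIndependent k (fun i : S => X i)) {κ : Type} [Fintype κ] (y : κ → L)
    (hy : ∀ a, y a ∈ IntermediateField.adjoin k (Set.range X))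
    (hind : AlgebraicIndependent k y) : Fintype.card κ ≤ d := by
  classical
  have hmem : ∀ i, X i ∈ IntermediateField.adjoin k (Set.range X) := fun i =>
    IntermediateField.subset_adjoin k _ ⟨i, rfl⟩
  let X' : Fin n → IntermediateField.adjoin k (Set.range X) := fun i => ⟨X i, hmem i⟩
  let y' : κ → IntermediateField.adjoin k (Set.range X) := fun a => ⟨y a, hy a⟩
  have hy' : AlgebraicIndependent k y' := by
    refine AlgebraicIndependent.of_comp (IntermediateField.val _) ?_
    exact hind
  have htop : IntermediateField.adjoin k (Set.range X') = ⊤ := by
    apply IntermediateField.map_injective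
      (IntermediateField.val (IntermediateField.adjoin k (Set.range X)))
    rw [IntermediateField.adjoin_map, ← AlgHom.fieldRange_eq_map, IntermediateField.fieldRange_val,
      ← Set.range_comp]
    rfl
  have halg : Algebra.IsAlgebraic (Algebra.adjoin k (Set.range X'))
      (IntermediateField.adjoin k (Set.range X)) := by
    rw [← IntermediateField.isAlgebraic_adjoin_iff_top, htop]
    constructor
    intro x
    exact isAlgebraic_algebraMap (R := (⊤ : IntermediateField k
      (IntermediateField.adjoin k (Set.range X)))) ⟨x, trivial⟩
  obtain ⟨t, hts, ht⟩ := exists_isTranscendenceBasis_subset (R := k) (Set.range X')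
  have h1 : #κ ≤ #t := by
    rw [ht.cardinalMk_eq_trdeg]
    exact hy'.cardinalMk_le_trdeg
  by_contra hlt
  push Not at hlt
  have htfin : t.Finite := (Set.finite_range X').subset hts
  have : Fintype t := htfin.fintype
  have h2 : d + 1 ≤ Fintype.card t := by
    rw [Cardinal.mk_fintype, Cardinal.mk_fintype] at h1
    have : Fintype.card κ ≤ Fintype.card t := by exact_mod_cast h1
    omega
  -- a section of the map `Fin n → range X'` on `t`
  choose f hf using fun z : t => hts z.2
  have hfinj : Function.Injective f := by
    intro a b hab
    apply Subtype.ext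
    rw [← hf a, ← hf b, hab]
  obtain ⟨T, hT⟩ := Finset.exists_subset_card_eq (s := (Finset.univ : Finset t)) (n := d + 1)
    (by simpa using h2)
  have hcard : (T.map ⟨f, hfinj⟩).card = d + 1 := by rw [Finset.card_map]; exact hT.2
  refine hdep _ hcard ?_
  -- every element of the image is `f z` for a unique `z`
  choose g hg using fun i : (T.map ⟨f, hfinj⟩) => Finset.mem_map.mp i.2
  have hg2 : ∀ i, f (g i) = i := fun i => (hg i).2
  have hginj : Function.Injective g := by
    intro a b hab
    apply Subtype.ext
    rw [← hg2 a, ← hg2 b, hab]
  have h3 : AlgebraicIndependent k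
      ((IntermediateField.val (IntermediateField.adjoin k (Set.range X))) ∘
        ((fun z : t => (z : IntermediateField.adjoin k (Set.range X))) ∘ g)) :=
    (ht.1.comp g hginj).map' (RingHom.injective (IntermediateField.val (IntermediateField.adjoin k (Set.range X))).toRingHom)
  convert h3 using 1
  funext i
  have h4 : X' (f (g i)) = ((g i : t) : IntermediateField.adjoin k (Set.range X)) := hf (g i)
  show X i = (((g i : t) : IntermediateField.adjoin k (Set.range X)) : L)
  rw [← h4, hg2 i]

end Pool.Agent.KM
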