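import Pool.Agent.KM.XVal
import Pool.Agent.KM.XTrdeg
import Pool.Agent.KM.XTau
import Pool.Agent.KM.XDual

/-!
Project KM3 (MP_27fd67_ag), part (C), file X7: the stratum bound: at a valuation ring `A` over
`k` with `t` rays in its support, at most `d - t` elements of the algebra generated by the
monomials orthogonal to the support have algebraically independent residues (helper60).
-/

set_option autoImplicit false

open Function
open scoped Pointwise

namespace Pool.Agent.KM

/-! ### auxiliary lemmas -/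

private theorem sb_mon_hom {L : Type} [Field L] {n : ℕ} (g : (Fin n → ℤ) → L) (h0 : g 0 = 1)
    (hadd : ∀ χ χ', g (χ + χ') = g χ * g χ') (χ : Fin n → ℤ) :
    mon (fun i => g (Pi.single i 1)) χ = g χ := by
  have hinv : ∀ χ, g χ * g (-χ) = 1 := fun χ => by rw [← hadd, add_neg_cancel, h0]
  have hne : ∀ χ, g χ ≠ 0 := fun χ => left_ne_zero_of_mul_eq_one (hinv χ)
  have hneg : ∀ χ, g (-χ) = (g χ)⁻¹ := fun χ => eq_inv_of_mul_eq_one_right (hinv χ)
  have hnat : ∀ (m : ℕ) χ, g (m • χ) = g χ ^ m := by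
    intro m χ
    induction m with
    | zero => simp [h0]
    | succ m ih => rw [succ_nsmul, hadd, ih, pow_succ]
  have hint : ∀ (m : ℤ) χ, g (m • χ) = g χ ^ m := by
    intro m χ
    obtain ⟨a, rfl | rfl⟩ := m.eq_nat_or_neg
    · rw [natCast_zsmul, hnat, zpow_natCast]
    · rw [neg_smul, hneg, natCast_zsmul, hnat, zpow_neg, zpow_natCast]
  have hsum : ∀ (S : Finset (Fin n)) (f : Fin n → Fin n → ℤ), g (∑ i ∈ S, f i) = ∏ i ∈ S, g (f i) := by
    intro S f
    induction S using Finset.induction_on with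
    | empty => simp [h0]
    | insert a S ha ih => rw [Finset.sum_insert ha, Finset.prod_insert ha, hadd, ih]
  have hχ : χ = ∑ i, χ i • Pi.single (M := fun _ => ℤ) i 1 := by
    funext a
    rw [Finset.sum_apply, Finset.sum_eq_single a]
    · simp
    · intro b _ hb
      simp [Ne.symm hb]
    · simp
  conv_rhs => rw [hχ, hsum]
  unfold mon
  exact Finset.prod_congr rfl fun i _ => (hint _ _).symm

private theorem sb_prod_eq_one {Γ : Type} [LinearOrderedCommGroupWithZero Γ] {J : Type} [DecidableEq J]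
    (s : Finset J) (b : J → Γ) (hb1 : ∀ j ∈ s, b j < 1)
    (c : J → ℤ) (hc : ∀ j ∈ s, 0 ≤ c j) (h : ∏ j ∈ s, b j ^ c j = 1) : ∀ j ∈ s, c j = 0 := by
  have hle : ∀ j ∈ s, b j ^ c j ≤ 1 := by
    intro j hj
    obtain ⟨m, hm⟩ := Int.eq_ofNat_of_zero_le (hc j hj)
    rw [hm, zpow_natCast]
    exact pow_le_one' (hb1 j hj).le m
  intro j hj
  by_contra hcj
  have hlt : b j ^ c j < 1 := by
    obtain ⟨m, hm⟩ := Int.eq_ofNat_of_zero_le (hc j hj)
    rw [hm, zpow_natCast]
    have hm0 : m ≠ 0 := by rintro rfl; exact hcj (by simpa using hm)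
    exact pow_lt_one₀ zero_le (hb1 j hj) hm0
  rw [← Finset.mul_prod_erase s _ hj] at h
  have h2 : ∏ l ∈ s.erase j, b l ^ c l ≤ 1 :=
    Finset.prod_le_one' fun l hl => hle l (Finset.mem_of_mem_erase hl)
  have h3 : b j ^ c j * ∏ l ∈ s.erase j, b l ^ c l < 1 := by
    calc b j ^ c j * ∏ l ∈ s.erase j, b l ^ c l ≤ b j ^ c j * 1 := by gcongr
      _ < 1 := by rwa [mul_one]
  exact absurd h (ne_of_lt h3)

section SB
variable {k F : Type} [Field k] [Field F] [Algebra k F] {n : ℕ} {x : Fin n → F}
variable {J : Type} [Fintype J] [DecidableEq J]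

theorem sb (hx : ∀ i, x i ≠ 0) (d : ℕ) {H : List (Fin n → ℤ)} (hH : Rel k x d H)
    {Φ : Fan n J} (hΦ : Φ.Ok k x) (hc : ∀ δ ∈ H, Φ.Clean k x δ) {A : ValuationSubring F}
    (hA : Over k A) (m : ℕ) (z : Fin m → F)
    (hz : ∀ a, z a ∈ Algebra.adjoin k
      {f | ∃ χ : Fin n → ℤ, (∀ j, Φ.nt x A j → pr χ (Φ.v j) = 0) ∧ f = mon x χ})
    (hind : ∀ G : MvPolynomial (Fin m) k, G ≠ 0 → A.valuation (MvPolynomial.aeval z G) = 1) :
    m + {j | Φ.nt x A j}.ncard ≤ d := by
  classical
  -- the support
  set s : Finset J := Finset.univ.filter fun j => Φ.nt x A j with hs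
  have hsm : ∀ j, j ∈ s ↔ Φ.nt x A j := fun j => by simp [hs]
  have hcard : {j | Φ.nt x A j}.ncard = s.card := by
    rw [← Set.ncard_coe_finset]
    congr 1
    ext j
    simp [hs]
  rw [hcard]
  -- values of the rays
  have hbr1 : ∀ j, j ∉ s → Φ.br x A j = 1 := by
    intro j hj
    have h1 : vm A x (Φ.P j) = vm A x (Φ.D j) :=
      le_antisymm (hΦ.le A hA j) (not_lt.1 fun h => hj ((hsm j).2 h))
    unfold Fan.br
    rw [h1, div_self (vm_ne_zero x A hx (hΦ.neD j))]
  have hbr0 : ∀ j, Φ.br x A j ≠ 0 := fun j =>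
    div_ne_zero (vm_ne_zero x A hx (hΦ.neP j)) (vm_ne_zero x A hx (hΦ.neD j))
  have hbrlt : ∀ j, j ∈ s → Φ.br x A j < 1 := by
    intro j hj
    unfold Fan.br
    rw [div_lt_one₀ (zero_lt_iff.2 (vm_ne_zero x A hx (hΦ.neD j)))]
    exact (hsm j).1 hj
  have hval : ∀ χ, A.valuation (mon x χ) = ∏ j ∈ s, Φ.br x A j ^ pr χ (Φ.v j) := by
    intro χ
    rw [hΦ.mono A hA χ]
    refine (Finset.prod_subset (Finset.subset_univ s) fun j _ hj => ?_).symm
    rw [hbr1 j hj, one_zpow]
  have hβ : ∀ j, ∃ β : Fin n → ℤ, A.valuation (mon x β) = Φ.br x A j := by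
    intro j
    obtain ⟨p, _, hp⟩ := exists_vm x A (hΦ.neP j)
    obtain ⟨q, _, hq⟩ := exists_vm x A (hΦ.neD j)
    exact ⟨p - q, by rw [mon_sub x hx, map_div₀, hp, hq]; rfl⟩
  choose β hβ using hβ
  have hmonsum : ∀ (S : Finset J) (f : J → Fin n → ℤ), mon x (∑ j ∈ S, f j) = ∏ j ∈ S, mon x (f j) := by
    intro S f
    induction S using Finset.induction_on with
    | empty => simp [mon_zero]
    | insert a S ha ih => rw [Finset.sum_insert ha, Finset.prod_insert ha, mon_add x hx, ih]
  have hmonz : ∀ (c : ℤ) (χ : Fin n → ℤ), mon x (c • χ) = mon x χ ^ c := by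
    intro c χ
    unfold mon
    rw [← Finset.prod_zpow]
    exact Finset.prod_congr rfl fun i _ => by
      rw [Pi.smul_apply, smul_eq_mul, mul_comm, zpow_mul]
  -- the map `ω`
  obtain ⟨w, hw0, hwadd, hworth, hwval⟩ : ∃ w : (Fin n → ℤ) → (Fin n → ℤ), w 0 = 0 ∧
      (∀ χ χ', w (χ + χ') = w χ + w χ') ∧ (∀ χ, (∀ j ∈ s, pr χ (Φ.v j) = 0) → w χ = χ) ∧
      ∀ χ, A.valuation (mon x (w χ)) = 1 := by
    refine ⟨fun χ => χ - ∑ j ∈ s, pr χ (Φ.v j) • β j, by simp [pr], fun χ χ' => ?_,
      fun χ h => ?_, fun χ => ?_⟩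
    · simp only [pr_add, add_smul, Finset.sum_add_distrib]
      abel
    · simp only []
      rw [Finset.sum_eq_zero fun j hj => by rw [h j hj, zero_smul], sub_zero]
    · simp only []
      rw [mon_sub x hx, map_div₀, hmonsum, map_prod, hval χ]
      have h1 : ∀ j, A.valuation (mon x (pr χ (Φ.v j) • β j)) =
          Φ.br x A j ^ pr χ (Φ.v j) := fun j => by rw [hmonz, map_zpow₀, hβ j]
      simp only [h1]
      exact div_self (Finset.prod_ne_zero_iff.2 fun j _ => zpow_ne_zero _ (hbr0 j))
  have hwA : ∀ χ, mon x (w χ) ∈ A := fun χ => by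
    rw [← A.valuation_le_one_iff, hwval χ]
  -- the residue field and the field `L`
  let i : k →+* A := (algebraMap k F).codRestrict A.toSubring hA
  letI : Algebra k A := i.toAlgebra
  have hiF : ∀ c : k, ((algebraMap k A c : A) : F) = algebraMap k F c := fun c => rfl
  let κ := IsLocalRing.ResidueField A
  let L := FractionRing (MvPolynomial J κ)
  let R0 : A →ₐ[k] κ := IsScalarTower.toAlgHom k A κ
  let R1 : κ →ₐ[k] L := (IsScalarTower.toAlgHom k (MvPolynomial J κ) L).comp
    (IsScalarTower.toAlgHom k κ (MvPolynomial J κ))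
  let R : A →ₐ[k] L := R1.comp R0
  have hR1 : ∀ c, R1 c = algebraMap (MvPolynomial J κ) L (MvPolynomial.C c) := fun c => rfl
  have hR0 : ∀ a : A, A.valuation (a : F) < 1 → R0 a = 0 := by
    intro a ha
    exact (IsLocalRing.residue_eq_zero_iff a).2 ((A.valuation_lt_one_iff a).2 ha)
  have hR0' : ∀ a : A, A.valuation (a : F) = 1 → R0 a ≠ 0 := by
    intro a ha h
    have := (A.valuation_lt_one_iff a).1 ((IsLocalRing.residue_eq_zero_iff a).1 h)
    rw [ha] at this
    exact lt_irrefl _ this
  let τ : J → L := fun j => algebraMap (MvPolynomial J κ) L (MvPolynomial.X j)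
  have hτ : ∀ j, τ j ≠ 0 := fun j => by
    have h1 : Injective (algebraMap (MvPolynomial J κ) L) := IsFractionRing.injective _ _
    intro h
    exact MvPolynomial.X_ne_zero j (h1 (by rw [map_zero]; exact h))
  let g : (Fin n → ℤ) → L := fun χ => R ⟨mon x (w χ), hwA χ⟩ * ∏ j ∈ s, τ j ^ pr χ (Φ.v j)
  have hpr0 : ∀ v : Fin n → ℤ, pr 0 v = 0 := fun v => by simp [pr]
  have hg0 : g 0 = 1 := by
    have h1 : (⟨mon x (w 0), hwA 0⟩ : A) = 1 := Subtype.ext (show mon x (w 0) = 1 by rw [hw0, mon_zero])
    simp only [g, hpr0, zpow_zero, Finset.prod_const_one, mul_one]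
    rw [h1, map_one]
  have hgadd : ∀ χ χ', g (χ + χ') = g χ * g χ' := by
    intro χ χ'
    have h1 : (⟨mon x (w (χ + χ')), hwA _⟩ : A) = ⟨mon x (w χ), hwA _⟩ * ⟨mon x (w χ'), hwA _⟩ :=
      Subtype.ext (show mon x (w (χ + χ')) = mon x (w χ) * mon x (w χ') by
        rw [hwadd, mon_add x hx])
    simp only [g]
    rw [h1, map_mul, mul_mul_mul_comm, ← Finset.prod_mul_distrib]
    congr 1
    exact Finset.prod_congr rfl fun j _ => by rw [pr_add, zpow_add₀ (hτ j)]
  let X : Fin n → L := fun i => g (Pi.single i 1)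
  have hX : ∀ χ, mon X χ = g χ := sb_mon_hom g hg0 hgadd
  have hg_ne : ∀ χ, g χ ≠ 0 := by
    intro χ h
    have h1 := hgadd χ (-χ)
    rw [add_neg_cancel, hg0, h, zero_mul] at h1
    exact one_ne_zero h1
  -- evaluation of polynomials as sums of monomials
  have hev : ∀ {E : Type} [Field E] [Algebra k E] (Y : Fin n → E) (f : MvPolynomial (Fin n) k),
      MvPolynomial.aeval Y f =
        ∑ α ∈ f.support, algebraMap k E (f.coeff α) * mon Y (fun i => (α i : ℤ)) := by
    intro E _ _ Y f
    rw [MvPolynomial.aeval_def, MvPolynomial.eval₂_eq']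
    exact Finset.sum_congr rfl fun α _ => by simp [mon]
  -- dependence
  have hdep : ∀ S : Finset (Fin n), S.card = d + 1 →
      ¬ AlgebraicIndependent k (fun i : S => X i) := by
    intro S hS hind'
    obtain ⟨f, hf0, hfS, hfx, hfH⟩ := hH S hS
    let e : (Fin n →₀ ℕ) → (Fin n → ℤ) := fun α i => (α i : ℤ)
    have hne : f.support.Nonempty := Finset.nonempty_iff_ne_empty.2 fun h =>
      hf0 (MvPolynomial.support_eq_empty.1 h)
    obtain ⟨α₀, hα₀, hmax⟩ := Finset.exists_max_image f.support
      (fun α => A.valuation (mon x (e α))) hne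
    have hr : ∀ α, A.valuation (mon x (e α - e α₀)) =
        A.valuation (mon x (e α)) / A.valuation (mon x (e α₀)) := fun α => by
      rw [mon_sub x hx, map_div₀]
    have hv0 : A.valuation (mon x (e α₀)) ≠ 0 := by
      rw [map_ne_zero]
      exact mon_ne_zero x hx _
    have hle : ∀ α ∈ f.support, A.valuation (mon x (e α - e α₀)) ≤ 1 := by
      intro α hα
      rw [hr, div_le_one₀ (zero_lt_iff.2 hv0)]
      exact hmax α hα
    -- exponents of maximal value have the same pairing with the support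
    have horth : ∀ α ∈ f.support, A.valuation (mon x (e α - e α₀)) = 1 →
        ∀ j ∈ s, pr (e α - e α₀) (Φ.v j) = 0 := by
      intro α hα hv
      have hcl := hc (e α - e α₀) (hfH α hα α₀ hα₀)
      rw [hval] at hv
      by_contra hcon
      push Not at hcon
      obtain ⟨j, hj, hpj⟩ := hcon
      have hsign : ∀ l ∈ s, 0 ≤ pr (e α - e α₀) (Φ.v j) * pr (e α - e α₀) (Φ.v l) := fun l hl =>
        hcl A hA j l ((hsm j).1 hj) ((hsm l).1 hl)
      refine hpj ?_
      rcases lt_or_gt_of_ne hpj with hlt | hgt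
      · have h1 := sb_prod_eq_one s (Φ.br x A) hbrlt (fun l => - pr (e α - e α₀) (Φ.v l))
          (fun l hl => by nlinarith [hsign l hl])
          (by simp only [zpow_neg]; rw [Finset.prod_inv_distrib, hv, inv_one]) j hj
        simpa using h1
      · exact sb_prod_eq_one s (Φ.br x A) hbrlt (fun l => pr (e α - e α₀) (Φ.v l))
          (fun l hl => by nlinarith [hsign l hl]) hv j hj
    -- the initial form
    let M : Finset (Fin n →₀ ℕ) := f.support.filter fun α => A.valuation (mon x (e α - e α₀)) = 1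
    let f1 : MvPolynomial (Fin n) k := ∑ α ∈ M, MvPolynomial.monomial α (f.coeff α)
    have hα₀M : α₀ ∈ M := by
      refine Finset.mem_filter.2 ⟨hα₀, ?_⟩
      rw [sub_self, mon_zero, map_one]
    have hf1c : f1.coeff α₀ = f.coeff α₀ := by
      simp only [f1]
      rw [MvPolynomial.coeff_sum, Finset.sum_eq_single α₀]
      · simp
      · intro b _ hb
        rw [MvPolynomial.coeff_monomial, if_neg hb]
      · intro h
        exact absurd hα₀M h
    have hf1 : f1 ≠ 0 := by
      intro h
      rw [h, MvPolynomial.coeff_zero] at hf1c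
      exact (MvPolynomial.mem_support_iff.1 hα₀) hf1c.symm
    have hf1v : (f1.vars : Set (Fin n)) ⊆ S := by
      have : f1 ∈ MvPolynomial.supported k (S : Set (Fin n)) := by
        refine Subalgebra.sum_mem _ fun α hα => ?_
        rw [MvPolynomial.mem_supported]
        intro j hj
        have h1 : j ∈ α.support := by
          have h2 := (MvPolynomial.mem_vars_iff_mem_support j).1 hj
          obtain ⟨b, hb, hjb⟩ := h2
          rw [MvPolynomial.mem_support_iff, MvPolynomial.coeff_monomial] at hb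
          have hbα : α = b := by
            by_contra h
            rw [if_neg h] at hb
            exact hb rfl
          rw [hbα]
          exact hjb
        exact hfS j ((MvPolynomial.mem_vars_iff_mem_support j).2 ⟨α, (Finset.mem_filter.1 hα).1, h1⟩)
      exact MvPolynomial.mem_supported.1 this
    -- the sum in `A`
    let q : (α : Fin n →₀ ℕ) → A := fun α =>
      if h : A.valuation (mon x (e α - e α₀)) ≤ 1 then
        ⟨mon x (e α - e α₀), (A.valuation_le_one_iff _).1 h⟩ else 0
    have hq : ∀ α ∈ f.support, ((q α : A) : F) = mon x (e α - e α₀) := by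
      intro α hα
      simp only [q, dif_pos (hle α hα)]
    have hsumA : ∑ α ∈ f.support, algebraMap k A (f.coeff α) * q α = 0 := by
      have h1 : ((∑ α ∈ f.support, algebraMap k A (f.coeff α) * q α : A) : F) = 0 := by
        rw [AddSubmonoidClass.coe_finsetSum]
        have h2 : ∀ α ∈ f.support, ((algebraMap k A (f.coeff α) * q α : A) : F) =
            algebraMap k F (f.coeff α) * mon x (e α) * (mon x (e α₀))⁻¹ := by
          intro α hα
          rw [MulMemClass.coe_mul, hiF, hq α hα, mon_sub x hx, div_eq_mul_inv, mul_assoc]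
        rw [Finset.sum_congr rfl h2, ← Finset.sum_mul, ← hev x f, hfx, zero_mul]
      exact Subtype.ext h1
    have hsumκ : ∑ α ∈ M, algebraMap k κ (f.coeff α) * R0 (q α) = 0 := by
      have h1 := congrArg R0 hsumA
      rw [map_sum, map_zero] at h1
      rw [← h1, ← Finset.sum_filter_add_sum_filter_not f.support
        (fun α => A.valuation (mon x (e α - e α₀)) = 1)]
      have h2 : ∑ α ∈ f.support with ¬ A.valuation (mon x (e α - e α₀)) = 1,
          R0 (algebraMap k A (f.coeff α) * q α) = 0 := by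
        refine Finset.sum_eq_zero fun α hα => ?_
        obtain ⟨hα1, hα2⟩ := Finset.mem_filter.1 hα
        rw [map_mul, hR0 (q α) (by rw [hq α hα1]; exact lt_of_le_of_ne (hle α hα1) hα2), mul_zero]
      rw [h2, add_zero]
      exact Finset.sum_congr rfl fun α _ => by rw [map_mul, AlgHom.commutes]
    have hsumL : ∑ α ∈ M, algebraMap k L (f.coeff α) * R (q α) = 0 := by
      have h1 := congrArg R1 hsumκ
      rw [map_sum, map_zero] at h1
      rw [← h1]
      exact Finset.sum_congr rfl fun α _ => by rw [map_mul, AlgHom.commutes]; rfl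
    have hgM : ∀ α ∈ M, g (e α) = R (q α) * g (e α₀) := by
      intro α hα
      obtain ⟨hα1, hα2⟩ := Finset.mem_filter.1 hα
      have h1 : g (e α) = g (e α - e α₀) * g (e α₀) := by rw [← hgadd, sub_add_cancel]
      rw [h1]
      congr 1
      have h2 := horth α hα1 hα2
      have h3 : (⟨mon x (w (e α - e α₀)), hwA _⟩ : A) = q α := by
        refine Subtype.ext ?_
        rw [hq α hα1]
        show mon x (w (e α - e α₀)) = _
        rw [hworth _ h2]
      simp only [g]
      rw [h3, Finset.prod_congr rfl fun j hj => by rw [h2 j hj, zpow_zero],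
        Finset.prod_const_one, mul_one]
    have hf1X : MvPolynomial.aeval X f1 = 0 := by
      simp only [f1]
      rw [map_sum]
      have h1 : ∀ α ∈ M, MvPolynomial.aeval X (MvPolynomial.monomial α (f.coeff α)) =
          algebraMap k L (f.coeff α) * R (q α) * g (e α₀) := by
        intro α hα
        rw [MvPolynomial.aeval_monomial, mul_assoc, ← hgM α hα, ← hX]
        congr 1
        rw [Finsupp.prod_fintype _ _ fun _ => pow_zero _]
        exact Finset.prod_congr rfl fun j _ => by simp [e]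
      rw [Finset.sum_congr rfl h1, ← Finset.sum_mul, hsumL, zero_mul]
    obtain ⟨f2, hf2⟩ := MvPolynomial.exists_rename_eq_of_vars_subset_range f1
      (fun i : S => (i : Fin n)) Subtype.val_injective (by simpa using hf1v)
    have h3 : MvPolynomial.aeval (fun i : S => X i) f2 = 0 := by
      rw [← hf1X, ← hf2, MvPolynomial.aeval_rename]
      rfl
    have h4 : f2 = 0 := by
      apply hind'
      rw [h3, map_zero]
    rw [h4, map_zero] at hf2
    exact hf1 hf2.symm
  -- membership in the field generated by the `X i`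
  have hgmem : ∀ χ, g χ ∈ IntermediateField.adjoin k (Set.range X) := by
    intro χ
    rw [← hX]
    exact prod_mem fun j _ => zpow_mem (IntermediateField.subset_adjoin k _ (Set.mem_range_self j)) _
  have hzmem : ∀ f ∈ Algebra.adjoin k
      {f | ∃ χ : Fin n → ℤ, (∀ j, Φ.nt x A j → pr χ (Φ.v j) = 0) ∧ f = mon x χ},
      ∃ h : f ∈ A, R ⟨f, h⟩ ∈ IntermediateField.adjoin k (Set.range X) := by
    intro f hf
    induction hf using Algebra.adjoin_induction with
    | mem f hf =>
      obtain ⟨χ, hχ, rfl⟩ := hf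
      have hχ' : ∀ j ∈ s, pr χ (Φ.v j) = 0 := fun j hj => hχ j ((hsm j).1 hj)
      have hw := hworth χ hχ'
      have h1 : mon x χ ∈ A := by
        have := hwA χ
        rwa [hw] at this
      refine ⟨h1, ?_⟩
      have h2 : R ⟨mon x χ, h1⟩ = g χ := by
        have h3 : (⟨mon x (w χ), hwA χ⟩ : A) = ⟨mon x χ, h1⟩ := by
          refine Subtype.ext ?_
          show mon x (w χ) = mon x χ
          rw [hw]
        simp only [g]
        rw [h3, Finset.prod_congr rfl fun j hj => by rw [hχ' j hj, zpow_zero],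
          Finset.prod_const_one, mul_one]
      rw [h2]
      exact hgmem χ
    | algebraMap c =>
      refine ⟨hA c, ?_⟩
      have h1 : (⟨algebraMap k F c, hA c⟩ : A) = algebraMap k A c := rfl
      rw [h1, AlgHom.commutes]
      exact IntermediateField.algebraMap_mem _ c
    | add f f' _ _ hf hf' =>
      obtain ⟨h1, h2⟩ := hf
      obtain ⟨h1', h2'⟩ := hf'
      refine ⟨add_mem h1 h1', ?_⟩
      have h3 : (⟨f + f', add_mem h1 h1'⟩ : A) = ⟨f, h1⟩ + ⟨f', h1'⟩ := rfl
      rw [h3, map_add]
      exact add_mem h2 h2'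
    | mul f f' _ _ hf hf' =>
      obtain ⟨h1, h2⟩ := hf
      obtain ⟨h1', h2'⟩ := hf'
      refine ⟨mul_mem h1 h1', ?_⟩
      have h3 : (⟨f * f', mul_mem h1 h1'⟩ : A) = ⟨f, h1⟩ * ⟨f', h1'⟩ := rfl
      rw [h3, map_mul]
      exact mul_mem h2 h2'
  choose hzA hzR using fun a : Fin m => hzmem (z a) (hz a)
  -- independence of the residues
  let sub : A →ₐ[k] F := { A.subtype with commutes' := fun c => rfl }
  have hκ : AlgebraicIndependent k (fun a : Fin m => R0 (⟨z a, hzA a⟩ : A)) := by
    rw [algebraicIndependent_iff]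
    intro G hG
    by_contra hG0
    have h1 : MvPolynomial.aeval (fun a : Fin m => R0 (⟨z a, hzA a⟩ : A)) G =
        R0 (MvPolynomial.aeval (fun a => (⟨z a, hzA a⟩ : A)) G) := by
      have h2 := MvPolynomial.comp_aeval_apply (fun a : Fin m => (⟨z a, hzA a⟩ : A)) R0 G
      exact h2.symm
    have h2 : ((MvPolynomial.aeval (fun a => (⟨z a, hzA a⟩ : A)) G : A) : F) =
        MvPolynomial.aeval z G := by
      have h3 := MvPolynomial.comp_aeval_apply (fun a => (⟨z a, hzA a⟩ : A)) sub G
      exact h3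
    rw [h1] at hG
    exact hR0' _ (by rw [h2]; exact hind G hG0) hG
  obtain ⟨N, χ, hN, hχ⟩ := dual_vectors Φ.v s fun c hc1 hc2 =>
    hΦ.indep A hA c (fun j hj => hc1 j fun h => hj ((hsm j).1 h)) hc2
  have hτind := indep_tau (J := J) (fun a : Fin m => R0 (⟨z a, hzA a⟩ : A)) hκ
    (fun b : J => R0 (⟨mon x (w (χ b)), hwA _⟩ : A)) (fun b => hR0' _ (hwval _)) N hN
  have hy := hτind.comp (Sum.map id (Subtype.val : s → J))
    (Sum.map_injective.2 ⟨injective_id, Subtype.val_injective⟩)
  have hfin := card_le_of_dep X d hdep _ (fun a => ?_) hy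
  · rw [Fintype.card_sum, Fintype.card_fin, Fintype.card_coe] at hfin
    exact hfin
  · rcases a with a | b
    · exact hzR a
    · have h1 : g (χ b) = algebraMap (MvPolynomial J κ) L (MvPolynomial.C
          (R0 (⟨mon x (w (χ b)), hwA _⟩ : A)) * MvPolynomial.X (b : J) ^ N) := by
        simp only [g]
        rw [Finset.prod_eq_single (b : J)]
        · rw [hχ b b.2 b b.2, if_pos rfl, zpow_natCast, map_mul, map_pow]
          rfl
        · intro j hj hjb
          rw [hχ b b.2 j hj, if_neg (Ne.symm hjb), zpow_zero]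
        · intro h
          exact absurd b.2 h
      have h2 := hgmem (χ b)
      rw [h1] at h2
      exact h2
end SB

end Pool.Agent.KM
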