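import Pool.Agent.KM.XChart
import Pool.Agent.KM.XSB

/-!
Project KM3 (MP_27fd67_ag), part (C), KM-X9: the stratum bound in charts (helper56).
-/

set_option autoImplicit false

open Function
open scoped Pointwise

namespace Pool.Agent.KM

variable {k F : Type} [Field k] [Field F] [Algebra k F] {n : ℕ} {x : Fin n → F}
variable {J : Type} [Fintype J] [DecidableEq J]

theorem chart_sb (hx : ∀ i, x i ≠ 0) (d : ℕ) {H : List (Fin n → ℤ)} (hH : Rel k x d H)
    {Φ : Fan n J} (hΦ : Φ.Ok k x) (hcl : ∀ δ ∈ H, Φ.Clean k x δ)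
    (c : J × Bool → Fin n → ℤ) (hc : ∀ t, c t ∈ Φ.S t) {A : ValuationSubring F}
    (hA : Over k A) (hg : ∀ f ∈ Φ.gens x c, f ∈ A) (m : ℕ) (z : Fin m → F)
    (hz : ∀ a, z a ∈ Algebra.adjoin k (Φ.gens x c))
    (hind : ∀ G : MvPolynomial (Fin m) k, G ≠ 0 → A.valuation (MvPolynomial.aeval z G) = 1) :
    m + {j | Φ.nt x A j}.ncard ≤ d := by
  obtain ⟨z', h1, h2⟩ := chart_reduce hx hΦ c hc hA hg m z hz hind
  exact sb hx d hH hΦ hcl hA m z' h1 h2

end Pool.Agent.KM
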