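import Pool.Agent.KM.XVal

/-!
Project KM3 (MP_27fd67_ag), part (C), row X3: star subdivision (helper23).
-/

set_option autoImplicit false
set_option linter.unusedSectionVars false
set_option linter.unusedVariables false

open Function
open scoped Pointwise

namespace Pool.Agent.KM

section X3

variable {n : ℕ} {J : Type} [DecidableEq J]

/-- extension of a function of rays, additive at the new ray -/
private def xs_ext (ρ σ : J) (φ : J → ℤ) : Option J → ℤ
  | none => φ ρ + φ σ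
  | some j => φ j

private theorem xs_ext_mono (ρ σ : J) {φ φ' : J → ℤ} (h : ∀ j, φ j ≤ φ' j) (o : Option J) :
    xs_ext ρ σ φ o ≤ xs_ext ρ σ φ' o := by
  cases o with
  | none => exact add_le_add (h ρ) (h σ)
  | some j => exact h j

private theorem xs_ext_add (ρ σ : J) (φ φ' : J → ℤ) (o : Option J) :
    xs_ext ρ σ (φ + φ') o = xs_ext ρ σ φ o + xs_ext ρ σ φ' o := by
  cases o with
  | none => simp only [xs_ext, Pi.add_apply]; ring
  | some j => rfl

/-- the star subdivision -/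
private noncomputable def xs_fan (Φ : Fan n J) (ρ σ : J) : Fan n (Option J) where
  v := fun o => match o with
    | none => Φ.v ρ + Φ.v σ
    | some j => Φ.v j
  P := fun o => match o with
    | none => (Φ.P ρ + Φ.D σ) ∪ (Φ.P σ + Φ.D ρ)
    | some j => if j = ρ ∨ j = σ then Φ.P j + (Φ.D ρ + Φ.D σ) else Φ.P j
  D := fun o => match o with
    | none => Φ.D ρ + Φ.D σ
    | some j => if j = ρ ∨ j = σ then Φ.D j + ((Φ.P ρ + Φ.D σ) ∪ (Φ.P σ + Φ.D ρ)) else Φ.D j
  ψ := fun o => match o with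
    | none => xs_ext ρ σ (Φ.ψ ρ + Φ.ψ σ)
    | some j => if j = ρ ∨ j = σ then
        fun l => xs_ext ρ σ (Φ.ψ j + (Φ.ψ ρ + Φ.ψ σ)) l + (if l = none then 1 else 0)
      else xs_ext ρ σ (Φ.ψ j)

private theorem xs_pr (Φ : Fan n J) (ρ σ : J) (χ : Fin n → ℤ) (o : Option J) :
    pr χ ((xs_fan Φ ρ σ).v o) = xs_ext ρ σ (fun j => pr χ (Φ.v j)) o := by
  cases o with
  | none => exact pr_add_right χ _ _
  | some j => rfl

/-- products of values -/
private theorem xs_prod {Γ : Type} [LinearOrderedCommGroupWithZero Γ] [Fintype J] {ρ σ : J}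
    (h : ρ ≠ σ) (b : J → Γ) (M : Γ) (hb : ∀ j, b j ≠ 0) (hM : M ≠ 0) (b' : Option J → Γ)
    (h0 : b' none = M) (h1 : ∀ j, j = ρ ∨ j = σ → b' (some j) = b j / M)
    (h2 : ∀ j, ¬ (j = ρ ∨ j = σ) → b' (some j) = b j) (φ : J → ℤ) :
    ∏ o, b' o ^ xs_ext ρ σ φ o = ∏ j, b j ^ φ j := by
  rw [Fintype.prod_option, h0]
  have h3 : ∀ j, b' (some j) ^ xs_ext ρ σ φ (some j) =
      b j ^ φ j * ((if j = ρ then M ^ (-φ j) else 1) * (if j = σ then M ^ (-φ j) else 1)) := by
    intro j
    show b' (some j) ^ φ j = _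
    by_cases hj : j = ρ
    · have hj' : j ≠ σ := fun h4 => h (hj.symm.trans h4)
      rw [h1 j (Or.inl hj), if_pos hj, if_neg hj', mul_one, div_zpow, zpow_neg, div_eq_mul_inv]
    · by_cases hj' : j = σ
      · rw [h1 j (Or.inr hj'), if_neg hj, if_pos hj', one_mul, div_zpow, zpow_neg, div_eq_mul_inv]
      · rw [h2 j (by tauto), if_neg hj, if_neg hj', mul_one, mul_one]
  rw [Finset.prod_congr rfl fun j _ => h3 j, Finset.prod_mul_distrib, Finset.prod_mul_distrib,
    Finset.prod_ite_eq' Finset.univ ρ, Finset.prod_ite_eq' Finset.univ σ, if_pos (Finset.mem_univ _),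
    if_pos (Finset.mem_univ _)]
  show M ^ (φ ρ + φ σ) * _ = _
  rw [zpow_add₀ hM, zpow_neg, zpow_neg]
  have h5 : M ^ φ ρ ≠ 0 := zpow_ne_zero _ hM
  have h6 : M ^ φ σ ≠ 0 := zpow_ne_zero _ hM
  field_simp

end X3

section X
variable {k F : Type} [Field k] [Field F] [Algebra k F] {n : ℕ} {x : Fin n → F}
variable {J : Type} [Fintype J] [DecidableEq J]

theorem Fan.step (hx : ∀ i, x i ≠ 0) {Φ : Fan n J} (hΦ : Φ.Ok k x) (ρ σ : J) (h : ρ ≠ σ) :
    ∃ Φ' : Fan n (Option J), Φ'.Ok k x ∧ (∀ j, Φ'.v (some j) = Φ.v j) ∧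
      Φ'.v none = Φ.v ρ + Φ.v σ ∧
      (∀ A : ValuationSubring F, Over k A → ∀ j, Φ'.nt x A (some j) → Φ.nt x A j) ∧
      (∀ A : ValuationSubring F, Over k A → Φ'.nt x A none → Φ.nt x A ρ ∧ Φ.nt x A σ) ∧
      ∀ A : ValuationSubring F, Over k A → ¬ (Φ'.nt x A (some ρ) ∧ Φ'.nt x A (some σ)) := by
  classical
  -- the values of the new sets
  have hPm : ((Φ.P ρ + Φ.D σ) ∪ (Φ.P σ + Φ.D ρ)).Nonempty :=
    ((hΦ.neP ρ).add (hΦ.neD σ)).mono Finset.subset_union_left
  have hDm : (Φ.D ρ + Φ.D σ).Nonempty := (hΦ.neD ρ).add (hΦ.neD σ)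
  have vP0 : ∀ A : ValuationSubring F, vm A x ((xs_fan Φ ρ σ).P none) =
      max (vm A x (Φ.P ρ) * vm A x (Φ.D σ)) (vm A x (Φ.P σ) * vm A x (Φ.D ρ)) := by
    intro A
    show vm A x ((Φ.P ρ + Φ.D σ) ∪ (Φ.P σ + Φ.D ρ)) = _
    rw [vm_union, vm_add x A hx (hΦ.neP ρ) (hΦ.neD σ), vm_add x A hx (hΦ.neP σ) (hΦ.neD ρ)]
  have vD0 : ∀ A : ValuationSubring F, vm A x ((xs_fan Φ ρ σ).D none) =
      vm A x (Φ.D ρ) * vm A x (Φ.D σ) := by
    intro A
    show vm A x (Φ.D ρ + Φ.D σ) = _
    rw [vm_add x A hx (hΦ.neD ρ) (hΦ.neD σ)]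
  have hPm' : ((xs_fan Φ ρ σ).P none).Nonempty := hPm
  have hDm' : ((xs_fan Φ ρ σ).D none).Nonempty := hDm
  have ePs : ∀ j, j = ρ ∨ j = σ → (xs_fan Φ ρ σ).P (some j) = Φ.P j + (xs_fan Φ ρ σ).D none :=
    fun j hj => if_pos hj
  have eDs : ∀ j, j = ρ ∨ j = σ → (xs_fan Φ ρ σ).D (some j) = Φ.D j + (xs_fan Φ ρ σ).P none :=
    fun j hj => if_pos hj
  have ePn : ∀ j, ¬ (j = ρ ∨ j = σ) → (xs_fan Φ ρ σ).P (some j) = Φ.P j := fun j hj => if_neg hj
  have eDn : ∀ j, ¬ (j = ρ ∨ j = σ) → (xs_fan Φ ρ σ).D (some j) = Φ.D j := fun j hj => if_neg hj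
  have vPs : ∀ A : ValuationSubring F, ∀ j, j = ρ ∨ j = σ → vm A x ((xs_fan Φ ρ σ).P (some j)) =
      vm A x (Φ.P j) * (vm A x (Φ.D ρ) * vm A x (Φ.D σ)) := by
    intro A j hj
    rw [ePs j hj, vm_add x A hx (hΦ.neP j) hDm', vD0]
  have vDs : ∀ A : ValuationSubring F, ∀ j, j = ρ ∨ j = σ → vm A x ((xs_fan Φ ρ σ).D (some j)) =
      vm A x (Φ.D j) *
        max (vm A x (Φ.P ρ) * vm A x (Φ.D σ)) (vm A x (Φ.P σ) * vm A x (Φ.D ρ)) := by
    intro A j hj
    rw [eDs j hj, vm_add x A hx (hΦ.neD j) hPm', vP0]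
  have pne : ∀ (A : ValuationSubring F) j, vm A x (Φ.P j) ≠ 0 := fun A j =>
    vm_ne_zero x A hx (hΦ.neP j)
  have dne : ∀ (A : ValuationSubring F) j, vm A x (Φ.D j) ≠ 0 := fun A j =>
    vm_ne_zero x A hx (hΦ.neD j)
  have ppos : ∀ (A : ValuationSubring F) j, 0 < vm A x (Φ.P j) := fun A j =>
    zero_lt_iff.2 (pne A j)
  have dpos : ∀ (A : ValuationSubring F) j, 0 < vm A x (Φ.D j) := fun A j =>
    zero_lt_iff.2 (dne A j)
  have mpos : ∀ A : ValuationSubring F,
      0 < max (vm A x (Φ.P ρ) * vm A x (Φ.D σ)) (vm A x (Φ.P σ) * vm A x (Φ.D ρ)) := fun A =>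
    lt_max_of_lt_left (mul_pos (ppos A ρ) (dpos A σ))
  -- the support of the new fan
  have ntρ : ∀ A : ValuationSubring F, (xs_fan Φ ρ σ).nt x A (some ρ) →
      vm A x (Φ.P ρ) * vm A x (Φ.D σ) < vm A x (Φ.P σ) * vm A x (Φ.D ρ) := by
    intro A hA
    have h1 : vm A x ((xs_fan Φ ρ σ).P (some ρ)) < vm A x ((xs_fan Φ ρ σ).D (some ρ)) := hA
    rw [vPs A ρ (Or.inl rfl), vDs A ρ (Or.inl rfl)] at h1
    have h2 : vm A x (Φ.D ρ) * (vm A x (Φ.P ρ) * vm A x (Φ.D σ)) <
        vm A x (Φ.D ρ) *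
          max (vm A x (Φ.P ρ) * vm A x (Φ.D σ)) (vm A x (Φ.P σ) * vm A x (Φ.D ρ)) := by
      refine lt_of_eq_of_lt ?_ h1
      exact mul_left_comm _ _ _
    have h3 := lt_of_mul_lt_mul_left h2 (dpos A ρ).le
    rcases lt_max_iff.1 h3 with h4 | h4
    · exact absurd h4 (lt_irrefl _)
    · exact h4
  have ntσ : ∀ A : ValuationSubring F, (xs_fan Φ ρ σ).nt x A (some σ) →
      vm A x (Φ.P σ) * vm A x (Φ.D ρ) < vm A x (Φ.P ρ) * vm A x (Φ.D σ) := by
    intro A hA
    have h1 : vm A x ((xs_fan Φ ρ σ).P (some σ)) < vm A x ((xs_fan Φ ρ σ).D (some σ)) := hA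
    rw [vPs A σ (Or.inr rfl), vDs A σ (Or.inr rfl)] at h1
    have h2 : vm A x (Φ.D σ) * (vm A x (Φ.P σ) * vm A x (Φ.D ρ)) <
        vm A x (Φ.D σ) *
          max (vm A x (Φ.P ρ) * vm A x (Φ.D σ)) (vm A x (Φ.P σ) * vm A x (Φ.D ρ)) := by
      refine lt_of_eq_of_lt ?_ h1
      rw [mul_left_comm, mul_comm (vm A x (Φ.D σ))]
    have h3 := lt_of_mul_lt_mul_left h2 (dpos A σ).le
    rcases lt_max_iff.1 h3 with h4 | h4
    · exact h4
    · exact absurd h4 (lt_irrefl _)
  have nts : ∀ A : ValuationSubring F, Over k A → ∀ j, (xs_fan Φ ρ σ).nt x A (some j) →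
      Φ.nt x A j := by
    intro A hA j hj
    by_cases h1 : j = ρ ∨ j = σ
    · rcases h1 with rfl | rfl
      · have h2 := ntρ A hj
        have h3 : vm A x (Φ.P σ) * vm A x (Φ.D j) ≤ vm A x (Φ.D σ) * vm A x (Φ.D j) :=
          mul_le_mul_left (hΦ.le A hA σ) _
        have h4 : vm A x (Φ.D σ) * vm A x (Φ.P j) < vm A x (Φ.D σ) * vm A x (Φ.D j) := by
          refine lt_of_lt_of_le ?_ h3
          rwa [mul_comm]
        exact lt_of_mul_lt_mul_left h4 (dpos A σ).le
      · have h2 := ntσ A hj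
        have h3 : vm A x (Φ.P ρ) * vm A x (Φ.D j) ≤ vm A x (Φ.D ρ) * vm A x (Φ.D j) :=
          mul_le_mul_left (hΦ.le A hA ρ) _
        have h4 : vm A x (Φ.D ρ) * vm A x (Φ.P j) < vm A x (Φ.D ρ) * vm A x (Φ.D j) := by
          refine lt_of_lt_of_le ?_ h3
          rwa [mul_comm]
        exact lt_of_mul_lt_mul_left h4 (dpos A ρ).le
    · have h2 : vm A x ((xs_fan Φ ρ σ).P (some j)) < vm A x ((xs_fan Φ ρ σ).D (some j)) := hj
      rw [ePn j h1, eDn j h1] at h2
      exact h2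
  have nt0 : ∀ A : ValuationSubring F, Over k A → (xs_fan Φ ρ σ).nt x A none →
      Φ.nt x A ρ ∧ Φ.nt x A σ := by
    intro A _ hj
    have h1 : vm A x ((xs_fan Φ ρ σ).P none) < vm A x ((xs_fan Φ ρ σ).D none) := hj
    rw [vP0, vD0, max_lt_iff] at h1
    constructor
    · exact lt_of_mul_lt_mul_right h1.1 (dpos A σ).le
    · have h2 := h1.2
      rw [mul_comm (vm A x (Φ.D ρ))] at h2
      exact lt_of_mul_lt_mul_right h2 (dpos A ρ).le
  have ntn : ∀ A : ValuationSubring F, Over k A →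
      ¬ ((xs_fan Φ ρ σ).nt x A (some ρ) ∧ (xs_fan Φ ρ σ).nt x A (some σ)) := by
    rintro A _ ⟨h1, h2⟩
    exact lt_asymm (ntρ A h1) (ntσ A h2)
  -- the values of the new rays
  have hbr : ∀ (A : ValuationSubring F) (φ : J → ℤ),
      ∏ o, (xs_fan Φ ρ σ).br x A o ^ xs_ext ρ σ φ o = ∏ j, Φ.br x A j ^ φ j := by
    intro A φ
    refine xs_prod h (fun j => Φ.br x A j) ((xs_fan Φ ρ σ).br x A none)
      (fun j => div_ne_zero (pne A j) (dne A j)) ?_ (fun o => (xs_fan Φ ρ σ).br x A o) rfl ?_ ?_ φ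
    · show vm A x ((xs_fan Φ ρ σ).P none) / vm A x ((xs_fan Φ ρ σ).D none) ≠ 0
      rw [vP0, vD0]
      exact div_ne_zero (mpos A).ne' (mul_ne_zero (dne A ρ) (dne A σ))
    · intro j hj
      show vm A x ((xs_fan Φ ρ σ).P (some j)) / vm A x ((xs_fan Φ ρ σ).D (some j)) =
        vm A x (Φ.P j) / vm A x (Φ.D j) /
          (vm A x ((xs_fan Φ ρ σ).P none) / vm A x ((xs_fan Φ ρ σ).D none))
      rw [vPs A j hj, vDs A j hj, vP0, vD0]
      have h1 := (mpos A).ne'
      have h2 := dne A j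
      have h3 := dne A ρ
      have h4 := dne A σ
      rw [div_div_div_eq]
    · intro j hj
      show vm A x ((xs_fan Φ ρ σ).P (some j)) / vm A x ((xs_fan Φ ρ σ).D (some j)) =
        vm A x (Φ.P j) / vm A x (Φ.D j)
      rw [ePn j hj, eDn j hj]
  have hbrne : ∀ (A : ValuationSubring F) j, Φ.br x A j ≠ 0 := fun A j =>
    div_ne_zero (pne A j) (dne A j)
  have hpsiadd : ∀ (A : ValuationSubring F) (φ φ' : J → ℤ),
      ∏ j, Φ.br x A j ^ (φ + φ') j = (∏ j, Φ.br x A j ^ φ j) * ∏ j, Φ.br x A j ^ φ' j := by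
    intro A φ φ'
    rw [← Finset.prod_mul_distrib]
    refine Finset.prod_congr rfl fun j _ => ?_
    rw [Pi.add_apply, zpow_add₀ (hbrne A j)]
  -- the inequality for the numerators
  have hPm2 : ∀ χ ∈ (xs_fan Φ ρ σ).P none, ∀ l, xs_ext ρ σ (Φ.ψ ρ + Φ.ψ σ) l +
      (if l = none then 1 else 0) ≤ pr χ ((xs_fan Φ ρ σ).v l) := by
    intro χ hχ l
    have key : ∀ r s : J, (r = ρ ∧ s = σ ∨ r = σ ∧ s = ρ) → ∀ a ∈ Φ.P r, ∀ b ∈ Φ.D s,
        xs_ext ρ σ (Φ.ψ ρ + Φ.ψ σ) l + (if l = none then 1 else 0) ≤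
          pr (a + b) ((xs_fan Φ ρ σ).v l) := by
      intro r s hrs a ha b hb
      rw [xs_pr]
      cases l with
      | none =>
        show Φ.ψ ρ ρ + Φ.ψ σ ρ + (Φ.ψ ρ σ + Φ.ψ σ σ) + 1 ≤
          pr (a + b) (Φ.v ρ) + pr (a + b) (Φ.v σ)
        rw [pr_add, pr_add]
        have h1 := hΦ.geP r a ha r
        have h2 := hΦ.geD s b hb r
        have h3 := hΦ.geP r a ha s
        have h4 := hΦ.geD s b hb s
        rw [if_pos rfl] at h1
        have hne : ¬ s = r := by
          rintro rfl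
          rcases hrs with ⟨h5, h6⟩ | ⟨h5, h6⟩
          · exact h (h5.symm.trans h6)
          · exact h (h6.symm.trans h5)
        rw [if_neg hne] at h3
        rcases hrs with ⟨rfl, rfl⟩ | ⟨rfl, rfl⟩ <;> linarith
      | some j =>
        show Φ.ψ ρ j + Φ.ψ σ j + (if (some j : Option J) = none then 1 else 0) ≤
          pr (a + b) (Φ.v j)
        rw [pr_add, if_neg (by simp)]
        have h1 := hΦ.geP r a ha j
        have h2 := hΦ.geD s b hb j
        have h3 : Φ.ψ r j ≤ pr a (Φ.v j) := by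
          refine le_trans ?_ h1
          split_ifs <;> linarith
        rcases hrs with ⟨rfl, rfl⟩ | ⟨rfl, rfl⟩ <;> linarith
    have hχ' : χ ∈ (Φ.P ρ + Φ.D σ) ∪ (Φ.P σ + Φ.D ρ) := hχ
    rcases Finset.mem_union.1 hχ' with h1 | h1
    · obtain ⟨a, ha, b, hb, rfl⟩ := Finset.mem_add.1 h1
      exact key ρ σ (Or.inl ⟨rfl, rfl⟩) a ha b hb
    · obtain ⟨a, ha, b, hb, rfl⟩ := Finset.mem_add.1 h1
      exact key σ ρ (Or.inr ⟨rfl, rfl⟩) a ha b hb
  have hDm2 : ∀ χ ∈ (xs_fan Φ ρ σ).D none, ∀ l, xs_ext ρ σ (Φ.ψ ρ + Φ.ψ σ) l ≤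
      pr χ ((xs_fan Φ ρ σ).v l) := by
    intro χ hχ l
    have hχ' : χ ∈ Φ.D ρ + Φ.D σ := hχ
    obtain ⟨a, ha, b, hb, rfl⟩ := Finset.mem_add.1 hχ'
    rw [xs_pr]
    refine xs_ext_mono ρ σ (fun j => ?_) l
    rw [pr_add, Pi.add_apply]
    exact add_le_add (hΦ.geD ρ a ha j) (hΦ.geD σ b hb j)
  have hDj : ∀ j, ∀ χ ∈ Φ.D j, ∀ l, xs_ext ρ σ (Φ.ψ j) l ≤ pr χ ((xs_fan Φ ρ σ).v l) := by
    intro j χ hχ l
    rw [xs_pr]
    exact xs_ext_mono ρ σ (fun i => hΦ.geD j χ hχ i) l
  have hPj : ∀ j, ∀ χ ∈ Φ.P j, ∀ l, xs_ext ρ σ (Φ.ψ j + fun i => if i = j then 1 else 0) l ≤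
      pr χ ((xs_fan Φ ρ σ).v l) := by
    intro j χ hχ l
    rw [xs_pr]
    exact xs_ext_mono ρ σ (fun i => hΦ.geP j χ hχ i) l
  have eψs : ∀ j, j = ρ ∨ j = σ → ∀ l, (xs_fan Φ ρ σ).ψ (some j) l =
      xs_ext ρ σ (Φ.ψ j + (Φ.ψ ρ + Φ.ψ σ)) l + (if l = none then 1 else 0) := by
    intro j hj l
    show (if j = ρ ∨ j = σ then
        fun l => xs_ext ρ σ (Φ.ψ j + (Φ.ψ ρ + Φ.ψ σ)) l + (if l = none then 1 else 0)
      else xs_ext ρ σ (Φ.ψ j)) l = _
    rw [if_pos hj]
  have eψn : ∀ j, ¬ (j = ρ ∨ j = σ) → ∀ l, (xs_fan Φ ρ σ).ψ (some j) l =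
      xs_ext ρ σ (Φ.ψ j) l := by
    intro j hj l
    show (if j = ρ ∨ j = σ then
        fun l => xs_ext ρ σ (Φ.ψ j + (Φ.ψ ρ + Φ.ψ σ)) l + (if l = none then 1 else 0)
      else xs_ext ρ σ (Φ.ψ j)) l = _
    rw [if_neg hj]
  refine ⟨xs_fan Φ ρ σ, ?_, fun j => rfl, rfl, nts, nt0, ntn⟩
  refine ⟨?_, ?_, ?_, ?_, ?_, ?_, ?_, ?_⟩
  · -- neP
    intro o
    cases o with
    | none => exact hPm
    | some j =>
      by_cases hj : j = ρ ∨ j = σ
      · rw [ePs j hj]
        exact (hΦ.neP j).add hDm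
      · rw [ePn j hj]
        exact hΦ.neP j
  · -- neD
    intro o
    cases o with
    | none => exact hDm
    | some j =>
      by_cases hj : j = ρ ∨ j = σ
      · rw [eDs j hj]
        exact (hΦ.neD j).add hPm
      · rw [eDn j hj]
        exact hΦ.neD j
  · -- le
    intro A hA o
    cases o with
    | none =>
      rw [vP0, vD0]
      refine max_le (mul_le_mul_left (hΦ.le A hA ρ) _) ?_
      rw [mul_comm (vm A x (Φ.D ρ))]
      exact mul_le_mul_left (hΦ.le A hA σ) _
    | some j =>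
      by_cases hj : j = ρ ∨ j = σ
      · rw [vPs A j hj, vDs A j hj]
        rcases hj with rfl | rfl
        · have h1 := le_max_left (vm A x (Φ.P j) * vm A x (Φ.D σ)) (vm A x (Φ.P σ) * vm A x (Φ.D j))
          calc vm A x (Φ.P j) * (vm A x (Φ.D j) * vm A x (Φ.D σ))
              = vm A x (Φ.D j) * (vm A x (Φ.P j) * vm A x (Φ.D σ)) := mul_left_comm _ _ _
            _ ≤ _ := mul_le_mul_right h1 _
        · have h1 := le_max_right (vm A x (Φ.P ρ) * vm A x (Φ.D j)) (vm A x (Φ.P j) * vm A x (Φ.D ρ))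
          calc vm A x (Φ.P j) * (vm A x (Φ.D ρ) * vm A x (Φ.D j))
              = vm A x (Φ.D j) * (vm A x (Φ.P j) * vm A x (Φ.D ρ)) := by
                rw [mul_left_comm (vm A x (Φ.D j)), mul_comm (vm A x (Φ.D j))]
            _ ≤ _ := mul_le_mul_right h1 _
      · rw [ePn j hj, eDn j hj]
        exact hΦ.le A hA j
  · -- mono
    intro A hA χ
    rw [hΦ.mono A hA χ, ← hbr A (fun j => pr χ (Φ.v j))]
    exact Finset.prod_congr rfl fun o _ => by rw [xs_pr]
  · -- indep
    intro A hA c hc hs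
    let c1 : J → ℤ := fun j => c (some j) + (if j = ρ ∨ j = σ then c none else 0)
    have h1 : ∀ j, c1 j = 0 := by
      refine hΦ.indep A hA c1 ?_ ?_
      · intro j hj
        have h2 : c (some j) = 0 := hc _ fun h3 => hj (nts A hA j h3)
        show c (some j) + (if j = ρ ∨ j = σ then c none else 0) = 0
        rw [h2, zero_add]
        split_ifs with h4
        · apply hc
          intro h5
          have h6 := nt0 A hA h5
          rcases h4 with rfl | rfl
          · exact hj h6.1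
          · exact hj h6.2
        · rfl
      · intro i
        have h2 := hs i
        rw [Fintype.sum_option] at h2
        have h3 : c none * (xs_fan Φ ρ σ).v none i = c none * Φ.v ρ i + c none * Φ.v σ i := by
          show c none * (Φ.v ρ i + Φ.v σ i) = _
          ring
        have h4 : ∀ j, c1 j * Φ.v j i = c (some j) * Φ.v j i +
            ((if j = ρ then c none * Φ.v j i else 0) + (if j = σ then c none * Φ.v j i else 0)) := by
          intro j
          show (c (some j) + (if j = ρ ∨ j = σ then c none else 0)) * Φ.v j i = _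
          by_cases h5 : j = ρ
          · have h6 : j ≠ σ := fun h7 => h (h5.symm.trans h7)
            rw [if_pos (Or.inl h5), if_pos h5, if_neg h6]
            ring
          · by_cases h6 : j = σ
            · rw [if_pos (Or.inr h6), if_neg h5, if_pos h6]
              ring
            · rw [if_neg (by tauto), if_neg h5, if_neg h6]
              ring
        rw [Finset.sum_congr rfl fun j _ => h4 j, Finset.sum_add_distrib, Finset.sum_add_distrib,
          Finset.sum_ite_eq' Finset.univ ρ, Finset.sum_ite_eq' Finset.univ σ,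
          if_pos (Finset.mem_univ _), if_pos (Finset.mem_univ _)]
        have h5 : ∑ j, c (some j) * (xs_fan Φ ρ σ).v (some j) i = ∑ j, c (some j) * Φ.v j i := rfl
        rw [h5, h3] at h2
        linarith
    have h2 : c (some ρ) + c none = 0 := by
      have h3 : c (some ρ) + (if ρ = ρ ∨ ρ = σ then c none else 0) = 0 := h1 ρ
      rwa [if_pos (Or.inl rfl)] at h3
    have h3 : c (some σ) + c none = 0 := by
      have h3 : c (some σ) + (if σ = ρ ∨ σ = σ then c none else 0) = 0 := h1 σ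
      rwa [if_pos (Or.inr rfl)] at h3
    have h4 : c none = 0 := by
      by_cases h5 : (xs_fan Φ ρ σ).nt x A (some ρ)
      · have h6 : ¬ (xs_fan Φ ρ σ).nt x A (some σ) := fun h7 => ntn A hA ⟨h5, h7⟩
        have h7 := hc _ h6
        linarith
      · have h7 := hc _ h5
        linarith
    intro o
    cases o with
    | none => exact h4
    | some j =>
      have h5 : c (some j) + (if j = ρ ∨ j = σ then c none else 0) = 0 := h1 j
      rw [h4] at h5
      simpa using h5
  · -- psi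
    intro A hA o
    cases o with
    | none =>
      rw [vD0, hΦ.psi A hA ρ, hΦ.psi A hA σ, ← hpsiadd A, ← hbr A]
      rfl
    | some j =>
      by_cases hj : j = ρ ∨ j = σ
      · have h1 : vm A x ((xs_fan Φ ρ σ).P none) =
            (xs_fan Φ ρ σ).br x A none * vm A x ((xs_fan Φ ρ σ).D none) := by
          show _ = vm A x ((xs_fan Φ ρ σ).P none) / vm A x ((xs_fan Φ ρ σ).D none) * _
          rw [div_mul_cancel₀]
          rw [vD0]
          exact mul_ne_zero (dne A ρ) (dne A σ)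
        have h2 : vm A x ((xs_fan Φ ρ σ).D (some j)) =
            (∏ i, Φ.br x A i ^ (Φ.ψ j + (Φ.ψ ρ + Φ.ψ σ)) i) * (xs_fan Φ ρ σ).br x A none := by
          rw [eDs j hj, vm_add x A hx (hΦ.neD j) hPm', hpsiadd, hpsiadd, h1, vD0,
            hΦ.psi A hA ρ, hΦ.psi A hA σ, hΦ.psi A hA j,
            mul_comm ((xs_fan Φ ρ σ).br x A none), ← mul_assoc]
        rw [h2, ← hbr A]
        have h3 : ∀ o : Option J, (xs_fan Φ ρ σ).br x A o ^ (xs_fan Φ ρ σ).ψ (some j) o =
            (xs_fan Φ ρ σ).br x A o ^ xs_ext ρ σ (Φ.ψ j + (Φ.ψ ρ + Φ.ψ σ)) o *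
              (if o = none then (xs_fan Φ ρ σ).br x A o else 1) := by
          intro o
          have h4 : (xs_fan Φ ρ σ).br x A o ≠ 0 := by
            cases o with
            | none =>
              show vm A x ((xs_fan Φ ρ σ).P none) / vm A x ((xs_fan Φ ρ σ).D none) ≠ 0
              rw [vP0, vD0]
              exact div_ne_zero (mpos A).ne' (mul_ne_zero (dne A ρ) (dne A σ))
            | some i =>
              show vm A x ((xs_fan Φ ρ σ).P (some i)) / vm A x ((xs_fan Φ ρ σ).D (some i)) ≠ 0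
              by_cases hi : i = ρ ∨ i = σ
              · rw [vPs A i hi, vDs A i hi]
                exact div_ne_zero (mul_ne_zero (pne A i) (mul_ne_zero (dne A ρ) (dne A σ)))
                  (mul_ne_zero (dne A i) (mpos A).ne')
              · rw [ePn i hi, eDn i hi]
                exact div_ne_zero (pne A i) (dne A i)
          rw [eψs j hj, zpow_add₀ h4]
          split_ifs
          · rw [zpow_one]
          · rw [zpow_zero]
        rw [Finset.prod_congr rfl fun o _ => h3 o, Finset.prod_mul_distrib,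
          Finset.prod_ite_eq' Finset.univ (none : Option J), if_pos (Finset.mem_univ _)]
      · rw [eDn j hj, hΦ.psi A hA j, ← hbr A]
        exact Finset.prod_congr rfl fun o _ => by rw [eψn j hj]
  · -- geD
    intro o χ hχ l
    cases o with
    | none => exact hDm2 χ hχ l
    | some j =>
      by_cases hj : j = ρ ∨ j = σ
      · rw [eDs j hj] at hχ
        obtain ⟨a, ha, b, hb, rfl⟩ := Finset.mem_add.1 hχ
        rw [eψs j hj, pr_add, xs_ext_add]
        have h1 := hDj j a ha l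
        have h2 := hPm2 b hb l
        linarith
      · rw [eDn j hj] at hχ
        rw [eψn j hj]
        exact hDj j χ hχ l
  · -- geP
    intro o χ hχ l
    cases o with
    | none => exact hPm2 χ hχ l
    | some j =>
      by_cases hj : j = ρ ∨ j = σ
      · rw [ePs j hj] at hχ
        obtain ⟨a, ha, b, hb, rfl⟩ := Finset.mem_add.1 hχ
        rw [eψs j hj, pr_add, xs_ext_add]
        have h1 := hPj j a ha l
        have h2 := hDm2 b hb l
        rw [xs_ext_add] at h1
        have h3 : (if l = none then 1 else 0 : ℤ) + (if l = some j then 1 else 0) ≤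
            xs_ext ρ σ (fun i => if i = j then 1 else 0) l := by
          cases l with
          | none =>
            show (if (none : Option J) = none then 1 else 0 : ℤ) +
              (if (none : Option J) = some j then 1 else 0) ≤
              (if ρ = j then 1 else 0) + (if σ = j then 1 else 0)
            rw [if_pos rfl, if_neg (by simp)]
            rcases hj with rfl | rfl
            · rw [if_pos rfl]
              split_ifs <;> linarith
            · rw [if_pos rfl]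
              split_ifs <;> linarith
          | some i =>
            show (if (some i : Option J) = none then 1 else 0 : ℤ) +
              (if (some i : Option J) = some j then 1 else 0) ≤ (if i = j then 1 else 0)
            rw [if_neg (by simp)]
            simp
        linarith
      · rw [ePn j hj] at hχ
        rw [eψn j hj]
        have h1 := hPj j χ hχ l
        rw [xs_ext_add] at h1
        have h3 : (if l = some j then 1 else 0 : ℤ) ≤
            xs_ext ρ σ (fun i => if i = j then 1 else 0) l := by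
          cases l with
          | none =>
            show (if (none : Option J) = some j then 1 else 0 : ℤ) ≤
              (if ρ = j then 1 else 0) + (if σ = j then 1 else 0)
            rw [if_neg (by simp)]
            split_ifs <;> norm_num
          | some i =>
            show (if (some i : Option J) = some j then 1 else 0 : ℤ) ≤ (if i = j then 1 else 0)
            simp
        linarith
end X

end Pool.Agent.KM
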