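import Pool.Agent.KM.XStart
import Pool.Agent.KM.XStep

/-!
Project KM3 (MP_27fd67_ag), part (C), row X4: subdivision until the signs are constant (helper23).
-/

set_option autoImplicit false

open Function
open scoped Pointwise

namespace Pool.Agent.KM

section X4

variable {k F : Type} [Field k] [Field F] [Algebra k F] {n : ℕ}

/-- two rays of one support with opposite signs -/
private def xc_bad (k : Type) [Field k] [Algebra k F] {J : Type} (Φ : Fan n J) (x : Fin n → F)
    (δ : Fin n → ℤ) (i j : J) : Prop :=
  (∃ A : ValuationSubring F, Over k A ∧ Φ.nt x A i ∧ Φ.nt x A j) ∧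
    pr δ (Φ.v i) * pr δ (Φ.v j) < 0

private theorem xc_clean {J : Type} {Φ : Fan n J} {x : Fin n → F} {δ : Fin n → ℤ}
    (h : ∀ i j, ¬ xc_bad k Φ x δ i j) : Φ.Clean k x δ := by
  intro A hA i j hi hj
  by_contra hlt
  exact h i j ⟨⟨A, hA, hi, hj⟩, not_le.1 hlt⟩

private theorem xc_main {x : Fin n → F} (hx : ∀ i, x i ≠ 0) (H : List (Fin n → ℤ))
    (δ : Fin n → ℤ) (M : ℕ) : ∀ c : ℕ, ∀ (J : Type) (_ : Fintype J) (_ : DecidableEq J)
      (Φ : Fan n J), Φ.Ok k x → (∀ δ' ∈ H, Φ.Clean k x δ') →
      (∀ i j, xc_bad k Φ x δ i j → |pr δ (Φ.v i)| ≤ (M : ℤ)) →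
      {p : J × J | xc_bad k Φ x δ p.1 p.2 ∧ |pr δ (Φ.v p.1)| = (M : ℤ)}.ncard ≤ c →
      ∃ (J' : Type) (_ : Fintype J') (_ : DecidableEq J') (Φ' : Fan n J'), Φ'.Ok k x ∧
        (∀ δ' ∈ H, Φ'.Clean k x δ') ∧ Φ'.Clean k x δ := by
  classical
  induction M with
  | zero =>
    intro c J hJ hd Φ hΦ hcl hb _
    refine ⟨J, hJ, hd, Φ, hΦ, hcl, xc_clean fun i j hij => ?_⟩
    have h1 := hb i j hij
    have h2 : pr δ (Φ.v i) = 0 := by
      rw [← abs_eq_zero]
      exact le_antisymm (by exact_mod_cast h1) (abs_nonneg _)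
    have h3 := hij.2
    rw [h2, zero_mul] at h3
    exact lt_irrefl _ h3
  | succ M ihM =>
    intro c
    -- the case without bad pairs of the largest size
    have hbase : ∀ (J : Type) (_ : Fintype J) (_ : DecidableEq J)
        (Φ : Fan n J), Φ.Ok k x → (∀ δ' ∈ H, Φ.Clean k x δ') →
        (∀ i j, xc_bad k Φ x δ i j → |pr δ (Φ.v i)| ≤ ((M + 1 : ℕ) : ℤ)) →
        (∀ i j, xc_bad k Φ x δ i j → |pr δ (Φ.v i)| ≠ ((M + 1 : ℕ) : ℤ)) →
        ∃ (J' : Type) (_ : Fintype J') (_ : DecidableEq J') (Φ' : Fan n J'), Φ'.Ok k x ∧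
          (∀ δ' ∈ H, Φ'.Clean k x δ') ∧ Φ'.Clean k x δ := by
      intro J hJ hd Φ hΦ hcl hb hne
      refine ihM _ J hJ hd Φ hΦ hcl (fun i j hij => ?_) le_rfl
      have h1 := hb i j hij
      have h2 := hne i j hij
      push_cast at h1 h2 ⊢
      omega
    induction c with
    | zero =>
      intro J hJ hd Φ hΦ hcl hb hc
      refine hbase J hJ hd Φ hΦ hcl hb fun i j hij heq => ?_
      have h1 : {p : J × J | xc_bad k Φ x δ p.1 p.2 ∧
          |pr δ (Φ.v p.1)| = ((M + 1 : ℕ) : ℤ)} = ∅ :=
        (Set.ncard_eq_zero (Set.toFinite _)).1 (Nat.le_zero.1 hc)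
      have h2 : (i, j) ∈ {p : J × J | xc_bad k Φ x δ p.1 p.2 ∧
          |pr δ (Φ.v p.1)| = ((M + 1 : ℕ) : ℤ)} := ⟨hij, heq⟩
      rw [h1] at h2
      exact h2
    | succ c ihc =>
      intro J hJ hd Φ hΦ hcl hb hc
      by_cases hex : ∃ i j, xc_bad k Φ x δ i j ∧ |pr δ (Φ.v i)| = ((M + 1 : ℕ) : ℤ)
      · obtain ⟨ρ, σ₀, hbad₀, hρ⟩ := hex
        -- the best partner
        obtain ⟨σ, hσmem, hσmax⟩ := Finset.exists_max_image
          (Finset.univ.filter fun s => xc_bad k Φ x δ ρ s) (fun s => |pr δ (Φ.v s)|)
          ⟨σ₀, Finset.mem_filter.2 ⟨Finset.mem_univ _, hbad₀⟩⟩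
        have hbad : xc_bad k Φ x δ ρ σ := (Finset.mem_filter.1 hσmem).2
        have hmax : ∀ s, xc_bad k Φ x δ ρ s → |pr δ (Φ.v s)| ≤ |pr δ (Φ.v σ)| := fun s hs =>
          hσmax s (Finset.mem_filter.2 ⟨Finset.mem_univ _, hs⟩)
        have hsymm : ∀ i j, xc_bad k Φ x δ i j → xc_bad k Φ x δ j i := by
          rintro i j ⟨⟨A, hA, h1, h2⟩, h3⟩
          refine ⟨⟨A, hA, h2, h1⟩, ?_⟩
          rwa [mul_comm]
        have hσle : |pr δ (Φ.v σ)| ≤ ((M + 1 : ℕ) : ℤ) := hb σ ρ (hsymm ρ σ hbad)
        have hne : ρ ≠ σ := by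
          rintro rfl
          have h1 := hbad.2
          nlinarith [mul_self_nonneg (pr δ (Φ.v ρ))]
        obtain ⟨Φ', hΦ', hv, hv0, hnt, hnt0, hntn⟩ := Fan.step hx hΦ ρ σ hne
        have hneg := hbad.2
        set a := pr δ (Φ.v ρ) with ha
        set b := pr δ (Φ.v σ) with hb'
        have hv0' : pr δ (Φ'.v none) = a + b := by
          rw [hv0, pr_add_right]
        -- sign facts
        have hsgn : |a + b| < ((M + 1 : ℕ) : ℤ) := by
          rw [← hρ]
          rcases lt_or_gt_of_ne (show a ≠ 0 by
            rintro h0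
            rw [h0, zero_mul] at hneg
            exact lt_irrefl _ hneg) with h1 | h1
          · have h2 : 0 < b := by
              by_contra h3
              nlinarith
            rw [← hρ, abs_of_neg h1, abs_of_pos h2] at hσle
            rw [abs_of_neg h1, abs_of_nonpos (by linarith)]
            linarith
          · have h2 : b < 0 := by
              by_contra h3
              nlinarith
            rw [← hρ, abs_of_pos h1, abs_of_neg h2] at hσle
            rw [abs_of_pos h1, abs_of_nonneg (by linarith)]
            linarith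
        -- a ray of the support with the opposite sign of the new ray
        have hopp : ∀ t : ℤ, t * (a + b) < 0 → a * t < 0 ∧ |a| ≠ |b| := by
          intro t ht
          have h0 : |a| ≠ |b| := by
            intro h1
            rcases abs_eq_abs.1 h1 with h2 | h2
            · rw [h2] at hneg
              nlinarith [mul_self_nonneg b]
            · rw [h2, neg_add_cancel, mul_zero] at ht
              exact lt_irrefl _ ht
          refine ⟨?_, h0⟩
          rw [← hρ] at hσle
          have h1 : |b| < |a| := lt_of_le_of_ne hσle (Ne.symm h0)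
          rcases lt_or_gt_of_ne (show a ≠ 0 by
            rintro h0
            rw [h0, zero_mul] at hneg
            exact lt_irrefl _ hneg) with h3 | h3
          · have h2 : 0 < b := by
              by_contra h4
              nlinarith
            rw [abs_of_neg h3, abs_of_pos h2] at h1
            have h5 : a + b < 0 := by linarith
            have h6 : 0 < t := by
              by_contra h7
              nlinarith
            nlinarith
          · have h2 : b < 0 := by
              by_contra h4
              nlinarith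
            rw [abs_of_pos h3, abs_of_neg h2] at h1
            have h5 : 0 < a + b := by linarith
            have h6 : t < 0 := by
              by_contra h7
              nlinarith
            nlinarith
        -- classification of the new bad pairs
        have hss : ∀ i j, xc_bad k Φ' x δ (some i) (some j) → xc_bad k Φ x δ i j := by
          rintro i j ⟨⟨A, hA, h1, h2⟩, h3⟩
          rw [hv, hv] at h3
          exact ⟨⟨A, hA, hnt A hA i h1, hnt A hA j h2⟩, h3⟩
        have hsn : ∀ i, xc_bad k Φ' x δ (some i) none → xc_bad k Φ x δ ρ i ∧ |a| ≠ |b| := by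
          rintro i ⟨⟨A, hA, h1, h2⟩, h3⟩
          rw [hv, hv0'] at h3
          obtain ⟨h4, h5⟩ := hopp _ h3
          exact ⟨⟨⟨A, hA, (hnt0 A hA h2).1, hnt A hA i h1⟩, h4⟩, h5⟩
        refine ihc (Option J) inferInstance inferInstance Φ' hΦ' ?_ ?_ ?_
        · -- the other signs stay constant
          intro δ' hδ' A hA i j hi hj
          have hgen : ∀ o, Φ'.nt x A o → ∀ j : J, Φ.nt x A j →
              0 ≤ pr δ' (Φ'.v o) * pr δ' (Φ.v j) := by
            intro o ho j hj
            cases o with
            | none =>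
              rw [hv0, pr_add_right, add_mul]
              exact add_nonneg (hcl δ' hδ' A hA ρ j (hnt0 A hA ho).1 hj)
                (hcl δ' hδ' A hA σ j (hnt0 A hA ho).2 hj)
            | some i =>
              rw [hv]
              exact hcl δ' hδ' A hA i j (hnt A hA i ho) hj
          cases j with
          | none =>
            rw [hv0, pr_add_right, mul_add]
            exact add_nonneg (hgen i hi ρ (hnt0 A hA hj).1) (hgen i hi σ (hnt0 A hA hj).2)
          | some j =>
            rw [hv j]
            exact hgen i hi j (hnt A hA j hj)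
        · -- the bound
          intro i j hij
          cases i with
          | none =>
            rw [hv0']
            exact hsgn.le
          | some i =>
            rw [hv]
            cases j with
            | none => exact hb i ρ (hsymm ρ i (hsn i hij).1)
            | some j => exact hb i j (hss i j hij)
        · -- the number of bad pairs
          have hsub : {p : Option J × Option J | xc_bad k Φ' x δ p.1 p.2 ∧
              |pr δ (Φ'.v p.1)| = ((M + 1 : ℕ) : ℤ)} ⊆
              (fun p : J × J => ((some p.1 : Option J), (some p.2 : Option J))) ''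
                ({p : J × J | xc_bad k Φ x δ p.1 p.2 ∧
                  |pr δ (Φ.v p.1)| = ((M + 1 : ℕ) : ℤ)} \ {(ρ, σ)}) := by
            rintro ⟨i, j⟩ ⟨h1, h2⟩
            simp only at h1 h2
            cases i with
            | none =>
              rw [hv0'] at h2
              exact absurd h2 hsgn.ne
            | some i =>
              rw [hv] at h2
              cases j with
              | none =>
                exfalso
                obtain ⟨h3, h4⟩ := hsn i h1
                have h5 := hmax i h3
                apply h4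
                rw [hρ]
                exact le_antisymm (h2 ▸ h5) hσle
              | some j =>
                refine ⟨(i, j), ⟨⟨hss i j h1, h2⟩, ?_⟩, rfl⟩
                rintro heq
                rw [Set.mem_singleton_iff, Prod.mk.injEq] at heq
                obtain ⟨rfl, rfl⟩ := heq
                obtain ⟨A, hA, h3, h4⟩ := h1.1
                exact hntn A hA ⟨h3, h4⟩
          have h1 := Set.ncard_le_ncard hsub (Set.toFinite _)
          have h2 := Set.ncard_image_le
            (f := fun p : J × J => ((some p.1 : Option J), (some p.2 : Option J)))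
            (s := ({p : J × J | xc_bad k Φ x δ p.1 p.2 ∧
                  |pr δ (Φ.v p.1)| = ((M + 1 : ℕ) : ℤ)} \ {(ρ, σ)})) (Set.toFinite _)
          have h3 : (ρ, σ) ∈ {p : J × J | xc_bad k Φ x δ p.1 p.2 ∧
              |pr δ (Φ.v p.1)| = ((M + 1 : ℕ) : ℤ)} := ⟨hbad, hρ⟩
          have h4 := Set.ncard_sdiff_singleton_add_one h3 (Set.toFinite _)
          omega
      · push Not at hex
        exact hbase J hJ hd Φ hΦ hcl hb hex

theorem exists_clean {x : Fin n → F} (hx : ∀ i, x i ≠ 0) (H : List (Fin n → ℤ)) :
    ∃ (J : Type) (_ : Fintype J) (_ : DecidableEq J) (Φ : Fan n J), Φ.Ok k x ∧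
      ∀ δ ∈ H, Φ.Clean k x δ := by
  classical
  induction H with
  | nil =>
    obtain ⟨Φ, hΦ⟩ := fan_start (k := k) hx
    exact ⟨_, inferInstance, inferInstance, Φ, hΦ, by simp⟩
  | cons δ H ih =>
    obtain ⟨J, hJ, hd, Φ, hΦ, hcl⟩ := ih
    obtain ⟨M, hM⟩ : ∃ M : ℕ, ∀ i : J, |pr δ (Φ.v i)| ≤ (M : ℤ) := by
      refine ⟨∑ i : J, (pr δ (Φ.v i)).natAbs, fun i => ?_⟩
      have h1 : (pr δ (Φ.v i)).natAbs ≤ ∑ i : J, (pr δ (Φ.v i)).natAbs :=
        Finset.single_le_sum (f := fun i : J => (pr δ (Φ.v i)).natAbs)
          (fun _ _ => Nat.zero_le _) (Finset.mem_univ i)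
      rw [Int.abs_eq_natAbs]
      exact_mod_cast h1
    obtain ⟨J', hJ', hd', Φ', h1, h2, h3⟩ := xc_main hx H δ M _ J hJ hd Φ hΦ hcl
      (fun i _ _ => hM i) le_rfl
    exact ⟨J', hJ', hd', Φ', h1, fun δ' hδ' => by
      rcases List.mem_cons.1 hδ' with rfl | h4
      · exact h3
      · exact h2 δ' h4⟩

end X4

end Pool.Agent.KM
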