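import Pool.Agent.KM.Defs

/-!
Project KM3 (MP_27fd67_ag), part (C): general position of all entries at once. Definitions
(helper60).
-/

set_option autoImplicit false

open Function

open scoped Pointwise

namespace Pool.Agent.KM

/-- The monomial with exponents `χ` in the elements `x i`. -/
def mon {F : Type} [Field F] {n : ℕ} (x : Fin n → F) (χ : Fin n → ℤ) : F := ∏ i, x i ^ χ i

/-- The pairing of exponents and ray vectors. -/
def pr {n : ℕ} (χ v : Fin n → ℤ) : ℤ := ∑ i, χ i * v i

/-- The largest value of a monomial with exponents in `S`. -/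
noncomputable def vm {F : Type} [Field F] {n : ℕ} (A : ValuationSubring F) (x : Fin n → F)
    (S : Finset (Fin n → ℤ)) : A.ValueGroup :=
  S.sup fun χ => A.valuation (mon x χ)

/-- The linear combination of the monomials with exponents in `S`, coefficients in the list `l`. -/
noncomputable def gp {k F : Type} [Field k] [Field F] [Algebra k F] {n : ℕ} (x : Fin n → F)
    (l : ℕ → k) (S : Finset (Fin n → ℤ)) : F :=
  ∑ χ ∈ S, algebraMap k F (l (Encodable.encode χ)) * mon x χ

/-- The data of a fan: ray vectors `v j`, exponent sets `P j` (numerators) and `D j`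
(denominators), and the piecewise linear functions `ψ j` of the sets `D j`. -/
structure Fan (n : ℕ) (J : Type) where
  v : J → Fin n → ℤ
  P : J → Finset (Fin n → ℤ)
  D : J → Finset (Fin n → ℤ)
  ψ : J → J → ℤ

variable {F : Type} [Field F] {n : ℕ} {J : Type}

/-- The value of the ray `j` at `A`. -/
noncomputable def Fan.br (Φ : Fan n J) (x : Fin n → F) (A : ValuationSubring F) (j : J) :
    A.ValueGroup :=
  vm A x (Φ.P j) / vm A x (Φ.D j)

/-- The ray `j` is in the support of `A`. -/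
def Fan.nt (Φ : Fan n J) (x : Fin n → F) (A : ValuationSubring F) (j : J) : Prop :=
  vm A x (Φ.P j) < vm A x (Φ.D j)

/-- The axioms of a fan for the elements `x i` over `k`. -/
structure Fan.Ok (k : Type) [Field k] [Algebra k F] [Fintype J] [DecidableEq J] (Φ : Fan n J)
    (x : Fin n → F) : Prop where
  neP : ∀ j, (Φ.P j).Nonempty
  neD : ∀ j, (Φ.D j).Nonempty
  le : ∀ A : ValuationSubring F, Over k A → ∀ j, vm A x (Φ.P j) ≤ vm A x (Φ.D j)
  mono : ∀ A : ValuationSubring F, Over k A → ∀ χ,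
    A.valuation (mon x χ) = ∏ j, Φ.br x A j ^ pr χ (Φ.v j)
  indep : ∀ A : ValuationSubring F, Over k A → ∀ c : J → ℤ, (∀ j, ¬ Φ.nt x A j → c j = 0) →
    (∀ i, ∑ j, c j * Φ.v j i = 0) → ∀ j, c j = 0
  psi : ∀ A : ValuationSubring F, Over k A → ∀ j,
    vm A x (Φ.D j) = ∏ l, Φ.br x A l ^ Φ.ψ j l
  geD : ∀ j, ∀ χ ∈ Φ.D j, ∀ l, Φ.ψ j l ≤ pr χ (Φ.v l)
  geP : ∀ j, ∀ χ ∈ Φ.P j, ∀ l, Φ.ψ j l + (if l = j then 1 else 0) ≤ pr χ (Φ.v l)

/-- Any two rays in the support of one `A` have values of the same sign on `δ`. -/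
def Fan.Clean (k : Type) [Field k] [Algebra k F] (Φ : Fan n J) (x : Fin n → F)
    (δ : Fin n → ℤ) : Prop :=
  ∀ A : ValuationSubring F, Over k A → ∀ i j, Φ.nt x A i → Φ.nt x A j →
    0 ≤ pr δ (Φ.v i) * pr δ (Φ.v j)

/-- `H` contains the differences of the exponents of one nonzero polynomial relation for each
set of `d + 1` of the elements `x i`. -/
def Rel (k : Type) [Field k] [Algebra k F] (x : Fin n → F) (d : ℕ) (H : List (Fin n → ℤ)) :
    Prop :=
  ∀ S : Finset (Fin n), S.card = d + 1 → ∃ f : MvPolynomial (Fin n) k, f ≠ 0 ∧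
    (∀ i ∈ f.vars, i ∈ S) ∧ MvPolynomial.aeval x f = 0 ∧
    ∀ α ∈ f.support, ∀ α' ∈ f.support, (fun i => (α i : ℤ) - α' i) ∈ H

/-- The exponent sets: `true` for `P`, `false` for `D`. -/
def Fan.S (Φ : Fan n J) (t : J × Bool) : Finset (Fin n → ℤ) := if t.2 then Φ.P t.1 else Φ.D t.1

/-- The generators of the chart of the choice `c` of elements of the exponent sets. -/
def Fan.gens (Φ : Fan n J) (x : Fin n → F) (c : J × Bool → Fin n → ℤ) : Set F :=
  {f | ∃ t, ∃ χ ∈ Φ.S t, f = mon x (χ - c t)} ∪ {f | ∃ j, f = mon x (c (j, true) - c (j, false))}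

/-- The entries which occur in the expansion: a ray, a moving element, a quotient of two
representatives of the same ray; `s`, `s'` are the numbers of the blocks of parameters. -/
inductive Ent (J : Type) (n : ℕ) : Type
  | ray (j : J) (s : ℕ) : Ent J n
  | mov (i : Fin n) (s : ℕ) : Ent J n
  | rat (j : J) (s s' : ℕ) : Ent J n

/-- The blocks of an entry. -/
def Ent.blk : Ent J n → Finset ℕ
  | .ray _ s => {s}
  | .mov _ s => {s}
  | .rat _ s s' => {s, s'}

/-- The numerator of an entry. -/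
noncomputable def Ent.num {k : Type} [Field k] [Algebra k F] [Fintype J] (Φ : Fan n J)
    (x : Fin n → F) (l : ℕ → ℕ → k) : Ent J n → F
  | .ray j s => gp x (l s) (Φ.P j)
  | .mov i s => x i * ∏ j, (gp x (l s) (Φ.D j) ^ (Φ.v j i).toNat *
      gp x (l s) (Φ.P j) ^ (- Φ.v j i).toNat)
  | .rat j s s' => gp x (l s) (Φ.P j) * gp x (l s') (Φ.D j)

/-- The denominator of an entry. -/
noncomputable def Ent.den {k : Type} [Field k] [Algebra k F] [Fintype J] (Φ : Fan n J)
    (x : Fin n → F) (l : ℕ → ℕ → k) : Ent J n → F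
  | .ray j s => gp x (l s) (Φ.D j)
  | .mov i s => ∏ j, (gp x (l s) (Φ.P j) ^ (Φ.v j i).toNat *
      gp x (l s) (Φ.D j) ^ (- Φ.v j i).toNat)
  | .rat j s s' => gp x (l s) (Φ.D j) * gp x (l s') (Φ.P j)

end Pool.Agent.KM
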