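import Pool.Agent.KM.XDefs

set_option autoImplicit false

/-! KM-X8: algebraic independence modulo primes. -/

namespace Pool.Agent.KM

section X
variable {k F : Type} [Field k] [Field F] [Algebra k F] {n : ℕ} {x : Fin n → F}
variable {J : Type} [Fintype J] [DecidableEq J]

theorem x8_aeval {R : Type} [CommRing R] [Algebra k R] (f : R) (m : ℕ) (z : Fin m → R)
    (G : MvPolynomial (Fin (m + 1)) k) :
    MvPolynomial.aeval (Fin.cons f z : Fin (m + 1) → R) G =
      Polynomial.eval₂ (MvPolynomial.aeval z : MvPolynomial (Fin m) k →ₐ[k] R).toRingHom f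
        (MvPolynomial.finSuccEquiv k m G) := by
  induction G using MvPolynomial.induction_on with
  | C a =>
    simp [MvPolynomial.finSuccEquiv_apply]
  | add p q hp hq => rw [map_add, map_add, Polynomial.eval₂_add, hp, hq]
  | mul_X p i hp =>
    rw [map_mul, map_mul, Polynomial.eval₂_mul, hp, MvPolynomial.aeval_X]
    congr 1
    refine Fin.cases ?_ (fun j => ?_) i
    · rw [Fin.cons_zero, MvPolynomial.finSuccEquiv_X_zero, Polynomial.eval₂_X]
    · rw [Fin.cons_succ, MvPolynomial.finSuccEquiv_X_succ, Polynomial.eval₂_C]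
      simp

theorem x8_poly {R : Type} [CommRing R] [Algebra k R] (𝔮 𝔭 : Ideal R) [𝔮.IsPrime]
    (h : 𝔮 ≤ 𝔭) (f : R) (hf : f ∈ 𝔭) (hf' : f ∉ 𝔮) (m : ℕ) (z : Fin m → R)
    (hz : ∀ G : MvPolynomial (Fin m) k, G ≠ 0 → MvPolynomial.aeval z G ∉ 𝔭) (N : ℕ) :
    ∀ P : Polynomial (MvPolynomial (Fin m) k), P.natDegree ≤ N → P ≠ 0 →
      Polynomial.eval₂ (MvPolynomial.aeval z : MvPolynomial (Fin m) k →ₐ[k] R).toRingHom f P
        ∉ 𝔮 := by
  induction N with
  | zero =>
    intro P hP hP0 hmem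
    rw [Polynomial.eq_C_of_natDegree_le_zero hP, Polynomial.eval₂_C] at hmem
    refine hz (P.coeff 0) ?_ (h hmem)
    intro h0
    apply hP0
    rw [Polynomial.eq_C_of_natDegree_le_zero hP, h0, map_zero]
  | succ N ih =>
    intro P hP hP0 hmem
    have hdiv := Polynomial.divX_mul_X_add P
    rw [← hdiv, Polynomial.eval₂_add, Polynomial.eval₂_mul, Polynomial.eval₂_X,
      Polynomial.eval₂_C] at hmem
    by_cases h0 : P.coeff 0 = 0
    · rw [h0, map_zero, add_zero] at hmem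
      have h1 := (Ideal.IsPrime.mem_or_mem ‹𝔮.IsPrime› hmem).resolve_right hf'
      refine ih P.divX ?_ ?_ h1
      · rw [Polynomial.natDegree_divX_eq_natDegree_tsub_one]
        omega
      · intro h2
        apply hP0
        rw [← hdiv, h2, h0, zero_mul, map_zero, add_zero]
    · refine hz (P.coeff 0) h0 ?_
      have h1 := h hmem
      have h2 : Polynomial.eval₂
          (MvPolynomial.aeval z : MvPolynomial (Fin m) k →ₐ[k] R).toRingHom f P.divX * f ∈ 𝔭 :=
        Ideal.mul_mem_left _ _ hf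
      exact (Ideal.add_mem_iff_right _ h2).1 h1

theorem ind_drop {R : Type} [CommRing R] [Algebra k R] (𝔮 𝔭 : Ideal R) [𝔮.IsPrime] [𝔭.IsPrime]
    (h : 𝔮 ≤ 𝔭) (f : R) (hf : f ∈ 𝔭) (hf' : f ∉ 𝔮) (m : ℕ) (z : Fin m → R)
    (hz : ∀ G : MvPolynomial (Fin m) k, G ≠ 0 → MvPolynomial.aeval z G ∉ 𝔭) :
    ∀ G : MvPolynomial (Fin (m + 1)) k, G ≠ 0 →
      MvPolynomial.aeval (Fin.cons f z : Fin (m + 1) → R) G ∉ 𝔮 := by
  intro G hG
  rw [x8_aeval]
  refine x8_poly 𝔮 𝔭 h f hf hf' m z hz _ _ le_rfl ?_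
  intro h0
  exact hG ((MvPolynomial.finSuccEquiv k m).injective (by rw [h0, map_zero]))

end X

end Pool.Agent.KM
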