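import Pool.Agent.KM.XDefs
import Pool.Agent.KM.MBasic

/-!
Project KM3 (MP_27fd67_ag), row KM-X11: expansion in entries with disjoint blocks (helper40).
-/

set_option autoImplicit false
set_option linter.all false

open Function
open scoped Pointwise

namespace Pool.Agent.KM

section basic
variable {F ι : Type} [Field F] [DecidableEq ι] {T : (ι → F) → ℝ}

/-- exchanging the values at two places changes the sign -/
theorem x11_swap (hT : IsM T) (v : ι → F) {i j : ι} (hij : i ≠ j) {a b : F} (ha : a ≠ 0)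
    (hb : b ≠ 0) : T (update (update v i b) j a) = - T (update (update v i a) j b) := by
  have h0 : T (update (update v i (a * b)) j (a * b)) = 0 :=
    hT.of_eq _ hij (by rw [update_of_ne hij, update_self, update_self])
  rw [hT.mul _ j _ _ ha hb, update_comm hij, update_comm hij, hT.mul _ i _ _ ha hb,
    hT.mul _ i _ _ ha hb] at h0
  have h1 : T (update (update v j a) i a) = 0 :=
    hT.of_eq _ hij (by rw [update_self, update_of_ne hij.symm, update_self])
  have h2 : T (update (update v j b) i b) = 0 :=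
    hT.of_eq _ hij (by rw [update_self, update_of_ne hij.symm, update_self])
  rw [update_comm hij, update_comm hij]
  linarith

/-- the three quotients -/
theorem x11_three (hT : IsM T) (v : ι → F) {i j : ι} (hij : i ≠ j) {s s' f : F} (hs : s ≠ 0)
    (hs' : s' ≠ 0) (hf : f ≠ 0) (h : T (update (update v i s) j s') ≠ 0) :
    T (update (update v i (s / f)) j s') ≠ 0 ∨ T (update (update v i f) j (s' / s)) ≠ 0 ∨
      T (update (update v i (f / s')) j s) ≠ 0 := by
  by_contra hcon
  push Not at hcon
  obtain ⟨h1, h2, h3⟩ := hcon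
  rw [update_comm hij, hT.div _ i hs hf, update_comm hij.symm, update_comm hij.symm] at h1
  rw [hT.div _ j hs' hs] at h2
  rw [update_comm hij, hT.div _ i hf hs', update_comm hij.symm, update_comm hij.symm] at h3
  have h4 := x11_swap hT v hij hs hs'
  apply h
  linarith

theorem x11_zpow (hT : IsM T) (w : ι → F) (i : ι) {c : F} (hc : c ≠ 0)
    (h : T (update w i c) = 0) (z : ℤ) : T (update w i (c ^ z)) = 0 := by
  rcases z with m | m
  · rw [Int.ofNat_eq_natCast, zpow_natCast, hT.m1_pow w i hc, h, mul_zero]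
  · rw [zpow_negSucc, hT.inv w i (pow_ne_zero _ hc), hT.m1_pow w i hc, h, mul_zero, neg_zero]

theorem x11_prod {J : Type} [Fintype J] (hT : IsM T) (w : ι → F) (i : ι) (b : J → F) (z : J → ℤ)
    (u : F) (hb : ∀ j, b j ≠ 0) (hu : u ≠ 0) (h : T (update w i ((∏ j, b j ^ z j) * u)) ≠ 0) :
    (∃ j, T (update w i (b j)) ≠ 0) ∨ T (update w i u) ≠ 0 := by
  by_contra hcon
  push Not at hcon
  obtain ⟨h1, h2⟩ := hcon
  have h3 : (∏ j, b j ^ z j) ≠ 0 ∧ T (update w i (∏ j, b j ^ z j)) = 0 := by
    refine Finset.prod_induction (fun j => b j ^ z j) (fun c => c ≠ 0 ∧ T (update w i c) = 0)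
      ?_ ?_ ?_
    · rintro a c ⟨ha, ha'⟩ ⟨hc, hc'⟩
      exact ⟨mul_ne_zero ha hc, by rw [hT.mul w i a c ha hc, ha', hc', add_zero]⟩
    · exact ⟨one_ne_zero, hT.one w i⟩
    · intro j _
      exact ⟨zpow_ne_zero _ (hb j), x11_zpow hT w i (hb j) (h1 j) (z j)⟩
  apply h
  rw [hT.mul w i _ _ h3.1 hu, h3.2, h2, add_zero]

theorem x11_pd {F : Type} [Field F] {P D : F} (hP : P ≠ 0) (hD : D ≠ 0) (z : ℤ) :
    (P / D) ^ z * (D ^ z.toNat * P ^ (- z).toNat) = P ^ z.toNat * D ^ (- z).toNat := by
  rcases le_total 0 z with h | h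
  · obtain ⟨m, rfl⟩ := Int.eq_ofNat_of_zero_le h
    have e : (-(m : ℤ)).toNat = 0 := by omega
    rw [e, Int.toNat_natCast, zpow_natCast, div_pow]
    field_simp
  · obtain ⟨m, hm⟩ := Int.eq_ofNat_of_zero_le (neg_nonneg.2 h)
    have e1 : z = -(m : ℤ) := by omega
    subst e1
    have e : (-(m : ℤ)).toNat = 0 := by omega
    rw [e, neg_neg, Int.toNat_natCast, zpow_neg, zpow_natCast, div_pow]
    field_simp

end basic

section X
variable {k F : Type} [Field k] [Field F] [Algebra k F] {n : ℕ} {x : Fin n → F}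
variable {J : Type} [Fintype J] [DecidableEq J]

/-- the value of an entry -/
noncomputable def x11_val (Φ : Fan n J) (x : Fin n → F) (l : ℕ → ℕ → k) (e : Ent J n) : F :=
  e.num Φ x l / e.den Φ x l

theorem x11_rat (Φ : Fan n J) (l : ℕ → ℕ → k) (j : J) (s s' : ℕ) :
    x11_val Φ x l (.rat j s s') = x11_val Φ x l (.ray j s) / x11_val Φ x l (.ray j s') := by
  unfold x11_val Ent.num Ent.den
  simp only
  rw [div_div_div_eq]

theorem x11_gp_ne {Φ : Fan n J} {l : ℕ → ℕ → k}
    (hl : ∀ s, s < 2 * n → ∀ t, gp x (l s) (Φ.S t) ≠ 0) {s : ℕ} (hs : s < 2 * n) (j : J) :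
    gp x (l s) (Φ.P j) ≠ 0 ∧ gp x (l s) (Φ.D j) ≠ 0 := by
  refine ⟨?_, ?_⟩
  · have h := hl s hs (j, true)
    simpa [Fan.S] using h
  · have h := hl s hs (j, false)
    simpa [Fan.S] using h

theorem x11_ray_ne {Φ : Fan n J} {l : ℕ → ℕ → k}
    (hl : ∀ s, s < 2 * n → ∀ t, gp x (l s) (Φ.S t) ≠ 0) {s : ℕ} (hs : s < 2 * n) (j : J) :
    x11_val Φ x l (.ray j s) ≠ 0 := by
  obtain ⟨h1, h2⟩ := x11_gp_ne hl hs j
  exact div_ne_zero h1 h2

theorem x11_mov_eq (hx : ∀ i, x i ≠ 0) {Φ : Fan n J} {l : ℕ → ℕ → k}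
    (hl : ∀ s, s < 2 * n → ∀ t, gp x (l s) (Φ.S t) ≠ 0) {s : ℕ} (hs : s < 2 * n) (i : Fin n) :
    x i = (∏ j, x11_val Φ x l (.ray j s) ^ Φ.v j i) * x11_val Φ x l (.mov i s) := by
  have hP : ∀ j, gp x (l s) (Φ.P j) ≠ 0 := fun j => (x11_gp_ne hl hs j).1
  have hD : ∀ j, gp x (l s) (Φ.D j) ≠ 0 := fun j => (x11_gp_ne hl hs j).2
  have h1 : (∏ j, x11_val Φ x l (.ray j s) ^ Φ.v j i) *
      (∏ j, (gp x (l s) (Φ.D j) ^ (Φ.v j i).toNat * gp x (l s) (Φ.P j) ^ (- Φ.v j i).toNat)) =
      ∏ j, (gp x (l s) (Φ.P j) ^ (Φ.v j i).toNat * gp x (l s) (Φ.D j) ^ (- Φ.v j i).toNat) := by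
    rw [← Finset.prod_mul_distrib]
    refine Finset.prod_congr rfl fun j _ => ?_
    exact x11_pd (hP j) (hD j) _
  have h2 : (∏ j, (gp x (l s) (Φ.P j) ^ (Φ.v j i).toNat *
      gp x (l s) (Φ.D j) ^ (- Φ.v j i).toNat)) ≠ 0 :=
    Finset.prod_ne_zero_iff.2 fun j _ =>
      mul_ne_zero (pow_ne_zero _ (hP j)) (pow_ne_zero _ (hD j))
  have h3 : x11_val Φ x l (.mov i s) = x i * (∏ j, (gp x (l s) (Φ.D j) ^ (Φ.v j i).toNat *
      gp x (l s) (Φ.P j) ^ (- Φ.v j i).toNat)) /
      ∏ j, (gp x (l s) (Φ.P j) ^ (Φ.v j i).toNat * gp x (l s) (Φ.D j) ^ (- Φ.v j i).toNat) := rfl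
  rw [h3, ← mul_div_assoc, eq_div_iff h2, ← h1]
  ring

theorem x11_mov_ne (hx : ∀ i, x i ≠ 0) {Φ : Fan n J} {l : ℕ → ℕ → k}
    (hl : ∀ s, s < 2 * n → ∀ t, gp x (l s) (Φ.S t) ≠ 0) {s : ℕ} (hs : s < 2 * n) (i : Fin n) :
    x11_val Φ x l (.mov i s) ≠ 0 := by
  intro h
  have h1 := x11_mov_eq hx hl hs i
  rw [h, mul_zero] at h1
  exact hx i h1

/-- the first expansion: one block for each place -/
theorem x11_first (hx : ∀ i, x i ≠ 0) (Φ : Fan n J) (T : (Fin n → F) → ℝ) (hT : IsM T)
    (hTx : T x ≠ 0) (l : ℕ → ℕ → k)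
    (hl : ∀ s, s < 2 * n → ∀ t, gp x (l s) (Φ.S t) ≠ 0) (S : Finset (Fin n)) :
    ∃ e : Fin n → Ent J n, (∀ i, (e i).blk = {(i : ℕ)}) ∧
      T (fun i => if i ∈ S then x11_val Φ x l (e i) else x i) ≠ 0 := by
  induction S using Finset.induction_on with
  | empty => exact ⟨fun i => .mov i i, fun i => rfl, by simpa using hTx⟩
  | @insert a S ha ih =>
    obtain ⟨e, he, hTe⟩ := ih
    have has : (a : ℕ) < 2 * n := by omega
    have h1 : (fun i => if i ∈ S then x11_val Φ x l (e i) else x i) =
        update (fun i => if i ∈ S then x11_val Φ x l (e i) else x i) a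
          ((∏ j, x11_val Φ x l (.ray j a) ^ Φ.v j a) * x11_val Φ x l (.mov a a)) := by
      rw [← x11_mov_eq hx hl has a]
      refine (update_eq_self_iff.2 ?_).symm
      rw [if_neg ha]
    rw [h1] at hTe
    have key : ∀ E : Ent J n, E.blk = {(a : ℕ)} →
        T (update (fun i => if i ∈ S then x11_val Φ x l (e i) else x i) a (x11_val Φ x l E)) ≠ 0 →
        ∃ e : Fin n → Ent J n, (∀ i, (e i).blk = {(i : ℕ)}) ∧
          T (fun i => if i ∈ insert a S then x11_val Φ x l (e i) else x i) ≠ 0 := by
      intro E hE hTE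
      refine ⟨update e a E, fun i => ?_, ?_⟩
      · by_cases hi : i = a
        · subst hi; rw [update_self]; exact hE
        · rw [update_of_ne hi]; exact he i
      · convert hTE using 2
        funext i
        by_cases hi : i = a
        · subst hi; rw [update_self, update_self, if_pos (Finset.mem_insert_self _ _)]
        · rw [update_of_ne hi, update_of_ne hi]
          simp only [Finset.mem_insert, hi, false_or]
    rcases x11_prod hT _ a (fun j => x11_val Φ x l (.ray j a)) (fun j => Φ.v j a) _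
      (fun j => x11_ray_ne hl has j) (x11_mov_ne hx hl has a) hTe with ⟨j, hj⟩ | h
    · exact key (.ray j a) rfl hj
    · exact key (.mov a a) rfl h

/-- the elimination of double rays -/
theorem x11_elim (Φ : Fan n J) (T : (Fin n → F) → ℝ) (hT : IsM T) (l : ℕ → ℕ → k)
    (hl : ∀ s, s < 2 * n → ∀ t, gp x (l s) (Φ.S t) ≠ 0) (r : ℕ) (hr : r ≤ 2 * n)
    (e : Fin n → Ent J n) (R : Finset (Fin n)) (hR : ∀ i j s, e i = .ray j s → i ∈ R)
    (hRc : R.card ≤ r) (hb : ∀ i, ∀ s ∈ (e i).blk, s < 2 * n - r)
    (hd : ∀ i i', i ≠ i' → Disjoint (e i).blk (e i').blk)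
    (hTe : T (fun i => x11_val Φ x l (e i)) ≠ 0) :
    ∃ e : Fin n → Ent J n, (∀ i, ∀ s ∈ (e i).blk, s < 2 * n) ∧
      (∀ i i', i ≠ i' → Disjoint (e i).blk (e i').blk) ∧
      (∀ i i' j s s', i ≠ i' → e i = .ray j s → e i' ≠ .ray j s') ∧
      T (fun i => x11_val Φ x l (e i)) ≠ 0 := by
  induction r generalizing e R with
  | zero =>
    have hR0 : R = ∅ := Finset.card_eq_zero.1 (Nat.le_zero.1 hRc)
    refine ⟨e, fun i s hs => by have := hb i s hs; omega, hd, ?_, hTe⟩
    intro i i' j s s' _ h
    have := hR i j s h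
    rw [hR0] at this
    exact absurd this (Finset.notMem_empty _)
  | succ r ih =>
    by_cases hc : ∀ i i' j s s', i ≠ i' → e i = .ray j s → e i' ≠ .ray j s'
    · exact ⟨e, fun i s hs => by have := hb i s hs; omega, hd, hc, hTe⟩
    push Not at hc
    obtain ⟨i, i', j, s, s', hii, hi, hi'⟩ := hc
    have hs : s < 2 * n - (r + 1) := hb i s (by rw [hi]; exact Finset.mem_singleton_self _)
    have hs' : s' < 2 * n - (r + 1) := hb i' s' (by rw [hi']; exact Finset.mem_singleton_self _)
    have hss : s ≠ s' := by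
      have := hd i i' hii
      rw [hi, hi'] at this
      intro h
      rw [h] at this
      exact Finset.disjoint_left.1 this (Finset.mem_singleton_self _) (Finset.mem_singleton_self _)
    let f : ℕ := 2 * n - (r + 1)
    have hf : f < 2 * n - r := by omega
    have hf2 : f < 2 * n := by omega
    -- blocks at the other places
    have hother : ∀ o, o ≠ i → o ≠ i' → ∀ b ∈ (e o).blk, b ≠ s ∧ b ≠ s' ∧ b ≠ f := by
      intro o ho ho' b hb1
      refine ⟨?_, ?_, ?_⟩
      · rintro rfl
        have := hd o i ho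
        rw [hi] at this
        exact Finset.disjoint_left.1 this hb1 (Finset.mem_singleton_self _)
      · rintro rfl
        have := hd o i' ho'
        rw [hi'] at this
        exact Finset.disjoint_left.1 this hb1 (Finset.mem_singleton_self _)
      · have := hb o b hb1
        intro h
        rw [h] at this
        exact lt_irrefl _ this
    have key : ∀ (E E' : Ent J n) (q : Fin n), (q = i ∨ q = i') →
        (∀ j s, E = .ray j s → q ≠ i) → (∀ j s, E' = .ray j s → q ≠ i') →
        (∀ b ∈ E.blk, b = s ∨ b = s' ∨ b = f) → (∀ b ∈ E'.blk, b = s ∨ b = s' ∨ b = f) →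
        Disjoint E.blk E'.blk →
        T (update (update (fun o => x11_val Φ x l (e o)) i (x11_val Φ x l E)) i'
          (x11_val Φ x l E')) ≠ 0 →
        ∃ e : Fin n → Ent J n, (∀ i, ∀ s ∈ (e i).blk, s < 2 * n) ∧
          (∀ i i', i ≠ i' → Disjoint (e i).blk (e i').blk) ∧
          (∀ i i' j s s', i ≠ i' → e i = .ray j s → e i' ≠ .ray j s') ∧
          T (fun i => x11_val Φ x l (e i)) ≠ 0 := by
      intro E E' q hq hE hE' hEb hEb' hEE hTE
      have hqR : q ∈ R := by
        rcases hq with rfl | rfl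
        · exact hR _ _ _ hi
        · exact hR _ _ _ hi'
      refine ih (by omega) (update (update e i E) i' E') (R.erase q) ?_ ?_ ?_ ?_ ?_
      · intro o j' b ho
        rw [Finset.mem_erase]
        by_cases h1 : o = i'
        · subst h1
          rw [update_self] at ho
          exact ⟨fun h => hE' _ _ ho h.symm, hR _ _ _ hi'⟩
        rw [update_of_ne h1] at ho
        by_cases h2 : o = i
        · subst h2
          rw [update_self] at ho
          exact ⟨fun h => hE _ _ ho h.symm, hR _ _ _ hi⟩
        rw [update_of_ne h2] at ho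
        refine ⟨?_, hR _ _ _ ho⟩
        rintro rfl
        rcases hq with h | h
        · exact h2 h
        · exact h1 h
      · rw [Finset.card_erase_of_mem hqR]
        omega
      · intro o b hb1
        by_cases h1 : o = i'
        · subst h1
          rw [update_self] at hb1
          rcases hEb' b hb1 with h | h | h <;> omega
        rw [update_of_ne h1] at hb1
        by_cases h2 : o = i
        · subst h2
          rw [update_self] at hb1
          rcases hEb b hb1 with h | h | h <;> omega
        rw [update_of_ne h2] at hb1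
        have := hb o b hb1
        omega
      · -- disjointness
        have hoth : ∀ o, o ≠ i → o ≠ i' → Disjoint (e o).blk E.blk ∧
            Disjoint (e o).blk E'.blk := by
          intro o ho ho'
          refine ⟨Finset.disjoint_left.2 fun b h1 h2 => ?_,
            Finset.disjoint_left.2 fun b h1 h2 => ?_⟩
          · obtain ⟨a1, a2, a3⟩ := hother o ho ho' b h1
            rcases hEb b h2 with h | h | h
            exacts [a1 h, a2 h, a3 h]
          · obtain ⟨a1, a2, a3⟩ := hother o ho ho' b h1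
            rcases hEb' b h2 with h | h | h
            exacts [a1 h, a2 h, a3 h]
        intro o o' hoo
        by_cases h1 : o = i'
        · subst h1
          rw [update_self, update_of_ne hoo.symm]
          by_cases h2 : o' = i
          · subst h2; rw [update_self]; exact hEE.symm
          · rw [update_of_ne h2]; exact (hoth o' h2 hoo.symm).2.symm
        rw [update_of_ne h1]
        by_cases h2 : o = i
        · subst h2
          rw [update_self]
          by_cases h3 : o' = i'
          · subst h3; rw [update_self]; exact hEE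
          · rw [update_of_ne h3, update_of_ne hoo.symm]
            exact (hoth o' hoo.symm h3).1.symm
        rw [update_of_ne h2]
        by_cases h3 : o' = i'
        · subst h3; rw [update_self]; exact (hoth o h2 h1).2
        rw [update_of_ne h3]
        by_cases h4 : o' = i
        · subst h4; rw [update_self]; exact (hoth o h2 h1).1
        rw [update_of_ne h4]
        exact hd o o' hoo
      · convert hTE using 2
        funext o
        by_cases h1 : o = i'
        · subst h1; rw [update_self, update_self]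
        rw [update_of_ne h1, update_of_ne h1]
        by_cases h2 : o = i
        · subst h2; rw [update_self, update_self]
        rw [update_of_ne h2, update_of_ne h2]
    have hs2 : s < 2 * n := by omega
    have hs2' : s' < 2 * n := by omega
    have hfs : f ≠ s := by omega
    have hfs' : f ≠ s' := by omega
    have hT0 : T (update (update (fun o => x11_val Φ x l (e o)) i (x11_val Φ x l (.ray j s))) i'
        (x11_val Φ x l (.ray j s'))) ≠ 0 := by
      rw [← hi, ← hi', update_eq_self, update_eq_self]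
      exact hTe
    rcases x11_three hT _ hii (x11_ray_ne hl hs2 j) (x11_ray_ne hl hs2' j)
      (x11_ray_ne hl hf2 j) hT0 with h | h | h
    · rw [← x11_rat] at h
      refine key (.rat j s f) (.ray j s') i (Or.inl rfl) ?_ ?_ ?_ ?_ ?_ h
      · intro j' b hb1; exact absurd hb1 (by simp)
      · intro j' b hb1; exact hii
      · intro b hb1
        have : b = s ∨ b = f := by simpa [Ent.blk] using hb1
        tauto
      · intro b hb1
        have : b = s' := by simpa [Ent.blk] using hb1
        tauto
      · simp [Ent.blk, hss.symm, hfs'.symm, hss, hfs']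
    · rw [← x11_rat] at h
      refine key (.ray j f) (.rat j s' s) i' (Or.inr rfl) ?_ ?_ ?_ ?_ ?_ h
      · intro j' b hb1; exact hii.symm
      · intro j' b hb1; exact absurd hb1 (by simp)
      · intro b hb1
        have : b = f := by simpa [Ent.blk] using hb1
        tauto
      · intro b hb1
        have : b = s' ∨ b = s := by simpa [Ent.blk] using hb1
        tauto
      · simp [Ent.blk, hfs, hfs']
    · rw [← x11_rat] at h
      refine key (.rat j f s') (.ray j s) i (Or.inl rfl) ?_ ?_ ?_ ?_ ?_ h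
      · intro j' b hb1; exact absurd hb1 (by simp)
      · intro j' b hb1; exact hii
      · intro b hb1
        have : b = f ∨ b = s' := by simpa [Ent.blk] using hb1
        tauto
      · intro b hb1
        have : b = s := by simpa [Ent.blk] using hb1
        tauto
      · simp [Ent.blk, hss.symm, hfs, hss, hfs.symm]

/-! ### KM-X11 (file XEntries.lean): expansion in entries with disjoint blocks -/
theorem exists_entries (hx : ∀ i, x i ≠ 0) (Φ : Fan n J) (T : (Fin n → F) → ℝ) (hT : IsM T)
    (hTx : T x ≠ 0) (l : ℕ → ℕ → k)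
    (hl : ∀ s, s < 2 * n → ∀ t, gp x (l s) (Φ.S t) ≠ 0) :
    ∃ e : Fin n → Ent J n, (∀ i, ∀ s ∈ (e i).blk, s < 2 * n) ∧
      (∀ i i', i ≠ i' → Disjoint (e i).blk (e i').blk) ∧
      (∀ i i' j s s', i ≠ i' → e i = .ray j s → e i' ≠ .ray j s') ∧
      T (fun i => (e i).num Φ x l / (e i).den Φ x l) ≠ 0 := by
  obtain ⟨e, he, hTe⟩ := x11_first hx Φ T hT hTx l hl Finset.univ
  have h1 : T (fun i => x11_val Φ x l (e i)) ≠ 0 := by simpa using hTe
  refine x11_elim Φ T hT l hl n (by omega) e Finset.univ (fun i _ _ _ => Finset.mem_univ i)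
    (by simp) ?_ ?_ h1
  · intro i s hs
    rw [he i, Finset.mem_singleton] at hs
    have := i.2
    omega
  · intro i i' hii
    rw [he i, he i', Finset.disjoint_singleton]
    exact fun h => hii (Fin.ext h)

end X

end Pool.Agent.KM
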