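import Pool.Agent.KM.XDefs
import Pool.Agent.KM.VGauss

/-!
KM-X1: values of monomials and of generic combinations of monomials (helper63).
-/

set_option autoImplicit false
set_option linter.all false

open Function
open scoped Pointwise

namespace Pool.Agent.KM

section X1
variable {k F : Type} [Field k] [Field F] [Algebra k F] {n : ℕ} (x : Fin n → F)
  (A : ValuationSubring F)

theorem pr_add (χ χ' v : Fin n → ℤ) : pr (χ + χ') v = pr χ v + pr χ' v := by
  simp only [pr, Pi.add_apply, add_mul, Finset.sum_add_distrib]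

theorem pr_sub (χ χ' v : Fin n → ℤ) : pr (χ - χ') v = pr χ v - pr χ' v := by
  simp only [pr, Pi.sub_apply, sub_mul, Finset.sum_sub_distrib]

theorem pr_add_right (χ v v' : Fin n → ℤ) : pr χ (v + v') = pr χ v + pr χ v' := by
  simp only [pr, Pi.add_apply, mul_add, Finset.sum_add_distrib]

theorem mon_zero : mon x 0 = 1 := by
  simp only [mon, Pi.zero_apply, zpow_zero, Finset.prod_const_one]

theorem mon_single (i : Fin n) : mon x (Pi.single i 1) = x i := by
  rw [mon, Finset.prod_eq_single i]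
  · rw [Pi.single_eq_same, zpow_one]
  · intro j _ hj
    rw [Pi.single_eq_of_ne hj, zpow_zero]
  · intro h
    exact absurd (Finset.mem_univ _) h

theorem mon_ne_zero (hx : ∀ i, x i ≠ 0) (χ : Fin n → ℤ) : mon x χ ≠ 0 :=
  Finset.prod_ne_zero_iff.2 fun i _ => zpow_ne_zero _ (hx i)

theorem mon_add (hx : ∀ i, x i ≠ 0) (χ χ' : Fin n → ℤ) :
    mon x (χ + χ') = mon x χ * mon x χ' := by
  simp only [mon, ← Finset.prod_mul_distrib]
  exact Finset.prod_congr rfl fun i _ => by rw [Pi.add_apply, zpow_add₀ (hx i)]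

theorem mon_sub (hx : ∀ i, x i ≠ 0) (χ χ' : Fin n → ℤ) :
    mon x (χ - χ') = mon x χ / mon x χ' := by
  simp only [mon, ← Finset.prod_div_distrib]
  exact Finset.prod_congr rfl fun i _ => by rw [Pi.sub_apply, zpow_sub₀ (hx i)]

theorem le_vm {S : Finset (Fin n → ℤ)} {χ : Fin n → ℤ} (h : χ ∈ S) :
    A.valuation (mon x χ) ≤ vm A x S :=
  Finset.le_sup (f := fun χ => A.valuation (mon x χ)) h

theorem vm_le {S : Finset (Fin n → ℤ)} {γ : A.ValueGroup}
    (h : ∀ χ ∈ S, A.valuation (mon x χ) ≤ γ) : vm A x S ≤ γ :=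
  Finset.sup_le h

theorem exists_vm {S : Finset (Fin n → ℤ)} (hS : S.Nonempty) :
    ∃ χ ∈ S, A.valuation (mon x χ) = vm A x S := by
  obtain ⟨χ, hχ, h⟩ := Finset.exists_mem_eq_sup S hS (fun χ => A.valuation (mon x χ))
  exact ⟨χ, hχ, h.symm⟩

theorem vm_ne_zero (hx : ∀ i, x i ≠ 0) {S : Finset (Fin n → ℤ)} (hS : S.Nonempty) :
    vm A x S ≠ 0 := by
  obtain ⟨χ, -, h⟩ := exists_vm x A hS
  rw [← h]
  exact (Valuation.ne_zero_iff _).2 (mon_ne_zero x hx χ)

theorem vm_singleton (χ : Fin n → ℤ) : vm A x {χ} = A.valuation (mon x χ) :=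
  Finset.sup_singleton ..

theorem vm_add (hx : ∀ i, x i ≠ 0) {S S' : Finset (Fin n → ℤ)} (hS : S.Nonempty)
    (hS' : S'.Nonempty) : vm A x (S + S') = vm A x S * vm A x S' := by
  apply le_antisymm
  · apply vm_le
    intro χ hχ
    obtain ⟨χ₁, h₁, χ₂, h₂, rfl⟩ := Finset.mem_add.1 hχ
    rw [mon_add x hx, map_mul]
    exact mul_le_mul' (le_vm x A h₁) (le_vm x A h₂)
  · obtain ⟨χ₁, h₁, e₁⟩ := exists_vm x A hS
    obtain ⟨χ₂, h₂, e₂⟩ := exists_vm x A hS'
    rw [← e₁, ← e₂, ← map_mul, ← mon_add x hx]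
    exact le_vm x A (Finset.add_mem_add h₁ h₂)

theorem vm_union (S S' : Finset (Fin n → ℤ)) :
    vm A x (S ∪ S') = max (vm A x S) (vm A x S') :=
  Finset.sup_union

theorem val_span_le (hA : Over k A) (S : Finset (Fin n → ℤ)) :
    ∀ u ∈ Submodule.span k (mon x '' (S : Set (Fin n → ℤ))), A.valuation u ≤ vm A x S := by
  intro u hu
  induction hu using Submodule.span_induction with
  | mem u h =>
    obtain ⟨χ, hχ, rfl⟩ := h
    exact le_vm x A hχ
  | zero =>
    rw [map_zero]
    exact zero_le'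
  | add u v _ _ h1 h2 => exact (A.valuation.map_add u v).trans (max_le h1 h2)
  | smul c u _ h =>
    rw [Algebra.smul_def, map_mul]
    calc A.valuation (algebraMap k F c) * A.valuation u ≤ 1 * vm A x S :=
          mul_le_mul' ((A.valuation_le_one_iff _).2 (hA c)) h
      _ = vm A x S := one_mul _

theorem gp_mem_span (l : ℕ → k) (S : Finset (Fin n → ℤ)) :
    gp x l S ∈ Submodule.span k (mon x '' (S : Set (Fin n → ℤ))) := by
  refine Submodule.sum_mem _ fun χ hχ => ?_
  rw [← Algebra.smul_def]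
  exact Submodule.smul_mem _ _ (Submodule.subset_span ⟨χ, hχ, rfl⟩)

theorem gp_val (hx : ∀ i, x i ≠ 0) (hA : Over k A) {S : Finset (Fin n → ℤ)}
    (hS : S.Nonempty) : ∀ᶠ l in Gen k, A.valuation (gp x l S) = vm A x S := by
  classical
  set P : MvPolynomial ℕ F :=
    ∑ χ ∈ S, MvPolynomial.C (mon x χ) * MvPolynomial.X (Encodable.encode χ) with hP
  have hcoeff : ∀ α : ℕ →₀ ℕ, P.coeff α =
      ∑ χ ∈ S, if Finsupp.single (Encodable.encode χ) 1 = α then mon x χ else 0 := by
    intro α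
    rw [hP, MvPolynomial.coeff_sum]
    refine Finset.sum_congr rfl fun χ _ => ?_
    rw [MvPolynomial.coeff_C_mul, MvPolynomial.coeff_X', mul_ite, mul_one, mul_zero]
  have hinj : ∀ χ χ' : Fin n → ℤ,
      Finsupp.single (Encodable.encode χ) 1 = Finsupp.single (Encodable.encode χ') 1 →
      χ = χ' := by
    intro χ χ' h
    exact Encodable.encode_injective ((Finsupp.single_left_inj one_ne_zero).1 h)
  have hc : ∀ χ ∈ S, P.coeff (Finsupp.single (Encodable.encode χ) 1) = mon x χ := by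
    intro χ hχ
    rw [hcoeff, Finset.sum_eq_single χ]
    · rw [if_pos rfl]
    · intro χ' _ hne
      rw [if_neg]
      intro h
      exact hne (hinj _ _ h)
    · intro h
      exact absurd hχ h
  obtain ⟨χ₀, hχ₀⟩ := hS
  have hP0 : P ≠ 0 := by
    intro h
    have h1 := hc χ₀ hχ₀
    rw [h, MvPolynomial.coeff_zero] at h1
    exact mon_ne_zero x hx χ₀ h1.symm
  obtain ⟨α, hα, hmax, hev⟩ := ev_gauss P hP0 A hA
  have hα1 : ∃ χ ∈ S, Finsupp.single (Encodable.encode χ) 1 = α := by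
    by_contra hcon
    push Not at hcon
    apply MvPolynomial.mem_support_iff.1 hα
    rw [hcoeff]
    exact Finset.sum_eq_zero fun χ hχ => if_neg (hcon χ hχ)
  obtain ⟨χ, hχ, rfl⟩ := hα1
  rw [hc χ hχ] at hev hmax
  have hvm : A.valuation (mon x χ) = vm A x S := by
    apply le_antisymm (le_vm x A hχ)
    apply vm_le
    intro χ' hχ'
    have h1 := hmax (Finsupp.single (Encodable.encode χ') 1)
    rw [hc χ' hχ'] at h1
    exact h1
  filter_upwards [hev] with l hl
  rw [← hvm, ← hl]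
  congr 1
  have e : ev l P = ∑ χ ∈ S, ev l (MvPolynomial.C (mon x χ) *
      MvPolynomial.X (Encodable.encode χ)) := by
    rw [hP, map_sum]
  rw [e, gp]
  refine Finset.sum_congr rfl fun χ' _ => ?_
  rw [map_mul, show ev l (MvPolynomial.C (mon x χ')) = mon x χ' from MvPolynomial.eval_C _,
    show ev l (MvPolynomial.X (Encodable.encode χ')) =
      algebraMap k F (l (Encodable.encode χ')) from MvPolynomial.eval_X _, mul_comm]

theorem gp_ne_zero (hx : ∀ i, x i ≠ 0) {S : Finset (Fin n → ℤ)} (hS : S.Nonempty) :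
    ∀ᶠ l in Gen k, gp x l S ≠ 0 := by
  have hA : Over k (⊤ : ValuationSubring F) := fun c => ValuationSubring.mem_top _
  filter_upwards [gp_val x ⊤ hx hA hS] with l hl h0
  rw [h0, map_zero] at hl
  exact vm_ne_zero x ⊤ hx hS hl.symm

end X1

end Pool.Agent.KM
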