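import Pool.Agent.KM.XDefs
import Pool.Agent.KM.PDom
import Pool.Agent.KM.VGen
import Pool.Agent.KM.XVal
import Pool.Agent.KM.XDrop
import Pool.Agent.KM.XChartSB

/-!
Project KM3 (MP_27fd67_ag), row KM-X10: the master general position theorem (helper49).
-/

set_option autoImplicit false
set_option linter.all false

open Function
open scoped Pointwise

namespace Pool.Agent.KM

section X10
variable {k F : Type} [Field k] [Field F] [Algebra k F] {n : ℕ} {x : Fin n → F}
variable {J : Type} [Fintype J] [DecidableEq J]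

/-- the ring of a chart -/
noncomputable abbrev x10_R (k : Type) [Field k] [Algebra k F] (Φ : Fan n J) (x : Fin n → F)
    (c : J × Bool → Fin n → ℤ) : Subalgebra k F := Algebra.adjoin k (Φ.gens x c)

/-- the invariant -/
def x10_Inv (k : Type) [Field k] [Algebra k F] (Φ : Fan n J) (x : Fin n → F) (d N : ℕ)
    (l : ℕ → ℕ → k) : Prop :=
  ∀ c : J × Bool → Fin n → ℤ, (∀ t, c t ∈ Φ.S t) →
    ∀ (B : Finset ℕ) (t : ℕ → J × Bool) (Jf : Finset J), (∀ s ∈ B, s < N) →
    ∀ 𝔭 : Ideal (x10_R k Φ x c), 𝔭.IsPrime →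
    (∀ j ∈ Jf, ∀ f : x10_R k Φ x c, (f : F) = mon x (c (j, true) - c (j, false)) → f ∈ 𝔭) →
    (∀ s ∈ B, ∀ f : x10_R k Φ x c, (f : F) = gp x (l s) (Φ.S (t s)) / mon x (c (t s)) → f ∈ 𝔭) →
    ∀ (m : ℕ) (z : Fin m → x10_R k Φ x c),
      (∀ G : MvPolynomial (Fin m) k, G ≠ 0 → MvPolynomial.aeval z G ∉ 𝔭) →
      m + Jf.card + B.card ≤ d

theorem x10_aeval (R : Subalgebra k F) {m : ℕ} (z : Fin m → R) (G : MvPolynomial (Fin m) k) :
    MvPolynomial.aeval (fun a => (z a : F)) G = ((MvPolynomial.aeval z G : R) : F) := by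
  have h := MvPolynomial.comp_aeval_apply (f := z) R.val G
  exact h.symm

theorem x10_base (hx : ∀ i, x i ≠ 0) (d : ℕ) {H : List (Fin n → ℤ)}
    (hH : Rel k x d H) {Φ : Fan n J} (hΦ : Φ.Ok k x) (hcl : ∀ δ ∈ H, Φ.Clean k x δ)
    (l : ℕ → ℕ → k) : x10_Inv k Φ x d 0 l := by
  classical
  intro c hc B t Jf hB 𝔭 hp hJ _ m z hz
  have hB0 : B = ∅ := Finset.eq_empty_of_forall_notMem fun s hs => Nat.not_lt_zero s (hB s hs)
  obtain ⟨A, hA, h1, h2⟩ := exists_dominating (x10_R k Φ x c) 𝔭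
  have hg : ∀ f ∈ Φ.gens x c, f ∈ A := fun f hf => h1 ⟨f, Algebra.subset_adjoin hf⟩
  have h3 := chart_sb hx d hH hΦ hcl c hc hA hg m (fun a => (z a : F)) (fun a => (z a).2)
    (by
      intro G hG
      rw [x10_aeval]
      have h4 : A.valuation ((MvPolynomial.aeval z G : x10_R k Φ x c) : F) ≤ 1 :=
        (A.valuation_le_one_iff _).2 (h1 _)
      refine le_antisymm h4 (not_lt.1 fun h5 => hz G hG ((h2 _).2 h5)))
  have h4 : Jf.card ≤ {j | Φ.nt x A j}.ncard := by
    rw [← Set.ncard_coe_finset]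
    apply Set.ncard_le_ncard _ (Set.toFinite _)
    intro j hj
    have h5 : mon x (c (j, true) - c (j, false)) ∈ x10_R k Φ x c :=
      Algebra.subset_adjoin (Or.inr ⟨j, rfl⟩)
    have h6 := hJ j hj ⟨_, h5⟩ rfl
    exact (nt_chart hx c hc hg j).2 ((h2 _).1 h6)
  rw [hB0, Finset.card_empty]
  omega

theorem x10_noeth (Φ : Fan n J) (x : Fin n → F) (c : J × Bool → Fin n → ℤ) :
    IsNoetherianRing (x10_R k Φ x c) := by
  classical
  have hfin : (Φ.gens x c).Finite := by
    refine Set.Finite.union ?_ ?_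
    · have h1 : (⋃ t : J × Bool, (fun χ => mon x (χ - c t)) '' (Φ.S t : Set (Fin n → ℤ))).Finite :=
        Set.finite_iUnion fun t => (Finset.finite_toSet _).image _
      refine h1.subset ?_
      rintro f ⟨t, χ, hχ, rfl⟩
      exact Set.mem_iUnion.2 ⟨t, χ, hχ, rfl⟩
    · refine (Set.finite_range fun j => mon x (c (j, true) - c (j, false))).subset ?_
      rintro f ⟨j, rfl⟩
      exact ⟨j, rfl⟩
  have h1 : (x10_R k Φ x c).FG := Subalgebra.fg_adjoin_finset (R := k) hfin.toFinset |> fun h => by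
    rwa [Set.Finite.coe_toFinset] at h
  have h2 : Algebra.FiniteType k (x10_R k Φ x c) := (Subalgebra.fg_iff_finiteType _).1 h1
  exact Algebra.FiniteType.isNoetherianRing k _

/-- the ideal generated by the elements `j ∈ Jf` and `(s, t) ∈ T` -/
noncomputable def x10_I {k : Type} [Field k] [Algebra k F] (Φ : Fan n J) (x : Fin n → F)
    (l : ℕ → ℕ → k) (c : J × Bool → Fin n → ℤ) (Jf : Finset J) (T : Finset (ℕ × (J × Bool))) :
    Ideal (x10_R k Φ x c) :=
  Ideal.span {f | (∃ j ∈ Jf, (f : F) = mon x (c (j, true) - c (j, false))) ∨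
    ∃ q ∈ T, (f : F) = gp x (l q.1) (Φ.S q.2) / mon x (c q.2)}

theorem x10_gen [Infinite k] (hx : ∀ i, x i ≠ 0) {Φ : Fan n J} (hΦ : Φ.Ok k x)
    (l : ℕ → ℕ → k) (N : ℕ) :
    ∀ᶠ a in Gen k, ∀ c : J × Bool → Fin n → ℤ, (∀ t, c t ∈ Φ.S t) → ∀ Jf : Finset J,
      ∀ T : Finset (ℕ × (J × Bool)), T ⊆ Finset.range N ×ˢ Finset.univ →
      ∀ 𝔮 ∈ (x10_I Φ x l c Jf T).minimalPrimes, ∀ t,
      ∀ f : x10_R k Φ x c, (f : F) = gp x a (Φ.S t) / mon x (c t) → f ∉ 𝔮 := by
  classical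
  have hc : {c : J × Bool → Fin n → ℤ | ∀ t, c t ∈ Φ.S t}.Finite := by
    have := Set.Finite.pi' fun t : J × Bool => (Finset.finite_toSet (Φ.S t))
    exact this
  have hT : {T : Finset (ℕ × (J × Bool)) | T ⊆ Finset.range N ×ˢ Finset.univ}.Finite := by
    refine (Finset.finite_toSet ((Finset.range N ×ˢ Finset.univ).powerset)).subset ?_
    intro T hT
    exact Finset.mem_coe.2 (Finset.mem_powerset.2 hT)
  refine (Filter.eventually_all_finite hc).2 fun c hc' => ?_
  refine Filter.eventually_all.2 fun Jf => ?_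
  refine (Filter.eventually_all_finite hT).2 fun T hT' => ?_
  haveI := x10_noeth (k := k) Φ x c
  refine (Filter.eventually_all_finite
    (Ideal.finite_minimalPrimes_of_isNoetherianRing _ (x10_I Φ x l c Jf T))).2 fun 𝔮 hq => ?_
  refine Filter.eventually_all.2 fun t => ?_
  haveI : 𝔮.IsPrime := hq.1.1
  obtain ⟨A, hA, h1, h2⟩ := exists_dominating (x10_R k Φ x c) 𝔮
  have hg : ∀ f ∈ Φ.gens x c, f ∈ A := fun f hf => h1 ⟨f, Algebra.subset_adjoin hf⟩
  have hne : (Φ.S t).Nonempty := ⟨_, hc' t⟩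
  filter_upwards [gp_val x A hx hA hne] with a ha
  intro f hf hfq
  have h3 := (h2 f).1 hfq
  rw [hf, map_div₀, ha, chart_vm hx c hc' hg t, div_self (vm_ne_zero x A hx hne)] at h3
  exact lt_irrefl _ h3

theorem x10_step [Infinite k] (hx : ∀ i, x i ≠ 0) (d : ℕ) {Φ : Fan n J} (hΦ : Φ.Ok k x)
    (l : ℕ → ℕ → k) (N : ℕ) (hl : x10_Inv k Φ x d N l) (a : ℕ → k)
    (ha : ∀ c : J × Bool → Fin n → ℤ, (∀ t, c t ∈ Φ.S t) → ∀ Jf : Finset J,
      ∀ T : Finset (ℕ × (J × Bool)), T ⊆ Finset.range N ×ˢ Finset.univ →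
      ∀ 𝔮 ∈ (x10_I Φ x l c Jf T).minimalPrimes, ∀ t,
      ∀ f : x10_R k Φ x c, (f : F) = gp x a (Φ.S t) / mon x (c t) → f ∉ 𝔮) :
    x10_Inv k Φ x d (N + 1) (update l N a) := by
  classical
  intro c hc B t Jf hB 𝔭 hp hJ hBp m z hz
  have hupd : ∀ s, s < N → update l N a s = l s := fun s hs => update_of_ne hs.ne a l
  by_cases hN : N ∈ B
  · set B' := B.erase N with hB'
    have hB'N : ∀ s ∈ B', s < N := by
      intro s hs
      have h1 := hB s (Finset.mem_of_mem_erase hs)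
      have h2 := Finset.ne_of_mem_erase hs
      omega
    set T : Finset (ℕ × (J × Bool)) := B'.image fun s => (s, t s) with hT
    have hTs : T ⊆ Finset.range N ×ˢ Finset.univ := by
      intro q hq
      obtain ⟨s, hs, rfl⟩ := Finset.mem_image.1 hq
      exact Finset.mem_product.2 ⟨Finset.mem_range.2 (hB'N s hs), Finset.mem_univ _⟩
    have hle : x10_I Φ x l c Jf T ≤ 𝔭 := by
      rw [x10_I, Ideal.span_le]
      rintro f (⟨j, hj, hf⟩ | ⟨q, hq, hf⟩)
      · exact hJ j hj f hf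
      · obtain ⟨s, hs, rfl⟩ := Finset.mem_image.1 hq
        refine hBp s (Finset.mem_of_mem_erase hs) f ?_
        rw [hupd s (hB'N s hs)]
        exact hf
    obtain ⟨𝔮, hq, hqp⟩ := Ideal.exists_minimalPrimes_le hle
    haveI : 𝔮.IsPrime := hq.1.1
    haveI : 𝔭.IsPrime := hp
    have hfm : gp x a (Φ.S (t N)) / mon x (c (t N)) ∈ x10_R k Φ x c := gp_mem_chart hx c a (t N)
    set f : x10_R k Φ x c := ⟨_, hfm⟩ with hf
    have hfp : f ∈ 𝔭 := by
      refine hBp N hN f ?_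
      rw [update_self]
    have hfq : f ∉ 𝔮 := ha c hc Jf T hTs 𝔮 hq (t N) f rfl
    have h3 := hl c hc B' t Jf hB'N 𝔮 inferInstance
      (fun j hj f hf => hq.1.2 (Ideal.subset_span (Or.inl ⟨j, hj, hf⟩)))
      (fun s hs f hf => hq.1.2 (Ideal.subset_span
        (Or.inr ⟨(s, t s), Finset.mem_image.2 ⟨s, hs, rfl⟩, hf⟩)))
      (m + 1) (Fin.cons f z) (ind_drop 𝔮 𝔭 hqp f hfp hfq m z hz)
    have h4 : B'.card + 1 = B.card := Finset.card_erase_add_one hN
    omega
  · have hB' : ∀ s ∈ B, s < N := by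
      intro s hs
      have h1 := hB s hs
      have h2 : s ≠ N := fun h => hN (h ▸ hs)
      omega
    refine hl c hc B t Jf hB' 𝔭 hp hJ (fun s hs f hf => hBp s hs f ?_) m z hz
    rw [hupd s (hB' s hs)]
    exact hf

theorem x10_all [Infinite k] (hx : ∀ i, x i ≠ 0) (d : ℕ) {H : List (Fin n → ℤ)}
    (hH : Rel k x d H) {Φ : Fan n J} (hΦ : Φ.Ok k x) (hcl : ∀ δ ∈ H, Φ.Clean k x δ) (N : ℕ) :
    ∃ l : ℕ → ℕ → k, (∀ s, s < N → ∀ t, gp x (l s) (Φ.S t) ≠ 0) ∧ x10_Inv k Φ x d N l := by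
  classical
  induction N with
  | zero => exact ⟨fun _ _ => 0, fun s hs => absurd hs (Nat.not_lt_zero s), x10_base hx d hH hΦ hcl _⟩
  | succ N ih =>
    obtain ⟨l, hl0, hl⟩ := ih
    have hne : ∀ t, (Φ.S t).Nonempty := by
      rintro ⟨j, b⟩
      cases b
      · exact hΦ.neD j
      · exact hΦ.neP j
    have h1 : ∀ᶠ a in Gen k, ∀ t, gp x a (Φ.S t) ≠ 0 :=
      Filter.eventually_all.2 fun t => gp_ne_zero x hx (hne t)
    haveI := gen_neBot (k := k)
    obtain ⟨a, ha1, ha2⟩ := (h1.and (x10_gen hx hΦ l N)).exists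
    refine ⟨update l N a, fun s hs t => ?_, x10_step hx d hΦ l N hl a ha2⟩
    by_cases hsN : s = N
    · subst hsN
      rw [update_self]
      exact ha1 t
    · rw [update_of_ne hsN]
      exact hl0 s (by omega) t

/-! ### KM-X10 (file XMaster.lean): the master general position theorem -/
theorem master [Infinite k] (hx : ∀ i, x i ≠ 0) (d : ℕ) {H : List (Fin n → ℤ)}
    (hH : Rel k x d H) {Φ : Fan n J} (hΦ : Φ.Ok k x) (hcl : ∀ δ ∈ H, Φ.Clean k x δ) (M : ℕ) :
    ∃ l : ℕ → ℕ → k, (∀ s, s < M → ∀ t, gp x (l s) (Φ.S t) ≠ 0) ∧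
      ∀ A : ValuationSubring F, Over k A →
        {s | s < M ∧ ∃ t, A.valuation (gp x (l s) (Φ.S t)) ≠ vm A x (Φ.S t)}.ncard +
          {j | Φ.nt x A j}.ncard ≤ d := by
  classical
  obtain ⟨l, hl0, hl⟩ := x10_all hx d hH hΦ hcl M
  refine ⟨l, hl0, fun A hA => ?_⟩
  obtain ⟨c, hc, hg⟩ := exists_chart hx hΦ hA
  have hRA : ∀ f : x10_R k Φ x c, (f : F) ∈ A := by
    intro f
    have h1 : x10_R k Φ x c ≤ { A.toSubring with algebraMap_mem' := hA } :=
      Algebra.adjoin_le hg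
    exact h1 f.2
  -- the centre of `A`
  let 𝔭 : Ideal (x10_R k Φ x c) :=
    { carrier := {f | A.valuation (f : F) < 1}
      add_mem' := by
        intro f g hf hg
        exact (A.valuation.map_add _ _).trans_lt (max_lt hf hg)
      zero_mem' := by
        change A.valuation (0 : F) < 1
        rw [map_zero]
        exact zero_lt_one
      smul_mem' := by
        intro f g hg
        change A.valuation ((f : F) * (g : F)) < 1
        rw [map_mul]
        calc A.valuation (f : F) * A.valuation (g : F) ≤ 1 * A.valuation (g : F) :=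
              mul_le_mul' ((A.valuation_le_one_iff _).2 (hRA f)) le_rfl
          _ = A.valuation (g : F) := one_mul _
          _ < 1 := hg }
  have hmem : ∀ f : x10_R k Φ x c, f ∈ 𝔭 ↔ A.valuation (f : F) < 1 := fun f => Iff.rfl
  have hp : 𝔭.IsPrime := by
    refine ⟨?_, ?_⟩
    · rw [Ideal.ne_top_iff_one, hmem]
      change ¬ A.valuation (1 : F) < 1
      rw [map_one]
      exact lt_irrefl _
    · intro f g hfg
      rw [hmem] at hfg
      rw [hmem, hmem]
      by_contra hcon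
      push Not at hcon
      have h1 : A.valuation (f : F) = 1 :=
        le_antisymm ((A.valuation_le_one_iff _).2 (hRA f)) hcon.1
      have h2 : A.valuation (g : F) = 1 :=
        le_antisymm ((A.valuation_le_one_iff _).2 (hRA g)) hcon.2
      have h3 : A.valuation ((f : F) * (g : F)) < 1 := hfg
      rw [map_mul, h1, h2, mul_one] at h3
      exact lt_irrefl _ h3
  set Bs : Set ℕ := {s | s < M ∧ ∃ t, A.valuation (gp x (l s) (Φ.S t)) ≠ vm A x (Φ.S t)} with hBs
  have hBfin : Bs.Finite := (Set.finite_lt_nat M).subset fun s hs => hs.1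
  rcases isEmpty_or_nonempty J with he | ⟨⟨j0⟩⟩
  · have h1 : Bs = ∅ := by
      apply Set.eq_empty_of_forall_notMem
      rintro s ⟨_, t, _⟩
      exact he.elim t.1
    have h2 : {j | Φ.nt x A j} = ∅ := Set.eq_empty_of_forall_notMem fun j _ => he.elim j
    rw [h1, h2]
    simp
  have hch : ∀ s, ∃ t, s ∈ Bs → A.valuation (gp x (l s) (Φ.S t)) ≠ vm A x (Φ.S t) := by
    intro s
    by_cases hs : s ∈ Bs
    · obtain ⟨t, ht⟩ := hs.2
      exact ⟨t, fun _ => ht⟩
    · exact ⟨(j0, true), fun h => absurd h hs⟩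
  choose t ht using hch
  have hJfin : {j | Φ.nt x A j}.Finite := Set.toFinite _
  have key := hl c hc hBfin.toFinset t hJfin.toFinset
    (fun s hs => ((Set.Finite.mem_toFinset hBfin).1 hs).1) 𝔭 hp
    (by
      intro j hj f hf
      have h1 : Φ.nt x A j := (Set.Finite.mem_toFinset hJfin).1 hj
      rw [hmem, hf]
      exact (nt_chart hx c hc hg j).1 h1)
    (by
      intro s hs f hf
      have h1 := ht s ((Set.Finite.mem_toFinset hBfin).1 hs)
      rw [hmem]
      refine lt_of_le_of_ne ((A.valuation_le_one_iff _).2 (hRA f)) fun h2 => h1 ?_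
      have h3 : vm A x (Φ.S (t s)) ≠ 0 := vm_ne_zero x A hx ⟨_, hc (t s)⟩
      rw [hf, map_div₀, chart_vm hx c hc hg (t s)] at h2
      exact (div_eq_one_iff_eq h3).1 h2)
    0 (fun a => Fin.elim0 a)
    (by
      intro G hG hGp
      obtain ⟨g, rfl⟩ := MvPolynomial.C_surjective (Fin 0) G
      have hg0 : g ≠ 0 := fun h => hG (by rw [h, map_zero])
      rw [MvPolynomial.aeval_C] at hGp
      have h1 : IsUnit (algebraMap k (x10_R k Φ x c) g) := (IsUnit.mk0 g hg0).map _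
      exact hp.ne_top (Ideal.eq_top_of_isUnit_mem _ hGp h1))
  rw [Set.ncard_eq_toFinset_card _ hBfin, Set.ncard_eq_toFinset_card _ hJfin]
  omega

end X10

end Pool.Agent.KM
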