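import Pool.Agent.KM.VGen
import Pool.Agent.KM.VGauss

/-!
Project KM (MP_27fd67_ag), row KM-Z1 (helper62): the common space for finitely many moving
families.
-/

set_option autoImplicit false

open Function

namespace Pool.Agent.KM

section z1
variable {k F : Type} [Field k] [Field F] [Algebra k F]

/-- the span of the coefficients of a polynomial -/
noncomputable def z1_CS (k : Type) {F : Type} [Field k] [Field F] [Algebra k F]
    (P : MvPolynomial ℕ F) : Submodule k F :=
  Submodule.span k ((fun m => P.coeff m) '' (P.support : Set (ℕ →₀ ℕ)))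

theorem z1_CS_fg (P : MvPolynomial ℕ F) : (z1_CS k P).FG :=
  Submodule.fg_span ((Finset.finite_toSet _).image _)

theorem z1_ev_mem (P : MvPolynomial ℕ F) (l : ℕ → k) : ev l P ∈ z1_CS k P := by
  rw [ev, MvPolynomial.eval_eq]
  refine Submodule.sum_mem _ fun m hm => ?_
  have h : MvPolynomial.coeff m P * ∏ i ∈ m.support, (algebraMap k F (l i)) ^ m i =
      (∏ i ∈ m.support, l i ^ m i) • MvPolynomial.coeff m P := by
    rw [Algebra.smul_def, map_prod, mul_comm]
    simp only [map_pow]
  rw [h]
  exact Submodule.smul_mem _ _ (Submodule.subset_span ⟨m, hm, rfl⟩)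

theorem z1_alg_le (A : ValuationSubring F) (hA : Over k A) (c : k) :
    A.valuation (algebraMap k F c) ≤ 1 := (A.valuation_le_one_iff _).2 (hA c)

theorem z1_span_le (A : ValuationSubring F) (hA : Over k A) (S : Set F) (γ : A.ValueGroup)
    (h : ∀ s ∈ S, A.valuation s ≤ γ) (u : F) (hu : u ∈ Submodule.span k S) :
    A.valuation u ≤ γ := by
  induction hu using Submodule.span_induction with
  | mem x hx => exact h x hx
  | zero => rw [map_zero]; exact zero_le
  | add x y _ _ hx hy => exact (A.valuation.map_add x y).trans (max_le hx hy)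
  | smul c x _ hx =>
    rw [Algebra.smul_def, map_mul]
    calc A.valuation (algebraMap k F c) * A.valuation x ≤ 1 * γ :=
          mul_le_mul' (z1_alg_le A hA c) hx
      _ = γ := one_mul _

theorem z1_prod_mem {ν : Type} (s : Finset ν) (E : ν → Submodule k F) (x : ν → F)
    (h : ∀ i ∈ s, x i ∈ E i) : ∏ i ∈ s, x i ∈ ∏ i ∈ s, E i := by
  classical
  induction s using Finset.induction_on with
  | empty => simp only [Finset.prod_empty]; exact Submodule.one_le.1 le_rfl
  | insert a s ha ih =>
    rw [Finset.prod_insert ha, Finset.prod_insert ha]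
    exact Submodule.mul_mem_mul (h a (Finset.mem_insert_self a s))
      (ih fun i hi => h i (Finset.mem_insert_of_mem hi))

theorem z1_prod_fg {ν : Type} (s : Finset ν) (E : ν → Submodule k F)
    (h : ∀ i ∈ s, (E i).FG) : (∏ i ∈ s, E i).FG := by
  classical
  induction s using Finset.induction_on with
  | empty =>
    simp only [Finset.prod_empty]
    rw [Submodule.one_eq_span]
    exact Submodule.fg_span_singleton _
  | insert a s ha ih =>
    rw [Finset.prod_insert ha]
    exact (h a (Finset.mem_insert_self a s)).mul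
      (ih fun i hi => h i (Finset.mem_insert_of_mem hi))

theorem z1_prod_le {ν : Type} (A : ValuationSubring F) (hA : Over k A) (s : Finset ν)
    (E : ν → Submodule k F) (γ : ν → A.ValueGroup)
    (h : ∀ i ∈ s, ∀ u ∈ E i, A.valuation u ≤ γ i) (u : F) (hu : u ∈ ∏ i ∈ s, E i) :
    A.valuation u ≤ ∏ i ∈ s, γ i := by
  classical
  induction s using Finset.induction_on generalizing u with
  | empty =>
    simp only [Finset.prod_empty] at hu ⊢
    obtain ⟨c, rfl⟩ := Submodule.mem_one.1 hu
    exact z1_alg_le A hA c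
  | insert a s ha ih =>
    rw [Finset.prod_insert ha] at hu ⊢
    refine Submodule.mul_induction_on hu (fun x hx y hy => ?_) (fun x y hx hy => ?_)
    · rw [map_mul]
      exact mul_le_mul' (h a (Finset.mem_insert_self a s) x hx)
        (ih (fun i hi => h i (Finset.mem_insert_of_mem hi)) y hy)
    · exact (A.valuation.map_add x y).trans (max_le hx hy)

end z1

/-- the common space for finitely many moving families -/
theorem moving_spaces {k F ν : Type} [Field k] [Field F] [Algebra k F] [Infinite k] [Fintype ν]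
    [DecidableEq ν] (a : ν → Fam k F) (ha : ∀ i, ∃ N, IsRat N (a i)) (hmov : ∀ i, Moving (a i)) :
    ∃ (E : Submodule k F) (c : ν → Bool → Fam k F), FiniteDimensional k E ∧ E ≠ ⊥ ∧
      (∀ i b l, c i b l ∈ E) ∧ (∀ i b, ∀ᶠ l in Gen k, c i b l ≠ 0) ∧
      (∀ i, ∀ᶠ l in Gen k, a i l = c i true l / c i false l) ∧
      ∀ i b, ∀ A : ValuationSubring F, Over k A →
        ∀ᶠ l in Gen k, ∀ u ∈ E, A.valuation u ≤ A.valuation (c i b l) := by
  have : (Gen k).NeBot := gen_neBot
  choose N P D hP0 hD0 _ _ hev using ha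
  -- the factors
  let R : ν → Bool → ν → MvPolynomial ℕ F := fun i b j => if j = i ∧ b = false then D j else P j
  have hR0 : ∀ i b j, R i b j ≠ 0 := by
    intro i b j
    by_cases h : j = i ∧ b = false
    · simp only [R, if_pos h]; exact hD0 j
    · simp only [R, if_neg h]; exact hP0 j
  let E₀ : ν → Submodule k F := fun j => z1_CS k (P j) ⊔ z1_CS k (D j)
  have hRm : ∀ i b j (l : ℕ → k), ev l (R i b j) ∈ E₀ j := by
    intro i b j l
    by_cases h : j = i ∧ b = false
    · simp only [R, if_pos h]; exact Submodule.mem_sup_right (z1_ev_mem _ _)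
    · simp only [R, if_neg h]; exact Submodule.mem_sup_left (z1_ev_mem _ _)
  have hc0 : ∀ i b, ∀ᶠ l in Gen k, ∏ j, ev l (R i b j) ≠ 0 := by
    intro i b
    have : ∀ᶠ l in Gen k, ∀ j, ev l (R i b j) ≠ 0 :=
      Filter.eventually_all.2 fun j => ev_ne_zero _ (hR0 i b j)
    filter_upwards [this] with l hl
    exact Finset.prod_ne_zero_iff.2 fun j _ => hl j
  refine ⟨∏ j, E₀ j, fun i b l => ∏ j, ev l (R i b j), ?_, ?_, ?_, hc0, ?_, ?_⟩
  · exact (Submodule.fg_iff_finiteDimensional _).1
      (z1_prod_fg _ _ fun j _ => (z1_CS_fg _).sup (z1_CS_fg _))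
  · intro hbot
    have : ∀ᶠ l in Gen k, ∀ j, ev l (P j) ≠ 0 :=
      Filter.eventually_all.2 fun j => ev_ne_zero _ (hP0 j)
    obtain ⟨l, hl⟩ := this.exists
    have hm : ∏ j, ev l (P j) ∈ ∏ j, E₀ j :=
      z1_prod_mem _ _ _ fun j _ => Submodule.mem_sup_left (z1_ev_mem _ _)
    rw [hbot, Submodule.mem_bot] at hm
    exact Finset.prod_ne_zero_iff.2 (fun j _ => hl j) hm
  · intro i b l
    exact z1_prod_mem _ _ _ fun j _ => hRm i b j l
  · intro i
    have h1 : ∀ᶠ l in Gen k, ∀ j, ev l (P j) ≠ 0 :=
      Filter.eventually_all.2 fun j => ev_ne_zero _ (hP0 j)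
    filter_upwards [h1, hev i] with l hl hi
    rw [hi, ← Finset.prod_div_distrib, Finset.prod_eq_single i]
    · simp [R]
    · intro j _ hji
      simp only [R, hji, false_and, if_false]
      exact div_self (hl j)
    · intro h; exact absurd (Finset.mem_univ i) h
  · intro i b A hA
    have key : ∀ j, ∃ γ : A.ValueGroup, (∀ u ∈ E₀ j, A.valuation u ≤ γ) ∧
        ∀ᶠ l in Gen k, A.valuation (ev l (R i b j)) = γ := by
      intro j
      obtain ⟨α, hα, hα1, hα2⟩ := ev_gauss (k := k) (P j) (hP0 j) A hA
      obtain ⟨β, hβ, hβ1, hβ2⟩ := ev_gauss (k := k) (D j) (hD0 j) A hA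
      have heq : A.valuation ((P j).coeff α) = A.valuation ((D j).coeff β) := by
        obtain ⟨l, h1, h2, h3, h4⟩ :=
          ((hmov j A hA).and ((hev j).and (hα2.and hβ2))).exists
        rw [h2, map_div₀, h3, h4] at h1
        have hne : A.valuation ((D j).coeff β) ≠ 0 := by
          rw [Valuation.ne_zero_iff]
          exact MvPolynomial.mem_support_iff.1 hβ
        exact (div_eq_one_iff_eq hne).1 h1
      refine ⟨A.valuation ((P j).coeff α), ?_, ?_⟩
      · intro u hu
        have : E₀ j = Submodule.span k (((fun m => (P j).coeff m) '' ((P j).support : Set (ℕ →₀ ℕ)))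
            ∪ ((fun m => (D j).coeff m) '' ((D j).support : Set (ℕ →₀ ℕ)))) := by
          rw [Submodule.span_union]; rfl
        rw [this] at hu
        refine z1_span_le A hA _ _ ?_ u hu
        rintro s (⟨m, _, rfl⟩ | ⟨m, _, rfl⟩)
        · exact hα1 m
        · rw [heq]; exact hβ1 m
      · by_cases h : j = i ∧ b = false
        · simp only [R, if_pos h]; rw [heq]; exact hβ2
        · simp only [R, if_neg h]; exact hα2
    choose γ hγ1 hγ2 using key
    have h2 : ∀ᶠ l in Gen k, ∀ j, A.valuation (ev l (R i b j)) = γ j :=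
      Filter.eventually_all.2 hγ2
    filter_upwards [h2] with l hl u hu
    rw [map_prod, Finset.prod_congr rfl fun j _ => hl j]
    exact z1_prod_le A hA _ _ _ (fun j _ => hγ1 j) u hu

end Pool.Agent.KM
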