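import Pool.Agent.KM.XVal
import Pool.Agent.KM.ZSpaces

/-!
Project KM3 (MP_27fd67_ag), part (C), row KM-X12 (helper29): the common space.
-/

set_option autoImplicit false
set_option linter.unusedSectionVars false

open Function
open scoped Pointwise

namespace Pool.Agent.KM

section X12
variable {k F : Type} [Field k] [Field F] [Algebra k F] {n : ℕ} {x : Fin n → F}
variable {J : Type} [Fintype J] [DecidableEq J]

theorem xs_pow {G : Type} [CommGroupWithZero G] {p d : G} (hp : p ≠ 0) (hd : d ≠ 0) (z : ℤ) :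
    (p / d) ^ z * (d ^ z.toNat * p ^ (-z).toNat) = p ^ z.toNat * d ^ (-z).toNat := by
  obtain ⟨m, rfl | rfl⟩ := z.eq_nat_or_neg
  · simp only [Int.toNat_natCast, Int.toNat_neg_natCast, pow_zero, mul_one, zpow_natCast]
    rw [div_pow, div_mul_cancel₀ _ (pow_ne_zero _ hd)]
  · simp only [Int.toNat_natCast, Int.toNat_neg_natCast, pow_zero, one_mul, neg_neg,
      zpow_neg, zpow_natCast]
    rw [div_pow, inv_div, div_mul_cancel₀ _ (pow_ne_zero _ hp)]

/-- The kinds of entries: rays, moving elements, quotients. -/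
abbrev xs_K (J : Type) (n : ℕ) : Type := J ⊕ (Fin n ⊕ J)

/-- The kind of an entry. -/
def xs_kind : Ent J n → xs_K J n
  | .ray j _ => .inl j
  | .mov i _ => .inr (.inl i)
  | .rat j _ _ => .inr (.inr j)

/-- The entry of a kind with all blocks equal to `s`. -/
def xs_mk : xs_K J n → ℕ → Ent J n
  | .inl j, s => .ray j s
  | .inr (.inl i), s => .mov i s
  | .inr (.inr j), s => .rat j s s

/-- The first block. -/
def xs_fb : Ent J n → ℕ
  | .ray _ s => s
  | .mov _ s => s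
  | .rat _ s _ => s

theorem xs_fb_mem (e : Ent J n) : xs_fb e ∈ e.blk := by
  cases e <;> simp [xs_fb, Ent.blk]

theorem xs_kind_mk (κ : xs_K J n) (s : ℕ) : xs_kind (xs_mk κ s) = κ := by
  rcases κ with j | i | j <;> rfl

theorem xs_blk_mk (κ : xs_K J n) (s t : ℕ) (h : t ∈ (xs_mk κ s).blk) : t = s := by
  rcases κ with j | i | j <;> simpa [xs_mk, Ent.blk] using h

/-- The span of the monomials with exponents in `S`. -/
noncomputable def xs_W (k : Type) [Field k] [Algebra k F] (x : Fin n → F)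
    (S : Finset (Fin n → ℤ)) : Submodule k F :=
  Submodule.span k (mon x '' (S : Set (Fin n → ℤ)))

/-- The space of a kind. -/
noncomputable def xs_E (k : Type) [Field k] [Algebra k F] (Φ : Fan n J) (x : Fin n → F) :
    xs_K J n → Submodule k F
  | .inl j => xs_W k x (Φ.P j) ⊔ xs_W k x (Φ.D j)
  | .inr (.inl i) =>
      (Submodule.span k {x i} * ∏ j, (xs_W k x (Φ.D j) ^ (Φ.v j i).toNat *
        xs_W k x (Φ.P j) ^ (- Φ.v j i).toNat)) ⊔
      ∏ j, (xs_W k x (Φ.P j) ^ (Φ.v j i).toNat * xs_W k x (Φ.D j) ^ (- Φ.v j i).toNat)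
  | .inr (.inr j) => xs_W k x (Φ.P j) * xs_W k x (Φ.D j)

/-- The value of a kind. -/
noncomputable def xs_g (Φ : Fan n J) (x : Fin n → F) (A : ValuationSubring F) :
    xs_K J n → A.ValueGroup
  | .inl j => vm A x (Φ.D j)
  | .inr (.inl i) =>
      ∏ j, (vm A x (Φ.P j) ^ (Φ.v j i).toNat * vm A x (Φ.D j) ^ (- Φ.v j i).toNat)
  | .inr (.inr j) => vm A x (Φ.P j) * vm A x (Φ.D j)

theorem xs_W_fg (S : Finset (Fin n → ℤ)) : (xs_W k x S).FG :=
  Submodule.fg_span ((Finset.finite_toSet _).image _)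

theorem xs_E_fg (Φ : Fan n J) (κ : xs_K J n) : (xs_E k Φ x κ).FG := by
  rcases κ with j | i | j
  · exact (xs_W_fg _).sup (xs_W_fg _)
  · refine Submodule.FG.sup (Submodule.FG.mul (Submodule.fg_span_singleton _)
      (z1_prod_fg _ _ fun j _ => ?_)) (z1_prod_fg _ _ fun j _ => ?_)
    · exact ((xs_W_fg _).pow _).mul ((xs_W_fg _).pow _)
    · exact ((xs_W_fg _).pow _).mul ((xs_W_fg _).pow _)
  · exact (xs_W_fg _).mul (xs_W_fg _)

/-- powers: membership -/
theorem xs_pow_mem (E : Submodule k F) {u : F} (hu : u ∈ E) (m : ℕ) : u ^ m ∈ E ^ m :=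
  Submodule.pow_mem_pow E hu m

/-- products: values -/
theorem xs_mul_le (A : ValuationSubring F) (E E' : Submodule k F) (γ γ' : A.ValueGroup)
    (h : ∀ u ∈ E, A.valuation u ≤ γ) (h' : ∀ u ∈ E', A.valuation u ≤ γ') (u : F)
    (hu : u ∈ E * E') : A.valuation u ≤ γ * γ' := by
  refine Submodule.mul_induction_on hu (fun a ha b hb => ?_) (fun a b ha hb => ?_)
  · rw [map_mul]
    exact mul_le_mul' (h a ha) (h' b hb)
  · exact (A.valuation.map_add a b).trans (max_le ha hb)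

/-- powers: values -/
theorem xs_pow_le (A : ValuationSubring F) (hA : Over k A) (E : Submodule k F)
    (γ : A.ValueGroup) (h : ∀ u ∈ E, A.valuation u ≤ γ) (m : ℕ) :
    ∀ u ∈ E ^ m, A.valuation u ≤ γ ^ m := by
  induction m with
  | zero =>
    intro u hu
    rw [pow_zero] at hu ⊢
    obtain ⟨c, rfl⟩ := Submodule.mem_one.1 hu
    exact z1_alg_le A hA c
  | succ m ih =>
    intro u hu
    rw [pow_succ] at hu ⊢
    exact xs_mul_le A _ _ _ _ ih h u hu

theorem xs_W_le (A : ValuationSubring F) (hA : Over k A) (S : Finset (Fin n → ℤ)) :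
    ∀ u ∈ xs_W k x S, A.valuation u ≤ vm A x S := val_span_le x A hA S

theorem xs_x_eq (hx : ∀ i, x i ≠ 0) {Φ : Fan n J} (hΦ : Φ.Ok k x) (A : ValuationSubring F)
    (hA : Over k A) (i : Fin n) :
    A.valuation (x i) * ∏ j, (vm A x (Φ.D j) ^ (Φ.v j i).toNat *
      vm A x (Φ.P j) ^ (- Φ.v j i).toNat) = xs_g Φ x A (.inr (.inl i)) := by
  have h1 := hΦ.mono A hA (Pi.single i 1)
  rw [mon_single] at h1
  have h2 : ∀ j, pr (Pi.single i 1) (Φ.v j) = Φ.v j i := by
    intro j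
    unfold pr
    rw [Finset.sum_eq_single i]
    · simp
    · intro b _ hb
      simp [Pi.single_eq_of_ne hb]
    · intro h; exact absurd (Finset.mem_univ i) h
  rw [h1, ← Finset.prod_mul_distrib]
  refine Finset.prod_congr rfl fun j _ => ?_
  rw [h2 j]
  exact xs_pow (vm_ne_zero x A hx (hΦ.neP j)) (vm_ne_zero x A hx (hΦ.neD j)) _

theorem xs_E_le (hx : ∀ i, x i ≠ 0) {Φ : Fan n J} (hΦ : Φ.Ok k x) (A : ValuationSubring F)
    (hA : Over k A) (κ : xs_K J n) : ∀ u ∈ xs_E k Φ x κ, A.valuation u ≤ xs_g Φ x A κ := by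
  rcases κ with j | i | j
  · intro u hu
    obtain ⟨a, ha, b, hb, rfl⟩ := Submodule.mem_sup.1 hu
    refine (A.valuation.map_add a b).trans (max_le ?_ (xs_W_le A hA _ b hb))
    exact (xs_W_le A hA _ a ha).trans (hΦ.le A hA j)
  · intro u hu
    obtain ⟨a, ha, b, hb, rfl⟩ := Submodule.mem_sup.1 hu
    refine (A.valuation.map_add a b).trans (max_le ?_ ?_)
    · rw [← xs_x_eq hx hΦ A hA i]
      refine xs_mul_le A _ _ _ _ ?_ ?_ a ha
      · exact z1_span_le A hA _ _ (fun s hs => by rw [Set.mem_singleton_iff.1 hs])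
      · exact z1_prod_le A hA _ _ _ (fun j _ => xs_mul_le A _ _ _ _
          (xs_pow_le A hA _ _ (xs_W_le A hA _) _) (xs_pow_le A hA _ _ (xs_W_le A hA _) _))
    · exact z1_prod_le A hA _ _ _ (fun j _ => xs_mul_le A _ _ _ _
          (xs_pow_le A hA _ _ (xs_W_le A hA _) _) (xs_pow_le A hA _ _ (xs_W_le A hA _) _)) b hb
  · exact xs_mul_le A _ _ _ _ (xs_W_le A hA _) (xs_W_le A hA _)

theorem xs_gp_mem (l : ℕ → k) (S : Finset (Fin n → ℤ)) : gp x l S ∈ xs_W k x S :=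
  gp_mem_span x l S

theorem xs_num_mem (Φ : Fan n J) (l : ℕ → ℕ → k) (e : Ent J n) :
    e.num Φ x l ∈ xs_E k Φ x (xs_kind e) := by
  rcases e with ⟨j, s⟩ | ⟨i, s⟩ | ⟨j, s, s'⟩
  · exact Submodule.mem_sup_left (xs_gp_mem _ _)
  · refine Submodule.mem_sup_left (Submodule.mul_mem_mul
      (Submodule.subset_span (Set.mem_singleton _)) (z1_prod_mem _ _ _ fun j _ => ?_))
    exact Submodule.mul_mem_mul (xs_pow_mem _ (xs_gp_mem _ _) _)
      (xs_pow_mem _ (xs_gp_mem _ _) _)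
  · exact Submodule.mul_mem_mul (xs_gp_mem _ _) (xs_gp_mem _ _)

theorem xs_den_mem (Φ : Fan n J) (l : ℕ → ℕ → k) (e : Ent J n) :
    e.den Φ x l ∈ xs_E k Φ x (xs_kind e) := by
  rcases e with ⟨j, s⟩ | ⟨i, s⟩ | ⟨j, s, s'⟩
  · exact Submodule.mem_sup_right (xs_gp_mem _ _)
  · refine Submodule.mem_sup_right (z1_prod_mem _ _ _ fun j _ => ?_)
    exact Submodule.mul_mem_mul (xs_pow_mem _ (xs_gp_mem _ _) _)
      (xs_pow_mem _ (xs_gp_mem _ _) _)
  · change gp x (l s) (Φ.D j) * gp x (l s') (Φ.P j) ∈ xs_W k x (Φ.P j) * xs_W k x (Φ.D j)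
    rw [mul_comm (xs_W k x (Φ.P j))]
    exact Submodule.mul_mem_mul (xs_gp_mem _ _) (xs_gp_mem _ _)

theorem xs_den_ne (Φ : Fan n J) (l : ℕ → ℕ → k) (e : Ent J n)
    (h : ∀ s ∈ e.blk, ∀ t, gp x (l s) (Φ.S t) ≠ 0) : e.den Φ x l ≠ 0 := by
  rcases e with ⟨j, s⟩ | ⟨i, s⟩ | ⟨j, s, s'⟩
  · exact h s (by simp [Ent.blk]) (j, false)
  · refine Finset.prod_ne_zero_iff.2 fun j _ => mul_ne_zero ?_ ?_
    · exact pow_ne_zero _ (h s (by simp [Ent.blk]) (j, true))
    · exact pow_ne_zero _ (h s (by simp [Ent.blk]) (j, false))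
  · exact mul_ne_zero (h s (by simp [Ent.blk]) (j, false)) (h s' (by simp [Ent.blk]) (j, true))

theorem xs_den_val (Φ : Fan n J) (l : ℕ → ℕ → k) (A : ValuationSubring F) (e : Ent J n)
    (h : ∀ s ∈ e.blk, ∀ t, A.valuation (gp x (l s) (Φ.S t)) = vm A x (Φ.S t)) :
    A.valuation (e.den Φ x l) = xs_g Φ x A (xs_kind e) := by
  rcases e with ⟨j, s⟩ | ⟨i, s⟩ | ⟨j, s, s'⟩
  · exact h s (by simp [Ent.blk]) (j, false)
  · have hP : ∀ j, A.valuation (gp x (l s) (Φ.P j)) = vm A x (Φ.P j) :=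
      fun j => h s (by simp [Ent.blk]) (j, true)
    have hD : ∀ j, A.valuation (gp x (l s) (Φ.D j)) = vm A x (Φ.D j) :=
      fun j => h s (by simp [Ent.blk]) (j, false)
    change A.valuation (∏ j, (gp x (l s) (Φ.P j) ^ (Φ.v j i).toNat *
      gp x (l s) (Φ.D j) ^ (- Φ.v j i).toNat)) = _
    rw [map_prod]
    refine Finset.prod_congr rfl fun j _ => ?_
    rw [map_mul, map_pow, map_pow, hP, hD]
  · have hP : A.valuation (gp x (l s') (Φ.P j)) = vm A x (Φ.P j) :=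
      h s' (by simp [Ent.blk]) (j, true)
    have hD : A.valuation (gp x (l s) (Φ.D j)) = vm A x (Φ.D j) :=
      h s (by simp [Ent.blk]) (j, false)
    change A.valuation (gp x (l s) (Φ.D j) * gp x (l s') (Φ.P j)) = _
    rw [map_mul, hP, hD, mul_comm]
    rfl

theorem xs_num_val (hx : ∀ i, x i ≠ 0) {Φ : Fan n J} (hΦ : Φ.Ok k x) (l : ℕ → ℕ → k)
    (A : ValuationSubring F) (hA : Over k A) (e : Ent J n)
    (h : ∀ s ∈ e.blk, ∀ t, A.valuation (gp x (l s) (Φ.S t)) = vm A x (Φ.S t))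
    (hnt : ∀ j s, e = .ray j s → ¬ Φ.nt x A j) :
    A.valuation (e.num Φ x l) = xs_g Φ x A (xs_kind e) := by
  rcases e with ⟨j, s⟩ | ⟨i, s⟩ | ⟨j, s, s'⟩
  · have h1 : A.valuation (gp x (l s) (Φ.P j)) = vm A x (Φ.P j) :=
      h s (by simp [Ent.blk]) (j, true)
    change A.valuation (gp x (l s) (Φ.P j)) = vm A x (Φ.D j)
    rw [h1]
    exact le_antisymm (hΦ.le A hA j) (not_lt.1 (hnt j s rfl))
  · have hP : ∀ j, A.valuation (gp x (l s) (Φ.P j)) = vm A x (Φ.P j) :=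
      fun j => h s (by simp [Ent.blk]) (j, true)
    have hD : ∀ j, A.valuation (gp x (l s) (Φ.D j)) = vm A x (Φ.D j) :=
      fun j => h s (by simp [Ent.blk]) (j, false)
    change A.valuation (x i * ∏ j, (gp x (l s) (Φ.D j) ^ (Φ.v j i).toNat *
      gp x (l s) (Φ.P j) ^ (- Φ.v j i).toNat)) = xs_g Φ x A (.inr (.inl i))
    rw [← xs_x_eq hx hΦ A hA i, map_mul, map_prod]
    congr 1
    refine Finset.prod_congr rfl fun j _ => ?_
    rw [map_mul, map_pow, map_pow, hP, hD]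
  · have hP : A.valuation (gp x (l s) (Φ.P j)) = vm A x (Φ.P j) :=
      h s (by simp [Ent.blk]) (j, true)
    have hD : A.valuation (gp x (l s') (Φ.D j)) = vm A x (Φ.D j) :=
      h s' (by simp [Ent.blk]) (j, false)
    change A.valuation (gp x (l s) (Φ.P j) * gp x (l s') (Φ.D j)) = _
    rw [map_mul, hP, hD]
    rfl

/-- the numerators and denominators of all entries, multiplied by fillers, are in one finite
dimensional space; their values are maximal unless a block is degenerate or a ray is in the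
support -/
theorem exists_space (hx : ∀ i, x i ≠ 0) {Φ : Fan n J} (hΦ : Φ.Ok k x) (l : ℕ → ℕ → k)
    (M : ℕ) (hl : ∀ s, s < M → ∀ t, gp x (l s) (Φ.S t) ≠ 0) :
    ∃ (E : Submodule k F) (fill : Ent J n → F) (e₀ : ℕ → F), FiniteDimensional k E ∧
      (∀ e, (∀ s ∈ e.blk, s < M) → fill e ≠ 0) ∧ (∀ s, s < M → e₀ s ≠ 0) ∧
      (∀ e, e.num Φ x l * fill e ∈ E ∧ e.den Φ x l * fill e ∈ E) ∧ (∀ s, e₀ s ∈ E) ∧
      ∀ A : ValuationSubring F, Over k A →
        (∀ s, (∀ t, A.valuation (gp x (l s) (Φ.S t)) = vm A x (Φ.S t)) →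
          ∀ u ∈ E, A.valuation u ≤ A.valuation (e₀ s)) ∧
        ∀ e, (∀ s ∈ e.blk, ∀ t, A.valuation (gp x (l s) (Φ.S t)) = vm A x (Φ.S t)) →
          (∀ u ∈ E, A.valuation u ≤ A.valuation (e.den Φ x l * fill e)) ∧
          ((∀ j s, e = .ray j s → ¬ Φ.nt x A j) →
            ∀ u ∈ E, A.valuation u ≤ A.valuation (e.num Φ x l * fill e)) := by
  classical
  -- the denominators of the kinds
  have hmk : ∀ (κ : xs_K J n) (s : ℕ), (xs_mk κ s).den Φ x l ∈ xs_E k Φ x κ := by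
    intro κ s
    have h := xs_den_mem (x := x) Φ l (xs_mk κ s)
    rwa [xs_kind_mk] at h
  have hmkne : ∀ (κ : xs_K J n) (s : ℕ), s < M → (xs_mk κ s).den Φ x l ≠ 0 := by
    intro κ s hs
    refine xs_den_ne Φ l _ fun t ht => ?_
    rw [xs_blk_mk κ s t ht]
    exact hl s hs
  have hmkval : ∀ (A : ValuationSubring F) (κ : xs_K J n) (s : ℕ),
      (∀ t, A.valuation (gp x (l s) (Φ.S t)) = vm A x (Φ.S t)) →
      A.valuation ((xs_mk κ s).den Φ x l) = xs_g Φ x A κ := by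
    intro A κ s h
    have h1 := xs_den_val Φ l A (xs_mk κ s) (fun t ht => by rw [xs_blk_mk κ s t ht]; exact h)
    rwa [xs_kind_mk] at h1
  refine ⟨∏ κ, xs_E k Φ x κ,
    fun e => ∏ κ ∈ Finset.univ.erase (xs_kind e), (xs_mk κ (xs_fb e)).den Φ x l,
    fun s => ∏ κ, (xs_mk κ s).den Φ x l, ?_, ?_, ?_, ?_, ?_, ?_⟩
  · exact (Submodule.fg_iff_finiteDimensional _).1 (z1_prod_fg _ _ fun κ _ => xs_E_fg Φ κ)
  · intro e he
    exact Finset.prod_ne_zero_iff.2 fun κ _ => hmkne κ _ (he _ (xs_fb_mem e))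
  · intro s hs
    exact Finset.prod_ne_zero_iff.2 fun κ _ => hmkne κ s hs
  · intro e
    have h1 : ∏ κ ∈ Finset.univ.erase (xs_kind e), (xs_mk κ (xs_fb e)).den Φ x l ∈
        ∏ κ ∈ Finset.univ.erase (xs_kind e), xs_E k Φ x κ :=
      z1_prod_mem _ _ _ fun κ _ => hmk κ _
    rw [← Finset.mul_prod_erase Finset.univ (xs_E k Φ x) (Finset.mem_univ (xs_kind e))]
    exact ⟨Submodule.mul_mem_mul (xs_num_mem Φ l e) h1,
      Submodule.mul_mem_mul (xs_den_mem Φ l e) h1⟩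
  · intro s
    exact z1_prod_mem _ _ _ fun κ _ => hmk κ s
  · intro A hA
    have hle : ∀ u ∈ ∏ κ, xs_E k Φ x κ, A.valuation u ≤ ∏ κ, xs_g Φ x A κ :=
      z1_prod_le A hA _ _ _ (fun κ _ => xs_E_le hx hΦ A hA κ)
    refine ⟨fun s hs u hu => ?_, fun e he => ?_⟩
    · rw [map_prod, Finset.prod_congr rfl fun κ _ => hmkval A κ s hs]
      exact hle u hu
    · have h1 : A.valuation
          (∏ κ ∈ Finset.univ.erase (xs_kind e), (xs_mk κ (xs_fb e)).den Φ x l) =
          ∏ κ ∈ Finset.univ.erase (xs_kind e), xs_g Φ x A κ := by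
        rw [map_prod]
        exact Finset.prod_congr rfl fun κ _ => hmkval A κ _ (he _ (xs_fb_mem e))
      rw [← Finset.mul_prod_erase Finset.univ (xs_g Φ x A) (Finset.mem_univ (xs_kind e))] at hle
      refine ⟨fun u hu => ?_, fun hnt u hu => ?_⟩
      · rw [map_mul, h1, xs_den_val Φ l A e he]
        exact hle u hu
      · rw [map_mul, h1, xs_num_val hx hΦ l A hA e he hnt]
        exact hle u hu

end X12

end Pool.Agent.KM
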