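import Pool.Agent.KM.XRel
import Pool.Agent.KM.XClean
import Pool.Agent.KM.XMaster
import Pool.Agent.KM.XEntries
import Pool.Agent.KM.XSpace
import Pool.Agent.KM.PChart
import Pool.Agent.KM.PDom

/-!
Project KM3 (MP_27fd67_ag), part (C), row KM-X13: the final form of the general position theorem.
-/

set_option autoImplicit false
set_option linter.all false

open Function
open scoped Pointwise

namespace Pool.Agent.KM

section X
variable {k F : Type} [Field k] [Field F] [Algebra k F] {n : ℕ} {x : Fin n → F}
variable {J : Type} [Fintype J] [DecidableEq J]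

/-- numerators and denominators are nonzero -/
theorem x13_ne (hx : ∀ i, x i ≠ 0) (Φ : Fan n J) (l : ℕ → ℕ → k) (M : ℕ)
    (hl : ∀ s, s < M → ∀ t, gp x (l s) (Φ.S t) ≠ 0) (e : Ent J n) (he : ∀ s ∈ e.blk, s < M) :
    e.num Φ x l ≠ 0 ∧ e.den Φ x l ≠ 0 := by
  have hP : ∀ s, s < M → ∀ j, gp x (l s) (Φ.P j) ≠ 0 := fun s hs j => hl s hs (j, true)
  have hD : ∀ s, s < M → ∀ j, gp x (l s) (Φ.D j) ≠ 0 := fun s hs j => hl s hs (j, false)
  cases e with
  | ray j s =>
    have hs : s < M := he s (by simp [Ent.blk])
    exact ⟨hP s hs j, hD s hs j⟩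
  | mov i s =>
    have hs : s < M := he s (by simp [Ent.blk])
    refine ⟨mul_ne_zero (hx i) (Finset.prod_ne_zero_iff.2 fun j _ => ?_),
      Finset.prod_ne_zero_iff.2 fun j _ => ?_⟩
    · exact mul_ne_zero (pow_ne_zero _ (hD s hs j)) (pow_ne_zero _ (hP s hs j))
    · exact mul_ne_zero (pow_ne_zero _ (hP s hs j)) (pow_ne_zero _ (hD s hs j))
  | rat j s s' =>
    have hs : s < M := he s (by simp [Ent.blk])
    have hs' : s' < M := he s' (by simp [Ent.blk])
    exact ⟨mul_ne_zero (hP s hs j) (hD s' hs' j), mul_ne_zero (hD s hs j) (hP s' hs' j)⟩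

theorem genpos [Infinite k] (d : ℕ) (htr : Algebra.trdeg k F ≤ d) (T : (Fin n → F) → ℝ)
    (hT : IsM T) (x : Fin n → F) (hTx : T x ≠ 0) :
    ∃ (E : Submodule k F) (e₀ : F) (e : Fin n → Bool → F), FiniteDimensional k E ∧
      e₀ ∈ E ∧ e₀ ≠ 0 ∧ (∀ i b, e i b ∈ E) ∧ (∀ i b, e i b ≠ 0) ∧
      T (fun i => e i true / e i false) ≠ 0 ∧
      ∀ (t : Fin n → Bool) (R : Finset (Option (Fin n))), R.card = d + 1 →
        ∃ j₀, ∀ j, j₀ ≤ j → E ^ (j + 1) ≤
          Submodule.span k ((fun o : Option (Fin n) => o.elim e₀ (fun i => e i (t i))) '' R) *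
            E ^ j := by
  classical
  have hx : ∀ i, x i ≠ 0 := fun i hi => hTx (hT.zero x i hi)
  obtain ⟨H, hH⟩ := exists_rel d htr x
  obtain ⟨J, iJ, dJ, Φ, hΦ, hcl⟩ := exists_clean (k := k) hx H
  obtain ⟨l, hl, hmaster⟩ := master hx d hH hΦ hcl (2 * n + 1)
  obtain ⟨en, hblk, hdisj, hray, hTe⟩ := exists_entries hx Φ T hT hTx l
    (fun s hs t => hl s (by omega) t)
  obtain ⟨E, fill, e₀, hfd, hfill, he₀, hmem, he₀m, hval⟩ := exists_space hx hΦ l (2 * n + 1) hl
  have hblk' : ∀ i, ∀ s ∈ (en i).blk, s < 2 * n + 1 := fun i s hs =>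
    (hblk i s hs).trans (Nat.lt_succ_self _)
  have hne := fun i => x13_ne hx Φ l (2 * n + 1) hl (en i) (hblk' i)
  have hfne := fun i => hfill (en i) (hblk' i)
  refine ⟨E, e₀ (2 * n), fun i b => (if b then (en i).num Φ x l else (en i).den Φ x l) *
    fill (en i), hfd, he₀m _, he₀ _ (Nat.lt_succ_self _), ?_, ?_, ?_, ?_⟩
  · intro i b
    cases b
    · exact (hmem (en i)).2
    · exact (hmem (en i)).1
  · intro i b
    cases b
    · exact mul_ne_zero (hne i).2 (hfne i)
    · exact mul_ne_zero (hne i).1 (hfne i)
  · have h1 : (fun i => ((if true then (en i).num Φ x l else (en i).den Φ x l) * fill (en i)) /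
        ((if false then (en i).num Φ x l else (en i).den Φ x l) * fill (en i))) =
        fun i => (en i).num Φ x l / (en i).den Φ x l := by
      funext i
      simp only [if_true, Bool.false_eq_true, if_false]
      exact mul_div_mul_right _ _ (hfne i)
    have h2 : (fun i => (fun (i : Fin n) (b : Bool) =>
        (if b = true then (en i).num Φ x l else (en i).den Φ x l) * fill (en i)) i true /
        (fun (i : Fin n) (b : Bool) =>
        (if b = true then (en i).num Φ x l else (en i).den Φ x l) * fill (en i)) i false) =
        fun i => (en i).num Φ x l / (en i).den Φ x l := by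
      funext i
      simp only [if_true, Bool.false_eq_true, if_false]
      exact mul_div_mul_right _ _ (hfne i)
    rw [h2]
    exact hTe
  · intro t R hR
    set e : Fin n → Bool → F := fun i b =>
      (if b then (en i).num Φ x l else (en i).den Φ x l) * fill (en i) with he
    have heE : ∀ i b, e i b ∈ E := by
      intro i b
      cases b
      · exact (hmem (en i)).2
      · exact (hmem (en i)).1
    -- a finite generating set of nonzero elements
    obtain ⟨Y', hY'⟩ := (Module.Finite.iff_fg.mp hfd)
    set Y : Finset F := Y'.filter (fun y => y ≠ 0) with hYdef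
    have hY : Submodule.span k (Y : Set F) = E := by
      rw [← hY', hYdef]
      have : ((Y'.filter (fun y => y ≠ 0) : Finset F) : Set F) = (Y' : Set F) \ {0} := by
        ext y; simp
      rw [this, Submodule.span_sdiff_singleton_zero]
    have hY0 : ∀ y ∈ Y, y ≠ 0 := by
      intro y hy
      exact (Finset.mem_filter.mp hy).2
    have hYE : ∀ y ∈ Y, y ∈ E := by
      intro y hy
      rw [← hY]
      exact Submodule.subset_span hy
    refine span_of_charts E Y hY hY0 _ ?_ ?_
    · rintro _ ⟨o, _, rfl⟩
      cases o with
      | none => exact he₀m _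
      | some i => exact heE i (t i)
    · intro y hy
      by_contra hcon
      obtain ⟨𝔭, h𝔭, hle⟩ := Ideal.exists_le_maximal _ hcon
      have hpr : 𝔭.IsPrime := h𝔭.isPrime
      obtain ⟨A, hA, hAmax⟩ := exists_val E y (hYE y hy) (hY0 y hy) 𝔭
      -- the elements of `R` are not of maximal value
      have hnot : ∀ o ∈ R, ∀ g : F, g = o.elim (e₀ (2 * n)) (fun i => e i (t i)) → g ∈ E →
          ¬ ∀ u ∈ E, A.valuation u ≤ A.valuation g := by
        intro o ho g hg hgE hmax
        have h1 : g / y ∈ chart E y := Algebra.subset_adjoin ⟨g, hgE, rfl⟩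
        apply hAmax g hgE hmax ⟨g / y, h1⟩ rfl
        apply hle
        apply Ideal.subset_span
        exact ⟨g, ⟨o, ho, hg.symm⟩, rfl⟩
      obtain ⟨hv0, hv1⟩ := hval A hA
      set degF : Finset ℕ := (Finset.range (2 * n + 1)).filter
        (fun s => ∃ t, A.valuation (gp x (l s) (Φ.S t)) ≠ vm A x (Φ.S t)) with hdegF
      set supF : Finset J := Finset.univ.filter (fun j => Φ.nt x A j) with hsupF
      have hcount : degF.card + supF.card ≤ d := by
        have h1 := hmaster A hA
        have h2 : {s | s < 2 * n + 1 ∧ ∃ t, A.valuation (gp x (l s) (Φ.S t)) ≠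
            vm A x (Φ.S t)} = (degF : Set ℕ) := by
          ext s
          simp [hdegF]
        have h3 : {j | Φ.nt x A j} = (supF : Set J) := by
          ext j
          simp [hsupF]
        rw [h2, h3, Set.ncard_coe_finset, Set.ncard_coe_finset] at h1
        exact h1
      -- every element of `R` has a degenerate block or a ray in the support
      have hcase : ∀ o ∈ R, ∃ w : ℕ ⊕ J, w ∈ degF.disjSum supF ∧
          ((o = none ∧ w = Sum.inl (2 * n)) ∨ (∃ i s, o = some i ∧ s ∈ (en i).blk ∧
            w = Sum.inl s) ∨ ∃ i j s, o = some i ∧ en i = .ray j s ∧ w = Sum.inr j) := by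
        intro o ho
        cases o with
        | none =>
          refine ⟨Sum.inl (2 * n), ?_, Or.inl ⟨rfl, rfl⟩⟩
          rw [Finset.inl_mem_disjSum, hdegF, Finset.mem_filter, Finset.mem_range]
          refine ⟨Nat.lt_succ_self _, ?_⟩
          by_contra hno
          push Not at hno
          exact hnot none ho _ rfl (he₀m _) (hv0 (2 * n) hno)
        | some i =>
          by_cases hb : ∃ s ∈ (en i).blk, ∃ t, A.valuation (gp x (l s) (Φ.S t)) ≠
              vm A x (Φ.S t)
          · obtain ⟨s, hs, hst⟩ := hb
            refine ⟨Sum.inl s, ?_, Or.inr (Or.inl ⟨i, s, rfl, hs, rfl⟩)⟩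
            rw [Finset.inl_mem_disjSum, hdegF, Finset.mem_filter, Finset.mem_range]
            exact ⟨hblk' i s hs, hst⟩
          · push Not at hb
            obtain ⟨hden, hnum⟩ := hv1 (en i) hb
            have hn := hnot (some i) ho _ rfl (heE i (t i))
            have hcaset : t i = true := by
              cases hti : t i with
              | false =>
                exfalso
                apply hn
                show ∀ u ∈ E, A.valuation u ≤ A.valuation (e i (t i))
                rw [hti]
                exact hden
              | true => rfl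
            have hr : ∃ j s, en i = .ray j s ∧ Φ.nt x A j := by
              by_contra hno
              push Not at hno
              apply hn
              show ∀ u ∈ E, A.valuation u ≤ A.valuation (e i (t i))
              rw [hcaset]
              exact hnum hno
            obtain ⟨j, s, hjs, hj⟩ := hr
            refine ⟨Sum.inr j, ?_, Or.inr (Or.inr ⟨i, j, s, rfl, hjs, rfl⟩)⟩
            rw [Finset.inr_mem_disjSum, hsupF, Finset.mem_filter]
            exact ⟨Finset.mem_univ _, hj⟩
      choose! f hf hf' using hcase
      have hinj : Set.InjOn f R := by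
        intro o ho o' ho' hoo
        rcases hf' o ho with ⟨h1, h2⟩ | ⟨i, s, h1, h2, h3⟩ | ⟨i, j, s, h1, h2, h3⟩ <;>
        rcases hf' o' ho' with ⟨h1', h2'⟩ | ⟨i', s', h1', h2', h3'⟩ | ⟨i', j', s', h1', h2', h3'⟩
        · rw [h1, h1']
        · exfalso
          rw [h2, h3'] at hoo
          have := hblk i' s' h2'
          have := Sum.inl.inj hoo
          omega
        · rw [h2, h3'] at hoo; exact absurd hoo (by simp)
        · exfalso
          rw [h3, h2'] at hoo
          have := hblk i s h2
          have := Sum.inl.inj hoo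
          omega
        · rw [h3, h3'] at hoo
          have hss := Sum.inl.inj hoo
          rw [h1, h1']
          by_contra hii
          have hii' : i ≠ i' := fun h => hii (by rw [h])
          have := Finset.disjoint_left.1 (hdisj i i' hii') h2
          rw [hss] at this
          exact this h2'
        · rw [h3, h3'] at hoo; exact absurd hoo (by simp)
        · rw [h3, h2'] at hoo; exact absurd hoo (by simp)
        · rw [h3, h3'] at hoo; exact absurd hoo (by simp)
        · rw [h3, h3'] at hoo
          have hjj := Sum.inr.inj hoo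
          rw [h1, h1']
          by_contra hii
          have hii' : i ≠ i' := fun h => hii (by rw [h])
          subst hjj
          exact hray i i' j s s' hii' h2 h2'
      have hle2 := Finset.card_le_card_of_injOn f (fun o ho => hf o ho) hinj
      rw [Finset.card_disjSum, hR] at hle2
      omega

end X

end Pool.Agent.KM
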