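import Pool.Agent.KM.XDefs

/-! Project KM3 (MP_27fd67_ag), row KM-X5: the relations. -/

set_option autoImplicit false

open Function
open scoped Pointwise

namespace Pool.Agent.KM

section X
variable {k F : Type} [Field k] [Field F] [Algebra k F] {n : ℕ}

theorem exists_rel_aux (d : ℕ) (htr : Algebra.trdeg k F ≤ d) (x : Fin n → F)
    (S : Finset (Fin n)) (hS : S.card = d + 1) : ∃ f : MvPolynomial (Fin n) k, f ≠ 0 ∧
    (∀ i ∈ f.vars, i ∈ S) ∧ MvPolynomial.aeval x f = 0 := by
  classical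
  have h : ¬ AlgebraicIndependent k (fun i : S => x i) := by
    intro h
    have h1 := h.cardinalMk_le_trdeg
    rw [Cardinal.mk_coe_finset, hS] at h1
    have h2 : ((d + 1 : ℕ) : Cardinal) ≤ (d : ℕ) := h1.trans htr
    rw [Nat.cast_le] at h2
    omega
  rw [algebraicIndependent_iff] at h
  push Not at h
  obtain ⟨p, hp, hp0⟩ := h
  refine ⟨MvPolynomial.rename Subtype.val p, ?_, ?_, ?_⟩
  · intro h
    exact hp0 (MvPolynomial.rename_injective _ Subtype.val_injective (h.trans (map_zero _).symm))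
  · intro i hi
    obtain ⟨j, _, rfl⟩ := Finset.mem_image.1 (MvPolynomial.vars_rename _ _ hi)
    exact j.2
  · rw [MvPolynomial.aeval_rename]
    exact hp

theorem exists_rel (d : ℕ) (htr : Algebra.trdeg k F ≤ d) (x : Fin n → F) :
    ∃ H : List (Fin n → ℤ), Rel k x d H := by
  classical
  have h : ∀ S : Finset (Fin n), ∃ f : MvPolynomial (Fin n) k, S.card = d + 1 → f ≠ 0 ∧
      (∀ i ∈ f.vars, i ∈ S) ∧ MvPolynomial.aeval x f = 0 := by
    intro S
    by_cases hS : S.card = d + 1
    · obtain ⟨f, hf⟩ := exists_rel_aux d htr x S hS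
      exact ⟨f, fun _ => hf⟩
    · exact ⟨0, fun h => absurd h hS⟩
  choose f hf using h
  refine ⟨((Finset.univ : Finset (Finset (Fin n))).biUnion fun S =>
    (f S).support.biUnion fun α => (f S).support.image fun α' =>
      (fun i => (α i : ℤ) - α' i)).toList, fun S hS => ?_⟩
  obtain ⟨h1, h2, h3⟩ := hf S hS
  refine ⟨f S, h1, h2, h3, fun α hα α' hα' => ?_⟩
  rw [Finset.mem_toList]
  exact Finset.mem_biUnion.2 ⟨S, Finset.mem_univ _, Finset.mem_biUnion.2 ⟨α, hα,
    Finset.mem_image.2 ⟨α', hα', rfl⟩⟩⟩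

end X

end Pool.Agent.KM
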