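import Pool.Agent.KM.Defs

/-!
KM-Z2: replacing the entries of groups by terms of their expansions; quotients.
-/

set_option autoImplicit false

open Function

namespace Pool.Agent.KM

theorem z2_freeze {F ι κ : Type} [Field F] [DecidableEq ι] [DecidableEq κ] {T : (ι → F) → ℝ}
    (hT : IsM T) (e : κ → ι) (he : Injective e) (z : ι → F) :
    IsM (fun y : κ → F => T (extend e y z)) := by
  have hup : ∀ (y : κ → F) (i : κ) (a : F),
      extend e (update y i a) z = update (extend e y z) (e i) a := by
    intro y i a
    funext l
    by_cases hl : ∃ j, e j = l
    · obtain ⟨j, rfl⟩ := hl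
      rw [he.extend_apply]
      by_cases hj : j = i
      · subst hj
        rw [update_self, update_self]
      · rw [update_of_ne hj, update_of_ne (fun h => hj (he h)), he.extend_apply]
    · have hne : l ≠ e i := fun h => hl ⟨i, h.symm⟩
      rw [extend_apply' _ _ _ hl, update_of_ne hne, extend_apply' _ _ _ hl]
  refine ⟨fun y i hi => hT.zero _ (e i) (by rw [he.extend_apply]; exact hi), ?_, ?_⟩
  · intro y i a b ha hb
    simp only [hup]
    exact hT.mul _ (e i) a b ha hb
  · intro y i j hij h
    exact hT.st _ (e i) (e j) (fun h' => hij (he h')) (by
      rw [he.extend_apply, he.extend_apply]; exact h)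

theorem z2_div {F ι : Type} [Field F] [DecidableEq ι] {T : (ι → F) → ℝ}
    (hT : IsM T) (x : ι → F) (i : ι) {a b : F} (ha : a ≠ 0) (hb : b ≠ 0) :
    T (update x i (a / b)) = T (update x i a) - T (update x i b) := by
  have h := hT.mul x i (a / b) b (div_ne_zero ha hb) hb
  rw [div_mul_cancel₀ a hb] at h
  linarith

/-- replacing the entries of each group by a term of its expansion -/
theorem exists_replace {F γ κ ι : Type} [Field F] [Fintype γ] [DecidableEq γ] [Fintype κ]
    [DecidableEq κ] [DecidableEq ι] (e : γ × κ → ι) (he : Injective e) (T : (ι → F) → ℝ)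
    (hT : IsM T) (x : ι → F) (hx : T x ≠ 0) (L : γ → List ((κ → F) × ℤ))
    (h : ∀ g, ∀ T' : (κ → F) → ℝ, IsM T' →
      T' (fun j => x (e (g, j))) = ((L g).map fun t => (t.2 : ℝ) * T' t.1).sum) :
    ∃ u : γ → (κ → F) × ℤ, (∀ g, u g ∈ L g) ∧
      T (extend e (fun q => (u q.1).1 q.2) x) ≠ 0 := by
  have key : ∀ S : Finset γ, ∃ u : γ → (κ → F) × ℤ, (∀ g ∈ S, u g ∈ L g) ∧
      T (extend e (fun q => if q.1 ∈ S then (u q.1).1 q.2 else x (e q)) x) ≠ 0 := by
    intro S
    induction S using Finset.induction_on with
    | empty =>
      refine ⟨fun _ => (fun _ => 0, 0), by simp, ?_⟩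
      have : extend e (fun q => if q.1 ∈ (∅ : Finset γ) then (0 : F) else x (e q)) x = x := by
        funext i
        by_cases hi : ∃ q, e q = i
        · obtain ⟨q, rfl⟩ := hi
          rw [he.extend_apply]
          simp
        · rw [extend_apply' _ _ _ hi]
      rw [this]
      exact hx
    | insert g S hg ih =>
      obtain ⟨u, hu, hne⟩ := ih
      set z := extend e (fun q => if q.1 ∈ S then (u q.1).1 q.2 else x (e q)) x with hz
      have heg : Injective (fun j => e (g, j)) := fun a b hab => by
        have := he hab
        exact (Prod.mk.inj this).2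
      have hzg : ∀ j, z (e (g, j)) = x (e (g, j)) := by
        intro j
        rw [hz, he.extend_apply]
        simp [hg]
      have h1 := h g _ (z2_freeze hT (fun j => e (g, j)) heg z)
      have h2 : extend (fun j => e (g, j)) (fun j => x (e (g, j))) z = z := by
        funext i
        by_cases hi : ∃ j, e (g, j) = i
        · obtain ⟨j, rfl⟩ := hi
          rw [heg.extend_apply (f := fun j => e (g, j)), hzg]
        · rw [extend_apply' _ _ _ (by simpa using hi)]
      simp only [h2] at h1
      obtain ⟨t, ht, htne⟩ : ∃ t ∈ L g, T (extend (fun j => e (g, j)) t.1 z) ≠ 0 := by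
        by_contra hcon
        push Not at hcon
        apply hne
        rw [h1]
        apply List.sum_eq_zero
        intro r hr
        obtain ⟨t, ht, rfl⟩ := List.mem_map.1 hr
        rw [hcon t ht, mul_zero]
      refine ⟨update u g t, ?_, ?_⟩
      · intro g' hg'
        by_cases hgg : g' = g
        · subst hgg
          rw [update_self]
          exact ht
        · rw [update_of_ne hgg]
          exact hu g' ((Finset.mem_insert.1 hg').resolve_left hgg)
      · have h3 : extend e (fun q => if q.1 ∈ insert g S then ((update u g t) q.1).1 q.2
            else x (e q)) x = extend (fun j => e (g, j)) t.1 z := by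
          funext i
          by_cases hi : ∃ q, e q = i
          · obtain ⟨⟨g', j⟩, rfl⟩ := hi
            rw [he.extend_apply]
            by_cases hgg : g' = g
            · subst hgg
              rw [heg.extend_apply (f := fun j => e (g', j))]
              simp
            · rw [extend_apply']
              · rw [hz, he.extend_apply]
                simp [hgg]
              · rintro ⟨j', hj'⟩
                exact hgg (Prod.mk.inj (he hj')).1.symm
          · rw [extend_apply' _ _ _ hi, extend_apply' _ _ _, hz, extend_apply' _ _ _ hi]
            rintro ⟨j, hj⟩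
            exact hi ⟨_, hj⟩
        rw [h3]
        exact htne
  obtain ⟨u, hu, hne⟩ := key Finset.univ
  refine ⟨u, fun g => hu g (Finset.mem_univ g), ?_⟩
  simpa using hne

/-- from quotients to numerators and denominators -/
theorem exists_mixture {F γ : Type} [Field F] [Fintype γ] [DecidableEq γ] (T : (γ → F) → ℝ)
    (hT : IsM T) (a : γ → Bool → F) (ha : ∀ g b, a g b ≠ 0)
    (h : T (fun g => a g true / a g false) ≠ 0) : ∃ t : γ → Bool, T (fun g => a g (t g)) ≠ 0 := by
  have key : ∀ S : Finset γ, ∃ t : γ → Bool,
      T (fun g => if g ∈ S then a g (t g) else a g true / a g false) ≠ 0 := by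
    intro S
    induction S using Finset.induction_on with
    | empty => exact ⟨fun _ => true, by simpa using h⟩
    | insert g S hg ih =>
      obtain ⟨t, ht⟩ := ih
      set x : γ → F := fun g' => if g' ∈ S then a g' (t g') else a g' true / a g' false with hx
      have h1 : x = update x g (a g true / a g false) := by
        funext g'
        by_cases hgg : g' = g
        · subst hgg
          rw [update_self, hx]
          simp [hg]
        · rw [update_of_ne hgg]
      have h2 : ∀ b, update x g (a g b) =
          fun g' => if g' ∈ insert g S then a g' ((update t g b) g')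
            else a g' true / a g' false := by
        intro b
        funext g'
        by_cases hgg : g' = g
        · subst hgg
          simp
        · simp [hgg, hx]
      rw [h1, z2_div hT x g (ha g true) (ha g false)] at ht
      by_cases hb : T (update x g (a g true)) = 0
      · refine ⟨update t g false, ?_⟩
        rw [← h2]
        intro h0
        rw [hb, h0, sub_zero] at ht
        exact ht rfl
      · refine ⟨update t g true, ?_⟩
        rw [← h2]
        exact hb
  obtain ⟨t, ht⟩ := key Finset.univ
  exact ⟨t, by simpa using ht⟩

end Pool.Agent.KM
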