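import Pool.Agent.KM.ZSpaces

/-!
Project KM2 (MP_27fd67_ag), row KM-Z4: the common space for finitely many rational families, with
a reference family of maximal value.
-/

set_option autoImplicit false
set_option linter.all false

open Function

namespace Pool.Agent.KM

section z4
variable {k F : Type} [Field k] [Field F] [Algebra k F]

/-- a polynomial whose generic value is the maximum over the span of the coefficients of
`P` and `D` -/
theorem z4_ref (P D : MvPolynomial ℕ F) (hP0 : P ≠ 0) (N : ℕ)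
    (hP : ∀ i ∈ P.vars, i < N) (hD : ∀ i ∈ D.vars, i < N) :
    ∃ G : MvPolynomial ℕ F, G ≠ 0 ∧ (∀ l : ℕ → k, ev l G ∈ z1_CS k P ⊔ z1_CS k D) ∧
      ∀ A : ValuationSubring F, Over k A → ∃ γ : A.ValueGroup,
        (∃ u ∈ z1_CS k P ⊔ z1_CS k D, A.valuation u = γ) ∧
        (∀ u ∈ z1_CS k P ⊔ z1_CS k D, A.valuation u ≤ γ) ∧
        ∀ᶠ l in Gen k, A.valuation (ev l G) = γ := by
  classical
  have hc1 : ∀ m ∈ P.support, (P + MvPolynomial.X N * D).coeff m = P.coeff m := by
    intro m hm
    rw [MvPolynomial.coeff_add, MvPolynomial.coeff_X_mul']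
    have hN : N ∉ m.support := by
      intro h
      have := hP N ((MvPolynomial.mem_vars N).mpr ⟨m, hm, h⟩)
      omega
    rw [if_neg hN, add_zero]
  have hc2 : ∀ m ∈ D.support,
      (P + MvPolynomial.X N * D).coeff (Finsupp.single N 1 + m) = D.coeff m := by
    intro m hm
    rw [MvPolynomial.coeff_add, MvPolynomial.coeff_X_mul]
    have hz : P.coeff (Finsupp.single N 1 + m) = 0 := by
      by_contra hne
      have h1 : N ∈ (Finsupp.single N 1 + m).support := by
        rw [Finsupp.mem_support_iff, Finsupp.add_apply, Finsupp.single_eq_same]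
        omega
      have := hP N ((MvPolynomial.mem_vars N).mpr
        ⟨_, MvPolynomial.mem_support_iff.mpr hne, h1⟩)
      omega
    rw [hz, zero_add]
  have hcE : ∀ m, (P + MvPolynomial.X N * D).coeff m ∈ z1_CS k P ⊔ z1_CS k D := by
    intro m
    rw [MvPolynomial.coeff_add, MvPolynomial.coeff_X_mul']
    refine Submodule.add_mem _ (Submodule.mem_sup_left ?_) (Submodule.mem_sup_right ?_)
    · by_cases h : m ∈ P.support
      · exact Submodule.subset_span ⟨m, h, rfl⟩
      · rw [MvPolynomial.notMem_support_iff.mp h]; exact Submodule.zero_mem _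
    · split_ifs with h
      · by_cases h' : m - Finsupp.single N 1 ∈ D.support
        · exact Submodule.subset_span ⟨_, h', rfl⟩
        · rw [MvPolynomial.notMem_support_iff.mp h']; exact Submodule.zero_mem _
      · exact Submodule.zero_mem _
  have hG0 : P + MvPolynomial.X N * D ≠ 0 := by
    obtain ⟨m, hm⟩ := MvPolynomial.ne_zero_iff.mp hP0
    intro h
    apply hm
    rw [← hc1 m (MvPolynomial.mem_support_iff.mpr hm), h, MvPolynomial.coeff_zero]
  refine ⟨P + MvPolynomial.X N * D, hG0, ?_, ?_⟩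
  · intro l
    have hle : z1_CS k (P + MvPolynomial.X N * D) ≤ z1_CS k P ⊔ z1_CS k D := by
      refine Submodule.span_le.mpr ?_
      rintro _ ⟨m, _, rfl⟩
      exact hcE m
    exact hle (z1_ev_mem _ l)
  · intro A hA
    obtain ⟨α, hα, hα1, hα2⟩ := ev_gauss (k := k) (P + MvPolynomial.X N * D) hG0 A hA
    refine ⟨A.valuation ((P + MvPolynomial.X N * D).coeff α), ⟨_, hcE α, rfl⟩, ?_, hα2⟩
    intro u hu
    have hE : z1_CS k P ⊔ z1_CS k D =
        Submodule.span k (((fun m => P.coeff m) '' (P.support : Set (ℕ →₀ ℕ)))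
          ∪ ((fun m => D.coeff m) '' (D.support : Set (ℕ →₀ ℕ)))) := by
      rw [Submodule.span_union]; rfl
    rw [hE] at hu
    refine z1_span_le A hA _ _ ?_ u hu
    rintro s (⟨m, hm, rfl⟩ | ⟨m, hm, rfl⟩)
    · change A.valuation (P.coeff m) ≤ _
      rw [← hc1 m hm]; exact hα1 _
    · change A.valuation (D.coeff m) ≤ _
      rw [← hc2 m hm]; exact hα1 _

theorem moving_spaces2 {ν : Type} [Infinite k] [Fintype ν] [DecidableEq ν] (a : ν → Fam k F)
    (ha : ∀ i, ∃ N, IsRat N (a i)) :
    ∃ (E : Submodule k F) (c : ν → Bool → Fam k F) (r : Fam k F), FiniteDimensional k E ∧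
      E ≠ ⊥ ∧ (∀ i b l, c i b l ∈ E) ∧ (∀ l, r l ∈ E) ∧
      (∀ i b, ∀ᶠ l in Gen k, c i b l ≠ 0) ∧ (∀ᶠ l in Gen k, r l ≠ 0) ∧
      (∀ i, ∀ᶠ l in Gen k, a i l = c i true l / c i false l) ∧
      (∀ A : ValuationSubring F, Over k A →
        ∀ᶠ l in Gen k, ∀ u ∈ E, A.valuation u ≤ A.valuation (r l)) ∧
      ∀ i, Moving (a i) → ∀ b, ∀ A : ValuationSubring F, Over k A →
        ∀ᶠ l in Gen k, ∀ u ∈ E, A.valuation u ≤ A.valuation (c i b l) := by
  have : (Gen k).NeBot := gen_neBot
  choose N P D hP0 hD0 hPN hDN hev using ha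
  choose G hG0 hGm hGA using fun j => z4_ref (k := k) (P j) (D j) (hP0 j) (N j) (hPN j) (hDN j)
  -- the factors
  let R : ν → Bool → ν → MvPolynomial ℕ F :=
    fun i b j => if j = i then (if b then P j else D j) else G j
  have hR0 : ∀ i b j, R i b j ≠ 0 := by
    intro i b j
    simp only [R]
    split_ifs
    · exact hP0 j
    · exact hD0 j
    · exact hG0 j
  let E₀ : ν → Submodule k F := fun j => z1_CS k (P j) ⊔ z1_CS k (D j)
  have hRm : ∀ i b j (l : ℕ → k), ev l (R i b j) ∈ E₀ j := by
    intro i b j l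
    simp only [R]
    split_ifs
    · exact Submodule.mem_sup_left (z1_ev_mem _ _)
    · exact Submodule.mem_sup_right (z1_ev_mem _ _)
    · exact hGm j l
  have hc0 : ∀ i b, ∀ᶠ l in Gen k, ∏ j, ev l (R i b j) ≠ 0 := by
    intro i b
    have : ∀ᶠ l in Gen k, ∀ j, ev l (R i b j) ≠ 0 :=
      Filter.eventually_all.2 fun j => ev_ne_zero _ (hR0 i b j)
    filter_upwards [this] with l hl
    exact Finset.prod_ne_zero_iff.2 fun j _ => hl j
  have hr0 : ∀ᶠ l in Gen k, ∏ j, ev l (G j) ≠ 0 := by
    have : ∀ᶠ l in Gen k, ∀ j, ev l (G j) ≠ 0 :=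
      Filter.eventually_all.2 fun j => ev_ne_zero _ (hG0 j)
    filter_upwards [this] with l hl
    exact Finset.prod_ne_zero_iff.2 fun j _ => hl j
  have hrm : ∀ l : ℕ → k, ∏ j, ev l (G j) ∈ ∏ j, E₀ j := fun l =>
    z1_prod_mem _ _ _ fun j _ => hGm j l
  refine ⟨∏ j, E₀ j, fun i b l => ∏ j, ev l (R i b j), fun l => ∏ j, ev l (G j),
    ?_, ?_, ?_, hrm, hc0, hr0, ?_, ?_, ?_⟩
  · exact (Submodule.fg_iff_finiteDimensional _).1
      (z1_prod_fg _ _ fun j _ => (z1_CS_fg _).sup (z1_CS_fg _))
  · intro hbot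
    obtain ⟨l, hl⟩ := hr0.exists
    have hm := hrm l
    rw [hbot, Submodule.mem_bot] at hm
    exact hl hm
  · intro i b l
    exact z1_prod_mem _ _ _ fun j _ => hRm i b j l
  · intro i
    have h1 : ∀ᶠ l in Gen k, ∀ j, ev l (G j) ≠ 0 :=
      Filter.eventually_all.2 fun j => ev_ne_zero _ (hG0 j)
    filter_upwards [h1, hev i] with l hl hi
    rw [hi, ← Finset.prod_div_distrib, Finset.prod_eq_single i]
    · simp [R]
    · intro j _ hji
      simp only [R, hji, if_false]
      exact div_self (hl j)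
    · intro h; exact absurd (Finset.mem_univ i) h
  · intro A hA
    choose γ _ hγ1 hγ2 using fun j => hGA j A hA
    have h2 : ∀ᶠ l in Gen k, ∀ j, A.valuation (ev l (G j)) = γ j :=
      Filter.eventually_all.2 hγ2
    filter_upwards [h2] with l hl u hu
    rw [map_prod, Finset.prod_congr rfl fun j _ => hl j]
    exact z1_prod_le A hA _ _ _ (fun j _ => hγ1 j) u hu
  · intro i hmov b A hA
    choose γ hγ0 hγ1 hγ2 using fun j => hGA j A hA
    have key : ∀ j, ∀ᶠ l in Gen k, A.valuation (ev l (R i b j)) = γ j := by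
      intro j
      by_cases hji : j = i
      · subst hji
        obtain ⟨α, hα, hα1, hα2⟩ := ev_gauss (k := k) (P j) (hP0 j) A hA
        obtain ⟨β, hβ, hβ1, hβ2⟩ := ev_gauss (k := k) (D j) (hD0 j) A hA
        have heq : A.valuation ((P j).coeff α) = A.valuation ((D j).coeff β) := by
          obtain ⟨l, h1, h2, h3, h4⟩ :=
            ((hmov A hA).and ((hev j).and (hα2.and hβ2))).exists
          rw [h2, map_div₀, h3, h4] at h1
          have hne : A.valuation ((D j).coeff β) ≠ 0 := by
            rw [Valuation.ne_zero_iff]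
            exact MvPolynomial.mem_support_iff.1 hβ
          exact (div_eq_one_iff_eq hne).1 h1
        have hγ : A.valuation ((P j).coeff α) = γ j := by
          apply le_antisymm
          · exact hγ1 j _ (Submodule.mem_sup_left (Submodule.subset_span ⟨α, hα, rfl⟩))
          · obtain ⟨u, hu, hu2⟩ := hγ0 j
            rw [← hu2]
            have hE : z1_CS k (P j) ⊔ z1_CS k (D j) = Submodule.span k
                (((fun m => (P j).coeff m) '' ((P j).support : Set (ℕ →₀ ℕ)))
                ∪ ((fun m => (D j).coeff m) '' ((D j).support : Set (ℕ →₀ ℕ)))) := by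
              rw [Submodule.span_union]; rfl
            rw [hE] at hu
            refine z1_span_le A hA _ _ ?_ u hu
            rintro s (⟨m, _, rfl⟩ | ⟨m, _, rfl⟩)
            · exact hα1 m
            · rw [heq]; exact hβ1 m
        cases b
        · simp only [R, if_true, Bool.false_eq_true, if_false]
          rw [← hγ, heq]; exact hβ2
        · simp only [R, if_true]
          rw [← hγ]; exact hα2
      · simp only [R, hji, if_false]
        exact hγ2 j
    have h2 : ∀ᶠ l in Gen k, ∀ j, A.valuation (ev l (R i b j)) = γ j :=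
      Filter.eventually_all.2 key
    filter_upwards [h2] with l hl u hu
    rw [map_prod, Finset.prod_congr rfl fun j _ => hl j]
    exact z1_prod_le A hA _ _ _ (fun j _ => hγ1 j) u hu

end z4

end Pool.Agent.KM
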