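import Pool.Agent.KM.DField
import Pool.Agent.KM.DGood2
import Pool.Agent.KM.SGrid
import Pool.Agent.KM.SPairs
import Pool.Agent.KM.PGeneral2
import Pool.Agent.KM.CMain
import Pool.Agent.KM.VGen
import Pool.Agent.KM.ZSpaces2
import Pool.Agent.KM.ZExpand
import Pool.Agent.KM.MFreeze
import Pool.Agent.KM.MGroup

/-!
KM-Z5: the final assembly with pairs.
-/

set_option autoImplicit false

open Function

namespace Pool.Agent.KM

/-- general position gives the terminal condition -/
theorem z5_term {k F J : Type} [Field k] [Field F] [Algebra k F] (E : Submodule k F) (e : J → F)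
    (l : ℕ → F) (i : ℕ) (B : Finset J) (S : Set F)
    (hS : ∀ s ∈ S, (∃ g ∈ B, s = e g) ∨ ∃ i' < i, s = l i')
    (h : ∃ j₀, ∀ j, j₀ ≤ j → E ^ (j + 1) ≤ Submodule.span k S * E ^ j) :
    Term E e (LL k l i) B := by
  obtain ⟨j₀, h⟩ := h
  refine ⟨j₀, fun j hj => (h j hj).trans ?_⟩
  have h1 : Submodule.span k S ≤ (⨆ g ∈ B, Submodule.span k {e g}) ⊔ LL k l i := by
    refine Submodule.span_le.mpr ?_
    intro s hs
    rcases hS s hs with ⟨g, hg, rfl⟩ | ⟨i', hi', rfl⟩
    · refine Submodule.mem_sup_left ?_
      exact Submodule.mem_iSup_of_mem g (Submodule.mem_iSup_of_mem hg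
        (Submodule.mem_span_singleton_self _))
    · exact Submodule.mem_sup_right (Submodule.subset_span ⟨i', hi', rfl⟩)
  refine (mul_le_mul' h1 le_rfl).trans ?_
  rw [Submodule.sup_mul]
  simp only [Submodule.iSup_mul]
  exact le_rfl

/-- the case of transcendence degree zero -/
theorem z5_zero (p : ℕ) [Fact p.Prime] (k F : Type) [Field k] [Field F] [Algebra k F]
    [Algebra (ZMod p) k] [Algebra.IsAlgebraic (ZMod p) k]
    (htr : Algebra.trdeg k F ≤ (0 : ℕ)) (n : ℕ) (hn : 1 ≤ n)
    (T : (Fin n → F) → ℝ) (hT : IsM T) (x : Fin n → F) : T x = 0 := by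
  have h0 : Algebra.trdeg k F = 0 := le_antisymm (by exact_mod_cast htr) zero_le
  have halg : Algebra.IsAlgebraic k F := _root_.trdeg_eq_zero_iff.mp h0
  let _ : Algebra (ZMod p) F := ((algebraMap k F).comp (algebraMap (ZMod p) k)).toAlgebra
  have : IsScalarTower (ZMod p) k F := IsScalarTower.of_algebraMap_eq' rfl
  have h1 : Algebra.IsAlgebraic (ZMod p) F := Algebra.IsAlgebraic.trans (ZMod p) k F
  let i : Fin n := ⟨0, hn⟩
  by_cases hx : x i = 0
  · exact hT.zero x i hx
  have h2 : Tors (algebraMap F F (x i)) := tors_of_algebraic p F F (x i) hx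
  have h3 := hT.tors x i h2
  simpa using h3

theorem main_functional2 (p : ℕ) [Fact p.Prime] (k F : Type) [Field k] [Field F] [Algebra k F]
    [Algebra (ZMod p) k] [Algebra.IsAlgebraic (ZMod p) k] [Infinite k] (d : ℕ)
    (htr : Algebra.trdeg k F ≤ d) (n : ℕ) (hn : (d + 1) * (2 ^ d - 1) + 1 ≤ n)
    (T : (Fin n → F) → ℝ) (hT : IsM T) (x : Fin n → F) : T x = 0 := by
  classical
  rcases Nat.eq_zero_or_pos d with hd0 | hd
  · subst hd0
    exact z5_zero p k F htr n (by omega) T hT x
  by_contra hne
  have hchar : CharP k p := charP_of_injective_algebraMap (algebraMap (ZMod p) k).injective p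
  have htors : ∀ c : k, c ≠ 0 → Tors (algebraMap k F c) := tors_of_algebraic p k F
  have hbot : (Gen k).NeBot := gen_neBot
  have hx : ∀ i, x i ≠ 0 := fun i hi => hne (hT.zero x i hi)
  obtain ⟨M, hM⟩ : ∃ M, 2 ^ d = M + 1 := ⟨2 ^ d - 1, by have := Nat.one_le_two_pow (n := d); omega⟩
  have hM' : 2 ^ d - 1 = M := by omega
  rw [hM'] at hn
  obtain ⟨e, he⟩ : ∃ e : (Fin M × Fin (d + 1)) ⊕ Unit → Fin n, Injective e := by
    have hc : Fintype.card ((Fin M × Fin (d + 1)) ⊕ Unit) ≤ Fintype.card (Fin n) := by
      simp only [Fintype.card_sum, Fintype.card_prod, Fintype.card_fin, Fintype.card_unit]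
      rw [mul_comm]
      exact hn
    obtain ⟨f⟩ := Function.Embedding.nonempty_of_card_le hc
    exact ⟨f, f.injective⟩
  have he₁ : Injective (fun q => e (Sum.inl q)) := fun a b h => Sum.inl_injective (he h)
  have hdep : ∀ g : Fin M, ¬ AlgebraicIndependent k (fun j => x (e (Sum.inl (g, j)))) := by
    intro g h
    have h1 := h.lift_cardinalMk_le_trdeg
    simp only [Cardinal.lift_id, Cardinal.mk_fin] at h1
    have h2 := h1.trans htr
    have h3 : d + 1 ≤ d := by exact_mod_cast h2
    omega
  choose L hL1 hL2 using fun g => claimM htors (fun j => x (e (Sum.inl (g, j))))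
    (fun j => hx _) (hdep g)
  -- all families: the raw entry, and all entries of all tuples
  let ν : Type := Option (Σ g : Fin M, Fin (L g).length × Fin (d + 1))
  let a : ν → Fam k F := fun q => match q with
    | none => fun _ => x (e (Sum.inr ()))
    | some q => ((L q.1).get q.2.1).1 q.2.2
  have haR : ∀ q, ∃ N, IsRat N (a q) := by
    rintro (_ | ⟨g, i, j⟩)
    · exact ⟨0, IsRat.const _ (hx _)⟩
    · exact (hL1 g _ (List.get_mem _ _)).1 _
  obtain ⟨E, c, r, hfin, hE, hcE, hrE, hc0, hr0, hac, hrv, hcv⟩ := moving_spaces2 a haR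
  let τ : Type := Option (ν × Bool)
  let Q : τ → Fam k F := fun t => match t with
    | none => r
    | some (q, b) => c q b
  let mov : τ → Prop := fun t => match t with
    | none => True
    | some (q, _) => Moving (a q)
  have hQE : ∀ t l, Q t l ∈ E := by
    rintro (_ | ⟨q, b⟩) l
    · exact hrE l
    · exact hcE q b l
  have hQv : ∀ t, mov t → ∀ A : ValuationSubring F, Over k A →
      ∀ᶠ l in Gen k, ∀ u ∈ E, A.valuation u ≤ A.valuation (Q t l) := by
    rintro (_ | ⟨q, b⟩) ht A hA
    · exact hrv A hA
    · exact hcv q ht b A hA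
  have hQ0 : ∀ t, ∀ᶠ l in Gen k, Q t l ≠ 0 := by
    rintro (_ | ⟨q, b⟩)
    · exact hr0
    · exact hc0 q b
  obtain ⟨l, hl, hgp⟩ := general_position2 (Λ := ℕ → k) (τ := τ) d (2 ^ d + 1 + d) htr E hE
    (Gen k) (fun _ t l => Q t l) (fun _ t l => hQE t l) (fun _ t => mov t)
    (fun _ t ht A hA => hQv t ht A hA) (fun _ t => hQ0 t)
    (fun _ => {l | (∀ g, ∀ T' : (Fin (d + 1) → F) → ℝ, IsM T' →
        T' (fun j => x (e (Sum.inl (g, j)))) =
          ((L g).map fun t => (t.2.2 : ℝ) * T' (fun j => t.1 j l)).sum) ∧
        (∀ q : ν, a q l = c q true l / c q false l) ∧ (∀ t : τ, Q t l ≠ 0)})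
    (by
      intro s
      refine (Filter.eventually_all.mpr hL2).and ((Filter.eventually_all.mpr fun q => hac q).and ?_)
      exact Filter.eventually_all.mpr fun t => hQ0 t)
  -- stages
  let sg : ∀ j : ℕ, j < 2 ^ d + 1 + d → Fin (2 ^ d + 1 + d) := fun j hj => ⟨j, hj⟩
  have hsgM : ∀ g : Fin M, g.1 + 1 < 2 ^ d + 1 + d := fun g => by have := g.2; omega
  obtain ⟨u, hu, hTu⟩ := exists_replace (fun q => e (Sum.inl q)) he₁ T hT x hne
    (fun g => (L g).map fun t => (fun j => t.1 j (l (sg (g.1 + 1) (hsgM g))), t.2.2)) (by
      intro g T' hT'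
      rw [(hl (sg (g.1 + 1) (hsgM g))).1 g T' hT', List.map_map]
      rfl)
  have hidx : ∀ g, ∃ i : Fin (L g).length,
      u g = (fun j => ((L g).get i).1 j (l (sg (g.1 + 1) (hsgM g))), ((L g).get i).2.2) := by
    intro g
    obtain ⟨t, ht, htu⟩ := List.mem_map.mp (hu g)
    obtain ⟨i, hi⟩ := List.get_of_mem ht
    exact ⟨i, by rw [hi]; exact htu.symm⟩
  choose idx hidx using hidx
  obtain ⟨z, hz⟩ : ∃ z, z = extend (fun q => e (Sum.inl q)) (fun q => (u q.1).1 q.2) x := ⟨_, rfl⟩
  rw [← hz] at hTu
  have hz1 : ∀ (g : Fin M) (j : Fin (d + 1)), z (e (Sum.inl (g, j))) =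
      a (some ⟨g, idx g, j⟩) (l (sg (g.1 + 1) (hsgM g))) := by
    intro g j
    rw [hz]
    have := he₁.extend_apply (fun q => (u q.1).1 q.2) x (g, j)
    refine this.trans ?_
    simp only [a]
    rw [hidx g]
  have hz0 : z (e (Sum.inr ())) = x (e (Sum.inr ())) := by
    rw [hz]
    apply extend_apply'
    rintro ⟨q, hq⟩
    exact absurd (he hq) (by simp)
  let pos : Fin M → Fin (d + 1) := fun g => ((L g).get (idx g)).2.1
  have hoth : ∀ g : Fin M, ∃ j : Fin (d + 1), j ≠ pos g := by
    intro g
    by_cases h : pos g = ⟨0, by omega⟩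
    · refine ⟨⟨1, by omega⟩, ?_⟩
      rw [h]
      intro h'
      exact absurd (congrArg Fin.val h') (by simp)
    · exact ⟨⟨0, by omega⟩, fun h' => h h'.symm⟩
  choose oth hoth using hoth
  have hmovpos : ∀ g : Fin M, Moving (a (some ⟨g, idx g, pos g⟩)) :=
    fun g => (hL1 g _ (List.get_mem _ _)).2
  -- the pairs
  let J : Type := Fin (2 ^ d) × Bool
  have hlast : M < 2 ^ d := by omega
  let o₀ : J := (⟨M, hlast⟩, true)
  let fam : J → ν := fun q => match q with
    | (j, true) => if h : j.1 < M then some ⟨⟨j.1, h⟩, idx ⟨j.1, h⟩, pos ⟨j.1, h⟩⟩ else none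
    | (j, false) => if h : j.1 = 0 then none else
        some ⟨⟨j.1 - 1, by have := j.2; omega⟩, idx ⟨j.1 - 1, by have := j.2; omega⟩,
          oth ⟨j.1 - 1, by have := j.2; omega⟩⟩
  let loc : J → Fin n := fun q => match q with
    | (j, true) => if h : j.1 < M then e (Sum.inl (⟨j.1, h⟩, pos ⟨j.1, h⟩)) else e (Sum.inr ())
    | (j, false) => if h : j.1 = 0 then e (Sum.inr ()) else
        e (Sum.inl (⟨j.1 - 1, by have := j.2; omega⟩, oth ⟨j.1 - 1, by have := j.2; omega⟩))
  have hst : ∀ q : J, q.1.1 + (if q.2 then 1 else 0) < 2 ^ d + 1 + d := by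
    intro q
    have := q.1.2
    split_ifs <;> omega
  let st : J → Fin (2 ^ d + 1 + d) := fun q => ⟨q.1.1 + (if q.2 then 1 else 0), hst q⟩
  have hloc : ∀ q : J, q ≠ o₀ → z (loc q) = a (fam q) (l (st q)) := by
    rintro ⟨j, b⟩ hq
    cases b
    · by_cases h : j.1 = 0
      · have h1 : loc (j, false) = e (Sum.inr ()) := by simp only [loc, h, dif_pos]
        have h2 : fam (j, false) = none := by simp only [fam, h, dif_pos]
        rw [h1, h2, hz0]
      · have h1 : loc (j, false) = e (Sum.inl (⟨j.1 - 1, by have := j.2; omega⟩,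
            oth ⟨j.1 - 1, by have := j.2; omega⟩)) := by simp only [loc, h, dif_neg, not_false_iff]
        have h2 : fam (j, false) = some ⟨⟨j.1 - 1, by have := j.2; omega⟩,
            idx ⟨j.1 - 1, by have := j.2; omega⟩, oth ⟨j.1 - 1, by have := j.2; omega⟩⟩ := by
          simp only [fam, h, dif_neg, not_false_iff]
        have h3 : sg (j.1 - 1 + 1) (by have := j.2; omega) = st (j, false) := by
          apply Fin.ext
          simp only [sg, st, Bool.false_eq_true, if_false]
          omega
        rw [h1, h2, hz1, ← h3]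
    · have h : j.1 < M := by
        have h1 := j.2
        by_contra h2
        apply hq
        have h3 : j = ⟨M, hlast⟩ := Fin.ext (by simp only; omega)
        simp only [o₀, h3]
      have h1 : loc (j, true) = e (Sum.inl (⟨j.1, h⟩, pos ⟨j.1, h⟩)) := by
        simp only [loc, h, dif_pos]
      have h2 : fam (j, true) = some ⟨⟨j.1, h⟩, idx ⟨j.1, h⟩, pos ⟨j.1, h⟩⟩ := by
        simp only [fam, h, dif_pos]
      have h3 : sg (j.1 + 1) (by have := j.2; omega) = st (j, true) := by
        apply Fin.ext
        simp only [sg, st, if_true]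
      rw [h1, h2, hz1, ← h3]
  let κ : Type := {q : J // q ≠ o₀}
  let e' : κ → Fin n := fun q => loc q.1
  have he' : Injective e' := by
    rintro ⟨⟨j, b⟩, hq⟩ ⟨⟨j', b'⟩, hq'⟩ h
    apply Subtype.ext
    have key : ∀ (j : Fin (2 ^ d)), (j, true) ≠ o₀ → j.1 < M := by
      intro j hq
      have h1 := j.2
      by_contra h2
      apply hq
      have h3 : j = ⟨M, hlast⟩ := Fin.ext (by simp only; omega)
      simp only [o₀, h3]
    simp only [e'] at h
    have hmix : ∀ (j j' : Fin (2 ^ d)), (j, true) ≠ o₀ → loc (j, true) ≠ loc (j', false) := by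
      intro j j' hq h
      have h1 : loc (j, true) = e (Sum.inl (⟨j.1, key j hq⟩, pos ⟨j.1, key j hq⟩)) := by
        simp only [loc, key j hq, dif_pos]
      by_cases h0 : j'.1 = 0
      · have h2 : loc (j', false) = e (Sum.inr ()) := by simp only [loc, h0, dif_pos]
        rw [h1, h2] at h
        exact absurd (he h) (by simp)
      · have h2 : loc (j', false) = e (Sum.inl (⟨j'.1 - 1, by have := j'.2; omega⟩,
            oth ⟨j'.1 - 1, by have := j'.2; omega⟩)) := by
          simp only [loc, h0, dif_neg, not_false_iff]
        rw [h1, h2] at h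
        have h3 := Sum.inl_injective (he h)
        have h4 := (Prod.mk.inj h3).1
        have h5 := (Prod.mk.inj h3).2
        rw [h4] at h5
        exact hoth _ h5.symm
    cases b <;> cases b'
    · by_cases h0 : j.1 = 0 <;> by_cases h0' : j'.1 = 0
      · have : j = j' := Fin.ext (by omega)
        subst this
        rfl
      · simp only [loc, h0, h0', dif_pos, dif_neg, not_false_iff] at h
        exact absurd (he h) (by simp)
      · simp only [loc, h0, h0', dif_pos, dif_neg, not_false_iff] at h
        exact absurd (he h) (by simp)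
      · simp only [loc, h0, h0', dif_neg, not_false_iff] at h
        have h3 := Sum.inl_injective (he h)
        have h4 := congrArg Fin.val (Prod.mk.inj h3).1
        simp only at h4
        have : j = j' := Fin.ext (by omega)
        subst this
        rfl
    · exact absurd h.symm (hmix j' j hq')
    · exact absurd h (hmix j j' hq)
    · have h1 := key j hq
      have h2 := key j' hq'
      simp only [loc, h1, h2, dif_pos] at h
      have h3 := Sum.inl_injective (he h)
      have h4 := congrArg Fin.val (Prod.mk.inj h3).1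
      simp only at h4
      have : j = j' := Fin.ext (by omega)
      subst this
      rfl
  have hT' := hT.freeze e' he' z
  -- the elements
  let ty : (J → Bool) → J → τ := fun t q => if q = o₀ then none else some (fam q, t q)
  let w : (J → Bool) → J → F := fun t q => Q (ty t q) (l (st q))
  have hstl : ∀ i : ℕ, 2 ^ d + 1 + min i (d - 1) < 2 ^ d + 1 + d := by
    intro i
    have := min_le_right i (d - 1)
    omega
  let ll : ℕ → F := fun i => r (l ⟨2 ^ d + 1 + min i (d - 1), hstl i⟩)
  have hmovw : ∀ (t : J → Bool) (j : Fin (2 ^ d)), mov (ty t (j, true)) := by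
    intro t j
    by_cases hq : (j, true) = o₀
    · simp only [ty, hq, if_true, mov]
    · have h : j.1 < M := by
        have h1 := j.2
        by_contra h2
        apply hq
        have h3 : j = ⟨M, hlast⟩ := Fin.ext (by simp only; omega)
        simp only [o₀, h3]
      have h2 : fam (j, true) = some ⟨⟨j.1, h⟩, idx ⟨j.1, h⟩, pos ⟨j.1, h⟩⟩ := by
        simp only [fam, h, dif_pos]
      have h3 : ty t (j, true) = some (fam (j, true), t (j, true)) := if_neg hq
      rw [h3, h2]
      exact hmovpos _
  have hJ : ∀ (t : J → Bool) (o : J), RpB E (w t) ll d d (Finset.univ.erase o) := by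
    intro t
    apply pairs_RpB
    · -- one element and the elements `ll`
      intro j b
      obtain ⟨s₀, hs₀⟩ : ∃ s₀, s₀ = st (j, b) := ⟨_, rfl⟩
      have hs₀lt : s₀.1 ≤ 2 ^ d := by
        rw [hs₀]
        have := j.2
        simp only [st]
        split_ifs <;> omega
      let R : Finset (Fin (2 ^ d + 1 + d)) :=
        insert s₀ (Finset.univ.image fun i : Fin d => ⟨2 ^ d + 1 + i.1, by have := i.2; omega⟩)
      have hRc : R.card = d + 1 := by
        rw [Finset.card_insert_of_notMem, Finset.card_image_of_injective, Finset.card_univ,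
          Fintype.card_fin]
        · intro i i' h
          have := congrArg Fin.val h
          simp only at this
          exact Fin.ext (by omega)
        · intro h
          obtain ⟨i, _, hi⟩ := Finset.mem_image.mp h
          have := congrArg Fin.val hi
          simp only at this
          omega
      let tt : Fin (2 ^ d + 1 + d) → τ := fun s => if s = s₀ then ty t (j, b) else none
      refine z5_term E (w t) ll d {(j, b)} _ ?_ (hgp R hRc tt ?_)
      · rintro _ ⟨s, hs, rfl⟩
        rcases Finset.mem_insert.mp (Finset.mem_coe.mp hs) with h | h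
        · left
          refine ⟨(j, b), Finset.mem_singleton_self _, ?_⟩
          simp only [tt, h, if_true, w, hs₀]
        · right
          obtain ⟨i, _, hi⟩ := Finset.mem_image.mp h
          refine ⟨i.1, i.2, ?_⟩
          have hne' : s ≠ s₀ := by
            rintro rfl
            have := congrArg Fin.val hi
            simp only at this
            omega
          simp only [tt, hne', if_false, ll, Q]
          congr 2
          rw [← hi]
          apply Fin.ext
          have := i.2
          have : min i.1 (d - 1) = i.1 := min_eq_left (by omega)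
          simp only [this]
      · rintro g hg ⟨h, hh, hhg⟩
        by_cases hgs : g = s₀
        · exfalso
          rcases Finset.mem_insert.mp hh with h1 | h1
          · rw [h1, hgs] at hhg
            exact lt_irrefl _ hhg
          · obtain ⟨i, _, hi⟩ := Finset.mem_image.mp h1
            rw [Fin.lt_def, hgs, ← hi] at hhg
            simp only at hhg
            omega
        · simp only [tt, hgs, if_false, mov]
    · -- a `y`, later `w`s, and the elements `ll`
      intro j R₀ i hR₀ hcard
      obtain ⟨s₀, hs₀⟩ : ∃ s₀, s₀ = st (j, false) := ⟨_, rfl⟩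
      have hs₀v : s₀.1 = j.1 := by rw [hs₀]; simp [st]
      let R : Finset (Fin (2 ^ d + 1 + d)) :=
        insert s₀ ((R₀.image fun q => st (q, true)) ∪
          (Finset.univ.image fun i' : Fin i => ⟨2 ^ d + 1 + i'.1, by have := i'.2; omega⟩))
      have hstv : ∀ q : Fin (2 ^ d), (st (q, true)).1 = q.1 + 1 := fun q => by simp [st]
      have hRc : R.card = d + 1 := by
        rw [Finset.card_insert_of_notMem, Finset.card_union_of_disjoint,
          Finset.card_image_of_injective, Finset.card_image_of_injective, Finset.card_univ,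
          Fintype.card_fin, hcard]
        · intro i i' h
          have := congrArg Fin.val h
          simp only at this
          exact Fin.ext (by omega)
        · intro q q' h
          have := congrArg Fin.val h
          rw [hstv, hstv] at this
          exact Fin.ext (by omega)
        · rw [Finset.disjoint_left]
          intro s h1 h2
          obtain ⟨q, _, hq⟩ := Finset.mem_image.mp h1
          obtain ⟨i', _, hi'⟩ := Finset.mem_image.mp h2
          have h3 := congrArg Fin.val (hq.trans hi'.symm)
          rw [hstv] at h3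
          have := q.2
          simp only at h3
          omega
        · intro h
          rcases Finset.mem_union.mp h with h | h
          · obtain ⟨q, hq0, hq⟩ := Finset.mem_image.mp h
            have h3 := congrArg Fin.val hq
            rw [hstv, hs₀v] at h3
            have := Fin.le_def.mp (hR₀ q hq0)
            omega
          · obtain ⟨i', _, hi'⟩ := Finset.mem_image.mp h
            have h3 := congrArg Fin.val hi'
            rw [hs₀v] at h3
            have := j.2
            simp only at h3
            omega
      let tt : Fin (2 ^ d + 1 + d) → τ := fun s => if s = s₀ then ty t (j, false) else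
        if h : 1 ≤ s.1 ∧ s.1 ≤ 2 ^ d then ty t (⟨s.1 - 1, by omega⟩, true) else none
      have hlt : ∀ g ∈ R, g ≠ s₀ → s₀ < g := by
        intro g hg hne'
        rcases Finset.mem_insert.mp hg with h | h
        · exact absurd h hne'
        · rw [Fin.lt_def, hs₀v]
          rcases Finset.mem_union.mp h with h | h
          · obtain ⟨q, hq0, hq⟩ := Finset.mem_image.mp h
            rw [← hq, hstv]
            have := Fin.le_def.mp (hR₀ q hq0)
            omega
          · obtain ⟨i', _, hi'⟩ := Finset.mem_image.mp h
            rw [← hi']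
            have := j.2
            simp only
            omega
      refine z5_term E (w t) ll i _ _ ?_ (hgp R hRc tt ?_)
      · rintro _ ⟨s, hs, rfl⟩
        have hs' := hs
        rcases Finset.mem_insert.mp (Finset.mem_coe.mp hs) with h | h
        · left
          refine ⟨(j, false), Finset.mem_insert_self _ _, ?_⟩
          simp only [tt, h, if_true, w, hs₀]
        · have hne' : s ≠ s₀ := by
            rintro rfl
            rcases Finset.mem_union.mp h with h | h
            · obtain ⟨q, hq0, hq⟩ := Finset.mem_image.mp h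
              have h3 := congrArg Fin.val hq
              rw [hstv, hs₀v] at h3
              have := Fin.le_def.mp (hR₀ q hq0)
              omega
            · obtain ⟨i', _, hi'⟩ := Finset.mem_image.mp h
              have h3 := congrArg Fin.val hi'
              rw [hs₀v] at h3
              have := j.2
              simp only at h3
              omega
          rcases Finset.mem_union.mp h with h | h
          · left
            obtain ⟨q, hq0, hq⟩ := Finset.mem_image.mp h
            refine ⟨(q, true), Finset.mem_insert_of_mem (Finset.mem_image_of_mem _ hq0), ?_⟩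
            have h1 : 1 ≤ s.1 ∧ s.1 ≤ 2 ^ d := by
              rw [← hq, hstv]
              have := q.2
              omega
            have h2 : (⟨s.1 - 1, by omega⟩ : Fin (2 ^ d)) = q := by
              apply Fin.ext
              simp only
              rw [← hq, hstv]
              omega
            simp only [tt, hne', if_false, h1, w, hq]
            rw [dif_pos ⟨trivial, trivial⟩, h2]
          · right
            obtain ⟨i', _, hi'⟩ := Finset.mem_image.mp h
            have hi'd := i'.2
            refine ⟨i'.1, i'.2, ?_⟩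
            have h1 : ¬ (1 ≤ s.1 ∧ s.1 ≤ 2 ^ d) := by
              rw [← hi']
              simp only
              omega
            simp only [tt, hne', if_false, h1, dif_neg, not_false_iff, ll, Q]
            congr 2
            rw [← hi']
            apply Fin.ext
            have : min i'.1 (d - 1) = i'.1 := min_eq_left (by omega)
            simp only [this]
      · rintro g hg ⟨h, hh, hhg⟩
        by_cases hgs : g = s₀
        · exfalso
          by_cases hhs : h = s₀
          · rw [hhs, hgs] at hhg
            exact lt_irrefl _ hhg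
          · have := hlt h hh hhs
            rw [hgs] at hhg
            exact lt_asymm this hhg
        · simp only [tt, hgs, if_false]
          split_ifs with h1
          · exact hmovw t _
          · exact trivial
  have hwE : ∀ t q, w t q ∈ E := fun t q => hQE _ _
  have hne0 : Nonempty J := ⟨o₀⟩
  obtain ⟨V, q, hVfin, hq0, hqV, hgen⟩ := grid2 (k := k) (J := J) (J → Bool) J E hE w hwE ll
    (fun i => hrE _) d (fun o => Finset.univ.erase o) hJ
  have hw0 : ∀ t g, w t g ≠ 0 := fun t g => (hl (st g)).2.2 _
  have hdivv : ∀ g : κ, Q (some (fam g.1, true)) (l (st g.1)) / Q (some (fam g.1, false)) (l (st g.1))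
      = z (e' g) := by
    intro g
    have h1 := (hl (st g.1)).2.1 (fam g.1)
    change c (fam g.1) true (l (st g.1)) / c (fam g.1) false (l (st g.1)) = z (loc g.1)
    rw [← h1, hloc g.1 g.2]
  obtain ⟨r₀, hr₀⟩ : ∃ r₀, r₀ = r (l (st o₀)) := ⟨_, rfl⟩
  have hr₀ne : r₀ ≠ 0 := by rw [hr₀]; exact (hl (st o₀)).2.2 none
  obtain ⟨t, ht⟩ := exists_mixture (fun y => T (extend e' y z)) hT'
    (fun g b => Q (some (fam g.1, b)) (l (st g.1)) * q g.1 / (r₀ * q o₀))
    (fun g b => div_ne_zero (mul_ne_zero ((hl (st g.1)).2.2 (some (fam g.1, b))) (hq0 g.1))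
      (mul_ne_zero hr₀ne (hq0 o₀))) (by
      have h1 : extend e' (fun g => (Q (some (fam g.1, true)) (l (st g.1)) * q g.1 / (r₀ * q o₀)) /
          (Q (some (fam g.1, false)) (l (st g.1)) * q g.1 / (r₀ * q o₀))) z = z := by
        funext i
        by_cases hi : ∃ g, e' g = i
        · obtain ⟨g, rfl⟩ := hi
          rw [he'.extend_apply, div_div_div_cancel_right₀ (mul_ne_zero hr₀ne (hq0 o₀)),
            mul_div_mul_right _ _ (hq0 g.1), hdivv]
        · rw [extend_apply' _ _ _ hi]
      rw [h1]
      exact hTu)
  apply ht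
  have hVV : FiniteDimensional k ↥(V * V) :=
    Module.Finite.iff_fg.mpr ((Module.Finite.iff_fg.mp hVfin).mul (Module.Finite.iff_fg.mp hVfin))
  let t' : J → Bool := fun g => if h : g ≠ o₀ then t ⟨g, h⟩ else true
  let φ : Option κ → J := fun o => match o with
    | none => o₀
    | some g => g.1
  have hφ : Injective φ := by
    rintro (_ | g) (_ | g') h
    · rfl
    · exact absurd h.symm g'.2
    · exact absurd h g.2
    · exact congrArg some (Subtype.ext h)
  have hφs : Surjective φ := by
    intro g
    by_cases h : g = o₀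
    · exact ⟨none, h.symm⟩
    · exact ⟨some ⟨g, h⟩, rfl⟩
  have hκ : Nonempty κ := by
    refine ⟨⟨(⟨M, hlast⟩, false), ?_⟩⟩
    intro h
    exact absurd (congrArg Prod.snd h) (by simp [o₀])
  have hmain := good_zero2 p k F κ V (V * V) le_rfl (fun o => w t' (φ o) * q (φ o))
    (fun o => hqV t' (φ o)) (fun o => mul_ne_zero (hw0 _ _) (hq0 _)) (by
      intro o
      refine (hgen t' (φ o)).trans (mul_le_mul' (Submodule.span_mono ?_) le_rfl)
      rintro _ ⟨g, hg, rfl⟩
      obtain ⟨o', rfl⟩ := hφs g
      refine ⟨o', ?_, rfl⟩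
      intro h
      rw [Set.mem_singleton_iff] at h
      subst h
      exact absurd rfl (Finset.ne_of_mem_erase (Finset.mem_coe.mp hg)))
    (fun y => T (extend e' y z)) hT'
  refine Eq.trans ?_ hmain
  congr 2
  funext g
  have h1 : w t' (φ (some g)) = Q (some (fam g.1, t g)) (l (st g.1)) := by
    have h2 : ty t' g.1 = some (fam g.1, t' g.1) := if_neg g.2
    have h3 : t' g.1 = t g := dif_pos g.2
    change Q (ty t' g.1) (l (st g.1)) = _
    rw [h2, h3]
  have h4 : w t' (φ none) = r₀ := by
    have h2 : ty t' o₀ = none := if_pos rfl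
    change Q (ty t' o₀) (l (st o₀)) = _
    rw [h2, hr₀]
  simp only [h1, h4]
  rfl

end Pool.Agent.KM
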