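import Pool.Agent.KM.XGenpos
import Pool.Agent.KM.BGpos
import Pool.Agent.KM.ZMain2

/-!
KM3 (MP_27fd67_ag): the final assembly. Functionals of Milnor type of `n` entries vanish if
`d + 1 ≤ n` and `2 ^ (d + 1) ≤ n + 4`.
-/

set_option autoImplicit false

open Function

namespace Pool.Agent.KM

/-- a common bound for all sign types -/
theorem z6_gpos {k F : Type} [Field k] [Field F] [Algebra k F] {n : ℕ} (d : ℕ)
    (E : Submodule k F) (e₀ : F) (e : Fin n → Bool → F) (heE : ∀ i b, e i b ∈ E)
    (h : ∀ (t : Fin n → Bool) (R : Finset (Option (Fin n))), R.card = d + 1 →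
        ∃ j₀, ∀ j, j₀ ≤ j → E ^ (j + 1) ≤
          Submodule.span k ((fun o : Option (Fin n) => o.elim e₀ (fun i => e i (t i))) '' R) *
            E ^ j) :
    ∃ j₀, ∀ ε : Fin n → Bool, GPos E (fun i => e i (ε i)) d j₀ := by
  classical
  choose f hf using h
  let s : Finset ((Fin n → Bool) × Finset (Option (Fin n))) := Finset.univ
  let g : (Fin n → Bool) × Finset (Option (Fin n)) → ℕ := fun q =>
    if h : q.2.card = d + 1 then f q.1 q.2 h else 0
  refine ⟨s.sup g, fun ε => ⟨fun i => heE i _, fun R hR j hj => ?_⟩⟩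
  have hR' : (R.map Embedding.some).card = d + 1 := by rw [Finset.card_map, hR]
  have h1 : f ε (R.map Embedding.some) hR' ≤ j := by
    refine le_trans ?_ hj
    have h2 : g (ε, R.map Embedding.some) ≤ s.sup g := Finset.le_sup (Finset.mem_univ _)
    simpa only [g, hR', dite_true] using h2
  have h3 := hf ε (R.map Embedding.some) hR' j h1
  have h4 : (fun o : Option (Fin n) => o.elim e₀ (fun i => e i (ε i))) ''
      (R.map Embedding.some : Finset (Option (Fin n))) = (fun i => e i (ε i)) '' R := by
    ext y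
    simp
  rw [h4] at h3
  exact h3

/-- Functionals of Milnor type over an infinite field of constants algebraic over `𝔽_p`. -/
theorem main_functional3 (p : ℕ) [Fact p.Prime] (k F : Type) [Field k] [Field F] [Algebra k F]
    [Algebra (ZMod p) k] [Algebra.IsAlgebraic (ZMod p) k] [Infinite k] (d : ℕ)
    (htr : Algebra.trdeg k F ≤ d) (n : ℕ) (hn : d + 1 ≤ n) (hn' : 2 ^ (d + 1) ≤ n + 4)
    (T : (Fin n → F) → ℝ) (hT : IsM T) (x : Fin n → F) : T x = 0 := by
  have : CharP k p := charP_of_injective_algebraMap (algebraMap (ZMod p) k).injective p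
  rcases Nat.eq_zero_or_pos d with rfl | hd
  · exact z5_zero p k F htr n (by omega) T hT x
  by_contra hTx
  obtain ⟨E, e₀, e, hE, -, -, heE, he, hTe, hR⟩ := genpos d htr T hT x hTx
  obtain ⟨j₀, hj⟩ := z6_gpos d E e₀ e heE hR
  exact hTe (gpos_zero p k F (Fin n) d j₀ hd (by simpa using hn) (by simpa using hn') E e he hj
    T hT)

end Pool.Agent.KM
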