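import Pool.Agent.KM.BGpos2
import Pool.Agent.KM.ZMain3

/-!
KM4 (MP_27fd67_ag): the final assembly. Functionals of Milnor type of `n` entries vanish if
`2 ^ d ≤ n`.
-/

set_option autoImplicit false

open Function

namespace Pool.Agent.KM

/-- Functionals of Milnor type over an infinite field of constants algebraic over `𝔽_p`. -/
theorem main_functional4 (p : ℕ) [Fact p.Prime] (k F : Type) [Field k] [Field F] [Algebra k F]
    [Algebra (ZMod p) k] [Algebra.IsAlgebraic (ZMod p) k] [Infinite k] (d : ℕ)
    (htr : Algebra.trdeg k F ≤ d) (n : ℕ) (hn : 2 ^ d ≤ n)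
    (T : (Fin n → F) → ℝ) (hT : IsM T) (x : Fin n → F) : T x = 0 := by
  have : CharP k p := charP_of_injective_algebraMap (algebraMap (ZMod p) k).injective p
  rcases Nat.eq_zero_or_pos d with rfl | hd
  · exact z5_zero p k F htr n (by simpa using hn) T hT x
  by_contra hTx
  obtain ⟨E, e₀, e, hE, -, -, heE, he, hTe, hR⟩ := genpos d htr T hT x hTx
  obtain ⟨j₀, hj⟩ := z6_gpos d E e₀ e heE hR
  exact hTe (gpos_zero2 p k F (Fin n) d j₀ hd (by simpa using hn) E e he hj T hT)

end Pool.Agent.KM
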